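import Mathlib

/-! Winding numbers of periodic loops in `ℂ \ {0}`. -/

namespace Pool.Agent.Lib.MP_1e9af3_an

open Set Filter Topology Complex

noncomputable section

/-- `2 π i`. -/
def tpi : ℂ := 2 * Real.pi * I

lemma tpi_ne : tpi ≠ 0 := by
  unfold tpi; simp [Real.pi_ne_zero]

lemma norm_tpi : ‖tpi‖ = 2 * Real.pi := by
  unfold tpi; simp [abs_of_pos Real.pi_pos]

/-- `e(x) = exp (2 π i x)`. -/
def ee (x : ℂ) : ℂ := exp (tpi * x)

lemma ee_ne (x : ℂ) : ee x ≠ 0 := exp_ne_zero _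
lemma ee_add (x y : ℂ) : ee (x + y) = ee x * ee y := by simp [ee, mul_add, exp_add]
lemma ee_zero : ee 0 = 1 := by simp [ee]
lemma ee_int (n : ℤ) : ee n = 1 := by
  unfold ee tpi; rw [mul_comm]; exact exp_int_mul_two_pi_mul_I n
lemma ee_one : ee 1 = 1 := by simpa using ee_int 1
lemma ee_add_one (x : ℂ) : ee (x + 1) = ee x := by rw [ee_add, ee_one, mul_one]
lemma ee_add_int (x : ℂ) (n : ℤ) : ee (x + n) = ee x := by rw [ee_add, ee_int, mul_one]
lemma ee_neg (x : ℂ) : ee (-x) = (ee x)⁻¹ := by simp [ee, exp_neg]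
lemma ee_sub (x y : ℂ) : ee (x - y) = ee x / ee y := by
  rw [sub_eq_add_neg, ee_add, ee_neg, div_eq_mul_inv]
lemma norm_ee (x : ℂ) : ‖ee x‖ = Real.exp (-(2 * Real.pi * x.im)) := by
  unfold ee tpi; rw [norm_exp]; congr 1; simp
lemma norm_ee_real (x : ℝ) : ‖ee x‖ = 1 := by rw [norm_ee]; simp
lemma ee_eq_iff {x y : ℂ} : ee x = ee y ↔ ∃ n : ℤ, x = y + n := by
  unfold ee
  rw [exp_eq_exp_iff_exists_int]
  constructor
  · rintro ⟨n, hn⟩
    refine ⟨n, mul_left_cancel₀ tpi_ne ?_⟩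
    rw [hn]; unfold tpi; ring
  · rintro ⟨n, rfl⟩
    exact ⟨n, by unfold tpi; ring⟩
lemma ee_zsmul (k : ℤ) (x : ℂ) : ee (k * x) = ee x ^ k := by
  unfold ee; rw [← exp_int_mul]; congr 1; ring
lemma ee_nsmul (k : ℕ) (x : ℂ) : ee (k * x) = ee x ^ k := by
  unfold ee; rw [← exp_nat_mul]; congr 1; ring
@[fun_prop] lemma differentiable_ee : Differentiable ℂ ee := by unfold ee; fun_prop
@[fun_prop] lemma continuous_ee : Continuous ee := differentiable_ee.continuous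
lemma hasDerivAt_ee (x : ℂ) : HasDerivAt ee (tpi * ee x) x := by
  unfold ee
  have := ((hasDerivAt_id x).const_mul tpi).cexp
  simpa [mul_comm] using this
lemma ee_log {w : ℂ} (hw : w ≠ 0) : ee (log w / tpi) = w := by
  unfold ee; rw [mul_div_cancel₀ _ tpi_ne, exp_log hw]
lemma exp_eq_ee (z : ℂ) : exp z = ee (z / tpi) := by
  unfold ee; rw [mul_div_cancel₀ _ tpi_ne]

/-- A continuous integer valued function on a preconnected set is constant. -/
lemma int_const {X : Type*} [TopologicalSpace X] {S : Set X} (hS : IsPreconnected S)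
    {g : X → ℂ} (hg : ContinuousOn g S) (hi : ∀ x ∈ S, ∃ n : ℤ, g x = n) {x y : X}
    (hx : x ∈ S) (hy : y ∈ S) : g x = g y := by
  have hd : IsDiscrete (range ((↑) : ℤ → ℂ)) :=
    Complex.isClosedEmbedding_intCast.isInducing.isDiscrete_range
  exact hS.constant_of_mapsTo hd hg (fun z hz => by obtain ⟨n, hn⟩ := hi z hz; exact ⟨n, hn.symm⟩)
    hx hy

/-- Lifting through `ee` on a convex open set. -/
lemma exists_lift {E : Type*} [NormedAddCommGroup E] [NormedSpace ℝ E] {U : Set E}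
    (hU : Convex ℝ U) (hUo : IsOpen U) (hne : U.Nonempty) {g : E → ℂ} (hg : ContinuousOn g U)
    (h0 : ∀ x ∈ U, g x ≠ 0) : ∃ l : E → ℂ, ContinuousOn l U ∧ ∀ x ∈ U, ee (l x) = g x := by
  have hsc : IsSimplyConnected U := by
    have := hU.contractibleSpace hne
    exact SimplyConnectedSpace.ofContractible U
  obtain ⟨f, hf, hfe⟩ := exists_continuousOn_eqOn_exp_comp hsc hUo hg
    (by rintro ⟨x, hx, h⟩; exact h0 x hx h)
  refine ⟨fun x => f x / tpi, hf.div_const _, fun x hx => ?_⟩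
  rw [← exp_eq_ee]; exact hfe hx

/-- `Γ` is a loop with winding number `k` around `0`. -/
def HasWind (Γ : ℝ → ℂ) (k : ℤ) : Prop :=
  ∃ l : ℝ → ℂ, Continuous l ∧ (∀ θ, ee (l θ) = Γ θ) ∧ ∀ θ, l (θ + 1) = l θ + k

/-- A loop avoiding `0`. -/
structure Loop (Γ : ℝ → ℂ) : Prop where
  cont : Continuous Γ
  ne : ∀ θ, Γ θ ≠ 0
  per : ∀ θ, Γ (θ + 1) = Γ θ

lemma HasWind.loop {Γ : ℝ → ℂ} {k : ℤ} (h : HasWind Γ k) : Loop Γ := by
  obtain ⟨l, hl, he, hp⟩ := h
  refine ⟨?_, fun θ => he θ ▸ ee_ne _, fun θ => ?_⟩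
  · have : Γ = fun θ => ee (l θ) := funext fun θ => (he θ).symm
    rw [this]; fun_prop
  · rw [← he, ← he, hp, ee_add_int]

lemma lift_step {l : ℝ → ℂ} (hl : Continuous l) (hp : ∀ θ, ee (l (θ + 1)) = ee (l θ)) :
    ∃ k : ℤ, ∀ θ, l (θ + 1) = l θ + k := by
  obtain ⟨k, hk⟩ := ee_eq_iff.1 (hp 0)
  refine ⟨k, fun θ => ?_⟩
  have := int_const (S := univ) isPreconnected_univ (g := fun θ => l (θ + 1) - l θ)
    (by fun_prop) (fun x _ => by obtain ⟨n, hn⟩ := ee_eq_iff.1 (hp x); exact ⟨n, by simp [hn]⟩)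
    (mem_univ θ) (mem_univ 0)
  rw [hk] at this
  linear_combination this

lemma Loop.exists_wind {Γ : ℝ → ℂ} (h : Loop Γ) : ∃ k, HasWind Γ k := by
  obtain ⟨l, hl, he⟩ := exists_lift (U := (univ : Set ℝ)) convex_univ isOpen_univ univ_nonempty
    h.cont.continuousOn (fun x _ => h.ne x)
  have hl' : Continuous l := continuousOn_univ.1 hl
  obtain ⟨k, hk⟩ := lift_step hl' (fun θ => by rw [he _ trivial, he _ trivial, h.per])
  exact ⟨k, l, hl', fun θ => he θ trivial, hk⟩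

lemma HasWind.unique {Γ : ℝ → ℂ} {k k' : ℤ} (h : HasWind Γ k) (h' : HasWind Γ k') : k = k' := by
  obtain ⟨l, hl, he, hp⟩ := h
  obtain ⟨l', hl', he', hp'⟩ := h'
  have := int_const (S := univ) isPreconnected_univ (g := fun θ => l θ - l' θ)
    (by fun_prop) (fun x _ => by
      obtain ⟨n, hn⟩ := ee_eq_iff.1 ((he x).trans (he' x).symm); exact ⟨n, by simp [hn]⟩)
    (mem_univ (0 + 1)) (mem_univ 0)
  simp only [hp, hp'] at this
  have h2 : (k : ℂ) = k' := by linear_combination this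
  exact_mod_cast h2

open Classical in
/-- The winding number. -/
def wind (Γ : ℝ → ℂ) : ℤ := if h : ∃ k, HasWind Γ k then h.choose else 0

lemma HasWind.wind_eq {Γ : ℝ → ℂ} {k : ℤ} (h : HasWind Γ k) : wind Γ = k := by
  have h' : ∃ k, HasWind Γ k := ⟨k, h⟩
  unfold wind; rw [dif_pos h']; exact h'.choose_spec.unique h

lemma Loop.hasWind {Γ : ℝ → ℂ} (h : Loop Γ) : HasWind Γ (wind Γ) := by
  obtain ⟨k, hk⟩ := h.exists_wind
  rw [hk.wind_eq]; exact hk

lemma HasWind.mul {Γ Δ : ℝ → ℂ} {k m : ℤ} (h : HasWind Γ k) (h' : HasWind Δ m) :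
    HasWind (fun θ => Γ θ * Δ θ) (k + m) := by
  obtain ⟨l, hl, he, hp⟩ := h
  obtain ⟨l', hl', he', hp'⟩ := h'
  refine ⟨fun θ => l θ + l' θ, hl.add hl', fun θ => by rw [ee_add, he, he'], fun θ => ?_⟩
  simp only [hp, hp']; push_cast; ring

lemma HasWind.inv {Γ : ℝ → ℂ} {k : ℤ} (h : HasWind Γ k) : HasWind (fun θ => (Γ θ)⁻¹) (-k) := by
  obtain ⟨l, hl, he, hp⟩ := h
  refine ⟨fun θ => - l θ, hl.neg, fun θ => by rw [ee_neg, he], fun θ => ?_⟩
  simp only [hp]; push_cast; ring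

lemma hasWind_const {c : ℂ} (hc : c ≠ 0) : HasWind (fun _ => c) 0 :=
  ⟨fun _ => log c / tpi, continuous_const, fun _ => ee_log hc, fun _ => by simp⟩

lemma HasWind.pow {Γ : ℝ → ℂ} {k : ℤ} (h : HasWind Γ k) (n : ℕ) :
    HasWind (fun θ => Γ θ ^ n) (n * k) := by
  obtain ⟨l, hl, he, hp⟩ := h
  refine ⟨fun θ => n * l θ, by fun_prop, fun θ => by rw [ee_nsmul, he], fun θ => ?_⟩
  simp only [hp]; push_cast; ring

lemma HasWind.shift {Γ : ℝ → ℂ} {k : ℤ} (h : HasWind Γ k) (a : ℝ) :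
    HasWind (fun θ => Γ (θ + a)) k := by
  obtain ⟨l, hl, he, hp⟩ := h
  refine ⟨fun θ => l (θ + a), by fun_prop, fun θ => he _, fun θ => ?_⟩
  simp only [add_right_comm θ 1 a, hp]

lemma hasWind_ee (y : ℂ) : HasWind (fun θ : ℝ => ee (θ + y)) 1 :=
  ⟨fun θ => θ + y, by fun_prop, fun _ => rfl, fun θ => by push_cast; ring⟩

lemma HasWind.congr {Γ Δ : ℝ → ℂ} {k : ℤ} (h : HasWind Γ k) (he : ∀ θ, Γ θ = Δ θ) :
    HasWind Δ k := by
  have : Γ = Δ := funext he
  exact this ▸ h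

lemma hasWind_circle {c : ℂ} (hc : c ≠ 0) : HasWind (fun θ : ℝ => c * ee θ) 1 := by
  have := (hasWind_const hc).mul (hasWind_ee 0)
  simpa using this

lemma hasWind_slit {Γ : ℝ → ℂ} (hc : Continuous Γ) (hs : ∀ θ, Γ θ ∈ slitPlane)
    (hp : ∀ θ, Γ (θ + 1) = Γ θ) : HasWind Γ 0 :=
  ⟨fun θ => log (Γ θ) / tpi, (hc.clog hs).div_const _, fun θ => ee_log (slitPlane_ne_zero (hs θ)),
    fun θ => by simp [hp]⟩

lemma mem_slit_of_close {a b : ℂ} (h : ‖b - a‖ < ‖a‖) : b / a ∈ slitPlane := by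
  have ha : a ≠ 0 := by rintro rfl; simp at h; exact absurd h (not_lt.2 (norm_nonneg _))
  have : b / a = 1 + (b - a) / a := by field_simp; ring
  rw [this]
  apply mem_slitPlane_of_norm_lt_one
  rw [norm_div, div_lt_one (norm_pos_iff.2 ha)]; exact h

/-- Dog on a leash. -/
lemma HasWind.close {Γ Δ : ℝ → ℂ} {k : ℤ} (h : HasWind Γ k) (hc : Continuous Δ)
    (hp : ∀ θ, Δ (θ + 1) = Δ θ) (hd : ∀ θ, ‖Δ θ - Γ θ‖ < ‖Γ θ‖) : HasWind Δ k := by
  have hL := h.loop
  have h1 : HasWind (fun θ => Δ θ / Γ θ) 0 :=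
    hasWind_slit (hc.div hL.cont hL.ne) (fun θ => mem_slit_of_close (hd θ))
      (fun θ => by rw [hp, hL.per])
  have := h.mul h1
  rw [add_zero] at this
  exact this.congr fun θ => by have := hL.ne θ; field_simp

lemma Loop.mul {Γ Δ : ℝ → ℂ} (h : Loop Γ) (h' : Loop Δ) : Loop (fun θ => Γ θ * Δ θ) :=
  (h.hasWind.mul h'.hasWind).loop

lemma wind_mul {Γ Δ : ℝ → ℂ} (h : Loop Γ) (h' : Loop Δ) :
    wind (fun θ => Γ θ * Δ θ) = wind Γ + wind Δ := (h.hasWind.mul h'.hasWind).wind_eq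

lemma per_int {X : Type*} {Γ : ℝ → X} (hp : ∀ θ, Γ (θ + 1) = Γ θ) (n : ℤ) (θ : ℝ) :
    Γ (θ + n) = Γ θ := by
  have : Function.Periodic Γ 1 := hp
  simpa using (this.int_mul n) θ

lemma per_fract {X : Type*} {Γ : ℝ → X} (hp : ∀ θ, Γ (θ + 1) = Γ θ) (θ : ℝ) :
    Γ θ = Γ (Int.fract θ) := by
  rw [← per_int hp ⌊θ⌋ (Int.fract θ), Int.fract_add_floor]

lemma forall_of_Icc {P : ℝ → Prop} (hp : ∀ θ, P (θ + 1) ↔ P θ) (h : ∀ θ ∈ Icc (0:ℝ) 1, P θ)
    (θ : ℝ) : P θ := by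
  have : P θ = P (Int.fract θ) := per_fract (fun θ => propext (hp θ)) θ
  rw [this]
  exact h _ ⟨Int.fract_nonneg _, (Int.fract_lt_one _).le⟩

/-- Local constancy of the winding number in a continuous family. -/
lemma wind_eventually {T : Type*} [TopologicalSpace T] {H : T → ℝ → ℂ} {S : Set T} {t₀ : T}
    (ht₀ : t₀ ∈ S) (hc : ContinuousOn (fun p : T × ℝ => H p.1 p.2) (S ×ˢ univ))
    (hne : ∀ θ, H t₀ θ ≠ 0) (hp : ∀ t ∈ S, ∀ θ, H t (θ + 1) = H t θ) :
    ∀ᶠ t in 𝓝[S] t₀, wind (H t) = wind (H t₀) := by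
  have hcont : ∀ t ∈ S, Continuous (H t) := fun t ht => by
    rw [← continuousOn_univ]
    exact hc.comp (f := fun θ => (t, θ)) (by fun_prop) (fun θ _ => ⟨ht, trivial⟩)
  have hL : Loop (H t₀) := ⟨hcont _ ht₀, hne, hp _ ht₀⟩
  have key : ∀ᶠ t in 𝓝 t₀, ∀ θ ∈ Icc (0:ℝ) 1, t ∈ S → ‖H t θ - H t₀ θ‖ < ‖H t₀ θ‖ := by
    apply isCompact_Icc.eventually_forall_of_forall_eventually
    intro θ _
    have h1 : ContinuousWithinAt (fun p : T × ℝ => ‖H t₀ p.2‖ - ‖H p.1 p.2 - H t₀ p.2‖)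
        (S ×ˢ univ) (t₀, θ) := by
      have h2 : Continuous (fun p : T × ℝ => H t₀ p.2) := hL.cont.comp continuous_snd
      exact h2.norm.continuousWithinAt.sub
        (((hc (t₀, θ) ⟨ht₀, trivial⟩).sub h2.continuousWithinAt).norm)
    have h3 : (0:ℝ) < ‖H t₀ θ‖ - ‖H t₀ θ - H t₀ θ‖ := by simpa using hne θ
    have h4 := h1.eventually (lt_mem_nhds h3)
    rw [eventually_nhdsWithin_iff] at h4
    filter_upwards [h4] with p hp hS
    have := hp ⟨hS, trivial⟩
    linarith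
  filter_upwards [self_mem_nhdsWithin, nhdsWithin_le_nhds key] with t ht hk
  refine (hL.hasWind.close (hcont t ht) (hp t ht) ?_).wind_eq
  exact forall_of_Icc (P := fun θ => ‖H t θ - H t₀ θ‖ < ‖H t₀ θ‖)
    (fun θ => by simp only [hp t ht, hL.per]) (fun θ hθ => hk θ hθ ht)

/-- Homotopy invariance. -/
lemma wind_homotopy {T : Type*} [TopologicalSpace T] {H : T → ℝ → ℂ} {S : Set T}
    (hS : IsPreconnected S) (hc : ContinuousOn (fun p : T × ℝ => H p.1 p.2) (S ×ˢ univ))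
    (hne : ∀ t ∈ S, ∀ θ, H t θ ≠ 0) (hp : ∀ t ∈ S, ∀ θ, H t (θ + 1) = H t θ) {s t : T}
    (hs : s ∈ S) (ht : t ∈ S) : wind (H s) = wind (H t) := by
  have : ContinuousOn (fun t => wind (H t)) S := fun t₀ ht₀ =>
    (tendsto_pure.2 (wind_eventually ht₀ hc (hne _ ht₀) hp)).mono_right (pure_le_nhds _)
  exact hS.constant this hs ht

lemma hasWind_prod {ι : Type*} (s : Finset ι) {Γ : ι → ℝ → ℂ} {k : ι → ℤ}
    (h : ∀ i ∈ s, HasWind (Γ i) (k i)) : HasWind (fun θ => ∏ i ∈ s, Γ i θ) (∑ i ∈ s, k i) := by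
  classical
  induction s using Finset.induction_on with
  | empty => simpa using hasWind_const (c := 1) one_ne_zero
  | insert a s ha ih =>
    simp only [Finset.prod_insert ha, Finset.sum_insert ha]
    exact (h a (Finset.mem_insert_self _ _)).mul
      (ih fun i hi => h i (Finset.mem_insert_of_mem hi))

lemma hasWind_multiset_prod (Γ : ℝ → ℂ) (s : Multiset ℂ) {k : ℂ → ℤ}
    (h : ∀ z ∈ s, HasWind (fun θ => Γ θ - z) (k z)) :
    HasWind (fun θ => (s.map fun z => Γ θ - z).prod) (s.map k).sum := by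
  induction s using Multiset.induction_on with
  | empty => simpa using hasWind_const (c := 1) one_ne_zero
  | cons a s ih =>
    simp only [Multiset.map_cons, Multiset.prod_cons, Multiset.sum_cons]
    exact (h a (Multiset.mem_cons_self _ _)).mul
      (ih fun i hi => h i (Multiset.mem_cons_of_mem hi))

/-- Argument principle for polynomials. -/
lemma wind_poly {Γ : ℝ → ℂ} (hc : Continuous Γ) (hp : ∀ θ, Γ (θ + 1) = Γ θ) (p : Polynomial ℂ)
    (hne : ∀ θ, p.eval (Γ θ) ≠ 0) :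
    wind (fun θ => p.eval (Γ θ)) = (p.roots.map fun z => wind (fun θ => Γ θ - z)).sum := by
  have hp0 : p ≠ 0 := by rintro rfl; exact hne 0 (by simp)
  have hsp := (IsAlgClosed.splits p).eq_prod_roots
  have h1 := hasWind_multiset_prod Γ p.roots (k := fun z => wind (fun θ => Γ θ - z))
    (fun z hz => Loop.hasWind ⟨by fun_prop, fun θ h => hne θ (by
      rw [sub_eq_zero.1 h]; exact Polynomial.isRoot_of_mem_roots hz), fun θ => by rw [hp]⟩)
  have h2 := (hasWind_const (Polynomial.leadingCoeff_ne_zero.2 hp0)).mul h1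
  rw [zero_add] at h2
  refine (h2.congr fun θ => ?_).wind_eq
  conv_rhs => rw [hsp]
  simp [Polynomial.eval_multiset_prod]

/-- Winding along the diagonal of a torus. -/
lemma wind_torus {g : ℝ → ℝ → ℂ} (hc : Continuous fun p : ℝ × ℝ => g p.1 p.2)
    (hne : ∀ s t, g s t ≠ 0) (hp1 : ∀ s t, g (s + 1) t = g s t)
    (hp2 : ∀ s t, g s (t + 1) = g s t) (a : ℝ) :
    wind (fun θ => g (θ + a) θ) = wind (fun θ => g θ 0) + wind (fun θ => g 0 θ) := by
  obtain ⟨l, hl, he⟩ := exists_lift (U := (univ : Set (ℝ × ℝ))) convex_univ isOpen_univ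
    univ_nonempty hc.continuousOn (fun x _ => hne _ _)
  have hl' : Continuous l := continuousOn_univ.1 hl
  have he' : ∀ s t, ee (l (s, t)) = g s t := fun s t => he _ trivial
  obtain ⟨k, hk⟩ := lift_step (l := fun θ => l (θ, 0)) (by fun_prop) (fun θ => by simp [he', hp1])
  obtain ⟨m, hm⟩ := lift_step (l := fun θ => l (0, θ)) (by fun_prop) (fun θ => by simp [he', hp2])
  have h1 : ∀ s t, l (s + 1, t) = l (s, t) + k := fun s t => by
    have := int_const (S := univ) isPreconnected_univ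
      (g := fun p : ℝ × ℝ => l (p.1 + 1, p.2) - l p) (by fun_prop)
      (fun x _ => by
        obtain ⟨n, hn⟩ := ee_eq_iff.1 (show ee (l (x.1 + 1, x.2)) = ee (l (x.1, x.2)) by
          rw [he', he', hp1]); exact ⟨n, by simp [hn]⟩)
      (mem_univ (s, t)) (mem_univ (0, 0))
    have h3 := hk 0
    simp only at this h3
    linear_combination this + h3
  have h2 : ∀ s t, l (s, t + 1) = l (s, t) + m := fun s t => by
    have := int_const (S := univ) isPreconnected_univ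
      (g := fun p : ℝ × ℝ => l (p.1, p.2 + 1) - l p) (by fun_prop)
      (fun x _ => by
        obtain ⟨n, hn⟩ := ee_eq_iff.1 (show ee (l (x.1, x.2 + 1)) = ee (l (x.1, x.2)) by
          rw [he', he', hp2]); exact ⟨n, by simp [hn]⟩)
      (mem_univ (s, t)) (mem_univ (0, 0))
    have h3 := hm 0
    simp only at this h3
    linear_combination this + h3
  have e1 : HasWind (fun θ => g θ 0) k := ⟨fun θ => l (θ, 0), by fun_prop, fun θ => he' _ _, hk⟩
  have e2 : HasWind (fun θ => g 0 θ) m := ⟨fun θ => l (0, θ), by fun_prop, fun θ => he' _ _, hm⟩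
  have e3 : HasWind (fun θ => g (θ + a) θ) (k + m) :=
    ⟨fun θ => l (θ + a, θ), by fun_prop, fun θ => he' _ _, fun θ => by
      simp only [add_right_comm θ 1 a, h1, h2]; push_cast; ring⟩
  rw [e1.wind_eq, e2.wind_eq, e3.wind_eq]

/-- The mean displacement of a lifted loop. -/
lemma avg_shift {l : ℝ → ℂ} (hl : Continuous l) {k : ℂ} (hp : ∀ θ, l (θ + 1) = l θ + k) (a : ℝ) :
    ∫ θ in (0:ℝ)..1, (l (θ + a) - l θ) = k * a := by
  have hi : ∀ u v, IntervalIntegrable l MeasureTheory.volume u v :=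
    fun u v => hl.intervalIntegrable u v
  rw [intervalIntegral.integral_sub
    ((show Continuous fun θ => l (θ + a) by fun_prop).intervalIntegrable _ _) (hi _ _),
    intervalIntegral.integral_comp_add_right l a, zero_add]
  have h1 : ∫ θ in (1:ℝ)..1 + a, l θ = (∫ θ in (0:ℝ)..a, l θ) + k * a := by
    have := intervalIntegral.integral_comp_add_right (a := 0) (b := a) l 1
    rw [zero_add, add_comm a 1] at this
    rw [← this]
    simp only [hp]
    rw [intervalIntegral.integral_add (hi _ _) (by simp)]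
    simp [mul_comm]
  have h2 := intervalIntegral.integral_add_adjacent_intervals (hi a 1) (hi 1 (1 + a))
  have h3 := intervalIntegral.integral_add_adjacent_intervals (hi 0 a) (hi a 1)
  rw [← h2, ← h3, h1]; ring

end

end Pool.Agent.Lib.MP_1e9af3_an
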