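import Pool.Agent.Lib.MP_1e9af3_an.Wind

/-! Complex analysis toolbox. -/

namespace Pool.Agent.Lib.MP_1e9af3_an

open Set Filter Topology Complex Metric

noncomputable section

lemma maps_of_bdd {f : ℂ → ℂ} {c : ℂ} {R M : ℝ} (hR : 0 < R) (hb : ∀ z ∈ ball c R, ‖f z‖ ≤ M) :
    MapsTo f (ball c R) (closedBall (f c) (2 * M)) := fun z hz => by
  rw [mem_closedBall, dist_eq_norm]
  have := hb z hz
  have := hb c (mem_ball_self hR)
  linarith [norm_sub_le (f z) (f c)]

lemma deriv_le_of_bdd {f : ℂ → ℂ} {c : ℂ} {R M : ℝ} (hR : 0 < R)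
    (hd : DifferentiableOn ℂ f (ball c R)) (hb : ∀ z ∈ ball c R, ‖f z‖ ≤ M) :
    ‖deriv f c‖ ≤ 2 * M / R :=
  norm_deriv_le_div_of_mapsTo_ball hd (maps_of_bdd hR hb) hR

lemma lip_of_bdd {f : ℂ → ℂ} {c z : ℂ} {R M : ℝ} (hd : DifferentiableOn ℂ f (ball c R))
    (hb : ∀ z ∈ ball c R, ‖f z‖ ≤ M) (hz : z ∈ ball c R) :
    ‖f z - f c‖ ≤ 2 * M / R * ‖z - c‖ := by
  have := dist_le_div_mul_dist_of_mapsTo_ball hd (maps_of_bdd (pos_of_mem_ball hz) hb) hz
  simpa [dist_eq_norm] using this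

/-- Second order remainder from a bound of the remainder itself. -/
lemma taylor_of_rem {f : ℂ → ℂ} {c z : ℂ} {R K : ℝ} (hd : DifferentiableOn ℂ f (ball c R))
    (hb : ∀ w ∈ ball c R, ‖f w - f c - deriv f c * (w - c)‖ ≤ K) (hz : z ∈ ball c R) :
    ‖f z - f c - deriv f c * (z - c)‖ ≤ K * (‖z - c‖ / R) ^ 2 := by
  have hR := pos_of_mem_ball hz
  have hdc : HasDerivAt f (deriv f c) c :=
    (hd.differentiableAt (ball_mem_nhds c hR)).hasDerivAt
  have := dist_le_mul_div_pow_of_mapsTo_ball_of_isLittleO (n := 1) (R₂ := K)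
    (f := fun w => f w - f c - deriv f c * (w - c)) (c := c) (z := z) (R₁ := R)
    ((hd.sub_const _).sub (by fun_prop))
    (fun w hw => by simpa [dist_eq_norm] using hb w hw)
    (by
      have h := hdc.isLittleO
      simp only [sub_self, mul_zero, sub_zero, pow_one]
      refine (h.congr_left fun w => by simp [mul_comm]).trans_isBigO ?_
      exact Asymptotics.isBigO_norm_right.2 (Asymptotics.isBigO_refl _ _)) hz
  simpa [dist_eq_norm] using this

lemma taylor_of_bdd {f : ℂ → ℂ} {c z : ℂ} {R M : ℝ} (hd : DifferentiableOn ℂ f (ball c R))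
    (hb : ∀ z ∈ ball c R, ‖f z‖ ≤ M) (hz : z ∈ ball c R) :
    ‖f z - f c - deriv f c * (z - c)‖ ≤ 4 * M * (‖z - c‖ / R) ^ 2 := by
  have hR := pos_of_mem_ball hz
  refine taylor_of_rem hd (fun w hw => ?_) hz
  have h1 := maps_of_bdd hR hb hw
  rw [mem_closedBall, dist_eq_norm] at h1
  have h2 := deriv_le_of_bdd hR hd hb
  have h3 : ‖w - c‖ ≤ R := by rw [mem_ball, dist_eq_norm] at hw; exact hw.le
  have hM : 0 ≤ M := (norm_nonneg _).trans (hb c (mem_ball_self hR))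
  calc _ ≤ ‖f w - f c‖ + ‖deriv f c * (w - c)‖ := norm_sub_le _ _
    _ ≤ 2 * M + 2 * M / R * R := by
      rw [norm_mul]; gcongr
    _ = 4 * M := by field_simp; ring

/-- Montel along an ultrafilter. -/
lemma montel {ι : Type*} (𝒰 : Ultrafilter ι) {U : Set ℂ} (hU : IsOpen U) {F : ι → ℂ → ℂ} {M : ℝ}
    (hd : ∀ i, DifferentiableOn ℂ (F i) U) (hb : ∀ i, ∀ z ∈ U, ‖F i z‖ ≤ M) :
    ∃ g : ℂ → ℂ, DifferentiableOn ℂ g U ∧ TendstoLocallyUniformlyOn F g 𝒰 U ∧
      ∀ z ∈ U, Tendsto (fun i => F i z) 𝒰 (𝓝 (g z)) := by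
  have h1 : ∀ z, ∃ y, z ∈ U → Tendsto (fun i => F i z) 𝒰 (𝓝 y) := fun z => by
    by_cases hz : z ∈ U
    · obtain ⟨y, -, hy⟩ := (isCompact_closedBall (0:ℂ) M).ultrafilter_le_nhds'
        (𝒰.map fun i => F i z) (Ultrafilter.mem_map.2 (univ_mem' fun i => by
          simpa using hb i z hz))
      exact ⟨y, fun _ => hy⟩
    · exact ⟨0, fun h => absurd h hz⟩
  choose g hg using h1
  have h2 : TendstoLocallyUniformlyOn F g 𝒰 U := by
    rw [Metric.tendstoLocallyUniformlyOn_iff]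
    intro ε hε x hx
    obtain ⟨R, hR, hRU⟩ := Metric.isOpen_iff.1 hU x hx
    have hM : 0 ≤ M := by
      obtain ⟨i⟩ := (𝒰 : Filter ι).nonempty_of_neBot
      exact (norm_nonneg _).trans (hb i x hx)
    set L := 2 * M / R with hL
    have hL0 : 0 ≤ L := by positivity
    have hlip : ∀ i, ∀ z ∈ ball x R, ‖F i z - F i x‖ ≤ L * ‖z - x‖ := fun i z hz =>
      lip_of_bdd ((hd i).mono hRU) (fun w hw => hb i w (hRU hw)) hz
    have hlipg : ∀ z ∈ ball x R, ‖g z - g x‖ ≤ L * ‖z - x‖ := fun z hz =>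
      le_of_tendsto' (((hg z (hRU hz)).sub (hg x hx)).norm) fun i => hlip i z hz
    set δ := min R (ε / 3 / (L + 1)) with hδ
    have hδ0 : 0 < δ := lt_min hR (by positivity)
    refine ⟨ball x δ, nhdsWithin_le_nhds (ball_mem_nhds x hδ0), ?_⟩
    have := (hg x hx).eventually (ball_mem_nhds (g x) (show 0 < ε / 3 by positivity))
    filter_upwards [this] with i hi y hy
    have hy1 : y ∈ ball x R := ball_subset_ball (min_le_left _ _) hy
    have hy2 : ‖y - x‖ < ε / 3 / (L + 1) := by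
      rw [mem_ball, dist_eq_norm] at hy; exact hy.trans_le (min_le_right _ _)
    have hy3 : L * ‖y - x‖ ≤ ε / 3 := by
      rw [lt_div_iff₀ (by positivity)] at hy2
      nlinarith [norm_nonneg (y - x)]
    have a1 := hlip i y hy1
    have a2 := hlipg y hy1
    rw [dist_eq_norm] at hi ⊢
    have : g y - F i y = (g y - g x) - (F i x - g x) - (F i y - F i x) := by ring
    rw [this]
    calc _ ≤ ‖g y - g x‖ + ‖F i x - g x‖ + ‖F i y - F i x‖ :=
          (norm_sub_le _ _).trans (by gcongr; exact norm_sub_le _ _)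
      _ < ε := by linarith
  exact ⟨g, h2.differentiableOn (Eventually.of_forall hd) hU, h2, hg⟩

lemma not_const_of_injOn {f : ℂ → ℂ} {U : Set ℂ} (hU : IsOpen U) (hi : InjOn f U) {z : ℂ}
    (hz : z ∈ U) : ¬ ∀ᶠ w in 𝓝 z, f w = f z := fun h => by
  have h1 : ∀ᶠ w in 𝓝[≠] z, w ∈ U ∧ f w = f z :=
    nhdsWithin_le_nhds ((show ∀ᶠ w in 𝓝 z, w ∈ U from hU.mem_nhds hz).and h)
  obtain ⟨w, ⟨hw1, hw2⟩, hw3⟩ := (h1.and self_mem_nhdsWithin).exists
  exact hw3 (hi hw1 hz hw2)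

lemma nhds_le_map_of_injOn {f : ℂ → ℂ} {U : Set ℂ} (hU : IsOpen U) (hd : DifferentiableOn ℂ f U)
    (hi : InjOn f U) {z : ℂ} (hz : z ∈ U) : 𝓝 (f z) ≤ map f (𝓝 z) :=
  ((hd.analyticAt (hU.mem_nhds hz)).eventually_constant_or_nhds_le_map_nhds).resolve_left
    (not_const_of_injOn hU hi hz)

lemma isOpen_image_of_injOn {f : ℂ → ℂ} {U V : Set ℂ} (hU : IsOpen U)
    (hd : DifferentiableOn ℂ f U) (hi : InjOn f U) (hV : IsOpen V) (hVU : V ⊆ U) :
    IsOpen (f '' V) := by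
  rw [isOpen_iff_mem_nhds]
  rintro _ ⟨z, hz, rfl⟩
  exact nhds_le_map_of_injOn hU hd hi (hVU hz) (image_mem_map (hV.mem_nhds hz))

lemma continuousAt_inv_of_injOn {f h : ℂ → ℂ} {U : Set ℂ} (hU : IsOpen U)
    (hd : DifferentiableOn ℂ f U) (hi : InjOn f U) (hh : ∀ w ∈ U, h (f w) = w) {z : ℂ}
    (hz : z ∈ U) : ContinuousAt h (f z) := by
  rw [ContinuousAt, hh z hz]
  refine Tendsto.mono_left ?_ (nhds_le_map_of_injOn hU hd hi hz)
  rw [tendsto_map'_iff]
  exact tendsto_id.congr' (by filter_upwards [hU.mem_nhds hz] with w hw using (hh w hw).symm)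

lemma inv_diff_aux {f h : ℂ → ℂ} {U : Set ℂ} (hU : IsOpen U)
    (hd : DifferentiableOn ℂ f U) (hi : InjOn f U) (hh : ∀ w ∈ U, h (f w) = w) {z : ℂ}
    (hz : z ∈ U) (h0 : deriv f z ≠ 0) : HasDerivAt h (deriv f z)⁻¹ (f z) := by
  refine HasDerivAt.of_local_left_inverse (f := f) (continuousAt_inv_of_injOn hU hd hi hh hz) ?_ h0 ?_
  · rw [hh z hz]; exact (hd.differentiableAt (hU.mem_nhds hz)).hasDerivAt
  · filter_upwards [(isOpen_image_of_injOn hU hd hi hU Subset.rfl).mem_nhds ⟨z, hz, rfl⟩]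
    rintro _ ⟨w, hw, rfl⟩
    rw [hh w hw]

lemma inv_analyticAt {f h : ℂ → ℂ} {U : Set ℂ} (hU : IsOpen U)
    (hd : DifferentiableOn ℂ f U) (hi : InjOn f U) (hh : ∀ w ∈ U, h (f w) = w) {z : ℂ}
    (hz : z ∈ U) : AnalyticAt ℂ h (f z) := by
  have hc := continuousAt_inv_of_injOn hU hd hi hh hz
  refine analyticAt_of_differentiable_on_punctured_nhds_of_continuousAt ?_ hc
  have ha : AnalyticAt ℂ (deriv f) z := (hd.analyticAt (hU.mem_nhds hz)).deriv
  rcases ha.eventually_eq_zero_or_eventually_ne_zero with h0 | h0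
  · exfalso
    apply not_const_of_injOn hU hi hz
    obtain ⟨r, hr, hb⟩ := Metric.eventually_nhds_iff_ball.1 (h0.and (hU.mem_nhds hz))
    filter_upwards [ball_mem_nhds z hr] with w hw
    exact (convex_ball z r).is_const_of_fderivWithin_eq_zero (𝕜 := ℂ)
      (hd.mono fun x hx => (hb x hx).2) (fun x hx => by
        rw [fderivWithin_of_isOpen isOpen_ball hx, ← toSpanSingleton_deriv, (hb x hx).1]; simp)
      hw (mem_ball_self hr)
  · rw [eventually_nhdsWithin_iff] at h0 ⊢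
    have h1 : ∀ᶠ y in 𝓝 (f z), h y ∈ ({z}ᶜ : Set ℂ) → deriv f (h y) ≠ 0 := by
      have := hc.tendsto
      rw [hh z hz] at this
      exact this.eventually h0
    filter_upwards [h1, (isOpen_image_of_injOn hU hd hi hU Subset.rfl).mem_nhds ⟨z, hz, rfl⟩]
    rintro _ h2 ⟨w, hw, rfl⟩ hne
    rw [hh w hw] at h2
    exact (inv_diff_aux hU hd hi hh hw (h2 fun h3 => hne (by rw [show w = z from h3]; rfl))
      ).differentiableAt

lemma deriv_ne_zero_of_injOn {f : ℂ → ℂ} {U : Set ℂ} (hU : IsOpen U)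
    (hd : DifferentiableOn ℂ f U) (hi : InjOn f U) {z : ℂ} (hz : z ∈ U) : deriv f z ≠ 0 := by
  intro h0
  have hh : ∀ w ∈ U, Function.invFunOn f U (f w) = w := fun w hw => hi.leftInvOn_invFunOn hw
  have h1 := (inv_analyticAt hU hd hi hh hz).differentiableAt.hasDerivAt
  have h2 := h1.comp z (hd.differentiableAt (hU.mem_nhds hz)).hasDerivAt
  rw [h0, mul_zero] at h2
  have h3 : HasDerivAt (Function.invFunOn f U ∘ f) 1 z :=
    (hasDerivAt_id z).congr_of_eventuallyEq (by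
      filter_upwards [hU.mem_nhds hz] with w hw using hh w hw)
  exact zero_ne_one (h2.unique h3)

/-- Minimum modulus principle. -/
lemma exists_zero_of_min {f : ℂ → ℂ} {c : ℂ} {r m : ℝ} (hr : 0 < r)
    (hd : DiffContOnCl ℂ f (ball c r)) (hs : ∀ z ∈ sphere c r, m ≤ ‖f z‖) (hc : ‖f c‖ < m) :
    ∃ z ∈ ball c r, f z = 0 := by
  by_contra hne
  push Not at hne
  have hm : 0 < m := (norm_nonneg _).trans_lt hc
  have hne' : ∀ z ∈ closure (ball c r), f z ≠ 0 := fun z hz => by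
    rw [closure_ball c hr.ne', ← ball_union_sphere] at hz
    rcases hz with hz | hz
    · exact hne z hz
    · intro h; have := hs z hz; rw [h, norm_zero] at this; linarith
  have h1 : DiffContOnCl ℂ (fun z => (f z)⁻¹) (ball c r) := hd.inv hne'
  have h2 := norm_le_of_forall_mem_frontier_norm_le isBounded_ball h1 (C := m⁻¹)
    (fun z hz => by
      rw [frontier_ball c hr.ne'] at hz
      rw [norm_inv]; exact inv_anti₀ hm (hs z hz)) (subset_closure (mem_ball_self hr))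
  rw [norm_inv] at h2
  have h3 : 0 < ‖f c‖ := norm_pos_iff.2 (hne c (mem_ball_self hr))
  have := (inv_le_inv₀ h3 hm).1 h2
  linarith

/-- A Bloch type bound. -/
lemma bloch {l : ℂ → ℂ} {c : ℂ} {δ : ℝ} (hδ : 0 < δ) (hd : DifferentiableOn ℂ l (ball c δ))
    (h1 : ∀ x ∈ ball c δ, ∀ y ∈ ball c δ, l x - l y ≠ 1) : ‖deriv l c‖ ≤ 96 / δ := by
  set r := δ / 2 with hr
  have hr0 : 0 < r := by positivity
  have hsub : closedBall c r ⊆ ball c δ := closedBall_subset_ball (by linarith)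
  have hd' : DifferentiableOn ℂ (deriv l) (ball c δ) := hd.deriv isOpen_ball
  obtain ⟨x₁, hx₁, hmax⟩ := (isCompact_closedBall c r).exists_isMaxOn
    (nonempty_closedBall.2 hr0.le) (f := fun x => ‖deriv l x‖ * (r - ‖x - c‖))
    ((hd'.continuousOn.mono hsub).norm.mul (by fun_prop))
  set M := ‖deriv l x₁‖ with hM
  set s := r - ‖x₁ - c‖ with hs
  have hcM : ‖deriv l c‖ * r ≤ M * s := by
    have := hmax (mem_closedBall_self hr0.le)
    simpa using this
  suffices h : M * s ≤ 48 by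
    rw [le_div_iff₀ hδ]; nlinarith
  by_contra hlt
  push Not at hlt
  have hM0 : 0 ≤ M := norm_nonneg _
  have hs0 : 0 < s := by by_contra h; push Not at h; nlinarith
  have hball : ∀ x ∈ ball x₁ (s / 2), ‖x - c‖ ≤ r - s / 2 := fun x hx => by
    rw [mem_ball, dist_eq_norm] at hx
    have : ‖x - c‖ ≤ ‖x - x₁‖ + ‖x₁ - c‖ := norm_sub_le_norm_sub_add_norm_sub _ _ _
    linarith
  have hsub2 : ball x₁ (s / 2) ⊆ ball c δ := fun x hx => hsub (by
    rw [mem_closedBall, dist_eq_norm]; linarith [hball x hx])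
  have hder : ∀ x ∈ ball x₁ (s / 2), ‖deriv l x‖ ≤ 2 * M := fun x hx => by
    have h2 := hmax (show x ∈ closedBall c r by
      rw [mem_closedBall, dist_eq_norm]; linarith [hball x hx])
    have h3 := hball x hx
    simp only [mem_setOf_eq] at h2
    change ‖deriv l x‖ * (r - ‖x - c‖) ≤ M * s at h2
    nlinarith [norm_nonneg (deriv l x)]
  have hrem : ∀ w ∈ ball x₁ (s / 2), ‖l w - l x₁ - deriv l x₁ * (w - x₁)‖ ≤ 3 * M * (s / 2) := by
    intro w hw
    have := (convex_ball x₁ (s / 2)).norm_image_sub_le_of_norm_hasDerivWithin_le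
      (f := fun x => l x - deriv l x₁ * x) (f' := fun x => deriv l x - deriv l x₁) (C := 3 * M)
      (fun x hx => by
        have := ((hd.differentiableAt (isOpen_ball.mem_nhds (hsub2 hx))).hasDerivAt.sub
          ((hasDerivAt_id x).const_mul (deriv l x₁))).hasDerivWithinAt (s := ball x₁ (s / 2))
        rw [mul_one] at this
        exact this)
      (fun x hx => (norm_sub_le _ _).trans (by linarith [hder x hx]))
      (mem_ball_self (by positivity)) hw
    rw [mem_ball, dist_eq_norm] at hw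
    calc _ = ‖l w - deriv l x₁ * w - (l x₁ - deriv l x₁ * x₁)‖ := by congr 1; ring
      _ ≤ 3 * M * ‖w - x₁‖ := this
      _ ≤ _ := by gcongr
  have hsub3 : closedBall x₁ (s / 12) ⊆ ball x₁ (s / 2) := closedBall_subset_ball (by linarith)
  have hdc : DiffContOnCl ℂ (fun z => l z - l x₁ - 1) (ball x₁ (s / 12)) := by
    apply DifferentiableOn.diffContOnCl
    rw [closure_ball _ (by positivity)]
    exact ((hd.mono (hsub3.trans hsub2)).sub_const _).sub_const _
  obtain ⟨z, hz, hz0⟩ := exists_zero_of_min (m := M * s / 24 - 1) (by positivity) hdc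
    (fun z hz => by
      have h4 := taylor_of_rem (hd.mono hsub2) hrem (hsub3 (sphere_subset_closedBall hz))
      rw [mem_sphere, dist_eq_norm] at hz
      rw [hz] at h4
      have h5 : ‖deriv l x₁ * (z - x₁)‖ = M * (s / 12) := by rw [norm_mul, hz]
      have h6 : 3 * M * (s / 2) * (s / 12 / (s / 2)) ^ 2 = M * s / 24 := by field_simp; ring
      have h7 : ‖deriv l x₁ * (z - x₁)‖ ≤ ‖l z - l x₁ - deriv l x₁ * (z - x₁)‖ +
          ‖l z - l x₁ - 1‖ + ‖(1:ℂ)‖ := by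
        have : deriv l x₁ * (z - x₁) =
            -(l z - l x₁ - deriv l x₁ * (z - x₁)) + (l z - l x₁ - 1) + 1 := by ring
        conv_lhs => rw [this]
        exact norm_add₃_le.trans (by rw [norm_neg])
      rw [norm_one] at h7
      linarith)
    (by simp; linarith)
  exact h1 z (hsub2 (hsub3 (ball_subset_closedBall hz))) x₁ (hsub2 (mem_ball_self (by positivity)))
    (by linear_combination hz0)

/-- Forward orbits of irrational rotations are dense. -/
lemma dense_orbit {a : ℝ} (ha : Irrational a) (θ : ℝ) {ε : ℝ} (hε : 0 < ε) :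
    ∃ (n : ℕ) (m : ℤ), |n * a + m - θ| < ε := by
  haveI : Fact ((0:ℝ) < 1) := ⟨one_pos⟩
  have h1 : DenseRange (· • ((a : ℝ) : AddCircle (1:ℝ)) : ℤ → AddCircle (1:ℝ)) :=
    AddCircle.denseRange_zsmul_coe_iff.2 (by simpa using ha)
  rw [denseRange_zsmul_iff_nsmul] at h1
  have ho : IsOpen ((fun x : ℝ => (x : AddCircle (1:ℝ))) '' ball θ ε) :=
    QuotientAddGroup.isOpenMap_coe _ isOpen_ball
  obtain ⟨n, x, hx, hn⟩ := h1.exists_mem_open ho ⟨_, θ, mem_ball_self hε, rfl⟩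
  simp only [← AddCircle.coe_nsmul] at hn
  rw [QuotientAddGroup.eq_iff_sub_mem, AddSubgroup.mem_zmultiples_iff] at hn
  obtain ⟨m, hm⟩ := hn
  refine ⟨n, m, ?_⟩
  rw [mem_ball, Real.dist_eq] at hx
  simp only [zsmul_eq_mul, mul_one, nsmul_eq_mul] at hm
  rw [hm]; simpa using hx

lemma closed_inv_eq_univ {A : Set ℝ} (hA : IsClosed A) {a : ℝ} (ha : Irrational a)
    (hp : ∀ θ, θ + 1 ∈ A ↔ θ ∈ A) (hs : ∀ θ ∈ A, θ + a ∈ A) {θ₀ : ℝ} (h0 : θ₀ ∈ A) (θ : ℝ) :
    θ ∈ A := by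
  rw [← hA.closure_eq, Metric.mem_closure_iff]
  intro ε hε
  obtain ⟨n, m, h⟩ := dense_orbit ha (θ - θ₀) hε
  have h1 : ∀ n : ℕ, θ₀ + n * a ∈ A := fun n => by
    induction n with
    | zero => simpa using h0
    | succ n ih => have := hs _ ih; push_cast; rwa [add_mul, one_mul, ← add_assoc]
  have h2 : (θ₀ + n * a + m ∈ A) = (θ₀ + n * a ∈ A) :=
    per_int (Γ := fun θ => θ ∈ A) (fun θ => propext (hp θ)) m _
  refine ⟨θ₀ + n * a + m, h2 ▸ h1 n, ?_⟩
  rw [Real.dist_eq, abs_sub_comm]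
  convert h using 2; ring

/-- There is an ultrafilter along which `e((n+1) a) → 1`. -/
lemma exists_recurrent_ultrafilter {a : ℝ} (ha : Irrational a) :
    ∃ 𝒰 : Ultrafilter ℕ, Tendsto (fun n : ℕ => ee a ^ (n + 1)) 𝒰 (𝓝 1) := by
  have : NeBot (comap (fun n : ℕ => ee a ^ (n + 1)) (𝓝 1)) := by
    rw [comap_neBot_iff]
    intro t ht
    have h1 : Tendsto (fun x : ℝ => ee x) (𝓝 0) (𝓝 1) := by
      have : Continuous (fun x : ℝ => ee x) := by fun_prop
      simpa [ee_zero] using this.tendsto 0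
    obtain ⟨ε, hε, hb⟩ := Metric.mem_nhds_iff.1 (h1 ht)
    obtain ⟨n, m, h⟩ := dense_orbit ha (-a) hε
    refine ⟨n, ?_⟩
    have h2 := hb (show n * a + m - -a ∈ ball (0:ℝ) ε by simpa using h)
    simp only [mem_preimage] at h2
    have h3 : ee ((n * a + m - -a : ℝ) : ℂ) = ee a ^ (n + 1) := by
      rw [← ee_nsmul, ← ee_add_int (((n + 1 : ℕ) : ℂ) * a) m]; congr 1; push_cast; ring
    rwa [h3] at h2
  exact ⟨Ultrafilter.of (comap (fun n : ℕ => ee a ^ (n + 1)) (𝓝 1)),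
    tendsto_iff_comap.2 (Ultrafilter.of_le _)⟩

end

end Pool.Agent.Lib.MP_1e9af3_an
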