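import Pool.Agent.Lib.MP_1e9af3_an.Four

/-! Families of periodic holomorphic functions depending on a parameter. -/

namespace Pool.Agent.Lib.MP_1e9af3_an

open Set Filter Topology Complex Metric

noncomputable section

variable {X : Type} [TopologicalSpace X]

lemma tube_bound {F : X → ℂ → ℂ} {P : Set X} {S K : Set ℂ} (hK : IsCompact K) (hKS : K ⊆ S)
    (hc : ContinuousOn (fun q : X × ℂ => F q.1 q.2) (P ×ˢ S)) {p₀ : X} (hp₀ : p₀ ∈ P) {ε : ℝ}
    (hε : 0 < ε) : ∀ᶠ p in 𝓝[P] p₀, ∀ x ∈ K, ‖F p x - F p₀ x‖ < ε := by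
  have key : ∀ᶠ p in 𝓝 p₀, ∀ x ∈ K, p ∈ P → x ∈ S → ‖F p x - F p₀ x‖ < ε := by
    apply hK.eventually_forall_of_forall_eventually
    intro x hx
    have h2 : ContinuousOn (fun q : X × ℂ => F p₀ q.2) (P ×ˢ S) :=
      hc.comp (f := fun q : X × ℂ => (p₀, q.2)) (by fun_prop) fun q hq => ⟨hp₀, hq.2⟩
    have h1 : ContinuousWithinAt (fun q : X × ℂ => ‖F q.1 q.2 - F p₀ q.2‖) (P ×ˢ S) (p₀, x) :=
      ((hc.sub h2) (p₀, x) ⟨hp₀, hKS hx⟩).norm
    have h4 := h1.eventually (gt_mem_nhds (show ‖F p₀ x - F p₀ x‖ < ε by simpa using hε))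
    rw [eventually_nhdsWithin_iff] at h4
    filter_upwards [h4] with q hq h5 h6 using hq ⟨h5, h6⟩
  filter_upwards [self_mem_nhdsWithin, nhdsWithin_le_nhds key] with p hp hk x hx
  exact hk x hx hp (hKS hx)

lemma cont_deriv_param {F : X → ℂ → ℂ} {P : Set X} {S : Set ℂ} (hS : IsOpen S)
    (hd : ∀ p ∈ P, DifferentiableOn ℂ (F p) S)
    (hc : ContinuousOn (fun q : X × ℂ => F q.1 q.2) (P ×ˢ S)) :
    ContinuousOn (fun q : X × ℂ => deriv (F q.1) q.2) (P ×ˢ S) := by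
  rintro ⟨p₀, x₀⟩ ⟨hp₀, hx₀⟩
  simp only at hp₀ hx₀
  obtain ⟨r, hr, hb⟩ := nhds_basis_closedBall.mem_iff.1 (hS.mem_nhds hx₀)
  rw [ContinuousWithinAt, Metric.tendsto_nhds]
  intro ε hε
  have h1 := tube_bound (isCompact_closedBall x₀ r) hb hc hp₀ (ε := ε * r / 16) (by positivity)
  have h2 : ContinuousAt (deriv (F p₀)) x₀ :=
    (((hd p₀ hp₀).deriv hS).differentiableAt (hS.mem_nhds hx₀)).continuousAt
  have h3 := Metric.tendsto_nhds.1 h2 (ε / 2) (half_pos hε)
  rw [nhdsWithin_prod_eq]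
  filter_upwards [prod_mem_prod (h1.and self_mem_nhdsWithin)
    (nhdsWithin_le_nhds (h3.and (ball_mem_nhds x₀ (half_pos hr))))] with q hq
  obtain ⟨⟨h4, h5⟩, h6, h7⟩ := hq
  have hsub : ball q.2 (r / 2) ⊆ closedBall x₀ r := by
    refine (ball_subset_ball' ?_).trans ball_subset_closedBall
    have : dist q.2 x₀ < r / 2 := h7
    linarith
  have hq2 : q.2 ∈ S := hb (hsub (mem_ball_self (half_pos hr)))
  have h8 := deriv_le_of_bdd (f := fun x => F q.1 x - F p₀ x) (half_pos hr)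
    (((hd _ h5).sub (hd _ hp₀)).mono (hsub.trans hb)) fun z hz => (h4 z (hsub hz)).le
  rw [deriv_fun_sub ((hd _ h5).differentiableAt (hS.mem_nhds hq2))
    ((hd _ hp₀).differentiableAt (hS.mem_nhds hq2))] at h8
  have h9 : 2 * (ε * r / 16) / (r / 2) = ε / 4 := by field_simp; ring
  rw [h9] at h8
  have := dist_triangle (deriv (F q.1) q.2) (deriv (F p₀) q.2) (deriv (F p₀) x₀)
  rw [dist_eq_norm (deriv (F q.1) q.2) (deriv (F p₀) q.2)] at this
  linarith

lemma local_bound {F : ℂ → ℂ → ℂ} {D S : Set ℂ} (hD : IsOpen D) (hS : IsOpen S)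
    (hc : ContinuousOn (fun q : ℂ × ℂ => F q.1 q.2) (D ×ˢ S)) {t x : ℂ} (ht : t ∈ D)
    (hx : x ∈ S) : ∃ r M, 0 < r ∧ ball t r ⊆ D ∧ ball x r ⊆ S ∧
      ∀ t' ∈ ball t r, ∀ x' ∈ ball x r, ‖F t' x'‖ ≤ M := by
  have h1 := (hc.continuousAt ((hD.prod hS).mem_nhds (show (t, x) ∈ D ×ˢ S from ⟨ht, hx⟩))).norm
  have h2 := (h1.eventually (gt_mem_nhds (lt_add_one _))).and
    ((hD.prod hS).mem_nhds (show (t, x) ∈ D ×ˢ S from ⟨ht, hx⟩))
  obtain ⟨r, hr, hb⟩ := Metric.eventually_nhds_iff_ball.1 h2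
  rw [← ball_prod_same] at hb
  exact ⟨r, _, hr, fun t' ht' => (hb (t', x) ⟨ht', mem_ball_self hr⟩).2.1,
    fun x' hx' => (hb (t, x') ⟨mem_ball_self hr, hx'⟩).2.2,
    fun t' ht' x' hx' => (hb (t', x') ⟨ht', hx'⟩).1.le⟩

lemma hol_deriv_param {F : ℂ → ℂ → ℂ} {D S : Set ℂ} (hD : IsOpen D) (hS : IsOpen S)
    (hd : ∀ t ∈ D, DifferentiableOn ℂ (F t) S)
    (hd' : ∀ x ∈ S, DifferentiableOn ℂ (fun t => F t x) D)
    (hc : ContinuousOn (fun q : ℂ × ℂ => F q.1 q.2) (D ×ˢ S)) {x : ℂ} (hx : x ∈ S) :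
    DifferentiableOn ℂ (fun t => deriv (F t) x) D := by
  intro t ht
  obtain ⟨r, M, hr, h1, h2, hb⟩ := local_bound hD hS hc ht hx
  have hM : 0 ≤ M := (norm_nonneg _).trans (hb t (mem_ball_self hr) x (mem_ball_self hr))
  have hu : TendstoUniformlyOn (fun (e : ℂ) t' => (F t' (x + e) - F t' x) / e)
      (fun t' => deriv (F t') x) (𝓝[≠] 0) (ball t r) := by
    rw [Metric.tendstoUniformlyOn_iff]
    intro ε hε
    have h3 : ∀ᶠ e : ℂ in 𝓝 0, ‖e‖ < r ∧ 4 * M / r ^ 2 * ‖e‖ < ε := by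
      apply Eventually.and
      · exact continuous_norm.continuousAt.eventually (gt_mem_nhds (by simpa using hr))
      · exact (show ContinuousAt (fun e : ℂ => 4 * M / r ^ 2 * ‖e‖) 0 by fun_prop).eventually
          (gt_mem_nhds (by simpa using hε))
    filter_upwards [nhdsWithin_le_nhds h3, self_mem_nhdsWithin] with e he he0 t' ht'
    have he1 : e ≠ 0 := he0
    have hn : 0 < ‖e‖ := norm_pos_iff.2 he1
    have h4 := taylor_of_bdd ((hd t' (h1 ht')).mono h2) (hb t' ht')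
      (show x + e ∈ ball x r by simpa using he.1)
    rw [add_sub_cancel_left] at h4
    rw [dist_comm, dist_eq_norm]
    have : (F t' (x + e) - F t' x) / e - deriv (F t') x =
        (F t' (x + e) - F t' x - deriv (F t') x * e) / e := by field_simp
    rw [this, norm_div, div_lt_iff₀ hn]
    refine h4.trans_lt ?_
    have : 4 * M * (‖e‖ / r) ^ 2 = 4 * M / r ^ 2 * ‖e‖ * ‖e‖ := by field_simp
    rw [this]; gcongr; exact he.2
  have h5 := hu.tendstoLocallyUniformlyOn.differentiableOn (by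
    have h3 : ∀ᶠ e : ℂ in 𝓝 0, ‖e‖ < r :=
      continuous_norm.continuousAt.eventually (gt_mem_nhds (by simpa using hr))
    filter_upwards [nhdsWithin_le_nhds h3] with e he
    exact (((hd' _ (h2 (by simpa using he))).sub (hd' x hx)).div_const e).mono h1) isOpen_ball
  exact (h5.differentiableAt (ball_mem_nhds t hr)).differentiableWithinAt

lemma hol_integral {F : ℂ → ℝ → ℂ} {D : Set ℂ} (hD : IsOpen D)
    (hc : ContinuousOn (fun q : ℂ × ℝ => F q.1 q.2) (D ×ˢ univ))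
    (hd : ∀ θ, DifferentiableOn ℂ (fun t => F t θ) D) :
    DifferentiableOn ℂ (fun t => ∫ θ in (0:ℝ)..1, F t θ) D := by
  intro t ht
  have hc' : ContinuousOn (fun q : ℝ × ℂ => F q.2 q.1) (univ ×ˢ D) :=
    hc.comp (f := Prod.swap) (by fun_prop) fun q hq => ⟨hq.2, trivial⟩
  have h1 := cont_deriv_param (F := fun θ t => F t θ) (P := univ) hD (fun θ _ => hd θ) hc'
  obtain ⟨r, hr, hb⟩ := nhds_basis_closedBall.mem_iff.1 (hD.mem_nhds ht)
  obtain ⟨M, hM⟩ := (isCompact_uIcc (a := (0:ℝ)) (b := 1)).prod (isCompact_closedBall t r)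
    |>.exists_bound_of_continuousOn (h1.mono (prod_mono (subset_univ _) hb))
  have hcont : ∀ s ∈ D, Continuous (F s) := fun s hs =>
    hc.comp_continuous (f := fun θ => (s, θ)) (by fun_prop) fun θ => ⟨hs, trivial⟩
  have := intervalIntegral.hasDerivAt_integral_of_dominated_loc_of_deriv_le
    (μ := MeasureTheory.volume) (a := 0) (b := 1) (F := F)
    (F' := fun s θ => deriv (fun t => F t θ) s) (x₀ := t) (bound := fun _ => M)
    (closedBall_mem_nhds t hr)
    (by filter_upwards [hD.mem_nhds ht] with s hs using (hcont s hs).aestronglyMeasurable)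
    ((hcont t ht).intervalIntegrable _ _)
    (Continuous.aestronglyMeasurable
      (h1.comp_continuous (f := fun θ => (θ, t)) (by fun_prop) fun θ => ⟨trivial, ht⟩))
    (Eventually.of_forall fun θ hθ s hs => hM (θ, s) ⟨uIoc_subset_uIcc hθ, hs⟩)
    (by simp)
    (Eventually.of_forall fun θ _ s hs =>
      ((hd θ).differentiableAt (hD.mem_nhds (hb hs))).hasDerivAt)
  exact this.2.differentiableAt.differentiableWithinAt

/-- A family of test curves in the parameter space. -/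
structure Curves (X : Type) [TopologicalSpace X] where
  ι : Type
  D : ι → Set ℂ
  τ : ι → ℂ → X
  op : ∀ i, IsOpen (D i)
  cont : ∀ i, ContinuousOn (τ i) (D i)

/-- Regular functions of the parameter. -/
structure RegP (C : Curves X) (l : X → ℂ) : Prop where
  cont : Continuous l
  hol : ∀ i, DifferentiableOn ℂ (fun t => l (C.τ i t)) (C.D i)

/-- Regular families of periodic holomorphic functions. -/
structure Reg (C : Curves X) (σ : ℝ) (h : X → ℂ → ℂ) : Prop where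
  diff : ∀ p, DifferentiableOn ℂ (h p) (strip (-σ) σ)
  per : ∀ p, ∀ x ∈ strip (-σ) σ, h p (x + 1) = h p x
  cont : ContinuousOn (fun q : X × ℂ => h q.1 q.2) (univ ×ˢ strip (-σ) σ)
  hol : ∀ i, ∀ x ∈ strip (-σ) σ, DifferentiableOn ℂ (fun t => h (C.τ i t) x) (C.D i)

variable {C : Curves X} {σ : ℝ} {h h' : X → ℂ → ℂ} {l l' : X → ℂ}

lemma RegP.const (c : ℂ) : RegP C fun _ => c := ⟨continuous_const, fun _ => by fun_prop⟩
lemma RegP.add (a : RegP C l) (b : RegP C l') : RegP C fun p => l p + l' p :=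
  ⟨a.cont.add b.cont, fun i => (a.hol i).add (b.hol i)⟩
lemma RegP.sub (a : RegP C l) (b : RegP C l') : RegP C fun p => l p - l' p :=
  ⟨a.cont.sub b.cont, fun i => (a.hol i).sub (b.hol i)⟩
lemma RegP.neg (a : RegP C l) : RegP C fun p => - l p :=
  ⟨a.cont.neg, fun i => (a.hol i).neg⟩
lemma RegP.div (a : RegP C l) (b : RegP C l') (hne : ∀ p, l' p ≠ 0) :
    RegP C fun p => l p / l' p :=
  ⟨a.cont.div b.cont hne, fun i => (a.hol i).div (b.hol i) fun _ _ => hne _⟩

lemma RegP.reg (a : RegP C l) (σ : ℝ) : Reg C σ fun p _ => l p :=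
  ⟨fun _ => by fun_prop, fun _ _ _ => rfl, (a.cont.comp continuous_fst).continuousOn,
    fun i _ _ => a.hol i⟩

lemma reg_fun {φ : ℂ → ℂ} (hd : Differentiable ℂ φ) (hp : ∀ x, φ (x + 1) = φ x) :
    Reg C σ fun _ x => φ x :=
  ⟨fun _ => hd.differentiableOn, fun _ x _ => hp x, (hd.continuous.comp continuous_snd).continuousOn,
    fun _ _ _ => by fun_prop⟩

lemma Reg.mono (a : Reg C σ h) {σ' : ℝ} (hσ : σ' ≤ σ) : Reg C σ' h := by
  have hs : strip (-σ') σ' ⊆ strip (-σ) σ := strip_mono (by linarith) hσ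
  exact ⟨fun p => (a.diff p).mono hs, fun p x hx => a.per p x (hs hx),
    a.cont.mono (prod_mono Subset.rfl hs), fun i x hx => a.hol i x (hs hx)⟩

lemma Reg.add (a : Reg C σ h) (b : Reg C σ h') : Reg C σ fun p x => h p x + h' p x :=
  ⟨fun p => (a.diff p).add (b.diff p), fun p x hx => by rw [a.per p x hx, b.per p x hx],
    a.cont.add b.cont, fun i x hx => (a.hol i x hx).add (b.hol i x hx)⟩

lemma Reg.sub (a : Reg C σ h) (b : Reg C σ h') : Reg C σ fun p x => h p x - h' p x :=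
  ⟨fun p => (a.diff p).sub (b.diff p), fun p x hx => by rw [a.per p x hx, b.per p x hx],
    a.cont.sub b.cont, fun i x hx => (a.hol i x hx).sub (b.hol i x hx)⟩

lemma Reg.mul (a : Reg C σ h) (b : Reg C σ h') : Reg C σ fun p x => h p x * h' p x :=
  ⟨fun p => (a.diff p).mul (b.diff p), fun p x hx => by rw [a.per p x hx, b.per p x hx],
    a.cont.mul b.cont, fun i x hx => (a.hol i x hx).mul (b.hol i x hx)⟩

lemma Reg.div (a : Reg C σ h) (b : Reg C σ h') (hne : ∀ p, ∀ x ∈ strip (-σ) σ, h' p x ≠ 0) :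
    Reg C σ fun p x => h p x / h' p x :=
  ⟨fun p => (a.diff p).div (b.diff p) (hne p), fun p x hx => by rw [a.per p x hx, b.per p x hx],
    a.cont.div b.cont fun q hq => hne _ _ hq.2,
    fun i x hx => (a.hol i x hx).div (b.hol i x hx) fun _ _ => hne _ _ hx⟩

lemma Reg.shift (a : Reg C σ h) (α : ℝ) : Reg C σ fun p x => h p (x + α) :=
  ⟨fun p => (a.diff p).comp (f := fun x : ℂ => x + (α : ℂ)) (differentiableOn_id.add_const _)
      fun x hx => add_real_mem hx α,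
    fun p x hx => by rw [add_right_comm, a.per p _ (add_real_mem hx α)],
    a.cont.comp (f := fun q : X × ℂ => (q.1, q.2 + α)) (by fun_prop)
      fun q hq => ⟨trivial, add_real_mem hq.2 α⟩,
    fun i x hx => a.hol i _ (add_real_mem hx α)⟩

lemma Reg.curve_cont (a : Reg C σ h) (i : C.ι) :
    ContinuousOn (fun q : ℂ × ℂ => h (C.τ i q.1) q.2) (C.D i ×ˢ strip (-σ) σ) :=
  a.cont.comp (f := fun q : ℂ × ℂ => (C.τ i q.1, q.2))
    (((C.cont i).comp continuousOn_fst fun _ hq => hq.1).prodMk continuousOn_snd)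
    fun _ hq => ⟨trivial, hq.2⟩

lemma Reg.deriv (a : Reg C σ h) : Reg C σ fun p x => deriv (h p) x := by
  refine ⟨fun p => (a.diff p).deriv (isOpen_strip _ _), fun p x hx => ?_,
    cont_deriv_param (isOpen_strip _ _) (fun p _ => a.diff p) a.cont, fun i x hx =>
      hol_deriv_param (F := fun t x => h (C.τ i t) x) (C.op i) (isOpen_strip _ _)
        (fun t _ => a.diff _) (a.hol i) (a.curve_cont i) hx⟩
  rw [← deriv_comp_add_const (h p) 1 x]
  apply Filter.EventuallyEq.deriv_eq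
  filter_upwards [(isOpen_strip _ _).mem_nhds hx] with y hy using a.per p y hy

lemma Reg.fc (a : Reg C σ h) (hσ : 0 < σ) (k : ℤ) : RegP C fun p => fc (h p) 0 k := by
  have h0 : (0:ℝ) ∈ Ioo (-σ) σ := ⟨by linarith, hσ⟩
  have hc : Continuous fun q : X × ℝ =>
      h q.1 (q.2 + (0:ℝ) * I) * ee (-k * (q.2 + (0:ℝ) * I)) :=
    (a.cont.comp_continuous (f := fun q : X × ℝ => (q.1, (q.2 : ℂ) + (0:ℝ) * I)) (by fun_prop)
      fun q => ⟨trivial, line_mem h0 _⟩).mul (by fun_prop)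
  refine ⟨intervalIntegral.continuous_parametric_intervalIntegral_of_continuous'
    (f := fun (p : X) (θ : ℝ) => h p (θ + (0:ℝ) * I) * ee (-k * (θ + (0:ℝ) * I))) hc _ _, fun i => ?_⟩
  refine hol_integral (F := fun t (θ : ℝ) =>
    h (C.τ i t) (θ + (0:ℝ) * I) * ee (-k * (θ + (0:ℝ) * I))) (C.op i) ?_ fun θ =>
      (a.hol i _ (line_mem h0 θ)).mul_const _
  exact hc.comp_continuousOn (f := fun q : ℂ × ℝ => (C.τ i q.1, q.2))
    (((C.cont i).comp continuousOn_fst fun _ hq => hq.1).prodMk continuousOn_snd)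

lemma RegP.tsum {ι : Type} {L : ι → X → ℂ} {b : ι → ℝ} (hb : Summable b) (a : ∀ j, RegP C (L j))
    (hL : ∀ j p, ‖L j p‖ ≤ b j) : RegP C fun p => ∑' j, L j p :=
  ⟨continuous_tsum (fun j => (a j).cont) hb hL, fun i =>
    differentiableOn_tsum_of_summable_norm hb (fun j => (a j).hol i) (C.op i) fun j _ _ => hL j _⟩

lemma Reg.tsum {ι : Type} {H : ι → X → ℂ → ℂ} {b : ι → ℝ} (hb : Summable b)
    (a : ∀ j, Reg C σ (H j)) (hH : ∀ j p, ∀ x ∈ strip (-σ) σ, ‖H j p x‖ ≤ b j) :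
    Reg C σ fun p x => ∑' j, H j p x :=
  ⟨fun p => differentiableOn_tsum_of_summable_norm hb (fun j => (a j).diff p) (isOpen_strip _ _)
      fun j x hx => hH j p x hx,
    fun p x hx => by simp only [fun j => (a j).per p x hx],
    continuousOn_tsum (fun j => (a j).cont) hb fun j q hq => hH j _ _ hq.2,
    fun i x hx => differentiableOn_tsum_of_summable_norm hb (fun j => (a j).hol i x hx) (C.op i)
      fun j _ _ => hH j _ x hx⟩

lemma Reg.solve {α c : ℝ} {τ : ℕ} (hα : SD α c τ) (a : Reg C σ h) {δ M : ℝ} (hδ : 0 < δ)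
    (hσ : 0 < σ) (hb : ∀ p, ∀ x ∈ strip (-σ) σ, ‖h p x‖ ≤ M) :
    Reg C (σ - δ) fun p x => solve α (h p) x := by
  refine Reg.tsum (H := fun (k : ℤ) p x => Pool.Agent.Lib.MP_1e9af3_an.fc (h p) 0 k * ee (k * x) /
    (ee (k * α) - 1)) (summable_inv_sq.mul_left _) (fun k => ?_)
    fun k p x hx => solve_term hα hδ (a.diff p) (a.per p) (hb p) (by rwa [neg_sub', sub_neg_eq_add] at hx) k
  simp only [mul_div_assoc]
  exact ((a.fc hσ k).reg _).mul (reg_fun (by fun_prop) fun x => by rw [mul_add, mul_one, ee_add_int])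

lemma Reg.comp {g u : X → ℂ → ℂ} {σ₀ : ℝ} (a : Reg C σ₀ g)
    (hj : ∀ i, DifferentiableOn ℂ (fun q : ℂ × ℂ => g (C.τ i q.1) q.2) (C.D i ×ˢ strip (-σ₀) σ₀))
    (b : Reg C σ u) (hm : ∀ p, ∀ x ∈ strip (-σ) σ, x + u p x ∈ strip (-σ₀) σ₀) :
    Reg C σ fun p x => g p (x + u p x) :=
  ⟨fun p => (a.diff p).comp (f := fun x => x + u p x) (differentiableOn_id.add (b.diff p)) (hm p),
    fun p x hx => by rw [b.per p x hx, add_right_comm, a.per p _ (hm p x hx)],
    a.cont.comp (f := fun q : X × ℂ => (q.1, q.2 + u q.1 q.2))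
      (continuousOn_fst.prodMk (continuousOn_snd.add b.cont)) fun q hq => ⟨trivial, hm _ _ hq.2⟩,
    fun i x hx => (hj i).comp (f := fun t => (t, x + u (C.τ i t) x))
      (differentiableOn_id.prodMk ((b.hol i x hx).const_add x)) fun t ht => ⟨ht, hm _ _ hx⟩⟩

end

end Pool.Agent.Lib.MP_1e9af3_an
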