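import Pool.Agent.Lib.MP_1e9af3_an.Lift
import Pool.Agent.Lib.MP_1e9af3_an.Reg

/-! Continuation of the zero set of a function holomorphic in one variable. -/

namespace Pool.Agent.Lib.MP_1e9af3_an

open Set Filter Topology Complex Metric

lemma finite_zeros {g : ℂ → ℂ} {c : ℂ} {r : ℝ} {D : Set ℂ} (hD : IsOpen D)
    (hd : DifferentiableOn ℂ g D) (hs : closedBall c r ⊆ D) {z₀ : ℂ} (h0 : z₀ ∈ closedBall c r)
    (hne : g z₀ ≠ 0) : {t | t ∈ closedBall c r ∧ g t = 0}.Finite := by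
  by_contra hi
  obtain ⟨x, hx, ha⟩ := Set.Infinite.exists_accPt_of_subset_isCompact hi (isCompact_closedBall c r)
    fun t ht => ht.1
  have an : AnalyticOnNhd ℂ g (closedBall c r) := (hd.analyticOnNhd hD).mono hs
  exact hne (an.eqOn_zero_of_preconnected_of_frequently_eq_zero
    (convex_closedBall c r).isPreconnected hx
    ((accPt_iff_frequently_nhdsNE.1 ha).mono fun t ht => ht.2) h0)

lemma zero_persist {m : ℝ × ℂ → ℂ} {V : Set (ℝ × ℂ)} (hV : IsOpen V) (hc : ContinuousOn m V)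
    {S : Set ℝ} (hd : ∀ s ∈ S, DifferentiableOn ℂ (fun t => m (s, t)) {t | (s, t) ∈ V})
    {s₀ : ℝ} {t₀ : ℂ} {r : ℝ} (hr : 0 < r) (hs : ∀ t ∈ closedBall t₀ r, (s₀, t) ∈ V)
    (h0 : m (s₀, t₀) = 0) (hne : ∀ t ∈ sphere t₀ r, m (s₀, t) ≠ 0) :
    ∀ᶠ s in 𝓝[S] s₀, ∃ t ∈ ball t₀ r, m (s, t) = 0 := by
  have c0 : ContinuousOn (fun t => ‖m (s₀, t)‖) (sphere t₀ r) :=
    (hc.comp (by fun_prop) fun t ht => hs t (sphere_subset_closedBall ht)).norm
  obtain ⟨t₁, h1, h2⟩ := (isCompact_sphere t₀ r).exists_isMinOn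
    (NormedSpace.sphere_nonempty.2 hr.le) c0
  have μ0 : 0 < ‖m (s₀, t₁)‖ := norm_pos_iff.2 (hne t₁ h1)
  have E := (isCompact_closedBall t₀ r).eventually_forall_of_forall_eventually (x₀ := s₀)
    (P := fun s t => (s, t) ∈ V ∧ ‖m (s, t) - m (s₀, t)‖ < ‖m (s₀, t₁)‖ / 2) fun t ht => by
      have c1 : ContinuousAt m (s₀, t) := hc.continuousAt (hV.mem_nhds (hs t ht))
      have c2 : ContinuousAt (fun q : ℝ × ℂ => ‖m (q.1, q.2) - m (s₀, q.2)‖) (s₀, t) :=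
        (c1.sub (c1.comp (f := fun q : ℝ × ℂ => (s₀, q.2)) (by fun_prop))).norm
      exact (hV.eventually_mem (hs t ht)).and (c2.eventually (gt_mem_nhds (by simpa using μ0)))
  filter_upwards [E.filter_mono nhdsWithin_le_nhds, self_mem_nhdsWithin] with s h3 h4
  refine exists_zero_of_min (m := ‖m (s₀, t₁)‖ / 2) hr (DifferentiableOn.diffContOnCl ?_)
    (fun t ht => ?_) (by simpa [h0] using (h3 t₀ (mem_closedBall_self hr.le)).2)
  · rw [closure_ball _ hr.ne']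
    exact (hd s h4).mono fun t ht => (h3 t ht).1
  · have h5 := (h3 t (sphere_subset_closedBall ht)).2
    have h6 : ‖m (s₀, t₁)‖ ≤ ‖m (s₀, t)‖ := h2 ht
    have h7 := norm_sub_norm_le (m (s₀, t)) (m (s, t))
    rw [norm_sub_rev] at h7
    linarith

theorem continuation {m : ℝ × ℂ → ℂ} {V : Set (ℝ × ℂ)} (hV : IsOpen V) (hc : ContinuousOn m V)
    {s₀ b : ℝ} {t₀ : ℂ} (h0 : (s₀, t₀) ∈ V) (hb : s₀ < b)
    (hd : ∀ s ∈ Icc s₀ b, DifferentiableOn ℂ (fun t => m (s, t)) {t | (s, t) ∈ V})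
    (hm : m (s₀, t₀) = 0) (ht₀ : t₀ ≠ 0) :
    ∃ γ : unitInterval → ℝ × ℂ, Continuous γ ∧ γ 0 = (s₀, t₀) ∧ (∀ θ, γ θ ∈ V ∧ m (γ θ) = 0) ∧
      (γ 1).1 ≤ b ∧ (s₀ < (γ 1).1 ∨ ((γ 1).1 = s₀ ∧ ‖t₀‖ < ‖(γ 1).2‖)) := by
  have Do : ∀ s, IsOpen {t | (s, t) ∈ V} := fun s => hV.preimage (by fun_prop)
  have D0 : ∀ᶠ t in 𝓝 t₀, (s₀, t) ∈ V := (Do s₀).mem_nhds h0
  rcases ((hd s₀ ⟨le_rfl, hb.le⟩).analyticAt D0).eventually_eq_zero_or_eventually_ne_zero with h | h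
  · obtain ⟨r, hr, hB⟩ := Metric.mem_nhds_iff.1 (D0.and h)
    have n0 := norm_pos_iff.2 ht₀
    refine ⟨fun θ => (s₀, t₀ + ((θ:ℝ) * (r / 2 / ‖t₀‖) : ℝ) * t₀), by fun_prop, by simp,
      fun θ => hB ?_, hb.le, Or.inr ⟨rfl, ?_⟩⟩
    · rw [mem_ball, dist_eq_norm, add_sub_cancel_left, norm_mul, Complex.norm_real,
        Real.norm_of_nonneg (mul_nonneg θ.2.1 (by positivity)), mul_assoc, div_mul_cancel₀ _ n0.ne']
      nlinarith [θ.2.2]
    · simp only
      rw [← one_add_mul, norm_mul, ← ofReal_one, ← ofReal_add, Complex.norm_real,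
        Real.norm_of_nonneg (by simp; positivity)]
      have : 0 < r / 2 / ‖t₀‖ := by positivity
      simp only [Icc.coe_one, one_mul]
      nlinarith
  · obtain ⟨r', hr', hB⟩ := Metric.mem_nhds_iff.1 (D0.and (eventually_nhdsWithin_iff.1 h))
    have hr : 0 < r' / 2 := by positivity
    set r := r' / 2 with hrr
    have sb : closedBall t₀ r ⊆ ball t₀ r' := closedBall_subset_ball (by linarith)
    have E := (isCompact_closedBall t₀ r).eventually_forall_of_forall_eventually (x₀ := s₀)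
      (P := fun s t => (s, t) ∈ V) fun t ht => hV.eventually_mem (hB (sb ht)).1
    have E' := (isCompact_sphere t₀ r).eventually_forall_of_forall_eventually (x₀ := s₀)
      (P := fun s t => m (s, t) ≠ 0) fun t ht =>
        (hc.continuousAt (hV.mem_nhds (hB (sb (sphere_subset_closedBall ht))).1)).eventually_ne
          ((hB (sb (sphere_subset_closedBall ht))).2 (ne_of_mem_sphere ht hr.ne'))
    obtain ⟨δ, hδ, hS⟩ := Metric.mem_nhds_iff.1 (E.and E')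
    obtain ⟨s₁, s1, s2⟩ := exists_between (lt_min hb (lt_add_of_pos_right s₀ hδ))
    have s3 := (lt_min_iff.1 s2).1
    have hS' : ∀ s ∈ Icc s₀ s₁, (∀ t ∈ closedBall t₀ r, (s, t) ∈ V) ∧
        ∀ t ∈ sphere t₀ r, m (s, t) ≠ 0 := fun s hs => hS (by
      rw [mem_ball, Real.dist_eq, abs_lt]
      constructor <;> linarith [hs.1, hs.2, (lt_min_iff.1 s2).2])
    have sI : Icc s₀ s₁ ⊆ Icc s₀ b := Icc_subset_Icc_right s3.le
    have kK : IsCompact (Icc s₀ s₁ ×ˢ closedBall t₀ r) := isCompact_Icc.prod (isCompact_closedBall _ _)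
    have KV : Icc s₀ s₁ ×ˢ closedBall t₀ r ⊆ V := fun z hz => (hS' _ hz.1).1 _ hz.2
    obtain ⟨t₁, ht₁⟩ : (sphere t₀ r).Nonempty := NormedSpace.sphere_nonempty.2 hr.le
    have fin : ∀ s ∈ Icc s₀ s₁, {t | t ∈ closedBall t₀ r ∧ m (s, t) = 0}.Finite := fun s hs =>
      finite_zeros (Do s) (hd s (sI hs)) (hS' s hs).1 (sphere_subset_closedBall ht₁)
        ((hS' s hs).2 _ ht₁)
    obtain ⟨γ, c1, c2, c3⟩ := whyburn (Z := (Icc s₀ s₁ ×ˢ closedBall t₀ r) ∩ m ⁻¹' {0})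
      (kK.of_isClosed_subset ((hc.mono KV).preimage_isClosed_of_isClosed kK.isClosed
        isClosed_singleton) inter_subset_left) s1
      (by
        rintro ⟨s, t⟩ ⟨⟨z1, z2⟩, z3⟩ U hU
        obtain ⟨U₁, u1, U₂, u2, hU'⟩ := mem_nhds_prod_iff.1 hU
        have tb : t ∈ ball t₀ r := lt_of_le_of_ne z2 fun he => (hS' s z1).2 t he z3
        have iso : ∀ᶠ t' in 𝓝 t, t' ∈ {t | t ∈ closedBall t₀ r ∧ m (s, t) = 0} → t' = t := by
          have := ((fin s z1).diff (t := {t})).isClosed.isOpen_compl.mem_nhds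
            (show t ∈ _ᶜ from fun h => h.2 rfl)
          filter_upwards [this] with t' h1 h2
          by_contra h3; exact h1 ⟨h2, h3⟩
        obtain ⟨ρ, hρ, hB'⟩ := Metric.nhds_basis_closedBall.mem_iff.1
          (iso.and ((isOpen_ball.eventually_mem tb).and u2))
        filter_upwards [zero_persist hV hc (fun s hs => hd s (sI hs)) hρ
          (fun t' ht' => (hS' s z1).1 _ (ball_subset_closedBall (hB' ht').2.1)) z3
          fun t' ht' he => ne_of_mem_sphere ht' hρ.ne' ((hB' (sphere_subset_closedBall ht')).1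
            ⟨ball_subset_closedBall (hB' (sphere_subset_closedBall ht')).2.1, he⟩),
          self_mem_nhdsWithin, mem_nhdsWithin_of_mem_nhds u1] with s' ⟨t', k1, k2⟩ k3 k4
        have := hB' (ball_subset_closedBall k1)
        exact ⟨t', ⟨⟨k3, ball_subset_closedBall this.2.1⟩, k2⟩, hU' ⟨k4, this.2.2⟩⟩)
      (fun s => by
        by_cases hs : s ∈ Icc s₀ s₁
        · exact (fin s hs).subset fun t ht => ⟨ht.1.2, ht.2⟩
        · exact finite_empty.subset fun t ht => hs ht.1.1)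
      (t₀ := t₀) ⟨⟨⟨le_rfl, s1.le⟩, mem_closedBall_self hr.le⟩, hm⟩
    have mI : ∀ θ : unitInterval, s₀ + θ * (s₁ - s₀) ∈ Icc s₀ s₁ := fun θ => by
      constructor <;> nlinarith [θ.2.1, θ.2.2]
    refine ⟨fun θ => (s₀ + θ * (s₁ - s₀), γ (s₀ + θ * (s₁ - s₀))),
      Continuous.prodMk (by fun_prop) (c1.comp_continuous (by fun_prop) mI), by simp [c2],
      fun θ => ⟨KV (c3 _ (mI θ)).1, (c3 _ (mI θ)).2⟩, by simpa using s3.le, Or.inl (by simpa)⟩

end Pool.Agent.Lib.MP_1e9af3_an
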