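import Mathlib

/-! Rational maps, Fatou set, Herman rings and Herman's parameter classes. -/

namespace Pool.Agent.Lib.MP_1e9af3_an

open Set Filter Topology OnePoint

noncomputable section

/-- The point `[x : y]` of the Riemann sphere. -/
def pr (x y : ℂ) : OnePoint ℂ := if y = 0 then ∞ else ((x / y : ℂ) : OnePoint ℂ)

/-- `f` is a rational map of degree `d`. -/
def IsRat (d : ℕ) (f : C(OnePoint ℂ, OnePoint ℂ)) : Prop :=
  ∃ P Q : MvPolynomial (Fin 2) ℂ, P.IsHomogeneous d ∧ Q.IsHomogeneous d ∧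
    ∀ x y : ℂ, (x ≠ 0 ∨ y ≠ 0) →
      (MvPolynomial.eval ![x, y] P ≠ 0 ∨ MvPolynomial.eval ![x, y] Q ≠ 0) ∧
      f (pr x y) = pr (MvPolynomial.eval ![x, y] P) (MvPolynomial.eval ![x, y] Q)

/-- The space `R_d`, with the topology of uniform convergence. -/
abbrev RatMap (d : ℕ) : Type := {f : C(OnePoint ℂ, OnePoint ℂ) // IsRat d f}

/-- The Fatou set: the largest open set on which the iterates are equicontinuous. -/
def fatou (f : OnePoint ℂ → OnePoint ℂ) : Set (OnePoint ℂ) :=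
  interior {z | ∀ W ∈ 𝓝ˢ (diagonal (OnePoint ℂ)), ∀ᶠ v in 𝓝 z, ∀ n : ℕ, (f^[n] z, f^[n] v) ∈ W}

/-- The round annulus `a < |w| < b`. -/
def ann (a b : ℝ) : Set ℂ := {w | a < ‖w‖ ∧ ‖w‖ < b}

/-- `A` is a Herman ring of `f` with rotation number `α`. -/
def IsHerman (α : ℝ) (f : OnePoint ℂ → OnePoint ℂ) (A : Set (OnePoint ℂ)) : Prop :=
  (∃ z ∈ fatou f, A = connectedComponentIn (fatou f) z) ∧ f '' A = A ∧
  ∃ r : ℝ, 1 < r ∧ ∃ a b : ℂ → ℂ, DifferentiableOn ℂ a (ann 1 r) ∧ DifferentiableOn ℂ b (ann 1 r) ∧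
    (∀ w ∈ ann 1 r, a w ≠ 0 ∨ b w ≠ 0) ∧ BijOn (fun w => pr (a w) (b w)) (ann 1 r) A ∧
    ∀ w ∈ ann 1 r, f (pr (a w) (b w)) =
      pr (a (Complex.exp (2 * Real.pi * Complex.I * α) * w))
        (b (Complex.exp (2 * Real.pi * Complex.I * α) * w))

/-- Caratheodory kernel convergence of the domains `A t` to `A₀` along the filter `l`. -/
def Cara {T : Type} (l : Filter T) (A : T → Set (OnePoint ℂ)) (A₀ : Set (OnePoint ℂ)) : Prop :=
  (∀ K, IsCompact K → K ⊆ A₀ → ∀ᶠ t in l, K ⊆ A t) ∧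
  ∀ N, IsOpen N → IsConnected N → (N ∩ A₀).Nonempty → (∃ᶠ t in l, N ⊆ A t) → N ⊆ A₀

/-- Herman's class `H_{d,α}` determined by `f₀` and its ring `A₀`. -/
def hermanClass {d : ℕ} (α : ℝ) (f₀ : RatMap d) (A₀ : Set (OnePoint ℂ)) : Set (RatMap d) :=
  {f₁ | ∃ (f : unitInterval → RatMap d) (A : unitInterval → Set (OnePoint ℂ)),
    Continuous f ∧ f 0 = f₀ ∧ A 0 = A₀ ∧ f 1 = f₁ ∧
    ∀ t, IsHerman α (f t).1 (A t) ∧ Cara (𝓝 t) A (A t)}

/-- The diophantine condition. -/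
def Dioph (α : ℝ) : Prop :=
  ∃ γ β : ℝ, 0 < γ ∧ 2 ≤ β ∧ ∀ (p : ℤ) (q : ℕ), 0 < q → γ * (q : ℝ) ^ (-β) ≤ |α - p / q|

end

end Pool.Agent.Lib.MP_1e9af3_an
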