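import Pool.Agent.Lib.MP_1e9af3_an.Sheet

/-! The family of degree seven maps. -/

namespace Pool.Agent.Lib.MP_1e9af3_an

open Set Filter Topology Complex Metric OnePoint

noncomputable section

/-- Parameters `(ε, x, y, u, v)`. -/
abbrev Pm : Type := ℂ × ℂ × ℂ × ℂ × ℂ

/-- Numerator. -/
def nm (μ : ℂ) (p : Pm) (X Y : ℂ) : ℂ :=
  μ * X ^ 2 * (Y - p.2.1 * X) ^ 2 * (Y - p.2.2.1 * X) ^ 2 * (Y - p.1 * X)

/-- Denominator. -/
def dn (e : ℂ) (p : Pm) (X Y : ℂ) : ℂ :=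
  Y ^ 2 * (X - e * Y) * (Y - p.2.2.2.1 * X) ^ 2 * (Y - p.2.2.2.2 * X) ^ 2

/-- Homogeneous lift. -/
def fF (μ e : ℂ) (p : Pm) (w : ℂ × ℂ) : ℂ × ℂ := (nm μ p w.1 w.2, dn e p w.1 w.2)

/-- A zero is different from the poles. -/
def Ok (e : ℂ) (p : Pm) (a : ℂ) : Prop := a ≠ 0 ∧ a ≠ p.2.2.2.1 ∧ a ≠ p.2.2.2.2 ∧ e * a ≠ 1

/-- Nondegeneracy. -/
structure ND (μ e : ℂ) (p : Pm) : Prop where
  hμ : μ ≠ 0
  he : e ≠ 0
  h0 : Ok e p p.1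
  h1 : Ok e p p.2.1
  h2 : Ok e p p.2.2.1

variable {μ e : ℂ} {p : Pm}

lemma Ok.dn_ne {a X : ℂ} (h : Ok e p a) (hX : X ≠ 0) : dn e p X (a * X) ≠ 0 := by
  have : dn e p X (a * X) = X ^ 7 * a ^ 2 * (1 - e * a) * (a - p.2.2.2.1) ^ 2 *
    (a - p.2.2.2.2) ^ 2 := by unfold dn; ring
  rw [this]
  have := h.1
  have := sub_ne_zero.2 h.2.1
  have := sub_ne_zero.2 h.2.2.1
  have := sub_ne_zero.2 h.2.2.2.symm
  positivity

lemma ND.hom (h : ND μ e p) : Hom 7 (fF μ e p) := by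
  refine ⟨by unfold fF nm dn; fun_prop, fun c v => by ext <;> simp [fF, nm, dn] <;> ring,
    fun ⟨X, Y⟩ hv => ne_zero_iff'.2 ?_⟩
  by_cases hX : X = 0
  · subst hX
    have hY : Y ≠ 0 := by simpa using ne_zero_iff'.1 hv
    right; simp [fF, dn, hY, h.he]
  · rw [or_iff_not_imp_left, not_not]
    intro h0
    simp only [fF, nm, mul_eq_zero, h.hμ, pow_eq_zero_iff two_ne_zero, hX, or_self, false_or,
      sub_eq_zero] at h0
    rcases h0 with (rfl | rfl) | rfl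
    exacts [h.h1.dn_ne hX, h.h2.dn_ne hX, h.h0.dn_ne hX]

lemma ND.isRat (h : ND μ e p) : IsRat 7 ⟨act (fF μ e p), h.hom.continuous_act⟩ := by
  open MvPolynomial in
  have l : ∀ (i j : Fin 2) (c : ℂ), (X i - C c * X j : MvPolynomial (Fin 2) ℂ).IsHomogeneous 1 :=
    fun i j c => (isHomogeneous_X ℂ i).sub ((isHomogeneous_X ℂ j).C_mul c)
  open MvPolynomial in
  have key : evF (C μ * X 0 ^ 2 * (X 1 - C p.2.1 * X 0) ^ 2 * (X 1 - C p.2.2.1 * X 0) ^ 2 *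
      (X 1 - C p.1 * X 0)) (X 1 ^ 2 * (X 0 - C e * X 1) * (X 1 - C p.2.2.2.1 * X 0) ^ 2 *
      (X 1 - C p.2.2.2.2 * X 0) ^ 2) = fF μ e p := by
    funext v; simp [evF, fF, nm, dn]
  exact isRat_iff.2 ⟨_, _,
    (((((MvPolynomial.isHomogeneous_X ℂ 0).pow 2).C_mul μ).mul ((l 1 0 _).pow 2)).mul
      ((l 1 0 _).pow 2)).mul (l 1 0 _),
    ((((MvPolynomial.isHomogeneous_X ℂ 1).pow 2).mul (l 0 1 _)).mul ((l 1 0 _).pow 2)).mul
      ((l 1 0 _).pow 2), key ▸ h.hom, by rw [key]; rfl⟩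

lemma nd0 : ND 1 2 (1, 1, 1, 0, 0) := by
  constructor <;> simp [Ok]

open Classical in
/-- The family, with a junk value at degenerate parameters. -/
def fam (μ e : ℂ) (p : Pm) : RatMap 7 := if h : ND μ e p then ⟨_, h.isRat⟩ else ⟨_, nd0.isRat⟩

lemma ND.fam_eq (h : ND μ e p) : ⇑(fam μ e p).1 = act (fF μ e p) := by
  rw [fam, dif_pos h]; rfl

attribute [irreducible] fam

lemma cont_fam {T : Type*} [TopologicalSpace T] {S : Set T} {μ : T → ℂ} {p : T → Pm}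
    (h1 : ContinuousOn μ S) (h2 : ContinuousOn p S) (h : ∀ t ∈ S, ND (μ t) e (p t)) :
    ContinuousOn (fun t => fam (μ t) e (p t)) S := by
  rw [continuousOn_iff_continuous_restrict] at h1 h2 ⊢
  refine continuous_induced_rng.2 (ContinuousMap.continuous_of_continuous_uncurry _ ?_)
  have := continuous_act (F := fun t : S => fF (S.domRestrict μ t) e (S.domRestrict p t))
    (fun t => (h t t.2).hom) (by unfold fF nm dn; fun_prop)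
  exact this.congr fun q => (congrFun (h _ q.1.2).fam_eq q.2).symm

lemma ND.fam_pr (h : ND μ e p) {X Y : ℂ} (hv : X ≠ 0 ∨ Y ≠ 0) :
    (fam μ e p).1 (pr X Y) = pr (nm μ p X Y) (dn e p X Y) := by
  rw [h.fam_eq]; exact h.hom.act_pv (v := (X, Y)) (ne_zero_iff'.2 hv)

lemma ND.mero (h : ND μ e p) : Mero (fam μ e p).1 (fun z => nm μ p z 1) (fun z => dn e p z 1) :=
  ⟨(fam μ e p).1.continuous, by unfold nm; fun_prop, by unfold dn; fun_prop,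
    fun z => ne_zero_iff'.1 (h.hom.ne (z, 1) (by simp)),
    fun z => by rw [← h.fam_pr (Or.inr one_ne_zero), pr_one]⟩

lemma ND.infty (h : ND μ e p) : (fam μ e p).1 ∞ = ∞ := by
  rw [← pr_zero 1, h.fam_pr (Or.inl one_ne_zero)]; simp [dn]

lemma ND.esc (h : ND μ e p) :
    ∃ R, ∀ᶠ q : ℂ × Pm in 𝓝 (μ, p), ND q.1 e q.2 → Esc (fam q.1 e q.2).1 R := by
  have E : ∀ᶠ q : (ℂ × Pm) × ℂ in 𝓝 ((μ, p), 0), 2 * ‖q.2 * (1 - e * q.2) *
      (q.2 - q.1.2.2.2.2.1) ^ 2 * (q.2 - q.1.2.2.2.2.2) ^ 2‖ < ‖nm q.1.1 q.1.2 1 q.2‖ := by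
    refine ContinuousAt.eventually_lt (by fun_prop) (by unfold nm; fun_prop) ?_
    simp [nm, h.hμ, h.h0.1, h.h1.1, h.h2.1]
  rw [nhds_prod_eq] at E
  obtain ⟨U, u1, V, u2, hU⟩ := eventually_prod_iff.1 E
  obtain ⟨δ, hδ, hB⟩ := Metric.mem_nhds_iff.1 u2
  refine ⟨2 / δ, u1.mono fun q hq hn => ⟨by positivity, hn.infty, fun z hz y hy => ?_⟩⟩
  have z0 : 0 < ‖z‖ := lt_of_lt_of_le (by positivity) hz
  have z1 := norm_pos_iff.1 z0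
  have k := hU hq (hB (show z⁻¹ ∈ ball 0 δ by
    rw [mem_ball_zero_iff, norm_inv, inv_lt_comm₀ z0 hδ]
    exact lt_of_lt_of_le (by rw [inv_eq_one_div]; gcongr; norm_num) hz))
  have e1 : (z : Sph) = pr 1 z⁻¹ := by rw [pr_of_ne _ (inv_ne_zero z1)]; simp
  rw [e1, hn.fam_pr (Or.inl one_ne_zero)] at hy
  have d0 : dn e q.2 1 z⁻¹ ≠ 0 := fun h0 => by rw [h0, pr_zero] at hy; exact infty_ne_coe _ hy
  rw [pr_of_ne _ d0, coe_eq_coe, div_eq_iff d0] at hy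
  have e2 : dn e q.2 1 z⁻¹ = z⁻¹ * (z⁻¹ * (1 - e * z⁻¹) * (z⁻¹ - q.2.2.2.2.1) ^ 2 *
    (z⁻¹ - q.2.2.2.2.2) ^ 2) := by unfold dn; ring
  simp only at k
  rw [hy, e2, norm_mul y, norm_mul z⁻¹ (_ * _), norm_inv] at k
  by_contra hc
  rw [not_lt] at hc
  have : ‖y‖ * ‖z‖⁻¹ ≤ 2 := by rw [mul_inv_le_iff₀ z0]; exact hc
  nlinarith [norm_nonneg (z⁻¹ * (1 - e * z⁻¹) * (z⁻¹ - q.2.2.2.2.1) ^ 2 * (z⁻¹ - q.2.2.2.2.2) ^ 2)]

lemma esc_fam {T : Type*} [TopologicalSpace T] {μ : T → ℂ} {p : T → Pm} {t₀ : T}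
    (h1 : ContinuousAt μ t₀) (h2 : ContinuousAt p t₀) (h : ∀ᶠ t in 𝓝 t₀, ND (μ t) e (p t)) :
    ∃ R, ∀ᶠ t in 𝓝 t₀, Esc (fam (μ t) e (p t)).1 R := by
  obtain ⟨R, hR⟩ := h.self_of_nhds.esc
  exact ⟨R, ((h1.prodMk h2).eventually hR).mp (h.mono fun t h1 h2 => h2 h1)⟩

lemma cinv_fam {x y u v μ' : ℂ} (h : ND μ e (e, x, y, u, v)) (h' : ND μ' e (e, u⁻¹, v⁻¹, x⁻¹, y⁻¹))
    (hμ : μ' * μ * x ^ 2 * y ^ 2 = u ^ 2 * v ^ 2) :
    cinv (fam μ' e (e, u⁻¹, v⁻¹, x⁻¹, y⁻¹)) = fam μ e (e, x, y, u, v) := by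
  ext z
  obtain ⟨z, rfl⟩ := inv.surjective z
  have hv := ne_zero_iff'.1 (sec_ne z)
  have x0 : x ≠ 0 := h.h1.1
  have y0 : y ≠ 0 := h.h2.1
  have u0 : u ≠ 0 := fun h0 => h'.h1.1 (inv_eq_zero.2 h0)
  have v0 : v ≠ 0 := fun h0 => h'.h2.1 (inv_eq_zero.2 h0)
  have μ0 := h.hμ
  have e1 : μ' = u ^ 2 * v ^ 2 / (μ * x ^ 2 * y ^ 2) := by rw [← hμ]; field_simp
  rw [cinv, conj_apply, ← pv_sec z, pv, inv_pr hv, h'.fam_pr hv, h.fam_pr hv.symm]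
  refine (inv_pr (ne_zero_iff'.1 (h'.hom.ne _ (sec_ne z)))).trans ?_
  refine (pv_smul (c := μ * x ^ 2 * y ^ 2) (by positivity) (_, _)).symm.trans ?_
  simp only [pv, fF, Prod.smul_mk, smul_eq_mul, nm, dn, e1]
  congr 1 <;> field_simp <;> ring

lemma Lin.rd {f : Sph → Sph} {α : ℝ} {χ : ℂ → ℂ} {a b : ℝ} (h : Lin f α χ a b) (ha : 0 < a)
    (hab : a < b) : RD α f ((↑) '' (χ '' ann a b)) (b / a) (fun w => χ (a * w)) (fun _ => 1) := by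
  have ha' : (a : ℂ) ≠ 0 := by exact_mod_cast ha.ne'
  have hm : ∀ w, (a : ℂ) * w ∈ ann a b ↔ w ∈ ann 1 (b / a) := fun w => by
    simp only [ann, mem_setOf_eq, norm_mul, Complex.norm_real, Real.norm_of_nonneg ha.le]
    rw [lt_mul_iff_one_lt_right ha, lt_div_iff₀ ha, mul_comm]
  refine ⟨⟨isOpen_ann _ _, h.diff.comp (f := fun w => (a : ℂ) * w) (by fun_prop)
    fun w hw => (hm w).2 hw, by fun_prop, fun _ _ => Or.inr one_ne_zero, fun w hw w' hw' he => ?_⟩,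
    (one_lt_div ha).2 hab, Subset.antisymm ?_ ?_, fun w hw => ?_⟩
  · simp only [pr_one, coe_eq_coe] at he
    exact mul_left_cancel₀ ha' (h.inj ((hm w).2 hw) ((hm w').2 hw') he)
  · rintro _ ⟨w, hw, rfl⟩; exact ⟨_, ⟨_, (hm w).2 hw, rfl⟩, by simp⟩
  · rintro _ ⟨_, ⟨w, hw, rfl⟩, rfl⟩
    refine ⟨w / a, (hm _).1 ?_, ?_⟩ <;> simp [mul_div_cancel₀ _ ha', hw]
  · simp only [pr_one, h.conj _ ((hm w).2 hw), mul_left_comm]

lemma ee_ne_one {α : ℝ} (hα : Irrational α) : ee α ≠ 1 := by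
  simpa using ee_irr_ne hα one_ne_zero

lemma Lin.loop_q {f : Sph → Sph} {p q : ℂ → ℂ} (hf : Mero f p q) {α : ℝ} {χ : ℂ → ℂ} {a b r : ℝ}
    (h : Lin f α χ a b) (hr : r ∈ Ioo a b) : Loop fun θ => q (crv χ r θ) :=
  ⟨hf.dq.continuous.comp (h.toEmb.crv_cont hr), fun θ => hf.q_ne (h.map_crv hr θ),
    fun θ => by rw [crv_per]⟩

lemma Lin.tp_eq {f : Sph → Sph} {p q : ℂ → ℂ} (hf : Mero f p q) {α : ℝ} (hα : Irrational α)
    {χ : ℂ → ℂ} {a b r : ℝ} (h : Lin f α χ a b) (ha : 0 < a) (hr : r ∈ Ioo a b)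
    {F : ℂ × ℂ → ℂ × ℂ} (hF : ∀ z, F (z, 1) = (p z, q z)) :
    tp F (fun w => χ (a * w)) (fun _ => 1) (r / a) =
      wind (fun θ => q (crv χ r θ)) + (2 * nout χ a b + 1) := by
  have ha' : (a : ℂ) ≠ 0 := by exact_mod_cast ha.ne'
  have := (((h.loop_q hf hr).hasWind.mul (h.toEmb.wind_chord hr (ee_ne_one hα))).mul
    (hasWind_const (c := -1) (by simp)))
  rw [add_zero] at this
  refine (this.congr fun θ => ?_).wind_eq
  have e1 : (a:ℂ) * (((r / a : ℝ) : ℂ) * ee θ) = r * ee θ := by push_cast; field_simp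
  simp only [e1, hF, det]
  have e2 := hf.eq_coe.1 (h.map_crv hr θ)
  simp only [crv] at e2 ⊢
  rw [e2]; ring

lemma IsHerman.exists_lin {α : ℝ} (hα : Irrational α) {f : Sph → Sph} {A : Set Sph}
    (h : IsHerman α f A) (hi : f ∞ = ∞) :
    ∃ χ r, 1 < r ∧ Lin f α χ 1 r ∧ A = (↑) '' (χ '' ann 1 r) := by
  obtain ⟨r, a, b, k⟩ := h.exists_RD
  have hb : ∀ w ∈ ann 1 r, b w ≠ 0 := fun w hw h0 => by
    have h1 := k.conj w hw
    have h2 : pr (a w) (b w) = ∞ := by rw [h0, pr_zero]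
    rw [h2, hi, ← h2] at h1
    have := k.emb.inj hw (rot_mem (norm_ee_real α) hw) h1
    exact ee_ne_one hα (by
      rwa [eq_comm, mul_eq_right₀ (ann_ne_zero zero_le_one hw)] at this)
  have he : ∀ w ∈ ann 1 r, pr (a w) (b w) = ((a w / b w : ℂ) : Sph) := fun w hw =>
    pr_of_ne _ (hb w hw)
  refine ⟨fun w => a w / b w, r, k.hr, ⟨⟨zero_le_one, k.emb.da.div k.emb.db hb,
    fun w hw w' hw' h1 => k.emb.inj hw hw' ?_⟩, fun w hw => ?_⟩, ?_⟩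
  · simp only [he w hw, he w' hw', coe_eq_coe]; exact h1
  · rw [← he w hw, k.conj w hw, he _ (rot_mem (norm_ee_real α) hw)]
  · rw [← k.im, image_image]; exact image_congr he

lemma ND.typ_mod (h : ND μ e p) {α : ℝ} (hα : Irrational α) {χ : ℂ → ℂ} {a b r : ℝ}
    (hL : Lin (fam μ e p).1 α χ a b) (ha : 0 < a) (hr : r ∈ Ioo a b) {k : ℤ}
    (ht : Typ 7 α (fam μ e p).1 ((↑) '' (χ '' ann a b)) k) :
    wind (fun θ => dn e p (crv χ r θ) 1) + (2 * nout χ a b + 1) ≡ k [ZMOD 8] := by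
  rw [← hL.tp_eq h.mero hα ha hr (F := fF μ e p) fun _ => rfl]
  exact ht _ _ _ _ _ h.hom h.fam_eq (hL.rd ha (hr.1.trans hr.2))
    ⟨(one_lt_div ha).2 hr.1, div_lt_div_of_pos_right hr.2 ha⟩

lemma ND.typ_base (h : ND μ e p) {α : ℝ} (hα : Irrational α) {χ : ℂ → ℂ} {a b r : ℝ}
    (hL : Lin (fam μ e p).1 α χ a b) (ha : 0 < a) (hr : r ∈ Ioo a b) :
    Typ 7 α (fam μ e p).1 ((↑) '' (χ '' ann a b))
      (wind (fun θ => dn e p (crv χ r θ) 1) + (2 * nout χ a b + 1)) := by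
  rw [← hL.tp_eq h.mero hα ha hr (F := fF μ e p) fun _ => rfl]
  exact typ_self hα (hL.rd ha (hr.1.trans hr.2))
    ⟨(one_lt_div ha).2 hr.1, div_lt_div_of_pos_right hr.2 ha⟩ h.hom h.fam_eq

end

end Pool.Agent.Lib.MP_1e9af3_an
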