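import Pool.Agent.Lib.MP_1e9af3_an.Par
import Pool.Agent.Lib.MP_1e9af3_an.Cont

/-! The class is not locally closed. -/

namespace Pool.Agent.Lib.MP_1e9af3_an

open Set Filter Topology Complex Metric OnePoint

noncomputable section

/-- All the data of the construction. -/
structure Dat (α c₀ : ℝ) (τ : ℕ) (η β e k c R r₁ : ℝ) (u : Pm → ℂ → ℂ) (l : Pm → ℂ) : Prop where
  sd : SD α c₀ τ
  sc : Sc η β k e (200 * c ^ 2)
  nu : Nums β (ri (-(16 * η))) e k c R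
  cl : Continuous l
  hl : ∀ (D : Set ℂ) (σ : ℂ → Pm), IsOpen D → DifferentiableOn ℂ σ D →
    (∀ t ∈ D, ‖σ t‖ ≤ 200 * c ^ 2) → DifferentiableOn ℂ (fun t => l (σ t)) D
  cc : Continuous fun q : Pm × ℝ => crv (lz (fun w => k * w) (u q.1)) 1 q.2
  bl : ∀ p, ‖l p‖ ≤ η
  kd : ∀ p, ‖p‖ ≤ 200 * c ^ 2 → KD α (9 * η) η (phi e k p) (u p) (l p)
  r0 : 0 < r₁
  r1 : r₁ ≤ 1 / 2
  r2 : r₁ ≤ |(ee α).im|
  r3 : ∀ y : ℂ, ‖y‖ ≤ 3 * η → ‖ee y - 1‖ < r₁ / 2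

lemma cont_ee : Continuous ee :=
  continuous_iff_continuousAt.2 fun x => (hasDerivAt_ee x).continuousAt

lemma diff_ee : Differentiable ℂ ee := fun x => (hasDerivAt_ee x).differentiableAt

lemma exists_dat {α : ℝ} (hα : Dioph α) : ∃ c₀ τ η β e k c R r₁ u l,
    Dat α c₀ τ η β e k c R r₁ u l := by
  obtain ⟨c₀, τ, sd⟩ := hα.exists_SD
  have him : (ee α).im ≠ 0 := fun h => by
    apply sd.ne (k := 2) two_ne_zero
    have h1 := norm_ee_real α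
    have h2 : ee α = ((ee α).re : ℂ) := Complex.ext rfl (by simpa using h)
    rw [ee_zsmul, h2]
    rw [h2, Complex.norm_real, Real.norm_eq_abs] at h1
    have : (ee α).re ^ 2 = 1 := by rw [← sq_abs, h1, one_pow]
    exact_mod_cast this
  have r0 : 0 < min (1 / 2) |(ee α).im| := lt_min (by norm_num) (abs_pos.2 him)
  have c1 : ∀ᶠ y in 𝓝 (0:ℂ), ‖ee y - 1‖ < min (1 / 2) |(ee α).im| / 2 :=
    ((cont_ee.sub continuous_const).norm.continuousAt).eventually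
      (gt_mem_nhds (by simpa [ee_zero] using r0))
  obtain ⟨δ, δ0, hδ⟩ := Metric.nhds_basis_closedBall.mem_iff.1 c1
  have η0 : 0 < δ / 3 := by positivity
  obtain ⟨β, b0, b1, b2, H⟩ := base sd η0
  obtain ⟨e, k, c, R, nu⟩ := exists_nums (L := ri (-(16 * (δ / 3)))) b0
    (one_mem_ri (by positivity)).2.le
  have sc : Sc (δ / 3) β k e (200 * c ^ 2) :=
    ⟨η0, b2, b1, nu.k0, nu.e0, by have := nu.c0; positivity, nu.n1, nu.n2⟩
  obtain ⟨u, l, k1, k2, k3, k4, k5⟩ := H k e _ sc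
  exact ⟨c₀, τ, _, β, e, k, c, R, _, u, l, sd, sc, nu, k1, k2, k3, k4, k5, r0, min_le_left _ _,
    min_le_right _ _, fun y hy => hδ (mem_closedBall_zero_iff.2 (by linarith))⟩

/-- The map on the sheet of the small ring. -/
def FF (α e : ℝ) (l : Pm → ℂ) (p : Pm) : RatMap 7 := fam (ee α * ee (l p)) (-e) p

/-- The small ring. -/
def BB (α e k : ℝ) (u : Pm → ℂ → ℂ) (l : Pm → ℂ) (p : Pm) : Set Sph :=
  connectedComponentIn (fatou (FF α e l p).1) (lz (fun w => k * w) (u p) 1 : ℂ)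

/-- The multiplier off the sheet. -/
def mu (α e c : ℝ) (l : Pm → ℂ) (ℓ : ℝ) (z : ℝ × ℂ) : ℂ := ee α * ee (l (pp e c z) - ℓ * I)

/-- The perturbed family. -/
def Phi (α e c : ℝ) (l : Pm → ℂ) (ℓ : ℝ) (z : ℝ × ℂ) : RatMap 7 :=
  fam (mu α e c l ℓ z) (-e) (pp e c z)

variable {α c₀ η β e k c R r₁ : ℝ} {τ : ℕ} {u : Pm → ℂ → ℂ} {l : Pm → ℂ}

lemma ND.change {μ μ' e : ℂ} {p : Pm} (h : ND μ e p) (h' : μ' ≠ 0) : ND μ' e p :=
  ⟨h', h.he, h.h0, h.h1, h.h2⟩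

lemma ee_ee_ne (x y : ℂ) : ee x * ee y ≠ 0 := mul_ne_zero (ee_ne _) (ee_ne _)

lemma cont_nm {T : Type*} [TopologicalSpace T] {μ z : T → ℂ} {p : T → Pm} (h1 : Continuous μ)
    (h2 : Continuous p) (h3 : Continuous z) : Continuous fun t => nm (μ t) (p t) (z t) 1 := by
  unfold nm; fun_prop

lemma cont_dn {T : Type*} [TopologicalSpace T] (e : ℂ) {z : T → ℂ} {p : T → Pm}
    (h2 : Continuous p) (h3 : Continuous z) : Continuous fun t => dn e (p t) (z t) 1 := by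
  unfold dn; fun_prop

lemma diff_pp (e c s : ℝ) : Differentiable ℂ fun t => pp e c (s, t) := by
  simp only [pp]; fun_prop

lemma Dat.connP (D : Dat α c₀ τ η β e k c R r₁ u l) {γ : unitInterval → Pm} (hc : Continuous γ)
    (hb : ∀ θ, ‖γ θ‖ ≤ 200 * c ^ 2) (hn : ∀ θ, ND 1 (-e) (γ θ)) :
    Conn α (FF α e l (γ 0)) (BB α e k u l (γ 0)) (FF α e l (γ 1)) (BB α e k u l (γ 1)) := by
  have nd : ∀ θ, ND (ee α * ee (l (γ θ))) (-e) (γ θ) := fun θ => (hn θ).change (ee_ee_ne _ _)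
  have cm : Continuous fun θ => ee α * ee (l (γ θ)) :=
    continuous_const.mul (cont_ee.comp (D.cl.comp hc))
  have η0 := D.sc.η0
  have cP : Continuous fun q : unitInterval × ℂ => nm (ee α * ee (l (γ q.1))) (γ q.1) q.2 1 :=
    cont_nm (cm.comp continuous_fst) (hc.comp continuous_fst) continuous_snd
  have cQ : Continuous fun q : unitInterval × ℂ => dn (-e) (γ q.1) q.2 1 :=
    cont_dn _ (hc.comp continuous_fst) continuous_snd
  have cf : Continuous fun θ => FF α e l (γ θ) :=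
    continuousOn_univ.1 (cont_fam cm.continuousOn hc.continuousOn fun θ _ => nd θ)
  have hE : ∀ θ₀, ∃ M, ∀ᶠ θ in 𝓝 θ₀, Esc (FF α e l (γ θ)).1 M := fun θ =>
    esc_fam (μ := fun θ => ee α * ee (l (γ θ))) cm.continuousAt hc.continuousAt
      (Eventually.of_forall nd)
  have cc : Continuous fun q : unitInterval × ℝ => crv (lz (fun w => k * w) (u (γ q.1))) 1 q.2 :=
    D.cc.comp (f := fun q : unitInterval × ℝ => (γ q.1, q.2)) (hc.prodMap continuous_id)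
  exact conn_sheet D.sd (f := fun θ => FF α e l (γ θ))
    (P := fun θ z => nm (ee α * ee (l (γ θ))) (γ θ) z 1) (Q := fun θ z => dn (-e) (γ θ) z 1)
    (fun θ => (nd θ).mero) cP cQ cf hE
    (χ := fun θ => lz (fun w => k * w) (u (γ θ))) (ri_pos _) (one_mem_ri (by linarith))
    (fun θ => D.sc.lin (hb θ) (nd θ) (D.kd _ (hb θ))) cc
    fun θ => by rw [D.sc.windq (hb θ) (D.kd _ (hb θ)).near]; exact one_ne_zero

lemma Dat.typ (D : Dat α c₀ τ η β e k c R r₁ u l) {p : Pm} (hb : ‖p‖ ≤ 200 * c ^ 2)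
    (hn : ND 1 (-e) p) : Typ 7 α (FF α e l p).1 (BB α e k u l p) 2 := by
  have nd : ND (ee α * ee (l p)) (-e) p := hn.change (ee_ee_ne _ _)
  have η0 := D.sc.η0
  have o1 := one_mem_ri (σ := 9 * η) (by linarith)
  have hw := D.sc.windq hb (D.kd _ hb).near
  obtain ⟨M, hM⟩ := nd.esc
  obtain ⟨a', b', Ψ, k1, k2, k3, k4, k5, k6⟩ := ring_structure nd.mero (hM.self_of_nhds nd)
    D.sd.irrational (D.sc.lin hb nd (D.kd _ hb)) (ri_pos _) o1 (by rw [hw]; exact one_ne_zero)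
    (one_mem_sann (by linarith))
  have o2 : (1:ℝ) ∈ Ioo a' b' := ⟨k2.trans_lt o1.1, o1.2.trans_le k3⟩
  have he : crv Ψ 1 = crv (lz (fun w => k * w) (u p)) 1 :=
    funext fun θ => k5 _ (circ_mem (ri_pos _).le o1 θ)
  have := nd.typ_base D.sd.irrational k4 k1 o2
  rw [he, hw, (nout_of_wind k4.toEmb o2 (he ▸ D.sc.wind1 (D.kd _ hb).near)).1, ← k6] at this
  exact this

lemma rho_mem (α : ℝ) {t : ℂ} (ht : ‖t - ee α‖ ≤ 1 / 2) : t ∈ ann (1 / 100) 100 := by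
  have := abs_le.1 ((abs_norm_sub_norm_le _ _).trans ht)
  rw [norm_ee_real] at this
  constructor <;> linarith [this.1, this.2]

lemma ann_sub : ann (1 / 100) 100 ⊆ ann (1 / 200) 200 := ann_mono (by norm_num) (by norm_num)

lemma Dat.conn0 (D : Dat α c₀ τ η β e k c R r₁ u l) {z : ℝ × ℂ} (hz : z.2 ∈ ann (1 / 200) 200) :
    Conn α (FF α e l (pp e c (0, ee α))) (BB α e k u l (pp e c (0, ee α)))
      (FF α e l (pp e c z)) (BB α e k u l (pp e c z)) := by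
  have m0 : ee α ∈ ann (1 / 200) 200 := ann_sub (rho_mem α (by simp))
  obtain ⟨γ, hγ⟩ := ((isOpen_ann _ _).isConnected_iff_isPathConnected.1
    ⟨⟨_, m0⟩, isPreconnected_ann (by norm_num) _⟩).joinedIn _ m0 _ hz
  have := D.connP (γ := fun θ => pp e c (θ * z.1, γ θ)) ((pp_cont e c).comp (by fun_prop))
    (fun θ => D.nu.pp_le D.sc.hβ (hγ θ)) fun θ => D.nu.nd D.sc.hβ one_ne_zero (hγ θ)
  simpa using this

lemma Dat.start (D : Dat α c₀ τ η β e k c R r₁ u l) {ℓ : ℝ} (h0 : 0 < ℓ) (h1 : ℓ ≤ η) :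
    ∃ t ∈ ann (1 / 100) 100, Phi α e c l ℓ (0, t) ∈
      hermanClass α (FF α e l (pp e c (0, ee α))) (BB α e k u l (pp e c (0, ee α))) := by
  have c0 := D.nu.c0
  have c1 : (c:ℂ) ≠ 0 := by exact_mod_cast (by linarith : c ≠ 0)
  have r0 := D.r0
  have η0 := D.sc.η0
  have d1 := D.hl _ (fun t => pp e c (0, t)) (isOpen_ann (1 / 200) 200) (diff_pp e c 0).differentiableOn
    fun t ht => D.nu.pp_le D.sc.hβ ht
  have d2 := D.hl _ (ps e c) (isOpen_ann (1 / 200) 200) (by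
      have : DifferentiableOn ℂ (fun t : ℂ => (t * c ^ 2)⁻¹) (ann (1 / 200) 200) :=
        DifferentiableOn.inv (by fun_prop) fun t ht =>
          mul_ne_zero (ann_ne_zero (by norm_num) ht) (pow_ne_zero _ c1)
      unfold ps; fun_prop)
    fun t ht => D.nu.ps_le D.sc.hβ ht
  have sb : closedBall (ee α) r₁ ⊆ ann (1 / 100) 100 := fun t ht =>
    rho_mem α ((mem_closedBall_iff_norm.1 ht).trans D.r1)
  have bd : ∀ t, ‖ee α * ee ((l (pp e c (0, t)) - ℓ * I + l (ps e c t)) / 2) - ee α‖ < r₁ / 2 :=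
    fun t => by
      rw [← mul_sub_one, norm_mul, norm_ee_real, one_mul]
      refine D.r3 _ ?_
      have h2 := (norm_add_le _ _).trans (add_le_add ((norm_sub_le _ (ℓ * I)).trans
        (add_le_add (D.bl (pp e c (0, t))) (show _ ≤ η by simpa [abs_of_pos h0] using h1)))
        (D.bl (ps e c t)))
      rw [norm_div, Complex.norm_ofNat]; linarith
  obtain ⟨t, t1, t2⟩ := exists_zero_of_min (c := ee α) (r := r₁) (m := r₁ / 2)
    (f := fun t => t - ee α * ee ((l (pp e c (0, t)) - ℓ * I + l (ps e c t)) / 2)) r0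
    (DifferentiableOn.diffContOnCl (by
      rw [closure_ball _ r0.ne']
      exact (differentiableOn_id.sub ((diff_ee.comp_differentiableOn
        (((d1.sub_const _).add d2).div_const 2)).const_mul _)).mono (sb.trans ann_sub)))
    (fun t ht => by
      have h2 := norm_sub_norm_le (t - ee α)
        (ee α * ee ((l (pp e c (0, t)) - ℓ * I + l (ps e c t)) / 2) - ee α)
      rw [sub_sub_sub_cancel_right, mem_sphere_iff_norm.1 ht] at h2
      linarith [bd t])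
    (by rw [norm_sub_rev]; exact bd _)
  have t3 := sb (ball_subset_closedBall t1)
  have t4 := ann_sub t3
  have t5 : (t * c ^ 2).im ≠ 0 := by
    have h2 := (abs_im_le_norm _).trans_lt (mem_ball_iff_norm.1 t1)
    have h3 : t.im ≠ 0 := fun h => by
      rw [sub_im, h, zero_sub, abs_neg] at h2; linarith [D.r2]
    rw [← ofReal_pow, mul_comm, im_ofReal_mul]
    exact mul_ne_zero (by positivity) h3
  have e1 : e < 1 := by linarith [(D.nu.e1 D.sc.hβ).2]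
  have ln := fun (θ : unitInterval) => line_nd (μ := 1) one_ne_zero D.nu.e0 e1 (c := c)
    (by linarith) t5 θ.2.1 θ.2.2
  have p0 : pp e c (0, t) = ((-e : ℂ), (c : ℂ), (c : ℂ), (1 : ℂ), t * c ^ 2) := by simp [pp, EE_zero]
  have k1 := D.connP (γ := fun θ : unitInterval => (1 - (θ:ℝ)) • pp e c (0, t) + (θ:ℝ) • ps e c t)
    (by fun_prop) (fun θ => mem_closedBall_zero_iff.1 (convex_closedBall (0:Pm) _
      (mem_closedBall_zero_iff.2 (D.nu.pp_le D.sc.hβ t4))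
      (mem_closedBall_zero_iff.2 (D.nu.ps_le D.sc.hβ t4)) (sub_nonneg.2 θ.2.2) θ.2.1 (by ring)))
    fun θ => by
      have := ln θ
      rw [p0, ps]
      simp only [Prod.smul_mk, Prod.mk_add_mk, real_smul, ofReal_sub, ofReal_one, inv_one, mul_one]
      rwa [← add_mul, sub_add_cancel, one_mul]
  simp only [Icc.coe_zero, Icc.coe_one, sub_zero, sub_self, one_smul, zero_smul, add_zero,
    zero_add] at k1
  have k2 := ((D.conn0 (z := (0, t)) t4).trans k1).trans (conn_inv k1.herman)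
  refine ⟨t, t3, mem_class.2 ⟨inv '' BB α e k u l (ps e c t), ?_⟩⟩
  · have n1 : ND (mu α e c l ℓ (0, t)) (-e) (-e, c, c, 1, t * c ^ 2) :=
      p0 ▸ D.nu.nd D.sc.hβ (ee_ee_ne _ _) t4
    have n2 : ND (ee α * ee (l (ps e c t))) (-e) (ps e c t) := by
      simpa [ps] using (ln 1).change (ee_ee_ne _ _)
    have h2 := cinv_fam n1 n2 (by
      have h3 : ee ((l (pp e c (0, t)) - ℓ * I + l (ps e c t)) / 2) ^ 2 =
          ee (l (pp e c (0, t)) - ℓ * I) * ee (l (ps e c t)) := by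
        rw [sq, ← ee_add, ← ee_add, add_halves]
      have h4 := sub_eq_zero.1 t2
      rw [mu, mul_pow t, show t ^ 2 = _ by rw [h4, mul_pow, h3]]
      ring)
    rw [Phi, p0, ← h2]
    exact k2

lemma Dat.mu_bd (D : Dat α c₀ τ η β e k c R r₁ u l) {ℓ : ℝ} (h0 : 0 < ℓ) (h1 : ℓ ≤ η) (z : ℝ × ℂ) :
    1 / 2 ≤ ‖mu α e c l ℓ z‖ ∧ ‖mu α e c l ℓ z‖ ≤ 2 := by
  rw [mu, norm_mul, norm_ee_real, one_mul]
  refine near_one ((D.r3 _ ?_).le.trans (by linarith [D.r1]))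
  have h2 := (norm_sub_le _ (ℓ * I)).trans
    (add_le_add (D.bl (pp e c z)) (show _ ≤ η by simpa [abs_of_pos h0] using h1))
  linarith

lemma Dat.mu_cont (D : Dat α c₀ τ η β e k c R r₁ u l) :
    Continuous fun q : ℝ × ℝ × ℂ => mu α e c l q.1 q.2 :=
  continuous_const.mul (cont_ee.comp ((D.cl.comp ((pp_cont e c).comp continuous_snd)).sub
    (by fun_prop)))

lemma Dat.phi_cont (D : Dat α c₀ τ η β e k c R r₁ u l) :
    ContinuousOn (fun q : ℝ × ℝ × ℂ => Phi α e c l q.1 q.2) {q | q.2.2 ∈ ann (1 / 200) 200} :=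
  cont_fam (μ := fun q : ℝ × ℝ × ℂ => mu α e c l q.1 q.2) (p := fun q => pp e c q.2)
    D.mu_cont.continuousOn ((pp_cont e c).comp continuous_snd).continuousOn
    fun _ hq => D.nu.nd D.sc.hβ (ee_ee_ne _ _) hq

lemma ND.no_push' {μ e : ℂ} {p : Pm} (h : ND μ e p) (hα : Irrational α) {χ : ℂ → ℂ} {a b : ℝ}
    (hL : Lin (fam μ e p).1 α χ a b) (hab : a < b) (ha : 0 < a) {z₀ : Sph}
    (hB : connectedComponentIn (fatou (fam μ e p).1) z₀ = (↑) '' (χ '' ann a b))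
    (h0 : nout χ a b = 0)
    (hs : ∀ r ∈ Ioo a b, (0:ℂ) ∈ side χ r 1 ∧ (∀ z ∈ side χ r 1, nm μ p z 1 = 0 → z = 0) ∧
      (∀ z ∈ side χ r 1, dn e p z 1 = 0 → z = e) ∧ wind (fun θ => dn e p (crv χ r θ) 1) = 1)
    {ψ : ℂ → ℂ} {ρ₁ ra r₀ rb ρ₂ : ℝ}
    (k : Pushed (fam μ e p).1 (fun z => dn e p z 1) α ψ ρ₁ ra r₀ rb ρ₂ e) : False := by
  open Polynomial in
  obtain ⟨P, hP⟩ : ∃ P : ℂ[X], ∀ z, P.eval z = nm μ p z 1 :=
    ⟨C μ * X ^ 2 * (1 - C p.2.1 * X) ^ 2 * (1 - C p.2.2.1 * X) ^ 2 * (1 - C p.1 * X),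
      fun z => by simp [nm]⟩
  open Polynomial in
  obtain ⟨Q, hQ⟩ : ∃ Q : ℂ[X], ∀ z, Q.eval z = dn e p z 1 :=
    ⟨(X - C e) * (1 - C p.2.2.2.1 * X) ^ 2 * (1 - C p.2.2.2.2 * X) ^ 2, fun z => by simp [dn]⟩
  refine no_push (P := P) (Q := Q) (by simpa only [hP, hQ] using h.mero) (fun c hc => ?_) hα hL hab
    ha hB h0 (by simp [hP, nm]) (by simpa only [hP, hQ] using hs) (by simpa only [hQ] using k)
  have h1 : dn e p e 1 = 0 := by simp [dn]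
  have h2 := hc e
  rw [hP, hQ, h1, mul_zero] at h2
  exact (h.mero.ne e).elim (fun h => h h2) fun h => h h1

lemma Dat.step (D : Dat α c₀ τ η β e k c R r₁ u l) {ℓ : ℝ} (h0 : 0 < ℓ) (h1 : ℓ ≤ η)
    {f₀ : RatMap 7} {A₀ : Set Sph} (ht : Typ 7 α f₀.1 A₀ 2) {z : ℝ × ℂ} (z1 : z.1 ≤ 1)
    (z2 : 1 / 100 ≤ ‖z.2‖) (z3 : ‖z.2‖ ≤ 100) (hz : Phi α e c l ℓ z ∈ hermanClass α f₀ A₀) :
    ∃ z' : ℝ × ℂ, z'.1 ≤ 1 ∧ z'.2 ∈ ann (1 / 100) 100 ∧ Phi α e c l ℓ z' ∈ hermanClass α f₀ A₀ ∧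
      (z.1 < z'.1 ∨ (z'.1 = z.1 ∧ ‖z.2‖ < ‖z'.2‖)) := by
  obtain ⟨s, t⟩ := z
  simp only at z1 z2 z3
  have irr := D.sd.irrational
  have tm : t ∈ ann (1 / 200) 200 := ⟨by linarith, by linarith⟩
  have t0 := ann_ne_zero (by norm_num) tm
  have nd : ∀ z : ℝ × ℂ, z.2 ∈ ann (1 / 200) 200 → ND (mu α e c l ℓ z) (-e) (pp e c z) :=
    fun z hz => D.nu.nd D.sc.hβ (ee_ee_ne _ _) hz
  obtain ⟨A, hA⟩ := mem_class.1 hz
  have he := hA.herman
  have ty := hA.typ irr ht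
  obtain ⟨χ, r, r1, hL, rfl⟩ := he.exists_lin irr (nd _ tm).infty
  obtain ⟨m1, m2⟩ := D.mu_bd h0 h1 (s, t)
  have g := D.nu.geo D.sc.hβ D.sc.sm m2 s tm
  have rc := fun r' (hr' : r' ∈ Ioo 1 r) => ring_cases g (nd _ tm) irr hL one_pos hr' ty
  obtain ⟨r₀, hr₀⟩ : ∃ r₀, r₀ ∈ Ioo 1 r := exists_between r1
  have no : nout χ 1 r = -1 := (hL.toEmb.nout_cases r1).resolve_left fun hn => by
    obtain ⟨⟨z₀, -, hz₀⟩, -⟩ := he
    exact (nd _ tm).no_push' irr hL r1 one_pos hz₀.symm hn (fun r' hr' => (rc r' hr').2.1 hn)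
      (D.sc.pushed (D.nu.pp_le D.sc.hβ tm) h0 h1 (nd _ tm) (D.kd _ (D.nu.pp_le D.sc.hβ tm)))
  obtain ⟨b1, b2, b3⟩ := (rc r₀ hr₀).2.2 no
  rw [D.nu.nu t0] at b2 b3
  have s1 : s < 1 := z1.lt_of_ne fun h => b1 (by rw [h, EE_one])
  have t1 : t ∈ ann (1 / 100) 100 :=
    ⟨z2.lt_of_ne fun h => by rw [← h, div_lt_iff₀ (by norm_num)] at b3; linarith,
      z3.lt_of_ne fun h => by rw [h, lt_div_iff₀ (by norm_num)] at b2; linarith⟩
  have cm : Continuous (mu α e c l ℓ) := D.mu_cont.comp (f := fun z => (ℓ, z)) (by fun_prop)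
  have Wo : IsOpen {z : ℝ × ℂ | z.2 ∈ ann (1 / 200) 200} := (isOpen_ann _ _).preimage continuous_snd
  let C : Curves (ℝ × ℂ) := ⟨ℝ, fun _ => ann (1 / 200) 200, fun s t => (s, t),
    fun _ => isOpen_ann _ _, fun _ => by fun_prop⟩
  have cf : ContinuousOn (Phi α e c l ℓ) {z : ℝ × ℂ | z.2 ∈ ann (1 / 200) 200} :=
    D.phi_cont.comp (f := fun z => (ℓ, z)) (by fun_prop) fun z hz => hz
  have cP : Continuous fun q : (ℝ × ℂ) × ℂ => nm (mu α e c l ℓ q.1) (pp e c q.1) q.2 1 :=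
    cont_nm (cm.comp continuous_fst) ((pp_cont e c).comp continuous_fst) continuous_snd
  have cQ : Continuous fun q : (ℝ × ℂ) × ℂ => dn (-e) (pp e c q.1) q.2 1 :=
    cont_dn _ ((pp_cont e c).comp continuous_fst) continuous_snd
  have dP : ∀ s : ℝ, DifferentiableOn ℂ (fun q : ℂ × ℂ =>
      nm (mu α e c l ℓ (s, q.1)) (pp e c (s, q.1)) q.2 1) (ann (1 / 200) 200 ×ˢ univ) := fun s => by
    have d1 : DifferentiableOn ℂ (fun t => mu α e c l ℓ (s, t)) (ann (1 / 200) 200) :=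
      (diff_ee.comp_differentiableOn ((D.hl _ (fun t => pp e c (s, t)) (isOpen_ann _ _)
        (diff_pp e c s).differentiableOn fun t ht => D.nu.pp_le D.sc.hβ ht).sub_const _)).const_mul _
    have d2 : DifferentiableOn ℂ (fun q : ℂ × ℂ => mu α e c l ℓ (s, q.1))
        (ann (1 / 200) 200 ×ˢ univ) := d1.comp differentiableOn_fst fun q hq => hq.1
    simp only [nm, pp]
    fun_prop
  have dQ : ∀ s : ℝ, DifferentiableOn ℂ (fun q : ℂ × ℂ =>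
      dn (-e) (pp e c (s, q.1)) q.2 1) (ann (1 / 200) 200 ×ˢ univ) := fun s => by
    simp only [dn, pp]
    fun_prop
  have hE : ∀ p₁ ∈ {z : ℝ × ℂ | z.2 ∈ ann (1 / 200) 200}, ∃ M, ∀ᶠ p in 𝓝 p₁,
      Esc (Phi α e c l ℓ p).1 M := fun p₁ hp =>
    esc_fam (μ := mu α e c l ℓ) (p := pp e c) cm.continuousAt (pp_cont e c).continuousAt
      (mem_of_superset (Wo.mem_nhds hp) nd)
  obtain ⟨V, Vo, v1, v2, m, k1, k2, k3, k4⟩ := extend D.sd C (f := Phi α e c l ℓ)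
    (P := fun z w => nm (mu α e c l ℓ z) (pp e c z) w 1) (Q := fun z w => dn (-e) (pp e c z) w 1)
    Wo cf (fun z hz => (nd z hz).mero) cP cQ dP dQ hE (p₀ := (s, t)) tm hL one_pos hr₀
    (rc r₀ hr₀).1 he
  obtain ⟨γ, g1, g2, g3, g4, g5⟩ := continuation (m := m)
    (V := V ∩ {z | z.2 ∈ ann (1 / 100) 100}) (Vo.inter ((isOpen_ann _ _).preimage continuous_snd))
    (k1.mono inter_subset_left) ⟨v1, t1⟩ s1
    (fun s _ => (k2 s).mono fun t ht => ⟨v2 ht.1, ht.1⟩) k3 t0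
  obtain ⟨B, hB⟩ := k4 γ g1 g2 fun θ => ⟨(g3 θ).1.1, (g3 θ).2⟩
  exact ⟨γ 1, g4, (g3 1).1.2, mem_class.2 ⟨B, hA.trans hB⟩, g5⟩

theorem not_locally_closed {α : ℝ} (hα : Dioph α) : ∃ (f₀ : RatMap 7) (A₀ : Set Sph),
    IsHerman α f₀.1 A₀ ∧ ¬ IsLocallyClosed (hermanClass α f₀ A₀) := by
  obtain ⟨c₀, τ, η, β, e, k, c, R, r₁, u, l, D⟩ := exists_dat hα
  have m0 : ee α ∈ ann (1 / 200) 200 := ann_sub (rho_mem α (by simp))
  refine ⟨FF α e l (pp e c (0, ee α)), BB α e k u l (pp e c (0, ee α)),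
    (D.conn0 (z := (0, ee α)) m0).herman, fun ⟨U, Z, hU, hZ, hH⟩ => ?_⟩
  have ty := D.typ (D.nu.pp_le D.sc.hβ (z := (0, ee α)) m0) (D.nu.nd D.sc.hβ one_ne_zero m0)
  set H := hermanClass α (FF α e l (pp e c (0, ee α))) (BB α e k u l (pp e c (0, ee α))) with hH'
  have kK : IsCompact (Icc (0:ℝ) 1 ×ˢ {w : ℂ | 1 / 100 ≤ ‖w‖ ∧ ‖w‖ ≤ 100}) :=
    isCompact_Icc.prod (isCompact_cann _ _)
  set K := Icc (0:ℝ) 1 ×ˢ {w : ℂ | 1 / 100 ≤ ‖w‖ ∧ ‖w‖ ≤ 100} with hK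
  have KW : ∀ z ∈ K, z.2 ∈ ann (1 / 200) 200 := fun z hz =>
    ⟨by linarith [hz.2.1], by linarith [hz.2.2]⟩
  have E : ∀ᶠ ℓ in 𝓝 (0:ℝ), ∀ z ∈ K, Phi α e c l ℓ z ∈ U := by
    refine kK.eventually_forall_of_forall_eventually fun z hz => ?_
    refine (D.phi_cont.continuousAt (x := (0, z)) (((isOpen_ann _ _).preimage
      (by fun_prop)).mem_nhds (KW z hz))).eventually (hU.mem_nhds ?_)
    have h1 : FF α e l (pp e c z) ∈ H := mem_class.2 ⟨_, D.conn0 (KW z hz)⟩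
    rw [hH] at h1
    simpa [Phi, mu, FF] using h1.1
  obtain ⟨ℓ, hℓ, h0, h1⟩ := ((E.filter_mono nhdsWithin_le_nhds).and
    (Ioc_mem_nhdsGT D.sc.η0)).exists
  have cf : ContinuousOn (Phi α e c l ℓ) K :=
    D.phi_cont.comp (f := fun z => (ℓ, z)) (by fun_prop) KW
  have kX : IsCompact (K ∩ Phi α e c l ℓ ⁻¹' Z) :=
    kK.of_isClosed_subset (cf.preimage_isClosed_of_isClosed kK.isClosed hZ) inter_subset_left
  obtain ⟨t, t1, t2⟩ := D.start h0 h1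
  have hm : ∀ z : ℝ × ℂ, 0 ≤ z.1 → z.1 ≤ 1 → z.2 ∈ ann (1 / 100) 100 → Phi α e c l ℓ z ∈ H →
      z ∈ K ∩ Phi α e c l ℓ ⁻¹' Z := fun z a1 a2 a3 a4 =>
    ⟨⟨⟨a1, a2⟩, a3.1.le, a3.2.le⟩, (hH ▸ a4 : _ ∈ U ∩ Z).2⟩
  obtain ⟨z₁, p1, p2⟩ := kX.exists_isMaxOn ⟨_, hm (0, t) le_rfl zero_le_one t1 t2⟩
    continuous_fst.continuousOn
  obtain ⟨z₂, ⟨q1, q3⟩, q2⟩ := (kX.inter_right (isClosed_eq continuous_fst
    (continuous_const (y := z₁.1)))).exists_isMaxOn ⟨z₁, p1, rfl⟩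
    (continuous_norm.comp continuous_snd).continuousOn
  obtain ⟨z', w1, w2, w3, w4⟩ := D.step h0 h1 ty q1.1.1.2 q1.1.2.1 q1.1.2.2
    (show _ ∈ H from hH ▸ ⟨hℓ _ q1.1, q1.2⟩)
  have q4 : z₂.1 = z₁.1 := q3
  have w5 := hm z' (q1.1.1.1.trans (w4.elim le_of_lt fun h => h.1.ge)) w1 w2 w3
  rcases w4 with h | h
  · exact h.not_ge (q4 ▸ p2 w5)
  · exact h.2.not_ge (q2 ⟨w5, h.1.trans q4⟩)

end

end Pool.Agent.Lib.MP_1e9af3_an
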