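import Pool.Agent.Lib.MP_1e9af3_an.Jordan

/-! Fourier series of periodic holomorphic functions on strips. -/

namespace Pool.Agent.Lib.MP_1e9af3_an

open Set Filter Topology Complex Metric

noncomputable section

/-- Horizontal strip. -/
def strip (a b : ℝ) : Set ℂ := {x | a < x.im ∧ x.im < b}

lemma isOpen_strip (a b : ℝ) : IsOpen (strip a b) :=
  (isOpen_lt continuous_const continuous_im).inter (isOpen_lt continuous_im continuous_const)

lemma convex_strip (a b : ℝ) : Convex ℝ (strip a b) :=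
  (convex_halfSpace_im_gt a).inter (convex_halfSpace_im_lt b)

lemma strip_mono {a b a' b' : ℝ} (h1 : a ≤ a') (h2 : b' ≤ b) : strip a' b' ⊆ strip a b :=
  fun _ hw => ⟨h1.trans_lt hw.1, hw.2.trans_le h2⟩

lemma line_mem {a b y : ℝ} (hy : y ∈ Ioo a b) (θ : ℝ) : (θ : ℂ) + y * I ∈ strip a b := by
  simpa [strip] using hy

lemma add_real_mem {a b : ℝ} {x : ℂ} (hx : x ∈ strip a b) (t : ℝ) : x + t ∈ strip a b := by
  simpa [strip] using hx

lemma add_one_mem {a b : ℝ} {x : ℂ} (hx : x ∈ strip a b) : x + 1 ∈ strip a b := by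
  simpa [strip] using hx

lemma ball_sub_strip {a b δ : ℝ} {x : ℂ} (hx : x ∈ strip (a + δ) (b - δ)) :
    ball x δ ⊆ strip a b := fun y hy => by
  rw [mem_ball, dist_eq_norm] at hy
  have := (abs_im_le_norm (y - x)).trans_lt hy
  rw [sub_im, abs_lt] at this
  exact ⟨by linarith [hx.1], by linarith [hx.2]⟩

lemma cont_line {h : ℂ → ℂ} {a b y : ℝ} (hd : ContinuousOn h (strip a b)) (hy : y ∈ Ioo a b) :
    Continuous fun θ : ℝ => h (θ + y * I) :=
  hd.comp_continuous (by fun_prop) (line_mem hy)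

lemma shift_integral {φ : ℂ → ℂ} {a b y y' : ℝ} (hd : DifferentiableOn ℂ φ (strip a b))
    (hp : ∀ x ∈ strip a b, φ (x + 1) = φ x) (hy : y ∈ Ioo a b) (hy' : y' ∈ Ioo a b) :
    ∫ θ in (0:ℝ)..1, φ (θ + y * I) = ∫ θ in (0:ℝ)..1, φ (θ + y' * I) := by
  have hs : uIcc y y' ⊆ Ioo a b := ordConnected_Ioo.uIcc_subset hy hy'
  have := integral_boundary_rect_eq_zero_of_differentiableOn φ (y * I) (1 + y' * I)
    (hd.mono fun x hx => by
      have := hx.2
      simp only [mul_im, ofReal_re, I_im, mul_one, ofReal_im, I_re, mul_zero, add_zero, add_im,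
        one_im, zero_add, mem_preimage] at this
      exact hs this)
  simp only [mul_re, ofReal_re, I_re, mul_zero, ofReal_im, I_im, mul_one, sub_self, add_re, one_re,
    add_zero, mul_im, add_im, one_im, zero_add, ofReal_one, ofReal_zero, smul_eq_mul] at this
  have h2 : ∫ t in y..y', φ (1 + t * I) = ∫ t in y..y', φ (t * I) := by
    apply intervalIntegral.integral_congr
    intro t ht
    simp only
    rw [add_comm, hp]
    simpa using line_mem (hs ht) 0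
  rw [h2] at this
  linear_combination this

/-- Fourier coefficient computed at height `y`. -/
def fc (h : ℂ → ℂ) (y : ℝ) (k : ℤ) : ℂ :=
  ∫ θ in (0:ℝ)..1, h (θ + y * I) * ee (-k * (θ + y * I))

lemma fc_indep {h : ℂ → ℂ} {a b y y' : ℝ} (hd : DifferentiableOn ℂ h (strip a b))
    (hp : ∀ x ∈ strip a b, h (x + 1) = h x) (hy : y ∈ Ioo a b) (hy' : y' ∈ Ioo a b) (k : ℤ) :
    fc h y k = fc h y' k :=
  shift_integral (φ := fun x => h x * ee (-k * x)) (hd.mul (by fun_prop))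
    (fun x hx => by
      rw [hp x hx, mul_add, mul_one, ← Int.cast_neg, ee_add_int]) hy hy'

lemma fc_bound {h : ℂ → ℂ} {y M : ℝ} (hb : ∀ θ : ℝ, ‖h (θ + y * I)‖ ≤ M) (k : ℤ) :
    ‖fc h y k‖ ≤ M * Real.exp (2 * Real.pi * k * y) := by
  have := intervalIntegral.norm_integral_le_of_norm_le_const (a := 0) (b := 1)
    (C := M * Real.exp (2 * Real.pi * k * y))
    (f := fun θ : ℝ => h (θ + y * I) * ee (-k * (θ + y * I))) fun θ _ => by
      rw [norm_mul, norm_ee]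
      have : -(2 * Real.pi * (-(k:ℂ) * (θ + y * I)).im) = 2 * Real.pi * k * y := by simp; ring
      rw [this]; gcongr; exact hb θ
  simpa [fc] using this

lemma fc_decay {h : ℂ → ℂ} {a b y y₀ η M : ℝ} (hd : DifferentiableOn ℂ h (strip a b))
    (hp : ∀ x ∈ strip a b, h (x + 1) = h x) (hy₀ : y₀ ∈ Ioo a b) (h1 : y - η ∈ Ioo a b)
    (h2 : y + η ∈ Ioo a b) (hb1 : ∀ θ : ℝ, ‖h (θ + (y - η : ℝ) * I)‖ ≤ M)
    (hb2 : ∀ θ : ℝ, ‖h (θ + (y + η : ℝ) * I)‖ ≤ M) (k : ℤ) {x : ℂ} (hx : x.im = y) :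
    ‖fc h y₀ k * ee (k * x)‖ ≤ M * Real.exp (-(2 * Real.pi * η * |(k:ℝ)|)) := by
  rw [norm_mul, norm_ee]
  have e : (((k:ℂ) * x).im) = k * y := by simp [hx]
  rw [e]
  rcases le_total 0 (k:ℝ) with hk | hk
  · rw [fc_indep hd hp hy₀ h1]
    refine (mul_le_mul_of_nonneg_right (fc_bound hb1 k) (Real.exp_nonneg _)).trans_eq ?_
    rw [mul_assoc, ← Real.exp_add, abs_of_nonneg hk]; congr 2; ring
  · rw [fc_indep hd hp hy₀ h2]
    refine (mul_le_mul_of_nonneg_right (fc_bound hb2 k) (Real.exp_nonneg _)).trans_eq ?_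
    rw [mul_assoc, ← Real.exp_add, abs_of_nonpos hk]; congr 2; ring

lemma summable_exp_abs {c : ℝ} (hc : 0 < c) : Summable fun k : ℤ => Real.exp (-(c * |(k:ℝ)|)) := by
  have h1 : Summable fun n : ℕ => Real.exp (-(c * n)) := by
    have := summable_geometric_of_lt_one (Real.exp_nonneg (-c)) (Real.exp_lt_one_iff.2 (by linarith))
    refine this.congr fun n => ?_
    rw [← Real.exp_nat_mul]; congr 1; ring
  apply Summable.of_nat_of_neg <;> simpa using h1

lemma line_bound {h : ℂ → ℂ} {a b y : ℝ} (hd : ContinuousOn h (strip a b))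
    (hp : ∀ x ∈ strip a b, h (x + 1) = h x) (hy : y ∈ Ioo a b) :
    ∃ M, ∀ θ : ℝ, ‖h (θ + y * I)‖ ≤ M := by
  obtain ⟨M, hM⟩ := isCompact_Icc.exists_bound_of_continuousOn (s := Icc (0:ℝ) 1)
    (cont_line hd hy).continuousOn
  refine ⟨M, forall_of_Icc (P := fun θ : ℝ => ‖h (θ + y * I)‖ ≤ M) (fun θ => ?_) hM⟩
  rw [← hp _ (line_mem hy θ)]; push_cast; rw [add_right_comm]

lemma summable_fourier {h : ℂ → ℂ} {a b y₀ : ℝ} (hd : DifferentiableOn ℂ h (strip a b))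
    (hp : ∀ x ∈ strip a b, h (x + 1) = h x) (hy₀ : y₀ ∈ Ioo a b) {x : ℂ} (hx : x ∈ strip a b) :
    Summable fun k : ℤ => ‖fc h y₀ k * ee (k * x)‖ := by
  set η := min (x.im - a) (b - x.im) / 2 with hη
  have m1 := min_le_left (x.im - a) (b - x.im)
  have m2 := min_le_right (x.im - a) (b - x.im)
  have hη0 : 0 < η := by have := lt_min (sub_pos.2 hx.1) (sub_pos.2 hx.2); positivity
  have h1 : x.im - η ∈ Ioo a b := ⟨by linarith, by linarith [hx.2]⟩
  have h2 : x.im + η ∈ Ioo a b := ⟨by linarith [hx.1], by linarith⟩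
  obtain ⟨M1, hM1⟩ := line_bound hd.continuousOn hp h1
  obtain ⟨M2, hM2⟩ := line_bound hd.continuousOn hp h2
  refine Summable.of_nonneg_of_le (fun _ => norm_nonneg _) (fun k =>
    fc_decay (M := max M1 M2) hd hp hy₀ h1 h2 (fun θ => (hM1 θ).trans (le_max_left _ _))
      (fun θ => (hM2 θ).trans (le_max_right _ _)) k rfl) ?_
  exact (summable_exp_abs (c := 2 * Real.pi * η) (by positivity)).mul_left _

lemma hasSum_fourier {h : ℂ → ℂ} {a b y₀ : ℝ} (hd : DifferentiableOn ℂ h (strip a b))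
    (hp : ∀ x ∈ strip a b, h (x + 1) = h x) (hy₀ : y₀ ∈ Ioo a b) {x : ℂ} (hx : x ∈ strip a b) :
    HasSum (fun k : ℤ => fc h y₀ k * ee (k * x)) (h x) := by
  haveI : Fact ((0:ℝ) < 1) := ⟨one_pos⟩
  have hy : x.im ∈ Ioo a b := hx
  have hper : Function.Periodic (fun θ : ℝ => h (θ + x.im * I)) 1 := fun θ => by
    simp only
    rw [← hp _ (line_mem hy θ)]; push_cast; rw [add_right_comm]
  let F : C(AddCircle (1:ℝ), ℂ) := ⟨hper.lift, by
    refine Continuous.quotient_lift (s := QuotientAddGroup.leftRel _) ?_ _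
    exact cont_line hd.continuousOn hy⟩
  have hF : ∀ θ : ℝ, F θ = h (θ + x.im * I) := fun θ => hper.lift_coe θ
  have hc : ∀ k : ℤ, fourierCoeff F k = fc h y₀ k * ee (k * (x.im * I)) := fun k => by
    rw [fourierCoeff_eq_intervalIntegral _ _ 0, fc_indep hd hp hy₀ hy, fc,
      ← intervalIntegral.integral_mul_const]
    simp only [div_one, one_smul, zero_add]
    apply intervalIntegral.integral_congr
    intro θ _
    simp only [hF, fourier_coe_apply, smul_eq_mul]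
    rw [mul_assoc (h _), ← ee_add, mul_comm]
    congr 1
    unfold ee tpi; congr 1; push_cast; ring
  have hs : Summable (fourierCoeff F) := by
    refine Summable.of_norm ?_
    have := summable_fourier hd hp hy₀ (x := x.im * I) (by simpa using line_mem hy 0)
    simpa only [hc] using this
  have := has_pointwise_sum_fourier_series_of_summable hs (x.re : AddCircle (1:ℝ))
  rw [hF, re_add_im] at this
  convert this using 2 with k
  rw [hc, fourier_coe_apply, smul_eq_mul, mul_assoc]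
  congr 1
  rw [exp_eq_ee, ← ee_add]
  congr 1
  have := tpi_ne
  conv_lhs => rw [← re_add_im x]
  unfold tpi at this ⊢
  field_simp
  simp only [ofReal_one]; ring

/-- Small divisor condition. -/
def SD (α c : ℝ) (τ : ℕ) : Prop :=
  0 < c ∧ ∀ k : ℤ, k ≠ 0 → c ≤ |(k:ℝ)| ^ τ * ‖ee (k * α) - 1‖

lemma norm_ee_sub_one (t : ℝ) : 4 * |t - round t| ≤ ‖ee t - 1‖ := by
  have h1 : ee t = exp (I * ((2 * Real.pi * (t - round t) : ℝ) : ℂ)) := by
    rw [← ee_add_int t (-round t)]; unfold ee tpi; congr 1; push_cast; ring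
  rw [h1, norm_exp_I_mul_ofReal_sub_one]
  have h2 := abs_sub_round t
  have h3 := Real.mul_abs_le_abs_sin (x := 2 * Real.pi * (t - round t) / 2) (by
    rw [show 2 * Real.pi * (t - round t) / 2 = Real.pi * (t - round t) by ring, abs_mul,
      abs_of_pos Real.pi_pos]
    nlinarith [Real.pi_pos])
  rw [show 2 * Real.pi * (t - round t) / 2 = Real.pi * (t - round t) by ring, abs_mul,
    abs_of_pos Real.pi_pos] at h3
  rw [show 2 * Real.pi * (t - round t) / 2 = Real.pi * (t - round t) by ring, Real.norm_eq_abs,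
    abs_mul, abs_two]
  have := Real.pi_pos
  have h4 : 2 / Real.pi * (Real.pi * |t - round t|) = 2 * |t - round t| := by field_simp
  linarith

lemma Dioph.exists_SD {α : ℝ} (h : Dioph α) : ∃ c τ, SD α c τ := by
  obtain ⟨γ, β, hγ, hβ, h⟩ := h
  refine ⟨γ, ⌈β⌉₊, hγ, fun k hk => ?_⟩
  have hq : 0 < k.natAbs := Int.natAbs_pos.2 hk
  have hq' : (1:ℝ) ≤ |(k:ℝ)| := by exact_mod_cast Int.one_le_abs hk
  have hk0 : (k:ℝ) ≠ 0 := by exact_mod_cast hk
  have h1 := h (k.sign * round (k * α)) k.natAbs hq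
  have e0 : ((k.natAbs : ℕ) : ℝ) = |(k:ℝ)| := by rw [Nat.cast_natAbs]; push_cast; rfl
  have e1 : |α - ((k.sign * round (k * α) : ℤ) : ℝ) / (k.natAbs : ℕ)| =
      |k * α - round (k * α)| / |(k:ℝ)| := by
    rw [← abs_div]; congr 1
    rw [e0]
    rcases lt_or_gt_of_ne hk with hk' | hk'
    · rw [Int.sign_eq_neg_one_of_neg hk', abs_of_neg (by exact_mod_cast hk')]
      push_cast; field_simp
    · rw [Int.sign_eq_one_of_pos hk', abs_of_pos (by exact_mod_cast hk')]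
      push_cast; field_simp
  rw [e1, e0, Real.rpow_neg (by positivity), ← div_eq_mul_inv,
    div_le_div_iff₀ (by positivity) (by positivity)] at h1
  have h2 := norm_ee_sub_one (k * α)
  have h3 : |(k:ℝ)| ^ β ≤ |(k:ℝ)| ^ ⌈β⌉₊ := by
    rw [← Real.rpow_natCast]; exact Real.rpow_le_rpow_of_exponent_le hq' (Nat.le_ceil β)
  push_cast at h2
  have h4 := abs_nonneg (k * α - round (k * α))
  calc γ ≤ γ * |(k:ℝ)| := by nlinarith
    _ ≤ |k * α - round (k * α)| * |(k:ℝ)| ^ ⌈β⌉₊ := h1.trans (by gcongr)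
    _ ≤ _ := by rw [mul_comm]; gcongr; linarith

lemma SD.ne {α c : ℝ} {τ : ℕ} (h : SD α c τ) {k : ℤ} (hk : k ≠ 0) : ee (k * α) ≠ 1 := by
  intro h1
  have := h.2 k hk
  rw [h1, sub_self, norm_zero, mul_zero] at this
  linarith [h.1]

lemma SD.irrational {α c : ℝ} {τ : ℕ} (h : SD α c τ) : Irrational α := by
  rintro ⟨q, rfl⟩
  apply h.ne (k := q.den) (by exact_mod_cast q.den_ne_zero)
  rw [← ee_int q.num]; congr 1
  have := Rat.den_mul_eq_num q
  exact_mod_cast this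

lemma ee_irr_ne {α : ℝ} (h : Irrational α) {k : ℤ} (hk : k ≠ 0) : ee (k * α) ≠ 1 := by
  intro h1
  rw [← ee_zero, ee_eq_iff] at h1
  obtain ⟨n, hn⟩ := h1
  have h2 : (k:ℝ) * α = n := by rw [zero_add] at hn; exact_mod_cast hn
  exact (h.intCast_mul hk).ne_int n h2

/-- The constant in the cohomological equation. -/
def cohC (c : ℝ) (τ : ℕ) : ℝ :=
  1 + ((τ + 2).factorial / (c * Real.pi ^ (τ + 2))) * ∑' k : ℤ, 1 / (k:ℝ) ^ 2

/-- Solution of the cohomological equation. -/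
def solve (α : ℝ) (h : ℂ → ℂ) (x : ℂ) : ℂ :=
  ∑' k : ℤ, fc h 0 k * ee (k * x) / (ee (k * α) - 1)

lemma solve_term {α c : ℝ} {τ : ℕ} (hα : SD α c τ) {h : ℂ → ℂ} {σ δ M : ℝ} (hδ : 0 < δ)
    (hd : DifferentiableOn ℂ h (strip (-σ) σ)) (hp : ∀ x ∈ strip (-σ) σ, h (x + 1) = h x)
    (hb : ∀ x ∈ strip (-σ) σ, ‖h x‖ ≤ M) {x : ℂ} (hx : x ∈ strip (-σ + δ) (σ - δ)) (k : ℤ) :
    ‖fc h 0 k * ee (k * x) / (ee (k * α) - 1)‖ ≤
      M / δ ^ (τ + 2) * ((τ + 2).factorial / (c * Real.pi ^ (τ + 2))) * (1 / (k:ℝ) ^ 2) := by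
  have hc := hα.1
  have hpi := Real.pi_pos
  have h1 : x.im - δ / 2 ∈ Ioo (-σ) σ := ⟨by linarith [hx.1], by linarith [hx.2]⟩
  have h2 : x.im + δ / 2 ∈ Ioo (-σ) σ := ⟨by linarith [hx.1], by linarith [hx.2]⟩
  have h0 : (0:ℝ) ∈ Ioo (-σ) σ := ⟨by linarith [hx.1, hx.2], by linarith [hx.1, hx.2]⟩
  have hM : 0 ≤ M := (norm_nonneg _).trans (hb _ (line_mem h0 0))
  by_cases hk : k = 0
  · subst hk; simp [ee_zero]
  have h3 := fc_decay hd hp h0 h1 h2 (fun θ => hb _ (line_mem h1 θ))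
    (fun θ => hb _ (line_mem h2 θ)) k rfl
  have hk' : (0:ℝ) < |(k:ℝ)| := by positivity
  have h4 := hα.2 k hk
  have h5 : 0 < ‖ee (k * α) - 1‖ := norm_pos_iff.2 (sub_ne_zero.2 (hα.ne hk))
  have h6 := Real.pow_div_factorial_le_exp (2 * Real.pi * (δ / 2) * |(k:ℝ)|) (by positivity) (τ + 2)
  have h7 : Real.exp (-(2 * Real.pi * (δ / 2) * |(k:ℝ)|)) ≤
      (τ + 2).factorial / (Real.pi * δ * |(k:ℝ)|) ^ (τ + 2) := by
    rw [Real.exp_neg, ← one_div, div_le_div_iff₀ (Real.exp_pos _) (by positivity)]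
    rw [div_le_iff₀ (by positivity), show 2 * Real.pi * (δ / 2) = Real.pi * δ by ring] at h6
    rw [show 2 * Real.pi * (δ / 2) = Real.pi * δ by ring]
    linarith
  rw [norm_div, div_le_iff₀ h5]
  calc _ ≤ M * ((τ + 2).factorial / (Real.pi * δ * |(k:ℝ)|) ^ (τ + 2)) := h3.trans (by gcongr)
    _ = M / δ ^ (τ + 2) * ((τ + 2).factorial / (c * Real.pi ^ (τ + 2))) * (1 / (k:ℝ) ^ 2) *
        (c / |(k:ℝ)| ^ τ) := by
      rw [← sq_abs (k:ℝ)]; field_simp; ring
    _ ≤ _ := by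
      gcongr
      rw [div_le_iff₀ (by positivity), mul_comm]; exact h4

lemma summable_inv_sq : Summable fun k : ℤ => 1 / (k:ℝ) ^ 2 :=
  Real.summable_one_div_int_pow.2 (by norm_num)

lemma one_le_cohC {c : ℝ} (hc : 0 < c) (τ : ℕ) : 1 ≤ cohC c τ := by
  have : 0 ≤ ∑' k : ℤ, 1 / (k:ℝ) ^ 2 := tsum_nonneg fun k => by positivity
  have := Real.pi_pos
  unfold cohC
  have : 0 ≤ ((τ + 2).factorial / (c * Real.pi ^ (τ + 2))) * ∑' k : ℤ, 1 / (k:ℝ) ^ 2 := by
    positivity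
  linarith

lemma solve_bound {α c : ℝ} {τ : ℕ} (hα : SD α c τ) {h : ℂ → ℂ} {σ δ M : ℝ} (hδ : 0 < δ)
    (hd : DifferentiableOn ℂ h (strip (-σ) σ)) (hp : ∀ x ∈ strip (-σ) σ, h (x + 1) = h x)
    (hb : ∀ x ∈ strip (-σ) σ, ‖h x‖ ≤ M) {x : ℂ} (hx : x ∈ strip (-σ + δ) (σ - δ)) :
    ‖solve α h x‖ ≤ cohC c τ * M / δ ^ (τ + 2) := by
  have h0 : (0:ℝ) ∈ Ioo (-σ) σ := ⟨by linarith [hx.1, hx.2], by linarith [hx.1, hx.2]⟩
  have hM : 0 ≤ M := (norm_nonneg _).trans (hb _ (line_mem h0 0))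
  have := tsum_of_norm_bounded ((summable_inv_sq.mul_left _).hasSum) (solve_term hα hδ hd hp hb hx)
  refine this.trans ?_
  rw [tsum_mul_left, cohC, add_mul, add_div]
  have : 0 ≤ 1 * M / δ ^ (τ + 2) := by positivity
  linarith [show M / δ ^ (τ + 2) * ((τ + 2).factorial / (c * Real.pi ^ (τ + 2))) *
    ∑' k : ℤ, 1 / (k:ℝ) ^ 2 = ((τ + 2).factorial / (c * Real.pi ^ (τ + 2))) *
    (∑' k : ℤ, 1 / (k:ℝ) ^ 2) * M / δ ^ (τ + 2) by ring]

lemma solve_eq {α c : ℝ} {τ : ℕ} (hα : SD α c τ) {h : ℂ → ℂ} {σ δ M : ℝ} (hδ : 0 < δ)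
    (hd : DifferentiableOn ℂ h (strip (-σ) σ)) (hp : ∀ x ∈ strip (-σ) σ, h (x + 1) = h x)
    (hb : ∀ x ∈ strip (-σ) σ, ‖h x‖ ≤ M) (h00 : fc h 0 0 = 0) {x : ℂ}
    (hx : x ∈ strip (-σ + δ) (σ - δ)) : solve α h (x + α) = solve α h x + h x := by
  have h0 : (0:ℝ) ∈ Ioo (-σ) σ := ⟨by linarith [hx.1, hx.2], by linarith [hx.1, hx.2]⟩
  have s1 := (summable_inv_sq.mul_left _).of_norm_bounded (solve_term hα hδ hd hp hb hx)
  have s3 := hasSum_fourier hd hp h0 (strip_mono (by linarith) (by linarith) hx)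
  rw [solve, solve, ← s3.tsum_eq, ← s1.tsum_add s3.summable]
  congr 1; ext k
  by_cases hk : k = 0
  · subst hk; simp [h00]
  · have := sub_ne_zero.2 (hα.ne hk)
    rw [mul_add, ee_add]; field_simp; ring

lemma solve_per (α : ℝ) (h : ℂ → ℂ) (x : ℂ) : solve α h (x + 1) = solve α h x := by
  simp only [solve, mul_add, mul_one, ee_add_int]

end

end Pool.Agent.Lib.MP_1e9af3_an
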