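import Pool.Agent.Lib.MP_1e9af3_an.GCases

/-! The small ring obtained from the KAM scheme. -/

namespace Pool.Agent.Lib.MP_1e9af3_an.G

open Set Filter Topology Complex Metric OnePoint

noncomputable section

/-- The perturbation factor at scale `k`. -/
def phi (q : ℕ) (e k : ℝ) (p : Pm) (w : ℂ) : ℂ :=
  Ps q (-e / (k * w)) (p.2.1 * (k * w)) (p.2.2.1 * (k * w)) (p.1 * (k * w)) (p.2.2.2.1 * (k * w))
    (p.2.2.2.2 * (k * w))

/-- Scale conditions at the small ring. -/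
structure Sc (q : ℕ) (η β k e R : ℝ) : Prop where
  η0 : 0 < η
  sm : Sm q β (1 / 2)
  hβ : β ≤ 1 / 2
  k0 : 0 < k
  e0 : 0 < e
  R0 : 0 < R
  s1 : e * ri (-(16 * η)) ≤ β * k
  s2 : R * k * ri (-(16 * η)) ≤ β

variable {q : ℕ} {η β k e R α : ℝ} {p : Pm} {μ l : ℂ} {u : ℂ → ℂ}

lemma ri_mul_neg (σ : ℝ) : ri σ * ri (-σ) = 1 := by
  rw [ri, ri, ← Real.exp_add]; simp

lemma pm_le (hp : ‖p‖ ≤ R) : ‖p.1‖ ≤ R ∧ ‖p.2.1‖ ≤ R ∧ ‖p.2.2.1‖ ≤ R ∧ ‖p.2.2.2.1‖ ≤ R ∧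
    ‖p.2.2.2.2‖ ≤ R := by
  simpa only [Prod.norm_def, max_le_iff] using hp

lemma Sc.ne (s : Sc q η β k e R) {w : ℂ} (hw : w ∈ sann (16 * η)) : (k:ℂ) * w ≠ 0 :=
  mul_ne_zero (by exact_mod_cast s.k0.ne') (ann_ne_zero (ri_pos _).le hw)

lemma Sc.b1 (s : Sc q η β k e R) {w : ℂ} (hw : w ∈ sann (16 * η)) : ‖-e / (k * w)‖ ≤ β := by
  rw [norm_div, norm_neg, Complex.norm_real, Real.norm_of_nonneg s.e0.le,
    div_le_iff₀ (norm_pos_iff.2 (s.ne hw)), norm_mul, Complex.norm_real, Real.norm_of_nonneg s.k0.le]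
  have h1 := ri_mul_neg (16 * η)
  have h2 := ri_pos (16 * η)
  have h3 : 0 ≤ β * k := le_trans (mul_pos s.e0 (ri_pos _)).le s.s1
  calc e = e * ri (-(16 * η)) * ri (16 * η) := by rw [mul_assoc, mul_comm (ri _), h1, mul_one]
    _ ≤ β * k * ‖w‖ := mul_le_mul s.s1 hw.1.le h2.le h3
    _ = _ := by ring

lemma Sc.b2 (s : Sc q η β k e R) {w : ℂ} (hw : w ∈ sann (16 * η)) {a : ℂ} (ha : ‖a‖ ≤ R) :
    ‖a * (k * w)‖ ≤ β := by
  rw [norm_mul, norm_mul, Complex.norm_real, Real.norm_of_nonneg s.k0.le]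
  refine le_trans ?_ s.s2
  rw [mul_assoc]
  have := s.k0; have := s.R0
  gcongr; exact hw.2.le

lemma Sc.den (s : Sc q η β k e R) (hp : ‖p‖ ≤ R) {w : ℂ} (hw : w ∈ sann (16 * η)) :
    (1 - -e / (k * w)) * (1 - p.2.2.2.1 * (k * w)) * (1 - p.2.2.2.2 * (k * w)) ^ q ≠ 0 :=
  mul_ne_zero (mul_ne_zero (one_sub_ne s.hβ (s.b1 hw))
    (one_sub_ne s.hβ (s.b2 hw (pm_le hp).2.2.2.1)))
    (pow_ne_zero _ (one_sub_ne s.hβ (s.b2 hw (pm_le hp).2.2.2.2)))

lemma Sc.fam_phi (s : Sc q η β k e R) (hp : ‖p‖ ≤ R) (h : ND q μ (-e) p) {w : ℂ}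
    (hw : w ∈ sann (16 * η)) :
    (fam q μ (-e) p).1 (k * w : ℂ) = (k * (μ * w * phi q e k p w) : ℂ) := by
  refine h.mero.eq_coe.2 ?_
  have h1 := s.den hp hw
  have h2 := s.ne hw
  have h3 : dn q (-e) p (k * w) 1 = k * w * ((1 - -e / (k * w)) * (1 - p.2.2.2.1 * (k * w)) *
      (1 - p.2.2.2.2 * (k * w)) ^ q) := by
    rw [dn]
    generalize (k:ℂ) * w = z at h2
    field_simp
  rw [h3, phi, Ps, nm]
  generalize (1 - -e / (k * w)) * (1 - p.2.2.2.1 * (k * w)) *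
      (1 - p.2.2.2.2 * (k * w)) ^ q = D at h1
  field_simp

lemma Sc.emb (s : Sc q η β k e R) : Emb (fun w => k * w) (ri (16 * η)) (ri (-(16 * η))) :=
  ⟨(ri_pos _).le, by fun_prop, fun _ _ _ _ h => mul_left_cancel₀ (by exact_mod_cast s.k0.ne') h⟩

lemma Sc.wind0 (s : Sc q η β k e R) (hn : Near (9 * η) η u) {y : ℝ} (hy : y ∈ Ioo (-(9 * η)) (9 * η)) :
    HasWind (crv (lz (fun w => k * w) u) (ri y)) 1 :=
  ((hasWind_const (c := k) (by exact_mod_cast s.k0.ne')).mul (hn.hasWind hy)).congr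
    fun θ => (hn.crv_eq _ hy θ).symm

lemma Sc.wind1 (s : Sc q η β k e R) (hn : Near (9 * η) η u) :
    HasWind (crv (lz (fun w => k * w) u) 1) 1 := by
  have := s.η0
  simpa [ri_zero] using s.wind0 hn (y := 0) ⟨by linarith, by linarith⟩

lemma Sc.crv_form (s : Sc q η β k e R) (hn : Near (9 * η) η u) (θ : ℝ) :
    ∃ w ∈ sann (16 * η), crv (lz (fun w => k * w) u) 1 θ = k * w := by
  have := s.η0
  exact ⟨_, hn.mem (by linarith) (real_mem_strip (by linarith) θ), hn.crv_one _ (by linarith) θ⟩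

lemma Sc.windq (s : Sc q η β k e R) (hp : ‖p‖ ≤ R) (hn : Near (9 * η) η u) :
    wind (fun θ => dn q (-e) p (crv (lz (fun w => k * w) u) 1 θ) 1) = 1 := by
  have c := (s.wind1 hn).loop.cont
  refine ((s.wind1 hn).close (by unfold dn; fun_prop) (fun θ => by rw [crv_per]) fun θ => ?_).wind_eq
  obtain ⟨w, hw, he⟩ := s.crv_form hn θ
  have h2 := s.ne hw
  have b0 : ‖(0:ℂ)‖ ≤ β := (norm_zero.trans_le (norm_nonneg _)).trans (s.b1 hw)
  have h1 := s.sm _ _ _ _ _ _ b0 (s.b2 hw (pm_le hp).2.2.2.1) (s.b2 hw (pm_le hp).2.2.2.2)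
    (s.b1 hw) b0 b0
  have h3 : dn q (-e) p (k * w) 1 - k * w = k * w * (Ps q 0 (p.2.2.2.1 * (k * w)) (p.2.2.2.2 * (k * w))
      (-e / (k * w)) 0 0 - 1) := by
    rw [dn, Ps]
    generalize (k:ℂ) * w = z at h2
    field_simp; ring
  rw [he, h3, norm_mul]
  nlinarith [norm_pos_iff.2 h2]

lemma nout_of_wind {χ : ℂ → ℂ} {a b r : ℝ} (h : Emb χ a b) (hr : r ∈ Ioo a b)
    (hw : HasWind (crv χ r) 1) : nout χ a b = 0 ∧ (0:ℂ) ∈ side χ r 1 := by
  have h1 : (0:ℂ) ∉ χ '' sphere 0 r := fun hz => by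
    obtain ⟨θ, h0⟩ := exists_crv hz
    exact hw.loop.ne θ h0.symm
  have h2 : ind χ r 0 = 1 := (hw.congr fun θ => (sub_zero _).symm).wind_eq
  have h3 := h.ind_cases hr h1
  have h4 := h.nout_cases (hr.1.trans hr.2)
  exact ⟨by omega, h1, h2⟩

lemma Sc.lin (s : Sc q η β k e R) (hp : ‖p‖ ≤ R) (h : ND q (ee α * ee l) (-e) p)
    (hk : KD α (9 * η) η (phi q e k p) u l) :
    Lin (fam q (ee α * ee l) (-e) p).1 α (lz (fun w => k * w) u) (ri (9 * η)) (ri (-(9 * η))) :=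
  hk.lin s.emb (by linarith [s.η0]) fun w hw => by rw [s.fam_phi hp h hw]; congr 2; ring

lemma exists_ri {r : ℝ} (hr : 0 < r) : ∃ y, r = ri y := ⟨ht r, (exp_ht hr).symm⟩

lemma ri_le_iff {a b : ℝ} : ri b ≤ ri a ↔ a ≤ b :=
  ⟨fun h => not_lt.1 fun h' => (ri_lt h').not_ge h, ri_le⟩

lemma norm_ee' (x : ℂ) : ‖ee x‖ = ri x.im := norm_ee x

lemma Sc.pushed (s : Sc q η β k e R) (hp : ‖p‖ ≤ R) {ℓ : ℝ} (h0 : 0 < ℓ) (h1 : ℓ ≤ η)
    (h : ND q (ee α * ee (l - ℓ * I)) (-e) p) (hk : KD α (9 * η) η (phi q e k p) u l) :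
    Pushed (fam q (ee α * ee (l - ℓ * I)) (-e) p).1 (fun z => dn q (-e) p z 1) α
      (lz (fun w => k * w) u) (ri (9 * η)) (ri (2 * η)) 1 (ri (-(2 * η))) (ri (-(9 * η))) (-e) := by
  have η0 := s.η0
  have hn := hk.near
  have em := hn.emb s.emb (by linarith)
  have o1 := one_mem_ri (σ := 9 * η) (by linarith)
  have key : ∀ x ∈ strip (-(9 * η)) (9 * η), (fam q (ee α * ee (l - ℓ * I)) (-e) p).1
      (lz (fun w => k * w) u (ee x) : ℂ) = (k * ee (x + α + u (x + α) - ℓ * I) : ℂ) := fun x hx => by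
    rw [hn.lz_ee _ hx, s.fam_phi hp h (hn.mem (by linarith) hx), ee_sub, ee_sub, ← hk.eq x hx]
    congr 2; ring
  refine ⟨em, ri_lt (by linarith), (one_mem_ri (by linarith)).1, (one_mem_ri (by linarith)).2,
    ri_lt (by linarith), (nout_of_wind em o1 (s.wind1 hn)).1, fun w w1 w2 => ?_, fun r hr => ?_,
    ?_, s.windq hp hn, fun t θ => k * ee (θ + α + u (θ + α) - (t * ℓ : ℝ) * I), ?_, fun t θ => ?_,
    fun θ => ?_, fun θ => ?_, fun t ht θ => ?_⟩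
  · obtain ⟨x, hx, rfl⟩ := exists_ee_of_mem (a := -(3 * η)) (b := 3 * η) (w := w)
      ⟨(ri_lt (by linarith)).trans_le w1, w2.trans_lt (ri_lt (by linarith))⟩
    obtain ⟨v, v1, v2, -, v3⟩ := hn.push (α := α) h0.le h1 (x := x)
      (strip_mono (by linarith) (by linarith) hx)
    refine ⟨ee v, ⟨?_, (ee_mem_sann.2 v1).2⟩, ?_⟩
    · rw [norm_ee', norm_ee']; exact ri_lt (by linarith)
    · rw [key x (strip_mono (by linarith) (by linarith) hx), hn.lz_ee _ v1, v2]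
  · obtain ⟨y, rfl⟩ := exists_ri ((ri_pos _).trans_le hr.1)
    have hy : y ∈ Ioo (-(9 * η)) (9 * η) :=
      ⟨by linarith [ri_le_iff.1 hr.2], by linarith [ri_le_iff.1 hr.1]⟩
    exact (nout_of_wind em ⟨ri_lt hy.2, ri_lt hy.1⟩ (s.wind0 hn hy)).2
  · have c := (s.wind1 hn).loop.cont
    have := (s.wind1 hn).close (Δ := fun θ => crv (lz (fun w => k * w) u) 1 θ - -e) (by fun_prop)
      (fun θ => by rw [crv_per]) fun θ => by
        obtain ⟨w, hw, he⟩ := s.crv_form hn θ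
        have h2 := s.b1 hw
        have h3 := norm_pos_iff.2 (s.ne hw)
        rw [norm_div, div_le_iff₀ h3] at h2
        rw [he, sub_sub_cancel_left, norm_neg]
        nlinarith [s.hβ]
    refine ⟨fun hz => ?_, this.wind_eq⟩
    obtain ⟨θ, h0⟩ := exists_crv hz
    exact this.loop.ne θ (by rw [← h0, sub_self])
  · have de : Continuous ee := continuous_iff_continuousAt.2 fun x => (hasDerivAt_ee x).continuousAt
    have cu : Continuous fun θ : ℝ => u (θ + α) := hn.diff.continuousOn.comp_continuous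
      (by fun_prop) fun θ => add_real_mem (real_mem_strip (by linarith) θ) α
    exact (continuous_const.mul (de.comp ((Continuous.add (by fun_prop)
      (cu.comp continuous_snd)).sub (by fun_prop)))).continuousOn
  · have := hn.per _ (add_real_mem (real_mem_strip (by linarith) θ) α)
    push_cast
    rw [add_right_comm (θ:ℂ) 1, this, ← ee_add_one (θ + α + _ - _)]
    congr 2; ring
  · simp [hn.crv_one _ (show 0 < 9 * η by linarith)]
  · simpa [crv] using key θ (real_mem_strip (by linarith) θ)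
  · have t1 : 0 ≤ t * ℓ := mul_nonneg ht.1 h0.le
    have t2 : t * ℓ ≤ η := by nlinarith [ht.2]
    obtain ⟨v, v1, v2, v3, v4⟩ := hn.push (α := α) t1 t2 (x := θ) (real_mem_strip (by linarith) θ)
    rw [ofReal_im] at v3 v4
    refine ⟨ee v, ?_, ?_, by rw [hn.lz_ee _ v1, v2]⟩
    · rw [norm_ee', ← ri_zero]; exact ri_le (by linarith)
    · rw [norm_ee']; exact ri_lt (by linarith)

/-- Radial clamp. -/
def cl (R : ℝ) (p : Pm) : Pm := (R / max R ‖p‖) • p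

lemma cl_cont (hR : 0 < R) : Continuous (cl R) :=
  (continuous_const.div (by fun_prop) fun p => (lt_max_of_lt_left hR).ne').smul continuous_id

lemma cl_le (hR : 0 < R) (p : Pm) : ‖cl R p‖ ≤ R := by
  have := lt_max_of_lt_left (c := ‖p‖) hR
  rw [cl, norm_smul, Real.norm_of_nonneg (by positivity), div_mul_eq_mul_div, div_le_iff₀ this]
  gcongr; exact le_max_right _ _

lemma cl_eq (hR : 0 < R) (hp : ‖p‖ ≤ R) : cl R p = p := by
  rw [cl, max_eq_left hp, div_self hR.ne', one_smul]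

theorem base (q : ℕ) {c : ℝ} {τ : ℕ} (hα : SD α c τ) (hη : 0 < η) : ∃ β, 0 < β ∧ β ≤ 1 / 2 ∧
    Sm q β (1 / 2) ∧ ∀ k e R, Sc q η β k e R → ∃ (u : Pm → ℂ → ℂ) (l : Pm → ℂ), Continuous l ∧
      (∀ (D : Set ℂ) (σ : ℂ → Pm), IsOpen D → DifferentiableOn ℂ σ D → (∀ t ∈ D, ‖σ t‖ ≤ R) →
        DifferentiableOn ℂ (fun t => l (σ t)) D) ∧
      Continuous (fun q : Pm × ℝ => crv (lz (fun w => k * w) (u q.1)) 1 q.2) ∧
      (∀ p, ‖l p‖ ≤ η) ∧ ∀ p, ‖p‖ ≤ R → KD α (9 * η) η (phi q e k p) (u p) (l p) := by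
  obtain ⟨δ, hδ, H⟩ := kamM hα (σ := 9 * η) (σ₀ := 16 * η) (by positivity) hη (by linarith)
  obtain ⟨β, b0, b1, b2⟩ := exists_sm q (δ := min δ (1 / 2)) (by positivity)
  refine ⟨β, b0, b1, fun _ _ _ _ _ _ k1 k2 k3 k4 k5 k6 =>
    (b2 _ _ _ _ _ _ k1 k2 k3 k4 k5 k6).trans (min_le_right _ _), fun k e R s => ?_⟩
  let C : Curves Pm := ⟨{x : Set ℂ × (ℂ → Pm) // IsOpen x.1 ∧ DifferentiableOn ℂ x.2 x.1 ∧
    ∀ t ∈ x.1, ‖x.2 t‖ ≤ R}, fun i => i.1.1, fun i => i.1.2, fun i => i.2.1,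
    fun i => i.2.2.1.continuousOn⟩
  have dj : DifferentiableOn ℂ (fun x : Pm × ℂ => phi q e k x.1 x.2)
      (closedBall 0 R ×ˢ sann (16 * η)) := by
    have d1 : DifferentiableOn ℂ (fun q : Pm × ℂ => -e / (k * q.2))
        (closedBall 0 R ×ˢ sann (16 * η)) :=
      diffOn_div (by fun_prop) (by fun_prop) fun q hq => s.ne hq.2
    exact diffOn_div (by fun_prop) (by fun_prop)
      fun q hq => s.den (mem_closedBall_zero_iff.1 hq.1) hq.2
  have cm : ∀ p, cl R p ∈ closedBall (0:Pm) R := fun p => mem_closedBall_zero_iff.2 (cl_le s.R0 p)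
  obtain ⟨u, l, ru, rl, hk⟩ := H Pm C (fun p w => phi q e k (cl R p) w)
    (fun p => dj.comp (f := fun w => (cl R p, w)) (by fun_prop) fun w hw => ⟨cm p, hw⟩)
    (dj.continuousOn.comp (f := fun q : Pm × ℂ => (cl R q.1, q.2))
      ((cl_cont s.R0).prodMap continuous_id).continuousOn fun q hq => ⟨cm _, hq.2⟩)
    (fun i => (dj.comp (f := fun q : ℂ × ℂ => (C.τ i q.1, q.2))
      ((i.2.2.1.comp differentiableOn_fst fun q hq => hq.1).prodMk differentiableOn_snd)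
      fun q hq => ⟨mem_closedBall_zero_iff.2 (i.2.2.2 _ hq.1), hq.2⟩).congr fun q hq => by
        rw [cl_eq s.R0 (show ‖C.τ i q.1‖ ≤ R from i.2.2.2 _ hq.1)]; rfl)
    fun p w hw => by
      obtain ⟨k1, k2, k3, k4, k5⟩ := pm_le (cl_le s.R0 p)
      exact (b2 _ _ _ _ _ _ (s.b1 hw) (s.b2 hw k2) (s.b2 hw k3) (s.b2 hw k1) (s.b2 hw k4)
        (s.b2 hw k5)).trans (min_le_left _ _)
  have p9 : 0 < 9 * η := by positivity
  refine ⟨u, l, rl.cont, fun D σ h1 h2 h3 => rl.hol ⟨(D, σ), h1, h2, h3⟩, ?_, fun p => (hk p).bl,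
    fun p hp => by simpa only [cl_eq s.R0 hp] using hk p⟩
  simp only [fun p => (hk p).near.crv_one (fun w => k * w) p9]
  have de : Continuous ee := continuous_iff_continuousAt.2 fun x => (hasDerivAt_ee x).continuousAt
  exact continuous_const.mul (de.comp (Continuous.add (by fun_prop)
    (ru.cont.comp_continuous (f := fun q : Pm × ℝ => (q.1, (q.2 : ℂ))) (by fun_prop)
      fun q => ⟨mem_univ _, real_mem_strip p9 _⟩)))

end

end Pool.Agent.Lib.MP_1e9af3_an.G
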