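import Pool.Agent.Lib.MP_1e9af3_an.GGeo

/-! The possible positions of a ring of type two. -/

namespace Pool.Agent.Lib.MP_1e9af3_an.G

open Set Filter Topology Complex Metric OnePoint

noncomputable section

variable {q : ℕ} {μ v : ℂ} {α β e c R E a b r : ℝ} {χ : ℂ → ℂ}

lemma dvd_cases {n x : ℤ} (h : n ∣ x) (h1 : -n < x) (h2 : x < 2 * n) : x = 0 ∨ x = n := by
  obtain ⟨j, rfl⟩ := h
  have n0 : 0 < n := by linarith
  have j1 : -1 < j := lt_of_mul_lt_mul_left (by linarith) n0.le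
  have j2 : j < 2 := lt_of_mul_lt_mul_left (by linarith) n0.le
  obtain rfl | rfl : j = 0 ∨ j = 1 := by omega
  · simp
  · simp

lemma mul_cases (n : ℤ) {i : ℤ} (h : i = 0 ∨ i = 1 ∨ i = -1) :
    (i = 0 ∧ n * i = 0) ∨ (i = 1 ∧ n * i = n) ∨ (i = -1 ∧ n * i = -n) := by
  rcases h with rfl | rfl | rfl <;> simp

theorem ring_cases (hq : 2 ≤ q) (g : Geo q β e c R E μ v) (h : ND q μ (-e) (-E, c, c, 1, v))
    (hα : Irrational α) (hL : Lin (fam q μ (-e) (-E, c, c, 1, v)).1 α χ a b) (ha : 0 < a)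
    (hr : r ∈ Ioo a b)
    (ht : Typ (q + 4) α (fam q μ (-e) (-E, c, c, 1, v)).1 ((↑) '' (χ '' ann a b)) 2) :
    wind (fun θ => dn q (-e) (-E, c, c, 1, v) (crv χ r θ) 1) ≠ 0 ∧
    ((nout χ a b = 0 ∧ (0:ℂ) ∈ side χ r 1 ∧
      (∀ z ∈ side χ r 1, nm q μ (-E, c, c, 1, v) z 1 = 0 → z = 0) ∧
      (∀ z ∈ side χ r 1, dn q (-e) (-E, c, c, 1, v) z 1 = 0 → z = -e) ∧
      wind (fun θ => dn q (-e) (-E, c, c, 1, v) (crv χ r θ) 1) = 1) ∨
    (E ≠ 6 ∧ 1 / 500 < ‖μ * c ^ (q + 1) / v ^ q‖ ∧ ‖μ * c ^ (q + 1) / v ^ q‖ < 1500)) := by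
  have hm := h.typ_mod hα hL ha hr ht
  obtain ⟨n, w1, w2⟩ := h.indices (by omega) one_ne_zero g.v0 hα hL hr
  have em := hL.toEmb
  have r0 : 0 ≤ r := ha.le.trans hr.1.le
  have E0 := g.E0
  have i0 := em.ind_cases hr (n 0 (by simp))
  have ie := em.ind_cases hr (n (-e) (by simp))
  have iE := em.ind_cases hr (n (-E)⁻¹ (by simp))
  have ic := em.ind_cases hr (n c⁻¹ (by simp))
  have i1 := em.ind_cases hr (n 1⁻¹ (by simp))
  have iv := em.ind_cases hr (n v⁻¹ (by simp))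
  have hs : ∀ z ∈ χ '' sphere 0 r, ∃ y ∈ χ '' sphere 0 r,
      nm q μ (-E, c, c, 1, v) z 1 = y * dn q (-e) (-E, c, c, 1, v) z 1 := fun z hz => by
    obtain ⟨y, h1, h2⟩ := succ_mem hL hr hz
    exact ⟨y, h1, h.mero.eq_coe.1 h2⟩
  have nE : ‖(-E : ℂ)⁻¹‖ = E⁻¹ := by simp [abs_of_pos E0]
  have dich := g.dichotomy (em.isCompact_crv hr) (em.isPreconnected_crv hr) (n 0 (by simp)) hs
  have d1 : (∀ z ∈ χ '' sphere 0 r, ‖z‖ < R) → ind χ r 1⁻¹ = 0 ∧ ind χ r (-E)⁻¹ = 0 := fun hd =>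
    ⟨em.ind_large hr fun θ => (hd _ (crv_mem r0 θ)).trans_le (by simp; linarith [g.R1]),
      em.ind_large hr fun θ => (hd _ (crv_mem r0 θ)).trans_le (by
        rw [nE, le_inv_comm₀ g.R0 E0]
        exact g.E5.trans (by rw [le_inv_comm₀ (by norm_num) g.R0]; linarith [g.R1]))⟩
  have d2 : (∀ z ∈ χ '' sphere 0 r, R < ‖z‖) → ind χ r 0 = ind χ r (-e) := fun hd =>
    em.ind_eq hr (convex_closedBall (0:ℂ) R).isPreconnected
      (fun z hz h1 => (hd z h1).not_ge (mem_closedBall_zero_iff.1 hz))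
      (mem_closedBall_self g.R0.le) (by
        rw [mem_closedBall_zero_iff, norm_neg, Complex.norm_real, Real.norm_of_nonneg g.e0.le]
        nlinarith [g.a1, g.hβ, g.R0])
  have d3 := dich.imp d1 d2
  have nc := em.nout_cases (hr.1.trans hr.2)
  have mv := mul_cases q (i := ind χ r v⁻¹) (by omega)
  have mc := mul_cases q (i := ind χ r c⁻¹) (by omega)
  have hm' := dvd_cases hm.dvd (by omega) (by omega)
  refine ⟨by omega, ?_⟩
  by_cases k3 : ind χ r 1⁻¹ = 0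
  · left
    have h0 : nout χ a b = 0 := by omega
    have k4 : ind χ r v⁻¹ = 0 := by omega
    have k2 : ind χ r c⁻¹ = 0 := by omega
    have k0 : ind χ r 0 = 1 := by omega
    have k1 : ind χ r (-E)⁻¹ = 0 := by omega
    have no : ∀ z ∈ side χ r 1, ∀ y : ℂ, ind χ r y⁻¹ = 0 → 1 - y * z ≠ 0 := fun z hz y h1 h2 => by
      rw [← eq_inv_of_mul_eq_one_right (sub_eq_zero.1 h2).symm, hz.2] at h1
      exact one_ne_zero h1
    refine ⟨h0, ⟨n 0 (by simp), k0⟩, fun z hz h1 => ?_, fun z hz h1 => ?_, by omega⟩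
    · simpa [nm, h.hμ, no z hz _ k2, -neg_mul, no z hz _ k1] using h1
    · simpa [dn, -one_mul, no z hz _ k3, no z hz _ k4, add_eq_zero_iff_eq_neg] using h1
  · right
    have k0 : ind χ r 0 ≠ ind χ r (-E)⁻¹ := by omega
    refine g.outer_ring (em.isCompact_crv hr) (em.isPreconnected_crv hr)
      (dich.resolve_left fun hd => k3 (d1 hd).1) hs ?_ ?_ ?_
    · by_contra hn
      push Not at hn
      exact k3 (em.ind_large hr (z := 1⁻¹) fun θ => by simpa using hn _ (crv_mem r0 θ))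
    · by_contra hn
      push Not at hn
      exact k0 (em.ind_eq hr (S := (fun x : ℝ => ((-x : ℝ) : ℂ)) '' Icc 0 E⁻¹)
        (isPreconnected_Icc.image _ (by fun_prop)) (z := 0) (z' := (-E)⁻¹)
        (by
          rintro _ ⟨x, hx, rfl⟩
          exact hn x hx.1 (by rw [mul_comm, ← le_div_iff₀ E0, one_div]; exact hx.2))
        ⟨0, ⟨le_rfl, by positivity⟩, by simp⟩ ⟨E⁻¹, ⟨by positivity, le_rfl⟩, by simp⟩)
    · by_contra hn
      push Not at hn
      obtain ⟨M, M0, hM⟩ := em.exists_bound hr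
      have := em.ind_eq hr (S := (fun x : ℝ => (x : ℂ)) '' Ici 0)
        (isPreconnected_Ici.image _ (by fun_prop)) (z := 1⁻¹) (z' := M)
        (by rintro _ ⟨x, hx, rfl⟩; exact hn x hx) ⟨1, mem_Ici.2 zero_le_one, by simp⟩ ⟨M, M0.le, rfl⟩
      exact k3 (this.trans (hM M (by simp [abs_of_pos M0])).2)

end

end Pool.Agent.Lib.MP_1e9af3_an.G
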