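import Pool.Agent.Lib.MP_1e9af3_an.Fam

/-! The family of maps of degree `q + 4`. -/

namespace Pool.Agent.Lib.MP_1e9af3_an.G

open Set Filter Topology Complex Metric OnePoint

noncomputable section

/-- Numerator. -/
def nm (q : ℕ) (μ : ℂ) (p : Pm) (X Y : ℂ) : ℂ :=
  μ * X ^ 2 * (Y - p.2.1 * X) * (Y - p.2.2.1 * X) ^ q * (Y - p.1 * X)

/-- Denominator. -/
def dn (q : ℕ) (e : ℂ) (p : Pm) (X Y : ℂ) : ℂ :=
  Y ^ 2 * (X - e * Y) * (Y - p.2.2.2.1 * X) * (Y - p.2.2.2.2 * X) ^ q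

/-- Homogeneous lift. -/
def fF (q : ℕ) (μ e : ℂ) (p : Pm) (w : ℂ × ℂ) : ℂ × ℂ := (nm q μ p w.1 w.2, dn q e p w.1 w.2)

/-- Nondegeneracy. -/
structure ND (q : ℕ) (μ e : ℂ) (p : Pm) : Prop where
  hμ : μ ≠ 0
  he : e ≠ 0
  h0 : Ok e p p.1
  h1 : Ok e p p.2.1
  h2 : Ok e p p.2.2.1

variable {q : ℕ} {μ e : ℂ} {p : Pm}

lemma dn_ne {a X : ℂ} (h : Ok e p a) (hX : X ≠ 0) : dn q e p X (a * X) ≠ 0 := by
  have h1 : ∀ b : ℂ, a ≠ b → a * X - b * X ≠ 0 := fun b hb => by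
    rw [← sub_mul]; exact mul_ne_zero (sub_ne_zero.2 hb) hX
  have h2 : X - e * (a * X) ≠ 0 := by
    rw [← mul_assoc, ← one_sub_mul]; exact mul_ne_zero (sub_ne_zero.2 h.2.2.2.symm) hX
  exact mul_ne_zero (mul_ne_zero (mul_ne_zero (pow_ne_zero _ (mul_ne_zero h.1 hX)) h2)
    (h1 _ h.2.1)) (pow_ne_zero _ (h1 _ h.2.2.1))

lemma lin_smul (c a X Y : ℂ) : c * Y - a * (c * X) = c * (Y - a * X) := by ring

lemma ND.hom (h : ND q μ e p) : Hom (q + 4) (fF q μ e p) := by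
  refine ⟨by unfold fF nm dn; fun_prop, fun c v => ?_, fun ⟨X, Y⟩ hv => ne_zero_iff'.2 ?_⟩
  · ext <;> simp only [fF, nm, dn, Prod.smul_fst, Prod.smul_snd, smul_eq_mul, lin_smul, mul_pow] <;>
      ring
  by_cases hX : X = 0
  · subst hX
    have hY : Y ≠ 0 := by simpa using ne_zero_iff'.1 hv
    right; simp [fF, dn, hY, h.he]
  · rw [or_iff_not_imp_left, not_not]
    intro h0
    simp only [fF, nm, mul_eq_zero, h.hμ, pow_eq_zero_iff two_ne_zero, hX, or_self, false_or,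
      sub_eq_zero] at h0
    rcases h0 with (rfl | h0) | rfl
    · exact dn_ne h.h1 hX
    · obtain rfl := sub_eq_zero.1 (pow_eq_zero_iff'.1 h0).1
      exact dn_ne h.h2 hX
    · exact dn_ne h.h0 hX

lemma ND.isRat (h : ND q μ e p) : IsRat (q + 4) ⟨act (fF q μ e p), h.hom.continuous_act⟩ := by
  open MvPolynomial in
  have l : ∀ (i j : Fin 2) (c : ℂ), (X i - C c * X j : MvPolynomial (Fin 2) ℂ).IsHomogeneous 1 :=
    fun i j c => (isHomogeneous_X ℂ i).sub ((isHomogeneous_X ℂ j).C_mul c)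
  open MvPolynomial in
  have key : evF (C μ * X 0 ^ 2 * (X 1 - C p.2.1 * X 0) * (X 1 - C p.2.2.1 * X 0) ^ q *
      (X 1 - C p.1 * X 0)) (X 1 ^ 2 * (X 0 - C e * X 1) * (X 1 - C p.2.2.2.1 * X 0) *
      (X 1 - C p.2.2.2.2 * X 0) ^ q) = fF q μ e p := by
    funext v; simp [evF, fF, nm, dn]
  have k1 := (((((MvPolynomial.isHomogeneous_X ℂ (0 : Fin 2)).pow 2).C_mul μ).mul
    (l 1 0 p.2.1)).mul ((l 1 0 p.2.2.1).pow q)).mul (l 1 0 p.1)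
  have k2 := ((((MvPolynomial.isHomogeneous_X ℂ (1 : Fin 2)).pow 2).mul (l 0 1 e)).mul
    (l 1 0 p.2.2.2.1)).mul ((l 1 0 p.2.2.2.2).pow q)
  rw [show 1 * 2 + 1 + 1 * q + 1 = q + 4 by ring] at k1
  rw [show 1 * 2 + 1 + 1 + 1 * q = q + 4 by ring] at k2
  exact isRat_iff.2 ⟨_, _, k1, k2, key ▸ h.hom, by rw [key]; rfl⟩

lemma nd0 : ND q 1 2 (1, 1, 1, 0, 0) := by
  constructor <;> simp [Ok]

open Classical in
/-- The family, with a junk value at degenerate parameters. -/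
def fam (q : ℕ) (μ e : ℂ) (p : Pm) : RatMap (q + 4) :=
  if h : ND q μ e p then ⟨_, h.isRat⟩ else ⟨_, nd0.isRat⟩

lemma ND.fam_eq (h : ND q μ e p) : ⇑(fam q μ e p).1 = act (fF q μ e p) := by
  rw [fam, dif_pos h]; rfl

attribute [irreducible] fam

lemma cont_fam {T : Type*} [TopologicalSpace T] {S : Set T} {μ : T → ℂ} {p : T → Pm}
    (h1 : ContinuousOn μ S) (h2 : ContinuousOn p S) (h : ∀ t ∈ S, ND q (μ t) e (p t)) :
    ContinuousOn (fun t => fam q (μ t) e (p t)) S := by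
  rw [continuousOn_iff_continuous_domRestrict] at h1 h2 ⊢
  refine continuous_induced_rng.2 (ContinuousMap.continuous_of_continuous_uncurry _ ?_)
  have := continuous_act (F := fun t : S => fF q (S.domRestrict μ t) e (S.domRestrict p t))
    (fun t => (h t t.2).hom) (by unfold fF nm dn; fun_prop)
  exact this.congr fun q => (congrFun (h _ q.1.2).fam_eq q.2).symm

lemma ND.fam_pr (h : ND q μ e p) {X Y : ℂ} (hv : X ≠ 0 ∨ Y ≠ 0) :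
    (fam q μ e p).1 (pr X Y) = pr (nm q μ p X Y) (dn q e p X Y) := by
  rw [h.fam_eq]; exact h.hom.act_pv (v := (X, Y)) (ne_zero_iff'.2 hv)

lemma ND.mero (h : ND q μ e p) :
    Mero (fam q μ e p).1 (fun z => nm q μ p z 1) (fun z => dn q e p z 1) :=
  ⟨(fam q μ e p).1.continuous, by unfold nm; fun_prop, by unfold dn; fun_prop,
    fun z => ne_zero_iff'.1 (h.hom.ne (z, 1) (by simp)),
    fun z => by rw [← h.fam_pr (Or.inr one_ne_zero), pr_one]⟩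

lemma ND.infty (h : ND q μ e p) : (fam q μ e p).1 ∞ = ∞ := by
  rw [← pr_zero 1, h.fam_pr (Or.inl one_ne_zero)]; simp [dn]

lemma ND.esc (h : ND q μ e p) :
    ∃ R, ∀ᶠ x : ℂ × Pm in 𝓝 (μ, p), ND q x.1 e x.2 → Esc (fam q x.1 e x.2).1 R := by
  have E : ∀ᶠ x : (ℂ × Pm) × ℂ in 𝓝 ((μ, p), 0), 2 * ‖x.2 * (1 - e * x.2) *
      (x.2 - x.1.2.2.2.2.1) * (x.2 - x.1.2.2.2.2.2) ^ q‖ < ‖nm q x.1.1 x.1.2 1 x.2‖ := by
    refine ContinuousAt.eventually_lt (by fun_prop) (by unfold nm; fun_prop) ?_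
    simp [nm, h.hμ, h.h0.1, h.h1.1, h.h2.1]
  rw [nhds_prod_eq] at E
  obtain ⟨U, u1, V, u2, hU⟩ := eventually_prod_iff.1 E
  obtain ⟨δ, hδ, hB⟩ := Metric.mem_nhds_iff.1 u2
  refine ⟨2 / δ, u1.mono fun x hx hn => ⟨by positivity, hn.infty, fun z hz y hy => ?_⟩⟩
  have z0 : 0 < ‖z‖ := lt_of_lt_of_le (by positivity) hz
  have z1 := norm_pos_iff.1 z0
  have k := hU hx (hB (show z⁻¹ ∈ ball 0 δ by
    rw [mem_ball_zero_iff, norm_inv, inv_lt_comm₀ z0 hδ]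
    exact lt_of_lt_of_le (by rw [inv_eq_one_div]; gcongr; norm_num) hz))
  have e1 : (z : Sph) = pr 1 z⁻¹ := by rw [pr_of_ne _ (inv_ne_zero z1)]; simp
  rw [e1, hn.fam_pr (Or.inl one_ne_zero)] at hy
  have d0 : dn q e x.2 1 z⁻¹ ≠ 0 := fun h0 => by rw [h0, pr_zero] at hy; exact infty_ne_coe _ hy
  rw [pr_of_ne _ d0, coe_eq_coe, div_eq_iff d0] at hy
  have e2 : dn q e x.2 1 z⁻¹ = z⁻¹ * (z⁻¹ * (1 - e * z⁻¹) * (z⁻¹ - x.2.2.2.2.1) *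
    (z⁻¹ - x.2.2.2.2.2) ^ q) := by unfold dn; simp only [mul_one]; ring
  simp only at k
  rw [hy, e2, norm_mul y, norm_mul z⁻¹ (_ * _), norm_inv] at k
  by_contra hc
  rw [not_lt] at hc
  have : ‖y‖ * ‖z‖⁻¹ ≤ 2 := by rw [mul_inv_le_iff₀ z0]; exact hc
  nlinarith [norm_nonneg (z⁻¹ * (1 - e * z⁻¹) * (z⁻¹ - x.2.2.2.2.1) * (z⁻¹ - x.2.2.2.2.2) ^ q)]

lemma esc_fam {T : Type*} [TopologicalSpace T] {μ : T → ℂ} {p : T → Pm} {t₀ : T}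
    (h1 : ContinuousAt μ t₀) (h2 : ContinuousAt p t₀) (h : ∀ᶠ t in 𝓝 t₀, ND q (μ t) e (p t)) :
    ∃ R, ∀ᶠ t in 𝓝 t₀, Esc (fam q (μ t) e (p t)).1 R := by
  obtain ⟨R, hR⟩ := h.self_of_nhds.esc
  exact ⟨R, ((h1.prodMk h2).eventually hR).mp (h.mono fun t h1 h2 => h2 h1)⟩

lemma cinv_fam {x y u v μ' : ℂ} (h : ND q μ e (e, x, y, u, v))
    (h' : ND q μ' e (e, u⁻¹, v⁻¹, x⁻¹, y⁻¹)) (hμ : μ' * μ * x * y ^ q = u * v ^ q) :
    cinv (fam q μ' e (e, u⁻¹, v⁻¹, x⁻¹, y⁻¹)) = fam q μ e (e, x, y, u, v) := by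
  ext z
  obtain ⟨z, rfl⟩ := inv.surjective z
  have hv := ne_zero_iff'.1 (sec_ne z)
  have x0 : x ≠ 0 := h.h1.1
  have y0 : y ≠ 0 := h.h2.1
  have u0 : u ≠ 0 := fun h0 => h'.h1.1 (inv_eq_zero.2 h0)
  have v0 : v ≠ 0 := fun h0 => h'.h2.1 (inv_eq_zero.2 h0)
  have μ0 := h.hμ
  have e1 : μ' = u * v ^ q / (μ * x * y ^ q) := by rw [← hμ]; field_simp
  rw [cinv, conj_apply, ← pv_sec z, pv, inv_pr hv, h'.fam_pr hv, h.fam_pr hv.symm]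
  refine (inv_pr (ne_zero_iff'.1 (h'.hom.ne _ (sec_ne z)))).trans ?_
  refine (pv_smul (c := μ * x * y ^ q * (-1) ^ (q + 1)) (by simp [μ0, x0, y0]) (_, _)).symm.trans ?_
  have k : ∀ a X Y : ℂ, a ≠ 0 → (Y - a⁻¹ * X) ^ q = (-1) ^ q * (X - a * Y) ^ q / a ^ q :=
    fun a X Y ha => by rw [← mul_pow, ← div_pow]; congr 1; field_simp; ring
  have k1 : ((-1 : ℂ) ^ q) ^ 2 = 1 := by rw [← pow_mul, mul_comm, pow_mul]; simp
  simp only [pv, fF, Prod.smul_mk, smul_eq_mul, nm, dn, e1, k _ _ _ y0, k _ _ _ v0,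
    pow_succ (-1 : ℂ) q]
  generalize (-1 : ℂ) ^ q = s at k1
  generalize ((sec z).1 - y * (sec z).2) ^ q = A
  generalize ((sec z).1 - v * (sec z).2) ^ q = B
  congr 1 <;> field_simp <;> rw [k1] <;> ring

lemma ND.typ_mod (h : ND q μ e p) {α : ℝ} (hα : Irrational α) {χ : ℂ → ℂ} {a b r : ℝ}
    (hL : Lin (fam q μ e p).1 α χ a b) (ha : 0 < a) (hr : r ∈ Ioo a b) {k : ℤ}
    (ht : Typ (q + 4) α (fam q μ e p).1 ((↑) '' (χ '' ann a b)) k) :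
    wind (fun θ => dn q e p (crv χ r θ) 1) + (2 * nout χ a b + 1) ≡ k [ZMOD (q + 5)] := by
  rw [← hL.tp_eq h.mero hα ha hr (F := fF q μ e p) fun _ => rfl]
  have := ht _ _ _ _ _ h.hom h.fam_eq (hL.rd ha (hr.1.trans hr.2))
    ⟨(one_lt_div ha).2 hr.1, div_lt_div_of_pos_right hr.2 ha⟩
  rwa [show ((q + 4 : ℕ) : ℤ) + 1 = q + 5 by push_cast; ring] at this

lemma ND.typ_base (h : ND q μ e p) {α : ℝ} (hα : Irrational α) {χ : ℂ → ℂ} {a b r : ℝ}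
    (hL : Lin (fam q μ e p).1 α χ a b) (ha : 0 < a) (hr : r ∈ Ioo a b) :
    Typ (q + 4) α (fam q μ e p).1 ((↑) '' (χ '' ann a b))
      (wind (fun θ => dn q e p (crv χ r θ) 1) + (2 * nout χ a b + 1)) := by
  rw [← hL.tp_eq h.mero hα ha hr (F := fF q μ e p) fun _ => rfl]
  exact typ_self hα (hL.rd ha (hr.1.trans hr.2))
    ⟨(one_lt_div ha).2 hr.1, div_lt_div_of_pos_right hr.2 ha⟩ h.hom h.fam_eq

end

end Pool.Agent.Lib.MP_1e9af3_an.G
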