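import Pool.Agent.Lib.MP_1e9af3_an.GFam

/-! Position of a ring with respect to zeros and poles. -/

namespace Pool.Agent.Lib.MP_1e9af3_an.G

open Set Filter Topology Complex Metric OnePoint

noncomputable section

/-- The basic near identity factor. -/
def Ps (q : ℕ) (a₁ a₂ a₃ a₄ a₅ a₆ : ℂ) : ℂ :=
  (1 - a₂) * (1 - a₃) ^ q * (1 - a₄) / ((1 - a₁) * (1 - a₅) * (1 - a₆) ^ q)

/-- Smallness of the factor. -/
def Sm (q : ℕ) (β δ : ℝ) : Prop := ∀ a₁ a₂ a₃ a₄ a₅ a₆ : ℂ, ‖a₁‖ ≤ β → ‖a₂‖ ≤ β → ‖a₃‖ ≤ β → ‖a₄‖ ≤ β →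
  ‖a₅‖ ≤ β → ‖a₆‖ ≤ β → ‖Ps q a₁ a₂ a₃ a₄ a₅ a₆ - 1‖ ≤ δ

lemma exists_sm (q : ℕ) {δ : ℝ} (hδ : 0 < δ) : ∃ β, 0 < β ∧ β ≤ 1 / 2 ∧ Sm q β δ := by
  have c1 : ContinuousAt (fun a : Fin 6 → ℂ =>
      ‖Ps q (a 0) (a 1) (a 2) (a 3) (a 4) (a 5) - 1‖) 0 :=
    ((ContinuousAt.div (by fun_prop) (by fun_prop) (by simp)).sub continuousAt_const).norm
  have c2 : ∀ᶠ a : Fin 6 → ℂ in 𝓝 0, ‖Ps q (a 0) (a 1) (a 2) (a 3) (a 4) (a 5) - 1‖ < δ :=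
    c1.eventually (gt_mem_nhds (by simpa [Ps] using hδ))
  obtain ⟨β, h1, h2⟩ := Metric.eventually_nhds_iff.1 c2
  refine ⟨min (β / 2) (1 / 2), by positivity, min_le_right _ _,
    fun a₁ a₂ a₃ a₄ a₅ a₆ k1 k2 k3 k4 k5 k6 => ?_⟩
  rw [le_min_iff] at k1 k2 k3 k4 k5 k6
  have := h2 (y := ![a₁, a₂, a₃, a₄, a₅, a₆]) (by
    rw [dist_zero_right, pi_norm_lt_iff h1]
    intro i
    fin_cases i <;> simp <;> linarith [k1.1, k2.1, k3.1, k4.1, k5.1, k6.1])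
  simpa using this.le

lemma one_sub_ne {β : ℝ} (hβ : β ≤ 1 / 2) {a : ℂ} (h : ‖a‖ ≤ β) : 1 - a ≠ 0 := fun h0 => by
  rw [← sub_eq_zero.1 h0, norm_one] at h; linarith

lemma near_one {a : ℂ} (h : ‖a - 1‖ ≤ 1 / 2) : 1 / 2 ≤ ‖a‖ ∧ ‖a‖ ≤ 2 := by
  have := abs_le.1 ((abs_norm_sub_norm_le a 1).trans h)
  rw [norm_one] at this
  constructor <;> linarith [this.1, this.2]

variable {q : ℕ} {μ e : ℂ} {p : Pm} {α : ℝ} {χ : ℂ → ℂ} {a b r : ℝ}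

lemma succ_mem {f : Sph → Sph} (h : Lin f α χ a b) (hr : r ∈ Ioo a b) {z : ℂ}
    (hz : z ∈ χ '' sphere 0 r) : ∃ y ∈ χ '' sphere 0 r, f z = (y : ℂ) := by
  obtain ⟨θ, rfl⟩ := exists_crv hz
  exact ⟨_, crv_mem (h.ha.trans hr.1.le) _, h.map_crv hr θ⟩

lemma ND.zero_not_mem (h : ND q μ e p) (hα : Irrational α) (hL : Lin (fam q μ e p).1 α χ a b)
    (hr : r ∈ Ioo a b) : (0:ℂ) ∉ χ '' sphere 0 r := fun hz => by
  obtain ⟨θ, h0⟩ := exists_crv hz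
  have h1 := hL.map_crv hr θ
  rw [← h0, (h.mero.eq_coe (y := 0)).2 (by simp [nm]), coe_eq_coe] at h1
  exact (hL.toEmb.wind_chord hr (ee_ne_one hα)).loop.ne θ (by rw [← h0, ← h1, sub_zero])

lemma ND.nm_ne (h : ND q μ e p) (hα : Irrational α) (hL : Lin (fam q μ e p).1 α χ a b)
    (hr : r ∈ Ioo a b) {z : ℂ} (hz : z ∈ χ '' sphere 0 r) : nm q μ p z 1 ≠ 0 ∧ dn q e p z 1 ≠ 0 := by
  obtain ⟨y, h1, h2⟩ := succ_mem hL hr hz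
  have h3 := h.mero.q_ne h2
  exact ⟨by
    rw [h.mero.eq_coe.1 h2]
    exact mul_ne_zero (fun h0 => h.zero_not_mem hα hL hr (h0 ▸ h1)) h3, h3⟩

lemma ND.indices {ε x y u v : ℂ} (h : ND q μ e (ε, x, y, u, v)) (hq : q ≠ 0) (hu : u ≠ 0) (hv : v ≠ 0)
    (hα : Irrational α) (hL : Lin (fam q μ e (ε, x, y, u, v)).1 α χ a b) (hr : r ∈ Ioo a b) :
    (∀ z ∈ ({0, e, ε⁻¹, x⁻¹, y⁻¹, u⁻¹, v⁻¹} : Set ℂ), z ∉ χ '' sphere 0 r) ∧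
    wind (fun θ => dn q e (ε, x, y, u, v) (crv χ r θ) 1) =
      ind χ r e + ind χ r u⁻¹ + q * ind χ r v⁻¹ ∧
    ind χ r 0 + ind χ r x⁻¹ + q * ind χ r y⁻¹ + ind χ r ε⁻¹ =
      ind χ r e + ind χ r u⁻¹ + q * ind χ r v⁻¹ := by
  have hε : ε ≠ 0 := h.h0.1
  have hx : x ≠ 0 := h.h1.1
  have hy : y ≠ 0 := h.h2.1
  have hμ := h.hμ
  have n : ∀ z ∈ ({0, e, ε⁻¹, x⁻¹, y⁻¹, u⁻¹, v⁻¹} : Set ℂ), z ∉ χ '' sphere 0 r := fun z hz h1 => by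
    have := h.nm_ne hα hL hr h1
    simp only [mem_insert_iff, mem_singleton_iff] at hz
    rcases hz with rfl | rfl | rfl | rfl | rfl | rfl | rfl <;>
      simp [nm, dn, hε, hx, hy, hu, hv, hq] at this
  have w : ∀ z ∈ ({0, e, ε⁻¹, x⁻¹, y⁻¹, u⁻¹, v⁻¹} : Set ℂ),
      HasWind (fun θ => crv χ r θ - z) (ind χ r z) := fun z hz =>
    (hL.toEmb.loop_sub hr (n z hz)).hasWind
  have k : ∀ a z : ℂ, a ≠ 0 → (1 - a * z) ^ q = (-a) ^ q * (z - a⁻¹) ^ q := fun a z ha => by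
    rw [← mul_pow]; congr 1; field_simp; ring
  have wq : HasWind (fun θ => dn q e (ε, x, y, u, v) (crv χ r θ) 1)
      (ind χ r e + ind χ r u⁻¹ + q * ind χ r v⁻¹) := by
    have := (hasWind_const (c := -u * (-v) ^ q) (by simp [hu, hv])).mul
      (((w e (by simp)).mul (w u⁻¹ (by simp))).mul ((w v⁻¹ (by simp)).pow q))
    rw [zero_add] at this
    exact this.congr fun θ => by simp only [dn, k _ _ hv]; field_simp; ring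
  have wp : HasWind (fun θ => nm q μ (ε, x, y, u, v) (crv χ r θ) 1)
      (2 * ind χ r 0 + ind χ r x⁻¹ + q * ind χ r y⁻¹ + ind χ r ε⁻¹) := by
    have := (hasWind_const (c := μ * x * (-y) ^ q * ε) (by simp [hμ, hx, hy, hε])).mul
      (((((w 0 (by simp)).pow 2).mul (w x⁻¹ (by simp))).mul
        ((w y⁻¹ (by simp)).pow q)).mul (w ε⁻¹ (by simp)))
    rw [zero_add] at this
    exact this.congr fun θ => by simp only [nm, k _ _ hy]; field_simp; ring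
  have := wp.unique ((((w 0 (by simp)).shift α).mul wq).congr fun θ => by
    rw [h.mero.eq_coe.1 (hL.map_crv hr θ), sub_zero])
  exact ⟨n, wq.wind_eq, by linarith⟩

/-- Scale separation. -/
structure Geo (q : ℕ) (β e c R E : ℝ) (μ v : ℂ) : Prop where
  sm : Sm q β (1 / 2)
  hβ : β ≤ 1 / 2
  e0 : 0 < e
  c0 : 0 < c
  R0 : 0 < R
  E0 : 0 < E
  v0 : v ≠ 0
  E5 : E ≤ 6
  μ2 : ‖μ‖ ≤ 2
  R1 : R ≤ 1 / 10
  a1 : e ≤ β * R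
  a2 : 1 ≤ β * c * R
  a3 : 1 ≤ β * ‖v‖ * R
  a4 : c * e ≤ β
  a5 : ‖v‖ * e ≤ β
  a6 : 5 * e ≤ β
  a7 : 80 * ‖μ * c ^ (q + 1) / v ^ q‖ * R ^ 2 ≤ e

variable {β ee' c R E : ℝ} {v : ℂ}

lemma Geo.inner (g : Geo q β ee' c R E μ v) {z y : ℂ} (hz : ‖z‖ ≤ ee' / 10) (z0 : z ≠ 0)
    (he : nm q μ (-E, c, c, 1, v) z 1 = y * dn q (-ee') (-E, c, c, 1, v) z 1) : ‖y‖ < ‖z‖ := by
  have := g.e0; have := g.c0; have := g.E0; have := g.E5; have := g.a4; have := g.a5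
  have := g.a6; have := g.μ2
  have z1 := norm_pos_iff.2 z0
  have b0 : ‖(0:ℂ)‖ ≤ β := by rw [norm_zero]; linarith
  have b1 : ‖c * z‖ ≤ β := by
    rw [norm_mul, Complex.norm_real, Real.norm_of_nonneg g.c0.le]; nlinarith
  have b2 : ‖-E * z‖ ≤ β := by
    rw [norm_mul, norm_neg, Complex.norm_real, Real.norm_of_nonneg g.E0.le]; nlinarith
  have b3 : ‖z‖ ≤ β := by linarith
  have b4 : ‖v * z‖ ≤ β := by rw [norm_mul]; nlinarith [norm_nonneg v]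
  have h1 := (near_one (g.sm _ _ _ _ _ _ b0 b1 b1 b2 b3 b4)).2
  have n3 := one_sub_ne g.hβ b3
  have n4 := one_sub_ne g.hβ b4
  have h2 : y * (z + ee') = μ * z ^ 2 * Ps q 0 (c * z) (c * z) (-E * z) z (v * z) := by
    simp only [nm, dn] at he
    rw [Ps, mul_div_assoc', eq_div_iff (by simp [n3, n4])]; linear_combination -he
  have h3 : ee' - ‖z‖ ≤ ‖z + ee'‖ := by
    have := norm_sub_norm_le (ee' : ℂ) (-z)
    rwa [sub_neg_eq_add, add_comm, norm_neg, Complex.norm_real, Real.norm_of_nonneg g.e0.le] at this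
  have h4 := congrArg norm h2
  rw [norm_mul, norm_mul, norm_mul, norm_pow] at h4
  have h5 : ‖μ‖ * ‖z‖ ^ 2 * ‖Ps q 0 (c * z) (c * z) (-E * z) z (v * z)‖ ≤ 2 * ‖z‖ ^ 2 * 2 := by gcongr
  have h6 : ‖y‖ * (9 * ‖z‖) ≤ ‖y‖ * ‖z + ee'‖ := by gcongr; linarith
  nlinarith

lemma Geo.outer (g : Geo q β ee' c R E μ v) {z y : ℂ} (hz : R ≤ ‖z‖)
    (he : nm q μ (-E, c, c, 1, v) z 1 = y * dn q (-ee') (-E, c, c, 1, v) z 1) :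
    ‖y‖ * ‖1 - z‖ ≤ 2 * (‖μ * c ^ (q + 1) / v ^ q‖ * ‖z‖ ^ 2 * ‖1 + E * z‖) ∧
    ‖μ * c ^ (q + 1) / v ^ q‖ * ‖z‖ ^ 2 * ‖1 + E * z‖ ≤ 2 * (‖y‖ * ‖1 - z‖) := by
  have := g.e0; have := g.c0; have := g.R0; have := g.a1; have := g.a2; have := g.a3
  have β0 : 0 < β := by linarith [g.a6]
  have z1 : 0 < ‖z‖ := g.R0.trans_le hz
  have z0 := norm_pos_iff.1 z1
  have v0 := g.v0
  have v1 := norm_pos_iff.2 v0
  have c1 : (c:ℂ) ≠ 0 := by exact_mod_cast g.c0.ne'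
  have b0 : ‖(0:ℂ)‖ ≤ β := by rw [norm_zero]; linarith
  have b1 : ‖-ee' / z‖ ≤ β := by
    rw [norm_div, norm_neg, Complex.norm_real, Real.norm_of_nonneg g.e0.le, div_le_iff₀ z1]
    nlinarith
  have b2 : ‖1 / (c * z)‖ ≤ β := by
    rw [norm_div, norm_one, norm_mul, Complex.norm_real, Real.norm_of_nonneg g.c0.le,
      div_le_iff₀ (by positivity)]
    nlinarith [mul_le_mul_of_nonneg_left hz (mul_pos β0 g.c0).le]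
  have b3 : ‖1 / (v * z)‖ ≤ β := by
    rw [norm_div, norm_one, norm_mul, div_le_iff₀ (by positivity)]
    nlinarith [mul_le_mul_of_nonneg_left hz (mul_pos β0 v1).le]
  obtain ⟨h0, h1⟩ := near_one (g.sm _ _ _ _ _ _ b1 b2 b2 b0 b0 b3)
  have n1 : z + ee' ≠ 0 := fun h => one_sub_ne g.hβ b1 (by field_simp; linear_combination h)
  have h2 : -(y * (1 - z)) = μ * c ^ (q + 1) / v ^ q * z ^ 2 * (1 + E * z) *
      Ps q (-ee' / z) (1 / (c * z)) (1 / (c * z)) 0 0 (1 / (v * z)) := by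
    have k : ∀ a : ℂ, a ≠ 0 → (1 - a * z) ^ q = a ^ q * (-z) ^ q * (1 - 1 / (a * z)) ^ q :=
      fun a ha => by rw [← mul_pow, ← mul_pow]; congr 1; field_simp; ring
    have n4 := pow_ne_zero q (one_sub_ne g.hβ b3)
    have n5 := pow_ne_zero q (neg_ne_zero.2 z0)
    simp only [nm, dn, k _ c1, k _ v0] at he
    rw [Ps, show 1 - -ee' / z = (z + ee') / z by field_simp; ring, pow_succ (c:ℂ) q]
    generalize (1 - 1 / (v * z)) ^ q = B at he n4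
    generalize (1 - 1 / (c * z)) ^ q = A at he
    generalize (-z) ^ q = S at he n5
    field_simp
    exact mul_left_cancel₀ n5 (by linear_combination he)
  have h4 := congrArg norm h2
  rw [norm_neg, norm_mul, norm_mul, norm_mul, norm_mul, norm_pow] at h4
  have : 0 ≤ ‖μ * c ^ (q + 1) / v ^ q‖ * ‖z‖ ^ 2 * ‖1 + E * z‖ := by positivity
  rw [h4]
  constructor <;> nlinarith

lemma norm_one_add_bounds {E : ℝ} (hE : 0 ≤ E) (z : ℂ) :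
    E * ‖z‖ - 1 ≤ ‖1 + E * z‖ ∧ ‖1 + E * z‖ ≤ 1 + E * ‖z‖ ∧ 1 - E * ‖z‖ ≤ ‖1 + E * z‖ := by
  have h0 : ‖E * z‖ = E * ‖z‖ := by rw [norm_mul, Complex.norm_real, Real.norm_of_nonneg hE]
  have h1 := abs_le.1 (abs_norm_sub_norm_le (1 + E * z) (E * z))
  have h2 := abs_le.1 (abs_norm_sub_norm_le (1 + E * z) 1)
  simp only [add_sub_cancel_right, add_sub_cancel_left, norm_one, h0] at h1 h2
  refine ⟨?_, ?_, ?_⟩ <;> linarith [h1.1, h2.1, h2.2]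

lemma norm_one_sub_bounds (z : ℂ) :
    ‖z‖ - 1 ≤ ‖1 - z‖ ∧ ‖1 - z‖ ≤ 1 + ‖z‖ ∧ 1 - ‖z‖ ≤ ‖1 - z‖ := by
  simpa [sub_eq_add_neg] using norm_one_add_bounds zero_le_one (-z)

lemma Geo.dichotomy (g : Geo q β ee' c R E μ v) {Γ : Set ℂ} (hK : IsCompact Γ)
    (hc : IsPreconnected Γ) (h0 : (0:ℂ) ∉ Γ) (hs : ∀ z ∈ Γ, ∃ y ∈ Γ,
      nm q μ (-E, c, c, 1, v) z 1 = y * dn q (-ee') (-E, c, c, 1, v) z 1) :
    (∀ z ∈ Γ, ‖z‖ < R) ∨ ∀ z ∈ Γ, R < ‖z‖ := by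
  have key : ∀ z ∈ Γ, ‖z‖ ≠ R := fun z hz hR => by
    obtain ⟨y, h1, h2⟩ := hs z hz
    obtain ⟨z₁, k1, k2⟩ := hK.exists_isMinOn ⟨z, hz⟩ continuous_norm.continuousOn
    obtain ⟨y₁, k3, k4⟩ := hs z₁ k1
    refine absurd (g.inner ((k2 h1).trans ?_) (fun h => h0 (h ▸ k1)) k4) (not_lt.2 (k2 k3))
    have h3 := (g.outer hR.ge h2).1
    have h4 := (norm_one_add_bounds g.E0.le z).2.1
    have h5 := (norm_one_sub_bounds z).2.2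
    have := g.R1; have := g.R0; have := g.E5; have := g.a7
    rw [hR] at h3 h4 h5
    have h6 : ‖y‖ * (1 / 2) ≤ ‖y‖ * ‖1 - z‖ := by gcongr; linarith
    have h7 : ‖μ * c ^ (q + 1) / v ^ q‖ * R ^ 2 * ‖1 + E * z‖ ≤ ‖μ * c ^ (q + 1) / v ^ q‖ * R ^ 2 * 2 := by
      gcongr; nlinarith
    show ‖y‖ ≤ _
    linarith
  by_contra hn
  push Not at hn
  obtain ⟨⟨z, h1, h2⟩, z', h3, h4⟩ := hn
  obtain ⟨w, h5, h6⟩ := hc.intermediate_value h3 h1 continuous_norm.continuousOn ⟨h4, h2⟩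
  exact key w h5 h6

lemma Geo.outer_ring (g : Geo q β ee' c R E μ v) {Γ : Set ℂ} (hK : IsCompact Γ)
    (hc : IsPreconnected Γ) (h0 : ∀ z ∈ Γ, R < ‖z‖) (hs : ∀ z ∈ Γ, ∃ y ∈ Γ,
      nm q μ (-E, c, c, 1, v) z 1 = y * dn q (-ee') (-E, c, c, 1, v) z 1)
    (p1 : ∃ z ∈ Γ, 1 ≤ ‖z‖) (p2 : ∃ x : ℝ, 0 ≤ x ∧ E * x ≤ 1 ∧ ((-x : ℝ) : ℂ) ∈ Γ)
    (p3 : ∃ x : ℝ, 0 ≤ x ∧ (x : ℂ) ∈ Γ) :
    E ≠ 6 ∧ 1 / 500 < ‖μ * c ^ (q + 1) / v ^ q‖ ∧ ‖μ * c ^ (q + 1) / v ^ q‖ < 1500 := by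
  obtain ⟨z', p11, p12⟩ := p1
  obtain ⟨x, p21, p22, p23⟩ := p2
  obtain ⟨x', p31, p32⟩ := p3
  set N := ‖μ * c ^ (q + 1) / v ^ q‖ with hN
  have N0 : 0 ≤ N := norm_nonneg _
  have E0 := g.E0
  have E5 := g.E5
  have st : ∀ z ∈ Γ, ∃ y ∈ Γ, ‖y‖ * ‖1 - z‖ ≤ 2 * (N * ‖z‖ ^ 2 * ‖1 + E * z‖) ∧
      N * ‖z‖ ^ 2 * ‖1 + E * z‖ ≤ 2 * (‖y‖ * ‖1 - z‖) := fun z hz => by
    obtain ⟨y, h1, h2⟩ := hs z hz
    exact ⟨y, h1, g.outer (h0 z hz).le h2⟩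
  obtain ⟨z₁, k1, k2⟩ := hK.exists_isMaxOn ⟨z', p11⟩ continuous_norm.continuousOn
  obtain ⟨z₂, l1, l2⟩ := hK.exists_isMinOn ⟨z', p11⟩ continuous_norm.continuousOn
  have M1 : 1 ≤ ‖z₁‖ := p12.trans (k2 p11)
  have m0 : 0 < ‖z₂‖ := g.R0.trans (h0 _ l1)
  have m1 : E * ‖z₂‖ ≤ 1 := by
    have : ‖z₂‖ ≤ ‖((-x : ℝ) : ℂ)‖ := l2 p23
    rw [Complex.norm_real, norm_neg, Real.norm_of_nonneg p21] at this
    nlinarith
  have A1 : N * ‖1 + E * z₁‖ ≤ 4 := by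
    obtain ⟨y, h1, -, h2⟩ := st z₁ k1
    have h3 : ‖y‖ ≤ ‖z₁‖ := k2 h1
    have h4 : ‖y‖ * ‖1 - z₁‖ ≤ ‖z₁‖ * (2 * ‖z₁‖) := by
      gcongr; linarith [(norm_one_sub_bounds z₁).2.1]
    have h5 : 0 < ‖z₁‖ ^ 2 := by positivity
    exact le_of_mul_le_mul_right (by nlinarith) h5
  have A2 : ‖1 - z₂‖ ≤ 4 * N * ‖z₂‖ := by
    obtain ⟨y, h1, h2, -⟩ := st z₂ l1
    have h3 : ‖z₂‖ ≤ ‖y‖ := l2 h1
    have h4 : ‖z₂‖ * ‖1 - z₂‖ ≤ ‖y‖ * ‖1 - z₂‖ := by gcongr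
    have h5 : N * ‖z₂‖ ^ 2 * ‖1 + E * z₂‖ ≤ N * ‖z₂‖ ^ 2 * 2 := by
      gcongr; linarith [(norm_one_add_bounds E0.le z₂).2.1]
    exact le_of_mul_le_mul_left (by nlinarith) m0
  refine ⟨fun h5 => ?_, not_le.1 fun hs => ?_, not_le.1 fun hl => ?_⟩
  · have h1 := (norm_one_add_bounds E0.le z₁).1
    have h2 := (norm_one_sub_bounds z₂).2.2
    rw [h5] at m1
    have h3 : N * 5 ≤ N * ‖1 + E * z₁‖ := by gcongr; rw [h5] at h1 ⊢; linarith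
    have h6 : 4 * N * ‖z₂‖ ≤ 4 * (4 / 5) * (1 / 6) := by gcongr <;> linarith
    linarith
  · have h1 : ‖1 - z₂‖ ≤ ‖z₂‖ / 10 := by nlinarith
    obtain ⟨h2, -, h3⟩ := norm_one_sub_bounds z₂
    obtain ⟨w, h5, h6⟩ := hc.intermediate_value l1 p23 (f := fun z => ‖1 - z‖) (by fun_prop)
      (show 1 / 2 ∈ _ from ⟨by linarith, by
        rw [← ofReal_one, ← ofReal_sub, Complex.norm_real, Real.norm_of_nonneg (by linarith)]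
        linarith⟩)
    obtain ⟨y, h7, h8, -⟩ := st w h5
    have h9 : ‖z₂‖ ≤ ‖y‖ := l2 h7
    simp only at h6
    have h10 : ‖w‖ ≤ 3 / 2 := by linarith [(norm_one_sub_bounds w).1]
    have h11 : N * ‖w‖ ^ 2 * ‖1 + E * w‖ ≤ 1 / 500 * (3 / 2) ^ 2 * 10 := by
      gcongr; nlinarith [(norm_one_add_bounds E0.le w).2.1, norm_nonneg w]
    rw [h6] at h8
    linarith
  · have h1 : ‖1 + E * z₁‖ ≤ 1 / 2 := by nlinarith [norm_nonneg (1 + E * z₁)]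
    obtain ⟨w, h5, h6⟩ := hc.intermediate_value k1 p32 (f := fun z => ‖1 + E * z‖) (by fun_prop)
      (show 1 / 2 ∈ _ from ⟨h1, by
        rw [← ofReal_one, ← ofReal_mul, ← ofReal_add, Complex.norm_real,
          Real.norm_of_nonneg (by positivity)]
        nlinarith⟩)
    obtain ⟨y, h7, -, h8⟩ := st w h5
    have h9 : ‖y‖ ≤ ‖z₁‖ := k2 h7
    simp only at h6
    have h2 := (norm_one_add_bounds E0.le z₁).1
    have h3 := (norm_one_add_bounds E0.le w).2.2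
    have w0 : 0 < ‖w‖ := g.R0.trans (h0 _ h5)
    rw [h6] at h8 h3
    have h4 : 1 / 12 ≤ ‖w‖ := by nlinarith
    have h10 : ‖y‖ * ‖1 - w‖ ≤ ‖z₁‖ * (13 * ‖w‖) := by
      gcongr; linarith [(norm_one_sub_bounds w).2.1]
    have h11 : N * ‖w‖ ≤ 52 * ‖z₁‖ := le_of_mul_le_mul_right (by nlinarith) w0
    have h12 : N * (E * ‖w‖) ≤ 52 * (E * ‖z₁‖) := by nlinarith
    nlinarith

end

end Pool.Agent.Lib.MP_1e9af3_an.G
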