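import Pool.Agent.Lib.MP_1e9af3_an.GBase

/-! The concrete parameters. -/

namespace Pool.Agent.Lib.MP_1e9af3_an.G

open Set Filter Topology Complex Metric OnePoint

noncomputable section

/-- Numerical relations between the scales. -/
structure Nums (q : ℕ) (β L e k c W R : ℝ) : Prop where
  e0 : 0 < e
  k0 : 0 < k
  R0 : 0 < R
  c0 : 1000 ≤ c
  W0 : 1000 * c ≤ W
  Wq : W ^ q = c ^ (q + 1)
  n1 : e * L ≤ β * k
  n2 : 200 * W * k * L ≤ β
  n3 : R ≤ 1 / 10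
  n4 : e ≤ β * R
  n5 : 1 ≤ β * c * R
  n6 : 200 * W * e ≤ β
  n7 : 80 * (2 * 200 ^ q) * R ^ 2 ≤ e

lemma exists_nums {q : ℕ} (hq : 2 ≤ q) {β L : ℝ} (hβ : 0 < β) (hL : 1 ≤ L) :
    ∃ e k c W R, Nums q β L e k c W R := by
  obtain ⟨n, n0, n1, n2⟩ : ∃ n : ℝ, 0 < n ∧ n ≤ 1 / 10 ^ 8 ∧ 200 * n * L ≤ β := by
    refine ⟨min (1 / 10 ^ 8) (β / (200 * L)), by positivity, min_le_left _ _, ?_⟩
    have := min_le_right (1 / 10 ^ 8 : ℝ) (β / (200 * L))
    rw [le_div_iff₀ (by positivity)] at this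
    linarith
  have n3 : n ≤ 1 := by linarith
  have n4 : 200 * n ≤ β := by nlinarith
  have hp : ∀ j, n ^ (j + 1) ≤ n := fun j => pow_le_of_le_one n0.le n3 (by omega)
  have m0 : 0 < n ^ q := by positivity
  have m1 : n ^ q ≤ n ^ 2 := pow_le_pow_of_le_one n0.le n3 hq
  have m2 : 200 ^ q * n ^ q ≤ 1 / 160 := by
    rw [← mul_pow]
    refine (pow_le_pow_of_le_one (by positivity) (by linarith) hq).trans ?_
    nlinarith
  have m3 : (n ^ q) ^ 5 ≤ n ^ 10 := (pow_le_pow_left₀ m0.le m1 5).trans_eq (by ring)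
  have m4 : (n ^ q) ^ 6 ≤ n ^ 12 := (pow_le_pow_left₀ m0.le m1 6).trans_eq (by ring)
  have m5 : (((n ^ q) ^ 6 * n ^ 6)⁻¹) ^ q = (((n ^ q) ^ 6)⁻¹) ^ (q + 1) := by
    rw [inv_pow, inv_pow]; congr 1; ring
  generalize n ^ q = m at *
  refine ⟨m ^ 6 * n ^ 8, m ^ 6 * n ^ 7, (m ^ 6)⁻¹, (m ^ 6 * n ^ 6)⁻¹, m ^ 6 / n, by positivity,
    by positivity, by positivity, ?_, ?_, m5, ?_, ?_, ?_, ?_, ?_, ?_, ?_⟩
  · rw [le_inv_comm₀ (by norm_num) (by positivity)]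
    have : n ^ 12 ≤ n := hp 11
    linarith
  · rw [mul_inv, mul_comm]
    gcongr
    rw [le_inv_comm₀ (by norm_num) (by positivity)]
    have : n ^ 6 ≤ n := hp 5
    linarith
  · have : n * L ≤ β := by nlinarith
    calc m ^ 6 * n ^ 8 * L = n * L * (m ^ 6 * n ^ 7) := by ring
      _ ≤ _ := by gcongr
  · calc 200 * (m ^ 6 * n ^ 6)⁻¹ * (m ^ 6 * n ^ 7) * L = 200 * n * L := by field_simp
      _ ≤ _ := n2
  · rw [div_le_iff₀ n0]
    have : n ^ 11 ≤ n := hp 10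
    calc m ^ 6 ≤ n ^ 11 * n := m4.trans_eq (by ring)
      _ ≤ _ := by gcongr; linarith
  · calc m ^ 6 * n ^ 8 = n ^ (8 + 1) * (m ^ 6 / n) := by field_simp
      _ ≤ _ := by gcongr; linarith [hp 8]
  · calc (1:ℝ) = n * (m ^ 6)⁻¹ * (m ^ 6 / n) := by field_simp
      _ ≤ _ := by gcongr; linarith
  · calc 200 * (m ^ 6 * n ^ 6)⁻¹ * (m ^ 6 * n ^ 8) = 200 * n ^ (1 + 1) := by field_simp
      _ ≤ _ := by linarith [hp 1]
  · calc 80 * (2 * 200 ^ q) * (m ^ 6 / n) ^ 2 = 160 * (200 ^ q * m) * m ^ 5 * (m ^ 6 / n ^ 2) := by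
          field_simp; ring
      _ ≤ 160 * (1 / 160) * n ^ 10 * (m ^ 6 / n ^ 2) := by gcongr
      _ = _ := by field_simp

/-- The moving zero. -/
def EE (e s : ℝ) : ℝ := e + (6 - e) * max 0 (min s 1)

/-- The two parameter family. -/
def pp (e c W : ℝ) (z : ℝ × ℂ) : Pm := (-(EE e z.1 : ℝ), c, c, 1, z.2 * W)

/-- The inverted parameters. -/
def ps (e c W : ℝ) (t : ℂ) : Pm := (-e, 1⁻¹, (t * W)⁻¹, (c:ℂ)⁻¹, (c:ℂ)⁻¹)

variable {q : ℕ} {β L e k c W R : ℝ} {μ : ℂ}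

lemma EE_zero (e : ℝ) : EE e 0 = e := by simp [EE]
lemma EE_one (e : ℝ) : EE e 1 = 6 := by simp [EE]

lemma EE_mem (he : e ≤ 6) (s : ℝ) : e ≤ EE e s ∧ EE e s ≤ 6 := by
  have h1 : 0 ≤ max 0 (min s 1) := le_max_left _ _
  have h2 : max 0 (min s 1) ≤ 1 := max_le zero_le_one (min_le_right _ _)
  unfold EE
  constructor <;> nlinarith

lemma pp_cont (e c W : ℝ) : Continuous (pp e c W) := by unfold pp EE; fun_prop

lemma Nums.e1 (h : Nums q β L e k c W R) (hβ : β ≤ 1 / 2) : 10 * e ≤ β ∧ e ≤ 1 / 20 := by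
  have := h.n6; have := h.c0; have := h.e0; have := h.W0
  have : 10 * e ≤ 200 * W * e := by gcongr; linarith
  constructor <;> linarith

lemma Nums.nv (h : Nums q β L e k c W R) {t : ℂ} (ht : t ∈ ann (1 / 200) 200) :
    5 * c < ‖t * W‖ ∧ ‖t * W‖ ≤ 200 * W := by
  have := h.c0; have := h.W0
  have h1 := ht.1
  have h2 := ht.2
  rw [norm_mul, Complex.norm_real, Real.norm_of_nonneg (by linarith)]
  refine ⟨?_, ?_⟩ <;> nlinarith

lemma Nums.pp_le (h : Nums q β L e k c W R) (hβ : β ≤ 1 / 2) {z : ℝ × ℂ}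
    (hz : z.2 ∈ ann (1 / 200) 200) : ‖pp e c W z‖ ≤ 200 * W := by
  have := h.c0; have := h.W0
  have h1 := EE_mem (e := e) (by linarith [(h.e1 hβ).2]) z.1
  have h2 := h.e0
  simp only [pp, Prod.norm_def, max_le_iff, norm_neg, Complex.norm_real, norm_one]
  rw [Real.norm_of_nonneg (by linarith), Real.norm_of_nonneg (by linarith)]
  refine ⟨?_, ?_, ?_, ?_, (h.nv hz).2⟩ <;> linarith

lemma Nums.ps_le (h : Nums q β L e k c W R) (hβ : β ≤ 1 / 2) {t : ℂ}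
    (ht : t ∈ ann (1 / 200) 200) : ‖ps e c W t‖ ≤ 200 * W := by
  have := h.c0; have := h.W0
  have h1 := (h.e1 hβ).2
  have h2 := h.e0
  have h3 : c⁻¹ ≤ 1 := inv_le_one_of_one_le₀ (by linarith)
  have h4 : ‖t * W‖⁻¹ ≤ 1 := inv_le_one_of_one_le₀ (by linarith [(h.nv ht).1])
  simp only [ps, Prod.norm_def, max_le_iff, norm_neg, Complex.norm_real, norm_one, norm_inv]
  rw [Real.norm_of_nonneg (by linarith), Real.norm_of_nonneg (by linarith)]
  refine ⟨?_, ?_, ?_, ?_, ?_⟩ <;> linarith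

lemma Nums.nd (h : Nums q β L e k c W R) (hβ : β ≤ 1 / 2) (hμ : μ ≠ 0) {z : ℝ × ℂ}
    (hz : z.2 ∈ ann (1 / 200) 200) : ND q μ (-e) (pp e c W z) := by
  have c0 := h.c0
  have e1 := h.e1 hβ
  have h1 := EE_mem (e := e) (by linarith) z.1
  have h2 := h.e0
  have h3 := (h.nv hz).1
  have ok : Ok (-e) (pp e c W z) c := ⟨by exact_mod_cast (by linarith : c ≠ 0),
    by simp only [pp]; exact_mod_cast (by linarith : c ≠ 1), fun h0 => by
      simp only [pp] at h0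
      rw [← h0, Complex.norm_real, Real.norm_of_nonneg (by linarith)] at h3
      linarith, by exact_mod_cast (by nlinarith : -e * c ≠ 1)⟩
  refine ⟨hμ, by exact_mod_cast (by linarith : -e ≠ 0), ⟨?_, ?_, fun h0 => ?_, ?_⟩, ok, ok⟩ <;>
    simp only [pp] at *
  · exact_mod_cast (by linarith : -EE e z.1 ≠ 0)
  · exact_mod_cast (by linarith : -EE e z.1 ≠ 1)
  · rw [← h0, norm_neg, Complex.norm_real, Real.norm_of_nonneg (by linarith)] at h3
    linarith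
  · exact_mod_cast (by nlinarith : -e * -EE e z.1 ≠ 1)

lemma Nums.Wc (h : Nums q β L e k c W R) : (W:ℂ) ^ q = c ^ (q + 1) := by exact_mod_cast h.Wq

lemma Nums.nu (h : Nums q β L e k c W R) {t : ℂ} (ht : t ≠ 0) :
    ‖μ * c ^ (q + 1) / (t * W) ^ q‖ = ‖μ‖ / ‖t‖ ^ q := by
  have : (c:ℂ) ≠ 0 := by exact_mod_cast (by linarith [h.c0] : c ≠ 0)
  rw [← norm_pow, ← norm_div, mul_pow, h.Wc]; congr 1; field_simp

lemma Nums.geo (h : Nums q β L e k c W R) (hβ : β ≤ 1 / 2) (sm : Sm q β (1 / 2)) (hμ : ‖μ‖ ≤ 2)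
    (s : ℝ) {t : ℂ} (ht : t ∈ ann (1 / 200) 200) : Geo q β e c R (EE e s) μ (t * W) := by
  have c0 := h.c0
  have e1 := h.e1 hβ
  have h1 := EE_mem (e := e) (by linarith) s
  have h2 := h.e0
  obtain ⟨h3, h4⟩ := h.nv ht
  have := h.n5; have := h.n6; have := h.R0; have := h.W0
  have β0 : 0 < β := by linarith
  refine ⟨sm, hβ, h2, by linarith, h.R0, by linarith, norm_pos_iff.1 (by linarith), h1.2, hμ, h.n3,
    h.n4, by linarith, ?_, ?_, ?_, by linarith, ?_⟩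
  · have : β * c * R ≤ β * ‖t * W‖ * R := by gcongr; linarith
    linarith
  · have : c * e ≤ 200 * W * e := by gcongr; linarith
    linarith
  · have : ‖t * W‖ * e ≤ 200 * W * e := by gcongr
    linarith
  · rw [h.nu (ann_ne_zero (by norm_num) ht)]
    refine le_trans ?_ h.n7
    gcongr
    have t1 := ht.1
    rw [div_le_iff₀ (by positivity), mul_assoc, ← mul_pow]
    have : 1 ≤ (200 * ‖t‖) ^ q := one_le_pow₀ (by linarith)
    linarith

lemma line_nd (hμ : μ ≠ 0) (he : 0 < e) (he1 : e < 1) (hc : 1 < c) {V : ℂ} (hV : V.im ≠ 0) {θ : ℝ}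
    (h0 : 0 ≤ θ) (h1 : θ ≤ 1) : ND q μ (-e) (-e, (1 - θ) * c + θ, (1 - θ) * c + θ * V⁻¹,
      (1 - θ) + θ * (c:ℂ)⁻¹, (1 - θ) * V + θ * (c:ℂ)⁻¹) := by
  have c0 : 0 < c⁻¹ := by positivity
  have c1 : c⁻¹ < 1 := inv_lt_one_of_one_lt₀ hc
  have n0 : 0 < normSq V := normSq_pos.2 fun h => hV (by simp [h])
  have v1 : ∀ x : ℝ, (x:ℂ) = (1 - θ) * V + θ * (c:ℂ)⁻¹ → θ = 1 ∧ x = c⁻¹ := fun x h => by
    have h2 : θ = 1 := by
      have := congrArg im h
      simp [hV, sub_eq_zero] at this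
      exact this.symm
    subst h2
    exact ⟨rfl, by simpa [← ofReal_inv] using h⟩
  have y1 : ∀ x : ℝ, (1 - θ) * c + θ * V⁻¹ = (x:ℂ) → θ = 0 ∧ x = c := fun x h => by
    have h2 : θ = 0 := by
      have := congrArg im h
      simpa [hV, n0.ne'] using this
    subst h2
    exact ⟨rfl, by simpa [eq_comm] using h⟩
  have U0 : 0 < 1 - θ + θ * c⁻¹ := by nlinarith
  have X0 : 1 - θ + θ * c⁻¹ < (1 - θ) * c + θ := by
    rcases h0.eq_or_lt with h | h
    · subst h; simpa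
    · nlinarith
  refine ⟨hμ, by exact_mod_cast (by linarith : -e ≠ 0), ⟨?_, ?_, fun h => ?_, ?_⟩,
    ⟨?_, ?_, fun h => ?_, ?_⟩, ⟨fun h => ?_, fun h => ?_, fun h => ?_, fun h => ?_⟩⟩ <;>
    simp only at *
  · exact_mod_cast (by linarith : -e ≠ 0)
  · exact_mod_cast (by linarith : -e ≠ 1 - θ + θ * c⁻¹)
  · linarith [(v1 (-e) (by simpa using h)).2]
  · exact_mod_cast (by nlinarith : -e * -e ≠ 1)
  · exact_mod_cast (by linarith : (1 - θ) * c + θ ≠ 0)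
  · exact_mod_cast X0.ne'
  · obtain ⟨h2, h3⟩ := v1 ((1 - θ) * c + θ) (by simpa using h)
    rw [h2] at h3; linarith
  · exact_mod_cast (by nlinarith : -e * ((1 - θ) * c + θ) ≠ 1)
  · linarith [(y1 0 (by simpa using h)).2]
  · obtain ⟨h2, h3⟩ := y1 (1 - θ + θ * c⁻¹) (by simpa using h)
    rw [h2] at h3; linarith
  · have h2 := congrArg im h
    simp at h2
    have h3 : V.im * (θ + (1 - θ) * normSq V) = 0 := by field_simp at h2; linear_combination (-V.im) * h2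
    rcases h0.eq_or_lt with h | h
    · subst h; simp [hV, n0.ne'] at h3
    · have : 0 < θ + (1 - θ) * normSq V := by nlinarith
      simp [hV, this.ne'] at h3
  · have e0 : (e:ℂ) ≠ 0 := by exact_mod_cast he.ne'
    have := (y1 (-e⁻¹) (by push_cast; field_simp; linear_combination -h)).2
    have : 0 < e⁻¹ := by positivity
    linarith

end

end Pool.Agent.Lib.MP_1e9af3_an.G
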