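import Pool.Agent.Lib.MP_1e9af3_an.HDefs

/-! Holomorphic arcs with a uniform margin that avoid a bounded number of points. -/

namespace Pool.Agent.Lib.MP_1e9af3_an.H

open Set Filter Topology Complex Metric OnePoint

noncomputable section

/-- The twisted logarithmic spiral. -/
def arcJ (z₀ Λ : ℂ) (s : ℝ) (ξ : ℂ) : ℂ := z₀ * exp (ξ * Λ + I * s * (ξ * (1 - ξ)))

lemma arc_diff (z₀ Λ : ℂ) (s : ℝ) : Differentiable ℂ (arcJ z₀ Λ s) := by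
  unfold arcJ
  fun_prop

lemma arc_zero (z₀ Λ : ℂ) (s : ℝ) : arcJ z₀ Λ s 0 = z₀ := by simp [arcJ]

lemma arc_one (z₀ Λ : ℂ) (s : ℝ) : arcJ z₀ Λ s 1 = z₀ * exp Λ := by simp [arcJ]

lemma arc_norm (z₀ Λ : ℂ) (s x : ℝ) : ‖arcJ z₀ Λ s x‖ = ‖z₀‖ * Real.exp (x * Λ.re) := by
  unfold arcJ
  rw [norm_mul, norm_exp]
  simp

lemma arc_seg {ξ : ℂ} (h : ξ ∈ segment ℝ (0:ℂ) 1) : ∃ x : ℝ, 0 ≤ x ∧ x ≤ 1 ∧ ξ = x := by
  obtain ⟨a, b, ha, hb, hab, rfl⟩ := h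
  exact ⟨b, hb, by linarith, by simp⟩

lemma arc_countable {z₀ Λ y : ℂ} (h0 : z₀ ≠ 0) (hΛ : Λ.re ≠ 0) (y0 : y ≠ z₀)
    (y1 : y ≠ z₀ * exp Λ) : {s : ℝ | ∃ x : ℝ, arcJ z₀ Λ s x = y}.Countable := by
  rcases {s : ℝ | ∃ x : ℝ, arcJ z₀ Λ s x = y}.eq_empty_or_nonempty with he | ⟨s₀, x₀, hx₀⟩
  · rw [he]
    exact countable_empty
  have x0 : x₀ ≠ 0 := by
    rintro rfl
    exact y0 (by rw [← hx₀, ofReal_zero, arc_zero])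
  have x1 : x₀ ≠ 1 := by
    rintro rfl
    exact y1 (by rw [← hx₀, ofReal_one, arc_one])
  have hc : x₀ * (1 - x₀) ≠ 0 := mul_ne_zero x0 (sub_ne_zero.2 x1.symm)
  refine (countable_range fun n : ℤ => s₀ + n * (2 * Real.pi) / (x₀ * (1 - x₀))).mono ?_
  rintro s ⟨x, hx⟩
  have hn : ‖z₀‖ * Real.exp (x * Λ.re) = ‖z₀‖ * Real.exp (x₀ * Λ.re) := by
    rw [← arc_norm z₀ Λ s, ← arc_norm z₀ Λ s₀, hx, hx₀]
  have hxx : x = x₀ :=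
    mul_right_cancel₀ hΛ (Real.exp_injective (mul_left_cancel₀ (norm_ne_zero_iff.2 h0) hn))
  subst hxx
  have he := mul_left_cancel₀ h0 (hx.trans hx₀.symm)
  obtain ⟨n, hn⟩ := exp_eq_exp_iff_exists_int.1 he
  have him := congrArg Complex.im hn
  simp at him
  refine ⟨n, ?_⟩
  show s₀ + n * (2 * Real.pi) / (x * (1 - x)) = s
  field_simp
  linarith

lemma arc_single {R₁ R₂ : ℝ} (h1 : 0 < R₁) {z₀ z₁ : ℂ} (m0 : z₀ ∈ ann R₁ R₂) (m1 : z₁ ∈ ann R₁ R₂)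
    (hne : ‖z₁‖ ≠ ‖z₀‖) {F : Set ℂ} (hF : F.Finite) (f0 : z₀ ∉ F) (f1 : z₁ ∉ F) :
    ∃ j : ℂ → ℂ, Differentiable ℂ j ∧ j 0 = z₀ ∧ j 1 = z₁ ∧
      ∀ ξ ∈ segment ℝ (0:ℂ) 1, j ξ ∈ ann R₁ R₂ ∧ j ξ ∉ F := by
  have n0 : 0 < ‖z₀‖ := h1.trans m0.1
  have n1 : 0 < ‖z₁‖ := h1.trans m1.1
  have h0 : z₀ ≠ 0 := norm_pos_iff.1 n0
  have h0' : z₁ ≠ 0 := norm_pos_iff.1 n1
  obtain ⟨Λ, hΛ⟩ : ∃ Λ : ℂ, z₀ * exp Λ = z₁ :=
    ⟨log (z₁ / z₀), by rw [exp_log (div_ne_zero h0' h0)]; field_simp⟩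
  have hn : ‖z₀‖ * Real.exp Λ.re = ‖z₁‖ := by rw [← hΛ, norm_mul, norm_exp]
  have hre : Λ.re ≠ 0 := by
    intro h
    rw [h, Real.exp_zero, mul_one] at hn
    exact hne hn.symm
  have hB : (⋃ y ∈ F, {s : ℝ | ∃ x : ℝ, arcJ z₀ Λ s x = y}).Countable :=
    hF.countable.biUnion fun y hy =>
      arc_countable h0 hre (fun h => f0 (h ▸ hy)) (fun h => f1 (by rw [← hΛ, ← h]; exact hy))
  obtain ⟨s, hs⟩ := (hB.dense_compl ℝ).nonempty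
  refine ⟨arcJ z₀ Λ s, arc_diff _ _ _, arc_zero _ _ _, by rw [arc_one, hΛ], ?_⟩
  intro ξ hξ
  obtain ⟨x, x0, x1, rfl⟩ := arc_seg hξ
  refine ⟨?_, fun h => hs (mem_biUnion h ⟨x, rfl⟩)⟩
  have key : ∀ c : ℝ, c ≤ 0 → Real.exp c ≤ 1 := fun c hc => Real.exp_le_one_iff.2 hc
  show R₁ < ‖arcJ z₀ Λ s x‖ ∧ ‖arcJ z₀ Λ s x‖ < R₂
  rw [arc_norm]
  rcases le_total 0 Λ.re with hp | hp
  · have a1 : 1 ≤ Real.exp (x * Λ.re) := Real.one_le_exp (mul_nonneg x0 hp)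
    have a2 : Real.exp (x * Λ.re) ≤ Real.exp Λ.re := Real.exp_le_exp.2 (by nlinarith)
    have a3 := mul_le_mul_of_nonneg_left a1 n0.le
    have a4 := mul_le_mul_of_nonneg_left a2 n0.le
    exact ⟨by linarith [m0.1], by linarith [m1.2]⟩
  · have a1 : Real.exp (x * Λ.re) ≤ 1 := key _ (mul_nonpos_of_nonneg_of_nonpos x0 hp)
    have a2 : Real.exp Λ.re ≤ Real.exp (x * Λ.re) := Real.exp_le_exp.2 (by nlinarith)
    have a3 := mul_le_mul_of_nonneg_left a1 n0.le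
    have a4 := mul_le_mul_of_nonneg_left a2 n0.le
    exact ⟨by linarith [m1.1], by linarith [m0.2]⟩

lemma arc_circle {r : ℝ} (hr : 0 < r) : {z : ℂ | ‖z‖ = r}.Infinite := by
  have hc : IsPreconnected (sphere (0:ℂ) r) :=
    (isConnected_sphere (by simp) (0:ℂ) hr.le).isPreconnected
  have he : {z : ℂ | ‖z‖ = r} = sphere (0:ℂ) r := by
    ext z
    simp
  rw [he]
  refine hc.infinite_of_nontrivial ⟨(r : ℂ), by simp [hr.le], -(r : ℂ), by simp [hr.le], ?_⟩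
  intro h
  have := congrArg Complex.re h
  simp at this
  linarith

lemma arc_pad {P : Set ℂ} (hP : P.Finite) {N : ℕ} (hN : P.ncard ≤ N) {B : ℝ} (hB : 0 ≤ B)
    (hb : ∀ y ∈ P, ‖y‖ ≤ B) : ∃ π : Fin N → ℂ, (∀ i, ‖π i‖ ≤ B) ∧ ∀ y ∈ P, ∃ i, π i = y := by
  have hl : hP.toFinset.toList.length ≤ N := by
    rw [Finset.length_toList, ← ncard_eq_toFinset_card P hP]
    exact hN
  refine ⟨fun i => hP.toFinset.toList.getD i 0, fun i => ?_, fun y hy => ?_⟩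
  · by_cases hi : (i : ℕ) < hP.toFinset.toList.length
    · show ‖hP.toFinset.toList.getD i 0‖ ≤ B
      rw [List.getD_eq_getElem _ _ hi]
      exact hb _ (hP.mem_toFinset.1 (Finset.mem_toList.1 (List.getElem_mem hi)))
    · show ‖hP.toFinset.toList.getD i 0‖ ≤ B
      rw [List.getD_eq_default _ _ (not_lt.1 hi), norm_zero]
      exact hB
  · obtain ⟨i, hi, rfl⟩ := List.getElem_of_mem (Finset.mem_toList.2 (hP.mem_toFinset.2 hy))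
    exact ⟨⟨i, hi.trans_le hl⟩, List.getD_eq_getElem _ _ hi⟩

lemma arc_local {T : Type*} [TopologicalSpace T] {G : T → ℂ} {R₁ R₂ : T → ℝ}
    (c1 : Continuous R₁) (c2 : Continuous R₂) {t₀ : T} (cG : ContinuousAt G t₀) {N : ℕ}
    {π₀ : Fin N → ℂ} {j : ℂ → ℂ} (hj : Continuous j)
    (hs : ∀ ξ ∈ segment ℝ (0:ℂ) 1, j ξ ∈ ann (R₁ t₀) (R₂ t₀) ∧ j ξ ∉ range π₀) :
    ∀ᶠ z : ℝ × (T × (Fin N → ℂ)) in 𝓝 (0, (t₀, π₀)), ∀ ξ ∈ VV z.1,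
      j ξ + ξ * (G z.2.1 - G t₀) ∈ ann (R₁ z.2.1) (R₂ z.2.1) ∧
        ∀ i, j ξ + ξ * (G z.2.1 - G t₀) ≠ z.2.2 i := by
  have hK : IsCompact (segment ℝ (0:ℂ) 1) := by
    rw [segment_eq_image]
    exact isCompact_Icc.image (by fun_prop)
  have h1 : ∀ᶠ w : ℂ × (T × (Fin N → ℂ)) in 𝓝 (0, (t₀, π₀)), ∀ ξ ∈ segment ℝ (0:ℂ) 1,
      j (ξ + w.1) + (ξ + w.1) * (G w.2.1 - G t₀) ∈ ann (R₁ w.2.1) (R₂ w.2.1) ∧
        ∀ i, j (ξ + w.1) + (ξ + w.1) * (G w.2.1 - G t₀) ≠ w.2.2 i := by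
    refine hK.eventually_forall_of_forall_eventually
      (P := fun (w : ℂ × (T × (Fin N → ℂ))) ξ =>
        j (ξ + w.1) + (ξ + w.1) * (G w.2.1 - G t₀) ∈ ann (R₁ w.2.1) (R₂ w.2.1) ∧
          ∀ i, j (ξ + w.1) + (ξ + w.1) * (G w.2.1 - G t₀) ≠ w.2.2 i) fun ξ hξ => ?_
    have cT : Continuous fun z : (ℂ × (T × (Fin N → ℂ))) × ℂ => z.1.2.1 := by fun_prop
    have cG' : ContinuousAt (fun z : (ℂ × (T × (Fin N → ℂ))) × ℂ => G z.1.2.1)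
        ((0, (t₀, π₀)), ξ) := ContinuousAt.comp (g := G) cG cT.continuousAt
    have cS : Continuous fun z : (ℂ × (T × (Fin N → ℂ))) × ℂ => z.2 + z.1.1 := by fun_prop
    have cJ : ContinuousAt (fun z : (ℂ × (T × (Fin N → ℂ))) × ℂ =>
        j (z.2 + z.1.1) + (z.2 + z.1.1) * (G z.1.2.1 - G t₀)) ((0, (t₀, π₀)), ξ) :=
      (hj.comp cS).continuousAt.add (cS.continuousAt.mul (cG'.sub continuousAt_const))
    obtain ⟨⟨a1, a2⟩, a3⟩ := hs ξ hξ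
    have e1 := ((c1.comp cT).continuousAt (x := ((0, (t₀, π₀)), ξ))).eventually_lt cJ.norm
      (by simpa using a1)
    have e2 := cJ.norm.eventually_lt ((c2.comp cT).continuousAt (x := ((0, (t₀, π₀)), ξ)))
      (by simpa using a2)
    have e3 : ∀ᶠ z : (ℂ × (T × (Fin N → ℂ))) × ℂ in 𝓝 ((0, (t₀, π₀)), ξ), ∀ i,
        j (z.2 + z.1.1) + (z.2 + z.1.1) * (G z.1.2.1 - G t₀) ≠ z.1.2.2 i := by
      refine eventually_all.2 fun i => ?_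
      have cP : Continuous fun z : (ℂ × (T × (Fin N → ℂ))) × ℂ => z.1.2.2 i := by fun_prop
      have hne : j ξ - π₀ i ≠ 0 := sub_ne_zero.2 fun h => a3 ⟨i, h.symm⟩
      have := (cJ.sub cP.continuousAt).eventually_ne (y := 0) (by simpa using hne)
      exact this.mono fun z hz => sub_ne_zero.1 hz
    filter_upwards [e1, e2, e3] with z b1 b2 b3
    exact ⟨⟨b1, b2⟩, b3⟩
  rw [nhds_prod_eq] at h1 ⊢
  obtain ⟨pa, ha, pb, hb, hab⟩ := eventually_prod_iff.1 h1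
  obtain ⟨τ₀, hτ₀, hball⟩ := Metric.eventually_nhds_iff.1 ha
  refine eventually_prod_iff.2 ⟨fun τ => τ < τ₀, eventually_lt_nhds hτ₀, pb, hb, ?_⟩
  intro τ hτ y hy ξ hξ
  obtain ⟨ξ₁, hξ₁, hd⟩ := mem_thickening_iff.1 hξ
  have hη : pa (ξ - ξ₁) := hball (by rw [dist_zero_right, ← dist_eq_norm]; exact hd.trans hτ)
  have := hab hη hy ξ₁ hξ₁
  simpa using this

theorem uniform_arcs {T : Type*} [TopologicalSpace T] [CompactSpace T] {g : T → ℂ → ℂ}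
    {ρ R₁ R₂ : T → ℝ} (c1 : Continuous R₁) (c2 : Continuous R₂) (h1 : ∀ t, 0 < R₁ t)
    (h2 : ∀ t, R₁ t < ρ t ∧ ρ t < R₂ t)
    (cg : ∀ t z, ‖z‖ = ρ t → ContinuousAt (fun t' => g t' z) t)
    (h3 : ∀ t z, ‖z‖ = ρ t → g t z ∈ ann (R₁ t) (R₂ t) ∧ ‖g t z‖ ≠ ρ t)
    (h4 : ∀ t y, {z | ‖z‖ = ρ t ∧ g t z = y}.Finite) (N : ℕ) :
    ∃ τ > 0, ∀ t, ∀ P : Set ℂ, P.Finite → P.ncard ≤ N → P ⊆ ann (R₁ t) (R₂ t) →
      ∃ j : ℂ → ℂ, Differentiable ℂ j ∧ j 1 = g t (j 0) ∧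
        ∀ ξ ∈ VV τ, j ξ ∈ ann (R₁ t) (R₂ t) ∧ j ξ ∉ P := by
  obtain ⟨B, hB⟩ := (isCompact_range c2).bddAbove
  have hB' : ∀ t, R₂ t ≤ B := fun t => hB ⟨t, rfl⟩
  have hK : IsCompact ((univ : Set T) ×ˢ (Set.pi univ fun _ : Fin N => closedBall (0:ℂ) B)) :=
    isCompact_univ.prod (isCompact_univ_pi fun _ => isCompact_closedBall _ _)
  have main := hK.eventually_forall_of_forall_eventually (x₀ := (0:ℝ))
    (P := fun τ (y : T × (Fin N → ℂ)) => ∃ j : ℂ → ℂ, Differentiable ℂ j ∧ j 1 = g y.1 (j 0) ∧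
      ∀ ξ ∈ VV τ, j ξ ∈ ann (R₁ y.1) (R₂ y.1) ∧ ∀ i, j ξ ≠ y.2 i) (by
    rintro ⟨t₀, π₀⟩ -
    have hfin : (range π₀ ∪ ⋃ i, {z | ‖z‖ = ρ t₀ ∧ g t₀ z = π₀ i}).Finite :=
      (finite_range π₀).union (finite_iUnion fun i => h4 t₀ (π₀ i))
    obtain ⟨z₀, hz, hz'⟩ := (arc_circle ((h1 t₀).trans (h2 t₀).1)).exists_notMem_finite hfin
    have hz0 : ‖z₀‖ = ρ t₀ := hz
    have f0 : z₀ ∉ range π₀ := fun h => hz' (Or.inl h)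
    have f1 : g t₀ z₀ ∉ range π₀ := by
      rintro ⟨i, hi⟩
      exact hz' (Or.inr (mem_iUnion.2 ⟨i, hz0, hi.symm⟩))
    have m0 : z₀ ∈ ann (R₁ t₀) (R₂ t₀) := ⟨hz0 ▸ (h2 t₀).1, hz0 ▸ (h2 t₀).2⟩
    obtain ⟨j, dj, j0, j1, hs⟩ := arc_single (h1 t₀) m0 (h3 t₀ z₀ hz0).1
      (hz0 ▸ (h3 t₀ z₀ hz0).2) (finite_range π₀) f0 f1
    have hl := arc_local c1 c2 (cg t₀ z₀ hz0) dj.continuous hs
    refine hl.mono fun z hz => ⟨fun ξ => j ξ + ξ * (g z.2.1 z₀ - g t₀ z₀), ?_, ?_, hz⟩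
    · fun_prop
    · simp [j0, j1])
  obtain ⟨τ, hτ, τ0⟩ :=
    ((main.filter_mono (nhdsWithin_le_nhds (s := Ioi (0:ℝ)))).and self_mem_nhdsWithin).exists
  refine ⟨τ, τ0, fun t P hP hN hsub => ?_⟩
  have B0 : 0 ≤ B := (((h1 t).trans (h2 t).1).trans (h2 t).2).le.trans (hB' t)
  obtain ⟨π, π1, π2⟩ := arc_pad hP hN B0 fun y hy => (hsub hy).2.le.trans (hB' t)
  obtain ⟨j, dj, j1, hs⟩ := hτ (t, π) ⟨mem_univ _, fun i _ => by simpa using π1 i⟩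
  refine ⟨j, dj, j1, fun ξ hξ => ⟨(hs ξ hξ).1, fun h => ?_⟩⟩
  obtain ⟨i, hi⟩ := π2 _ h
  exact (hs ξ hξ).2 i hi.symm

end

end Pool.Agent.Lib.MP_1e9af3_an.H
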