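import Pool.Agent.Lib.MP_1e9af3_an.HConf
import Pool.Agent.Lib.MP_1e9af3_an.GCases

/-! Position of a ring of type two at exit parameters. -/

namespace Pool.Agent.Lib.MP_1e9af3_an.H

open Set Filter Topology Complex Metric OnePoint

noncomputable section

variable {q : ℕ} {μ x ε : ℂ} {α β e a b a₁ b₁ r : ℝ} {χ : ℂ → ℂ}

lemma ind_ray (em : Emb χ a₁ b₁) (hr : r ∈ Ioo a₁ b₁) {z d : ℂ} (hd : d ≠ 0)
    (h : ∀ s : ℝ, 0 ≤ s → z + s * d ∉ χ '' sphere 0 r) : ind χ r z = 0 := by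
  obtain ⟨M, M0, hM⟩ := em.exists_bound hr
  have d0 := norm_pos_iff.2 hd
  have s0 : 0 ≤ (M + ‖z‖) / ‖d‖ := by positivity
  have := em.ind_eq hr (S := (fun s : ℝ => z + s * d) '' Ici 0)
    (isPreconnected_Ici.image _ (by fun_prop)) (z := z) (z' := z + ((M + ‖z‖) / ‖d‖ : ℝ) * d)
    (by rintro _ ⟨s, hs, rfl⟩; exact h s hs) ⟨0, self_mem_Ici, by simp⟩ ⟨_, s0, rfl⟩
  refine this.trans (hM _ ?_).2
  have h1 := norm_sub_norm_le (((M + ‖z‖) / ‖d‖ : ℝ) * d) (-z)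
  rw [sub_neg_eq_add, add_comm _ z, norm_neg, norm_mul, Complex.norm_real, Real.norm_of_nonneg s0,
    div_mul_cancel₀ _ d0.ne'] at h1
  linarith

lemma wind_ne {μ e : ℂ} {p : Pm} (h : G.ND q μ e p) (hα : Irrational α)
    (hL : Lin (G.fam q μ e p).1 α χ a₁ b₁) (ha : 0 < a₁) (hr : r ∈ Ioo a₁ b₁)
    (ht : Typ (q + 4) α (G.fam q μ e p).1 ((↑) '' (χ '' ann a₁ b₁)) 2) :
    wind (fun θ => G.dn q e p (crv χ r θ) 1) ≠ 0 := fun h0 => by
  have hm := (h.typ_mod hα hL ha hr ht).dvd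
  rw [h0] at hm
  have nc := hL.toEmb.nout_cases (hr.1.trans hr.2)
  have := G.dvd_cases hm (by omega) (by omega)
  omega

lemma Ex.x0 (h : Ex q β e a b μ x ε) : 1000 ≤ a ∧ 2 * a < b ∧ 4000 ≤ ‖x‖ ∧ a / ‖x‖ ≤ 1 / 4 ∧
    e ≤ 1 / (2 * ‖x‖) := by
  have h1 : (1:ℝ) ≤ 5 ^ q := one_le_pow₀ (by norm_num)
  have h2 : (1:ℝ) ≤ 3 ^ q := one_le_pow₀ (by norm_num)
  have h3 := h.a0
  have h4 : 1000 ≤ a := by linarith
  have h5 : a + 2 ≤ (a + 2) ^ 3 := le_self_pow₀ (by linarith) (by norm_num)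
  have h6 : 8 * 1 * (a + 2) ≤ 8 * 3 ^ q * (a + 2) ^ 3 := by gcongr
  have h7 := h.b0
  have h8 := h.xb
  have h9 := h.xe
  have := h.hβ
  refine ⟨h4, by linarith, by linarith, ?_, ?_⟩
  · rw [div_le_iff₀ (by linarith)]; linarith
  · rw [le_div_iff₀ (by linarith)]; linarith

theorem exit_cases (h : Ex q β e a b μ x ε) (nd : G.ND q μ (-e) (ε, x, -1, 1, 1))
    (hα : Irrational α) (hL : Lin (G.fam q μ (-e) (ε, x, -1, 1, 1)).1 α χ a₁ b₁) (ha : 0 < a₁)
    (hr : r ∈ Ioo a₁ b₁)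
    (ht : Typ (q + 4) α (G.fam q μ (-e) (ε, x, -1, 1, 1)).1 ((↑) '' (χ '' ann a₁ b₁)) 2) :
    nout χ a₁ b₁ = 0 ∧ wind (fun θ => dx q e x ε (crv χ r θ)) = 1 ∧
    (∀ z ∈ χ '' sphere 0 r, ‖z‖ < a / ‖x‖) ∧
    (((0:ℂ) ∈ side χ r 1 ∧ (∀ z ∈ side χ r 1, nx q μ x ε z = 0 → z = 0) ∧
      ∀ z ∈ side χ r 1, dx q e x ε z = 0 → z = -e) ∨
    (ind χ r 0 = 0 ∧ (∃ z ∈ χ '' sphere 0 r, ‖z‖ ≤ e) ∧ ∃ z ∈ χ '' sphere 0 r, 1 / ‖x‖ ≤ ‖z‖)) := by
  have hm := (nd.typ_mod hα hL ha hr ht).dvd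
  have em := hL.toEmb
  have r0 : 0 ≤ r := ha.le.trans hr.1.le
  obtain ⟨a0, b0, x1, x2, x3⟩ := h.x0
  have hε : ε ≠ 0 := nd.h0.1
  have hx : x ≠ 0 := nd.h1.1
  have hμ := nd.hμ
  have n : ∀ z ∈ ({0, -(e:ℂ), ε⁻¹, x⁻¹, 1} : Set ℂ), z ∉ χ '' sphere 0 r := fun z hz h1 => by
    have := nd.nm_ne hα hL hr h1
    simp only [mem_insert_iff, mem_singleton_iff] at hz
    rcases hz with rfl | rfl | rfl | rfl | rfl <;> simp [G.nm, G.dn, hε, hx] at this
  have w : ∀ z, z ∉ χ '' sphere 0 r → HasWind (fun θ => crv χ r θ - z) (ind χ r z) := fun z hz =>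
    (em.loop_sub hr hz).hasWind
  have wq : HasWind (fun θ => dx q e x ε (crv χ r θ)) (ind χ r (-e) + (q + 1 : ℕ) * ind χ r 1) := by
    have := (hasWind_const (c := (-1) ^ (q + 1)) (by simp)).mul
      ((w _ (n (-e) (by simp))).mul ((w _ (n 1 (by simp))).pow (q + 1)))
    rw [zero_add] at this
    exact this.congr fun θ => by
      simp only [dx, G.dn]
      rw [mul_left_comm, ← mul_pow]; ring
  have w1 := wq.wind_eq
  have i0 := em.ind_cases hr (n 0 (by simp))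
  have ie := em.ind_cases hr (n (-e) (by simp))
  have iE := em.ind_cases hr (n ε⁻¹ (by simp))
  have ix := em.ind_cases hr (n x⁻¹ (by simp))
  have i1 := em.ind_cases hr (n 1 (by simp))
  have nc := em.nout_cases (hr.1.trans hr.2)
  have m1 := G.mul_cases (q + 1 : ℕ) (i := ind χ r 1) (by omega)
  have hm' := G.dvd_cases hm (by simp only [dx] at w1; omega) (by simp only [dx] at w1; omega)
  have hs : ∀ z ∈ χ '' sphere 0 r, ∃ y ∈ χ '' sphere 0 r, nx q μ x ε z = y * dx q e x ε z :=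
    fun z hz => by
      obtain ⟨y, h1, h2⟩ := G.succ_mem hL hr hz
      exact ⟨y, h1, nd.mero.eq_coe.1 h2⟩
  have ball0 : ∀ ρ, e ≤ ρ → (∀ z ∈ χ '' sphere 0 r, ρ < ‖z‖) → ind χ r 0 = ind χ r (-e) :=
    fun ρ h1 h2 => em.ind_eq hr (convex_closedBall (0:ℂ) ρ).isPreconnected
      (fun z hz h3 => (h2 z h3).not_ge (mem_closedBall_zero_iff.1 hz))
      (mem_closedBall_self (h.e0.le.trans h1)) (by simpa [abs_of_pos h.e0] using h1)
  rcases h.confine (em.isCompact_crv hr) (em.isPreconnected_crv hr) hs with hc | ⟨c1, c2, c3⟩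
  · have big : ∀ z : ℂ, ‖z‖ = 1 → z ∉ χ '' sphere 0 r ∧ ind χ r z = 0 := fun z hz =>
      ⟨fun h1 => by linarith [hc z h1], em.ind_large hr fun θ => by
        linarith [hc _ (crv_mem r0 θ)]⟩
    have k1 := (big 1 (by simp)).2
    have k2 := big (-1) (by simp)
    have wp : HasWind (fun θ => nx q μ x ε (crv χ r θ))
        (2 * ind χ r 0 + ind χ r x⁻¹ + q * ind χ r (-1) + ind χ r ε⁻¹) := by
      have := (hasWind_const (c := μ * x * ε) (by simp [hμ, hx, hε])).mul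
        (((((w _ (n 0 (by simp))).pow 2).mul (w _ (n x⁻¹ (by simp)))).mul
          ((w _ k2.1).pow q)).mul (w _ (n ε⁻¹ (by simp))))
      rw [zero_add] at this
      exact this.congr fun θ => by
        simp only [nx, G.nm, show ∀ z : ℂ, 1 - -1 * z = z - -1 from fun z => by ring]
        field_simp; ring
    have bal := wp.unique ((((w _ (n 0 (by simp))).shift α).mul wq).congr fun θ => by
      rw [nx, nd.mero.eq_coe.1 (hL.map_crv hr θ), sub_zero])
    rw [k2.2, mul_zero] at bal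
    simp only [dx] at w1
    have h0 : nout χ a₁ b₁ = 0 := by omega
    refine ⟨h0, by simp only [dx]; omega, hc, ?_⟩
    by_cases k0 : ind χ r 0 = 1
    · left
      have no : ∀ z ∈ side χ r 1, ∀ y : ℂ, ind χ r y⁻¹ = 0 → 1 - y * z ≠ 0 :=
        fun z hz y h1 h2 => by
          rw [← eq_inv_of_mul_eq_one_right (sub_eq_zero.1 h2).symm, hz.2] at h1
          exact one_ne_zero h1
      refine ⟨⟨n 0 (by simp), k0⟩, fun z hz h1 => ?_, fun z hz h1 => ?_⟩
      · simpa [G.nm, hμ, no z hz x (by omega), no z hz ε (by omega), -neg_mul,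
          no z hz (-1) (by simpa using k2.2)] using h1
      · simpa [G.dn, -one_mul, no z hz 1 (by simpa using k1), add_eq_zero_iff_eq_neg] using h1
    · right
      refine ⟨by omega, ?_, ?_⟩
      · by_contra hn
        push Not at hn
        have := ball0 e le_rfl hn
        omega
      · by_contra hn
        push Not at hn
        have h1 := em.ind_large hr (z := x⁻¹) fun θ => by simpa using hn _ (crv_mem r0 θ)
        have h2 := em.ind_large hr (z := ε⁻¹) fun θ => (hn _ (crv_mem r0 θ)).trans_le (by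
          rw [norm_inv, one_div]; exact inv_anti₀ (norm_pos_iff.2 hε) h.ex)
        omega
  · exfalso
    have k1 := ball0 _ (x3.trans (by
      rw [div_le_div_iff₀ (by linarith) (by linarith)]; nlinarith)) c1
    obtain ⟨d, d0, hd⟩ := c2
    have k2 := ind_ray em hr (z := 0) d0 (by simpa using hd)
    simp only [dx] at w1
    rcases Nat.eq_zero_or_pos q with h0 | h0
    · obtain ⟨d, d0, hd⟩ := c3 h0
      have k3 := ind_ray em hr d0 hd
      omega
    · omega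

end

end Pool.Agent.Lib.MP_1e9af3_an.H
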