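import Pool.Agent.Lib.MP_1e9af3_an.HDefs

/-! Definite discs in the image of a bounded holomorphic map; counting postcritical points. -/

namespace Pool.Agent.Lib.MP_1e9af3_an.H

open Set Filter Topology Complex Metric OnePoint

noncomputable section

theorem definite_disc {τ δ : ℝ} (M : ℝ) (hτ : 0 < τ) (hδ : 0 < δ) : ∃ r > 0, ∀ j : ℂ → ℂ,
    DifferentiableOn ℂ j (VV τ) → (∀ ξ ∈ VV τ, ‖j ξ‖ ≤ M) → δ ≤ ‖j 0 - j 1‖ →
      ∀ ξ ∈ segment ℝ (0:ℂ) 1, ball (j ξ) r ⊆ j '' VV τ := by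
  by_contra hn
  have hn' : ∀ n : ℕ, ∃ j : ℂ → ℂ, DifferentiableOn ℂ j (VV τ) ∧ (∀ ξ ∈ VV τ, ‖j ξ‖ ≤ M) ∧
      δ ≤ ‖j 0 - j 1‖ ∧ ∃ ξ ∈ segment ℝ (0:ℂ) 1, ∃ w, ‖w - j ξ‖ < 1 / ((n:ℝ) + 1) ∧
        w ∉ j '' VV τ := fun n => by
    by_contra h
    refine hn ⟨1 / ((n:ℝ) + 1), by positivity, fun j h1 h2 h3 ξ h4 w h5 => ?_⟩
    by_contra h6
    exact h ⟨j, h1, h2, h3, ξ, h4, w, by simpa [dist_eq_norm] using h5, h6⟩
  choose j hd hb hδ' ξ hξ w hw1 hw2 using hn'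
  obtain ⟨g, gd, gl, gp⟩ := montel (hyperfilter ℕ) (VV_open τ) hd hb
  have hseg : IsCompact (segment ℝ (0:ℂ) 1) := by
    rw [segment_eq_image]
    exact isCompact_Icc.image (by fun_prop)
  obtain ⟨x, hx, hxl⟩ := hseg.ultrafilter_le_nhds' ((hyperfilter ℕ).map ξ)
    (Ultrafilter.mem_map.2 (univ_mem' hξ))
  have hxl' : Tendsto ξ (hyperfilter ℕ) (𝓝 x) := hxl
  have hxV : x ∈ VV τ := seg_sub hτ hx
  have ga : AnalyticOnNhd ℂ g (VV τ) := gd.analyticOnNhd (VV_open τ)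
  have gne : δ ≤ ‖g 0 - g 1‖ :=
    ge_of_tendsto' ((gp 0 (zero_mem_VV hτ)).sub (gp 1 (one_mem_VV hτ))).norm hδ'
  have iso : ∀ᶠ z in 𝓝[≠] x, g z ≠ g x := by
    refine ((ga x hxV).eventually_eq_or_eventually_ne analyticAt_const).resolve_left fun h => ?_
    have h1 : EqOn g (fun _ => g x) (VV τ) :=
      ga.eqOn_of_preconnected_of_eventuallyEq analyticOnNhd_const (VV_convex τ).isPreconnected hxV h
    rw [h1 (zero_mem_VV hτ), h1 (one_mem_VV hτ), sub_self, norm_zero] at gne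
    linarith
  obtain ⟨ρ, ρ0, hρ⟩ := Metric.nhds_basis_closedBall.eventually_iff.1
    ((eventually_nhdsWithin_iff.1 iso).and ((VV_open τ).mem_nhds hxV))
  have hsub : closedBall x ρ ⊆ VV τ := fun z hz => (hρ hz).2
  have gc : ContinuousOn (fun z => ‖g z - g x‖) (sphere x ρ) :=
    ((gd.continuousOn.mono (sphere_subset_closedBall.trans hsub)).sub continuousOn_const).norm
  obtain ⟨z₀, hz₀, hmin⟩ := (isCompact_sphere x ρ).exists_isMinOn
    (NormedSpace.sphere_nonempty.2 ρ0.le) gc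
  set m := ‖g z₀ - g x‖ with hm
  have m0 : 0 < m := by
    refine norm_pos_iff.2 (sub_ne_zero.2 ((hρ (sphere_subset_closedBall hz₀)).1 fun h => ?_))
    rw [mem_singleton_iff.1 h, mem_sphere, dist_self] at hz₀
    exact ρ0.ne hz₀
  have u1 : TendstoUniformlyOn j g (hyperfilter ℕ) (closedBall x ρ) :=
    (tendstoLocallyUniformlyOn_iff_tendstoUniformlyOn_of_compact (isCompact_closedBall x ρ)).1
      (gl.mono hsub)
  have e1 := Metric.tendstoUniformlyOn_iff.1 u1 (m / 8) (by positivity)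
  have e2 : ∀ᶠ n in (hyperfilter ℕ : Filter ℕ), ξ n ∈ closedBall x ρ :=
    hxl'.eventually (closedBall_mem_nhds x ρ0)
  have e3 : ∀ᶠ n in (hyperfilter ℕ : Filter ℕ), dist (g (ξ n)) (g x) < m / 8 :=
    ((ga x hxV).continuousAt.tendsto.comp hxl').eventually (ball_mem_nhds _ (by positivity))
  have e4 : ∀ᶠ n : ℕ in (hyperfilter ℕ : Filter ℕ), 1 / ((n:ℝ) + 1) < m / 8 :=
    (tendsto_one_div_add_atTop_nhds_zero_nat.mono_left
      (Nat.hyperfilter_le_atTop)).eventually (gt_mem_nhds (by positivity))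
  obtain ⟨n, ⟨a1, a2⟩, a3, a4⟩ := ((e1.and e2).and (e3.and e4)).exists
  have b1 : ‖w n - g x‖ < 3 * m / 8 := by
    have h1 := a1 _ a2
    have h2 := hw1 n
    rw [dist_eq_norm] at h1 a3
    have : w n - g x = (w n - j n (ξ n)) - (g (ξ n) - j n (ξ n)) + (g (ξ n) - g x) := by ring
    rw [this]
    linarith [norm_add_le ((w n - j n (ξ n)) - (g (ξ n) - j n (ξ n))) (g (ξ n) - g x),
      norm_sub_le (w n - j n (ξ n)) (g (ξ n) - j n (ξ n))]
  have dc : DiffContOnCl ℂ (fun z => j n z - w n) (ball x ρ) := by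
    refine DifferentiableOn.diffContOnCl ?_
    rw [closure_ball x ρ0.ne']
    exact ((hd n).mono hsub).sub_const _
  obtain ⟨z, hz, hz0⟩ := exists_zero_of_min (m := m / 2) ρ0 dc (fun z hz => by
      have h1 := a1 z (sphere_subset_closedBall hz)
      have h2 : m ≤ ‖g z - g x‖ := hmin hz
      rw [dist_eq_norm] at h1
      have : g z - g x = (g z - j n z) + (j n z - w n) + (w n - g x) := by ring
      rw [this] at h2
      linarith [norm_add₃_le (a := g z - j n z) (b := j n z - w n) (c := w n - g x)])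
    (by
      have h1 := a1 x (mem_closedBall_self ρ0.le)
      rw [dist_eq_norm] at h1
      have : j n x - w n = -((g x - j n x) + (w n - g x)) := by ring
      rw [this, norm_neg]
      linarith [norm_add_le (g x - j n x) (w n - g x)])
  exact hw2 n ⟨z, hsub (ball_subset_closedBall hz), sub_eq_zero.1 hz0⟩

lemma disc_iter {f : Sph → Sph} {Ω : Set ℂ} {z : ℕ → ℂ} {m : ℕ} {c : ℂ} (h0 : f c = (z 0 : ℂ))
    (h : Orb f Ω z m) : ∀ i ≤ m, f^[i + 1] c = (z i : ℂ) := by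
  intro i
  induction i with
  | zero => exact fun _ => h0
  | succ i ih =>
    intro hi
    rw [Function.iterate_succ_apply', ih (Nat.le_of_succ_le hi)]
    exact h.1 i hi

theorem pc_card {f : Sph → Sph} {p q : ℂ → ℂ} {Ω Φ : Set ℂ} {L D : ℕ} (t : Trap f Ω Φ L)
    (hC : {c | crit p q c = 0}.Finite) (hD : {c | crit p q c = 0}.ncard ≤ D) :
    (PC f p q Ω Φ).Finite ∧ (PC f p q Ω Φ).ncard ≤ D * L := by
  classical
  let T : ℂ → Set ℕ := fun c => {m | ∃ z : ℕ → ℂ, f c = (z 0 : ℂ) ∧ Orb f Ω z m ∧ z m ∈ Φ}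
  let φ : ℂ × ℕ → ℂ := fun a =>
    Function.invFun (fun y : ℂ => (y : Sph)) (f^[sInf (T a.1) + a.2 + 1] a.1)
  have hsub : PC f p q Ω Φ ⊆ ↑((hC.toFinset ×ˢ Finset.range L).image φ) := by
    rintro y ⟨hy, c, z, m, h1, h2, h3, rfl⟩
    have hm : m ∈ T c := ⟨z, h2, h3, hy⟩
    have hle : sInf (T c) ≤ m := Nat.sInf_le hm
    obtain ⟨z', k2, k3, k4⟩ := Nat.sInf_mem ⟨m, hm⟩
    obtain ⟨i, hi⟩ := Nat.exists_eq_add_of_le hle
    have e0 : z (sInf (T c)) = z' (sInf (T c)) :=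
      OnePoint.coe_injective ((disc_iter h2 h3 _ hle).symm.trans (disc_iter k2 k3 _ le_rfl))
    have hL : i < L := t.vis (fun k => z (sInf (T c) + k)) i
      ⟨fun k hk => h3.1 _ (by omega), fun k hk => h3.2 _ (by omega)⟩
      (by simpa [e0] using k4) (by simpa [← hi] using hy)
    refine Finset.mem_coe.2 (Finset.mem_image.2 ⟨(c, i), ?_, ?_⟩)
    · exact Finset.mem_product.2 ⟨hC.mem_toFinset.2 h1, Finset.mem_range.2 hL⟩
    · show Function.invFun _ (f^[sInf (T c) + i + 1] c) = z m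
      rw [← hi, disc_iter h2 h3 m le_rfl]
      exact Function.leftInverse_invFun OnePoint.coe_injective _
  refine ⟨(Finset.finite_toSet _).subset hsub, ?_⟩
  refine (Set.ncard_le_ncard hsub (Finset.finite_toSet _)).trans ?_
  rw [Set.ncard_coe_finset]
  refine Finset.card_image_le.trans ?_
  rw [Finset.card_product, Finset.card_range, ← Set.ncard_eq_toFinset_card _ hC]
  exact Nat.mul_le_mul_right _ hD

end

end Pool.Agent.Lib.MP_1e9af3_an.H
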