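import Pool.Agent.Lib.MP_1e9af3_an.HLift
import Pool.Agent.Lib.MP_1e9af3_an.HDisc

/-! Backward chains of holomorphic arcs accumulate at a fixed point. -/

namespace Pool.Agent.Lib.MP_1e9af3_an.H

open Set Filter Topology Complex Metric OnePoint

noncomputable section

/-- The invariant of the backward chain. -/
def ChInv (f : Sph → Sph) (Ω V : Set ℂ) (j₀ : ℂ → ℂ) (n : ℕ) (j : ℂ → ℂ) : Prop :=
  DifferentiableOn ℂ j V ∧ (∀ ξ ∈ V, ∃ z, Orb f Ω z n ∧ z 0 = j ξ ∧ z n = j₀ ξ) ∧ f (j 0) = j 1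

lemma ChInv.mem {f : Sph → Sph} {Ω V : Set ℂ} {j₀ j : ℂ → ℂ} {n : ℕ} (h : ChInv f Ω V j₀ n j)
    {ξ : ℂ} (hξ : ξ ∈ V) : j ξ ∈ Ω := by
  obtain ⟨z, hz, h0, -⟩ := h.2.1 ξ hξ
  exact h0 ▸ hz.2 0 (Nat.zero_le _)

lemma chain_sep {f : Sph → Sph} {Ω Φ : Set ℂ} {L : ℕ} (t : Trap f Ω Φ L) {z w : ℕ → ℂ} {n m : ℕ}
    (hz : Orb f Ω z n) (hw : Orb f Ω w m) (h0 : z 0 = w 0) (hn : z n ∈ Φ) (hm : w m ∈ Φ)
    (hle : n ≤ m) : m < n + L := by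
  have he : ∀ i ≤ n, z i = w i := by
    intro i
    induction i with
    | zero => exact fun _ => h0
    | succ i ih =>
      intro hi
      rw [← coe_eq_coe, ← hz.1 i (by omega), ← hw.1 i (by omega), ih (by omega)]
  obtain ⟨k, rfl⟩ := Nat.exists_eq_add_of_le hle
  have := t.vis (fun i => w (n + i)) k
    ⟨fun i hi => hw.1 (n + i) (by omega), fun i hi => hw.2 (n + i) (by omega)⟩
    (by simpa [← he n le_rfl] using hn) hm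
  omega

lemma chain_step {f : Sph → Sph} {p q : ℂ → ℂ} (hf : Mero f p q) (hi : f ∞ = ∞) {Ω Φ : Set ℂ}
    {L : ℕ} (t : Trap f Ω Φ L) {τ : ℝ} (hτ : 0 < τ) {j₀ : ℂ → ℂ}
    (m0 : ∀ ξ ∈ VV τ, j₀ ξ ∈ Φ ∧ j₀ ξ ∉ PC f p q Ω Φ) {n : ℕ} {j : ℂ → ℂ}
    (h : ChInv f Ω (VV τ) j₀ n j) :
    ∃ j', ChInv f Ω (VV τ) j₀ (n + 1) j' ∧ j' 1 = j 0 ∧ ∀ ξ ∈ VV τ, f (j' ξ) = j ξ := by
  obtain ⟨j', d, e1, e⟩ := lift_step hf hi (VV_open τ) (VV_convex τ) h.1 (fun ξ hξ c hc h0 => by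
    obtain ⟨z, hz, z0, zn⟩ := h.2.1 ξ hξ
    exact (m0 ξ hξ).2 ⟨(m0 ξ hξ).1, c, z, n, h0, by rw [hc, z0], hz, zn⟩) (one_mem_VV hτ) h.2.2
  have hΩ : j' '' VV τ ⊆ Ω := by
    refine ((VV_convex τ).isPreconnected.image _ d.continuousOn).subset_of_closure_inter_subset
      t.op ⟨_, ⟨1, one_mem_VV hτ, rfl⟩, e1 ▸ h.mem (zero_mem_VV hτ)⟩ ?_
    rintro _ ⟨h1, ξ, hξ, rfl⟩
    by_contra h2
    exact t.bd _ h1 h2 _ (h.mem hξ) (e ξ hξ)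
  refine ⟨j', ⟨d, fun ξ hξ => ?_, by rw [e 0 (zero_mem_VV hτ), e1]⟩, e1, e⟩
  obtain ⟨z, hz, z0, zn⟩ := h.2.1 ξ hξ
  refine ⟨fun i => Nat.casesOn i (j' ξ) z, ⟨fun i hi => ?_, fun i hi => ?_⟩, rfl, zn⟩
  · cases i with
    | zero => exact (e ξ hξ).trans (by rw [← z0])
    | succ i => exact hz.1 i (by omega)
  · cases i with
    | zero => exact hΩ ⟨ξ, hξ, rfl⟩
    | succ i => exact hz.2 i (by omega)

lemma chain_small {f : Sph → Sph} {Ω Φ : Set ℂ} {L : ℕ} (t : Trap f Ω Φ L) {M : ℝ}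
    (hb : ∀ z ∈ Ω, ‖z‖ ≤ M) {τ : ℝ} (hτ : 0 < τ) {j₀ : ℂ → ℂ} (m0 : ∀ ξ ∈ VV τ, j₀ ξ ∈ Φ)
    {j : ℕ → ℂ → ℂ} (h : ∀ n, ChInv f Ω (VV τ) j₀ n (j n)) :
    Tendsto (fun n => j n 0 - j n 1) atTop (𝓝 0) := by
  rw [NormedAddGroup.tendsto_nhds_zero]
  intro δ hδ
  by_contra hne
  rw [not_eventually] at hne
  obtain ⟨φ, hφ, hφ'⟩ := extraction_of_frequently_atTop hne
  obtain ⟨r, hr, hd⟩ := definite_disc M hτ hδ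
  obtain ⟨y, -, ψ, hψ, hy⟩ := (isCompact_closedBall (0:ℂ) M).tendsto_subseq
    (x := fun k => j (φ k) 0) fun k => by simpa using hb _ ((h _).mem (zero_mem_VV hτ))
  obtain ⟨K, hK⟩ := Metric.tendsto_atTop.1 hy r hr
  have hm : ∀ k ≥ K, ∃ z, Orb f Ω z (φ (ψ k)) ∧ z 0 = y ∧ z (φ (ψ k)) ∈ Φ := fun k hk => by
    obtain ⟨ξ, hξ, he⟩ := hd (j (φ (ψ k))) (h _).1 (fun ξ hξ => hb _ ((h _).mem hξ))
      (not_lt.1 (hφ' _)) 0 (left_mem_segment _ _ _) (mem_ball'.2 (hK k hk))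
    obtain ⟨z, hz, z0, zn⟩ := (h (φ (ψ k))).2.1 ξ hξ
    exact ⟨z, hz, z0.trans he, zn ▸ m0 ξ hξ⟩
  obtain ⟨z, hz, z0, zn⟩ := hm K le_rfl
  obtain ⟨w, hw, w0, wn⟩ := hm (K + L) (by omega)
  have h1 : φ (ψ K) + L ≤ φ (ψ (K + L)) := by
    have := (hφ.comp hψ).add_le_nat L K
    simp only [Function.comp] at this
    rw [add_comm K L]
    omega
  have := chain_sep t hz hw (z0.trans w0.symm) zn wn (by omega)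
  omega

theorem chain {f : Sph → Sph} {p q : ℂ → ℂ} (hf : Mero f p q) (hi : f ∞ = ∞) {Ω Φ : Set ℂ}
    {L : ℕ} (t : Trap f Ω Φ L) {M : ℝ} (hb : ∀ z ∈ Ω, ‖z‖ ≤ M) {τ : ℝ} (hτ : 0 < τ) {j₀ : ℂ → ℂ}
    (d0 : DifferentiableOn ℂ j₀ (VV τ)) (m0 : ∀ ξ ∈ VV τ, j₀ ξ ∈ Φ ∧ j₀ ξ ∉ PC f p q Ω Φ)
    (e0 : f (j₀ 0) = j₀ 1) :
    ∃ j : ℕ → ℂ → ℂ, j 0 = j₀ ∧ (∀ n, DifferentiableOn ℂ (j n) (VV τ)) ∧
      (∀ n, ∀ ξ ∈ VV τ, j n ξ ∈ Ω ∧ f (j (n + 1) ξ) = j n ξ) ∧ (∀ n, j (n + 1) 1 = j n 0) ∧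
      ∃ y : ℂ, f y = y ∧ MapClusterPt y atTop fun n => j n 0 := by
  have h0 : ChInv f Ω (VV τ) j₀ 0 j₀ := ⟨d0, fun ξ hξ => ⟨fun _ => j₀ ξ,
    ⟨fun i hi => absurd hi (Nat.not_lt_zero i), fun _ _ => t.sub (m0 ξ hξ).1⟩, rfl, rfl⟩, e0⟩
  choose g g1 g2 g3 using fun n j (h : ChInv f Ω (VV τ) j₀ n j) => chain_step hf hi t hτ m0 h
  let s : ∀ n, {j // ChInv f Ω (VV τ) j₀ n j} := fun n =>
    Nat.rec ⟨j₀, h0⟩ (fun n j => ⟨g n j.1 j.2, g1 n j.1 j.2⟩) n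
  refine ⟨fun n => (s n).1, rfl, fun n => (s n).2.1,
    fun n ξ hξ => ⟨(s n).2.mem hξ, g3 n _ (s n).2 ξ hξ⟩, fun n => g2 n _ (s n).2, ?_⟩
  have hs := chain_small t hb hτ (fun ξ hξ => (m0 ξ hξ).1) fun n => (s n).2
  obtain ⟨y, -, φ, hφ, hy⟩ := (isCompact_closedBall (0:ℂ) M).tendsto_subseq
    (x := fun n => (s n).1 0) fun n => by simpa using hb _ ((s n).2.mem (zero_mem_VV hτ))
  refine ⟨y, ?_, MapClusterPt.of_comp hφ.tendsto_atTop hy.mapClusterPt⟩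
  have h1 : Tendsto (fun k => (s (φ k)).1 1) atTop (𝓝 y) := by
    simpa [Function.comp_def] using hy.sub (hs.comp hφ.tendsto_atTop)
  have h2 := ((hf.cont.comp continuous_coe).tendsto y).comp hy
  refine tendsto_nhds_unique (h2.congr fun k => ?_) ((continuous_coe.tendsto y).comp h1)
  exact (s (φ k)).2.2.2

end

end Pool.Agent.Lib.MP_1e9af3_an.H
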