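import Pool.Agent.Lib.MP_1e9af3_an.HDefs

/-! Confinement of invariant continua at exit parameters. -/

namespace Pool.Agent.Lib.MP_1e9af3_an.H

open Set Filter Topology Complex Metric OnePoint

noncomputable section

variable {q : ℕ} {β e a b : ℝ} {μ x ε : ℂ}

lemma conf_norm {z y : ℂ} (he : nx q μ x ε z = y * dx q e x ε z) :
    ‖μ‖ * ‖z‖ ^ 2 * ‖1 - x * z‖ * ‖1 + z‖ ^ q * ‖1 - ε * z‖ =
      ‖y‖ * (‖z + e‖ * ‖1 - z‖ * ‖1 - z‖ ^ q) := by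
  have h1 : μ * z ^ 2 * (1 - x * z) * (1 + z) ^ q * (1 - ε * z) =
      y * ((z + e) * (1 - z) * (1 - z) ^ q) := by
    simpa [nx, dx, G.nm, G.dn] using he
  simpa only [norm_mul, norm_pow] using congrArg norm h1

lemma conf_big (h : Ex q β e a b μ x ε) : 1000 ≤ a ∧ a ≤ ‖x‖ ∧ 10000 ≤ ‖x‖ := by
  have h1 : (1:ℝ) ≤ 5 ^ q := one_le_pow₀ (by norm_num)
  have h2 : (1:ℝ) ≤ 3 ^ q := one_le_pow₀ (by norm_num)
  have h3 : 1000 ≤ a := by linarith [h.a0]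
  have h4 : (a + 2) * 1 ≤ (a + 2) * (a + 2) ^ 2 := by
    gcongr
    exact one_le_pow₀ (by linarith)
  have h5 : 8 * 1 * (a + 2) ^ 3 ≤ 8 * 3 ^ q * (a + 2) ^ 3 := by gcongr
  have h6 := h.b0
  have h7 := h.xb
  refine ⟨h3, ?_, ?_⟩ <;> nlinarith

lemma conf_add (h : Ex q β e a b μ x ε) {w : ℂ} (h1 : a / (9 * ‖x‖) ≤ ‖w‖) :
    ‖w + e‖ ≤ 101 / 100 * ‖w‖ ∧ a / 9 ≤ ‖x‖ * ‖w‖ := by
  obtain ⟨a1, a2, a3⟩ := conf_big h
  have x0 : 0 < ‖x‖ := by linarith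
  rw [div_le_iff₀ (by positivity)] at h1
  have h2 : ‖w + e‖ ≤ ‖w‖ + e := by
    simpa [abs_of_pos h.e0] using norm_add_le w (e : ℂ)
  have h3 : e * ‖x‖ ≤ ‖w‖ / 100 * ‖x‖ := by linarith [h.xe, h.hβ]
  have h4 := le_of_mul_le_mul_right h3 x0
  constructor <;> linarith

lemma conf_key (h : Ex q β e a b μ x ε) {w y : ℂ} (h1 : a / (9 * ‖x‖) ≤ ‖w‖)
    (he : nx q μ x ε w = y * dx q e x ε w) (hy : ‖y‖ ≤ 9 * ‖w‖) :
    ‖1 - ε * w‖ < 1 / 2 ∨ ‖1 + w‖ < 1 / 2 := by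
  by_contra hn
  push Not at hn
  obtain ⟨n1, n2⟩ := hn
  obtain ⟨a1, a2, a3⟩ := conf_big h
  obtain ⟨b1, b2⟩ := conf_add h h1
  have p1 : (1:ℝ) ≤ 5 ^ q := one_le_pow₀ (by norm_num)
  have a0 := h.a0
  have w0 : 0 < ‖w‖ := by
    refine lt_of_lt_of_le ?_ h1
    have : 0 < ‖x‖ := by linarith
    have : 0 < a := by linarith
    positivity
  have c1 : ‖x‖ * ‖w‖ - 1 ≤ ‖1 - x * w‖ := by
    simpa using (G.norm_one_sub_bounds (x * w)).1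
  have c2 := (G.norm_one_sub_bounds w).2.1
  have c3 : ‖1 - w‖ ≤ 5 * ‖1 + w‖ := by
    have h2 : ‖1 - w‖ ≤ ‖(2:ℂ)‖ + ‖1 + w‖ := by
      rw [show 1 - w = 2 - (1 + w) by ring]; exact norm_sub_le _ _
    rw [Complex.norm_two] at h2
    linarith
  have c4 : 55 * 5 ^ q * ‖1 - w‖ ≤ ‖1 - x * w‖ := by
    rcases le_total ‖w‖ 1 with hw | hw
    · have : 55 * 5 ^ q * ‖1 - w‖ ≤ 55 * 5 ^ q * 2 := by gcongr; linarith
      linarith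
    · have h2 : 55 * 5 ^ q * ‖1 - w‖ ≤ 55 * 5 ^ q * (2 * ‖w‖) := by gcongr; linarith
      have h3 : (110 * 5 ^ q + 1) * ‖w‖ ≤ ‖x‖ * ‖w‖ := by gcongr; linarith
      linarith
  have c5 : 0 < ‖1 - x * w‖ := by linarith
  have c6 : ‖1 - w‖ ^ q ≤ 5 ^ q * ‖1 + w‖ ^ q := by
    rw [← mul_pow]; gcongr
  have c7 : 0 < ‖1 + w‖ ^ q := pow_pos (by linarith) _
  have k := conf_norm he
  have k1 : 1 / 2 * ‖w‖ ^ 2 * ‖1 - x * w‖ * ‖1 + w‖ ^ q * (1 / 2) ≤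
      ‖μ‖ * ‖w‖ ^ 2 * ‖1 - x * w‖ * ‖1 + w‖ ^ q * ‖1 - ε * w‖ := by
    gcongr; exact h.μ1
  have k2 : ‖y‖ * (‖w + e‖ * ‖1 - w‖ * ‖1 - w‖ ^ q) ≤
      9 * ‖w‖ * (101 / 100 * ‖w‖ * ‖1 - w‖ * (5 ^ q * ‖1 + w‖ ^ q)) := by gcongr
  have k3 : ‖w‖ ^ 2 * ‖1 + w‖ ^ q * (55 * 5 ^ q * ‖1 - w‖) ≤
      ‖w‖ ^ 2 * ‖1 + w‖ ^ q * ‖1 - x * w‖ := by gcongr
  have k4 : 0 < ‖w‖ ^ 2 * ‖1 + w‖ ^ q * ‖1 - x * w‖ := by positivity
  nlinarith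

lemma conf_dir (ε : ℂ) (h : ε ≠ 1) : ∃ d : ℂ, ‖d‖ = 1 ∧ ∀ s : ℝ, 0 ≤ s →
    ‖1 - ε * (1 + s * d)‖ = ‖1 - ε‖ + ‖ε‖ * s := by
  by_cases h0 : ε = 0
  · exact ⟨1, norm_one, fun s _ => by simp [h0]⟩
  have h1 : (1:ℂ) - ε ≠ 0 := sub_ne_zero.2 h.symm
  have n0 : 0 < ‖ε‖ := norm_pos_iff.2 h0
  have n1 : 0 < ‖1 - ε‖ := norm_pos_iff.2 h1
  refine ⟨-((1 - ε) * (‖ε‖ / ‖1 - ε‖ : ℝ) / ε), ?_, fun s hs => ?_⟩
  · rw [norm_neg, norm_div, norm_mul, Complex.norm_real, Real.norm_of_nonneg (by positivity)]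
    field_simp
  · have : 1 - ε * (1 + s * -((1 - ε) * (‖ε‖ / ‖1 - ε‖ : ℝ) / ε)) =
        (1 - ε) * ((1 + s * (‖ε‖ / ‖1 - ε‖) : ℝ) : ℂ) := by
      rw [ofReal_add, ofReal_mul, ofReal_one]
      generalize ((‖ε‖ / ‖1 - ε‖ : ℝ) : ℂ) = c
      field_simp
      ring
    rw [this, norm_mul, Complex.norm_real, Real.norm_of_nonneg (by positivity)]
    field_simp

theorem Ex.confine (h : Ex q β e a b μ x ε) {Γ : Set ℂ} (hK : IsCompact Γ) (hc : IsPreconnected Γ)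
    (hs : ∀ z ∈ Γ, ∃ y ∈ Γ, nx q μ x ε z = y * dx q e x ε z) :
    (∀ z ∈ Γ, ‖z‖ < a / ‖x‖) ∨ ((∀ z ∈ Γ, a / (9 * ‖x‖) < ‖z‖) ∧
      (∃ d : ℂ, d ≠ 0 ∧ ∀ s : ℝ, 0 ≤ s → s * d ∉ Γ) ∧
      (q = 0 → ∃ d : ℂ, d ≠ 0 ∧ ∀ s : ℝ, 0 ≤ s → 1 + s * d ∉ Γ)) := by
  by_cases hl : ∀ z ∈ Γ, ‖z‖ < a / ‖x‖
  · exact Or.inl hl
  right
  push Not at hl
  obtain ⟨z₀, l1, l2⟩ := hl
  obtain ⟨z₁, k1, k2⟩ := hK.exists_isMaxOn ⟨z₀, l1⟩ continuous_norm.continuousOn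
  have mx : ∀ z ∈ Γ, ‖z‖ ≤ ‖z₁‖ := fun z hz => k2 hz
  obtain ⟨a1, a2, a3⟩ := conf_big h
  have x0 : 0 < ‖x‖ := by linarith
  have a0 : 0 < a := by linarith
  have m1 : a / (9 * ‖x‖) ≤ ‖z₁‖ / 9 := by
    rw [show a / (9 * ‖x‖) = a / ‖x‖ / 9 by field_simp]
    linarith [mx z₀ l1]
  have m0 : 0 < ‖z₁‖ := by
    have : 0 < a / (9 * ‖x‖) := by positivity
    linarith
  have inT : ∀ w ∈ Γ, ‖z₁‖ / 9 ≤ ‖w‖ → ‖1 - ε * w‖ < 1 / 2 ∨ ‖1 + w‖ < 1 / 2 := fun w hw h1 => by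
    obtain ⟨y, h2, h3⟩ := hs w hw
    exact conf_key h (m1.trans h1) h3 (by linarith [mx y h2])
  have md : ∀ w ∈ Γ, ‖z₁‖ / 9 ≤ ‖w‖ →
      (1 / 2 < ‖ε‖ * ‖w‖ ∧ ‖ε‖ * ‖w‖ < 3 / 2) ∨ (1 / 2 < ‖w‖ ∧ ‖w‖ < 3 / 2) := fun w hw h1 => by
    rcases inT w hw h1 with h2 | h2
    · obtain ⟨b1, -, b2⟩ := G.norm_one_sub_bounds (ε * w)
      rw [norm_mul] at b1 b2
      exact Or.inl ⟨by linarith, by linarith⟩
    · obtain ⟨b1, -, b2⟩ := G.norm_one_sub_bounds (-w)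
      rw [norm_neg, sub_neg_eq_add] at b1 b2
      exact Or.inr ⟨by linarith, by linarith⟩
  have low : ∀ z ∈ Γ, ‖z₁‖ / 9 < ‖z‖ := fun z hz => by
    by_contra hn
    push Not at hn
    obtain ⟨w₁, p1, p2⟩ := hc.intermediate_value hz k1 continuous_norm.continuousOn
      (show ‖z₁‖ / 3 ∈ _ from ⟨by linarith, by linarith⟩)
    obtain ⟨w₂, p3, p4⟩ := hc.intermediate_value hz k1 continuous_norm.continuousOn
      (show ‖z₁‖ / 9 ∈ _ from ⟨hn, by linarith⟩)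
    replace p2 : ‖w₁‖ = ‖z₁‖ / 3 := p2
    replace p4 : ‖w₂‖ = ‖z₁‖ / 9 := p4
    have t0 := md z₁ k1 (by linarith)
    have t1 := md w₁ p1 (by rw [p2]; linarith)
    have t2 := md w₂ p3 p4.ge
    rw [p2] at t1
    rw [p4] at t2
    rcases t0 with t0 | t0 <;> rcases t1 with t1 | t1 <;> rcases t2 with t2 | t2 <;>
      linarith [t0.1, t0.2, t1.1, t1.2, t2.1, t2.2]
  refine ⟨fun z hz => m1.trans_lt (low z hz), ?_, ?_⟩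
  · have ray : ∀ d : ℂ, d.re = 0 → (ε * d).re ≤ 0 → ∀ s : ℝ, 0 ≤ s → s * d ∉ Γ :=
      fun d d1 d2 s s0 hm => by
        rcases inT _ hm (low _ hm).le with h2 | h2
        · have h3 := Complex.re_le_norm (1 - ε * (s * d))
          rw [show ε * (s * d) = s * (ε * d) by ring] at h2 h3
          rw [sub_re, one_re, re_ofReal_mul] at h3
          nlinarith
        · have h3 := Complex.re_le_norm (1 + s * d)
          rw [add_re, one_re, re_ofReal_mul, d1] at h3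
          linarith
    rcases le_total (ε * I).re 0 with h1 | h1
    · exact ⟨I, I_ne_zero, ray I I_re h1⟩
    · exact ⟨-I, neg_ne_zero.2 I_ne_zero, ray (-I) (by simp)
        (by rw [mul_neg, neg_re]; linarith)⟩
  · rintro rfl
    rcases lt_or_ge ‖z₁‖ 1 with hM | hM
    · refine ⟨1, one_ne_zero, fun s s0 hm => ?_⟩
      have h3 := Complex.re_le_norm (1 + s * 1)
      rw [add_re, re_ofReal_mul, one_re] at h3
      linarith [mx _ hm]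
    obtain ⟨d, d1, d2⟩ := conf_dir ε h.e1
    refine ⟨d, fun h0 => by simp [h0] at d1, fun s s0 hm => ?_⟩
    have d3 := d2 s s0
    have d4 : ‖1 - (1 + s * d)‖ = s := by
      rw [show 1 - (1 + s * d) = -(s * d) by ring, norm_neg, norm_mul, d1, Complex.norm_real,
        Real.norm_of_nonneg s0, mul_one]
    generalize 1 + s * d = z at hm d3 d4
    have lz := low z hm
    obtain ⟨y, h2, h3⟩ := hs z hm
    have k := conf_norm h3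
    rw [pow_zero, pow_zero, mul_one, mul_one, d4] at k
    have b1 := (conf_add h (m1.trans lz.le)).1
    have c1 : 1000 ≤ ‖1 - x * z‖ := by
      have h4 : ‖x‖ * ‖z‖ - 1 ≤ ‖1 - x * z‖ := by
        simpa using (G.norm_one_sub_bounds (x * z)).1
      have h5 : 10000 * (1 / 9) ≤ ‖x‖ * ‖z‖ := by gcongr; linarith
      linarith
    have z0 : 0 < ‖z‖ ^ 2 := pow_pos (by linarith) _
    have k3 : 1 / 2 * ‖z‖ ^ 2 * 1000 * ‖1 - ε * z‖ ≤ ‖μ‖ * ‖z‖ ^ 2 * ‖1 - x * z‖ * ‖1 - ε * z‖ := by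
      gcongr; exact h.μ1
    have k4 : ‖y‖ * (‖z + e‖ * s) ≤ 9 * ‖z‖ * (101 / 100 * ‖z‖ * s) := by
      gcongr; linarith [mx y h2]
    have k5 : 500 * ‖1 - ε * z‖ ≤ 10 * s :=
      le_of_mul_le_mul_left (by nlinarith [mul_nonneg z0.le s0]) z0
    have n1 : 0 < ‖1 - ε‖ := norm_pos_iff.2 (sub_ne_zero.2 h.e1.symm)
    rcases le_total ‖ε‖ (1 / 4) with he | he
    · have h4 := (G.norm_one_sub_bounds ε).2.2
      have h5 := mul_nonneg (norm_nonneg ε) s0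
      rcases inT z hm lz.le with h6 | h6
      · linarith
      · have h7 : ‖1 - z‖ ≤ ‖(2:ℂ)‖ + ‖1 + z‖ := by
          rw [show 1 - z = 2 - (1 + z) by ring]; exact norm_sub_le _ _
        rw [Complex.norm_two] at h7
        linarith
    · have h5 : 1 / 4 * s ≤ ‖ε‖ * s := by gcongr
      linarith

end

end Pool.Agent.Lib.MP_1e9af3_an.H
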