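import Pool.Agent.Lib.MP_1e9af3_an.HDefs

/-! Estimates at exit parameters. -/

namespace Pool.Agent.Lib.MP_1e9af3_an.H

open Set Filter Topology Complex Metric OnePoint

noncomputable section

variable {q : ℕ} {β e a b : ℝ} {μ x ε : ℂ}

lemma exit_nx (q : ℕ) (μ x ε z : ℂ) :
    nx q μ x ε z = μ * z ^ 2 * (1 - x * z) * (1 + z) ^ q * (1 - ε * z) := by
  simp [nx, G.nm]

lemma exit_dx (q : ℕ) (e : ℝ) (x ε z : ℂ) :
    dx q e x ε z = (z + e) * (1 - z) * (1 - z) ^ q := by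
  simp [dx, G.dn]

lemma exit_nn (q : ℕ) (μ x ε z : ℂ) :
    ‖nx q μ x ε z‖ = ‖μ‖ * ‖z‖ ^ 2 * ‖1 - x * z‖ * ‖1 + z‖ ^ q * ‖1 - ε * z‖ := by
  rw [exit_nx]; simp only [norm_mul, norm_pow]

lemma exit_nd (q : ℕ) (e : ℝ) (x ε z : ℂ) :
    ‖dx q e x ε z‖ = ‖z + e‖ * ‖1 - z‖ * ‖1 - z‖ ^ q := by
  rw [exit_dx]; simp only [norm_mul, norm_pow]

lemma exit_add (z : ℂ) : ‖1 + z‖ ≤ 1 + ‖z‖ ∧ 1 - ‖z‖ ≤ ‖1 + z‖ := by
  have := G.norm_one_sub_bounds (-z)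
  rw [sub_neg_eq_add, norm_neg] at this
  exact this.2

lemma exit_e {e : ℝ} (he : 0 < e) (z : ℂ) : ‖z + e‖ ≤ ‖z‖ + e ∧ ‖z‖ - e ≤ ‖z + e‖ ∧
    e - ‖z‖ ≤ ‖z + e‖ := by
  have h0 : ‖(e : ℂ)‖ = e := by rw [Complex.norm_real, Real.norm_of_nonneg he.le]
  have h1 := norm_add_le z (e : ℂ)
  have h2 := abs_le.1 (abs_norm_sub_norm_le (z + e) z)
  have h3 := abs_le.1 (abs_norm_sub_norm_le (z + e) (e : ℂ))
  simp only [add_sub_cancel_right, add_sub_cancel_left, h0] at h1 h2 h3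
  refine ⟨h1, ?_, ?_⟩ <;> linarith [h2.1, h3.1]

lemma Ex.exit_num (h : Ex q β e a b μ x ε) : 1000 * 3 ^ q ≤ a ∧ 1000 ≤ a ∧ a + 1 ≤ b ∧
    1 ≤ ‖x‖ ∧ (1:ℝ) ≤ 3 ^ q := by
  have h1 : (1:ℝ) ≤ 3 ^ q := one_le_pow₀ (by norm_num)
  have h2 : (3:ℝ) ^ q ≤ 5 ^ q := pow_le_pow_left₀ (by norm_num) (by norm_num) q
  have h3 := h.a0
  have h4 : 1000 ≤ a := by linarith
  have h5 : a + 2 ≤ (a + 2) ^ 3 := le_self_pow₀ (by linarith) (by norm_num)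
  have h6 : 8 * 1 * (a + 2) ≤ 8 * 3 ^ q * (a + 2) ^ 3 := by gcongr
  have h7 := h.b0
  have h8 := h.xb
  refine ⟨by linarith, h4, by linarith, by linarith, h1⟩

/-- The band in terms of `‖x‖ * ‖z‖`. -/
lemma Ex.exit_band (h : Ex q β e a b μ x ε) {z : ℂ} (h1 : a / ‖x‖ ≤ ‖z‖) (h2 : ‖z‖ ≤ b / ‖x‖) :
    a ≤ ‖x‖ * ‖z‖ ∧ ‖x‖ * ‖z‖ ≤ b ∧ ‖z‖ ≤ 1 / 2 ∧ 2 * e ≤ ‖z‖ ∧
      (‖ε * z‖ ≤ 1 / 2 ∨ 2 ≤ ‖ε * z‖) := by
  obtain ⟨-, a1, a2, x1, -⟩ := h.exit_num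
  have x0 : 0 < ‖x‖ := by linarith
  rw [div_le_iff₀ x0] at h1
  rw [le_div_iff₀ x0] at h2
  have k1 := h.xb
  have k2 := h.xe
  have k3 := h.hβ
  have z0 := norm_nonneg z
  have ε0 := norm_nonneg ε
  refine ⟨by linarith, by linarith, le_of_mul_le_mul_right (by linarith) x0,
    le_of_mul_le_mul_right (by linarith) x0, ?_⟩
  rw [norm_mul]
  rcases h.far with k | k
  · left
    have : ‖ε‖ * (‖z‖ * ‖x‖) ≤ ‖ε‖ * b := by gcongr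
    exact le_of_mul_le_mul_right (by linarith) x0
  · right
    have : ‖ε‖ * a ≤ ‖ε‖ * (‖z‖ * ‖x‖) := by gcongr
    exact le_of_mul_le_mul_right (by linarith) x0

theorem Ex.double (h : Ex q β e a b μ x ε) {z : ℂ} (h1 : a / ‖x‖ ≤ ‖z‖) (h2 : ‖z‖ ≤ b / ‖x‖) :
    dx q e x ε z ≠ 0 ∧ 2 * ‖z‖ * ‖dx q e x ε z‖ ≤ ‖nx q μ x ε z‖ := by
  obtain ⟨a0, a1, a2, x1, t1⟩ := h.exit_num
  obtain ⟨b1, b2, b3, b4, b5⟩ := h.exit_band h1 h2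
  have e0 := h.e0
  obtain ⟨c1, c2, -⟩ := exit_e e0 z
  obtain ⟨-, d2, d3⟩ := G.norm_one_sub_bounds z
  obtain ⟨-, f2⟩ := exit_add z
  have g1 := (G.norm_one_sub_bounds (x * z)).1
  rw [norm_mul] at g1
  have g2 : 1 / 2 ≤ ‖1 - ε * z‖ := by
    obtain ⟨k1, -, k3⟩ := G.norm_one_sub_bounds (ε * z)
    rcases b5 with k | k <;> linarith
  constructor
  · rw [← norm_pos_iff, exit_nd]
    have : 0 < ‖z + e‖ := by linarith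
    have : 0 < ‖1 - z‖ := by linarith
    positivity
  · rw [exit_nn, exit_nd]
    have k1 : ‖1 - z‖ ^ q ≤ 3 ^ q * ‖1 + z‖ ^ q := by
      rw [← mul_pow]; gcongr; linarith
    have μ1 := h.μ1
    have z0 := norm_nonneg z
    have A0 : 0 ≤ ‖1 + z‖ ^ q := by positivity
    calc 2 * ‖z‖ * (‖z + e‖ * ‖1 - z‖ * ‖1 - z‖ ^ q)
        ≤ 2 * ‖z‖ * ((2 * ‖z‖) * (3 / 2) * (3 ^ q * ‖1 + z‖ ^ q)) := by
          gcongr <;> linarith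
      _ = 1 / 2 * ‖z‖ ^ 2 * (24 * 3 ^ q) * ‖1 + z‖ ^ q * (1 / 2) := by ring
      _ ≤ ‖μ‖ * ‖z‖ ^ 2 * ‖1 - x * z‖ * ‖1 + z‖ ^ q * ‖1 - ε * z‖ := by
          gcongr; linarith

theorem Ex.upper (h : Ex q β e a b μ x ε) {z : ℂ} (h1 : ‖z‖ = (a + 1) / ‖x‖) :
    ‖nx q μ x ε z‖ < b / ‖x‖ * ‖dx q e x ε z‖ := by
  obtain ⟨a0, a1, a2, x1, t1⟩ := h.exit_num
  have x0 : 0 < ‖x‖ := by linarith
  obtain ⟨-, -, b3, b4, -⟩ := h.exit_band (z := z) (by rw [h1]; gcongr; linarith)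
    (by rw [h1]; gcongr)
  have s1 : ‖x‖ * ‖z‖ = a + 1 := by rw [h1]; field_simp
  have e0 := h.e0
  have z0 : 0 < ‖z‖ := by linarith
  obtain ⟨-, c2, -⟩ := exit_e e0 z
  obtain ⟨-, -, d3⟩ := G.norm_one_sub_bounds z
  obtain ⟨f1, -⟩ := exit_add z
  have g1 := (G.norm_one_sub_bounds (x * z)).2.1
  have g2 := (G.norm_one_sub_bounds (ε * z)).2.1
  rw [norm_mul] at g1 g2
  have g3 : ‖ε‖ * ‖z‖ ≤ ‖x‖ * ‖z‖ := by gcongr; exact h.ex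
  have k1 : ‖1 + z‖ ^ q ≤ 3 ^ q * ‖1 - z‖ ^ q := by
    rw [← mul_pow]; gcongr; linarith
  have B0 : 0 < ‖1 - z‖ ^ q := pow_pos (by linarith) q
  have μ2 := h.μ2
  have k2 : 8 * 3 ^ q * (a + 2) ^ 2 * (a + 1) < b := by
    refine lt_of_le_of_lt ?_ h.b0
    rw [show 8 * 3 ^ q * (a + 2) ^ 3 = 8 * 3 ^ q * (a + 2) ^ 2 * (a + 2) by ring]
    gcongr; norm_num
  have k3 : 8 * 3 ^ q * (a + 2) ^ 2 * ‖z‖ < b / ‖x‖ := by
    rw [lt_div_iff₀ x0, mul_assoc _ ‖z‖, mul_comm ‖z‖, s1]; exact k2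
  have k4 : 0 ≤ b / ‖x‖ := by apply div_nonneg <;> linarith
  rw [exit_nn, exit_nd]
  calc ‖μ‖ * ‖z‖ ^ 2 * ‖1 - x * z‖ * ‖1 + z‖ ^ q * ‖1 - ε * z‖
      ≤ 2 * ‖z‖ ^ 2 * (a + 2) * (3 ^ q * ‖1 - z‖ ^ q) * (a + 2) := by
        gcongr <;> linarith
    _ = 8 * 3 ^ q * (a + 2) ^ 2 * ‖z‖ * (‖z‖ / 2 * (1 / 2) * ‖1 - z‖ ^ q) := by ring
    _ < b / ‖x‖ * (‖z‖ / 2 * (1 / 2) * ‖1 - z‖ ^ q) := by gcongr
    _ ≤ b / ‖x‖ * (‖z + e‖ * ‖1 - z‖ * ‖1 - z‖ ^ q) := by gcongr <;> linarith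

theorem Ex.inner (h : Ex q β e a b μ x ε) {z y : ℂ} (h1 : ‖z‖ ≤ e / 10)
    (he : nx q μ x ε z = y * dx q e x ε z) : ‖y‖ ≤ ‖z‖ / 2 ∧ (‖z‖ = e / 20 → e / 2000 < ‖y‖) := by
  obtain ⟨-, -, -, x1, -⟩ := h.exit_num
  have e0 := h.e0
  have k2 := h.xe
  have z0 := norm_nonneg z
  have k3 : e ≤ β := by nlinarith
  have b0 : ‖(0:ℂ)‖ ≤ β := by rw [norm_zero]; linarith
  have b1 : ‖x * z‖ ≤ β := by rw [norm_mul]; nlinarith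
  have b3 : ‖z‖ ≤ β := by linarith
  have b2 : ‖-z‖ ≤ β := by rwa [norm_neg]
  have b4 : ‖ε * z‖ ≤ β := by
    refine le_trans ?_ b1
    rw [norm_mul, norm_mul]; gcongr; exact h.ex
  obtain ⟨p1, p2⟩ := G.near_one (h.sm _ _ _ _ _ _ b0 b1 b2 b4 b3 b3)
  have n3 := G.one_sub_ne h.hβ b3
  have h2 : y * (z + e) = μ * z ^ 2 * G.Ps q 0 (x * z) (-z) (ε * z) z z := by
    rw [exit_nx, exit_dx] at he
    rw [G.Ps, mul_div_assoc', eq_div_iff (by simp [n3]), sub_neg_eq_add]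
    linear_combination -he
  have h4 := congrArg norm h2
  rw [norm_mul, norm_mul, norm_mul, norm_pow] at h4
  obtain ⟨c1, -, c3⟩ := exit_e e0 z
  have μ1 := h.μ1
  have μ2 := h.μ2
  have y0 := norm_nonneg y
  constructor
  · have h5 : ‖μ‖ * ‖z‖ ^ 2 * ‖G.Ps q 0 (x * z) (-z) (ε * z) z z‖ ≤ 2 * ‖z‖ ^ 2 * 2 := by gcongr
    have h6 : ‖y‖ * (9 / 10 * e) ≤ ‖y‖ * ‖z + e‖ := by gcongr; linarith
    have h7 : ‖z‖ * ‖z‖ ≤ ‖z‖ * (e / 10) := by gcongr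
    have h8 : 0 ≤ ‖z‖ * e := by positivity
    exact le_of_mul_le_mul_right (by nlinarith) e0
  · intro hz
    have h5 : 1 / 2 * ‖z‖ ^ 2 * (1 / 2) ≤ ‖μ‖ * ‖z‖ ^ 2 * ‖G.Ps q 0 (x * z) (-z) (ε * z) z z‖ := by
      gcongr
    have h6 : ‖y‖ * ‖z + e‖ ≤ ‖y‖ * (21 / 20 * e) := by gcongr; linarith
    rw [← h4, hz] at h5
    have h8 : 0 < e * e := by positivity
    exact lt_of_mul_lt_mul_right (by nlinarith) e0.le

lemma exit_small {c : ℂ} (hc : ‖c‖ < 1) : HasWind (fun θ : ℝ => 1 - c * ee θ) 0 :=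
  (hasWind_const one_ne_zero).close (by fun_prop) (fun θ => by push_cast; rw [ee_add_one])
    fun θ => by simpa [norm_ee_real] using hc

lemma exit_big {c : ℂ} (hc : 1 < ‖c‖) : HasWind (fun θ : ℝ => 1 - c * ee θ) 1 :=
  (hasWind_circle (c := -c) (by
    rw [neg_ne_zero, ← norm_pos_iff]; linarith)).close (by fun_prop)
    (fun θ => by push_cast; rw [ee_add_one]) fun θ => by simpa [norm_ee_real] using hc

theorem Ex.count (h : Ex q β e a b μ x ε) : ∃ n : ℤ, n ≤ 4 ∧ HasWind (fun θ =>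
    nx q μ x ε ((a / ‖x‖ : ℝ) * ee θ) - (a / ‖x‖ : ℝ) * ee θ * dx q e x ε ((a / ‖x‖ : ℝ) * ee θ)) n := by
  obtain ⟨-, a1, a2, x1, -⟩ := h.exit_num
  have x0 : 0 < ‖x‖ := by linarith
  have r0 : 0 < a / ‖x‖ := by apply div_pos <;> linarith
  have rb : a / ‖x‖ ≤ b / ‖x‖ := by gcongr; linarith
  generalize hr : a / ‖x‖ = r at r0 rb
  have rn : ‖(r : ℂ)‖ = r := by rw [Complex.norm_real, Real.norm_of_nonneg r0.le]
  have zn : ∀ θ : ℝ, ‖(r : ℂ) * ee θ‖ = r := fun θ => by rw [norm_mul, norm_ee_real, rn, mul_one]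
  obtain ⟨b1, -, b3, -, b5⟩ := h.exit_band (z := (r : ℂ)) (by rw [rn, hr]) (by rw [rn]; exact rb)
  have μ0 : μ ≠ 0 := by rw [← norm_pos_iff]; linarith [h.μ1]
  have w1 : HasWind (fun θ : ℝ => (r : ℂ) * ee θ) 1 := hasWind_circle (by exact_mod_cast r0.ne')
  have w2 := exit_big (c := x * r) (by rw [norm_mul]; linarith)
  have w3 := exit_small (c := -(r : ℂ)) (by rw [norm_neg]; linarith)
  obtain ⟨m, m1, w4⟩ : ∃ m : ℤ, m ≤ 1 ∧ HasWind (fun θ : ℝ => 1 - ε * r * ee θ) m := by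
    rcases b5 with k | k
    · exact ⟨0, zero_le_one, exit_small (by linarith)⟩
    · exact ⟨1, le_rfl, exit_big (by linarith)⟩
  have w := ((((hasWind_const μ0).mul (w1.pow 2)).mul w2).mul (w3.pow q)).mul w4
  have w' : HasWind (fun θ : ℝ => nx q μ x ε (r * ee θ)) (3 + m) := by
    have := w.congr (Δ := fun θ : ℝ => nx q μ x ε (r * ee θ)) fun θ => by
      rw [exit_nx]; simp only [mul_assoc, neg_mul, sub_neg_eq_add]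
    simpa [show (2:ℤ) + 1 = 3 by norm_num] using this
  refine ⟨3 + m, by linarith, w'.close ?_ (fun θ => by push_cast; rw [ee_add_one]) fun θ => ?_⟩
  · simp only [exit_nx, exit_dx]; fun_prop
  · obtain ⟨d1, d2⟩ := h.double (z := r * ee θ) (by rw [zn, hr]) (by rw [zn]; exact rb)
    have d3 := norm_pos_iff.2 d1
    rw [sub_sub_cancel_left, norm_neg, norm_mul]
    rw [zn] at d2 ⊢
    nlinarith [mul_pos r0 d3]

end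

end Pool.Agent.Lib.MP_1e9af3_an.H
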