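import Pool.Agent.Lib.MP_1e9af3_an.HCases
import Pool.Agent.Lib.MP_1e9af3_an.HExit
import Pool.Agent.Lib.MP_1e9af3_an.GBase

/-! Counting fixed points, critical points and fibres at exit parameters. -/

namespace Pool.Agent.Lib.MP_1e9af3_an.H

open Set Filter Topology Complex Metric OnePoint

noncomputable section

variable {q : ℕ} {α β e a b a₁ b₁ r : ℝ} {μ x ε : ℂ} {f : Sph → Sph} {χ : ℂ → ℂ}

open Polynomial in
lemma cnt_P (q : ℕ) (μ x ε : ℂ) :
    ∃ P : ℂ[X], P.natDegree ≤ q + 4 ∧ ∀ z, P.eval z = nx q μ x ε z := by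
  refine ⟨C μ * X ^ 2 * (1 - C x * X) * (1 + X) ^ q * (1 - C ε * X), ?_,
    fun z => by simp [nx, G.nm]⟩
  have h1 : ((1 + X : ℂ[X]) ^ q).natDegree ≤ q * 1 :=
    natDegree_pow_le_of_le q (by compute_degree)
  have h2 : (C μ * X ^ 2 * (1 - C x * X) : ℂ[X]).natDegree ≤ 3 := by compute_degree
  have h3 : (1 - C ε * X : ℂ[X]).natDegree ≤ 1 := by compute_degree
  have := natDegree_mul_le_of_le (natDegree_mul_le_of_le h2 h1) h3
  omega

open Polynomial in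
lemma cnt_Q (q : ℕ) (e : ℝ) (x ε : ℂ) :
    ∃ Q : ℂ[X], Q.natDegree ≤ q + 4 ∧ (∀ z, Q.eval z = dx q e x ε z) ∧
      Q.derivative.eval (-(e:ℂ)) = (1 + e) ^ (q + 1) := by
  refine ⟨(X + C (e:ℂ)) * (1 - X) ^ (q + 1), ?_, fun z => ?_, ?_⟩
  · have h1 : ((1 - X : ℂ[X]) ^ (q + 1)).natDegree ≤ (q + 1) * 1 :=
      natDegree_pow_le_of_le _ (by compute_degree)
    have h2 : (X + C (e:ℂ) : ℂ[X]).natDegree ≤ 1 := by compute_degree
    have := natDegree_mul_le_of_le h2 h1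
    omega
  · simp [dx, G.dn]; ring
  · rw [derivative_mul]; simp

theorem Ex.fix_count (h : Ex q β e a b μ x ε) (hf : Mero f (nx q μ x ε) (dx q e x ε))
    (hα : Irrational α) (hL : Lin f α χ a₁ b₁) (hr : r ∈ Ioo a₁ b₁) (h0 : nout χ a₁ b₁ = 0)
    (hw : wind (fun θ => dx q e x ε (crv χ r θ)) = 1) (hb : ∀ z ∈ χ '' sphere 0 r, ‖z‖ < a / ‖x‖)
    (i0 : ind χ r 0 = 0) {p p' : ℂ} (p0 : p ≠ 0) (p1 : p' ≠ 0) (p2 : p ≠ p') (f1 : f p = p)
    (f2 : f p' = p') (n1 : ‖p‖ < a / ‖x‖) (n2 : ‖p'‖ < a / ‖x‖) (i1 : ind χ r p = 0)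
    (i2 : ind χ r p' = 0) : False := by
  classical
  obtain ⟨P, -, hP⟩ := cnt_P q μ x ε
  obtain ⟨Q, -, hQ, -⟩ := cnt_Q q e x ε
  obtain ⟨S, hS⟩ : ∃ S : Polynomial ℂ, ∀ z, S.eval z = nx q μ x ε z - z * dx q e x ε z :=
    ⟨P - Polynomial.X * Q, fun z => by
      rw [Polynomial.eval_sub, Polynomial.eval_mul, Polynomial.eval_X, hP, hQ]⟩
  have em := hL.toEmb
  have r0 : 0 ≤ r := em.ha.trans hr.1.le
  have w1 : HasWind (fun θ => S.eval (crv χ r θ)) 2 := by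
    have := (em.wind_chord hr (ee_ne_one hα)).mul (hL.loop_q hf hr).hasWind
    rw [h0, hw] at this
    exact this.congr fun θ => by rw [hS, hf.eq_coe.1 (hL.map_crv hr θ)]; ring
  have s1 : (S.roots.map (ind χ r)).sum = 2 :=
    (wind_poly (em.crv_cont hr) (crv_per χ r) S w1.loop.ne).symm.trans w1.wind_eq
  obtain ⟨n, n4, w2⟩ := h.count
  generalize a / ‖x‖ = ρ at hb n1 n2 w2
  have ρ0 : 0 < ρ := (norm_nonneg _).trans_lt n1
  replace w2 : HasWind (fun θ : ℝ => S.eval ((ρ:ℂ) * ee θ)) n := w2.congr fun θ => (hS _).symm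
  have s2 : (S.roots.map fun z => wind fun θ : ℝ => (ρ:ℂ) * ee θ - z).sum = n :=
    (wind_poly (Γ := fun θ : ℝ => (ρ:ℂ) * ee θ) (by fun_prop) (fun θ => by simp [ee_add_one]) S
      w2.loop.ne).symm.trans w2.wind_eq
  have S0 : S ≠ 0 := fun h1 => w1.loop.ne 0 (by simp [h1])
  set g : ℂ → ℤ := fun z => (wind fun θ : ℝ => (ρ:ℂ) * ee θ - z) - ind χ r z with hg
  have s3 : (S.roots.map g).sum = n - 2 := by rw [hg, Multiset.sum_map_sub, s1, s2]
  have g0 : ∀ z ∈ S.roots, 0 ≤ g z := fun z hz => by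
    have hz0 : S.eval z = 0 := Polynomial.isRoot_of_mem_roots hz
    have k1 : z ∉ χ '' sphere 0 r := fun h1 => by
      obtain ⟨θ, rfl⟩ := exists_crv h1
      exact w1.loop.ne θ hz0
    rcases lt_trichotomy ‖z‖ ρ with h1 | h1 | h1
    · have := em.ind_cases hr k1
      simp only [hg, (hasWind_circ_in h1).wind_eq]
      omega
    · obtain ⟨θ, hθ⟩ := polar z
      exact absurd hz0 (by rw [hθ, h1]; exact w2.loop.ne θ)
    · simp only [hg, (hasWind_circ_out ρ0.le h1).wind_eq,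
        em.ind_large hr fun θ => (hb _ (crv_mem r0 θ)).trans h1]
      omega
  have g1 : ∀ z : ℂ, ‖z‖ < ρ → ind χ r z = 0 → g z = 1 := fun z h1 h2 => by
    simp only [hg, (hasWind_circ_in h1).wind_eq, h2]
    omega
  have m : ∀ z : ℂ, f z = z → z ∈ S.roots := fun z hz =>
    (Polynomial.mem_roots S0).2 (by rw [Polynomial.IsRoot, hS, hf.eq_coe.1 hz, sub_self])
  have m0 : (0:ℂ) ∈ S.roots := m 0 (hf.eq_coe.2 (by simp [nx, G.nm]))
  have s4 := sum_two (s := S.roots.erase 0) (g := g)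
    (fun z hz => g0 z (Multiset.mem_of_mem_erase hz))
    ((Multiset.mem_erase_of_ne p1).2 (m p' f2)) ((Multiset.mem_erase_of_ne p0).2 (m p f1)) p2
  rw [← Multiset.cons_erase m0, Multiset.map_cons, Multiset.sum_cons,
    g1 0 (by simpa using ρ0) i0] at s3
  rw [g1 p n1 i1, g1 p' n2 i2] at s4
  omega

theorem ray_ind (hα : Irrational α) (hL : Lin f α χ a₁ b₁) (hr : r ∈ Ioo a₁ b₁) {τ : ℝ} (hτ : 0 < τ)
    {j : ℕ → ℂ → ℂ} (hd : ∀ n, DifferentiableOn ℂ (j n) (VV τ))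
    (h1 : ∀ n, ∀ ξ ∈ VV τ, f (j (n + 1) ξ) = j n ξ) (h2 : ∀ n, j (n + 1) 1 = j n 0)
    (h0 : ∀ ξ ∈ VV τ, j 0 ξ ∉ χ '' sphere 0 r) {y : ℂ} (hy : f y = y)
    (hc : MapClusterPt y atTop fun n => j n 0) :
    (∀ n, ∀ ξ ∈ VV τ, j n ξ ∉ χ '' sphere 0 r) ∧ ind χ r y = ind χ r (j 0 0) := by
  have em := hL.toEmb
  have A : ∀ n, ∀ ξ ∈ VV τ, j n ξ ∉ χ '' sphere 0 r := fun n => by
    induction n with
    | zero => exact h0
    | succ n ih =>
      intro ξ hξ hm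
      obtain ⟨w, k1, k2⟩ := G.succ_mem hL hr hm
      exact ih ξ hξ (OnePoint.coe_injective (k2.symm.trans (h1 n ξ hξ)) ▸ k1)
  have B : ∀ n, ind χ r (j n 0) = ind χ r (j n 1) := fun n =>
    em.ind_eq hr (S := j n '' VV τ) ((VV_convex τ).isPreconnected.image _ (hd n).continuousOn)
      (by rintro _ ⟨ξ, hξ, rfl⟩; exact A n ξ hξ) ⟨0, zero_mem_VV hτ, rfl⟩ ⟨1, one_mem_VV hτ, rfl⟩
  have C : ∀ n, ind χ r (j n 0) = ind χ r (j 0 0) := fun n => by
    induction n with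
    | zero => rfl
    | succ n ih => rw [B, h2, ih]
  have D : y ∉ χ '' sphere 0 r := fun hm => by
    obtain ⟨θ, rfl⟩ := exists_crv hm
    exact (em.wind_chord hr (ee_ne_one hα)).loop.ne θ
      (sub_eq_zero.2 (OnePoint.coe_injective ((hL.map_crv hr θ).symm.trans hy)))
  obtain ⟨n, hn⟩ := (hc.frequently (p := fun z => z ∈ side χ r (ind χ r y))
    ((em.isOpen_side hr _).mem_nhds ⟨D, rfl⟩)).exists
  exact ⟨A, hn.2.symm.trans (C n)⟩

lemma cnt_roots {R : Polynomial ℂ} (h : R ≠ 0) :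
    {c | R.eval c = 0}.Finite ∧ {c | R.eval c = 0}.ncard ≤ R.natDegree := by
  classical
  have : {c | R.eval c = 0} = ↑R.roots.toFinset := by
    ext c; simp [h]
  rw [this, Set.ncard_coe_finset]
  exact ⟨Finset.finite_toSet _, (Multiset.toFinset_card_le _).trans R.card_roots'⟩

theorem Ex.crit_card (h : Ex q β e a b μ x ε) (hf : Mero f (nx q μ x ε) (dx q e x ε)) :
    {c | crit (nx q μ x ε) (dx q e x ε) c = 0}.Finite ∧
      {c | crit (nx q μ x ε) (dx q e x ε) c = 0}.ncard ≤ 2 * (q + 4) := by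
  obtain ⟨P, dP, hP⟩ := cnt_P q μ x ε
  obtain ⟨Q, dQ, hQ, hQ'⟩ := cnt_Q q e x ε
  have q0 : Q.eval (-(e:ℂ)) = 0 := by rw [hQ]; simp [dx, G.dn]
  have eP : nx q μ x ε = fun z => P.eval z := funext fun z => (hP z).symm
  have eQ : dx q e x ε = fun z => Q.eval z := funext fun z => (hQ z).symm
  rw [eP, eQ] at hf ⊢
  have p0 : P.eval (-(e:ℂ)) ≠ 0 := (hf.ne _).resolve_right (not_not.2 q0)
  have e1 : (1:ℂ) + e ≠ 0 := by
    have : (1:ℝ) + e ≠ 0 := by linarith [h.e0]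
    exact_mod_cast this
  have R0 : P.derivative * Q - P * Q.derivative ≠ 0 := fun h1 => by
    have := congrArg (Polynomial.eval (-(e:ℂ))) h1
    rw [Polynomial.eval_sub, Polynomial.eval_mul, Polynomial.eval_mul, q0, hQ', mul_zero, zero_sub,
      Polynomial.eval_zero, neg_eq_zero] at this
    exact mul_ne_zero p0 (pow_ne_zero _ e1) this
  have : {c | crit (fun z => P.eval z) (fun z => Q.eval z) c = 0} =
      {c | (P.derivative * Q - P * Q.derivative).eval c = 0} := by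
    ext c; simp [crit, Polynomial.deriv]
  rw [this]
  refine ⟨(cnt_roots R0).1, (cnt_roots R0).2.trans ((Polynomial.natDegree_sub_le _ _).trans ?_)⟩
  have d1 := P.natDegree_derivative_le
  have d2 := Q.natDegree_derivative_le
  have d3 := Polynomial.natDegree_mul_le (p := P.derivative) (q := Q)
  have d4 := Polynomial.natDegree_mul_le (p := P) (q := Q.derivative)
  omega

theorem Ex.fibre (h : Ex q β e a b μ x ε) (y : ℂ) :
    {z | nx q μ x ε z = y * dx q e x ε z}.Finite := by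
  obtain ⟨P, -, hP⟩ := cnt_P q μ x ε
  obtain ⟨Q, -, hQ, -⟩ := cnt_Q q e x ε
  have hT : ∀ z, (P - Polynomial.C y * Q).eval z = nx q μ x ε z - y * dx q e x ε z := fun z => by
    rw [Polynomial.eval_sub, Polynomial.eval_mul, Polynomial.eval_C, hP, hQ]
  have T0 : P - Polynomial.C y * Q ≠ 0 := fun h1 => by
    rw [h1] at hT
    have y0 : y = 0 := by simpa [nx, dx, G.nm, G.dn, h.e0.ne'] using hT 0
    obtain ⟨a0, b0, x1, -, -⟩ := h.x0
    have r0 : 0 < a / ‖x‖ := div_pos (by linarith) (by linarith)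
    have n1 : ‖((a / ‖x‖ : ℝ) : ℂ)‖ = a / ‖x‖ := by
      rw [Complex.norm_real, Real.norm_of_nonneg r0.le]
    obtain ⟨k1, k2⟩ := h.double n1.ge (n1.le.trans (by gcongr; linarith))
    have k3 := hT ((a / ‖x‖ : ℝ) : ℂ)
    rw [y0, zero_mul, sub_zero, Polynomial.eval_zero] at k3
    rw [← k3, norm_zero, n1] at k2
    have := norm_pos_iff.2 k1
    exact absurd k2 (not_le.2 (by positivity))
  exact (cnt_roots T0).1.subset fun z hz => by
    rw [mem_ofPred_eq, hT]; exact sub_eq_zero.2 hz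

end

end Pool.Agent.Lib.MP_1e9af3_an.H
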