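import Pool.Agent.Lib.MP_1e9af3_an.HDefs

/-! Invariant curves crossing the ring are almost dense; the pushed rotation displaces points. -/

namespace Pool.Agent.Lib.MP_1e9af3_an.H

open Set Filter Topology Complex Metric OnePoint

noncomputable section

lemma dense_unif {α : ℝ} (hα : Irrational α) {ε : ℝ} (hε : 0 < ε) :
    ∃ N : ℕ, ∀ θ : ℝ, ∃ n ≤ N, ∃ m : ℤ, |(n : ℝ) * α + m - θ| < ε := by
  have ho : ∀ n : ℕ, IsOpen {θ : ℝ | ∃ m : ℤ, |(n : ℝ) * α + m - θ| < ε} := fun n => by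
    rw [setOf_exists]
    exact isOpen_iUnion fun m => isOpen_lt (by fun_prop) continuous_const
  obtain ⟨t, ht⟩ := (isCompact_Icc (a := (0:ℝ)) (b := 1)).elim_finite_subcover _ ho
    (fun θ _ => by
      obtain ⟨n, m, h⟩ := dense_orbit hα θ hε
      exact mem_iUnion.2 ⟨n, m, h⟩)
  refine ⟨t.sup id, fun θ => ?_⟩
  have := ht ⟨Int.fract_nonneg θ, (Int.fract_lt_one θ).le⟩
  simp only [mem_iUnion, mem_setOf_eq] at this
  obtain ⟨n, hn, m, h⟩ := this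
  refine ⟨n, Finset.le_sup (f := id) hn, m + ⌊θ⌋, ?_⟩
  have e : (n : ℝ) * α + ((m + ⌊θ⌋ : ℤ) : ℝ) - θ = n * α + m - Int.fract θ := by
    rw [Int.fract]; push_cast; ring
  rwa [e]

lemma dense_lip {σ : ℝ} {x y : ℂ} (hx : x ∈ strip (-σ) σ) (hy : y ∈ strip (-σ) σ) :
    ‖ee x - ee y‖ ≤ 2 * Real.pi * Real.exp (2 * Real.pi * σ) * ‖x - y‖ := by
  refine (convex_strip _ _).norm_image_sub_le_of_norm_deriv_le
    (fun z _ => differentiable_ee z) (fun z hz => ?_) hy hx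
  rw [(hasDerivAt_ee z).deriv, norm_mul, norm_tpi, norm_ee]
  have := Real.pi_pos
  have h1 : -(2 * Real.pi * z.im) ≤ 2 * Real.pi * σ := by nlinarith [hz.1]
  exact mul_le_mul_of_nonneg_left (Real.exp_le_exp.2 h1) (by positivity)

lemma dense_pre {η : ℝ} {u : ℂ → ℂ} (h : Near (9 * η) η u) {w : ℂ} (hw : |w.im| ≤ η) :
    ∃ x ∈ strip (-(9 * η)) (9 * η), x + u x = w ∧ |x.im| ≤ 2 * η := by
  have hη := h.pos
  have h1 := abs_le.1 hw
  obtain ⟨x, hx, e⟩ := h.surj (y := w) ⟨by linarith, by linarith⟩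
  refine ⟨x, hx, e, ?_⟩
  have h2 := abs_le.1 ((abs_im_le_norm _).trans (h.bu x hx))
  have h3 : x.im + (u x).im = w.im := by rw [← e, add_im]
  rw [abs_le]; constructor <;> linarith [h2.1, h2.2]

lemma dense_step {α η k ℓ : ℝ} {u : ℂ → ℂ} {f : Sph → Sph} {Γ : Set ℂ} (h : Near (9 * η) η u)
    (r : Rot α η k ℓ u f) (hΓ : ∀ z ∈ Γ, ∃ y ∈ Γ, f z = (y : ℂ)) (h0 : 0 ≤ ℓ) (h1 : ℓ ≤ η)
    {x : ℂ} (hx : |x.im| < 3 * η) (hm : k * ee (x + u x) ∈ Γ) :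
    ∃ v : ℂ, k * ee (v + u v) ∈ Γ ∧ ‖v - (x + α)‖ ≤ 3 / 2 * ℓ := by
  have hη := h.pos
  have h2 := abs_lt.1 hx
  have hx9 : x ∈ strip (-(9 * η)) (9 * η) := ⟨by linarith, by linarith⟩
  obtain ⟨v, hv, e, -⟩ := h.push (x := x) (α := α) h0 h1 ⟨by linarith, by linarith⟩
  obtain ⟨y, hy, ey⟩ := hΓ _ hm
  rw [r x hx9, OnePoint.coe_eq_coe] at ey
  refine ⟨v, by rw [e, ey]; exact hy, ?_⟩
  have h3 := h.antilip hv (add_real_mem hx9 α)
  rw [e, show x + α + u (x + α) - ℓ * I - (x + α + u (x + α)) = -(ℓ * I) by ring, norm_neg] at h3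
  simpa [abs_of_nonneg h0] using h3

lemma dense_iter {α η k ℓ : ℝ} {u : ℂ → ℂ} {f : Sph → Sph} {Γ : Set ℂ} (h : Near (9 * η) η u)
    (r : Rot α η k ℓ u f) (hΓ : ∀ z ∈ Γ, ∃ y ∈ Γ, f z = (y : ℂ)) (h0 : 0 ≤ ℓ) (h1 : ℓ ≤ η)
    {x : ℂ} (hx : |x.im| ≤ 2 * η) (hm : k * ee (x + u x) ∈ Γ) (n : ℕ)
    (hn : 3 / 2 * (n * ℓ) < η) :
    ∃ v : ℂ, k * ee (v + u v) ∈ Γ ∧ ‖v - (x + (n * α : ℝ))‖ ≤ 3 / 2 * (n * ℓ) := by
  induction n with
  | zero => exact ⟨x, hm, by simp⟩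
  | succ n ih =>
    push_cast at hn
    obtain ⟨v, hv, d⟩ := ih (by nlinarith)
    have h2 := abs_le.1 ((abs_im_le_norm _).trans d)
    simp only [sub_im, add_im, ofReal_im, add_zero] at h2
    have h3 := abs_le.1 hx
    obtain ⟨v', hv', d'⟩ := dense_step h r hΓ h0 h1 (x := v)
      (abs_lt.2 ⟨by nlinarith [h2.1], by nlinarith [h2.2]⟩) hv
    refine ⟨v', hv', ?_⟩
    have e : v' - (x + (((n + 1 : ℕ) : ℝ) * α : ℝ)) =
        (v' - (v + α)) + (v - (x + ((n : ℝ) * α : ℝ))) := by push_cast; ring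
    rw [e]
    refine (norm_add_le _ _).trans ?_
    push_cast at d ⊢
    linarith

theorem dense_curve {α η k ε : ℝ} (hα : Irrational α) (hη : 0 < η) (hk : 0 < k) (hε : 0 < ε) :
    ∃ ℓ₀ > 0, ∀ ℓ, 0 < ℓ → ℓ ≤ ℓ₀ → ∀ (u : ℂ → ℂ) (f : Sph → Sph) (Γ : Set ℂ), Near (9 * η) η u →
      Rot α η k ℓ u f → (∀ z ∈ Γ, ∃ y ∈ Γ, f z = (y : ℂ)) →
      (∀ y ∈ Icc (-(2 * η)) (2 * η), ∃ x : ℂ, x.im = y ∧ k * ee (x + u x) ∈ Γ) →
      ∀ w : ℂ, |w.im| ≤ η → ∃ z ∈ Γ, ‖z - k * ee w‖ < ε := by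
  have hpi := Real.pi_pos
  obtain ⟨L, hL⟩ : ∃ L, L = 2 * Real.pi * Real.exp (2 * Real.pi * (11 * η)) := ⟨_, rfl⟩
  have L0 : 0 < L := by rw [hL]; positivity
  obtain ⟨e, he⟩ : ∃ e, e = ε / (3 * k * L) := ⟨_, rfl⟩
  have e0 : 0 < e := by rw [he]; positivity
  have e1 : 3 * k * L * e = ε := by rw [he]; field_simp
  obtain ⟨N, hN⟩ := dense_unif hα e0
  have m0 : 0 < min η e := lt_min hη e0
  refine ⟨min η e / (2 * (N + 1)), by positivity, fun ℓ l0 l1 u f Γ h r hΓ hc w hw => ?_⟩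
  rw [le_div_iff₀ (by positivity)] at l1
  have N0 : (0:ℝ) ≤ N := Nat.cast_nonneg N
  have l2 : 3 / 2 * (N * ℓ) < min η e := by nlinarith
  have l3 : ℓ ≤ η := by nlinarith [min_le_left η e]
  obtain ⟨x₀, s0, ew, i0⟩ := dense_pre h hw
  obtain ⟨x₁, i1, g1⟩ := hc x₀.im (abs_le.1 i0)
  obtain ⟨n, hn, m, hm⟩ := hN (x₀ - x₁).re
  have hn' : (n : ℝ) * ℓ ≤ N * ℓ := mul_le_mul_of_nonneg_right (Nat.cast_le.2 hn) l0.le
  obtain ⟨v, hv, d⟩ := dense_iter h r hΓ l0.le l3 (x := x₁) (by rwa [i1]) g1 n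
    (by linarith [min_le_left η e])
  refine ⟨_, hv, ?_⟩
  have h2 := abs_le.1 ((abs_im_le_norm _).trans d)
  simp only [sub_im, add_im, ofReal_im, add_zero] at h2
  have h3 := abs_le.1 i0
  have sv : v ∈ strip (-(9 * η)) (9 * η) :=
    ⟨by linarith [min_le_left η e, h2.1], by linarith [min_le_left η e, h2.2]⟩
  have svm : v + m ∈ strip (-(9 * η)) (9 * η) := by simpa using add_real_mem sv m
  have d2 : ‖v + m - x₀‖ ≤ 2 * e := by
    have e2 : v + m - x₀ = (v - (x₁ + ((n : ℝ) * α : ℝ))) +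
        (((n : ℝ) * α + m - (x₀ - x₁).re : ℝ) : ℂ) := by
      apply Complex.ext <;> simp [i1]
      ring
    rw [e2]
    refine (norm_add_le _ _).trans ?_
    rw [norm_real, Real.norm_eq_abs]
    linarith [min_le_right η e]
  have d3 : ‖v + m + u (v + m) - (x₀ + u x₀)‖ ≤ 8 / 3 * e := by
    have e3 : v + m + u (v + m) - (x₀ + u x₀) = (v + m - x₀) + (u (v + m) - u x₀) := by ring
    rw [e3]
    refine (norm_add_le _ _).trans ?_
    linarith [h.lip svm s0]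
  have key : ∀ y ∈ strip (-(9 * η)) (9 * η), y + u y ∈ strip (-(11 * η)) (11 * η) := fun y hy => by
    have h4 := abs_le.1 ((abs_im_le_norm _).trans (h.bu y hy))
    exact ⟨by rw [add_im]; linarith [hy.1, h4.1], by rw [add_im]; linarith [hy.2, h4.2]⟩
  have d4 := dense_lip (key _ svm) (key _ s0)
  have e4 : ee (v + m + u (v + m)) = ee (v + u v) := by
    rw [h.per_z sv, add_right_comm, ee_add_int]
  rw [e4, ← hL] at d4
  rw [← ew, ← mul_sub, norm_mul, norm_real, Real.norm_eq_abs, abs_of_pos hk]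
  have d5 : ‖ee (v + u v) - ee (x₀ + u x₀)‖ ≤ L * (8 / 3 * e) :=
    d4.trans (mul_le_mul_of_nonneg_left d3 L0.le)
  have d6 := mul_le_mul_of_nonneg_left d5 hk.le
  have d7 : 0 < k * L * e := by positivity
  nlinarith

theorem displace {α η k : ℝ} (hα : Irrational α) (hη : 0 < η) (hk : 0 < k) :
    ∃ δ > 0, ∃ ℓ₀ > 0, ∀ ℓ, 0 < ℓ → ℓ ≤ ℓ₀ → ∀ (u : ℂ → ℂ) (f : Sph → Sph), Near (9 * η) η u →
      Rot α η k ℓ u f → ∀ w : ℂ, |w.im| ≤ η → ∀ y : ℂ, f (k * ee w : ℂ) = y →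
      δ ≤ ‖y - k * ee w‖ := by
  have hpi := Real.pi_pos
  obtain ⟨c, hc⟩ : ∃ c, c = |α - round α| := ⟨_, rfl⟩
  have c0 : 0 < c := by
    rw [hc, abs_pos, sub_ne_zero]
    exact hα.ne_int _
  have c1 : ∀ m : ℤ, c ≤ |α - m| := fun m => hc ▸ round_le α m
  have hK : IsCompact (closedBall (α : ℂ) (3 * η) ∩ {D : ℂ | ∀ m : ℤ, c / 3 ≤ ‖D - m‖}) := by
    refine (isCompact_closedBall _ _).inter_right ?_
    rw [setOf_forall]
    exact isClosed_iInter fun m => isClosed_le continuous_const (by fun_prop)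
  obtain ⟨a, a0, ha⟩ := hK.exists_forall_le' (f := fun D => ‖ee D - 1‖) (a := 0)
    (Continuous.continuousOn (by fun_prop)) (fun D hD => by
      rw [norm_pos_iff, sub_ne_zero, ← ee_zero]
      intro hD0
      obtain ⟨m, hm⟩ := ee_eq_iff.1 hD0
      have := hD.2 m
      rw [hm, zero_add, sub_self, norm_zero] at this
      linarith)
  refine ⟨k * Real.exp (-(2 * Real.pi * η)) * a, by positivity, min η (c / 3),
    lt_min hη (by positivity), fun ℓ l0 l1 u f h r w hw y hy => ?_⟩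
  have l2 := l1.trans (min_le_left _ _)
  have l3 := l1.trans (min_le_right _ _)
  obtain ⟨x, s0, ew, -⟩ := dense_pre h hw
  have sa := add_real_mem s0 α
  have hn : ‖(ℓ : ℂ) * I‖ = ℓ := by simp [abs_of_pos l0]
  rw [← ew, r x s0, OnePoint.coe_eq_coe] at hy
  have hD := ha (α + u (x + α) - u x - ℓ * I) ⟨?_, fun m => ?_⟩
  · have e : y - k * ee w = k * ee w * (ee (α + u (x + α) - u x - ℓ * I) - 1) := by
      rw [← hy, mul_sub, mul_one, mul_assoc, ← ee_add, ← ew]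
      congr 3; ring
    rw [e, norm_mul, norm_mul, norm_real, Real.norm_eq_abs, abs_of_pos hk, norm_ee]
    have h1 : Real.exp (-(2 * Real.pi * η)) ≤ Real.exp (-(2 * Real.pi * w.im)) :=
      Real.exp_le_exp.2 (by nlinarith [(abs_le.1 hw).2])
    exact mul_le_mul (mul_le_mul_of_nonneg_left h1 hk.le) hD a0.le (by positivity)
  · rw [mem_closedBall, dist_eq_norm,
      show (α : ℂ) + u (x + α) - u x - ℓ * I - α = u (x + α) - u x - ℓ * I by ring]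
    have h1 := norm_sub_le (u (x + α) - u x) (ℓ * I)
    have h2 := norm_sub_le (u (x + α)) (u x)
    linarith [h.bu _ sa, h.bu _ s0]
  · have sm : x + m ∈ strip (-(9 * η)) (9 * η) := by simpa using add_real_mem s0 m
    have h1 := h.antilip sa sm
    rw [h.per_z s0, show x + α - (x + m) = ((α - m : ℝ) : ℂ) by push_cast; ring, norm_real,
      Real.norm_eq_abs, show x + α + u (x + α) - (x + m + u x) =
        (α + u (x + α) - u x - ℓ * I - m) + ℓ * I by ring] at h1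
    have h2 := norm_add_le ((α : ℂ) + u (x + α) - u x - ℓ * I - m) (ℓ * I)
    linarith [c1 m]

end

end Pool.Agent.Lib.MP_1e9af3_an.H
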