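import Pool.Agent.Lib.MP_1e9af3_an.HArc
import Pool.Agent.Lib.MP_1e9af3_an.HChain
import Pool.Agent.Lib.MP_1e9af3_an.HDisc
import Pool.Agent.Lib.MP_1e9af3_an.HCases
import Pool.Agent.Lib.MP_1e9af3_an.HExit
import Pool.Agent.Lib.MP_1e9af3_an.HCount

/-! The inner backward ray lands at a nonzero fixed point on the side of the origin. -/

namespace Pool.Agent.Lib.MP_1e9af3_an.H

open Set Filter Topology Complex Metric OnePoint

noncomputable section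

variable {q : ℕ} {α β e a b a₁ b₁ r : ℝ} {μ x ε : ℂ} {f : Sph → Sph} {χ : ℂ → ℂ}

lemma inn_half (h : Ex q β e a b μ x ε) (hf : Mero f (nx q μ x ε) (dx q e x ε)) {z y : ℂ}
    (h1 : ‖z‖ ≤ e / 10) (he : f z = y) : ‖y‖ ≤ ‖z‖ / 2 :=
  (h.inner h1 (hf.eq_coe.1 he)).1

lemma inn_dx (h : Ex q β e a b μ x ε) {z : ℂ} (h1 : ‖z‖ ≤ e / 10) : dx q e x ε z ≠ 0 := by
  obtain ⟨-, -, x1, -, x2⟩ := h.x0
  have e0 := h.e0
  have e1 : e ≤ 1 := x2.trans (by rw [div_le_one (by linarith)]; linarith)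
  have n1 : z + e ≠ 0 := by
    rw [← norm_pos_iff]
    linarith [(exit_e e0 z).2.2]
  have n2 : 1 - z ≠ 0 := fun h0 => by
    rw [← sub_eq_zero.1 h0, norm_one] at h1
    linarith
  rw [exit_dx]
  exact mul_ne_zero (mul_ne_zero n1 n2) (pow_ne_zero _ n2)

lemma inn_trap (h : Ex q β e a b μ x ε) (hf : Mero f (nx q μ x ε) (dx q e x ε)) {Ω : Set ℂ}
    (ho : IsOpen Ω) (hs : ball 0 (e / 10) ⊆ Ω)
    (bd : ∀ z ∈ closure Ω, z ∉ Ω → ∀ y ∈ Ω, f z ≠ y) :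
    Trap f Ω (ann (e / 2000) (e / 10)) 8 := by
  have e0 := h.e0
  refine ⟨ho, fun z hz => hs (mem_ball_zero_iff.2 hz.2), bd, fun z m hz h0 hm => ?_⟩
  have key : ∀ i ≤ m, ‖z i‖ * 2 ^ i ≤ e / 10 := by
    intro i
    induction i with
    | zero => intro _; simpa using h0.2.le
    | succ i ih =>
      intro hi
      have h1 := ih (by omega)
      have h2 : (1:ℝ) ≤ 2 ^ i := one_le_pow₀ (by norm_num)
      have h3 : ‖z i‖ ≤ e / 10 := le_trans (le_mul_of_one_le_right (norm_nonneg _) h2) h1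
      have h4 := inn_half h hf h3 (hz.1 i (by omega))
      have h5 : ‖z (i + 1)‖ * 2 ^ i ≤ ‖z i‖ / 2 * 2 ^ i := by gcongr
      rw [pow_succ]
      linarith
  by_contra hn
  have h1 := key m le_rfl
  have h2 : (2:ℝ) ^ 8 ≤ 2 ^ m := pow_le_pow_right₀ (by norm_num) (by omega)
  have h3 : e / 2000 * 2 ^ 8 ≤ ‖z m‖ * 2 ^ m := by
    have := hm.1.le
    gcongr
  norm_num at h3
  linarith

lemma inn_miss (h : Ex q β e a b μ x ε) (hf : Mero f (nx q μ x ε) (dx q e x ε))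
    (hα : Irrational α) (hL : Lin f α χ a₁ b₁) (hr : r ∈ Ioo a₁ b₁) :
    ∀ z ∈ closedBall (0:ℂ) (e / 10), z ∉ χ '' sphere 0 r := by
  intro z hz hm
  have n0 : (0:ℂ) ∉ χ '' sphere 0 r := fun hz => by
    obtain ⟨θ, h0⟩ := exists_crv hz
    have h1 := hL.map_crv hr θ
    rw [← h0, (hf.eq_coe (y := 0)).2 (by simp [exit_nx]), coe_eq_coe] at h1
    exact (hL.toEmb.wind_chord hr (ee_ne_one hα)).loop.ne θ (by rw [← h0, ← h1, sub_zero])
  obtain ⟨w, w1, w2⟩ := (hL.toEmb.isCompact_crv hr).exists_isMinOn ⟨z, hm⟩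
    continuous_norm.continuousOn
  obtain ⟨y, y1, y2⟩ := G.succ_mem hL hr w1
  have h1 : ‖w‖ ≤ ‖z‖ := w2 hm
  have h2 : ‖w‖ ≤ ‖y‖ := w2 y1
  have h3 := inn_half h hf (h1.trans (mem_closedBall_zero_iff.1 hz)) y2
  have h4 : 0 < ‖w‖ := norm_pos_iff.2 fun h0 => n0 (h0 ▸ w1)
  linarith

theorem Ex.inner_ray (h : Ex q β e a b μ x ε) (hf : Mero f (nx q μ x ε) (dx q e x ε))
    (hi : f ∞ = ∞) (hα : Irrational α) (hL : Lin f α χ a₁ b₁) (hr : r ∈ Ioo a₁ b₁) {Ω : Set ℂ}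
    (ho : IsOpen Ω) (hs : ball 0 (e / 10) ⊆ Ω) {M : ℝ} (hb : ∀ z ∈ Ω, ‖z‖ ≤ M)
    (bd : ∀ z ∈ closure Ω, z ∉ Ω → ∀ y ∈ Ω, f z ≠ y) :
    ∃ p : ℂ, p ≠ 0 ∧ f p = p ∧ ‖p‖ ≤ M ∧ ind χ r p = ind χ r 0 := by
  have e0 := h.e0
  have t := inn_trap h hf ho hs bd
  obtain ⟨c1, c2⟩ := h.crit_card hf
  obtain ⟨p1, p2⟩ := pc_card t c1 c2
  have dv : ∀ z : ℂ, ‖z‖ ≤ e / 10 →
      f z = ((nx q μ x ε z / dx q e x ε z : ℂ) : Sph) := fun z hz => hf.of_ne (inn_dx h hz)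
  obtain ⟨τ, hτ, H⟩ := uniform_arcs (T := Unit) (g := fun _ z => nx q μ x ε z / dx q e x ε z)
    (ρ := fun _ => e / 20) (R₁ := fun _ => e / 2000) (R₂ := fun _ => e / 10)
    continuous_const continuous_const (fun _ => by positivity)
    (fun _ => ⟨by linarith, by linarith⟩) (fun _ _ _ => continuousAt_const)
    (fun _ z hz => by
      have h1 : ‖z‖ ≤ e / 10 := by linarith
      obtain ⟨k1, k2⟩ := h.inner h1 (hf.eq_coe.1 (dv z h1))
      exact ⟨⟨k2 hz, by linarith⟩, by intro h0; linarith⟩)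
    (fun _ y => (h.fibre y).subset fun z hz => by
      have h1 : ‖z‖ ≤ e / 10 := by linarith [hz.1]
      exact (div_eq_iff (inn_dx h h1)).1 hz.2)
    (2 * (q + 4) * 8)
  obtain ⟨j₀, d0, e1, m0⟩ := H () _ p1 p2 fun y hy => hy.1
  have z0 := (m0 0 (zero_mem_VV hτ)).1
  obtain ⟨j, j0, j1, j2, j3, y, y1, y2⟩ := chain hf hi t hb hτ d0.differentiableOn m0
    (by rw [dv _ z0.2.le, e1])
  have ms := inn_miss h hf hα hL hr
  have mb : ∀ ξ ∈ VV τ, j 0 ξ ∈ closedBall (0:ℂ) (e / 10) := fun ξ hξ => by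
    rw [j0]; exact mem_closedBall_zero_iff.2 (m0 ξ hξ).1.2.le
  obtain ⟨-, i1⟩ := ray_ind hα hL hr hτ j1 (fun n ξ hξ => (j2 n ξ hξ).2) j3
    (fun ξ hξ => ms _ (mb ξ hξ)) y1 y2
  have i2 := hL.toEmb.ind_eq hr (convex_closedBall (0:ℂ) (e / 10)).isPreconnected ms
    (mb 0 (zero_mem_VV hτ)) (mem_closedBall_self (by positivity))
  have low : ∀ n, e / 2000 < ‖j n 0‖ := by
    intro n
    induction n with
    | zero => rw [j0]; exact z0.1
    | succ n ih =>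
      by_contra hn
      have h1 : ‖j (n + 1) 0‖ ≤ e / 2000 := not_lt.1 hn
      have := inn_half h hf (z := j (n + 1) 0) (by linarith) (j2 n 0 (zero_mem_VV hτ)).2
      linarith
  have cl : IsClosed {z : ℂ | e / 2000 ≤ ‖z‖ ∧ ‖z‖ ≤ M} :=
    (isClosed_le continuous_const continuous_norm).inter
      (isClosed_le continuous_norm continuous_const)
  have ym : y ∈ {z : ℂ | e / 2000 ≤ ‖z‖ ∧ ‖z‖ ≤ M} :=
    cl.mem_of_mapClusterPt y2 (Eventually.of_forall fun n =>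
      ⟨(low n).le, hb _ (j2 n 0 (zero_mem_VV hτ)).1⟩)
  refine ⟨y, fun h0 => ?_, y1, ym.2, i1.trans i2⟩
  have := ym.1
  rw [h0, norm_zero] at this
  linarith

end

end Pool.Agent.Lib.MP_1e9af3_an.H
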