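import Pool.Agent.Lib.MP_1e9af3_an.HOuter
import Pool.Agent.Lib.MP_1e9af3_an.HInner
import Pool.Agent.Lib.MP_1e9af3_an.HDense
import Pool.Agent.Lib.MP_1e9af3_an.HCases
import Pool.Agent.Lib.MP_1e9af3_an.GBase

/-! A ring curve cannot cross the pushed annulus at exit parameters. -/

namespace Pool.Agent.Lib.MP_1e9af3_an.H

open Set Filter Topology Complex Metric OnePoint

noncomputable section

variable {q : ℕ} {α β e a b a₁ b₁ r : ℝ} {μ x ε : ℂ} {f : Sph → Sph} {χ : ℂ → ℂ}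

section aux

variable {η k R : ℝ} {u : ℂ → ℂ}

lemma crs_norm (hk : 0 < k) (w : ℂ) : ‖(k:ℂ) * ee w‖ = k * ri w.im := by
  rw [norm_mul, G.norm_ee', Complex.norm_real, Real.norm_of_nonneg hk.le]

lemma crs_log (hk : 0 < k) {z : ℂ} (hz : z ≠ 0) : ∃ w, z = k * ee w := by
  have h : (k:ℂ) ≠ 0 := by exact_mod_cast hk.ne'
  exact ⟨log (z / k) / tpi, by rw [ee_log (div_ne_zero hz h), mul_div_cancel₀ _ h]⟩

lemma crs_level (hk : 0 < k) (hn : Near (9 * η) η u) {y : ℝ} (hy : y ∈ Ioo (-(9 * η)) (9 * η))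
    {z : ℂ} (hz : z ∈ lz (fun w => k * w) u '' sphere 0 (ri y)) :
    ∃ x : ℂ, x.im = y ∧ z = k * ee (x + u x) ∧ k * ri (y + η) ≤ ‖z‖ ∧ ‖z‖ ≤ k * ri (y - η) := by
  obtain ⟨θ, rfl⟩ := exists_crv hz
  rw [hn.crv_eq _ hy]
  have h1 : ((θ:ℂ) + y * I).im = y := by simp
  have h2 := abs_le.1 ((abs_im_le_norm _).trans (hn.bu _ (line_mem hy θ)))
  refine ⟨θ + y * I, h1, rfl, ?_, ?_⟩
  · rw [crs_norm hk, add_im, h1]
    exact mul_le_mul_of_nonneg_left (ri_le (by linarith [h2.2])) hk.le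
  · rw [crs_norm hk, add_im, h1]
    exact mul_le_mul_of_nonneg_left (ri_le (by linarith [h2.1])) hk.le

lemma crs_in (s : G.Sc q η β k e R) (hn : Near (9 * η) η u) {y : ℝ}
    (hy : y ∈ Ioo (-(9 * η)) (9 * η)) {z : ℂ} (hz : ‖z‖ < k * ri (y + η)) :
    z ∈ side (lz (fun w => k * w) u) (ri y) 1 := by
  have em := hn.emb s.emb (by linarith [s.η0])
  have hr : ri y ∈ Ioo (ri (9 * η)) (ri (-(9 * η))) := ⟨ri_lt hy.2, ri_lt hy.1⟩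
  refine em.sub_side hr (convex_ball (0:ℂ) (k * ri (y + η))).isPreconnected (fun w hw h1 => ?_)
    (mem_ball_self (mul_pos s.k0 (ri_pos _))) (G.nout_of_wind em hr (s.wind0 hn hy)).2
    (mem_ball_zero_iff.2 hz)
  obtain ⟨_, -, -, h2, -⟩ := crs_level s.k0 hn hy h1
  exact h2.not_gt (mem_ball_zero_iff.1 hw)

lemma crs_out (s : G.Sc q η β k e R) (hn : Near (9 * η) η u) {y : ℝ}
    (hy : y ∈ Ioo (-(9 * η)) (9 * η)) {z : ℂ} (hz : k * ri (y - η) < ‖z‖) :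
    z ∈ side (lz (fun w => k * w) u) (ri y) 0 := by
  have em := hn.emb s.emb (by linarith [s.η0])
  have hr : ri y ∈ Ioo (ri (9 * η)) (ri (-(9 * η))) := ⟨ri_lt hy.2, ri_lt hy.1⟩
  refine ⟨fun h1 => ?_, em.ind_large hr fun θ => ?_⟩
  · obtain ⟨_, -, -, -, h2⟩ := crs_level s.k0 hn hy h1
    exact h2.not_gt hz
  · obtain ⟨_, -, -, -, h2⟩ := crs_level s.k0 hn hy (crv_mem (ri_pos y).le θ)
    exact h2.trans_lt hz

lemma crs_small (s : G.Sc q η β k e R) {y : ℝ} (hy : y ≤ 16 * η) : e < k * ri y := by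
  have h1 := G.ri_mul_neg (16 * η)
  have h2 := ri_pos (16 * η)
  have h3 := ri_le hy
  have h4 := s.k0
  have h5 : e * ri (-(16 * η)) ≤ 1 / 2 * k := s.s1.trans (by gcongr; exact s.hβ)
  calc e = e * ri (-(16 * η)) * ri (16 * η) := by rw [mul_assoc, mul_comm (ri _), h1, mul_one]
    _ ≤ 1 / 2 * k * ri (16 * η) := by gcongr
    _ < k * ri (16 * η) := by nlinarith [mul_pos h4 h2]
    _ ≤ k * ri y := by gcongr

lemma crs_big (s : G.Sc q η β k e R) (h0 : 0 < ‖x‖) (hR : ‖x‖ ≤ R) {y : ℝ}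
    (hy : -(16 * η) ≤ y) : k * ri y < 1 / ‖x‖ := by
  have h3 := ri_le hy
  have h4 := s.k0
  have h5 := ri_pos y
  have h6 := s.R0
  rw [lt_div_iff₀ h0]
  calc k * ri y * ‖x‖ ≤ k * ri (-(16 * η)) * R := by gcongr; exact (mul_pos h4 (ri_pos _)).le
    _ = R * k * ri (-(16 * η)) := by ring
    _ < 1 := by linarith [s.s2, s.hβ]

lemma crs_meet (s : G.Sc q η β k e R) (hn : Near (9 * η) η u) (h0 : 0 < ‖x‖) (hR : ‖x‖ ≤ R)
    {Γ : Set ℂ} (hΓ : IsPreconnected Γ) (h1 : ∃ z ∈ Γ, ‖z‖ ≤ e) (h2 : ∃ z ∈ Γ, 1 / ‖x‖ ≤ ‖z‖) :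
    ∀ y ∈ Icc (-(2 * η)) (2 * η), ∃ x : ℂ, x.im = y ∧ k * ee (x + u x) ∈ Γ := by
  intro y hy
  have := s.η0
  have hy' : y ∈ Ioo (-(9 * η)) (9 * η) := ⟨by linarith [hy.1], by linarith [hy.2]⟩
  by_contra hc
  obtain ⟨z, z1, z2⟩ := h1
  obtain ⟨w, w1, w2⟩ := h2
  have em := hn.emb s.emb (by linarith [s.η0])
  refine side_disj (em.sub_side ⟨ri_lt hy'.2, ri_lt hy'.1⟩ hΓ (fun v hv h3 => ?_) z1
    (crs_in s hn hy' (z2.trans_lt (crs_small s (by linarith [hy.2])))) w1)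
    (crs_out s hn hy' ((crs_big s h0 hR (by linarith [hy.1])).trans_le w2))
  obtain ⟨x', e1, e2, -⟩ := crs_level s.k0 hn hy' h3
  exact hc ⟨x', e1, e2 ▸ hv⟩

lemma crs_bd (s : G.Sc q η β k e R) (hn : Near (9 * η) η u) {ℓ : ℝ} (l0 : 0 < ℓ) (l1 : ℓ ≤ η)
    (hR : Rot α η k ℓ u f) : ∀ z ∈ closure (side (lz (fun w => k * w) u) (ri η) 1),
      z ∉ side (lz (fun w => k * w) u) (ri η) 1 →
      ∀ y ∈ side (lz (fun w => k * w) u) (ri η) 1, f z ≠ y := by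
  intro z hz hz' y hy he
  have := s.η0
  have hy' : η ∈ Ioo (-(9 * η)) (9 * η) := ⟨by linarith, by linarith⟩
  have em := hn.emb s.emb (by linarith [s.η0])
  have hr : ri η ∈ Ioo (ri (9 * η)) (ri (-(9 * η))) := ⟨ri_lt hy'.2, ri_lt hy'.1⟩
  obtain ⟨x, e1, rfl, -⟩ := crs_level s.k0 hn hy' ((em.closure_side hr hz).resolve_right hz')
  obtain ⟨v, v1, v2, -, v3⟩ := hn.push (α := α) l0.le l1 (x := x)
    ⟨by rw [e1]; linarith, by rw [e1]; linarith⟩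
  rw [hR x ⟨by rw [e1]; linarith, by rw [e1]; linarith⟩, coe_eq_coe, ← v2] at he
  refine side_disj hy ?_
  rw [← (G.nout_of_wind em hr (s.wind0 hn hy')).1]
  refine em.out_sub hr ⟨ee v, ⟨?_, (ee_mem_sann.2 v1).2⟩, by rw [hn.lz_ee _ v1, he]⟩
  rw [G.norm_ee']
  exact ri_lt (by linarith)

lemma crs_stay {η k τ δ ρ : ℝ} (hη : 0 < η) (hk : 0 < k) (hτ : 0 < τ) {Γ : Set ℂ} {j : ℂ → ℂ}
    (hd : DifferentiableOn ℂ j (VV τ)) (hj : ∀ ξ ∈ VV τ, j ξ ∉ Γ) (he : f (j 0) = j 1)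
    (h1 : k * ri (-η) < ‖j 1‖)
    (dis : ∀ w : ℂ, |w.im| ≤ η → ∀ y : ℂ, f (k * ee w : ℂ) = y → δ ≤ ‖y - k * ee w‖)
    (dd : min δ (k * ri (-η) - k * ri η) ≤ ‖j 0 - j 1‖ →
      ∀ ξ ∈ segment ℝ (0:ℂ) 1, ball (j ξ) ρ ⊆ j '' VV τ)
    (den : ∀ w : ℂ, |w.im| ≤ η → ∃ z ∈ Γ, ‖z - k * ee w‖ < ρ) : k * ri (-η) < ‖j 0‖ := by
  by_contra hc
  rw [not_lt] at hc
  have h2 : min δ (k * ri (-η) - k * ri η) ≤ ‖j 0 - j 1‖ := by
    rw [norm_sub_rev]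
    rcases le_or_gt ‖j 0‖ (k * ri η) with h3 | h3
    · exact (min_le_right _ _).trans (by linarith [norm_sub_norm_le (j 1) (j 0)])
    · obtain ⟨w, hw⟩ := crs_log hk
        (norm_pos_iff.1 ((mul_pos hk (ri_pos η)).trans h3))
      rw [hw] at he hc h3 ⊢
      rw [crs_norm hk] at hc h3
      exact (min_le_left _ _).trans (dis w (abs_le.2
        ⟨G.ri_le_iff.1 (le_of_mul_le_mul_left hc hk),
          G.ri_le_iff.1 (le_of_mul_le_mul_left h3.le hk)⟩) _ he)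
  obtain ⟨ξ, hξ, h3⟩ := (convex_segment (0:ℂ) 1).isPreconnected.intermediate_value
    (left_mem_segment ℝ _ _) (right_mem_segment ℝ _ _)
    (hd.continuousOn.mono (seg_sub hτ)).norm ⟨hc, h1.le⟩
  obtain ⟨w, hw⟩ := crs_log hk (z := j ξ)
    (norm_pos_iff.1 ((mul_pos hk (ri_pos (-η))).trans_eq h3.symm))
  simp only [hw, crs_norm hk] at h3
  have h4 := mul_left_cancel₀ hk.ne' h3
  obtain ⟨z, z1, z2⟩ := den w (abs_le.2 ⟨G.ri_le_iff.1 h4.le,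
    (G.ri_le_iff.1 h4.ge).trans (by linarith)⟩)
  obtain ⟨ξ', h5, rfl⟩ := dd h2 ξ hξ (show z ∈ ball (j ξ) ρ by rwa [mem_ball_iff_norm, hw])
  exact hj ξ' h5 z1

end aux

theorem no_cross {η k R δ : ℝ} (a b : ℝ) (hα : Irrational α) (s : G.Sc q η β k e R) (hδ : 0 < δ) :
    ∃ ℓ₀ > 0, ∀ ℓ, 0 < ℓ → ℓ ≤ ℓ₀ → ∀ (μ x ε : ℂ) (u : ℂ → ℂ) (f : Sph → Sph) (χ : ℂ → ℂ)
      (a₁ b₁ r : ℝ), Ex q β e a b μ x ε → δ ≤ ‖1 - ε‖ → ‖x‖ ≤ R →
      Mero f (nx q μ x ε) (dx q e x ε) → f ∞ = ∞ → Near (9 * η) η u → Rot α η k ℓ u f →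
      Lin f α χ a₁ b₁ → r ∈ Ioo a₁ b₁ → nout χ a₁ b₁ = 0 →
      wind (fun θ => dx q e x ε (crv χ r θ)) = 1 → (∀ z ∈ χ '' sphere 0 r, ‖z‖ < a / ‖x‖) →
      ind χ r 0 = 0 → (∃ z ∈ χ '' sphere 0 r, ‖z‖ ≤ e) → (∃ z ∈ χ '' sphere 0 r, 1 / ‖x‖ ≤ ‖z‖) →
      False := by
  have η0 := s.η0
  have k0 := s.k0
  obtain ⟨τ, hτ, HO⟩ := outer_ray q β e a b hδ
  obtain ⟨δ₁, hδ₁, ℓ₁, hℓ₁, HD⟩ := displace hα η0 k0
  have hδ₂ : 0 < min δ₁ (k * ri (-η) - k * ri η) :=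
    lt_min hδ₁ (sub_pos.2 (mul_lt_mul_of_pos_left (ri_lt (by linarith)) k0))
  obtain ⟨ρ, hρ, HB⟩ := definite_disc 1 hτ hδ₂
  obtain ⟨ℓ₂, hℓ₂, HC⟩ := dense_curve hα η0 k0 hρ
  refine ⟨min η (min ℓ₁ ℓ₂), by positivity, ?_⟩
  intro ℓ l0 l1 μ x ε u f χ a₁ b₁ r h h1 hR hf hi hn ro hL hr h0 hw hb i0 c1 c2
  simp only [le_min_iff] at l1
  obtain ⟨x1, -, x2, -⟩ := h.x0
  have x0 : 0 < ‖x‖ := by linarith
  have x3 : 1 / ‖x‖ ≤ a / ‖x‖ := by gcongr; linarith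
  have hy' : η ∈ Ioo (-(9 * η)) (9 * η) := ⟨by linarith, by linarith⟩
  have em := hn.emb s.emb (by linarith [s.η0])
  obtain ⟨p, p0, p1, p2, p3⟩ := h.inner_ray hf hi hα hL hr
    (em.isOpen_side ⟨ri_lt hy'.2, ri_lt hy'.1⟩ 1) (M := k)
    (fun z hz => crs_in s hn hy' ((mem_ball_zero_iff.1 hz).trans
      ((by linarith [s.e0] : e / 10 < e).trans (crs_small s (by linarith)))))
    (fun z hz => not_lt.1 fun h2 => side_disj hz (crs_out s hn hy' (by simpa [ri_zero] using h2)))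
    (crs_bd s hn l0 l1.1 ro)
  obtain ⟨j, j1, j2, j3, j4, y, y1, y2, y3⟩ := HO μ x ε f h h1 hf hi
  obtain ⟨r1, r2⟩ := ray_ind hα hL hr hτ j1 (fun n ξ hξ => (j3 n ξ hξ).2) j4
    (fun ξ hξ h2 => (hb _ h2).not_gt (j2 ξ hξ)) y1 y3
  rw [hL.toEmb.ind_large hr fun θ =>
    (hb _ (crv_mem (hL.ha.trans hr.1.le) θ)).trans (j2 0 (zero_mem_VV hτ))] at r2
  have den := HC ℓ l0 l1.2.2 u f _ hn ro (fun z hz => G.succ_mem hL hr hz)
    (crs_meet s hn x0 hR (hL.toEmb.isPreconnected_crv hr) c1 c2)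
  have big : k * ri (-η) < a / ‖x‖ := (crs_big s x0 hR (by linarith)).trans_le x3
  have key : ∀ n, k * ri (-η) < ‖j n 0‖ := by
    intro n
    induction n with
    | zero => exact big.trans (j2 0 (zero_mem_VV hτ))
    | succ n ih =>
      exact crs_stay η0 k0 hτ (j1 _) (r1 _) (by rw [j4]; exact (j3 n 0 (zero_mem_VV hτ)).2)
        (by rwa [j4]) (HD ℓ l0 l1.2.1 u f hn ro) (HB _ (j1 _) fun ξ hξ => (j3 _ ξ hξ).1) den
  have y4 : k * ri (-η) ≤ ‖y‖ :=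
    (isClosed_le continuous_const continuous_norm).mem_of_mapClusterPt y3
      (Eventually.of_forall fun n => (key n).le)
  have k1 : k < k * ri (-η) := lt_mul_of_one_lt_right k0 (one_mem_ri η0).2
  exact h.fix_count hf hα hL hr h0 hw hb i0 p0 (norm_pos_iff.1 (by linarith))
    (fun h2 => by rw [h2] at p2; linarith) p1 y1 (by linarith) y2 (p3.trans i0) r2

end

end Pool.Agent.Lib.MP_1e9af3_an.H
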