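import Pool.Agent.Lib.MP_1e9af3_an.GGeo

/-! Definitions for backward rays and exit estimates. -/

namespace Pool.Agent.Lib.MP_1e9af3_an.H

open Set Filter Topology Complex Metric OnePoint

noncomputable section

/-- A thin convex neighbourhood of the unit segment. -/
def VV (τ : ℝ) : Set ℂ := thickening τ (segment ℝ (0:ℂ) 1)

lemma VV_open (τ : ℝ) : IsOpen (VV τ) := isOpen_thickening

lemma VV_convex (τ : ℝ) : Convex ℝ (VV τ) := (convex_segment _ _).thickening τ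

lemma seg_sub {τ : ℝ} (hτ : 0 < τ) : segment ℝ (0:ℂ) 1 ⊆ VV τ := self_subset_thickening hτ _

lemma zero_mem_VV {τ : ℝ} (hτ : 0 < τ) : (0:ℂ) ∈ VV τ := seg_sub hτ (left_mem_segment _ _ _)

lemma one_mem_VV {τ : ℝ} (hτ : 0 < τ) : (1:ℂ) ∈ VV τ := seg_sub hτ (right_mem_segment _ _ _)

/-- The numerator of the derivative of `p / q`. -/
def crit (p q : ℂ → ℂ) (c : ℂ) : ℂ := deriv p c * q c - p c * deriv q c

/-- A finite orbit segment inside `Ω`. -/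
def Orb (f : Sph → Sph) (Ω : Set ℂ) (z : ℕ → ℂ) (m : ℕ) : Prop :=
  (∀ i < m, f (z i) = z (i + 1)) ∧ ∀ i ≤ m, z i ∈ Ω

/-- The boundary of `Ω` is mapped off `Ω`, and orbits inside `Ω` do not come back to `Φ`. -/
structure Trap (f : Sph → Sph) (Ω Φ : Set ℂ) (L : ℕ) : Prop where
  op : IsOpen Ω
  sub : Φ ⊆ Ω
  bd : ∀ x ∈ closure Ω, x ∉ Ω → ∀ y ∈ Ω, f x ≠ y
  vis : ∀ z m, Orb f Ω z m → z 0 ∈ Φ → z m ∈ Φ → m < L

/-- The relevant postcritical points. -/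
def PC (f : Sph → Sph) (p q : ℂ → ℂ) (Ω Φ : Set ℂ) : Set ℂ :=
  {y | y ∈ Φ ∧ ∃ c z m, crit p q c = 0 ∧ f c = (z 0 : ℂ) ∧ Orb f Ω z m ∧ z m = y}

/-- The pushed rotation in the coordinate of the strip. -/
def Rot (α η k ℓ : ℝ) (u : ℂ → ℂ) (f : Sph → Sph) : Prop :=
  ∀ x ∈ strip (-(9 * η)) (9 * η),
    f (k * ee (x + u x) : ℂ) = (k * ee (x + α + u (x + α) - ℓ * I) : ℂ)

/-- Exit parameters. -/
structure Ex (q : ℕ) (β e a b : ℝ) (μ x ε : ℂ) : Prop where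
  sm : G.Sm q β (1 / 2)
  hβ : β ≤ 1 / 2
  e0 : 0 < e
  μ1 : 1 / 2 ≤ ‖μ‖
  μ2 : ‖μ‖ ≤ 2
  a0 : 1000 * 5 ^ q ≤ a
  b0 : 8 * 3 ^ q * (a + 2) ^ 3 < b
  xb : 2 * b ≤ ‖x‖
  xe : e * ‖x‖ ≤ β
  ex : ‖ε‖ ≤ ‖x‖
  e1 : ε ≠ 1
  far : 2 * b * ‖ε‖ ≤ ‖x‖ ∨ 2 * ‖x‖ ≤ a * ‖ε‖

/-- Numerator at exit parameters. -/
abbrev nx (q : ℕ) (μ x ε z : ℂ) : ℂ := G.nm q μ (ε, x, -1, 1, 1) z 1

/-- Denominator at exit parameters. -/
abbrev dx (q : ℕ) (e : ℝ) (x ε z : ℂ) : ℂ := G.dn q (-e) (ε, x, -1, 1, 1) z 1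

end

end Pool.Agent.Lib.MP_1e9af3_an.H
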