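import Pool.Agent.Lib.MP_1e9af3_an.GBase

/-! The family in symmetric coordinates. -/

namespace Pool.Agent.Lib.MP_1e9af3_an.H

open Set Filter Topology Complex Metric OnePoint

noncomputable section

/-- Numerator, with the sum and the product of two zeros as parameters. -/
def nm (q : ℕ) (μ : ℂ) (p : Pm) (X Y : ℂ) : ℂ :=
  μ * X ^ 2 * (Y ^ 2 - p.1 * X * Y + p.2.1 * X ^ 2) * (Y - p.2.2.1 * X) ^ q

/-- Homogeneous lift. -/
def fF (q : ℕ) (μ e : ℂ) (p : Pm) (w : ℂ × ℂ) : ℂ × ℂ := (nm q μ p w.1 w.2, G.dn q e p w.1 w.2)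

lemma exists_roots (s t : ℂ) : ∃ r : ℂ × ℂ, ‖r.1‖ ≤ ‖r.2‖ ∧ r.2 + r.1 = s ∧ r.2 * r.1 = t := by
  obtain ⟨w, hw⟩ := IsAlgClosed.exists_pow_nat_eq (s ^ 2 - 4 * t) two_pos
  rcases le_total ‖(s - w) / 2‖ ‖(s + w) / 2‖ with h | h
  · exact ⟨((s - w) / 2, (s + w) / 2), h, by ring, by linear_combination (-1 / 4) * hw⟩
  · exact ⟨((s + w) / 2, (s - w) / 2), h, by ring, by linear_combination (-1 / 4) * hw⟩

/-- The parameters with the two zeros solved for. -/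
def rr (p : Pm) : Pm :=
  ((exists_roots p.1 p.2.1).choose.1, (exists_roots p.1 p.2.1).choose.2, p.2.2)

lemma rr_spec (p : Pm) : ‖(rr p).1‖ ≤ ‖(rr p).2.1‖ ∧ (rr p).2.1 + (rr p).1 = p.1 ∧
    (rr p).2.1 * (rr p).1 = p.2.1 := (exists_roots p.1 p.2.1).choose_spec

lemma rr_rest (p : Pm) : (rr p).2.2 = p.2.2 := rfl

variable {q : ℕ} {μ e : ℂ} {p : Pm}

lemma nm_of {p' : Pm} (h1 : p'.2.1 + p'.1 = p.1) (h2 : p'.2.1 * p'.1 = p.2.1)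
    (h3 : p'.2.2 = p.2.2) (X Y : ℂ) : G.nm q μ p' X Y = nm q μ p X Y := by
  rw [G.nm, nm, ← h1, ← h2, h3]; ring

lemma fF_of {p' : Pm} (h1 : p'.2.1 + p'.1 = p.1) (h2 : p'.2.1 * p'.1 = p.2.1)
    (h3 : p'.2.2 = p.2.2) : G.fF q μ e p' = fF q μ e p := by
  funext w; rw [G.fF, fF, nm_of h1 h2 h3, G.dn, G.dn, h3]

lemma nm_rr (X Y : ℂ) : G.nm q μ (rr p) X Y = nm q μ p X Y :=
  nm_of (rr_spec p).2.1 (rr_spec p).2.2 rfl X Y

lemma dn_rr (X Y : ℂ) : G.dn q e (rr p) X Y = G.dn q e p X Y := rfl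

lemma rr_le {R : ℝ} (hR : 1 ≤ R) (hp : ‖p‖ ≤ R) : ‖rr p‖ ≤ 2 * R := by
  obtain ⟨k1, k2, k3, k4, k5⟩ := G.pm_le hp
  obtain ⟨h1, h2, h3⟩ := rr_spec p
  have h4 : ‖(rr p).2.1‖ ≤ 2 * R := by
    have h5 : (rr p).2.1 * (rr p).2.1 = p.1 * (rr p).2.1 - p.2.1 := by rw [← h2, ← h3]; ring
    have h6 := norm_sub_le (p.1 * (rr p).2.1) p.2.1
    rw [← h5, norm_mul, norm_mul] at h6
    have h7 : ‖p.1‖ * ‖(rr p).2.1‖ ≤ R * ‖(rr p).2.1‖ := by gcongr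
    nlinarith
  simp only [Prod.norm_def, max_le_iff, rr_rest]
  exact ⟨h1.trans h4, h4, by linarith, by linarith, by linarith⟩

/-- Nondegeneracy. -/
structure ND (q : ℕ) (μ e : ℂ) (p : Pm) : Prop where
  hμ : μ ≠ 0
  he : e ≠ 0
  h0 : ∀ a, a ^ 2 - p.1 * a + p.2.1 = 0 → Ok e p a
  h2 : Ok e p p.2.2.1

lemma ND.toG' (h : ND q μ e p) {p' : Pm} (h1 : p'.2.1 + p'.1 = p.1) (h2 : p'.2.1 * p'.1 = p.2.1)
    (h3 : p'.2.2 = p.2.2) : G.ND q μ e p' := by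
  have k : ∀ a, Ok e p a → Ok e p' a := fun a ha => by rwa [Ok, h3]
  exact ⟨h.hμ, h.he, k _ (h.h0 _ (by rw [← h1, ← h2]; ring)),
    k _ (h.h0 _ (by rw [← h1, ← h2]; ring)), k _ (h3 ▸ h.h2)⟩

lemma ND.toG (h : ND q μ e p) : G.ND q μ e (rr p) := h.toG' (rr_spec p).2.1 (rr_spec p).2.2 rfl

lemma ND.ofG {ε x y u v : ℂ} (h : G.ND q μ e (ε, x, y, u, v)) :
    ND q μ e (x + ε, x * ε, y, u, v) := by
  refine ⟨h.hμ, h.he, fun a ha => ?_, h.h2⟩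
  have : (a - x) * (a - ε) = 0 := by linear_combination ha
  rcases mul_eq_zero.1 this with h1 | h1 <;> rw [sub_eq_zero.1 h1]
  exacts [h.h1, h.h0]

lemma ND.change {μ' : ℂ} (h : ND q μ e p) (h' : μ' ≠ 0) : ND q μ' e p := ⟨h', h.he, h.h0, h.h2⟩

/-- The family. -/
def fam (q : ℕ) (μ e : ℂ) (p : Pm) : RatMap (q + 4) := G.fam q μ e (rr p)

lemma ND.hom (h : ND q μ e p) : Hom (q + 4) (fF q μ e p) :=
  fF_of (rr_spec p).2.1 (rr_spec p).2.2 rfl ▸ h.toG.hom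

lemma ND.fam_eq (h : ND q μ e p) : ⇑(fam q μ e p).1 = act (fF q μ e p) := by
  rw [fam, h.toG.fam_eq, fF_of (rr_spec p).2.1 (rr_spec p).2.2 rfl]

lemma fam_G {ε x y u v : ℂ} (h : G.ND q μ e (ε, x, y, u, v)) :
    fam q μ e (x + ε, x * ε, y, u, v) = G.fam q μ e (ε, x, y, u, v) := by
  ext z
  rw [(ND.ofG h).fam_eq, h.fam_eq,
    fF_of (p := (x + ε, x * ε, y, u, v)) (p' := (ε, x, y, u, v)) rfl rfl rfl]

lemma cont_fam {T : Type*} [TopologicalSpace T] {S : Set T} {μ : T → ℂ} {p : T → Pm}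
    (h1 : ContinuousOn μ S) (h2 : ContinuousOn p S) (h : ∀ t ∈ S, ND q (μ t) e (p t)) :
    ContinuousOn (fun t => fam q (μ t) e (p t)) S := by
  rw [continuousOn_iff_continuous_domRestrict] at h1 h2 ⊢
  refine continuous_induced_rng.2 (ContinuousMap.continuous_of_continuous_uncurry _ ?_)
  have := continuous_act (F := fun t : S => fF q (S.domRestrict μ t) e (S.domRestrict p t))
    (fun t => (h t t.2).hom) (by unfold fF nm G.dn; fun_prop)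
  exact this.congr fun q => (congrFun (h _ q.1.2).fam_eq q.2).symm

lemma ND.fam_pr (h : ND q μ e p) {X Y : ℂ} (hv : X ≠ 0 ∨ Y ≠ 0) :
    (fam q μ e p).1 (pr X Y) = pr (nm q μ p X Y) (G.dn q e p X Y) := by
  rw [h.fam_eq]; exact h.hom.act_pv (v := (X, Y)) (ne_zero_iff'.2 hv)

lemma ND.mero (h : ND q μ e p) :
    Mero (fam q μ e p).1 (fun z => nm q μ p z 1) (fun z => G.dn q e p z 1) := by
  simpa only [nm_rr, dn_rr, fam] using h.toG.mero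

lemma ND.infty (h : ND q μ e p) : (fam q μ e p).1 ∞ = ∞ := h.toG.infty

lemma ND.esc (h : ND q μ e p) :
    ∃ R, ∀ᶠ x : ℂ × Pm in 𝓝 (μ, p), ND q x.1 e x.2 → Esc (fam q x.1 e x.2).1 R := by
  have E : ∀ᶠ x : (ℂ × Pm) × ℂ in 𝓝 ((μ, p), 0), 2 * ‖x.2 * (1 - e * x.2) *
      (x.2 - x.1.2.2.2.2.1) * (x.2 - x.1.2.2.2.2.2) ^ q‖ < ‖nm q x.1.1 x.1.2 1 x.2‖ := by
    refine ContinuousAt.eventually_lt (by fun_prop) (by unfold nm; fun_prop) ?_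
    have h1 : p.2.1 ≠ 0 := fun h0 => (h.h0 0 (by simp [h0])).1 rfl
    simp [nm, h.hμ, h1, h.h2.1]
  rw [nhds_prod_eq] at E
  obtain ⟨U, u1, V, u2, hU⟩ := eventually_prod_iff.1 E
  obtain ⟨δ, hδ, hB⟩ := Metric.mem_nhds_iff.1 u2
  refine ⟨2 / δ, u1.mono fun x hx hn => ⟨by positivity, hn.infty, fun z hz y hy => ?_⟩⟩
  have z0 : 0 < ‖z‖ := lt_of_lt_of_le (by positivity) hz
  have z1 := norm_pos_iff.1 z0
  have k := hU hx (hB (show z⁻¹ ∈ ball 0 δ by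
    rw [mem_ball_zero_iff, norm_inv, inv_lt_comm₀ z0 hδ]
    exact lt_of_lt_of_le (by rw [inv_eq_one_div]; gcongr; norm_num) hz))
  have e1 : (z : Sph) = pr 1 z⁻¹ := by rw [pr_of_ne _ (inv_ne_zero z1)]; simp
  rw [e1, hn.fam_pr (Or.inl one_ne_zero)] at hy
  have d0 : G.dn q e x.2 1 z⁻¹ ≠ 0 := fun h0 => by rw [h0, pr_zero] at hy; exact infty_ne_coe _ hy
  rw [pr_of_ne _ d0, coe_eq_coe, div_eq_iff d0] at hy
  have e2 : G.dn q e x.2 1 z⁻¹ = z⁻¹ * (z⁻¹ * (1 - e * z⁻¹) * (z⁻¹ - x.2.2.2.2.1) *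
    (z⁻¹ - x.2.2.2.2.2) ^ q) := by unfold G.dn; simp only [mul_one]; ring
  simp only at k
  rw [hy, e2, norm_mul y, norm_mul z⁻¹ (_ * _), norm_inv] at k
  by_contra hc
  rw [not_lt] at hc
  have : ‖y‖ * ‖z‖⁻¹ ≤ 2 := by rw [mul_inv_le_iff₀ z0]; exact hc
  nlinarith [norm_nonneg (z⁻¹ * (1 - e * z⁻¹) * (z⁻¹ - x.2.2.2.2.1) * (z⁻¹ - x.2.2.2.2.2) ^ q)]

lemma esc_fam {T : Type*} [TopologicalSpace T] {μ : T → ℂ} {p : T → Pm} {t₀ : T}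
    (h1 : ContinuousAt μ t₀) (h2 : ContinuousAt p t₀) (h : ∀ᶠ t in 𝓝 t₀, ND q (μ t) e (p t)) :
    ∃ R, ∀ᶠ t in 𝓝 t₀, Esc (fam q (μ t) e (p t)).1 R := by
  obtain ⟨R, hR⟩ := h.self_of_nhds.esc
  exact ⟨R, ((h1.prodMk h2).eventually hR).mp (h.mono fun t h1 h2 => h2 h1)⟩

/-- The perturbation factor at scale `k`. -/
def phi (q : ℕ) (e k : ℝ) (p : Pm) (w : ℂ) : ℂ :=
  (1 - p.1 * (k * w) + p.2.1 * (k * w) ^ 2) * (1 - p.2.2.1 * (k * w)) ^ q /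
    ((1 - -e / (k * w)) * (1 - p.2.2.2.1 * (k * w)) * (1 - p.2.2.2.2 * (k * w)) ^ q)

lemma phi_rr (q : ℕ) (e k : ℝ) (p : Pm) : G.phi q e k (rr p) = phi q e k p := by
  funext w
  rw [G.phi, G.Ps, phi, ← (rr_spec p).2.1, ← (rr_spec p).2.2, rr_rest]
  congr 1; ring

theorem base (q : ℕ) {α η c : ℝ} {τ : ℕ} (hα : SD α c τ) (hη : 0 < η) : ∃ β, 0 < β ∧ β ≤ 1 / 2 ∧
    G.Sm q β (1 / 2) ∧ ∀ k e R, 1 ≤ R → G.Sc q η β k e (2 * R) →
      ∃ (u : Pm → ℂ → ℂ) (l : Pm → ℂ), Continuous l ∧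
      (∀ (D : Set ℂ) (σ : ℂ → Pm), IsOpen D → DifferentiableOn ℂ σ D → (∀ t ∈ D, ‖σ t‖ ≤ R) →
        DifferentiableOn ℂ (fun t => l (σ t)) D) ∧
      Continuous (fun x : Pm × ℝ => crv (lz (fun w => k * w) (u x.1)) 1 x.2) ∧
      (∀ p, ‖l p‖ ≤ η) ∧ ∀ p, ‖p‖ ≤ R → KD α (9 * η) η (G.phi q e k (rr p)) (u p) (l p) := by
  obtain ⟨δ, hδ, H⟩ := kamM hα (σ := 9 * η) (σ₀ := 16 * η) (by positivity) hη (by linarith)
  obtain ⟨β, b0, b1, b2⟩ := G.exists_sm q (δ := min δ (1 / 2)) (by positivity)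
  refine ⟨β, b0, b1, fun _ _ _ _ _ _ k1 k2 k3 k4 k5 k6 =>
    (b2 _ _ _ _ _ _ k1 k2 k3 k4 k5 k6).trans (min_le_right _ _), fun k e R hR s => ?_⟩
  have R0 : 0 < R := by linarith
  let C : Curves Pm := ⟨{x : Set ℂ × (ℂ → Pm) // IsOpen x.1 ∧ DifferentiableOn ℂ x.2 x.1 ∧
    ∀ t ∈ x.1, ‖x.2 t‖ ≤ R}, fun i => i.1.1, fun i => i.1.2, fun i => i.2.1,
    fun i => i.2.2.1.continuousOn⟩
  have dj : DifferentiableOn ℂ (fun x : Pm × ℂ => phi q e k x.1 x.2)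
      (closedBall 0 R ×ˢ sann (16 * η)) := by
    have d1 : DifferentiableOn ℂ (fun x : Pm × ℂ => -e / (k * x.2))
        (closedBall 0 R ×ˢ sann (16 * η)) :=
      diffOn_div (by fun_prop) (by fun_prop) fun x hx => s.ne hx.2
    exact diffOn_div (by fun_prop) (by fun_prop)
      fun x hx => s.den ((mem_closedBall_zero_iff.1 hx.1).trans (by linarith)) hx.2
  have cm : ∀ p, G.cl R p ∈ closedBall (0:Pm) R := fun p => mem_closedBall_zero_iff.2 (G.cl_le R0 p)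
  obtain ⟨u, l, ru, rl, hk⟩ := H Pm C (fun p w => phi q e k (G.cl R p) w)
    (fun p => dj.comp (f := fun w => (G.cl R p, w)) (by fun_prop) fun w hw => ⟨cm p, hw⟩)
    (dj.continuousOn.comp (f := fun x : Pm × ℂ => (G.cl R x.1, x.2))
      ((G.cl_cont R0).prodMap continuous_id).continuousOn fun x hx => ⟨cm _, hx.2⟩)
    (fun i => (dj.comp (f := fun x : ℂ × ℂ => (C.τ i x.1, x.2))
      ((i.2.2.1.comp differentiableOn_fst fun x hx => hx.1).prodMk differentiableOn_snd)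
      fun x hx => ⟨mem_closedBall_zero_iff.2 (i.2.2.2 _ hx.1), hx.2⟩).congr fun x hx => by
        rw [G.cl_eq R0 (show ‖C.τ i x.1‖ ≤ R from i.2.2.2 _ hx.1)]; rfl)
    fun p w hw => by
      obtain ⟨k1, k2, k3, k4, k5⟩ := G.pm_le (rr_le hR (G.cl_le R0 p))
      rw [← phi_rr]
      exact (b2 _ _ _ _ _ _ (s.b1 hw) (s.b2 hw k2) (s.b2 hw k3) (s.b2 hw k1) (s.b2 hw k4)
        (s.b2 hw k5)).trans (min_le_left _ _)
  have p9 : 0 < 9 * η := by positivity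
  refine ⟨u, l, rl.cont, fun D σ h1 h2 h3 => rl.hol ⟨(D, σ), h1, h2, h3⟩, ?_, fun p => (hk p).bl,
    fun p hp => by simpa only [G.cl_eq R0 hp, phi_rr] using hk p⟩
  simp only [fun p => (hk p).near.crv_one (fun w => k * w) p9]
  have de : Continuous ee := continuous_iff_continuousAt.2 fun x => (hasDerivAt_ee x).continuousAt
  exact continuous_const.mul (de.comp (Continuous.add (by fun_prop)
    (ru.cont.comp_continuous (f := fun x : Pm × ℝ => (x.1, (x.2 : ℂ))) (by fun_prop)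
      fun x => ⟨mem_univ _, real_mem_strip p9 _⟩)))

end

end Pool.Agent.Lib.MP_1e9af3_an.H
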