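import Pool.Agent.Lib.MP_1e9af3_an.HStart
import Pool.Agent.Lib.MP_1e9af3_an.HCases
import Pool.Agent.Lib.MP_1e9af3_an.HCross

/-! The class is not locally closed. -/

namespace Pool.Agent.Lib.MP_1e9af3_an.H

open Set Filter Topology Complex Metric OnePoint

noncomputable section

variable {q : ℕ} {α c₀ η β e k r₁ : ℝ} {τ : ℕ} {u : Pm → ℂ → ℂ} {l : Pm → ℂ}

lemma Dat.mu_bd (D : Dat q α c₀ τ η β e k r₁ u l) {ℓ : ℝ} (h0 : 0 < ℓ) (h1 : ℓ ≤ η) (z : ℂ × ℂ) :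
    1 / 2 ≤ ‖mu α l ℓ z‖ ∧ ‖mu α l ℓ z‖ ≤ 2 := by
  rw [mu, norm_mul, norm_ee_real, one_mul]
  refine G.near_one ((D.r3 _ ?_).le.trans (by linarith [D.r1]))
  have h2 := (norm_sub_le _ (ℓ * I)).trans
    (add_le_add (D.bl (pp z)) (show _ ≤ η by simpa [abs_of_pos h0] using h1))
  linarith

lemma Dat.mu_cont (D : Dat q α c₀ τ η β e k r₁ u l) :
    Continuous fun x : ℝ × ℂ × ℂ => mu α l x.1 x.2 :=
  continuous_const.mul (G.cont_ee.comp ((D.cl.comp (pp_cont.comp continuous_snd)).sub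
    (by fun_prop)))

lemma Dat.phi_cont (D : Dat q α c₀ τ η β e k r₁ u l) :
    ContinuousOn (fun x : ℝ × ℂ × ℂ => Phi q α e l x.1 x.2) {x | x.2 ∈ WW q (e * r₁ / 2)} :=
  cont_fam (μ := fun x : ℝ × ℂ × ℂ => mu α l x.1 x.2) (p := fun x => pp x.2)
    D.mu_cont.continuousOn (pp_cont.comp continuous_snd).continuousOn
    fun _ hx => D.nd D.c0 (G.ee_ee_ne _ _) hx

lemma Dat.exit (D : Dat q α c₀ τ η β e k r₁ u l) {f₀ : RatMap (q + 4)} {A₀ : Set Sph}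
    (ht : Typ (q + 4) α f₀.1 A₀ 2) : ∃ ℓ₀ > 0, ∀ ℓ, 0 < ℓ → ℓ ≤ ℓ₀ → ∀ z ∈ KK q (e * r₁ / 2),
      (‖z.1‖ = XX q ∨ ‖z.2‖ = XX q) → Phi q α e l ℓ z ∉ hermanClass α f₀ A₀ := by
  have irr := D.sd.irrational
  have δ0 : 0 < e * r₁ / 2 / (11 * XX q ^ 2) := by have := XX_ge q; have := D.c0; positivity
  obtain ⟨ℓ₁, l1, H1⟩ := no_cross (aa q) (bb q (aa q)) irr D.sc δ0
  obtain ⟨ℓ₂, l2, H2⟩ := no_cross (4 * bb q (aa q)) (bb q (4 * bb q (aa q))) irr D.sc δ0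
  refine ⟨min η (min ℓ₁ ℓ₂), lt_min D.sc.η0 (lt_min l1 l2), fun ℓ h0 h1 z hz hx hH => ?_⟩
  rw [le_min_iff, le_min_iff] at h1
  have zW := KK_sub D.c0 hz
  have nd := (D.nd D.c0 (μ := mu α l ℓ z) (G.ee_ee_ne _ _) zW).toG
  have hb := rr_le' (WW_le zW)
  have kd := D.kd _ (WW_le zW)
  obtain ⟨s1, s2, s3⟩ := rr_spec (pp z)
  obtain ⟨A, hA⟩ := mem_class.1 hH
  have he := hA.herman
  have ty := hA.typ irr ht
  obtain ⟨m1, m2⟩ := D.mu_bd h0 h1.1 z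
  rw [Phi, fam] at he ty
  rw [rr_pp] at he ty nd hb kd
  generalize (rr (pp z)).1 = ε at *
  generalize (rr (pp z)).2.1 = x at *
  obtain ⟨χ, r, r1, hL, rfl⟩ := he.exists_lin irr nd.infty
  have xb := (G.pm_le hb).2.1
  obtain ⟨ex, dl⟩ := exit_ex D.sc hz.1 hx D.c0 hz.2.2 m1 m2 s1 s2 s3 xb
  have rot : Rot α η k ℓ (u (pp z)) (G.fam q (mu α l ℓ z) (-e) (ε, x, -1, 1, 1)).1 := fun w hw => by
    rw [D.sc.fam_phi hb nd (kd.near.mem (by linarith [D.sc.η0]) hw), mu, ee_sub, ee_sub, ← kd.eq w hw]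
    congr 2; ring
  obtain ⟨a, b, ex, H⟩ : ∃ a b, Ex q β e a b (mu α l ℓ z) x ε ∧ ∀ r' ∈ Ioo 1 r, nout χ 1 r = 0 →
      wind (fun θ => dx q e x ε (crv χ r' θ)) = 1 → (∀ w ∈ χ '' sphere 0 r', ‖w‖ < a / ‖x‖) →
      ind χ r' 0 = 0 → (∃ w ∈ χ '' sphere 0 r', ‖w‖ ≤ e) → (∃ w ∈ χ '' sphere 0 r', 1 / ‖x‖ ≤ ‖w‖) →
      False := by
    rcases ex with ex | ex
    · exact ⟨_, _, ex, fun r' hr' =>
        H1 ℓ h0 h1.2.1 _ _ _ _ _ _ _ _ _ ex dl xb nd.mero nd.infty kd.near rot hL hr'⟩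
    · exact ⟨_, _, ex, fun r' hr' =>
        H2 ℓ h0 h1.2.2 _ _ _ _ _ _ _ _ _ ex dl xb nd.mero nd.infty kd.near rot hL hr'⟩
  have rc := fun r' (hr' : r' ∈ Ioo 1 r) => exit_cases ex nd irr hL one_pos hr' ty
  obtain ⟨r₀, hr₀⟩ : ∃ r₀, r₀ ∈ Ioo 1 r := exists_between r1
  obtain ⟨⟨z₀, -, hz₀⟩, -⟩ := he
  refine nd.no_push' irr hL r1 one_pos hz₀.symm (rc r₀ hr₀).1 (fun r' hr' => ?_)
    (D.sc.pushed hb h0 h1.1 nd kd)
  obtain ⟨k1, k2, k3, k4⟩ := rc r' hr'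
  obtain ⟨k5, k6, k7⟩ := k4.resolve_right fun h => H r' hr' k1 k2 k3 h.1 h.2.1 h.2.2
  exact ⟨k5, k6, k7, k2⟩

/-- The compact part of a slice. -/
def KS (q : ℕ) (c : ℂ) : Set (ℝ × ℂ) := {z | 1 ≤ z.1 ∧ ‖z.2‖ ≤ XX q ∧ z.1 * ‖c‖ ≤ XX q * ‖z.2‖}

lemma KS_compact (q : ℕ) {c : ℂ} (hc : 0 < ‖c‖) : IsCompact (KS q c) :=
  ((isCompact_Icc (a := 1) (b := XX q * XX q / ‖c‖)).prod
    (isCompact_closedBall (0:ℂ) (XX q))).of_isClosed_subset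
    (IsClosed.and (isClosed_le (by fun_prop) (by fun_prop))
      (IsClosed.and (isClosed_le (by fun_prop) (by fun_prop))
        (isClosed_le (by fun_prop) (by fun_prop))))
    fun z hz => ⟨⟨hz.1, by
      rw [le_div_iff₀ hc]; nlinarith [hz.2.1, hz.2.2, XX_ge q]⟩, mem_closedBall_zero_iff.2 hz.2.1⟩

lemma sl_norm {δ : ℝ} (hδ : 0 < δ) (c : ℂ) {z : ℝ × ℂ} (h1 : 0 ≤ z.1) (h2 : δ < ‖z.2‖) :
    ‖(sl δ c z).1‖ * ‖z.2‖ = z.1 * ‖c‖ := by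
  have : ‖z.2‖ ≠ 0 := (hδ.trans h2).ne'
  rw [sl, rinv_eq hδ h2, norm_mul, norm_mul, norm_inv, Complex.norm_real, Real.norm_of_nonneg h1]
  field_simp

lemma KS_sub {c₁ : ℝ} (h0 : 0 < c₁) {c : ℂ} (hc : c₁ ≤ ‖c‖) {z : ℝ × ℂ} (hz : z ∈ KS q c) :
    sl (c₁ / (2 * XX q)) c z ∈ KK q c₁ := by
  obtain ⟨h1, h2, h3⟩ := hz
  have X0 := XX_ge q
  have h4 : c₁ ≤ z.1 * ‖c‖ := by nlinarith
  have h5 : c₁ / (2 * XX q) < ‖z.2‖ := by rw [div_lt_iff₀ (by linarith)]; nlinarith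
  have δ0 : 0 < c₁ / (2 * XX q) := by positivity
  have h6 := sl_norm δ0 c (by linarith) h5
  exact ⟨le_of_mul_le_mul_right (h6.trans_le h3) (δ0.trans h5), h2, by
    rw [norm_mul]; exact h4.trans h6.ge⟩

lemma diff_nm {S : Set (ℂ × ℂ)} {μ z : ℂ × ℂ → ℂ} {p : ℂ × ℂ → Pm} (h1 : DifferentiableOn ℂ μ S)
    (h2 : DifferentiableOn ℂ p S) (h3 : DifferentiableOn ℂ z S) :
    DifferentiableOn ℂ (fun t => nm q (μ t) (p t) (z t) 1) S := by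
  unfold nm; fun_prop

lemma Dat.step (D : Dat q α c₀ τ η β e k r₁ u l) {ℓ : ℝ} {f₀ : RatMap (q + 4)} {A₀ : Set Sph}
    (ht : Typ (q + 4) α f₀.1 A₀ 2) {c : ℂ} {z : ℝ × ℂ} (z1 : 1 ≤ z.1)
    (zW : sl (e * r₁ / 2 / (2 * XX q)) c z ∈ WW q (e * r₁ / 2))
    (z2 : ‖(sl (e * r₁ / 2 / (2 * XX q)) c z).1‖ < XX q) (z3 : ‖z.2‖ < XX q)
    (hz : Phi q α e l ℓ (sl (e * r₁ / 2 / (2 * XX q)) c z) ∈ hermanClass α f₀ A₀) :
    ∃ z' ∈ KS q c, Phi q α e l ℓ (sl (e * r₁ / 2 / (2 * XX q)) c z') ∈ hermanClass α f₀ A₀ ∧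
      (z.1 < z'.1 ∨ (z'.1 = z.1 ∧ ‖z.2‖ < ‖z'.2‖)) := by
  have δ0 : 0 < e * r₁ / 2 / (2 * XX q) := by have := XX_ge q; have := D.c0; positivity
  have Wd : ∀ z ∈ WW q (e * r₁ / 2), e * r₁ / 2 / (2 * XX q) < ‖z.2‖ := fun z hz => hz.2.1
  generalize e * r₁ / 2 / (2 * XX q) = δ at *
  obtain ⟨s, t⟩ := z
  simp only at z1 z3
  have irr := D.sd.irrational
  have t0 : t ≠ 0 := norm_pos_iff.1 (δ0.trans (Wd _ zW))
  have nd : ∀ z : ℝ × ℂ, sl δ c z ∈ WW q (e * r₁ / 2) →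
      ND q (mu α l ℓ (sl δ c z)) (-e) (pp (sl δ c z)) := fun z hz => D.nd D.c0 (G.ee_ee_ne _ _) hz
  obtain ⟨A, hA⟩ := mem_class.1 hz
  have he := hA.herman
  have ty := hA.typ irr ht
  obtain ⟨χ, r, r1, hL, rfl⟩ := he.exists_lin irr (nd _ zW).infty
  obtain ⟨r₀, hr₀⟩ : ∃ r₀, r₀ ∈ Ioo 1 r := exists_between r1
  have cs := sl_cont δ0 c
  have cp : Continuous fun z => pp (sl δ c z) := pp_cont.comp cs
  have cm : Continuous fun z => mu α l ℓ (sl δ c z) :=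
    D.mu_cont.comp (f := fun z => (ℓ, sl δ c z)) (by fun_prop)
  have Wo : IsOpen {z : ℝ × ℂ | sl δ c z ∈ WW q (e * r₁ / 2)} := (WW_open q _).preimage cs
  have Do : ∀ s : ℝ, IsOpen {t : ℂ | sl δ c (s, t) ∈ WW q (e * r₁ / 2)} := fun s =>
    Wo.preimage (f := fun t => (s, t)) (by fun_prop)
  let C : Curves (ℝ × ℂ) := ⟨ℝ, fun s => {t | sl δ c (s, t) ∈ WW q (e * r₁ / 2)}, fun s t => (s, t),
    Do, fun _ => by fun_prop⟩
  have cf : ContinuousOn (fun z => Phi q α e l ℓ (sl δ c z)) {z | sl δ c z ∈ WW q (e * r₁ / 2)} :=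
    D.phi_cont.comp (f := fun z => (ℓ, sl δ c z)) (by fun_prop) fun z hz => hz
  have cP : Continuous fun x : (ℝ × ℂ) × ℂ => nm q (mu α l ℓ (sl δ c x.1)) (pp (sl δ c x.1)) x.2 1 :=
    cont_nm (cm.comp continuous_fst) (cp.comp continuous_fst) continuous_snd
  have cQ : Continuous fun x : (ℝ × ℂ) × ℂ => G.dn q (-e) (pp (sl δ c x.1)) x.2 1 :=
    G.cont_dn _ (cp.comp continuous_fst) continuous_snd
  have dr : ∀ s : ℝ, DifferentiableOn ℂ (rinv δ) {t | sl δ c (s, t) ∈ WW q (e * r₁ / 2)} := fun s =>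
    (differentiableOn_id.inv fun t ht => norm_pos_iff.1 (δ0.trans (Wd (sl δ c (s, t)) ht))).congr
      fun t ht => rinv_eq δ0 (Wd (sl δ c (s, t)) ht)
  have dP : ∀ s : ℝ, DifferentiableOn ℂ (fun x : ℂ × ℂ =>
      nm q (mu α l ℓ (sl δ c (s, x.1))) (pp (sl δ c (s, x.1))) x.2 1)
      ({t | sl δ c (s, t) ∈ WW q (e * r₁ / 2)} ×ˢ univ) := fun s => by
    have d0 := dr s
    have d1 : DifferentiableOn ℂ (fun t => mu α l ℓ (sl δ c (s, t)))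
        {t | sl δ c (s, t) ∈ WW q (e * r₁ / 2)} :=
      (G.diff_ee.comp_differentiableOn ((D.hl _ (fun t => pp (sl δ c (s, t))) (Do s)
        (by generalize {t | sl δ c (s, t) ∈ WW q (e * r₁ / 2)} = S at d0
            simp only [pp, sl]; fun_prop) fun t ht => WW_le ht).sub_const _)).const_mul _
    generalize {t | sl δ c (s, t) ∈ WW q (e * r₁ / 2)} = S at d0 d1
    have d2 : DifferentiableOn ℂ (fun x : ℂ × ℂ => mu α l ℓ (sl δ c (s, x.1))) (S ×ˢ univ) :=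
      d1.comp differentiableOn_fst fun _ hx => hx.1
    have d3 : DifferentiableOn ℂ (fun x : ℂ × ℂ => rinv δ x.1) (S ×ˢ univ) :=
      d0.comp differentiableOn_fst fun _ hx => hx.1
    have d4 : DifferentiableOn ℂ (fun x : ℂ × ℂ => pp (sl δ c (s, x.1))) (S ×ˢ univ) := by
      simp only [pp, sl]; fun_prop
    exact diff_nm d2 d4 differentiableOn_snd
  have dQ : ∀ s : ℝ, DifferentiableOn ℂ (fun x : ℂ × ℂ => G.dn q (-e) (pp (sl δ c (s, x.1))) x.2 1)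
      ({t | sl δ c (s, t) ∈ WW q (e * r₁ / 2)} ×ˢ univ) := fun s => by
    simp only [G.dn, pp]
    fun_prop
  have hE : ∀ p₁ ∈ {z : ℝ × ℂ | sl δ c z ∈ WW q (e * r₁ / 2)}, ∃ M, ∀ᶠ p in 𝓝 p₁,
      Esc (Phi q α e l ℓ (sl δ c p)).1 M := fun p₁ hp =>
    esc_fam (μ := fun z => mu α l ℓ (sl δ c z)) (p := fun z => pp (sl δ c z)) cm.continuousAt
      cp.continuousAt (mem_of_superset (Wo.mem_nhds hp) nd)
  obtain ⟨V, Vo, v1, v2, m, k1, k2, k3, k4⟩ := extend D.sd C (f := fun z => Phi q α e l ℓ (sl δ c z))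
    (P := fun z w => nm q (mu α l ℓ (sl δ c z)) (pp (sl δ c z)) w 1)
    (Q := fun z w => G.dn q (-e) (pp (sl δ c z)) w 1)
    Wo cf (fun z hz => (nd z hz).mero) cP cQ dP dQ hE (p₀ := (s, t)) zW hL one_pos hr₀
    (wind_ne (p := rr (pp (sl δ c (s, t)))) (nd _ zW).toG irr hL one_pos hr₀ ty) he
  obtain ⟨γ, g1, g2, g3, -, g5⟩ := continuation (m := m)
    (V := V ∩ {z | ‖(sl δ c z).1‖ < XX q ∧ ‖z.2‖ < XX q})
    (Vo.inter (IsOpen.and (isOpen_lt cs.fst.norm continuous_const)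
      (isOpen_lt (by fun_prop) (by fun_prop))))
    (k1.mono inter_subset_left) ⟨v1, z2, z3⟩ (lt_add_one s)
    (fun s _ => (k2 s).mono fun t ht => ⟨v2 ht.1, ht.1⟩) k3 t0
  obtain ⟨B, hB⟩ := k4 γ g1 g2 fun θ => ⟨(g3 θ).1.1, (g3 θ).2⟩
  have g6 : 1 ≤ (γ 1).1 := z1.trans (g5.elim le_of_lt fun h => h.1.ge)
  refine ⟨γ 1, ⟨g6, (g3 1).1.2.2.le, ?_⟩, mem_class.2 ⟨B, hA.trans hB⟩, g5⟩
  rw [← sl_norm δ0 c (by linarith) (Wd _ (v2 (g3 1).1.1))]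
  gcongr
  exact (g3 1).1.2.1.le

theorem not_locally_closed (q : ℕ) {α : ℝ} (hα : Dioph α) :
    ∃ (f₀ : RatMap (q + 4)) (A₀ : Set Sph),
    IsHerman α f₀.1 A₀ ∧ ¬ IsLocallyClosed (hermanClass α f₀ A₀) := by
  obtain ⟨c₀, τ, η, β, e, k, r₁, u, l, D⟩ := exists_dat q hα
  refine ⟨FF q α e l (pp (1, 1)), BB q α e k u l (pp (1, 1)),
    (D.conn0 D.one_mem).herman, fun ⟨U, Z, hU, hZ, hH⟩ => ?_⟩
  have ty := D.typ (WW_le D.one_mem) (D.nd D.c0 one_ne_zero D.one_mem)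
  obtain ⟨ℓ₀, l0, hx⟩ := D.exit ty
  set H := hermanClass α (FF q α e l (pp (1, 1))) (BB q α e k u l (pp (1, 1))) with hH'
  have E : ∀ᶠ ℓ in 𝓝 (0:ℝ), ∀ z ∈ KK q (e * r₁ / 2), Phi q α e l ℓ z ∈ U := by
    refine (KK_compact q _).eventually_forall_of_forall_eventually fun z hz => ?_
    refine (D.phi_cont.continuousAt (x := (0, z)) (((WW_open _ _).preimage
      (by fun_prop)).mem_nhds (KK_sub D.c0 hz))).eventually (hU.mem_nhds ?_)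
    have h1 : FF q α e l (pp z) ∈ H := mem_class.2 ⟨_, D.conn0 (KK_sub D.c0 hz)⟩
    rw [hH] at h1
    simpa [Phi, mu, FF] using h1.1
  obtain ⟨ℓ, hℓ, h0, h1⟩ := ((E.filter_mono nhdsWithin_le_nhds).and
    (Ioc_mem_nhdsGT (lt_min D.sc.η0 l0))).exists
  rw [le_min_iff] at h1
  obtain ⟨⟨A, B⟩, t1, t2⟩ := D.start h0 h1.1
  have δ0 : 0 < e * r₁ / 2 / (2 * XX q) := by have := XX_ge q; have := D.c0; positivity
  have sK := fun z (hz : z ∈ KS q (A * B)) => KS_sub D.c0 t1.2.2 hz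
  have kK := KS_compact q (D.c0.trans_le t1.2.2)
  have st := fun z a b c d e => D.step (ℓ := ℓ) ty (c := A * B) (z := z) a b c d e
  have tB : e * r₁ / 2 / (2 * XX q) < ‖B‖ := (KK_sub D.c0 t1).2.1
  generalize e * r₁ / 2 / (2 * XX q) = δ at *
  have cf : ContinuousOn (fun z => Phi q α e l ℓ (sl δ (A * B) z)) (KS q (A * B)) :=
    D.phi_cont.comp (f := fun z => (ℓ, sl δ (A * B) z))
      (continuous_const.prodMk (sl_cont δ0 _)).continuousOn fun z hz => KK_sub D.c0 (sK z hz)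
  have kX : IsCompact (KS q (A * B) ∩ (fun z => Phi q α e l ℓ (sl δ (A * B) z)) ⁻¹' Z) :=
    kK.of_isClosed_subset (cf.preimage_isClosed_of_isClosed kK.isClosed hZ) inter_subset_left
  have hm : ∀ z ∈ KS q (A * B), Phi q α e l ℓ (sl δ (A * B) z) ∈ H →
      z ∈ KS q (A * B) ∩ (fun z => Phi q α e l ℓ (sl δ (A * B) z)) ⁻¹' Z := fun z a1 a4 =>
    ⟨a1, (hH ▸ a4 : _ ∈ U ∩ Z).2⟩
  have s0 : sl δ (A * B) (1, B) = (A, B) := by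
    simp [sl, rinv_eq δ0 tB, norm_pos_iff.1 (δ0.trans tB)]
  obtain ⟨z₁, p1, p2⟩ := kX.exists_isMaxOn ⟨_, hm (1, B) ⟨le_rfl, t1.2.1, by
    rw [one_mul, norm_mul]; gcongr; exact t1.1⟩ (s0 ▸ t2)⟩ continuous_fst.continuousOn
  obtain ⟨z₂, ⟨q1, q3⟩, q2⟩ := (kX.inter_right (isClosed_eq continuous_fst
    (continuous_const (y := z₁.1)))).exists_isMaxOn ⟨z₁, p1, rfl⟩
    (continuous_norm.comp continuous_snd).continuousOn
  have q5 := sK _ q1.1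
  have q6 : Phi q α e l ℓ (sl δ (A * B) z₂) ∈ H := hH ▸ ⟨hℓ _ q5, q1.2⟩
  obtain ⟨z', w1, w3, w4⟩ := st z₂ q1.1.1 (KK_sub D.c0 q5)
    (q5.1.lt_of_ne fun h => hx ℓ h0 h1.2 _ q5 (Or.inl h) q6)
    (q5.2.1.lt_of_ne fun h => hx ℓ h0 h1.2 _ q5 (Or.inr h) q6) q6
  have q4 : z₂.1 = z₁.1 := q3
  have w5 := hm z' w1 w3
  rcases w4 with h | h
  · exact h.not_ge (q4 ▸ p2 w5)
  · exact h.2.not_ge (q2 ⟨w5, h.1.trans q4⟩)

end

end Pool.Agent.Lib.MP_1e9af3_an.H
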