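import Pool.Agent.Lib.MP_1e9af3_an.HDefs

/-! Lifting a holomorphic map through a rational map, away from the critical values. -/

namespace Pool.Agent.Lib.MP_1e9af3_an.H

open Set Filter Topology Complex Metric OnePoint

noncomputable section

lemma lift_deriv {f : Sph → Sph} {p q : ℂ → ℂ} (hf : Mero f p q) {c : ℂ} (hq : q c ≠ 0) :
    HasStrictDerivAt (fun z => p z / q z) (crit p q c / q c ^ 2) c :=
  (hf.dp.analyticAt c).hasStrictDerivAt.div (hf.dq.analyticAt c).hasStrictDerivAt hq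

lemma lift_local {f : Sph → Sph} {p q : ℂ → ℂ} (hf : Mero f p q) {c : ℂ} (hq : q c ≠ 0)
    (hc : crit p q c ≠ 0) : IsLocalHomeomorphOn f {(c : Sph)} := by
  have h0 : crit p q c / q c ^ 2 ≠ 0 := div_ne_zero hc (pow_ne_zero _ hq)
  have hd := (lift_deriv hf hq).hasStrictFDerivAt_equiv h0
  have h1 : IsLocalHomeomorphOn (fun z => p z / q z) {c} := by
    rintro _ rfl
    exact ⟨hd.toOpenPartialHomeomorph _, hd.mem_toOpenPartialHomeomorph_source, rfl⟩
  have hco : ∀ s : Set ℂ, IsLocalHomeomorphOn ((↑) : ℂ → Sph) s := fun s =>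
    isOpenEmbedding_coe.isLocalHomeomorph.isLocalHomeomorphOn
  have h2 := (hco univ).comp h1 (mapsTo_univ _ _)
  have ho : IsOpen {z | q z ≠ 0} := isOpen_ne_fun hf.dq.continuous continuous_const
  have h3 : IsLocalHomeomorphOn (f ∘ ((↑) : ℂ → Sph)) {c} := by
    refine IsLocalHomeomorphOn.mk _ _ ?_
    rintro x rfl
    obtain ⟨e, he, hee⟩ := h2 x rfl
    refine ⟨e.restrOpen _ ho, ⟨he, hq⟩, fun z hz => ?_⟩
    have := congrFun hee z
    simp only [Function.comp] at this ⊢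
    rw [hf.of_ne hz.2, this]
    rfl
  simpa using h3.of_comp_right (hco _)

lemma lift_diff {f : Sph → Sph} {p q : ℂ → ℂ} (hf : Mero f p q) {h j : ℂ → ℂ} {ξ : ℂ}
    (hd : DifferentiableAt ℂ h ξ) (hj : ContinuousAt j ξ) (he : ∀ᶠ η in 𝓝 ξ, f (j η) = h η)
    (hc : crit p q (j ξ) ≠ 0) : DifferentiableAt ℂ j ξ := by
  have hq := hf.q_ne he.self_of_nhds
  have h0 : crit p q (j ξ) / q (j ξ) ^ 2 ≠ 0 := div_ne_zero hc (pow_ne_zero _ hq)
  have hs := lift_deriv hf hq
  have h1 := (hs.to_localInverse h0).hasDerivAt.differentiableAt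
  simp only [hf.eq_div he.self_of_nhds] at h1
  refine (h1.comp ξ hd).congr_of_eventuallyEq ?_
  have h2 := hj.eventually (hs.hasStrictFDerivAt_equiv h0).eventually_left_inverse
  filter_upwards [h2, he] with η h3 h4
  rw [hf.eq_div h4] at h3
  exact h3.symm

theorem lift_step {f : Sph → Sph} {p q : ℂ → ℂ} (hf : Mero f p q) (hi : f ∞ = ∞) {V : Set ℂ}
    (hV : IsOpen V) (hc : Convex ℝ V) {h : ℂ → ℂ} (hd : DifferentiableOn ℂ h V)
    (hcv : ∀ ξ ∈ V, ∀ c : ℂ, f c = h ξ → crit p q c ≠ 0) {ξ₀ z₀ : ℂ} (h0 : ξ₀ ∈ V)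
    (hz : f z₀ = h ξ₀) :
    ∃ j : ℂ → ℂ, DifferentiableOn ℂ j V ∧ j ξ₀ = z₀ ∧ ∀ ξ ∈ V, f (j ξ) = h ξ := by
  classical
  have hcov : IsCoveringMapOn f ((fun ξ => (h ξ : Sph)) '' V) := by
    refine IsCoveringMapOn.of_isLocalHomeomorphOn hf.cont fun x hx => ?_
    obtain ⟨ξ, hξ, he⟩ := hx
    induction x using OnePoint.rec with
    | infty => rw [hi] at he; exact absurd he (coe_ne_infty _)
    | coe c => exact lift_local hf (hf.q_ne he.symm) (hcv ξ hξ c he.symm) _ rfl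
  have := hc.contractibleSpace ⟨ξ₀, h0⟩
  have := hV.locallyPathConnectedSpace
  obtain ⟨F, ⟨hF0, hF⟩, -⟩ := hcov.existsUnique_continuousMap_lifts
    (⟨fun a : V => (h a : Sph), continuous_coe.comp
      (continuousOn_iff_continuous_domRestrict.mp hd.continuousOn)⟩ : C(V, Sph))
    (a₀ := ⟨ξ₀, h0⟩) hz fun a => ⟨a, a.2, rfl⟩
  have hF' : ∀ a : V, f (F a) = h a := fun a => congrFun hF a
  have hfin : ∀ a : V, ∃ c : ℂ, (c : Sph) = F a := fun a => by
    have := hF' a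
    generalize F a = x at this
    induction x using OnePoint.rec with
    | infty => rw [hi] at this; exact absurd this (infty_ne_coe _)
    | coe c => exact ⟨c, rfl⟩
  choose g hg using hfin
  obtain ⟨j, hj⟩ : ∃ j : ℂ → ℂ, ∀ a : V, j a = g a :=
    ⟨fun z => if hz : z ∈ V then g ⟨z, hz⟩ else 0, by simp⟩
  have he : ∀ ξ ∈ V, f (j ξ) = h ξ := fun ξ hξ => by
    rw [hj ⟨ξ, hξ⟩, hg]; exact hF' ⟨ξ, hξ⟩
  have hcont : ContinuousOn j V := by
    rw [continuousOn_iff_continuous_domRestrict,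
      (isOpenEmbedding_coe (X := ℂ)).isInducing.continuous_iff]
    refine (map_continuous F).congr fun a => ?_
    rw [← hg, ← hj]
    rfl
  refine ⟨j, fun ξ hξ => ?_, ?_, he⟩
  · have hn := hV.mem_nhds hξ
    exact (lift_diff hf (hd.differentiableAt hn) (hcont.continuousAt hn)
      (by filter_upwards [hn] with η hη using he η hη)
      (hcv ξ hξ _ (he ξ hξ))).differentiableWithinAt
  · rw [← coe_eq_coe, hj ⟨ξ₀, h0⟩, hg, hF0]

end

end Pool.Agent.Lib.MP_1e9af3_an.H
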