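import Pool.Agent.Lib.MP_1e9af3_an.HCount
import Pool.Agent.Lib.MP_1e9af3_an.HCases
import Pool.Agent.Lib.MP_1e9af3_an.HChain
import Pool.Agent.Lib.MP_1e9af3_an.HArc
import Pool.Agent.Lib.MP_1e9af3_an.HExit

/-! The outer backward ray, with a margin that does not depend on the exit parameter. -/

namespace Pool.Agent.Lib.MP_1e9af3_an.H

open Set Filter Topology Complex Metric OnePoint

noncomputable section

variable {q : ℕ} {α β e a b a₁ b₁ r : ℝ} {μ x ε : ℂ} {f : Sph → Sph} {χ : ℂ → ℂ}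

lemma Ex.out_eq (h : Ex q β e a b μ x ε) {z y : ℂ} (he : nx q μ x ε z = y * dx q e x ε z)
    (h1 : a / ‖x‖ ≤ ‖z‖) (h2 : ‖z‖ ≤ b / ‖x‖) : 2 * ‖z‖ ≤ ‖y‖ := by
  obtain ⟨d0, hd⟩ := h.double h1 h2
  rw [he, norm_mul] at hd
  exact le_of_mul_le_mul_right hd (norm_pos_iff.2 d0)

lemma Ex.out_pos (h : Ex q β e a b μ x ε) : 0 < a / ‖x‖ ∧ a / ‖x‖ < (a + 1) / ‖x‖ ∧
    (a + 1) / ‖x‖ < b / ‖x‖ ∧ b / ‖x‖ ≤ 1 / 2 := by
  obtain ⟨a0, b0, x0, -, -⟩ := h.x0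
  have hx : 0 < ‖x‖ := by linarith
  refine ⟨div_pos (by linarith) hx, div_lt_div_of_pos_right (by linarith) hx,
    div_lt_div_of_pos_right (by linarith) hx, ?_⟩
  rw [div_le_iff₀ hx]
  linarith [h.xb]

lemma Ex.out_trap (h : Ex q β e a b μ x ε) (hf : Mero f (nx q μ x ε) (dx q e x ε)) {L : ℕ}
    (hL : b ≤ 2 ^ L) : Trap f (ball 0 (b / ‖x‖)) (ann (a / ‖x‖) (b / ‖x‖)) L := by
  obtain ⟨p1, p2, p3, -⟩ := h.out_pos
  obtain ⟨a0, b0, x0, -, -⟩ := h.x0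
  have hx : 0 < ‖x‖ := by linarith
  refine ⟨isOpen_ball, fun z hz => mem_ball_zero_iff.2 hz.2, fun z hz hn y hy he => ?_,
    fun z m ho h0 hm => ?_⟩
  · have z1 : ‖z‖ ≤ b / ‖x‖ := mem_closedBall_zero_iff.1 (closure_ball_subset_closedBall hz)
    have z2 : b / ‖x‖ ≤ ‖z‖ := not_lt.1 fun hlt => hn (mem_ball_zero_iff.2 hlt)
    have z3 := h.out_eq (hf.eq_coe.1 he) (by linarith) z1
    have z4 := mem_ball_zero_iff.1 hy
    linarith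
  · have key : ∀ i ≤ m, 2 ^ i * (a / ‖x‖) ≤ ‖z i‖ := by
      intro i
      induction i with
      | zero => exact fun _ => by simpa using h0.1.le
      | succ i ih =>
        intro hi
        have h1 := ih (by omega)
        have h2 : (1:ℝ) ≤ 2 ^ i := one_le_pow₀ (by norm_num)
        have h3 : a / ‖x‖ ≤ ‖z i‖ := le_trans (le_mul_of_one_le_left p1.le h2) h1
        have h4 := h.out_eq (hf.eq_coe.1 (ho.1 i (by omega))) h3
          (mem_ball_zero_iff.1 (ho.2 i (by omega))).le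
        rw [pow_succ]
        linarith
    have h1 := (key m le_rfl).trans_lt hm.2
    rw [← mul_div_assoc, div_lt_div_iff_of_pos_right hx] at h1
    have h2 : (0:ℝ) < 2 ^ m := by positivity
    have h3 : (2:ℝ) ^ m < 2 ^ L := by nlinarith
    exact (pow_lt_pow_iff_right₀ (by norm_num : (1:ℝ) < 2)).1 h3

/-- The compact set of exit parameters. -/
def outT (β e a b δ : ℝ) : Set (ℂ × ℂ × ℂ) :=
  {t | 1 / 2 ≤ ‖t.1‖ ∧ ‖t.1‖ ≤ 2 ∧ 2 * b ≤ ‖t.2.1‖ ∧ e * ‖t.2.1‖ ≤ β ∧ ‖t.2.2‖ ≤ ‖t.2.1‖ ∧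
    δ ≤ ‖1 - t.2.2‖ ∧ (2 * b * ‖t.2.2‖ ≤ ‖t.2.1‖ ∨ 2 * ‖t.2.1‖ ≤ a * ‖t.2.2‖)}

lemma out_compact (β a b δ : ℝ) {e : ℝ} (he : 0 < e) : IsCompact (outT β e a b δ) := by
  have hK : IsCompact (closedBall (0:ℂ) 2 ×ˢ closedBall (0:ℂ) (β / e) ×ˢ closedBall (0:ℂ) (β / e)) :=
    (isCompact_closedBall _ _).prod ((isCompact_closedBall _ _).prod (isCompact_closedBall _ _))
  refine hK.of_isClosed_subset ?_ ?_
  · refine (isClosed_le (by fun_prop) (by fun_prop)).and ?_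
    refine (isClosed_le (by fun_prop) (by fun_prop)).and ?_
    refine (isClosed_le (by fun_prop) (by fun_prop)).and ?_
    refine (isClosed_le (by fun_prop) (by fun_prop)).and ?_
    refine (isClosed_le (by fun_prop) (by fun_prop)).and ?_
    refine (isClosed_le (by fun_prop) (by fun_prop)).and ?_
    have u1 : IsClosed {t : ℂ × ℂ × ℂ | 2 * b * ‖t.2.2‖ ≤ ‖t.2.1‖} :=
      isClosed_le (by fun_prop) (by fun_prop)
    have u2 : IsClosed {t : ℂ × ℂ × ℂ | 2 * ‖t.2.1‖ ≤ a * ‖t.2.2‖} :=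
      isClosed_le (by fun_prop) (by fun_prop)
    exact u1.union u2
  · rintro t ⟨-, h2, -, h4, h5, -, -⟩
    have h6 : ‖t.2.1‖ ≤ β / e := by
      rw [le_div_iff₀ he]
      linarith
    exact ⟨mem_closedBall_zero_iff.2 h2, mem_closedBall_zero_iff.2 h6,
      mem_closedBall_zero_iff.2 (h5.trans h6)⟩

lemma Ex.out_ex (h : Ex q β e a b μ x ε) {δ : ℝ} (hδ : 0 < δ) {t : ℂ × ℂ × ℂ}
    (ht : t ∈ outT β e a b δ) : Ex q β e a b t.1 t.2.1 t.2.2 := by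
  obtain ⟨h1, h2, h3, h4, h5, h6, h7⟩ := ht
  refine ⟨h.sm, h.hβ, h.e0, h1, h2, h.a0, h.b0, h3, h4, h5, fun he => ?_, h7⟩
  rw [he, sub_self, norm_zero] at h6
  linarith

lemma Ex.out_arcs (h : Ex q β e a b μ x ε) {δ : ℝ} (hδ : 0 < δ) (N : ℕ) :
    ∃ τ > 0, ∀ μ x ε : ℂ, (μ, x, ε) ∈ outT β e a b δ → ∀ P : Set ℂ, P.Finite → P.ncard ≤ N →
      P ⊆ ann (a / ‖x‖) (b / ‖x‖) → ∃ j : ℂ → ℂ, Differentiable ℂ j ∧
        j 1 = nx q μ x ε (j 0) / dx q e x ε (j 0) ∧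
        ∀ ξ ∈ VV τ, j ξ ∈ ann (a / ‖x‖) (b / ‖x‖) ∧ j ξ ∉ P := by
  have : CompactSpace (outT β e a b δ) := isCompact_iff_compactSpace.1 (out_compact β a b δ h.e0)
  have hE : ∀ t : outT β e a b δ, Ex q β e a b t.1.1 t.1.2.1 t.1.2.2 := fun t => h.out_ex hδ t.2
  have hx : ∀ t : outT β e a b δ, ‖t.1.2.1‖ ≠ 0 := fun t => by
    have := (hE t).x0.2.2.1
    linarith
  have cx : Continuous fun t : outT β e a b δ => ‖t.1.2.1‖ := by fun_prop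
  obtain ⟨τ, τ0, hτ⟩ := uniform_arcs (T := outT β e a b δ)
    (g := fun t z => nx q t.1.1 t.1.2.1 t.1.2.2 z / dx q e t.1.2.1 t.1.2.2 z)
    (ρ := fun t => (a + 1) / ‖t.1.2.1‖) (R₁ := fun t => a / ‖t.1.2.1‖)
    (R₂ := fun t => b / ‖t.1.2.1‖) (continuous_const.div cx hx) (continuous_const.div cx hx)
    (fun t => (hE t).out_pos.1) (fun t => ⟨(hE t).out_pos.2.1, (hE t).out_pos.2.2.1⟩)
    (fun t z _ => by
      simp only [exit_nx, exit_dx]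
      exact Continuous.continuousAt (Continuous.div_const (by fun_prop) _))
    (fun t z hz => by
      obtain ⟨p1, p2, p3, -⟩ := (hE t).out_pos
      have z1 : a / ‖t.1.2.1‖ ≤ ‖z‖ := by rw [hz]; exact p2.le
      have z2 : ‖z‖ ≤ b / ‖t.1.2.1‖ := by rw [hz]; exact p3.le
      have d0 := ((hE t).double z1 z2).1
      have h1 := (hE t).out_eq (div_mul_cancel₀ _ d0).symm z1 z2
      have h2 : ‖nx q t.1.1 t.1.2.1 t.1.2.2 z / dx q e t.1.2.1 t.1.2.2 z‖ < b / ‖t.1.2.1‖ := by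
        rw [norm_div, div_lt_iff₀ (norm_pos_iff.2 d0)]
        exact (hE t).upper hz
      have hz' : ‖z‖ = (a + 1) / ‖t.1.2.1‖ := hz
      refine ⟨⟨?_, h2⟩, ne_of_gt ?_⟩
      · show a / ‖t.1.2.1‖ < _
        linarith
      · show (a + 1) / ‖t.1.2.1‖ < _
        linarith)
    (fun t y => ((hE t).fibre y).subset fun z hz => by
      obtain ⟨p1, p2, p3, -⟩ := (hE t).out_pos
      have z0 : ‖z‖ = (a + 1) / ‖t.1.2.1‖ := hz.1
      have d0 := ((hE t).double (z := z) (by rw [z0]; exact p2.le) (by rw [z0]; exact p3.le)).1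
      exact (div_eq_iff d0).1 hz.2) N
  exact ⟨τ, τ0, fun μ x ε ht => hτ ⟨(μ, x, ε), ht⟩⟩

theorem outer_ray (q : ℕ) (β e a b : ℝ) {δ : ℝ} (hδ : 0 < δ) : ∃ τ > 0,
    ∀ (μ x ε : ℂ) (f : Sph → Sph), Ex q β e a b μ x ε → δ ≤ ‖1 - ε‖ →
      Mero f (nx q μ x ε) (dx q e x ε) → f ∞ = ∞ → ∃ j : ℕ → ℂ → ℂ,
        (∀ n, DifferentiableOn ℂ (j n) (VV τ)) ∧ (∀ ξ ∈ VV τ, a / ‖x‖ < ‖j 0 ξ‖) ∧
        (∀ n, ∀ ξ ∈ VV τ, ‖j n ξ‖ ≤ 1 ∧ f (j (n + 1) ξ) = j n ξ) ∧ (∀ n, j (n + 1) 1 = j n 0) ∧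
        ∃ y : ℂ, f y = y ∧ ‖y‖ < a / ‖x‖ ∧ MapClusterPt y atTop fun n => j n 0 := by
  by_cases hex : ∃ μ x ε : ℂ, Ex q β e a b μ x ε
  swap
  · exact ⟨1, one_pos, fun μ x ε f h => (hex ⟨μ, x, ε, h⟩).elim⟩
  obtain ⟨μ₀, x₀, ε₀, h₀⟩ := hex
  obtain ⟨L, hL⟩ := pow_unbounded_of_one_lt b (by norm_num : (1:ℝ) < 2)
  obtain ⟨τ, τ0, hτ⟩ := h₀.out_arcs hδ (2 * (q + 4) * L)
  refine ⟨τ, τ0, fun μ x ε f h hε hf hi => ?_⟩
  obtain ⟨p1, p2, p3, p4⟩ := h.out_pos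
  have t := h.out_trap hf hL.le
  obtain ⟨c1, c2⟩ := pc_card t (h.crit_card hf).1 (h.crit_card hf).2
  obtain ⟨j₀, d0, e0, m0⟩ := hτ μ x ε ⟨h.μ1, h.μ2, h.xb, h.xe, h.ex, hε, h.far⟩ _ c1 c2
    fun y hy => hy.1
  have hb : ∀ z ∈ ball (0:ℂ) (b / ‖x‖), ‖z‖ ≤ 1 := fun z hz => by
    have := mem_ball_zero_iff.1 hz
    linarith
  have m1 := (m0 0 (zero_mem_VV τ0)).1
  obtain ⟨j, j0, j1, j2, j3, y, y1, y2⟩ := chain hf hi t hb τ0 d0.differentiableOn m0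
    (by rw [e0]; exact hf.of_ne (h.double m1.1.le m1.2.le).1)
  refine ⟨j, j1, fun ξ hξ => by rw [j0]; exact (m0 ξ hξ).1.1,
    fun n ξ hξ => ⟨hb _ (j2 n ξ hξ).1, (j2 n ξ hξ).2⟩, j3, y, y1, ?_, y2⟩
  have y3 : y ∈ closedBall (0:ℂ) (b / ‖x‖) := isClosed_closedBall.mem_of_mapClusterPt y2
    (Eventually.of_forall fun n => ball_subset_closedBall (j2 n 0 (zero_mem_VV τ0)).1)
  by_contra hn
  have y4 := not_lt.1 hn
  have y5 := h.out_eq (hf.eq_coe.1 y1) y4 (mem_closedBall_zero_iff.1 y3)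
  linarith

end

end Pool.Agent.Lib.MP_1e9af3_an.H
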