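import Pool.Agent.Lib.MP_1e9af3_an.HFam
import Pool.Agent.Lib.MP_1e9af3_an.HDefs

/-! The concrete parameters. -/

namespace Pool.Agent.Lib.MP_1e9af3_an.H

open Set Filter Topology Complex Metric OnePoint

noncomputable section

/-- The first exit constant. -/
def aa (q : ℕ) : ℝ := 1000 * 5 ^ q

/-- The second exit constant. -/
def bb (q : ℕ) (a : ℝ) : ℝ := 8 * 3 ^ q * (a + 2) ^ 3 + 1

/-- The size of the parameter domain. -/
def XX (q : ℕ) : ℝ := (2 * bb q (4 * bb q (aa q)) + 1) ^ 2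

/-- The two parameter family. -/
def pp (z : ℂ × ℂ) : Pm := (1 + z.1 - z.2, z.1, -1, 1, 1)

/-- The path to the inverted parameters, in root coordinates. -/
def ln (e : ℝ) (t : ℂ) (θ : ℝ) : Pm :=
  (-e, (1 - θ + θ * t⁻¹) * t, -((1 - θ - θ * t) * (1 - θ + θ * t⁻¹)), 1 - θ + θ * t⁻¹,
    (1 - θ - θ * t) * (1 - θ + θ * t⁻¹))

/-- From root coordinates to symmetric coordinates. -/
def sy (p : Pm) : Pm := (p.2.1 + p.1, p.2.1 * p.1, p.2.2)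

/-- A continuous substitute of the inverse. -/
def rinv (δ : ℝ) (t : ℂ) : ℂ := (starRingEnd ℂ) t / (max (‖t‖ ^ 2) (δ ^ 2) : ℝ)

/-- The slices. -/
def sl (δ : ℝ) (c : ℂ) (z : ℝ × ℂ) : ℂ × ℂ := (z.1 * c * rinv δ z.2, z.2)

variable {q : ℕ} {η β k e R X δ : ℝ} {μ : ℂ}

lemma lt_bb (q : ℕ) {a : ℝ} (ha : 0 ≤ a) : a + 2 < bb q a := by
  have h2 : (1:ℝ) ≤ 3 ^ q := one_le_pow₀ (by norm_num)
  have h5 : a + 2 ≤ (a + 2) ^ 3 := le_self_pow₀ (by linarith) (by norm_num)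
  have h6 : 8 * 1 * (a + 2) ≤ 8 * 3 ^ q * (a + 2) ^ 3 := by gcongr
  rw [bb]; linarith

lemma aa_ge (q : ℕ) : 1000 ≤ aa q := by
  have h1 : (1:ℝ) ≤ 5 ^ q := one_le_pow₀ (by norm_num)
  rw [aa]; linarith

lemma XX_ge (q : ℕ) : 10 ≤ XX q := by
  have h1 := aa_ge q
  have h2 := lt_bb q (a := aa q) (by linarith)
  have h3 := lt_bb q (a := 4 * bb q (aa q)) (by linarith)
  rw [XX]; nlinarith

lemma exists_sc (hη : 0 < η) (sm : G.Sm q β (1 / 2)) (b0 : 0 < β) (b1 : β ≤ 1 / 2) (hR : 0 < R) :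
    ∃ k e, G.Sc q η β k e R := by
  have := ri_pos (-(16 * η))
  exact ⟨β / (R * ri (-(16 * η))), β * (β / (R * ri (-(16 * η)))) / ri (-(16 * η)), hη, sm, b1,
    by positivity, by positivity, hR, le_of_eq (by field_simp), le_of_eq (by field_simp)⟩

lemma sc_eR (s : G.Sc q η β k e R) : e * R ≤ β ∧ e * R ≤ 1 / 4 := by
  have h1 : 1 ≤ ri (-(16 * η)) := (one_mem_ri (by linarith [s.η0])).2.le
  have := s.e0; have := s.k0; have := s.R0; have := s.s1; have := s.s2; have := s.hβ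
  have h2 : e ≤ β * k := by nlinarith
  have h3 : R * k ≤ β := by nlinarith [mul_pos s.R0 s.k0]
  have h4 : 0 < β := by nlinarith [mul_pos s.R0 s.k0]
  have h5 : e * R ≤ β * β := by nlinarith
  constructor <;> nlinarith

lemma pp_cont : Continuous pp := by unfold pp; fun_prop

lemma pp_le (hX : 1 ≤ X) {z : ℂ × ℂ} (h1 : ‖z.1‖ ≤ 2 * X) (h2 : ‖z.2‖ ≤ 2 * X) :
    ‖pp z‖ ≤ 5 * X := by
  have h3 := (norm_sub_le _ z.2).trans (add_le_add (norm_add_le 1 z.1) le_rfl)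
  simp only [pp, Prod.norm_def, max_le_iff, norm_neg, norm_one] at h3 ⊢
  refine ⟨?_, ?_, ?_, ?_, ?_⟩ <;> linarith

lemma pp_nd (s : G.Sc q η β k e (2 * (5 * X))) (hX : 1 ≤ X) (hμ : μ ≠ 0) (hδ : 0 ≤ δ) {z : ℂ × ℂ}
    (h1 : z.1 ∈ ann δ (2 * X)) (h2 : z.2 ∈ ann δ (2 * X)) : ND q μ (-e) (pp z) := by
  have e0 := s.e0
  have e1 := (sc_eR s).2
  have e2 : e < 1 := by nlinarith
  have h3 := (G.pm_le (pp_le hX h1.2.le h2.2.le)).1
  refine ⟨hμ, by exact_mod_cast (by linarith : -e ≠ 0), fun a ha => ?_, ?_⟩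
  · have k1 : a ≠ 1 := fun h => ann_ne_zero hδ h2 (by
      simp only [pp, h] at ha; linear_combination ha)
    refine ⟨fun h => ann_ne_zero hδ h1 (by simpa [pp, h] using ha), k1, k1, fun h => ?_⟩
    have h4 : (1:ℂ) = -((pp z).1 * e) - z.1 * e * e := by
      simp only [pp] at ha ⊢
      linear_combination (e:ℂ) ^ 2 * ha - (1 - e * a + (1 + z.1 - z.2) * e) * h
    have h5 := norm_sub_le (-((pp z).1 * e)) (z.1 * e * e)
    rw [← h4, norm_one, norm_neg, norm_mul, norm_mul, norm_mul, Complex.norm_real,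
      Real.norm_of_nonneg e0.le] at h5
    have h6 : ‖(pp z).1‖ * e ≤ 5 * X * e := by gcongr
    have h7 : ‖z.1‖ * e * e ≤ 2 * X * e * 1 := by gcongr; exact h1.2.le
    nlinarith
  · refine ⟨by simp [pp], by norm_num [pp], by norm_num [pp], ?_⟩
    simp only [pp]
    exact_mod_cast (by linarith : -e * -1 ≠ 1)

lemma rr_pp (z : ℂ × ℂ) : rr (pp z) = ((rr (pp z)).1, (rr (pp z)).2.1, -1, 1, 1) := rfl

lemma exit_ex (s : G.Sc q η β k e (2 * (5 * XX q))) {A B x ε : ℂ} (hA : ‖A‖ ≤ XX q)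
    (hx : ‖A‖ = XX q ∨ ‖B‖ = XX q) {c₀ : ℝ} (c0 : 0 < c₀) (hc : c₀ ≤ ‖A * B‖) (m1 : 1 / 2 ≤ ‖μ‖)
    (m2 : ‖μ‖ ≤ 2) (h1 : ‖ε‖ ≤ ‖x‖) (h2 : x + ε = 1 + A - B) (h3 : x * ε = A)
    (h4 : ‖x‖ ≤ 2 * (5 * XX q)) :
    (Ex q β e (aa q) (bb q (aa q)) μ x ε ∨
      Ex q β e (4 * bb q (aa q)) (bb q (4 * bb q (aa q))) μ x ε) ∧
    c₀ / (11 * XX q ^ 2) ≤ ‖1 - ε‖ := by
  have a0 := aa_ge q
  have a1 := lt_bb q (a := aa q) (by linarith)
  have a2 := lt_bb q (a := 4 * bb q (aa q)) (by linarith)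
  have X0 := XX_ge q
  have hB : B = (1 - x) * (1 - ε) := by linear_combination h2 - h3
  have n1 := (G.norm_one_sub_bounds x).2.1
  have n2 := (G.norm_one_sub_bounds ε).2.1
  have k1 : c₀ / (11 * XX q ^ 2) ≤ ‖1 - ε‖ := by
    rw [div_le_iff₀ (by positivity)]
    rw [hB, norm_mul, norm_mul] at hc
    have : ‖A‖ * (‖1 - x‖ * ‖1 - ε‖) ≤ XX q * (11 * XX q * ‖1 - ε‖) := by gcongr; linarith
    linarith
  have k2 : ε ≠ 1 := fun h => by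
    rw [h, sub_self, norm_zero] at k1
    exact k1.not_gt (by positivity)
  have k3 : 2 * bb q (4 * bb q (aa q)) ≤ ‖x‖ := by
    have k4 : XX q ≤ (‖x‖ + 1) ^ 2 := by
      rcases hx with h | h
      · rw [← h, ← h3, norm_mul]; nlinarith [norm_nonneg x, norm_nonneg ε]
      · rw [← h, hB, norm_mul, sq]; gcongr <;> linarith
    linarith [(abs_le_of_sq_le_sq' k4 (by positivity)).2]
  have k5 : e * ‖x‖ ≤ β := le_trans (by gcongr; exact s.e0.le) (sc_eR s).1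
  refine ⟨?_, k1⟩
  rcases le_total (2 * bb q (aa q) * ‖ε‖) ‖x‖ with h | h
  · exact Or.inl ⟨s.sm, s.hβ, s.e0, m1, m2, le_rfl, lt_add_one _, by linarith, k5, h1, k2, Or.inl h⟩
  · exact Or.inr ⟨s.sm, s.hβ, s.e0, m1, m2, show aa q ≤ _ by linarith, lt_add_one _, k3, k5, h1, k2,
      Or.inr (by linarith)⟩

lemma rinv_cont (hδ : 0 < δ) : Continuous (rinv δ) :=
  continuous_conj.div (by fun_prop) fun t => by
    exact_mod_cast (lt_max_of_lt_right (by positivity)).ne'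

lemma rinv_eq (hδ : 0 < δ) {t : ℂ} (ht : δ < ‖t‖) : rinv δ t = t⁻¹ := by
  rw [rinv, max_eq_left (by gcongr), inv_def, normSq_eq_norm_sq, div_eq_mul_inv, ofReal_inv]

lemma sl_cont (hδ : 0 < δ) (c : ℂ) : Continuous (sl δ c) := by
  have := rinv_cont hδ
  unfold sl; fun_prop

lemma sy_cont : Continuous sy := by unfold sy; fun_prop

lemma ln_zero (e : ℝ) (t : ℂ) : ln e t 0 = ((-e, t, -1, 1, 1) : Pm) := by simp [ln]

lemma ln_one (e : ℝ) {t : ℂ} (ht : t ≠ 0) :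
    ln e t 1 = ((-e, 1⁻¹, 1⁻¹, t⁻¹, (-1)⁻¹) : Pm) := by
  simp [ln, ht]

lemma sy_start (e : ℝ) (t : ℂ) : sy (-e, t, -1, 1, 1) = pp (-e * t, (1 - t) * (1 + e)) := by
  simp only [sy, pp, Prod.mk.injEq, and_true]
  constructor <;> ring

lemma ln_bd {t : ℂ} (t1 : 1 / 4 ≤ ‖t‖) (t2 : ‖t‖ ≤ 2) {θ : ℝ} (h0 : 0 ≤ θ) (h1 : θ ≤ 1) :
    ‖1 - θ + θ * t⁻¹‖ ≤ 5 ∧ ‖1 - θ - θ * t‖ ≤ 3 := by
  have k1 : ‖(1:ℂ) - θ‖ ≤ 1 := by
    rw [← ofReal_one, ← ofReal_sub, Complex.norm_real, Real.norm_of_nonneg (by linarith)]; linarith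
  have k2 : ‖(θ:ℂ)‖ ≤ 1 := by rwa [Complex.norm_real, Real.norm_of_nonneg h0]
  have k3 : ‖t⁻¹‖ ≤ 4 := by rw [norm_inv]; exact inv_le_of_inv_le₀ (by norm_num) (by linarith)
  have k4 := norm_add_le (1 - θ : ℂ) (θ * t⁻¹)
  have k5 := norm_sub_le (1 - θ : ℂ) (θ * t)
  rw [norm_mul] at k4 k5
  have k6 : ‖(θ:ℂ)‖ * ‖t⁻¹‖ ≤ 1 * 4 := by gcongr
  have k7 : ‖(θ:ℂ)‖ * ‖t‖ ≤ 1 * 2 := by gcongr
  constructor <;> linarith

lemma ln_le (he : 0 < e) (he1 : e ≤ 1) {t : ℂ} (t1 : 1 / 4 ≤ ‖t‖) (t2 : ‖t‖ ≤ 2) {θ : ℝ} (h0 : 0 ≤ θ)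
    (h1 : θ ≤ 1) : ‖sy (ln e t θ)‖ ≤ 50 := by
  obtain ⟨k1, k2⟩ := ln_bd t1 t2 h0 h1
  have k3 : ‖(-e : ℂ)‖ ≤ 1 := by rwa [norm_neg, Complex.norm_real, Real.norm_of_nonneg he.le]
  have k4 : ‖(1 - θ + θ * t⁻¹) * t‖ ≤ 5 * 2 := by rw [norm_mul]; gcongr
  have k5 : ‖(1 - θ - θ * t) * (1 - θ + θ * t⁻¹)‖ ≤ 3 * 5 := by rw [norm_mul]; gcongr
  have k6 := norm_add_le ((1 - θ + θ * t⁻¹) * t) (-e)
  have k7 : ‖(1 - θ + θ * t⁻¹) * t * -e‖ ≤ 5 * 2 * 1 := by rw [norm_mul]; gcongr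
  simp only [sy, ln, Prod.norm_def, max_le_iff]
  refine ⟨?_, ?_, ?_, ?_, ?_⟩ <;> linarith [norm_neg ((1 - θ - θ * t) * (1 - θ + θ * t⁻¹))]

lemma ln_nd (hμ : μ ≠ 0) (he : 0 < e) (he1 : e ≤ 1 / 20) {t : ℂ} (t0 : t.im ≠ 0) (t1 : 1 / 4 ≤ ‖t‖)
    (t2 : ‖t‖ ≤ 2) {θ : ℝ} (h0 : 0 ≤ θ) (h1 : θ ≤ 1) : G.ND q μ (-e) (ln e t θ) := by
  obtain ⟨k1, k2⟩ := ln_bd t1 t2 h0 h1
  have ht : t ≠ 0 := fun h => t0 (by simp [h])
  have n0 : 0 < normSq t := normSq_pos.2 ht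
  have re : ∀ u v : ℝ, u * t = v → u = 0 ∧ v = 0 := fun u v h => by
    have h2 : u = 0 := by simpa [t0] using congrArg im h
    exact ⟨h2, by simpa [h2, eq_comm] using h⟩
  have l0 : ∀ v : ℝ, 1 - θ + θ * t⁻¹ = v → v = 1 := fun v h => by
    have := re (v - 1 + θ) θ (by push_cast; rw [← h]; field_simp; ring)
    linarith [this.1, this.2]
  have l1 : 1 - θ + θ * t⁻¹ ≠ 0 := fun h => zero_ne_one (l0 0 h)
  have l2 : 1 - θ - θ * t ≠ 0 := fun h => by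
    have := re θ (1 - θ) (by push_cast; linear_combination -h)
    linarith [this.1, this.2]
  have sm : ∀ a : ℂ, ‖a‖ ≤ 15 → -e * a ≠ 1 := fun a ha h => by
    have := congrArg norm h
    rw [norm_mul, norm_neg, Complex.norm_real, Real.norm_of_nonneg he.le, norm_one] at this
    nlinarith
  have k4 : ‖(1 - θ + θ * t⁻¹) * t‖ ≤ 5 * 2 := by rw [norm_mul]; gcongr
  have k5 : ‖(1 - θ - θ * t) * (1 - θ + θ * t⁻¹)‖ ≤ 3 * 5 := by rw [norm_mul]; gcongr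
  have e0 : (-e : ℂ) ≠ 0 := by exact_mod_cast (by linarith : -e ≠ 0)
  refine ⟨hμ, e0, ⟨e0, fun h => ?_, fun h => ?_, sm _ ?_⟩,
    ⟨mul_ne_zero l1 ht, fun h => ?_, fun h => ?_, sm _ (k4.trans (by norm_num))⟩,
    ⟨neg_ne_zero.2 (mul_ne_zero l2 l1), fun h => ?_, fun h => ?_, sm _ ?_⟩⟩ <;> simp only [ln] at *
  · linarith [l0 (-e) (by simpa using h.symm)]
  · have h2 : (1 - 2 * θ + e : ℝ) = (θ * (1 - θ) : ℝ) * (t - t⁻¹) := by
      push_cast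
      linear_combination -h + (θ:ℂ) ^ 2 * mul_inv_cancel₀ ht
    have h3 : θ * (1 - θ) = 0 := by
      have h4 := congrArg im h2
      rw [ofReal_im, im_ofReal_mul, sub_im, inv_im, eq_comm, mul_eq_zero] at h4
      refine h4.resolve_right fun h5 => ?_
      have h6 : t.im * (normSq t + 1) = 0 := by field_simp at h5; linear_combination h5
      exact mul_ne_zero t0 (by positivity) h6
    rw [h3, ofReal_zero, zero_mul, ofReal_eq_zero] at h2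
    rcases mul_eq_zero.1 h3 with h4 | h4 <;> linarith
  · rw [norm_neg, Complex.norm_real, Real.norm_of_nonneg he.le]; linarith
  · exact one_ne_zero (re 1 1 (mul_left_cancel₀ l1 (by simpa using h))).1
  · have := re (1 + θ) (1 - θ) (mul_left_cancel₀ l1 (by push_cast; linear_combination h))
    linarith [this.1]
  · have := re θ (2 - θ) (mul_left_cancel₀ l1 (by push_cast; linear_combination h))
    linarith [this.1, this.2]
  · exact mul_ne_zero l2 l1 (by linear_combination (-1 / 2) * h)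
  · rw [norm_neg]; linarith

end

end Pool.Agent.Lib.MP_1e9af3_an.H
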