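import Pool.Agent.Lib.MP_1e9af3_an.HPar
import Pool.Agent.Lib.MP_1e9af3_an.GFinal

/-! The sheet of the small ring and the starting point. -/

namespace Pool.Agent.Lib.MP_1e9af3_an.H

open Set Filter Topology Complex Metric OnePoint

noncomputable section

/-- The centre of the starting disc. -/
def x0 (q : ℕ) (α : ℝ) : ℂ := (-1) ^ q * ee (-(2 * α) : ℝ)

/-- All the data of the construction. -/
structure Dat (q : ℕ) (α c₀ : ℝ) (τ : ℕ) (η β e k r₁ : ℝ) (u : Pm → ℂ → ℂ) (l : Pm → ℂ) :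
    Prop where
  sd : SD α c₀ τ
  sc : G.Sc q η β k e (2 * (5 * XX q))
  cl : Continuous l
  hl : ∀ (D : Set ℂ) (σ : ℂ → Pm), IsOpen D → DifferentiableOn ℂ σ D →
    (∀ t ∈ D, ‖σ t‖ ≤ 5 * XX q) → DifferentiableOn ℂ (fun t => l (σ t)) D
  cc : Continuous fun x : Pm × ℝ => crv (lz (fun w => k * w) (u x.1)) 1 x.2
  bl : ∀ p, ‖l p‖ ≤ η
  kd : ∀ p, ‖p‖ ≤ 5 * XX q → KD α (9 * η) η (G.phi q e k (rr p)) (u p) (l p)
  r0 : 0 < r₁
  r1 : r₁ ≤ 1 / 2
  r2 : 2 * r₁ ≤ |(x0 q α).im|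
  r3 : ∀ y : ℂ, ‖y‖ ≤ 3 * η → ‖ee y - 1‖ < r₁ / 2

lemma norm_x0 (q : ℕ) (α : ℝ) : ‖x0 q α‖ = 1 := by
  rw [x0, norm_mul, norm_ee_real]; simp

lemma exists_dat (q : ℕ) {α : ℝ} (hα : Dioph α) : ∃ c₀ τ η β e k r₁ u l,
    Dat q α c₀ τ η β e k r₁ u l := by
  obtain ⟨c₀, τ, sd⟩ := hα.exists_SD
  have him : (x0 q α).im ≠ 0 := fun h => by
    apply sd.ne (k := -4) (by norm_num)
    have h1 := norm_x0 q α
    have h0 : ee ((-4 : ℤ) * α) = x0 q α ^ 2 := by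
      rw [x0, mul_pow, ← pow_mul, mul_comm q, pow_mul, neg_one_sq, one_pow, one_mul, sq, ← ee_add]
      congr 1; push_cast; ring
    generalize x0 q α = w at h h0 h1
    have h2 : w = (w.re : ℂ) := Complex.ext rfl (by simpa using h)
    rw [h2, Complex.norm_real, Real.norm_eq_abs] at h1
    have : w.re ^ 2 = 1 := by rw [← sq_abs, h1, one_pow]
    rw [h0, h2, ← ofReal_pow, this]; simp
  have r0 : 0 < min (1 / 2) (|(x0 q α).im| / 2) := lt_min (by norm_num) (half_pos (abs_pos.2 him))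
  have c1 : ∀ᶠ y in 𝓝 (0:ℂ), ‖ee y - 1‖ < min (1 / 2) (|(x0 q α).im| / 2) / 2 :=
    ((G.cont_ee.sub continuous_const).norm.continuousAt).eventually
      (gt_mem_nhds (by simpa [ee_zero] using r0))
  obtain ⟨δ, δ0, hδ⟩ := Metric.nhds_basis_closedBall.mem_iff.1 c1
  have η0 : 0 < δ / 3 := by positivity
  have X0 := XX_ge q
  obtain ⟨β, b0, b1, b2, H⟩ := base q sd η0
  obtain ⟨k, e, sc⟩ := exists_sc (R := 2 * (5 * XX q)) η0 b2 b0 b1 (by linarith)
  obtain ⟨u, l, k1, k2, k3, k4, k5⟩ := H k e _ (by linarith) sc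
  exact ⟨c₀, τ, _, β, e, k, _, u, l, sd, sc, k1, k2, k3, k4, k5, r0, min_le_left _ _,
    by linarith [min_le_right (1 / 2) (|(x0 q α).im| / 2)],
    fun y hy => hδ (mem_closedBall_zero_iff.2 (by linarith))⟩

/-- The map on the sheet of the small ring. -/
def FF (q : ℕ) (α e : ℝ) (l : Pm → ℂ) (p : Pm) : RatMap (q + 4) := fam q (ee α * ee (l p)) (-e) p

/-- The small ring. -/
def BB (q : ℕ) (α e k : ℝ) (u : Pm → ℂ → ℂ) (l : Pm → ℂ) (p : Pm) : Set Sph :=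
  connectedComponentIn (fatou (FF q α e l p).1) (lz (fun w => k * w) (u p) 1 : ℂ)

/-- The multiplier off the sheet. -/
def mu (α : ℝ) (l : Pm → ℂ) (ℓ : ℝ) (z : ℂ × ℂ) : ℂ := ee α * ee (l (pp z) - ℓ * I)

/-- The perturbed family. -/
def Phi (q : ℕ) (α e : ℝ) (l : Pm → ℂ) (ℓ : ℝ) (z : ℂ × ℂ) : RatMap (q + 4) :=
  fam q (mu α l ℓ z) (-e) (pp z)

/-- The open parameter domain. -/
def WW (q : ℕ) (c : ℝ) : Set (ℂ × ℂ) :=
  ann (c / (2 * XX q)) (2 * XX q) ×ˢ ann (c / (2 * XX q)) (2 * XX q)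

/-- The compact parameter domain. -/
def KK (q : ℕ) (c : ℝ) : Set (ℂ × ℂ) := {z | ‖z.1‖ ≤ XX q ∧ ‖z.2‖ ≤ XX q ∧ c ≤ ‖z.1 * z.2‖}

variable {q : ℕ} {α c₀ η β e k r₁ c : ℝ} {τ : ℕ} {u : Pm → ℂ → ℂ} {l : Pm → ℂ}

lemma WW_open (q : ℕ) (c : ℝ) : IsOpen (WW q c) := (isOpen_ann _ _).prod (isOpen_ann _ _)

lemma KK_compact (q : ℕ) (c : ℝ) : IsCompact (KK q c) :=
  ((isCompact_closedBall (0:ℂ) (XX q)).prod (isCompact_closedBall (0:ℂ) (XX q))).of_isClosed_subset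
    (IsClosed.and (isClosed_le (by fun_prop) (by fun_prop))
      (IsClosed.and (isClosed_le (by fun_prop) (by fun_prop))
        (isClosed_le (by fun_prop) (by fun_prop))))
    fun _ hz => ⟨mem_closedBall_zero_iff.2 hz.1, mem_closedBall_zero_iff.2 hz.2.1⟩

lemma KK_sub (hc : 0 < c) : KK q c ⊆ WW q c := fun z ⟨h1, h2, h3⟩ => by
  have X0 := XX_ge q
  rw [norm_mul] at h3
  refine ⟨⟨?_, by linarith⟩, ?_, by linarith⟩ <;> rw [div_lt_iff₀ (by linarith)] <;>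
    nlinarith [norm_nonneg z.1, norm_nonneg z.2]

lemma WW_le {z : ℂ × ℂ} (hz : z ∈ WW q c) : ‖pp z‖ ≤ 5 * XX q :=
  pp_le (by linarith [XX_ge q]) hz.1.2.le hz.2.2.le

lemma rr_le' {p : Pm} (hp : ‖p‖ ≤ 5 * XX q) : ‖rr p‖ ≤ 2 * (5 * XX q) :=
  rr_le (by linarith [XX_ge q]) hp

lemma Dat.nd (D : Dat q α c₀ τ η β e k r₁ u l) (hc : 0 < c) {μ : ℂ} (hμ : μ ≠ 0) {z : ℂ × ℂ}
    (hz : z ∈ WW q c) : ND q μ (-e) (pp z) :=
  pp_nd D.sc (by linarith [XX_ge q]) hμ (by have := XX_ge q; positivity) hz.1 hz.2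

lemma Dat.e1 (D : Dat q α c₀ τ η β e k r₁ u l) : e ≤ 1 / 20 := by
  nlinarith [(sc_eR D.sc).2, XX_ge q, D.sc.e0]

lemma cont_nm {T : Type*} [TopologicalSpace T] {μ z : T → ℂ} {p : T → Pm} (h1 : Continuous μ)
    (h2 : Continuous p) (h3 : Continuous z) : Continuous fun t => nm q (μ t) (p t) (z t) 1 := by
  unfold nm; fun_prop

lemma Dat.connP (D : Dat q α c₀ τ η β e k r₁ u l) {γ : unitInterval → Pm} (hc : Continuous γ)
    (hb : ∀ θ, ‖γ θ‖ ≤ 5 * XX q) (hn : ∀ θ, ND q 1 (-e) (γ θ)) :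
    Conn α (FF q α e l (γ 0)) (BB q α e k u l (γ 0)) (FF q α e l (γ 1)) (BB q α e k u l (γ 1)) := by
  have nd : ∀ θ, ND q (ee α * ee (l (γ θ))) (-e) (γ θ) := fun θ => (hn θ).change (G.ee_ee_ne _ _)
  have cm : Continuous fun θ => ee α * ee (l (γ θ)) :=
    continuous_const.mul (G.cont_ee.comp (D.cl.comp hc))
  have η0 := D.sc.η0
  have cP : Continuous fun x : unitInterval × ℂ => nm q (ee α * ee (l (γ x.1))) (γ x.1) x.2 1 :=
    cont_nm (cm.comp continuous_fst) (hc.comp continuous_fst) continuous_snd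
  have cQ : Continuous fun x : unitInterval × ℂ => G.dn q (-e) (γ x.1) x.2 1 :=
    G.cont_dn _ (hc.comp continuous_fst) continuous_snd
  have cf : Continuous fun θ => FF q α e l (γ θ) :=
    continuousOn_univ.1 (cont_fam cm.continuousOn hc.continuousOn fun θ _ => nd θ)
  have hE : ∀ θ₀, ∃ M, ∀ᶠ θ in 𝓝 θ₀, Esc (FF q α e l (γ θ)).1 M := fun θ =>
    esc_fam (μ := fun θ => ee α * ee (l (γ θ))) cm.continuousAt hc.continuousAt
      (Eventually.of_forall nd)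
  have cc : Continuous fun x : unitInterval × ℝ => crv (lz (fun w => k * w) (u (γ x.1))) 1 x.2 :=
    D.cc.comp (f := fun x : unitInterval × ℝ => (γ x.1, x.2)) (hc.prodMap continuous_id)
  exact conn_sheet D.sd (f := fun θ => FF q α e l (γ θ))
    (P := fun θ z => nm q (ee α * ee (l (γ θ))) (γ θ) z 1) (Q := fun θ z => G.dn q (-e) (γ θ) z 1)
    (fun θ => (nd θ).mero) cP cQ cf hE
    (χ := fun θ => lz (fun w => k * w) (u (γ θ))) (ri_pos _) (one_mem_ri (by linarith))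
    (fun θ => D.sc.lin (rr_le' (hb θ)) (nd θ).toG (D.kd _ (hb θ))) cc
    fun θ => by
      rw [D.sc.windq ((hb θ).trans (by linarith [XX_ge q])) (D.kd _ (hb θ)).near]; exact one_ne_zero

lemma Dat.typ (D : Dat q α c₀ τ η β e k r₁ u l) {p : Pm} (hb : ‖p‖ ≤ 5 * XX q)
    (hn : ND q 1 (-e) p) : Typ (q + 4) α (FF q α e l p).1 (BB q α e k u l p) 2 := by
  have nd : G.ND q (ee α * ee (l p)) (-e) (rr p) := (hn.change (G.ee_ee_ne _ _)).toG
  have η0 := D.sc.η0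
  have o1 := one_mem_ri (σ := 9 * η) (by linarith)
  have hw := D.sc.windq (rr_le' hb) (D.kd _ hb).near
  obtain ⟨M, hM⟩ := nd.esc
  obtain ⟨a', b', Ψ, k1, k2, k3, k4, k5, k6⟩ := ring_structure nd.mero (hM.self_of_nhds nd)
    D.sd.irrational (D.sc.lin (rr_le' hb) nd (D.kd _ hb)) (ri_pos _) o1
    (by rw [hw]; exact one_ne_zero) (one_mem_sann (by linarith))
  have o2 : (1:ℝ) ∈ Ioo a' b' := ⟨k2.trans_lt o1.1, o1.2.trans_le k3⟩
  have he : crv Ψ 1 = crv (lz (fun w => k * w) (u p)) 1 :=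
    funext fun θ => k5 _ (circ_mem (ri_pos _).le o1 θ)
  have := nd.typ_base D.sd.irrational k4 k1 o2
  rw [he, hw, (G.nout_of_wind k4.toEmb o2 (he ▸ D.sc.wind1 (D.kd _ hb).near)).1, ← k6] at this
  exact this

lemma Dat.c0 (D : Dat q α c₀ τ η β e k r₁ u l) : 0 < e * r₁ / 2 := by
  have := D.sc.e0; have := D.r0; positivity

lemma Dat.one_mem (D : Dat q α c₀ τ η β e k r₁ u l) : ((1, 1) : ℂ × ℂ) ∈ WW q (e * r₁ / 2) :=
  KK_sub D.c0 ⟨by simp; linarith [XX_ge q], by simp; linarith [XX_ge q], by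
    simp; nlinarith [D.e1, D.r1, D.r0, D.sc.e0]⟩

lemma Dat.conn0 (D : Dat q α c₀ τ η β e k r₁ u l) {z : ℂ × ℂ} (hz : z ∈ WW q (e * r₁ / 2)) :
    Conn α (FF q α e l (pp (1, 1))) (BB q α e k u l (pp (1, 1)))
      (FF q α e l (pp z)) (BB q α e k u l (pp z)) := by
  have h0 : 0 ≤ e * r₁ / 2 / (2 * XX q) := by have := XX_ge q; have := D.c0; positivity
  obtain ⟨γ, hγ⟩ := ((WW_open q _).isConnected_iff_isPathConnected.1
    ⟨⟨_, hz⟩, (isPreconnected_ann h0 _).prod (isPreconnected_ann h0 _)⟩).joinedIn _ D.one_mem _ hz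
  have := D.connP (γ := fun θ => pp (γ θ)) (pp_cont.comp γ.continuous)
    (fun θ => WW_le (hγ θ)) fun θ => D.nd D.c0 one_ne_zero (hγ θ)
  simpa using this

lemma Dat.start (D : Dat q α c₀ τ η β e k r₁ u l) {ℓ : ℝ} (h0 : 0 < ℓ) (h1 : ℓ ≤ η) :
    ∃ z ∈ KK q (e * r₁ / 2), Phi q α e l ℓ z ∈
      hermanClass α (FF q α e l (pp (1, 1))) (BB q α e k u l (pp (1, 1))) := by
  have r0 := D.r0
  have η0 := D.sc.η0
  have e0 := D.sc.e0
  have e1 := D.e1
  have X0 := XX_ge q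
  have bl : ∀ t ∈ ann (1 / 4) 2, ∀ θ : unitInterval, ‖sy (ln e t θ)‖ ≤ 5 * XX q := fun t ht θ =>
    (ln_le e0 (by linarith) ht.1.le ht.2.le θ.2.1 θ.2.2).trans (by linarith)
  have dl : ∀ θ : unitInterval, DifferentiableOn ℂ (fun t => l (sy (ln e t θ))) (ann (1 / 4) 2) :=
    fun θ => D.hl _ _ (isOpen_ann _ _) (by
      have : DifferentiableOn ℂ (fun t : ℂ => t⁻¹) (ann (1 / 4) 2) :=
        differentiableOn_id.inv fun t ht => ann_ne_zero (by norm_num) ht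
      simp only [sy, ln]; fun_prop) fun t ht => bl t ht θ
  have nb : ∀ t ∈ closedBall (x0 q α) r₁, 1 / 2 ≤ ‖t‖ ∧ ‖t‖ ≤ 3 / 2 := fun t ht => by
    have := abs_le.1 ((abs_norm_sub_norm_le _ _).trans (mem_closedBall_iff_norm.1 ht))
    rw [norm_x0] at this
    constructor <;> linarith [this.1, this.2, D.r1]
  have sb : closedBall (x0 q α) r₁ ⊆ ann (1 / 4) 2 := fun t ht =>
    ⟨by linarith [(nb t ht).1], by linarith [(nb t ht).2]⟩
  set Λ : ℂ → ℂ := fun t => -(l (sy (ln e t (0 : unitInterval))) - ℓ * I +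
    l (sy (ln e t (1 : unitInterval)))) with hΛ
  have bd : ∀ t, ‖x0 q α * ee (Λ t) - x0 q α‖ < r₁ / 2 := fun t => by
    rw [← mul_sub_one, norm_mul, norm_x0, one_mul]
    refine D.r3 _ ?_
    have h2 := (norm_add_le _ _).trans (add_le_add ((norm_sub_le _ (ℓ * I)).trans
      (add_le_add (D.bl (sy (ln e t (0 : unitInterval))))
        (show _ ≤ η by simpa [abs_of_pos h0] using h1))) (D.bl (sy (ln e t (1 : unitInterval)))))
    rw [hΛ, norm_neg]; linarith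
  obtain ⟨t, t1, t2⟩ := exists_zero_of_min (c := x0 q α) (r := r₁) (m := r₁ / 2)
    (f := fun t => t - x0 q α * ee (Λ t)) r0
    (DifferentiableOn.diffContOnCl (by
      rw [closure_ball _ r0.ne']
      exact (differentiableOn_id.sub ((G.diff_ee.comp_differentiableOn
        (((dl 0).sub_const _).add (dl 1)).neg).const_mul _)).mono sb))
    (fun t ht => by
      have h2 := norm_sub_norm_le (t - x0 q α) (x0 q α * ee (Λ t) - x0 q α)
      rw [sub_sub_sub_cancel_right, mem_sphere_iff_norm.1 ht] at h2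
      linarith [bd t])
    (by rw [norm_sub_rev]; exact bd _)
  have t3 := sb (ball_subset_closedBall t1)
  obtain ⟨t6, t7⟩ := nb t (ball_subset_closedBall t1)
  have t4 : r₁ ≤ |t.im| := by
    have h2 := (abs_im_le_norm _).trans_lt (mem_ball_iff_norm.1 t1)
    have h3 := abs_sub_abs_le_abs_sub (x0 q α).im t.im
    rw [sub_im, abs_sub_comm] at h2
    linarith [D.r2]
  have t5 : t.im ≠ 0 := abs_pos.1 (r0.trans_le t4)
  have t0 := ann_ne_zero (by norm_num) t3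
  have nl := fun (μ : ℂ) (hμ : μ ≠ 0) (θ : unitInterval) =>
    ln_nd (q := q) hμ e0 e1 t5 t3.1.le t3.2.le θ.2.1 θ.2.2
  have k1 := D.connP (γ := fun θ : unitInterval => sy (ln e t θ))
    (sy_cont.comp (by unfold ln; fun_prop)) (bl t t3) fun θ => ND.ofG (nl 1 one_ne_zero θ)
  have p0 : sy (ln e t (0 : unitInterval)) = pp (-e * t, (1 - t) * (1 + e)) := by
    rw [Icc.coe_zero, ln_zero, sy_start]
  have zK : (-e * t, (1 - t) * (1 + e)) ∈ KK q (e * r₁ / 2) := by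
    have n1 : ‖(1 + e : ℂ)‖ = 1 + e := by
      rw [← ofReal_one, ← ofReal_add, Complex.norm_real, Real.norm_of_nonneg (by linarith)]
    have n2 : r₁ ≤ ‖1 - t‖ := t4.trans (by simpa using abs_im_le_norm (1 - t))
    have n3 := (G.norm_one_sub_bounds t).2.1
    simp only [KK, mem_ofPred_eq, norm_mul, norm_neg, Complex.norm_real, Real.norm_of_nonneg e0.le, n1]
    refine ⟨by nlinarith, by nlinarith [norm_nonneg (1 - t)], ?_⟩
    have : e * (1 / 2) * (r₁ * 1) ≤ e * ‖t‖ * (‖1 - t‖ * (1 + e)) := by gcongr; linarith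
    linarith
  rw [p0] at k1
  have k2 := ((D.conn0 (KK_sub D.c0 zK)).trans k1).trans (conn_inv k1.herman)
  refine ⟨_, zK, mem_class.2 ⟨inv '' BB q α e k u l (sy (ln e t (1 : unitInterval))), ?_⟩⟩
  have n1 := nl (mu α l ℓ (-e * t, (1 - t) * (1 + e))) (G.ee_ee_ne _ _) 0
  have n2 := nl (ee α * ee (l (sy (ln e t (1 : unitInterval))))) (G.ee_ee_ne _ _) 1
  have f1 : Phi q α e l ℓ (-e * t, (1 - t) * (1 + e)) = G.fam q (mu α l ℓ (-e * t, (1 - t) * (1 + e)))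
      (-e) (ln e t (0 : unitInterval)) := by rw [Phi, ← p0]; exact fam_G n1
  have f2 : FF q α e l (sy (ln e t (1 : unitInterval))) = G.fam q
      (ee α * ee (l (sy (ln e t (1 : unitInterval))))) (-e) (ln e t (1 : unitInterval)) := fam_G n2
  have f3 : ee α * ee (l (sy (ln e t (1 : unitInterval)))) * mu α l ℓ (-e * t, (1 - t) * (1 + e)) * t *
      (-1) ^ q = 1 * 1 ^ q := by
    have h4 := sub_eq_zero.1 t2
    have h5 : ((-1 : ℂ) ^ q) ^ 2 = 1 := by rw [← pow_mul, mul_comm, pow_mul]; simp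
    have h6 : ee α * ee α * ee (-(2 * α) : ℝ) = 1 := by
      rw [← ee_add, ← ee_add, ← ee_zero]; congr 1; push_cast; ring
    have h7 : ee (l (sy (ln e t (1 : unitInterval)))) *
        ee (l (sy (ln e t (0 : unitInterval))) - ℓ * I) * ee (Λ t) = 1 := by
      rw [← ee_add, ← ee_add, ← ee_zero, hΛ]; congr 1; ring
    rw [mu, ← p0, one_pow]
    rw [x0] at h4
    generalize ee (Λ t) = E at h4 h7
    generalize ee (l (sy (ln e t (1 : unitInterval)))) = E₁ at h7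
    generalize ee (l (sy (ln e t (0 : unitInterval))) - ℓ * I) = E₀ at h7
    rw [h4]
    linear_combination (ee α * ee α * ee (-(2 * α) : ℝ) * (E₁ * E₀ * E)) * h5 +
      (E₁ * E₀ * E) * h6 + h7
  rw [f1]
  rw [f2] at k2
  generalize BB q α e k u l (sy (ln e t (1 : unitInterval))) = B at k2
  generalize ee α * ee (l (sy (ln e t (1 : unitInterval)))) = μ' at k2 n2 f3
  rw [Icc.coe_one, ln_one e t0] at n2 k2
  rw [Icc.coe_zero, ln_zero] at n1 ⊢
  exact G.cinv_fam n1 n2 f3 ▸ k2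

end

end Pool.Agent.Lib.MP_1e9af3_an.H
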