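import Pool.Agent.Lib.MP_1e9af3_an.Ring

/-! A discrete invariant of Herman rings that is constant along Herman's classes. -/

namespace Pool.Agent.Lib.MP_1e9af3_an

open Set Filter Topology Complex Metric OnePoint

noncomputable section

/-- An injective holomorphic map to the sphere in homogeneous coordinates. -/
structure SEmb (a b : ℂ → ℂ) (U : Set ℂ) : Prop where
  op : IsOpen U
  da : DifferentiableOn ℂ a U
  db : DifferentiableOn ℂ b U
  ne : ∀ w ∈ U, a w ≠ 0 ∨ b w ≠ 0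
  inj : InjOn (fun w => pr (a w) (b w)) U

lemma SEmb.swap {a b : ℂ → ℂ} {U : Set ℂ} (h : SEmb a b U) : SEmb b a U :=
  ⟨h.op, h.db, h.da, fun w hw => (h.ne w hw).symm, fun w hw w' hw' he => h.inj hw hw' (by
    simp only at he ⊢
    rw [← inv_pr (h.ne w hw).symm, he, inv_pr (h.ne w' hw').symm])⟩

lemma SEmb.mono {a b : ℂ → ℂ} {U V : Set ℂ} (h : SEmb a b U) (hV : IsOpen V) (hs : V ⊆ U) :
    SEmb a b V :=
  ⟨hV, h.da.mono hs, h.db.mono hs, fun w hw => h.ne w (hs hw), h.inj.mono hs⟩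

lemma SEmb.chart {a b : ℂ → ℂ} {U : Set ℂ} (h : SEmb a b U) :
    IsOpen (U ∩ b ⁻¹' {0}ᶜ) ∧ DifferentiableOn ℂ (fun w => a w / b w) (U ∩ b ⁻¹' {0}ᶜ) ∧
      InjOn (fun w => a w / b w) (U ∩ b ⁻¹' {0}ᶜ) :=
  ⟨h.db.continuousOn.isOpen_inter_preimage h.op isOpen_compl_singleton,
    (h.da.mono inter_subset_left).div (h.db.mono inter_subset_left) fun _ hw => hw.2,
    fun w hw w' hw' he => h.inj hw.1 hw'.1 (by
      simp only at he ⊢
      rw [pr_of_ne _ hw.2, pr_of_ne _ hw'.2, he])⟩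

lemma SEmb.cont {a b : ℂ → ℂ} {U : Set ℂ} (h : SEmb a b U) :
    ContinuousOn (fun w => pr (a w) (b w)) U := fun w hw =>
  (continuousAt_pv (v := (a w, b w)) (ne_zero_iff'.2 (h.ne w hw))).comp_continuousWithinAt
    (f := fun w => (a w, b w)) ((h.da.continuousOn w hw).prodMk (h.db.continuousOn w hw))

lemma SEmb.open_aux {a b : ℂ → ℂ} {U : Set ℂ} (h : SEmb a b U) {w : ℂ} (hw : w ∈ U)
    (hb : b w ≠ 0) : 𝓝 (pr (a w) (b w)) ≤ map (fun w => pr (a w) (b w)) (𝓝 w) := by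
  obtain ⟨h1, h2, h3⟩ := h.chart
  have h4 := nhds_le_map_of_injOn h1 h2 h3 (z := w) ⟨hw, hb⟩
  rw [pr_of_ne _ hb, nhds_coe_eq]
  refine (map_mono h4).trans_eq ?_
  rw [map_map]
  exact Filter.map_congr (by filter_upwards [h1.mem_nhds ⟨hw, hb⟩] with v hv using (pr_of_ne _ hv.2).symm)

lemma SEmb.open_at {a b : ℂ → ℂ} {U : Set ℂ} (h : SEmb a b U) {w : ℂ} (hw : w ∈ U) :
    𝓝 (pr (a w) (b w)) ≤ map (fun w => pr (a w) (b w)) (𝓝 w) := by
  rcases h.ne w hw with h1 | h1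
  · have := map_mono (m := inv) (h.swap.open_aux hw h1)
    rw [inv.map_nhds_eq, inv_pr (h.ne w hw).symm, map_map] at this
    refine this.trans_eq (Filter.map_congr ?_)
    filter_upwards [h.op.mem_nhds hw] with v hv using inv_pr (h.ne v hv).symm
  · exact h.open_aux hw h1

lemma pr_eq_infty {x y : ℂ} : pr x y = ∞ ↔ y = 0 := by
  by_cases h : y = 0
  · simp [h]
  · simp [pr_of_ne _ h, h]

lemma SEmb.trans_aux {a b a' b' u : ℂ → ℂ} {U U' : Set ℂ} (h : SEmb a b U) (h' : SEmb a' b' U')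
    (hm : MapsTo u U U') (he : ∀ w ∈ U, pr (a' (u w)) (b' (u w)) = pr (a w) (b w)) {w : ℂ}
    (hw : w ∈ U) (hb : b w ≠ 0) : DifferentiableAt ℂ u w := by
  obtain ⟨h1, h2, h3⟩ := h'.chart
  obtain ⟨g1, g2, -⟩ := h.chart
  have key : ∀ v ∈ U ∩ b ⁻¹' {0}ᶜ, u v ∈ U' ∩ b' ⁻¹' {0}ᶜ ∧ a' (u v) / b' (u v) = a v / b v :=
    fun v hv => by
      have h4 : b' (u v) ≠ 0 := fun h0 => hv.2 (pr_eq_infty.1 ((he v hv.1).symm.trans
        (pr_eq_infty.2 h0)))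
      have := he v hv.1
      rw [pr_of_ne _ h4, pr_of_ne _ hv.2, coe_eq_coe] at this
      exact ⟨⟨hm hv.1, h4⟩, this⟩
  have h5 := (inv_analyticAt h1 h2 h3 (fun w hw => h3.leftInvOn_invFunOn hw)
    (key w ⟨hw, hb⟩).1).differentiableAt
  simp only [(key w ⟨hw, hb⟩).2] at h5
  refine (h5.comp w (g2.differentiableAt (g1.mem_nhds ⟨hw, hb⟩))).congr_of_eventuallyEq ?_
  filter_upwards [g1.mem_nhds ⟨hw, hb⟩] with v hv
  simp only [Function.comp, ← (key v hv).2]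
  exact (h3.leftInvOn_invFunOn (key v hv).1).symm

lemma SEmb.trans_diff {a b a' b' u : ℂ → ℂ} {U U' : Set ℂ} (h : SEmb a b U) (h' : SEmb a' b' U')
    (hm : MapsTo u U U') (he : ∀ w ∈ U, pr (a' (u w)) (b' (u w)) = pr (a w) (b w)) :
    DifferentiableOn ℂ u U := fun w hw => by
  apply DifferentiableAt.differentiableWithinAt
  rcases h.ne w hw with h1 | h1
  · exact h.swap.trans_aux h'.swap hm (fun v hv => by
      rw [← inv_pr (h.ne v hv), ← he v hv, inv_pr (h'.ne _ (hm hv))]) hw h1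
  · exact h.trans_aux h' hm he hw h1

/-- Parametrisation of a ring. -/
structure RD (α : ℝ) (f : Sph → Sph) (A : Set Sph) (r : ℝ) (a b : ℂ → ℂ) : Prop where
  emb : SEmb a b (ann 1 r)
  hr : 1 < r
  im : (fun w => pr (a w) (b w)) '' ann 1 r = A
  conj : ∀ w ∈ ann 1 r, f (pr (a w) (b w)) = pr (a (ee α * w)) (b (ee α * w))

lemma IsHerman.exists_RD {α : ℝ} {f : Sph → Sph} {A : Set Sph} (h : IsHerman α f A) :
    ∃ r a b, RD α f A r a b := by
  obtain ⟨-, -, r, hr, a, b, h1, h2, h3, h4, h5⟩ := h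
  exact ⟨r, a, b, ⟨isOpen_ann _ _, h1, h2, h3, h4.injOn⟩, hr, h4.image_eq, h5⟩

lemma closed_lattice (α : ℝ) : IsClosed {z : ℂ | ∃ n : ℤ, z = α + n} := by
  have : {z : ℂ | ∃ n : ℤ, z = α + n} = (fun z : ℂ => z - α) ⁻¹' range ((↑) : ℤ → ℂ) := by
    ext z; simp only [mem_setOf_eq, mem_preimage, mem_range]
    exact exists_congr fun n => ⟨fun h => by rw [h]; ring, fun h => by rw [h]; ring⟩
  rw [this]
  exact Complex.isClosedEmbedding_intCast.isClosed_range.preimage (by fun_prop)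

lemma lip_lift {u : ℂ → ℂ} {r₁ r₂ y₀ δ : ℝ} (h1 : 0 < r₁) (h2 : 0 < r₂) (hδ : 0 < δ)
    (hδ1 : δ ≤ 1 / 2) (hy1 : ht r₂ ≤ y₀ - 2 * δ) (hy2 : y₀ + 2 * δ ≤ ht r₁)
    (hd : DifferentiableOn ℂ u (ann r₁ r₂)) (hi : InjOn u (ann r₁ r₂))
    (h0 : ∀ w ∈ ann r₁ r₂, u w ≠ 0) :
    ∃ l : ℂ → ℂ, (∀ x ∈ strip (y₀ - δ) (y₀ + δ), ee (l x) = u (ee x)) ∧
      ∀ x ∈ strip (y₀ - δ) (y₀ + δ), ∀ x' ∈ strip (y₀ - δ) (y₀ + δ),
        ‖l x - l x'‖ ≤ 96 / δ * ‖x - x'‖ := by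
  have hm : ∀ x ∈ strip (ht r₂) (ht r₁), ee x ∈ ann r₁ r₂ := fun x hx => (ee_mem_ann' h1 h2).2 hx
  have hdu : DifferentiableOn ℂ (fun x => u (ee x)) (strip (ht r₂) (ht r₁)) :=
    hd.comp differentiable_ee.differentiableOn hm
  obtain ⟨l, hl, he⟩ := exists_lift (convex_strip (ht r₂) (ht r₁)) (isOpen_strip _ _)
    ⟨_, line_mem (y := y₀) ⟨by linarith, by linarith⟩ 0⟩ hdu.continuousOn fun x hx => h0 _ (hm x hx)
  have dl : DifferentiableOn ℂ l (strip (ht r₂) (ht r₁)) := fun x hx => by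
    have hn := (isOpen_strip _ _).mem_nhds hx
    refine (HasDerivAt.of_comp_left (hl.continuousAt hn) (hasDerivAt_ee (l x))
      (hdu.differentiableAt hn).hasDerivAt (mul_ne_zero tpi_ne (ee_ne _))
      ?_).differentiableAt.differentiableWithinAt
    filter_upwards [hn] with y hy using he y hy
  have hs : strip (y₀ - δ) (y₀ + δ) ⊆ strip (ht r₂) (ht r₁) := strip_mono (by linarith) (by linarith)
  refine ⟨l, fun x hx => he x (hs hx), fun x hx x' hx' =>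
    (convex_strip _ _).norm_image_sub_le_of_norm_deriv_le
      (fun z hz => dl.differentiableAt ((isOpen_strip _ _).mem_nhds (hs hz))) (fun z hz => ?_) hx' hx⟩
  have hb : ball z δ ⊆ strip (ht r₂) (ht r₁) :=
    ball_sub_strip (strip_mono (by linarith) (by linarith) hz)
  refine bloch hδ (dl.mono hb) fun x hx y hy hxy => ?_
  have e1 : ee (l x) = ee (l y) := by rw [sub_eq_iff_eq_add'.1 hxy, ee_add_one]
  rw [he x (hb hx), he y (hb hy)] at e1
  obtain ⟨n, hn⟩ := ee_eq_iff.1 (hi (hm x (hb hx)) (hm y (hb hy)) e1)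
  have e2 : ‖x - y‖ < 1 := by
    have := dist_triangle_right x y z
    rw [mem_ball] at hx hy
    rw [← dist_eq_norm]; linarith
  rw [hn, add_sub_cancel_left, Complex.norm_intCast] at e2
  have e3 : n = 0 := by
    have : |n| < 1 := by exact_mod_cast e2
    exact Int.abs_lt_one_iff.1 this
  rw [hn, e3] at hxy
  simp at hxy

lemma ht_anti {r s : ℝ} (hr : 0 < r) (h : r < s) : ht s < ht r := by
  have := Real.pi_pos
  unfold ht
  gcongr

lemma ee_line {r : ℝ} (hr : 0 < r) (θ : ℝ) : ee (θ + ht r * I) = r * ee θ := by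
  rw [ee_add, mul_comm]; congr 1
  have := exp_ht hr
  unfold ee tpi
  rw [← this, ofReal_exp, this]; congr 1
  push_cast
  linear_combination 2 * Real.pi * ht r * I_mul_I

/-- The transition map to a nearby ring has degree one. -/
lemma wind_transition {T : Type} {l : Filter T} {f : T → C(Sph, Sph)} {f₀ : C(Sph, Sph)}
    (hf : Tendsto f l (𝓝 f₀)) {α : ℝ} (hα : Irrational α) {A₀ : Set Sph} {r r₀ r₁ r₂ : ℝ}
    {a b : ℂ → ℂ} (h₀ : RD α f₀ A₀ r a b) (h1 : 1 < r₁) (h2 : r₁ < r₀) (h3 : r₀ < r₂)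
    (h4 : r₂ < r) : ∀ᶠ t in l, ∀ A r' a' b' u, RD α (f t) A r' a' b' →
      MapsTo u (ann r₁ r₂) (ann 1 r') →
      (∀ w ∈ ann r₁ r₂, pr (a' (u w)) (b' (u w)) = pr (a w) (b w)) →
      HasWind (fun θ : ℝ => u (r₀ * ee θ)) 1 := by
  by_contra hn
  rw [not_eventually, frequently_iff_neBot] at hn
  obtain ⟨𝒰, hU⟩ := Ultrafilter.exists_le (l ⊓ 𝓟 _) (h := hn)
  have hUl : (𝒰 : Filter T) ≤ l := hU.trans inf_le_left
  have hUS := le_principal_iff.1 (hU.trans inf_le_right)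
  have p1 : 0 < r₁ := by linarith
  have p0 : 0 < r₀ := by linarith
  have p2 : 0 < r₂ := by linarith
  set y₀ := ht r₀ with hy₀
  set δ := min (1 / 2) (min ((y₀ - ht r₂) / 2) ((ht r₁ - y₀) / 2)) with hδ
  have hδ0 : 0 < δ := lt_min (by norm_num) (lt_min (by linarith [ht_anti p0 h3])
    (by linarith [ht_anti p1 h2]))
  have hδ1 : δ ≤ (y₀ - ht r₂) / 2 := (min_le_right _ _).trans (min_le_left _ _)
  have hδ2 : δ ≤ (ht r₁ - y₀) / 2 := (min_le_right _ _).trans (min_le_right _ _)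
  set S := strip (y₀ - δ) (y₀ + δ) with hS
  have hSm : ∀ x ∈ S, ee x ∈ ann r₁ r₂ := fun x hx =>
    (ee_mem_ann' p1 p2).2 (strip_mono (by linarith) (by linarith) hx)
  have hline : ∀ θ : ℝ, (θ : ℂ) + y₀ * I ∈ S := line_mem ⟨by linarith, by linarith⟩
  have hsub : ann r₁ r₂ ⊆ ann 1 r := ann_mono h1.le h4.le
  set G : ℂ → Sph := fun x => pr (a (ee x)) (b (ee x)) with hG
  have key : ∀ t, ∃ (L : ℂ → ℂ) (k : ℤ), (¬ ∀ A r' a' b' u, RD α (f t) A r' a' b' →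
      MapsTo u (ann r₁ r₂) (ann 1 r') →
      (∀ w ∈ ann r₁ r₂, pr (a' (u w)) (b' (u w)) = pr (a w) (b w)) →
      HasWind (fun θ : ℝ => u (r₀ * ee θ)) 1) →
      (∀ x ∈ S, ∀ x' ∈ S, ‖L x - L x'‖ ≤ 96 / δ * ‖x - x'‖) ∧ L (((0:ℝ):ℂ) + y₀ * I) = 0 ∧ k ≠ 1 ∧
      (∀ θ : ℝ, L (((θ + 1 : ℝ) : ℂ) + y₀ * I) = L (θ + y₀ * I) + k) ∧
      ∀ x ∈ S, ∀ x' ∈ S, f t (G x) = G x' → ∃ n : ℤ, L x' - L x = α + n := fun t => by
    by_cases hb : ∀ A r' a' b' u, RD α (f t) A r' a' b' → MapsTo u (ann r₁ r₂) (ann 1 r') →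
      (∀ w ∈ ann r₁ r₂, pr (a' (u w)) (b' (u w)) = pr (a w) (b w)) →
      HasWind (fun θ : ℝ => u (r₀ * ee θ)) 1
    · exact ⟨0, 0, fun h => absurd hb h⟩
    push Not at hb
    obtain ⟨A, r', a', b', u, h', hm, he, hw⟩ := hb
    have du := (h₀.emb.mono (isOpen_ann r₁ r₂) hsub).trans_diff h'.emb hm he
    have iu : InjOn u (ann r₁ r₂) := fun w hw w' hw' h => h₀.emb.inj (hsub hw) (hsub hw') (by
      simp only [← he w hw, ← he w' hw', h])
    obtain ⟨L, e1, e2⟩ := lip_lift (y₀ := y₀) p1 p2 hδ0 (min_le_left _ _) (by linarith)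
      (by linarith) du iu fun w hw => ann_ne_zero zero_le_one (hm hw)
    have hLc : Continuous fun θ : ℝ => L (θ + y₀ * I) := by
      refine (LipschitzWith.of_dist_le' (K := 96 / δ) fun x y => ?_).continuous
      rw [dist_eq_norm, Real.dist_eq]
      refine (e2 _ (hline x) _ (hline y)).trans_eq ?_
      rw [add_sub_add_right_eq_sub, ← ofReal_sub, Complex.norm_real, Real.norm_eq_abs]
    have e3 : ∀ θ : ℝ, ee (L (θ + y₀ * I)) = u (r₀ * ee θ) := fun θ => by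
      rw [e1 _ (hline θ), ee_line p0]
    obtain ⟨k, hk⟩ := lift_step hLc fun θ => by rw [e3, e3]; simp [ee_add_one]
    refine ⟨fun x => L x - L (((0:ℝ):ℂ) + y₀ * I), k, fun _ => ⟨fun x hx x' hx' => by
      simpa using e2 x hx x' hx', sub_self _, ?_, fun θ => by simp only [hk]; ring,
      fun x hx x' hx' hxx => ?_⟩⟩
    · rintro rfl; exact hw ⟨_, hLc, e3, hk⟩
    · have e4 : u (ee x') = ee α * u (ee x) := by
        refine h'.emb.inj (hm (hSm x' hx')) (rot_mem (norm_ee_real α) (hm (hSm x hx))) ?_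
        simp only
        rw [he _ (hSm x' hx'), ← h'.conj _ (hm (hSm x hx)), he _ (hSm x hx)]
        exact hxx.symm
      rw [← e1 x hx, ← e1 x' hx', ← ee_add, ee_eq_iff] at e4
      obtain ⟨n, hn⟩ := e4
      exact ⟨n, by simp only [hn]; ring⟩
  choose L k hL using key
  have hE := (show ∀ᶠ t in (𝒰 : Filter T), _ from hUS).mono hL
  have dist_line : ∀ x y : ℝ, ‖(x : ℂ) + y₀ * I - (y + y₀ * I)‖ = |x - y| := fun x y => by
    rw [add_sub_add_right_eq_sub, ← ofReal_sub, Complex.norm_real, Real.norm_eq_abs]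
  have lim : ∀ θ : ℝ, ∃ z, Tendsto (fun t => L t (θ + y₀ * I)) 𝒰 (𝓝 z) := fun θ => by
    obtain ⟨y, -, hy⟩ := (isCompact_closedBall (0:ℂ) (96 / δ * |θ - 0|)).ultrafilter_le_nhds'
      (𝒰.map fun t => L t (θ + y₀ * I)) (Ultrafilter.mem_map.2 (hE.mono fun t ht => by
        have := ht.1 _ (hline θ) _ (hline 0)
        rw [ht.2.1, dist_line] at this
        simpa using this))
    exact ⟨y, hy⟩
  choose lam hlam using lim
  have hk : ∃ k₀ ∈ Icc (-⌈96 / δ⌉) ⌈96 / δ⌉, ∀ᶠ t in (𝒰 : Filter T), k t = k₀ := by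
    rw [← Ultrafilter.eventually_exists_mem_iff (finite_Icc _ _)]
    filter_upwards [hE] with t ht
    refine ⟨_, ?_, rfl⟩
    have := ht.1 _ (hline (0 + 1)) _ (hline 0)
    rw [ht.2.2.2.1, dist_line, add_sub_cancel_left, Complex.norm_intCast] at this
    have h5 : |(k t : ℝ)| ≤ ⌈96 / δ⌉ := by
      refine le_trans ?_ (Int.le_ceil _); simpa using this
    exact abs_le.1 (by exact_mod_cast h5)
  obtain ⟨k₀, -, hk₀⟩ := hk
  have hk1 : k₀ ≠ 1 := by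
    obtain ⟨t, h5, h6⟩ := (hE.and hk₀).exists
    exact h6 ▸ h5.2.2.1
  have lc : Continuous lam := by
    refine (LipschitzWith.of_dist_le' (K := 96 / δ) fun x y => ?_).continuous
    rw [dist_eq_norm, Real.dist_eq]
    exact le_of_tendsto ((hlam x).sub (hlam y)).norm (hE.mono fun t ht =>
      (ht.1 _ (hline x) _ (hline y)).trans_eq (by rw [dist_line]))
  have lp : ∀ θ, lam (θ + 1) = lam θ + k₀ := fun θ =>
    tendsto_nhds_unique (hlam (θ + 1)) (((hlam θ).add_const _).congr' (by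
      filter_upwards [hE, hk₀] with t h5 h6
      rw [h5.2.2.2.1, h6]))
  have la : ∀ θ, ∃ n : ℤ, lam (θ + α) - lam θ = α + n := fun θ => by
    have hc := closed_lattice α
    rw [← closure_subset_iff_isClosed] at hc
    refine hc (Metric.mem_closure_iff.2 fun ε hε => ?_)
    set x := (θ : ℂ) + y₀ * I with hx
    have ex : (((θ + α : ℝ) : ℂ)) + y₀ * I = x + α := by push_cast; ring
    have hxa : x + α ∈ S := ex ▸ hline _
    have t1 : Tendsto (fun t => f t (G x)) 𝒰 (𝓝 (G (x + α))) := by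
      have := ((continuous_eval_const (G x)).tendsto f₀).comp (hf.mono_left hUl)
      rwa [show f₀ (G x) = G (x + α) by
        rw [hG]; simp only; rw [h₀.conj _ (hsub (hSm x (hline θ))), ee_add x, mul_comm]] at this
    have t2 : 𝓝 (G (x + α)) ≤ map G (𝓝 (x + α)) := by
      refine (h₀.emb.open_at (hsub (hSm _ hxa))).trans ?_
      rw [← (differentiable_ee.analyticAt (x + α)).hasStrictDerivAt.map_nhds_eq
        (by rw [(hasDerivAt_ee _).deriv]; exact mul_ne_zero tpi_ne (ee_ne _)), map_map]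
      rfl
    have t3 : ∀ᶠ x' in 𝓝 (x + α), x' ∈ S ∧ 96 / δ * ‖x + α - x'‖ < ε / 2 :=
      (show ∀ᶠ x' in 𝓝 (x + α), x' ∈ S from (isOpen_strip _ _).mem_nhds hxa).and
        ((show ContinuousAt (fun x' => 96 / δ * ‖x + α - x'‖) (x + α) by fun_prop).eventually
          (gt_mem_nhds (by simpa using hε)))
    have t4 := t1.eventually (t2 (image_mem_map t3))
    have t5 := Metric.tendsto_nhds.1 ((hlam (θ + α)).sub (hlam θ)) _ (half_pos hε)
    obtain ⟨t, ⟨h5, x', h6, h7⟩, h8⟩ := ((hE.and t4).and t5).exists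
    refine ⟨_, h5.2.2.2.2 x (hline θ) x' h6.1 h7.symm, ?_⟩
    have h9 := h5.1 _ hxa _ h6.1
    rw [ex] at h8
    have := dist_triangle_left (lam (θ + α) - lam θ) (L t x' - L t x) (L t (x + α) - L t x)
    rw [dist_eq_norm (L t (x + α) - L t x) (L t x' - L t x), sub_sub_sub_cancel_right] at this
    linarith [h6.2]
  obtain ⟨n, hn0⟩ := la 0
  have e5 : ∀ θ, lam (θ + α) - lam θ = α + n := fun θ => by
    have := int_const (S := univ) isPreconnected_univ (g := fun θ => lam (θ + α) - lam θ - α)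
      (by fun_prop) (fun x _ => by obtain ⟨m, hm⟩ := la x; exact ⟨m, by simp [hm]⟩)
      (mem_univ θ) (mem_univ 0)
    rw [hn0] at this
    linear_combination this
  have e6 := avg_shift lc lp α
  simp only [e5, intervalIntegral.integral_const, sub_zero, one_smul] at e6
  have e7 : ((k₀ - 1 : ℤ) : ℝ) * α = n := by
    have : (((k₀ - 1 : ℤ) : ℝ) * α : ℂ) = n := by push_cast; linear_combination -e6
    exact_mod_cast this
  exact (hα.intCast_mul (sub_ne_zero.2 hk1)).ne_int n e7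

/-- Hermitian product. -/
def herm (v w : ℂ × ℂ) : ℂ := v.1 * (starRingEnd ℂ) w.1 + v.2 * (starRingEnd ℂ) w.2

lemma herm_self_slit {w : ℂ × ℂ} (hw : w ≠ 0) : herm w w ∈ slitPlane := by
  left
  simp only [herm, mul_conj, add_re, ofReal_re]
  rcases ne_zero_iff'.1 hw with h | h
  · linarith [normSq_pos.2 h, normSq_nonneg w.2]
  · linarith [normSq_pos.2 h, normSq_nonneg w.1]

lemma herm_smul (c d : ℂ) (v w : ℂ × ℂ) :
    herm (c • v) (d • w) = c * (starRingEnd ℂ) d * herm v w := by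
  simp [herm]; ring

lemma det_smul (c d : ℂ) (v w : ℂ × ℂ) : det (c • v) (d • w) = c * d * det v w := by
  simp [det]; ring

lemma ev_lift {Y : Type} [TopologicalSpace Y] {x : Y → Sph} {y₀ : Y} (hx : ContinuousAt x y₀)
    {P : Y → ℂ × ℂ → Prop} (scale : ∀ y v (c : ℂ), c ≠ 0 → P y v → P y (c • v))
    (hP : ∀ v₀, v₀ ≠ 0 → pv v₀ = x y₀ → ∀ᶠ q : Y × (ℂ × ℂ) in 𝓝 (y₀, v₀), P q.1 q.2) :
    ∀ᶠ y in 𝓝 y₀, ∀ v, v ≠ 0 → pv v = x y → P y v := by
  obtain ⟨s, hs, he⟩ := exists_local_sec (x y₀)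
  have h1 := (continuousAt_id.prodMk (hs.comp hx)).tendsto.eventually
    (hP _ he.self_of_nhds.1 he.self_of_nhds.2)
  filter_upwards [h1, hx.tendsto.eventually he] with y h2 h3 v hv hv'
  obtain ⟨c, hc, rfl⟩ := exists_smul_of_pv hv h3.1 (hv'.trans h3.2.symm)
  exact scale _ _ c hc h2

lemma wind_lift_close {d : ℕ} {f₀ : C(Sph, Sph)} {F₀ : ℂ × ℂ → ℂ × ℂ} (h₀ : Hom d F₀)
    (e₀ : ⇑f₀ = act F₀) {γ : ℝ → ℂ × ℂ} (hc : Continuous γ) (hp : ∀ θ, γ (θ + 1) = γ θ)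
    {ζ : ℂ × ℂ} (hζ : ∀ θ, det (γ θ) ζ ≠ 0) (hd : ∀ θ, det (γ θ) (F₀ (γ θ)) ≠ 0) :
    ∀ᶠ g : C(Sph, Sph) in 𝓝 f₀, ∀ F, Hom d F → ⇑g = act F →
      wind (fun θ => det (γ θ) (F (γ θ))) = wind (fun θ => det (γ θ) (F₀ (γ θ))) := by
  have hγ : ∀ θ, γ θ ≠ 0 := fun θ h => hζ θ (by simp [h, det])
  set γ' : ℝ → ℂ × ℂ := fun θ => (det (γ θ) ζ)⁻¹ • γ θ with hγ'
  have cdet : Continuous fun θ => det (γ θ) ζ := by unfold det; fun_prop
  have cγ' : Continuous γ' := (cdet.inv₀ hζ).smul hc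
  set H : ℝ × ℝ → ℂ × ℂ := fun q => ((1 - q.1 : ℝ) : ℂ) • γ' q.2 + (q.1 : ℂ) • γ' 0 with hH
  have cH : Continuous H := by fun_prop
  have dγ' : ∀ θ, det (γ' θ) ζ = 1 := fun θ => by
    have := det_smul (det (γ θ) ζ)⁻¹ 1 (γ θ) ζ
    rw [one_smul] at this
    rw [hγ', this, mul_one, inv_mul_cancel₀ (hζ θ)]
  have H0 : ∀ q, H q ≠ 0 := fun q h => by
    have : det (H q) ζ = ((1 - q.1 : ℝ) : ℂ) * det (γ' q.2) ζ + q.1 * det (γ' 0) ζ := by
      simp [hH, det]; ring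
    rw [dγ', dγ', h] at this
    simp [det] at this
  have cpv : ∀ {Y : Type} [TopologicalSpace Y] {v : Y → ℂ × ℂ}, Continuous v → (∀ y, v y ≠ 0) →
      Continuous fun q : C(Sph, Sph) × Y => q.1 (pv (v q.2)) := fun hv h0 =>
    continuous_fst.eval ((continuous_iff_continuousAt.2 fun y =>
      (continuousAt_pv (h0 y)).comp hv.continuousAt).comp continuous_snd)
  have cF := h₀.cont
  have A : ∀ᶠ g : C(Sph, Sph) in 𝓝 f₀, ∀ θ ∈ Icc (0:ℝ) 1, ∀ v, v ≠ 0 → pv v = g (pv (γ θ)) →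
      ‖det (γ θ) v * herm (F₀ (γ θ)) (F₀ (γ θ)) - herm v (F₀ (γ θ)) * det (γ θ) (F₀ (γ θ))‖ <
        ‖herm v (F₀ (γ θ)) * det (γ θ) (F₀ (γ θ))‖ := by
    apply isCompact_Icc.eventually_forall_of_forall_eventually
    intro θ _
    refine ev_lift (cpv hc hγ).continuousAt (P := fun y v =>
      ‖det (γ y.2) v * herm (F₀ (γ y.2)) (F₀ (γ y.2)) -
        herm v (F₀ (γ y.2)) * det (γ y.2) (F₀ (γ y.2))‖ <
        ‖herm v (F₀ (γ y.2)) * det (γ y.2) (F₀ (γ y.2))‖) (fun y v c hc h => ?_) fun v hv he => ?_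
    · have e1 := det_smul 1 c (γ y.2) v
      have e2 := herm_smul c 1 v (F₀ (γ y.2))
      simp only [one_smul, one_mul, map_one, mul_one] at e1 e2
      rw [e1, e2, mul_assoc, mul_assoc, ← mul_sub, norm_mul, norm_mul]
      exact mul_lt_mul_of_pos_left h (norm_pos_iff.2 hc)
    · refine (isOpen_lt (by unfold det herm; fun_prop) (by unfold det herm; fun_prop)).mem_nhds ?_
      rw [e₀, h₀.act_pv (hγ θ)] at he
      obtain ⟨c, hc, rfl⟩ := exists_smul_of_pv hv (h₀.ne _ (hγ θ)) he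
      have e1 := det_smul 1 c (γ θ) (F₀ (γ θ))
      have e2 := herm_smul c 1 (F₀ (γ θ)) (F₀ (γ θ))
      simp only [one_smul, one_mul, map_one, mul_one] at e1 e2
      simp only [mem_setOf_eq, e1, e2]
      rw [show ∀ x y : ℂ, c * x * y - c * y * x = 0 from fun x y => by ring, norm_zero, norm_pos_iff]
      exact mul_ne_zero (mul_ne_zero hc (slitPlane_ne_zero (herm_self_slit (h₀.ne _ (hγ θ)))))
        (hd θ)
  have B : ∀ᶠ g : C(Sph, Sph) in 𝓝 f₀, ∀ q ∈ Icc (0:ℝ) 1 ×ˢ Icc (0:ℝ) 1, ∀ v, v ≠ 0 →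
      pv v = g (pv (H q)) → herm v (F₀ (H q)) ≠ 0 := by
    apply (isCompact_Icc.prod isCompact_Icc).eventually_forall_of_forall_eventually
    intro q _
    refine ev_lift (cpv cH H0).continuousAt (P := fun y v => herm v (F₀ (H y.2)) ≠ 0)
      (fun y v c hc h => ?_) fun v hv he => ?_
    · have e2 := herm_smul c 1 v (F₀ (H y.2))
      simp only [one_smul, map_one, mul_one] at e2
      rw [e2]; exact mul_ne_zero hc h
    · refine (isOpen_ne_fun (by unfold herm; fun_prop) continuous_const).mem_nhds ?_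
      rw [e₀, h₀.act_pv (H0 q)] at he
      obtain ⟨c, hc, rfl⟩ := exists_smul_of_pv hv (h₀.ne _ (H0 q)) he
      have e2 := herm_smul c 1 (F₀ (H q)) (F₀ (H q))
      simp only [one_smul, map_one, mul_one] at e2
      simp only [mem_setOf_eq, e2]
      exact mul_ne_zero hc (slitPlane_ne_zero (herm_self_slit (h₀.ne _ (H0 q))))
  filter_upwards [A, B] with g hA hB F hF eF
  have cF' := hF.cont
  have hHp : ∀ s θ, H (s, θ + 1) = H (s, θ) := fun s θ => by simp [hH, hγ', hp]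
  have B' : ∀ s ∈ Icc (0:ℝ) 1, ∀ θ, herm (F (H (s, θ))) (F₀ (H (s, θ))) ≠ 0 := fun s hs =>
    forall_of_Icc (fun θ => by rw [hHp]) fun θ hθ =>
      hB (s, θ) ⟨hs, hθ⟩ _ (hF.ne _ (H0 _)) (by rw [eF, hF.act_pv (H0 _)])
  have w1 := wind_homotopy (H := fun s θ => herm (F (H (s, θ))) (F₀ (H (s, θ)))) (S := Icc 0 1)
    isPreconnected_Icc (by unfold herm; fun_prop) B' (fun s _ θ => by rw [hHp]) (s := 0) (t := 1)
    ⟨le_rfl, zero_le_one⟩ ⟨zero_le_one, le_rfl⟩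
  have e0 : ∀ θ, H (0, θ) = γ' θ := fun θ => by simp [hH]
  have e1 : ∀ θ, H (1, θ) = γ' 0 := fun θ => by simp [hH]
  have B0 := B' 0 ⟨le_rfl, zero_le_one⟩
  simp only [e0, e1] at w1 B0
  rw [(hasWind_const (B0 0)).wind_eq] at w1
  have w2 : HasWind (fun θ => herm (F (γ' θ)) (F₀ (γ' θ))) 0 := w1 ▸ Loop.hasWind
    ⟨by unfold herm; fun_prop, B0, fun θ => by simp [hγ', hp]⟩
  have w3 : HasWind (fun θ => det (γ θ) ζ ^ d * (starRingEnd ℂ) (det (γ θ) ζ ^ d)) 0 :=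
    hasWind_slit (by fun_prop) (fun θ => by
      rw [mul_conj]; exact ofReal_mem_slitPlane.2 (normSq_pos.2 (pow_ne_zero _ (hζ θ))))
      fun θ => by rw [hp]
  have w4 := (w3.mul w2).congr (Δ := fun θ => herm (F (γ θ)) (F₀ (γ θ))) fun θ => by
    rw [← herm_smul, ← hF.hom, ← h₀.hom, hγ']
    simp only [smul_inv_smul₀ (hζ θ)]
  have L0 : Loop fun θ => det (γ θ) (F₀ (γ θ)) :=
    ⟨by unfold det; fun_prop, hd, fun θ => by rw [hp]⟩
  have w5 := (w4.mul L0.hasWind).close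
    (Δ := fun θ => det (γ θ) (F (γ θ)) * herm (F₀ (γ θ)) (F₀ (γ θ)))
    (by unfold det herm; fun_prop) (fun θ => by rw [hp])
    (forall_of_Icc (fun θ => by rw [hp]) fun θ hθ =>
      hA θ hθ _ (hF.ne _ (hγ θ)) (by rw [eF, hF.act_pv (hγ θ)]))
  have w6 : HasWind (fun θ => herm (F₀ (γ θ)) (F₀ (γ θ))) 0 :=
    hasWind_slit (by unfold herm; fun_prop) (fun θ => herm_self_slit (h₀.ne _ (hγ θ)))
      fun θ => by rw [hp]
  have w7 := (w5.mul w6.inv).congr (Δ := fun θ => det (γ θ) (F (γ θ))) fun θ => by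
    rw [mul_inv_cancel_right₀ (w6.loop.ne θ)]
  simpa using w7.wind_eq

/-- The invariant. -/
def tp (F : ℂ × ℂ → ℂ × ℂ) (a b : ℂ → ℂ) (r₀ : ℝ) : ℤ :=
  wind fun θ : ℝ => det (a (r₀ * ee θ), b (r₀ * ee θ)) (F (a (r₀ * ee θ), b (r₀ * ee θ)))

lemma RD.det_ne {α : ℝ} (hα : Irrational α) {f : Sph → Sph} {A : Set Sph} {r : ℝ} {a b : ℂ → ℂ}
    (h : RD α f A r a b) {d : ℕ} {F : ℂ × ℂ → ℂ × ℂ} (hF : Hom d F) (e : f = act F) {w : ℂ}
    (hw : w ∈ ann 1 r) : det (a w, b w) (F (a w, b w)) ≠ 0 := by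
  have hv : (a w, b w) ≠ 0 := ne_zero_iff'.2 (h.emb.ne w hw)
  rw [Ne, ← pv_eq_iff hv (hF.ne _ hv), ← hF.act_pv hv, ← e]
  intro h1
  have h2 := h.emb.inj hw (rot_mem (norm_ee_real α) hw) (h1.trans (h.conj w hw))
  rw [eq_comm, mul_left_eq_self₀, or_iff_left (ann_ne_zero zero_le_one hw)] at h2
  exact ee_irr_ne hα one_ne_zero (by simpa using h2)

lemma wind_comp_ann {Φ : ℂ → ℂ} {a b r : ℝ} (ha : 0 < a) (hr : r ∈ Ioo a b)
    (hc : ContinuousOn Φ (ann a b)) (hne : ∀ w ∈ ann a b, Φ w ≠ 0) {Γ : ℝ → ℂ} (hΓ : HasWind Γ 1)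
    (hm : ∀ θ, Γ θ ∈ ann a b) :
    wind (fun θ => Φ (Γ θ)) = wind (fun θ : ℝ => Φ (r * ee θ)) := by
  obtain ⟨l, hl, he, hp⟩ := hΓ
  have hr0 := ha.trans hr.1
  have hb := hr0.trans hr.2
  have m1 : ∀ θ, l θ ∈ strip (ht b) (ht a) := fun θ => (ee_mem_ann' ha hb).1 (he θ ▸ hm θ)
  have m2 : ∀ θ : ℝ, (θ : ℂ) + ht r * I ∈ strip (ht b) (ht a) :=
    line_mem ⟨ht_anti hr0 hr.2, ht_anti ha hr.1⟩
  have m3 : ∀ s ∈ Icc (0:ℝ) 1, ∀ θ : ℝ,
      ee ((1 - s) • l θ + s • ((θ : ℂ) + ht r * I)) ∈ ann a b := fun s hs θ =>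
    (ee_mem_ann' ha hb).2 (convex_strip _ _ (m1 θ) (m2 θ) (by linarith [hs.2]) hs.1 (by ring))
  have := wind_homotopy (H := fun (s : ℝ) (θ : ℝ) =>
    Φ (ee ((1 - s) • l θ + s • ((θ : ℂ) + ht r * I)))) (S := Icc 0 1) isPreconnected_Icc
    (hc.comp (f := fun q : ℝ × ℝ => ee ((1 - q.1) • l q.2 + q.1 • ((q.2 : ℂ) + ht r * I)))
      (by fun_prop) fun q hq => m3 _ hq.1 _) (fun s hs θ => hne _ (m3 s hs θ))
    (fun s _ θ => by
      rw [hp, ← ee_add_one ((1 - s) • l θ + _)]; congr 2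
      simp only [real_smul]; push_cast; ring) (s := 0) (t := 1)
    ⟨le_rfl, zero_le_one⟩ ⟨zero_le_one, le_rfl⟩
  simpa [he, ee_line hr0] using this

/-- All parametrisations give the invariant `k` modulo `d + 1`. -/
def Typ (d : ℕ) (α : ℝ) (f : Sph → Sph) (A : Set Sph) (k : ℤ) : Prop :=
  ∀ F r a b r₀, Hom d F → f = act F → RD α f A r a b → r₀ ∈ Ioo 1 r → tp F a b r₀ ≡ k [ZMOD d + 1]

lemma typ_eventually {T : Type} {l : Filter T} {f : T → C(Sph, Sph)} {f₀ : C(Sph, Sph)}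
    (hf : Tendsto f l (𝓝 f₀)) {α : ℝ} (hα : Irrational α) {A : T → Set Sph} {A₀ : Set Sph}
    (hA : ∀ K, IsCompact K → K ⊆ A₀ → ∀ᶠ t in l, K ⊆ A t) {r r₀ : ℝ} {a b : ℂ → ℂ}
    (h₀ : RD α f₀ A₀ r a b) (hr₀ : r₀ ∈ Ioo 1 r) {d : ℕ} {F₀ : ℂ × ℂ → ℂ × ℂ} (hF₀ : Hom d F₀)
    (e₀ : ⇑f₀ = act F₀) : ∀ᶠ t in l, Typ d α (f t) (A t) (tp F₀ a b r₀) := by
  obtain ⟨r₁, h1, h2⟩ := exists_between hr₀.1
  obtain ⟨r₂, h3, h4⟩ := exists_between hr₀.2
  have hs : {w : ℂ | r₁ ≤ ‖w‖ ∧ ‖w‖ ≤ r₂} ⊆ ann 1 r := fun w hw =>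
    ⟨h1.trans_le hw.1, hw.2.trans_lt h4⟩
  have hK := hA _ ((isCompact_cann r₁ r₂).image_of_continuousOn (h₀.emb.cont.mono hs))
    (h₀.im ▸ image_mono hs)
  have cm := circ_mem zero_le_one hr₀
  have cm' := circ_mem (a := r₁) (by linarith) (show r₀ ∈ Ioo r₁ r₂ from ⟨h2, h3⟩)
  set γ : ℝ → ℂ × ℂ := fun θ => (a (r₀ * ee θ), b (r₀ * ee θ)) with hγ
  have cγ : Continuous γ :=
    (h₀.emb.da.continuousOn.comp_continuous (by fun_prop) cm).prodMk
      (h₀.emb.db.continuousOn.comp_continuous (by fun_prop) cm)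
  have pγ : ∀ θ, γ (θ + 1) = γ θ := fun θ => by simp [hγ, ee_add_one]
  have γ0 : ∀ θ, γ θ ≠ 0 := fun θ => ne_zero_iff'.2 (h₀.emb.ne _ (cm θ))
  have m1 := circ_mem zero_le_one (show r₁ ∈ Ioo 1 r from ⟨h1, by linarith⟩) 0
  have hW := hf.eventually (wind_lift_close hF₀ e₀ cγ pγ (ζ := (a (r₁ * ee (0:ℝ)), b (r₁ * ee (0:ℝ))))
    (fun θ h => by
      rw [← pv_eq_iff (γ0 θ) (ne_zero_iff'.2 (h₀.emb.ne _ m1))] at h
      have := congrArg norm (h₀.emb.inj (cm θ) m1 h)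
      rw [norm_circ (by linarith), norm_circ (by linarith)] at this
      linarith) fun θ => h₀.det_ne hα hF₀ e₀ (cm θ))
  filter_upwards [hK, hW, wind_transition hf hα h₀ h1 h2 h3 h4] with t k1 k2 k3 F r' a' b' r₀' hF eF
    h' hr'
  have ex : ∀ w, ∃ v, w ∈ ann r₁ r₂ → v ∈ ann 1 r' ∧ pr (a' v) (b' v) = pr (a w) (b w) := fun w => by
    by_cases hw : w ∈ ann r₁ r₂
    · obtain ⟨v, hv⟩ := (h'.im ▸ k1) ⟨w, ⟨hw.1.le, hw.2.le⟩, rfl⟩
      exact ⟨v, fun _ => hv⟩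
    · exact ⟨0, fun h => absurd h hw⟩
  choose u hu using ex
  have w1 := k3 _ _ _ _ u h' (fun w hw => (hu w hw).1) fun w hw => (hu w hw).2
  have cV : ContinuousOn (fun w => (a' w, b' w)) (ann 1 r') :=
    h'.emb.da.continuousOn.prodMk h'.emb.db.continuousOn
  have cdet : Continuous fun v => det v (F v) := by have := hF.cont; unfold det; fun_prop
  have w2 := wind_comp_ann (Φ := fun w => det (a' w, b' w) (F (a' w, b' w))) one_pos hr'
    (cdet.comp_continuousOn cV) (fun w hw => h'.det_ne hα hF eF hw) w1 fun θ => (hu _ (cm' θ)).1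
  set γ' : ℝ → ℂ × ℂ := fun θ => (a' (u (r₀ * ee θ)), b' (u (r₀ * ee θ))) with hγ'
  have cγ' : Continuous γ' := cV.comp_continuous w1.loop.cont fun θ => (hu _ (cm' θ)).1
  have hs' : ∀ θ, herm (γ' θ) (γ θ) / herm (γ θ) (γ θ) ≠ 0 ∧
      γ' θ = (herm (γ' θ) (γ θ) / herm (γ θ) (γ θ)) • γ θ := fun θ => by
    obtain ⟨c, hc, he⟩ := exists_smul_of_pv (v := γ' θ)
      (ne_zero_iff'.2 (h'.emb.ne _ (hu _ (cm' θ)).1)) (γ0 θ) (hu _ (cm' θ)).2
    have e2 := herm_smul c 1 (γ θ) (γ θ)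
    simp only [one_smul, map_one, mul_one] at e2
    rw [← he] at e2
    rw [e2, mul_div_cancel_right₀ _ (slitPlane_ne_zero (herm_self_slit (γ0 θ)))]
    exact ⟨hc, he⟩
  have Ls : Loop fun θ => herm (γ' θ) (γ θ) / herm (γ θ) (γ θ) :=
    ⟨Continuous.div (by unfold herm; fun_prop) (by unfold herm; fun_prop)
      fun θ => slitPlane_ne_zero (herm_self_slit (γ0 θ)), fun θ => (hs' θ).1,
      fun θ => by simp [hγ, hγ', ee_add_one]⟩
  have e3 : ∀ θ, (herm (γ' θ) (γ θ) / herm (γ θ) (γ θ)) ^ (d + 1) * det (γ θ) (F (γ θ)) =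
      det (γ' θ) (F (γ' θ)) := fun θ => by
    conv_rhs => rw [(hs' θ).2]
    rw [hF.hom, det_smul, pow_succ']
  have Ld : Loop fun θ => det (γ θ) (F (γ θ)) :=
    ⟨cdet.comp cγ, fun θ h => h'.det_ne hα hF eF (hu _ (cm' θ)).1 (by
      have := e3 θ; rw [h, mul_zero] at this; exact this.symm), fun θ => by rw [pγ]⟩
  have w3 := (((Ls.hasWind.pow (d + 1)).mul Ld.hasWind).congr e3).wind_eq
  rw [k2 F hF eF] at w3
  have : tp F a' b' r₀' = _ := w2.symm.trans w3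
  rw [this]
  exact Int.modEq_iff_dvd.2 ⟨-wind fun θ => herm (γ' θ) (γ θ) / herm (γ θ) (γ θ), by
    rw [tp]; push_cast; ring⟩

lemma exists_data {d : ℕ} {α : ℝ} {f : RatMap d} {A : Set Sph} (h : IsHerman α f.1 A) :
    ∃ F r a b r₀, Hom d F ∧ ⇑f.1 = act F ∧ RD α f.1 A r a b ∧ r₀ ∈ Ioo 1 r := by
  obtain ⟨P, Q, -, -, hF, e⟩ := isRat_iff.1 f.2
  obtain ⟨r, a, b, h'⟩ := h.exists_RD
  obtain ⟨r₀, h1⟩ := exists_between h'.hr
  exact ⟨_, r, a, b, r₀, hF, e, h', h1⟩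

theorem typ_path {d : ℕ} {α : ℝ} (hα : Irrational α) {f : unitInterval → RatMap d}
    {A : unitInterval → Set Sph} (hf : Continuous f)
    (h : ∀ t, IsHerman α (f t).1 (A t) ∧ Cara (𝓝 t) A (A t)) {k : ℤ}
    (h0 : Typ d α (f 0).1 (A 0) k) : Typ d α (f 1).1 (A 1) k := by
  have key : ∀ t, ∃ m, ∀ᶠ s in 𝓝 t, Typ d α (f s).1 (A s) m := fun t => by
    obtain ⟨F, r, a, b, r₀, hF, e, h', hr⟩ := exists_data (h t).1
    exact ⟨_, typ_eventually (f := fun s => (f s).1)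
      (continuous_subtype_val.comp hf).continuousAt hα (h t).2.1 h' hr hF e⟩
  have uniq : ∀ t m m', Typ d α (f t).1 (A t) m → Typ d α (f t).1 (A t) m' → ∀ s,
      Typ d α (f s).1 (A s) m → Typ d α (f s).1 (A s) m' := fun t m m' h1 h2 s h3 => by
    obtain ⟨F, r, a, b, r₀, hF, e, h', hr⟩ := exists_data (h t).1
    intro F' r' a' b' r₀' k1 k2 k3 k4
    exact (h3 _ _ _ _ _ k1 k2 k3 k4).trans
      ((h1 _ _ _ _ _ hF e h' hr).symm.trans (h2 _ _ _ _ _ hF e h' hr))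
  have : IsClopen {t | Typ d α (f t).1 (A t) k} := by
    constructor
    · rw [← closure_subset_iff_isClosed]
      intro t ht
      obtain ⟨m, hm⟩ := key t
      obtain ⟨s, h1, h2⟩ := mem_closure_iff_nhds.1 ht _ hm
      exact uniq s m k h1 h2 t hm.self_of_nhds
    · rw [isOpen_iff_mem_nhds]
      intro t ht
      obtain ⟨m, hm⟩ := key t
      filter_upwards [hm] with s hs using uniq t m k hm.self_of_nhds ht s hs
  rcases isClopen_iff.1 this with h1 | h1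
  · exact absurd h0 (by rw [← mem_setOf_eq (p := fun t => Typ d α (f t).1 (A t) k), h1]; simp)
  · exact (h1 ▸ mem_univ 1 : (1 : unitInterval) ∈ {t | Typ d α (f t).1 (A t) k})

lemma typ_self {d : ℕ} {α : ℝ} (hα : Irrational α) {f : C(Sph, Sph)} {A : Set Sph} {r r₀ : ℝ}
    {a b : ℂ → ℂ} (h₀ : RD α f A r a b) (hr₀ : r₀ ∈ Ioo 1 r) {F : ℂ × ℂ → ℂ × ℂ} (hF : Hom d F)
    (e : ⇑f = act F) : Typ d α f A (tp F a b r₀) :=
  (typ_eventually (l := pure ()) (f := fun _ => f) (A := fun _ => A) tendsto_const_nhds hα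
    (fun _ _ h => h) h₀ hr₀ hF e)

end

end Pool.Agent.Lib.MP_1e9af3_an
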