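import Pool.Agent.Lib.MP_1e9af3_an.Cx
import Pool.Agent.Lib.MP_1e9af3_an.Defs

/-! The two sides of the core curves of an embedded annulus. -/

namespace Pool.Agent.Lib.MP_1e9af3_an

open Set Filter Topology Complex Metric

noncomputable section

lemma isOpen_ann (a b : ℝ) : IsOpen (ann a b) :=
  (isOpen_lt continuous_const continuous_norm).inter (isOpen_lt continuous_norm continuous_const)

lemma norm_circ {r : ℝ} (hr : 0 ≤ r) (θ : ℝ) : ‖(r : ℂ) * ee θ‖ = r := by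
  rw [norm_mul, norm_ee_real, mul_one, Complex.norm_real, Real.norm_of_nonneg hr]

lemma polar (w : ℂ) : ∃ θ : ℝ, w = (‖w‖ : ℂ) * ee θ := by
  refine ⟨arg w / (2 * Real.pi), ?_⟩
  conv_lhs => rw [← norm_mul_exp_arg_mul_I w]
  congr 1
  unfold ee tpi; congr 1
  have := Real.pi_ne_zero
  push_cast; field_simp

lemma isPreconnected_ann {a : ℝ} (ha : 0 ≤ a) (b : ℝ) : IsPreconnected (ann a b) := by
  have : ann a b = (fun p : ℝ × ℝ => (p.1 : ℂ) * ee p.2) '' (Ioo a b ×ˢ univ) := by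
    ext w
    constructor
    · intro hw
      obtain ⟨θ, hθ⟩ := polar w
      exact ⟨(‖w‖, θ), ⟨hw, trivial⟩, hθ.symm⟩
    · rintro ⟨⟨r, θ⟩, ⟨hr, -⟩, rfl⟩
      simp only [ann, mem_setOf_eq]
      rw [norm_circ (ha.trans hr.1.le)]; exact hr
  rw [this]
  exact (isPreconnected_Ioo.prod isPreconnected_univ).image _ (by fun_prop)

lemma ann_mono {a b a' b' : ℝ} (h1 : a ≤ a') (h2 : b' ≤ b) : ann a' b' ⊆ ann a b :=
  fun _ hw => ⟨h1.trans_lt hw.1, hw.2.trans_le h2⟩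

lemma circ_mem {a b r : ℝ} (ha : 0 ≤ a) (hr : r ∈ Ioo a b) (θ : ℝ) : (r : ℂ) * ee θ ∈ ann a b := by
  simp only [ann, mem_setOf_eq]
  rw [norm_circ (ha.trans hr.1.le)]; exact hr

lemma ann_ne_zero {a b : ℝ} (ha : 0 ≤ a) {w : ℂ} (hw : w ∈ ann a b) : w ≠ 0 :=
  norm_pos_iff.1 (ha.trans_lt hw.1)

lemma sphere_sub_ann {a b r : ℝ} (hr : r ∈ Ioo a b) : sphere (0:ℂ) r ⊆ ann a b := fun w hw => by
  rw [mem_sphere_zero_iff_norm] at hw
  simp only [ann, mem_setOf_eq, hw]; exact hr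

/-- An injective holomorphic map on an annulus. -/
structure Emb (χ : ℂ → ℂ) (a b : ℝ) : Prop where
  ha : 0 ≤ a
  diff : DifferentiableOn ℂ χ (ann a b)
  inj : InjOn χ (ann a b)

lemma Emb.mono {χ : ℂ → ℂ} {a b a' b' : ℝ} (h : Emb χ a b) (h1 : a ≤ a') (h2 : b' ≤ b) :
    Emb χ a' b' := ⟨h.ha.trans h1, h.diff.mono (ann_mono h1 h2), h.inj.mono (ann_mono h1 h2)⟩

/-- The core curve of radius `r`. -/
def crv (χ : ℂ → ℂ) (r : ℝ) (θ : ℝ) : ℂ := χ (r * ee θ)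

lemma crv_per (χ : ℂ → ℂ) (r θ : ℝ) : crv χ r (θ + 1) = crv χ r θ := by
  simp [crv, ee_add_one]

lemma Emb.crv_cont {χ : ℂ → ℂ} {a b r : ℝ} (h : Emb χ a b) (hr : r ∈ Ioo a b) :
    Continuous (crv χ r) :=
  h.diff.continuousOn.comp_continuous (by fun_prop) (circ_mem h.ha hr)

lemma crv_mem {χ : ℂ → ℂ} {r : ℝ} (hr : 0 ≤ r) (θ : ℝ) : crv χ r θ ∈ χ '' sphere 0 r :=
  ⟨_, by rw [mem_sphere_zero_iff_norm, norm_circ hr], rfl⟩

lemma exists_crv {χ : ℂ → ℂ} {r : ℝ} {z : ℂ} (hz : z ∈ χ '' sphere 0 r) : ∃ θ, z = crv χ r θ := by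
  obtain ⟨w, hw, rfl⟩ := hz
  rw [mem_sphere_zero_iff_norm] at hw
  obtain ⟨θ, hθ⟩ := polar w
  exact ⟨θ, by rw [crv, ← hw, ← hθ]⟩

/-- The index of a point with respect to a core curve. -/
def ind (χ : ℂ → ℂ) (r : ℝ) (z : ℂ) : ℤ := wind fun θ => crv χ r θ - z

lemma Emb.loop_sub {χ : ℂ → ℂ} {a b r : ℝ} (h : Emb χ a b) (hr : r ∈ Ioo a b) {z : ℂ}
    (hz : z ∉ χ '' sphere 0 r) : Loop fun θ => crv χ r θ - z :=
  ⟨(h.crv_cont hr).sub continuous_const,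
    fun θ h0 => hz (sub_eq_zero.1 h0 ▸ crv_mem (h.ha.trans hr.1.le) θ), fun θ => by rw [crv_per]⟩

lemma Emb.ind_eq {χ : ℂ → ℂ} {a b r : ℝ} (h : Emb χ a b) (hr : r ∈ Ioo a b) {S : Set ℂ}
    (hS : IsPreconnected S) (hd : ∀ z ∈ S, z ∉ χ '' sphere 0 r) {z z' : ℂ} (hz : z ∈ S)
    (hz' : z' ∈ S) : ind χ r z = ind χ r z' :=
  wind_homotopy (H := fun z θ => crv χ r θ - z) hS
    (((h.crv_cont hr).comp continuous_snd).sub continuous_fst).continuousOn
    (fun t ht => (h.loop_sub hr (hd t ht)).ne) (fun _ _ θ => by rw [crv_per]) hz hz'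

lemma Emb.isCompact_crv {χ : ℂ → ℂ} {a b r : ℝ} (h : Emb χ a b) (hr : r ∈ Ioo a b) :
    IsCompact (χ '' sphere 0 r) :=
  (isCompact_sphere 0 r).image_of_continuousOn (h.diff.continuousOn.mono (sphere_sub_ann hr))

lemma Emb.isPreconnected_crv {χ : ℂ → ℂ} {a b r : ℝ} (h : Emb χ a b) (hr : r ∈ Ioo a b) :
    IsPreconnected (χ '' sphere 0 r) := by
  have : χ '' sphere 0 r = range (crv χ r) := by
    ext z
    exact ⟨fun hz => by obtain ⟨θ, hθ⟩ := exists_crv hz; exact ⟨θ, hθ.symm⟩,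
      by rintro ⟨θ, rfl⟩; exact crv_mem (h.ha.trans hr.1.le) θ⟩
  rw [this]; exact isPreconnected_range (h.crv_cont hr)

lemma Emb.ind_large {χ : ℂ → ℂ} {a b r : ℝ} (h : Emb χ a b) (hr : r ∈ Ioo a b) {z : ℂ}
    (hz : ∀ θ, ‖crv χ r θ‖ < ‖z‖) : ind χ r z = 0 := by
  have h0 : -z ≠ 0 := by
    rw [neg_ne_zero, ← norm_pos_iff]; exact (norm_nonneg _).trans_lt (hz 0)
  refine ((hasWind_const h0).close (Δ := fun θ => crv χ r θ - z)
    ((h.crv_cont hr).sub continuous_const)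
    (fun θ => by rw [crv_per]) fun θ => ?_).wind_eq
  simpa using hz θ

open Classical in
/-- Divided difference. -/
def dd (χ : ℂ → ℂ) (w w' : ℂ) : ℂ := if w = w' then deriv χ w else (χ w - χ w') / (w - w')

lemma dd_mul (χ : ℂ → ℂ) (w w' : ℂ) : dd χ w w' * (w - w') = χ w - χ w' := by
  unfold dd; split_ifs with h
  · simp [h]
  · field_simp [sub_ne_zero.2 h]

lemma dd_comm (χ : ℂ → ℂ) (w w' : ℂ) : dd χ w w' = dd χ w' w := by
  unfold dd
  by_cases h : w = w'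
  · simp [h]
  · rw [if_neg h, if_neg (Ne.symm h), ← neg_div_neg_eq]; simp

lemma dd_ne {χ : ℂ → ℂ} {U : Set ℂ} (hU : IsOpen U) (hd : DifferentiableOn ℂ χ U) (hi : InjOn χ U)
    {w w' : ℂ} (hw : w ∈ U) (hw' : w' ∈ U) : dd χ w w' ≠ 0 := by
  unfold dd; split_ifs with h
  · exact deriv_ne_zero_of_injOn hU hd hi hw
  · exact div_ne_zero (sub_ne_zero.2 fun h' => h (hi hw hw' h')) (sub_ne_zero.2 h)

lemma dd_cont {χ : ℂ → ℂ} {U : Set ℂ} (hU : IsOpen U) (hd : DifferentiableOn ℂ χ U) :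
    ContinuousOn (fun p : ℂ × ℂ => dd χ p.1 p.2) (U ×ˢ U) := by
  rintro ⟨w, w'⟩ ⟨hw, hw'⟩
  apply ContinuousAt.continuousWithinAt
  simp only at hw hw'
  by_cases h : w = w'
  · subst h
    have ha := hd.analyticAt (hU.mem_nhds hw)
    have h1 := ha.hasStrictDerivAt
    have h2 : ContinuousAt (deriv χ) w := ha.deriv.continuousAt
    rw [ContinuousAt, Metric.tendsto_nhds]
    intro ε hε
    have h3 := (hasStrictDerivAt_iff_hasStrictFDerivAt.1 h1).isLittleO.def (half_pos hε)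
    have h4 : ∀ᶠ p : ℂ × ℂ in 𝓝 (w, w), dist (deriv χ p.1) (deriv χ w) < ε :=
      (continuousAt_fst (p := (w, w))).tendsto.eventually (Metric.tendsto_nhds.1 h2 ε hε)
    filter_upwards [h3, h4] with p hp1 hp2
    have e : dd χ w w = deriv χ w := by simp [dd]
    simp only [e]
    by_cases hp : p.1 = p.2
    · simpa [dd, hp] using hp2
    · have hn : 0 < ‖p.1 - p.2‖ := norm_pos_iff.2 (sub_ne_zero.2 hp)
      rw [dist_eq_norm]
      have : dd χ p.1 p.2 - deriv χ w = (χ p.1 - χ p.2 - (p.1 - p.2) * deriv χ w) / (p.1 - p.2) := by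
        rw [dd, if_neg hp]; field_simp [sub_ne_zero.2 hp]
      rw [this, norm_div, div_lt_iff₀ hn]
      simp only [ContinuousLinearMap.toSpanSingleton_apply, smul_eq_mul] at hp1
      nlinarith
  · have h1 : ∀ᶠ p : ℂ × ℂ in 𝓝 (w, w'), p.1 ≠ p.2 :=
      (isOpen_ne_fun continuous_fst continuous_snd).mem_nhds h
    have c1 := (hd.differentiableAt (hU.mem_nhds hw)).continuousAt
    have c2 := (hd.differentiableAt (hU.mem_nhds hw')).continuousAt
    have h2 : ContinuousAt (fun p : ℂ × ℂ => (χ p.1 - χ p.2) / (p.1 - p.2)) (w, w') :=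
      ((c1.comp' (f := Prod.fst) continuousAt_fst).sub
        (c2.comp' (f := Prod.snd) continuousAt_snd)).div (by fun_prop) (sub_ne_zero.2 h)
    exact h2.congr (by filter_upwards [h1] with p hp; simp [dd, hp])

/-- The index of the outer collar. -/
def nout (χ : ℂ → ℂ) (a b : ℝ) : ℤ :=
  wind fun θ : ℝ => dd χ ((((a + b) / 2 : ℝ) : ℂ) * ee θ) (((a + b) / 2 : ℝ) : ℂ)

lemma Emb.wind_dd {χ : ℂ → ℂ} {a b r : ℝ} (h : Emb χ a b) (hr : r ∈ Ioo a b) {w : ℂ}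
    (hw : w ∈ ann a b) : wind (fun θ : ℝ => dd χ (r * ee θ) w) = nout χ a b := by
  have hm : (a + b) / 2 ∈ Ioo a b := ⟨by linarith [hr.1, hr.2], by linarith [hr.1, hr.2]⟩
  have hm' : (((a + b) / 2 : ℝ) : ℂ) ∈ ann a b := by
    simpa [ee_zero] using circ_mem h.ha hm 0
  exact wind_homotopy (T := ℝ × ℂ) (H := fun p θ => dd χ (p.1 * ee θ) p.2)
    (S := Ioo a b ×ˢ ann a b) (isPreconnected_Ioo.prod (isPreconnected_ann h.ha b))
    ((dd_cont (isOpen_ann a b) h.diff).comp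
      (f := fun q : (ℝ × ℂ) × ℝ => ((q.1.1 : ℂ) * ee q.2, q.1.2)) (by fun_prop)
      fun q hq => ⟨circ_mem h.ha hq.1.1 _, hq.1.2⟩)
    (fun p hp θ => dd_ne (isOpen_ann a b) h.diff h.inj (circ_mem h.ha hp.1 _) hp.2)
    (fun p _ θ => by simp [ee_add_one]) (s := (r, w)) (t := (_, _)) ⟨hr, hw⟩ ⟨hm, hm'⟩

lemma Emb.loop_dd {χ : ℂ → ℂ} {a b r : ℝ} (h : Emb χ a b) (hr : r ∈ Ioo a b) {w : ℂ}
    (hw : w ∈ ann a b) : Loop (fun θ : ℝ => dd χ (r * ee θ) w) :=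
  ⟨(dd_cont (isOpen_ann a b) h.diff).comp_continuous (f := fun θ : ℝ => ((r : ℂ) * ee θ, w))
    (by fun_prop) fun _ => ⟨circ_mem h.ha hr _, hw⟩,
    fun _ => dd_ne (isOpen_ann a b) h.diff h.inj (circ_mem h.ha hr _) hw,
    fun θ => by simp [ee_add_one]⟩

lemma hasWind_circ_in {r : ℝ} {w : ℂ} (hw : ‖w‖ < r) :
    HasWind (fun θ : ℝ => (r : ℂ) * ee θ - w) 1 := by
  have hr : 0 < r := (norm_nonneg _).trans_lt hw
  refine (hasWind_circle (c := r) (by exact_mod_cast hr.ne')).close (by fun_prop)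
    (fun θ => by simp [ee_add_one]) fun θ => ?_
  rw [norm_circ hr.le]; simpa using hw

lemma hasWind_circ_out {r : ℝ} (hr : 0 ≤ r) {w : ℂ} (hw : r < ‖w‖) :
    HasWind (fun θ : ℝ => (r : ℂ) * ee θ - w) 0 := by
  have h0 : -w ≠ 0 := by rw [neg_ne_zero, ← norm_pos_iff]; exact hr.trans_lt hw
  refine (hasWind_const h0).close (by fun_prop) (fun θ => by simp [ee_add_one]) fun θ => ?_
  have := norm_circ hr θ
  simp only [sub_neg_eq_add, sub_add_cancel, norm_neg]; rwa [this]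

lemma Emb.ind_out {χ : ℂ → ℂ} {a b r : ℝ} (h : Emb χ a b) (hr : r ∈ Ioo a b) {w : ℂ}
    (hw : w ∈ ann r b) : ind χ r (χ w) = nout χ a b := by
  have hw' : w ∈ ann a b := ann_mono hr.1.le le_rfl hw
  have := ((h.loop_dd hr hw').hasWind.mul (hasWind_circ_out (h.ha.trans hr.1.le) hw.1)).congr
    (Δ := fun θ => crv χ r θ - χ w) fun θ => dd_mul _ _ _
  rw [ind, this.wind_eq, h.wind_dd hr hw', add_zero]

lemma Emb.ind_in {χ : ℂ → ℂ} {a b r : ℝ} (h : Emb χ a b) (hr : r ∈ Ioo a b) {w : ℂ}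
    (hw : w ∈ ann a r) : ind χ r (χ w) = nout χ a b + 1 := by
  have hw' : w ∈ ann a b := ann_mono le_rfl hr.2.le hw
  have := ((h.loop_dd hr hw').hasWind.mul (hasWind_circ_in hw.2)).congr
    (Δ := fun θ => crv χ r θ - χ w) fun θ => dd_mul _ _ _
  rw [ind, this.wind_eq, h.wind_dd hr hw']

/-- Umlaufsatz for chords. -/
lemma Emb.wind_chord {χ : ℂ → ℂ} {a b r : ℝ} (h : Emb χ a b) (hr : r ∈ Ioo a b) {α : ℝ}
    (hα : ee α ≠ 1) :
    HasWind (fun θ => crv χ r (θ + α) - crv χ r θ) (2 * nout χ a b + 1) := by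
  have hr0 : 0 < r := h.ha.trans_lt hr.1
  have hc : Continuous fun p : ℝ × ℝ => dd χ (r * ee p.1) (r * ee p.2) :=
    (dd_cont (isOpen_ann a b) h.diff).comp_continuous
      (f := fun p : ℝ × ℝ => ((r : ℂ) * ee p.1, (r : ℂ) * ee p.2)) (by fun_prop)
      fun _ => ⟨circ_mem h.ha hr _, circ_mem h.ha hr _⟩
  have hne : ∀ s t : ℝ, dd χ (r * ee s) (r * ee t) ≠ 0 := fun s t =>
    dd_ne (isOpen_ann a b) h.diff h.inj (circ_mem h.ha hr _) (circ_mem h.ha hr _)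
  have h1 := wind_torus (g := fun s t : ℝ => dd χ (r * ee s) (r * ee t)) hc hne
    (fun s t => by simp [ee_add_one]) (fun s t => by simp [ee_add_one]) α
  have h2 : wind (fun θ : ℝ => dd χ (r * ee ((0:ℝ):ℂ)) (r * ee θ)) = nout χ a b := by
    rw [← h.wind_dd hr (circ_mem h.ha hr 0)]; simp only [dd_comm χ (r * ee ((0:ℝ):ℂ))]
  rw [h.wind_dd hr (circ_mem h.ha hr 0), h2] at h1
  have hL : Loop fun θ : ℝ => dd χ (r * ee ((θ + α : ℝ) : ℂ)) (r * ee θ) :=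
    ⟨hc.comp (f := fun θ : ℝ => (θ + α, θ)) (by fun_prop), fun θ => hne _ _, fun θ => by
      rw [add_right_comm]; simp [ee_add_one]⟩
  have h3 := hL.hasWind.mul (hasWind_circle (c := r * (ee α - 1))
    (mul_ne_zero (by exact_mod_cast hr0.ne') (sub_ne_zero.2 hα)))
  rw [h1, ← two_mul] at h3
  refine h3.congr fun θ => ?_
  rw [crv, crv, ← dd_mul χ]; congr 1
  push_cast; rw [ee_add]; ring

/-- The points off the curve with index `k`. -/
def side (χ : ℂ → ℂ) (r : ℝ) (k : ℤ) : Set ℂ := {z | z ∉ χ '' sphere 0 r ∧ ind χ r z = k}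

lemma Emb.isOpen_side {χ : ℂ → ℂ} {a b r : ℝ} (h : Emb χ a b) (hr : r ∈ Ioo a b) (k : ℤ) :
    IsOpen (side χ r k) := by
  rw [Metric.isOpen_iff]
  rintro z ⟨hz, rfl⟩
  obtain ⟨ε, hε, hb⟩ := Metric.isOpen_iff.1 (h.isCompact_crv hr).isClosed.isOpen_compl z hz
  exact ⟨ε, hε, fun y hy => ⟨hb hy, h.ind_eq hr (convex_ball z ε).isPreconnected
    (fun _ hx => hb hx) hy (mem_ball_self hε)⟩⟩

lemma Emb.not_mem_crv {χ : ℂ → ℂ} {a b r : ℝ} (h : Emb χ a b) (hr : r ∈ Ioo a b) {w : ℂ}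
    (hw : w ∈ ann a b) (hne : ‖w‖ ≠ r) : χ w ∉ χ '' sphere 0 r := by
  rintro ⟨w', hw', he⟩
  rw [← h.inj (sphere_sub_ann hr hw') hw he] at hne
  exact hne (mem_sphere_zero_iff_norm.1 hw')

lemma Emb.in_sub {χ : ℂ → ℂ} {a b r : ℝ} (h : Emb χ a b) (hr : r ∈ Ioo a b) :
    χ '' ann a r ⊆ side χ r (nout χ a b + 1) := by
  rintro _ ⟨w, hw, rfl⟩
  exact ⟨h.not_mem_crv hr (ann_mono le_rfl hr.2.le hw) hw.2.ne, h.ind_in hr hw⟩

lemma Emb.out_sub {χ : ℂ → ℂ} {a b r : ℝ} (h : Emb χ a b) (hr : r ∈ Ioo a b) :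
    χ '' ann r b ⊆ side χ r (nout χ a b) := by
  rintro _ ⟨w, hw, rfl⟩
  exact ⟨h.not_mem_crv hr (ann_mono hr.1.le le_rfl hw) hw.1.ne', h.ind_out hr hw⟩

lemma Emb.isOpen_image {χ : ℂ → ℂ} {a b : ℝ} (h : Emb χ a b) {V : Set ℂ} (hV : IsOpen V)
    (hs : V ⊆ ann a b) : IsOpen (χ '' V) :=
  isOpen_image_of_injOn (isOpen_ann a b) h.diff h.inj hV hs

lemma mem_of_closure_component {X : Type*} [TopologicalSpace X] {F : Set X} {z x : X}
    (hx : x ∈ closure (connectedComponentIn F z)) (hF : x ∈ F) (hz : z ∈ F) :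
    x ∈ connectedComponentIn F z := by
  have h1 : IsPreconnected (insert x (connectedComponentIn F z)) :=
    isPreconnected_connectedComponentIn.subset_closure (subset_insert _ _)
      (insert_subset hx subset_closure)
  exact h1.subset_connectedComponentIn (mem_insert_of_mem _ (mem_connectedComponentIn hz))
    (insert_subset hF (connectedComponentIn_subset _ _)) (mem_insert _ _)

lemma Emb.component_collar {χ : ℂ → ℂ} {a b r : ℝ} (h : Emb χ a b) (hr : r ∈ Ioo a b) {z : ℂ}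
    (hz : z ∉ χ '' sphere 0 r) :
    χ '' ann a r ⊆ connectedComponentIn (χ '' sphere 0 r)ᶜ z ∨
    χ '' ann r b ⊆ connectedComponentIn (χ '' sphere 0 r)ᶜ z := by
  set W := connectedComponentIn (χ '' sphere 0 r)ᶜ z with hW
  have hWo : IsOpen W := (h.isCompact_crv hr).isClosed.isOpen_compl.connectedComponentIn
  have hzW : z ∈ W := mem_connectedComponentIn hz
  have hWs : W ⊆ (χ '' sphere 0 r)ᶜ := connectedComponentIn_subset _ _
  have h1 : ¬ IsClosed W := fun hc => by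
    rcases isClopen_iff.1 ⟨hc, hWo⟩ with h2 | h2
    · rw [h2] at hzW; exact hzW
    · exact hWs (h2 ▸ mem_univ _) (crv_mem (h.ha.trans hr.1.le) 0)
  rw [← closure_subset_iff_isClosed, not_subset] at h1
  obtain ⟨x, hx1, hx2⟩ := h1
  have hx3 : x ∈ χ '' sphere 0 r := by
    by_contra hx; exact hx2 (mem_of_closure_component hx1 hx hz)
  obtain ⟨_, ⟨w, hw, rfl⟩, hwW⟩ := mem_closure_iff.1 hx1 _
    (h.isOpen_image (isOpen_ann a b) Subset.rfl) (image_mono (sphere_sub_ann hr) hx3)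
  have hne : ‖w‖ ≠ r := fun he => hWs hwW ⟨w, mem_sphere_zero_iff_norm.2 he, rfl⟩
  rcases lt_or_gt_of_ne hne with hl | hl
  · left
    rw [hW, connectedComponentIn_eq hwW]
    exact ((isPreconnected_ann h.ha r).image _
      (h.diff.continuousOn.mono (ann_mono le_rfl hr.2.le))).subset_connectedComponentIn
      ⟨w, ⟨hw.1, hl⟩, rfl⟩ fun y hy => (h.in_sub hr hy).1
  · right
    rw [hW, connectedComponentIn_eq hwW]
    exact ((isPreconnected_ann (h.ha.trans hr.1.le) b).image _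
      (h.diff.continuousOn.mono (ann_mono hr.1.le le_rfl))).subset_connectedComponentIn
      ⟨w, ⟨hl, hw.2⟩, rfl⟩ fun y hy => (h.out_sub hr hy).1

lemma mid_mem {a b : ℝ} (ha : 0 ≤ a) (hab : a < b) : (((a + b) / 2 : ℝ) : ℂ) ∈ ann a b := by
  simpa [ee_zero] using circ_mem ha (r := (a + b) / 2) (b := b) ⟨by linarith, by linarith⟩ 0

lemma Emb.component_ind {χ : ℂ → ℂ} {a b r : ℝ} (h : Emb χ a b) (hr : r ∈ Ioo a b) {z y : ℂ}
    (hz : z ∉ χ '' sphere 0 r) (hy : y ∈ connectedComponentIn (χ '' sphere 0 r)ᶜ z) :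
    ind χ r y = ind χ r z :=
  h.ind_eq hr isPreconnected_connectedComponentIn
    (fun _ hx => connectedComponentIn_subset _ _ hx) hy (mem_connectedComponentIn hz)

lemma Emb.ind_cases {χ : ℂ → ℂ} {a b r : ℝ} (h : Emb χ a b) (hr : r ∈ Ioo a b) {z : ℂ}
    (hz : z ∉ χ '' sphere 0 r) : ind χ r z = nout χ a b + 1 ∨ ind χ r z = nout χ a b := by
  rcases h.component_collar hr hz with h1 | h1
  · left
    have hm := mid_mem h.ha hr.1
    rw [← h.component_ind hr hz (h1 ⟨_, hm, rfl⟩), h.ind_in hr hm]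
  · right
    have hm := mid_mem (h.ha.trans hr.1.le) hr.2
    rw [← h.component_ind hr hz (h1 ⟨_, hm, rfl⟩), h.ind_out hr hm]

lemma Emb.isPreconnected_side {χ : ℂ → ℂ} {a b r : ℝ} (h : Emb χ a b) (hr : r ∈ Ioo a b)
    (k : ℤ) : IsPreconnected (side χ r k) := by
  rcases (side χ r k).eq_empty_or_nonempty with h0 | ⟨z, hz⟩
  · rw [h0]; exact isPreconnected_empty
  have hm := mid_mem h.ha hr.1
  have hm' := mid_mem (h.ha.trans hr.1.le) hr.2
  have : side χ r k = connectedComponentIn (χ '' sphere 0 r)ᶜ z := by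
    ext y
    refine ⟨fun hy => ?_, fun hy => ⟨connectedComponentIn_subset _ _ hy,
      (h.component_ind hr hz.1 hy).trans hz.2⟩⟩
    have hyy := mem_connectedComponentIn (F := (χ '' sphere 0 r)ᶜ) hy.1
    rcases h.component_collar hr hz.1 with h1 | h1 <;>
      rcases h.component_collar hr hy.1 with h2 | h2
    · rwa [connectedComponentIn_eq (h1 ⟨_, hm, rfl⟩), ← connectedComponentIn_eq (h2 ⟨_, hm, rfl⟩)]
    · have e1 := h.component_ind hr hz.1 (h1 ⟨_, hm, rfl⟩)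
      have e2 := h.component_ind hr hy.1 (h2 ⟨_, hm', rfl⟩)
      rw [h.ind_in hr hm, hz.2] at e1
      rw [h.ind_out hr hm', hy.2] at e2
      omega
    · have e1 := h.component_ind hr hz.1 (h1 ⟨_, hm', rfl⟩)
      have e2 := h.component_ind hr hy.1 (h2 ⟨_, hm, rfl⟩)
      rw [h.ind_out hr hm', hz.2] at e1
      rw [h.ind_in hr hm, hy.2] at e2
      omega
    · rwa [connectedComponentIn_eq (h1 ⟨_, hm', rfl⟩),
        ← connectedComponentIn_eq (h2 ⟨_, hm', rfl⟩)]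
  rw [this]; exact isPreconnected_connectedComponentIn

lemma Emb.exists_bound {χ : ℂ → ℂ} {a b r : ℝ} (h : Emb χ a b) (hr : r ∈ Ioo a b) :
    ∃ M, 0 < M ∧ ∀ z, M ≤ ‖z‖ → z ∈ side χ r 0 := by
  obtain ⟨M, hM0, hM⟩ := (h.isCompact_crv hr).isBounded.exists_pos_norm_lt
  refine ⟨M, hM0, fun z hz => ⟨fun h1 => ?_, h.ind_large hr fun θ => ?_⟩⟩
  · linarith [hM z h1]
  · linarith [hM _ (crv_mem (h.ha.trans hr.1.le) θ)]

lemma Emb.nout_cases {χ : ℂ → ℂ} {a b : ℝ} (h : Emb χ a b) (hab : a < b) :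
    nout χ a b = 0 ∨ nout χ a b = -1 := by
  have hr : (a + b) / 2 ∈ Ioo a b := ⟨by linarith, by linarith⟩
  obtain ⟨M, hM0, hM⟩ := h.exists_bound hr
  have h1 := hM M (by simp [hM0.le, abs_of_pos hM0])
  have := h.ind_cases hr h1.1
  rw [h1.2] at this
  omega

lemma Emb.crv_closure_in {χ : ℂ → ℂ} {a b r : ℝ} (h : Emb χ a b) (hr : r ∈ Ioo a b) {w : ℂ}
    (hw : ‖w‖ = r) {V : Set ℂ} (hV : V ∈ 𝓝 w) : χ w ∈ closure (χ '' (V ∩ ann a r)) := by
  have hr0 : 0 < r := h.ha.trans_lt hr.1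
  have hwa : w ∈ ann a b := ⟨hw ▸ hr.1, hw ▸ hr.2⟩
  have hc := (h.diff.differentiableAt ((isOpen_ann a b).mem_nhds hwa)).continuousAt
  refine mem_closure_image hc ?_
  have h1 : Tendsto (fun t : ℝ => (t : ℂ) * w) (𝓝[<] 1) (𝓝 w) := by
    have : Continuous (fun t : ℝ => (t : ℂ) * w) := by fun_prop
    simpa using (this.tendsto 1).mono_left nhdsWithin_le_nhds
  refine mem_closure_of_tendsto h1 ?_
  filter_upwards [h1 hV, h1 ((isOpen_ann a b).mem_nhds hwa),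
    Ioo_mem_nhdsLT (show (0:ℝ) < 1 by norm_num)] with t h2 h3 h4
  refine ⟨h2, h3.1, ?_⟩
  rw [norm_mul, hw, Complex.norm_real, Real.norm_of_nonneg h4.1.le]
  nlinarith [h4.2]

lemma Emb.crv_closure_out {χ : ℂ → ℂ} {a b r : ℝ} (h : Emb χ a b) (hr : r ∈ Ioo a b) {w : ℂ}
    (hw : ‖w‖ = r) : χ w ∈ closure (χ '' ann r b) := by
  have hr0 : 0 < r := h.ha.trans_lt hr.1
  have hwa : w ∈ ann a b := ⟨hw ▸ hr.1, hw ▸ hr.2⟩
  have hc := (h.diff.differentiableAt ((isOpen_ann a b).mem_nhds hwa)).continuousAt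
  refine mem_closure_image hc ?_
  have h1 : Tendsto (fun t : ℝ => (t : ℂ) * w) (𝓝[>] 1) (𝓝 w) := by
    have : Continuous (fun t : ℝ => (t : ℂ) * w) := by fun_prop
    simpa using (this.tendsto 1).mono_left nhdsWithin_le_nhds
  refine mem_closure_of_tendsto h1 ?_
  filter_upwards [h1 ((isOpen_ann a b).mem_nhds hwa), self_mem_nhdsWithin] with t h3 h4
  refine ⟨?_, h3.2⟩
  have h5 : (1:ℝ) < t := h4
  rw [norm_mul, hw, Complex.norm_real, Real.norm_of_nonneg (by linarith)]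
  nlinarith

/-- The index of a point outside the image does not depend on the radius. -/
lemma Emb.ind_radius {χ : ℂ → ℂ} {a b r r' : ℝ} (h : Emb χ a b) (hr : r ∈ Ioo a b)
    (hr' : r' ∈ Ioo a b) {z : ℂ} (hz : ∀ w ∈ ann a b, ‖w‖ ∈ uIcc r r' → χ w ≠ z) :
    ind χ r z = ind χ r' z := by
  have hs : uIcc r r' ⊆ Ioo a b := ordConnected_Ioo.uIcc_subset hr hr'
  refine wind_homotopy (H := fun s θ => crv χ s θ - z) (S := uIcc r r') isPreconnected_uIcc ?_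
    (fun s hs' θ h0 => hz _ (circ_mem h.ha (hs hs') θ) ?_ (sub_eq_zero.1 h0))
    (fun s _ θ => by rw [crv_per]) left_mem_uIcc right_mem_uIcc
  · exact (h.diff.continuousOn.comp (f := fun q : ℝ × ℝ => (q.1 : ℂ) * ee q.2) (by fun_prop)
      fun q hq => circ_mem h.ha (hs hq.1) _).sub continuousOn_const
  · rwa [norm_circ (h.ha.trans (hs hs').1.le)]

end

end Pool.Agent.Lib.MP_1e9af3_an
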