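import Pool.Agent.Lib.MP_1e9af3_an.Reg

/-! A KAM theorem with counterterm and parameters. -/

namespace Pool.Agent.Lib.MP_1e9af3_an

open Set Filter Topology Complex Metric

noncomputable section

variable {X : Type} [TopologicalSpace X]

lemma strip_eq (σ δ : ℝ) : strip (-(σ - δ)) (σ - δ) = strip (-σ + δ) (σ - δ) := by
  rw [neg_sub', sub_neg_eq_add]

/-- The error of an approximate solution. -/
def err (g : X → ℂ → ℂ) (α : ℝ) (u : X → ℂ → ℂ) (l : X → ℂ) (p : X) (x : ℂ) : ℂ :=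
  g p (x + u p x) + u p x + l p - u p (x + α)

/-- A state of the iteration. -/
structure St (C : Curves X) (g : X → ℂ → ℂ) (α σ a E : ℝ) (u : X → ℂ → ℂ) (l : X → ℂ) : Prop where
  ru : Reg C σ u
  rl : RegP C l
  bu : ∀ p, ∀ x ∈ strip (-σ) σ, ‖u p x‖ ≤ a
  bd : ∀ p, ∀ x ∈ strip (-σ) σ, ‖deriv (u p) x‖ ≤ a
  bl : ∀ p, ‖l p‖ ≤ a
  be : ∀ p, ∀ x ∈ strip (-σ) σ, ‖err g α u l p x‖ ≤ E

lemma add_mem_strip {σ σ₀ a : ℝ} {x v : ℂ} (hx : x ∈ strip (-σ) σ) (hv : ‖v‖ ≤ a)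
    (h : σ + a ≤ σ₀) : x + v ∈ strip (-σ₀) σ₀ := by
  have := abs_le.1 ((abs_im_le_norm v).trans hv)
  constructor <;> simp only [add_im] <;> linarith [hx.1, hx.2]

lemma fc_zero_eq (h : ℂ → ℂ) : fc h 0 0 = ∫ θ in (0:ℝ)..1, h (θ + (0:ℝ) * I) := by
  simp [fc, ee_zero]

lemma fc_zero_bound {h : ℂ → ℂ} {σ M : ℝ} (hσ : 0 < σ) (hb : ∀ x ∈ strip (-σ) σ, ‖h x‖ ≤ M) :
    ‖fc h 0 0‖ ≤ M := by
  have h0 : (0:ℝ) ∈ Ioo (-σ) σ := ⟨by linarith, hσ⟩
  simpa using fc_bound (fun θ => hb _ (line_mem h0 θ)) 0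

lemma inv_bounds {v : ℂ} (hv : ‖v‖ ≤ 1 / 4) :
    1 + v ≠ 0 ∧ ‖1 / (1 + v)‖ ≤ 4 / 3 ∧ ‖1 / (1 + v) - 1‖ ≤ 1 / 3 := by
  have h1 : 3 / 4 ≤ ‖1 + v‖ := by
    have := norm_sub_norm_le (1:ℂ) (-v)
    simp only [norm_one, norm_neg, sub_neg_eq_add] at this; linarith
  have h2 : 1 + v ≠ 0 := by rw [← norm_pos_iff]; linarith
  refine ⟨h2, ?_, ?_⟩
  · rw [norm_div, norm_one, div_le_iff₀ (by linarith)]; linarith
  · have : 1 / (1 + v) - 1 = -v / (1 + v) := by field_simp; ring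
    rw [this, norm_div, norm_neg, div_le_iff₀ (by linarith)]; linarith

theorem kam_step {C : Curves X} {g u : X → ℂ → ℂ} {l : X → ℂ} {α c σ₀ σ ρ δ a E : ℝ} {τ : ℕ}
    (hα : SD α c τ) (hg : Reg C σ₀ g)
    (hj : ∀ i, DifferentiableOn ℂ (fun q : ℂ × ℂ => g (C.τ i q.1) q.2) (C.D i ×ˢ strip (-σ₀) σ₀))
    (hg1 : ∀ p, ∀ x ∈ strip (-σ₀) σ₀, ‖g p x‖ ≤ 1) (hρ : 0 < ρ) (hδ : 0 < δ) (hδ1 : δ ≤ 1)
    (hσ : 0 < σ) (hσ₀ : σ + a + ρ ≤ σ₀) (ha : a ≤ 1 / 4) (hE : 0 ≤ E)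
    (hK : 10 * cohC c τ * E / δ ^ (τ + 3) < ρ) (s : St C g α σ a E u l) :
    ∃ u' l', St C g α (σ - 2 * δ) (a + 10 * cohC c τ * E / δ ^ (τ + 3))
      ((100 * cohC c τ ^ 2 / ρ ^ 2 + 8 * cohC c τ) * E ^ 2 / δ ^ (2 * (τ + 2))) u' l' ∧
      (∀ p, ∀ x ∈ strip (-(σ - 2 * δ)) (σ - 2 * δ),
        ‖u' p x - u p x‖ ≤ 10 * cohC c τ * E / δ ^ (τ + 3)) ∧
      ∀ p, ‖l' p - l p‖ ≤ 10 * cohC c τ * E / δ ^ (τ + 3) := by
  set K := cohC c τ with hKdef
  have hK1 : 1 ≤ K := one_le_cohC hα.1 τ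
  have hm : ∀ p, ∀ x ∈ strip (-σ) σ, x + u p x ∈ strip (-(σ₀ - ρ)) (σ₀ - ρ) := fun p x hx =>
    add_mem_strip hx (s.bu p x hx) (by linarith)
  have hm' : ∀ p, ∀ x ∈ strip (-σ) σ, x + u p x ∈ strip (-σ₀) σ₀ := fun p x hx =>
    strip_mono (by linarith) (by linarith) (hm p x hx)
  have re : Reg C σ (err g α u l) :=
    (((hg.comp hj s.ru hm').add s.ru).add (s.rl.reg σ)).sub (s.ru.shift α)
  set ψ : X → ℂ → ℂ := fun p x => 1 + deriv (u p) (x + α) with hψ
  have rψ : Reg C σ ψ := ((RegP.const 1).reg σ).add (s.ru.deriv.shift α)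
  have bψ := fun p x (hx : x ∈ strip (-σ) σ) =>
    inv_bounds ((s.bd p _ (add_real_mem hx α)).trans ha)
  have r1 : Reg C σ fun p x => 1 / ψ p x := ((RegP.const 1).reg σ).div rψ fun p x hx => (bψ p x hx).1
  have r2 : Reg C σ fun p x => err g α u l p x / ψ p x := re.div rψ fun p x hx => (bψ p x hx).1
  set A : X → ℂ := fun p => fc (fun x => 1 / ψ p x) 0 0 with hA
  set B : X → ℂ := fun p => fc (fun x => err g α u l p x / ψ p x) 0 0 with hB
  have h0 : (0:ℝ) ∈ Ioo (-σ) σ := ⟨by linarith, hσ⟩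
  have i1 : ∀ p, IntervalIntegrable (fun θ : ℝ => 1 / ψ p (θ + (0:ℝ) * I)) MeasureTheory.volume 0 1 :=
    fun p => (cont_line (r1.diff p).continuousOn h0).intervalIntegrable _ _
  have i2 : ∀ p, IntervalIntegrable (fun θ : ℝ => err g α u l p (θ + (0:ℝ) * I) /
      ψ p (θ + (0:ℝ) * I)) MeasureTheory.volume 0 1 :=
    fun p => (cont_line (r2.diff p).continuousOn h0).intervalIntegrable _ _
  have bA : ∀ p, 2 / 3 ≤ ‖A p‖ := fun p => by
    have h1 := fc_zero_bound (h := fun x => 1 / ψ p x - 1) hσ fun x hx => (bψ p x hx).2.2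
    rw [fc_zero_eq, intervalIntegral.integral_sub (i1 p) (by simp), ← fc_zero_eq (fun x => 1 / ψ p x)]
      at h1
    simp only [intervalIntegral.integral_const, sub_zero, one_smul] at h1
    have := norm_sub_norm_le (1:ℂ) (1 - A p)
    rw [norm_sub_rev] at h1
    simp only [norm_one, sub_sub_cancel] at this
    linarith
  have hA0 : ∀ p, A p ≠ 0 := fun p => by rw [← norm_pos_iff]; linarith [bA p]
  have bB : ∀ p, ‖B p‖ ≤ 4 / 3 * E := fun p => fc_zero_bound hσ fun x hx => by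
    rw [div_eq_mul_one_div, norm_mul, mul_comm]
    exact mul_le_mul (bψ p x hx).2.1 (s.be p x hx) (norm_nonneg _) (by norm_num)
  set dl : X → ℂ := fun p => -B p / A p with hdl
  have rdl : RegP C dl := (r2.fc hσ 0).neg.div (r1.fc hσ 0) hA0
  have bdl : ∀ p, ‖dl p‖ ≤ 2 * E := fun p => by
    rw [hdl]; simp only
    rw [norm_div, norm_neg, div_le_iff₀ (by linarith [bA p])]
    nlinarith [bA p, bB p]
  set h : X → ℂ → ℂ := fun p x => (err g α u l p x + dl p) / ψ p x with hh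
  have rh : Reg C σ h := (re.add (rdl.reg σ)).div rψ fun p x hx => (bψ p x hx).1
  have bh : ∀ p, ∀ x ∈ strip (-σ) σ, ‖h p x‖ ≤ 4 * E := fun p x hx => by
    rw [hh]; simp only
    rw [div_eq_mul_one_div, norm_mul]
    have h1 : ‖err g α u l p x + dl p‖ ≤ 3 * E :=
      (norm_add_le _ _).trans (by linarith [s.be p x hx, bdl p])
    have := mul_le_mul h1 (bψ p x hx).2.1 (norm_nonneg _) (by positivity)
    linarith
  have h00 : ∀ p, fc (h p) 0 0 = 0 := fun p => by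
    have : fc (h p) 0 0 = B p + dl p * A p := by
      rw [hB, hA]; simp only [fc_zero_eq]
      rw [← intervalIntegral.integral_const_mul,
        ← intervalIntegral.integral_add (i2 p) ((i1 p).const_mul _)]
      congr 1; ext θ; rw [hh]; ring
    rw [this, hdl]; have := hA0 p; field_simp; ring
  set W : X → ℂ → ℂ := fun p x => solve α (h p) x with hW
  have rW : Reg C (σ - δ) W := rh.solve hα hδ hσ bh
  have bW : ∀ p, ∀ x ∈ strip (-(σ - δ)) (σ - δ), ‖W p x‖ ≤ K * (4 * E) / δ ^ (τ + 2) :=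
    fun p x hx => solve_bound hα hδ (rh.diff p) (rh.per p) (bh p) (strip_eq σ δ ▸ hx)
  have eW : ∀ p, ∀ x ∈ strip (-(σ - δ)) (σ - δ), W p (x + α) = W p x + h p x :=
    fun p x hx => solve_eq hα hδ (rh.diff p) (rh.per p) (bh p) (h00 p) (strip_eq σ δ ▸ hx)
  have hs1 : strip (-(σ - δ)) (σ - δ) ⊆ strip (-σ) σ := strip_mono (by linarith) (by linarith)
  have hs2 : strip (-(σ - 2 * δ)) (σ - 2 * δ) ⊆ strip (-(σ - δ)) (σ - δ) :=
    strip_mono (by linarith) (by linarith)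
  set Δ : X → ℂ → ℂ := fun p x => (1 + deriv (u p) x) * W p x with hΔ
  have rΔ : Reg C (σ - δ) Δ :=
    ((((RegP.const 1).reg σ).add s.ru.deriv).mono (by linarith)).mul rW
  have bΔ : ∀ p, ∀ x ∈ strip (-(σ - δ)) (σ - δ), ‖Δ p x‖ ≤ 5 * K * E / δ ^ (τ + 2) :=
    fun p x hx => by
      rw [hΔ]; simp only
      rw [norm_mul]
      have h1 : ‖1 + deriv (u p) x‖ ≤ 5 / 4 :=
        (norm_add_le _ _).trans (by rw [norm_one]; linarith [s.bd p x (hs1 hx)])
      refine (mul_le_mul h1 (bW p x hx) (norm_nonneg _) (by norm_num)).trans_eq (by ring)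
  have cmp : 5 * K * E / δ ^ (τ + 2) ≤ 10 * K * E / δ ^ (τ + 3) := by
    rw [div_le_div_iff₀ (by positivity) (by positivity), pow_succ δ (τ + 2)]
    have : 0 ≤ K * E * δ ^ (τ + 2) := by positivity
    nlinarith
  have cmp2 : 2 * E ≤ 10 * K * E / δ ^ (τ + 3) := by
    rw [le_div_iff₀ (by positivity)]
    have : δ ^ (τ + 3) ≤ 1 := pow_le_one₀ hδ.le hδ1
    nlinarith
  have bΔ' : ∀ p, ∀ x ∈ strip (-(σ - 2 * δ)) (σ - 2 * δ),
      ‖deriv (Δ p) x‖ ≤ 10 * K * E / δ ^ (τ + 3) := fun p x hx => by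
    have hb : ball x δ ⊆ strip (-(σ - δ)) (σ - δ) :=
      ball_sub_strip (strip_mono (by linarith) (by linarith) hx)
    refine (deriv_le_of_bdd hδ ((rΔ.diff p).mono hb) fun z hz => bΔ p z (hb hz)).trans_eq ?_
    field_simp; ring
  have dAt : ∀ {σ' : ℝ} {f : X → ℂ → ℂ}, Reg C σ' f → ∀ p, ∀ x ∈ strip (-σ') σ',
      HasDerivAt (f p) (deriv (f p) x) x := fun r p x hx =>
    ((r.diff p).differentiableAt ((isOpen_strip _ _).mem_nhds hx)).hasDerivAt
  refine ⟨fun p x => u p x + Δ p x, fun p => l p + dl p, ⟨(s.ru.mono (by linarith)).add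
    (rΔ.mono (by linarith)), s.rl.add rdl, fun p x hx => ?_, fun p x hx => ?_, fun p => ?_,
    fun p x hx => ?_⟩, fun p x hx => ?_, fun p => ?_⟩
  · exact (norm_add_le _ _).trans (add_le_add (s.bu p x (hs1 (hs2 hx)))
      ((bΔ p x (hs2 hx)).trans cmp))
  · rw [((dAt s.ru p x (hs1 (hs2 hx))).fun_add (dAt rΔ p x (hs2 hx))).deriv]
    exact (norm_add_le _ _).trans (add_le_add (s.bd p x (hs1 (hs2 hx))) (bΔ' p x hx))
  · exact (norm_add_le _ _).trans (add_le_add (s.bl p) ((bdl p).trans cmp2))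
  · have hx1 := hs2 hx
    have hx0 := hs1 hx1
    have hb : ball (x + u p x) ρ ⊆ strip (-σ₀) σ₀ := ball_sub_strip (strip_eq σ₀ ρ ▸ hm p x hx0)
    have hΔρ : ‖Δ p x‖ < ρ := ((bΔ p x hx1).trans cmp).trans_lt hK
    have t1 := taylor_of_bdd ((hg.diff p).mono hb) (fun z hz => hg1 p z (hb hz))
      (show x + u p x + Δ p x ∈ ball (x + u p x) ρ by simpa using hΔρ)
    rw [add_sub_cancel_left] at t1
    have d1 : HasDerivAt (err g α u l p) (deriv (g p) (x + u p x) * (1 + deriv (u p) x) +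
        deriv (u p) x - deriv (u p) (x + α)) x := by
      have e1 := (dAt hg p _ (hm' p x hx0)).comp x ((hasDerivAt_id' x).fun_add (dAt s.ru p x hx0))
      have e2 := (dAt s.ru p _ (add_real_mem hx0 α)).comp_add_const x (α : ℂ)
      exact ((e1.fun_add (dAt s.ru p x hx0)).add_const (l p)).fun_sub e2
    have hb2 : ball x δ ⊆ strip (-σ) σ := ball_sub_strip (strip_eq σ δ ▸ hx1)
    have t2 := deriv_le_of_bdd hδ ((re.diff p).mono hb2) fun z hz => s.be p z (hb2 hz)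
    have key : err g α (fun p x => u p x + Δ p x) (fun p => l p + dl p) p x =
        (g p (x + u p x + Δ p x) - g p (x + u p x) - deriv (g p) (x + u p x) * Δ p x) +
        deriv (err g α u l p) x * W p x := by
      have e3 : Δ p (x + α) = ψ p x * W p x + (err g α u l p x + dl p) := by
        rw [hΔ]; simp only
        rw [eW p x hx1, hh]; simp only
        have := (bψ p x hx0).1
        rw [mul_add, mul_div_cancel₀ _ this]
      rw [d1.deriv]
      simp only [err] at e3 ⊢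
      rw [e3, ← add_assoc x, hΔ, hψ]
      ring
    rw [key]
    have t3 : ‖deriv (err g α u l p) x * W p x‖ ≤ 2 * E / δ * (K * (4 * E) / δ ^ (τ + 2)) := by
      rw [norm_mul]; exact mul_le_mul t2 (bW p x hx1) (norm_nonneg _) (by positivity)
    have t4 : 4 * 1 * (‖Δ p x‖ / ρ) ^ 2 ≤ 4 * 1 * (5 * K * E / δ ^ (τ + 2) / ρ) ^ 2 := by
      gcongr; exact bΔ p x hx1
    have t5 : 2 * E / δ * (K * (4 * E) / δ ^ (τ + 2)) ≤ 8 * K * E ^ 2 / δ ^ (2 * (τ + 2)) := by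
      rw [show 2 * E / δ * (K * (4 * E) / δ ^ (τ + 2)) = 8 * K * E ^ 2 / δ ^ (τ + 3) by
        field_simp; ring]
      exact div_le_div_of_nonneg_left (by positivity) (by positivity)
        (pow_le_pow_of_le_one hδ.le hδ1 (by omega))
    refine (norm_add_le _ _).trans ((add_le_add (t1.trans t4) (t3.trans t5)).trans_eq ?_)
    field_simp; ring
  · simpa using (bΔ p x (hs2 hx)).trans cmp
  · simpa using (bdl p).trans cmp2

theorem kam {α c : ℝ} {τ : ℕ} (hα : SD α c τ) {σ₁ σ₀ η : ℝ} (h₁ : 0 < σ₁) (h₀ : σ₁ < σ₀)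
    (hη : 0 < η) : ∃ ε > 0, ∀ (X : Type) [TopologicalSpace X] (C : Curves X) (g : X → ℂ → ℂ),
      Reg C σ₀ g → (∀ i, DifferentiableOn ℂ (fun q : ℂ × ℂ => g (C.τ i q.1) q.2)
        (C.D i ×ˢ strip (-σ₀) σ₀)) → (∀ p, ∀ x ∈ strip (-σ₀) σ₀, ‖g p x‖ ≤ ε) →
      ∃ u l, Reg C σ₁ u ∧ RegP C l ∧ (∀ p, ∀ x ∈ strip (-σ₁) σ₁, ‖u p x‖ ≤ η) ∧
        (∀ p, ‖l p‖ ≤ η) ∧ ∀ p, ∀ x ∈ strip (-σ₁) σ₁, err g α u l p x = 0 := by
  set K := cohC c τ with hKdef
  have hK1 : 1 ≤ K := one_le_cohC hα.1 τ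
  set ρ := min 1 ((σ₀ - σ₁) / 4) with hρ
  have hρ0 : 0 < ρ := lt_min one_pos (by linarith)
  have hρ1 : ρ ≤ 1 := min_le_left _ _
  have hρ2 : σ₁ + 4 * ρ ≤ σ₀ := by have := min_le_right 1 ((σ₀ - σ₁) / 4); linarith
  set θ : ℝ := (1 / 2) ^ (2 * (τ + 3)) with hθ
  have hθ0 : 0 < θ := by positivity
  set L := 10 * K * (2 / ρ) ^ (τ + 3) with hL
  have hL0 : 0 < L := by positivity
  set K' := (100 * K ^ 2 / ρ ^ 2 + 8 * K) * (2 / ρ) ^ (2 * (τ + 2)) with hK'
  have hK'0 : 0 < K' := by positivity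
  set m := min (min ρ (1 / 4)) η with hm
  have hm0 : 0 < m := lt_min (lt_min hρ0 (by norm_num)) hη
  have hm1 : m ≤ ρ := (min_le_left _ _).trans (min_le_left _ _)
  have hm2 : m ≤ 1 / 4 := (min_le_left _ _).trans (min_le_right _ _)
  have hm3 : m ≤ η := min_le_right _ _
  refine ⟨min 1 (min (θ / K') (m / (2 * L))), lt_min one_pos (lt_min (by positivity)
    (by positivity)), fun X _ C g hg hj hb => ?_⟩
  set ε := min 1 (min (θ / K') (m / (2 * L))) with hε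
  have hε0 : 0 < ε := lt_min one_pos (lt_min (by positivity) (by positivity))
  have hε1 : ε ≤ 1 := min_le_left _ _
  have hε2 : K' * ε ≤ θ := by
    have : ε ≤ θ / K' := (min_le_right _ _).trans (min_le_left _ _)
    rwa [le_div_iff₀ hK'0, mul_comm] at this
  have hε3 : 2 * L * ε ≤ m := by
    have : ε ≤ m / (2 * L) := (min_le_right _ _).trans (min_le_right _ _)
    rwa [le_div_iff₀ (by positivity), mul_comm] at this
  let σ : ℕ → ℝ := fun n => σ₁ + 2 * ρ * (1 / 2) ^ n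
  let a : ℕ → ℝ := fun n => 2 * L * ε * (1 - (1 / 2) ^ n)
  let E : ℕ → ℝ := fun n => ε * θ ^ n
  have hσ1 : ∀ n, σ₁ ≤ σ n := fun n => by
    have : 0 ≤ 2 * ρ * (1 / 2 : ℝ) ^ n := by positivity
    simp only [σ]; linarith
  have ham : ∀ n, a n ≤ m := fun n => by
    have : 0 ≤ 2 * L * ε * (1 / 2 : ℝ) ^ n := by positivity
    simp only [a]; linarith
  have step : ∀ n u l, St C g α (σ n) (a n) (E n) u l → ∃ u' l',
      St C g α (σ (n + 1)) (a (n + 1)) (E (n + 1)) u' l' ∧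
      (∀ p, ∀ x ∈ strip (-σ₁) σ₁, ‖u' p x - u p x‖ ≤ L * ε * (1 / 2) ^ n) ∧
      ∀ p, ‖l' p - l p‖ ≤ L * ε * (1 / 2) ^ n := fun n u l s => by
    have hp : (1 / 2 : ℝ) ^ n ≤ 1 := pow_le_one₀ (by norm_num) (by norm_num)
    have hp0 : 0 < (1 / 2 : ℝ) ^ n := by positivity
    set δ := ρ / 2 * (1 / 2) ^ n with hδ
    have hδ0 : 0 < δ := by positivity
    have e1 : 10 * K * E n / δ ^ (τ + 3) ≤ L * ε * (1 / 2) ^ n := by
      have : 10 * K * E n / δ ^ (τ + 3) = L * ε * ((1 / 2) ^ (τ + 3)) ^ n := by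
        simp only [E, hδ, hL, hθ, mul_pow, ← pow_mul, two_mul, add_mul, pow_add, mul_comm n]
        field_simp
        rw [← mul_pow]; field_simp; simp
      rw [this]
      gcongr
      exact (pow_le_pow_of_le_one (by norm_num) (by norm_num)
        (show 1 ≤ τ + 3 by omega)).trans_eq (pow_one _)
    have e2 : (100 * K ^ 2 / ρ ^ 2 + 8 * K) * E n ^ 2 / δ ^ (2 * (τ + 2)) ≤ E (n + 1) := by
      have : (100 * K ^ 2 / ρ ^ 2 + 8 * K) * E n ^ 2 / δ ^ (2 * (τ + 2)) =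
          K' * ε * (ε * θ ^ n) * ((1 / 2) ^ 2) ^ n := by
        have h2 : θ = (1 / 2) ^ (2 * (τ + 2)) * (1 / 2) ^ 2 := by rw [hθ, ← pow_add]; rfl
        simp only [E, hδ, hK']
        rw [mul_pow ε, sq (θ ^ n)]
        nth_rewrite 1 [h2]
        rw [mul_pow, mul_pow, ← pow_mul, ← pow_mul _ n, mul_comm n, div_pow, div_pow 2]
        field_simp
        rw [← mul_pow]; simp
      rw [this]
      have h3 : (((1:ℝ) / 2) ^ 2) ^ n ≤ 1 := pow_le_one₀ (by norm_num) (by norm_num)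
      calc _ ≤ θ * (ε * θ ^ n) * 1 := by gcongr
        _ = E (n + 1) := by simp only [E]; ring
    obtain ⟨u', l', s', h1, h2⟩ := kam_step hα hg hj (fun p x hx => (hb p x hx).trans hε1) hρ0 hδ0
      (by nlinarith) (h₁.trans_le (hσ1 n))
      (by have := ham n; simp only [σ]; nlinarith) ((ham n).trans hm2)
      (by simp only [E]; positivity) (e1.trans_lt (by nlinarith [mul_pos hL0 hε0])) s
    have e3 : σ n - 2 * δ = σ (n + 1) := by simp only [σ, hδ]; ring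
    have e4 : a n + 10 * K * E n / δ ^ (τ + 3) ≤ a (n + 1) := by
      refine (add_le_add le_rfl e1).trans_eq ?_
      simp only [a]; ring
    rw [e3] at s' h1
    refine ⟨u', l', ⟨s'.ru, s'.rl, fun p x hx => (s'.bu p x hx).trans e4,
      fun p x hx => (s'.bd p x hx).trans e4, fun p => (s'.bl p).trans e4,
      fun p x hx => (s'.be p x hx).trans e2⟩, fun p x hx => (h1 p x (strip_mono
        (by linarith [hσ1 (n + 1)]) (hσ1 _) hx)).trans e1, fun p => (h2 p).trans e1⟩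
  choose! fu fl hf using step
  let sq : ℕ → (X → ℂ → ℂ) × (X → ℂ) := fun n =>
    Nat.rec (fun _ _ => 0, fun _ => 0) (fun n s => (fu n s.1 s.2, fl n s.1 s.2)) n
  have hst : ∀ n, St C g α (σ n) (a n) (E n) (sq n).1 (sq n).2 := fun n => by
    induction n with
    | zero =>
      refine ⟨(RegP.const 0).reg _, RegP.const 0, by simp [sq, a], by simp [sq, a],
        by simp [sq, a], fun p x hx => ?_⟩
      simpa [sq, err, E] using hb p x (strip_mono (by simp [σ]; linarith) (by simp [σ]; linarith) hx)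
    | succ n ih => exact (hf n _ _ ih).1
  have hsum : Summable fun n : ℕ => L * ε * (1 / 2 : ℝ) ^ n := summable_geometric_two.mul_left _
  have hd1 := fun n => (hf n _ _ (hst n)).2.1
  have hd2 := fun n => (hf n _ _ (hst n)).2.2
  set u : X → ℂ → ℂ := fun p x => ∑' n, ((sq (n + 1)).1 p x - (sq n).1 p x) with hu
  set l : X → ℂ := fun p => ∑' n, ((sq (n + 1)).2 p - (sq n).2 p) with hl
  have tu : ∀ p, ∀ x ∈ strip (-σ₁) σ₁, Tendsto (fun n => (sq n).1 p x) atTop (𝓝 (u p x)) :=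
    fun p x hx => by
      have := (hsum.of_norm_bounded fun n => hd1 n p x hx).hasSum.tendsto_sum_nat
      refine this.congr fun n => ?_
      exact (Finset.sum_range_sub (fun n => (sq n).1 p x) n).trans (sub_zero _)
  have tl : ∀ p, Tendsto (fun n => (sq n).2 p) atTop (𝓝 (l p)) := fun p => by
    have := (hsum.of_norm_bounded fun n => hd2 n p).hasSum.tendsto_sum_nat
    refine this.congr fun n => ?_
    exact (Finset.sum_range_sub (fun n => (sq n).2 p) n).trans (sub_zero _)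
  have bu : ∀ p, ∀ x ∈ strip (-σ₁) σ₁, ‖u p x‖ ≤ m := fun p x hx =>
    le_of_tendsto' (tu p x hx).norm fun n => ((hst n).bu p x
      (strip_mono (by linarith [hσ1 n]) (hσ1 n) hx)).trans (ham n)
  refine ⟨u, l, Reg.tsum hsum (fun n => ((hst (n + 1)).ru.mono (hσ1 _)).sub
    ((hst n).ru.mono (hσ1 _))) hd1, RegP.tsum hsum (fun n => (hst (n + 1)).rl.sub (hst n).rl) hd2,
    fun p x hx => (bu p x hx).trans hm3, fun p => ?_, fun p x hx => ?_⟩
  · exact le_of_tendsto' (tl p).norm fun n => ((hst n).bl p).trans ((ham n).trans hm3)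
  · have hc : ContinuousAt (g p) (x + u p x) :=
      ((hg.diff p).differentiableAt ((isOpen_strip _ _).mem_nhds
        (add_mem_strip hx (bu p x hx) (by linarith)))).continuousAt
    have t1 : Tendsto (fun n => err g α (sq n).1 (sq n).2 p x) atTop (𝓝 (err g α u l p x)) :=
      (((hc.tendsto.comp ((tu p x hx).const_add x)).add (tu p x hx)).add (tl p)).sub
        (tu p _ (add_real_mem hx α))
    have t2 : Tendsto E atTop (𝓝 0) := by
      have := (tendsto_pow_atTop_nhds_zero_of_lt_one hθ0.le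
        (pow_lt_one₀ (by norm_num) (by norm_num) (by omega))).const_mul ε
      simpa using this
    exact tendsto_nhds_unique t1 (squeeze_zero_norm (fun n => (hst n).be p x
      (strip_mono (by linarith [hσ1 n]) (hσ1 n) hx)) t2)

end

end Pool.Agent.Lib.MP_1e9af3_an
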