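import Mathlib

/-! Path lifting for light open projections (Whyburn). -/

namespace Pool.Agent.Lib.MP_1e9af3_an

open Set Filter Topology Metric

noncomputable section

/-- Two points joined by a continuum lying over the interval between them. -/
def Joined' (Z : Set (ℝ × ℂ)) (x y : ℝ × ℂ) : Prop :=
  ∃ C ⊆ Z, IsPreconnected C ∧ x ∈ C ∧ y ∈ C ∧ ∀ c ∈ C, x.1 ≤ c.1 ∧ c.1 ≤ y.1

lemma Joined'.refl {Z : Set (ℝ × ℂ)} {x : ℝ × ℂ} (hx : x ∈ Z) : Joined' Z x x :=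
  ⟨{x}, singleton_subset_iff.2 hx, isPreconnected_singleton, rfl, rfl,
    by rintro c rfl; exact ⟨le_rfl, le_rfl⟩⟩

lemma Joined'.trans {Z : Set (ℝ × ℂ)} {x y z : ℝ × ℂ} (h : Joined' Z x y) (h' : Joined' Z y z) :
    Joined' Z x z := by
  obtain ⟨C, h1, h2, h3, h4, h5⟩ := h
  obtain ⟨D, k1, k2, k3, k4, k5⟩ := h'
  refine ⟨C ∪ D, union_subset h1 k1, h2.union y h4 k3 k2, Or.inl h3, Or.inr k4, ?_⟩
  rintro c (hc | hc)
  · exact ⟨(h5 c hc).1, (h5 c hc).2.trans (k5 z k4).1⟩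
  · exact ⟨(h5 y h4).1.trans (k5 c hc).1, (k5 c hc).2⟩

lemma exists_joined {Z : Set (ℝ × ℂ)} (hZ : IsCompact Z) {s₀ s₁ : ℝ}
    (ho : ∀ z ∈ Z, ∀ V ∈ 𝓝 z, ∀ᶠ s in 𝓝[Icc s₀ s₁] z.1, ∃ t, (s, t) ∈ Z ∩ V) {x : ℝ × ℂ}
    (hx : x ∈ Z) (hx0 : s₀ ≤ x.1) {b : ℝ} (hb : x.1 ≤ b) (hb1 : b ≤ s₁) :
    ∃ y, y.1 = b ∧ Joined' Z x y := by
  set Y := Z ∩ Prod.fst ⁻¹' Icc x.1 b with hY
  have hYc : IsCompact Y := hZ.inter_right (isClosed_Icc.preimage continuous_fst)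
  haveI : CompactSpace Y := isCompact_iff_compactSpace.1 hYc
  let x' : Y := ⟨x, hx, le_rfl, hb⟩
  let π : Y → Icc x.1 b := fun y => ⟨y.1.1, y.2.2⟩
  have hπ : Continuous π := by fun_prop
  haveI : PreconnectedSpace (Icc x.1 b) := Subtype.preconnectedSpace isPreconnected_Icc
  have h1 : ∀ N : Set Y, IsClopen N → x' ∈ N → (N ∩ {y | y.1.1 = b}).Nonempty := fun N hN hxN => by
    have hc : IsClopen (π '' N) := by
      refine ⟨(hN.1.isCompact.image hπ).isClosed, isOpen_iff_mem_nhds.2 ?_⟩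
      rintro _ ⟨y, hy, rfl⟩
      obtain ⟨V, hV, hVN⟩ := (mem_nhds_subtype _ _ _).1 (hN.2.mem_nhds hy)
      refine (mem_nhds_subtype _ _ _).2 ⟨_, eventually_nhdsWithin_iff.1 (ho y.1 y.2.1 V hV), ?_⟩
      intro s hs
      obtain ⟨t, ht1, ht2⟩ := hs ⟨hx0.trans s.2.1, s.2.2.trans hb1⟩
      exact ⟨⟨(s, t), ht1, s.2⟩, hVN ht2, rfl⟩
    obtain ⟨y, hy, he⟩ := (hc.eq_univ ⟨_, x', hxN, rfl⟩ ▸ mem_univ _ :
      (⟨b, hb, le_rfl⟩ : Icc x.1 b) ∈ π '' N)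
    exact ⟨y, hy, congrArg Subtype.val he⟩
  have hcl : IsClosed {y : Y | y.1.1 = b} := isClosed_eq (by fun_prop) continuous_const
  haveI : Nonempty { s : Set Y // IsClopen s ∧ x' ∈ s } := ⟨⟨univ, isClopen_univ, trivial⟩⟩
  obtain ⟨y, hy⟩ := IsCompact.nonempty_iInter_of_directed_nonempty_isCompact_isClosed
    (fun s : { s : Set Y // IsClopen s ∧ x' ∈ s } => s.1 ∩ {y : Y | y.1.1 = b})
    (fun s t => ⟨⟨s.1 ∩ t.1, s.2.1.inter t.2.1, s.2.2, t.2.2⟩,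
      inter_subset_inter_left _ inter_subset_left, inter_subset_inter_left _ inter_subset_right⟩)
    (fun s => h1 s.1 s.2.1 s.2.2) (fun s => (s.2.1.1.inter hcl).isCompact)
    fun s => s.2.1.1.inter hcl
  rw [mem_iInter] at hy
  have hy' : y ∈ connectedComponent x' := by
    rw [connectedComponent_eq_iInter_isClopen, mem_iInter]; exact fun s => (hy s).1
  have hyb : y.1.1 = b := (hy ⟨univ, isClopen_univ, trivial⟩).2
  refine ⟨y.1, hyb, (↑) '' connectedComponent x', ?_,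
    isPreconnected_connectedComponent.image _ continuous_subtype_val.continuousOn,
    ⟨x', mem_connectedComponent, rfl⟩, ⟨y, hy', rfl⟩, ?_⟩
  · rintro _ ⟨c, -, rfl⟩; exact c.2.1
  · rintro _ ⟨c, -, rfl⟩; rw [hyb]; exact c.2.2

lemma light_local {Z : Set (ℝ × ℂ)} (hZ : IsCompact Z) {s : ℝ} (hf : {t | (s, t) ∈ Z}.Finite)
    {ε : ℝ} (hε : 0 < ε) : ∃ δ > 0, ∀ C ⊆ Z, IsPreconnected C → (∀ c ∈ C, c.1 ∈ ball s δ) →
      ∀ x ∈ C, ∀ y ∈ C, dist x.2 y.2 < ε := by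
  set F := {t | (s, t) ∈ Z} with hF
  have h1 : ∀ᶠ η in 𝓝[>] (0:ℝ), ∀ p ∈ F, ∀ q ∈ F, p ≠ q → 2 * η < dist p q := by
    simp only [eventually_all_finite hf]
    intro p _ q _
    by_cases h : p = q
    · simp [h]
    · have : ∀ᶠ η in 𝓝 (0:ℝ), 2 * η < dist p q :=
        (show ContinuousAt (fun η : ℝ => 2 * η) 0 by fun_prop).eventually
          (gt_mem_nhds (by simpa using h))
      exact (this.filter_mono nhdsWithin_le_nhds).mono fun _ h _ => h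
  obtain ⟨η, h2, h3⟩ := (h1.and (Ioo_mem_nhdsGT (half_pos hε))).exists
  have h4 : ∀ᶠ s' in 𝓝 s, ∀ z ∈ Z, z.1 = s' → ∃ p ∈ F, z.2 ∈ ball p η := by
    apply hZ.eventually_forall_of_forall_eventually
    intro z hz
    by_cases h : z.1 = s
    · have : ∀ᶠ q : ℝ × (ℝ × ℂ) in 𝓝 (s, z), q.2.2 ∈ ball z.2 η :=
        (show ContinuousAt (fun q : ℝ × (ℝ × ℂ) => q.2.2) (s, z) by fun_prop).eventually
          (ball_mem_nhds _ h3.1)
      exact this.mono fun q hq _ => ⟨z.2, by simpa [hF, ← h] using hz, hq⟩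
    · have : ∀ᶠ q : ℝ × (ℝ × ℂ) in 𝓝 (s, z), q.2.1 ≠ q.1 :=
        (isOpen_ne_fun (f := fun q : ℝ × (ℝ × ℂ) => q.2.1) (g := Prod.fst) (by fun_prop)
          (by fun_prop)).mem_nhds h
      exact this.mono fun q hq he => absurd he hq
  obtain ⟨δ, hδ, hb⟩ := Metric.eventually_nhds_iff_ball.1 h4
  refine ⟨δ, hδ, fun C hC hp hm x hx y hy => ?_⟩
  obtain ⟨p, hp1, hp2⟩ := hb _ (hm x hx) x (hC hx) rfl
  have := (hp.image Prod.snd continuous_snd.continuousOn).subset_left_of_subset_union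
    (s := Prod.snd '' C) (u := ball p η) (v := ⋃ q ∈ F \ {p}, ball q η) isOpen_ball
    (isOpen_biUnion fun _ _ => isOpen_ball)
    (disjoint_iUnion₂_right.2 fun q hq => ball_disjoint_ball (by
      linarith [h2 p hp1 q hq.1 (Ne.symm hq.2)]))
    (by
      rintro _ ⟨c, hc, rfl⟩
      obtain ⟨q, hq1, hq2⟩ := hb _ (hm c hc) c (hC hc) rfl
      by_cases h : q = p
      · exact Or.inl (h ▸ hq2)
      · exact Or.inr (mem_biUnion (show q ∈ F \ {p} from ⟨hq1, h⟩) hq2))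
    ⟨x.2, mem_image_of_mem _ hx, hp2⟩ (mem_image_of_mem _ hy)
  have h5 := dist_triangle_right x.2 y.2 p
  rw [mem_ball] at hp2 this
  linarith [h3.2]

theorem whyburn {Z : Set (ℝ × ℂ)} (hZ : IsCompact Z) {s₀ s₁ : ℝ} (hs : s₀ < s₁)
    (ho : ∀ z ∈ Z, ∀ V ∈ 𝓝 z, ∀ᶠ s in 𝓝[Icc s₀ s₁] z.1, ∃ t, (s, t) ∈ Z ∩ V)
    (hf : ∀ s, {t | (s, t) ∈ Z}.Finite) {t₀ : ℂ} (h₀ : (s₀, t₀) ∈ Z) :
    ∃ γ : ℝ → ℂ, ContinuousOn γ (Icc s₀ s₁) ∧ γ s₀ = t₀ ∧ ∀ s ∈ Icc s₀ s₁, (s, γ s) ∈ Z := by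
  have light : ∀ ε > 0, ∃ δ > 0, ∀ x y, Joined' Z x y → x.1 ∈ Icc s₀ s₁ → y.1 - x.1 < δ →
      dist x.2 y.2 < ε := fun ε hε => by
    choose δ hδ h using fun s => light_local hZ (hf s) hε
    obtain ⟨d, hd, h'⟩ := lebesgue_number_lemma_of_metric (isCompact_Icc (a := s₀) (b := s₁))
      (c := fun s => ball s (δ s)) (fun _ => isOpen_ball)
      fun s _ => mem_iUnion.2 ⟨s, mem_ball_self (hδ s)⟩
    refine ⟨d, hd, ?_⟩
    rintro x y ⟨C, h1, h2, h3, h4, h5⟩ hx hxy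
    obtain ⟨s, hs'⟩ := h' _ hx
    refine h s C h1 h2 (fun c hc => hs' ?_) x h3 y h4
    rw [mem_ball, Real.dist_eq, abs_lt]
    constructor <;> linarith [(h5 c hc).1, (h5 c hc).2]
  have step : ∀ (x : ℝ × ℂ) (b : ℝ), ∃ y, x ∈ Z → s₀ ≤ x.1 → x.1 ≤ b → b ≤ s₁ →
      y.1 = b ∧ Joined' Z x y := fun x b => by
    by_cases h : x ∈ Z ∧ s₀ ≤ x.1 ∧ x.1 ≤ b ∧ b ≤ s₁
    · obtain ⟨y, hy⟩ := exists_joined hZ ho h.1 h.2.1 h.2.2.1 h.2.2.2
      exact ⟨y, fun _ _ _ _ => hy⟩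
    · exact ⟨x, fun a b c d => absurd ⟨a, b, c, d⟩ h⟩
  choose nx hnx using step
  let pt : ℝ → ℕ → ℝ := fun h i => min s₁ (s₀ + i * h)
  let X : ℝ → ℕ → ℝ × ℂ := fun h i => Nat.rec (s₀, t₀) (fun i x => nx x (pt h (i + 1))) i
  have pm : ∀ h, 0 ≤ h → Monotone (pt h) := fun h hh i j hij =>
    min_le_min le_rfl (by gcongr)
  have p0 : ∀ h, pt h 0 = s₀ := fun h => by simp [pt, hs.le]
  have hX : ∀ h, 0 ≤ h → ∀ i, X h i ∈ Z ∧ (X h i).1 = pt h i := fun h hh i => by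
    induction i with
    | zero => exact ⟨h₀, (p0 h).symm⟩
    | succ i ih =>
      obtain ⟨h1, C, h2, -, -, h3, -⟩ := hnx (X h i) (pt h (i + 1)) ih.1
        (by rw [ih.2, ← p0 h]; exact pm h hh (Nat.zero_le _))
        (by rw [ih.2]; exact pm h hh (Nat.le_succ _)) (min_le_left _ _)
      exact ⟨h2 h3, h1⟩
  have hJ : ∀ h, 0 ≤ h → ∀ i j, i ≤ j → Joined' Z (X h i) (X h j) := fun h hh i j hij => by
    induction j, hij using Nat.le_induction with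
    | base => exact Joined'.refl (hX h hh i).1
    | succ j _ ih =>
      exact ih.trans (hnx (X h j) (pt h (j + 1)) (hX h hh j).1
        (by rw [(hX h hh j).2, ← p0 h]; exact pm h hh (Nat.zero_le _))
        (by rw [(hX h hh j).2]; exact pm h hh (Nat.le_succ _)) (min_le_left _ _)).2
  let hh : ℕ → ℝ := fun n => 1 / ((n : ℝ) + 1)
  have hh0 : ∀ n, 0 < hh n := fun n => by positivity
  let g : ℕ → ℝ → ℝ × ℂ := fun n s => X (hh n) ⌊(s - s₀) / hh n⌋₊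
  have g1 : ∀ n, ∀ s ∈ Icc s₀ s₁, s - hh n ≤ (g n s).1 ∧ (g n s).1 ≤ s ∧ s₀ ≤ (g n s).1 :=
    fun n s hs' => by
      have a1 := Nat.floor_le (div_nonneg (sub_nonneg.2 hs'.1) (hh0 n).le)
      have a2 := Nat.lt_floor_add_one ((s - s₀) / hh n)
      rw [le_div_iff₀ (hh0 n)] at a1
      rw [div_lt_iff₀ (hh0 n)] at a2
      have a3 : 0 ≤ (⌊(s - s₀) / hh n⌋₊ : ℝ) * hh n := by positivity
      simp only [g, (hX _ (hh0 n).le _).2, pt]
      refine ⟨le_min (by linarith [hs'.2, hh0 n]) (by linarith), min_le_of_right_le (by linarith),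
        le_min hs.le (by linarith)⟩
  have lim : ∀ s, ∃ z ∈ Z, Tendsto (fun n => g n s) (hyperfilter ℕ) (𝓝 z) := fun s =>
    hZ.ultrafilter_le_nhds' ((hyperfilter ℕ).map fun n => g n s)
      (Ultrafilter.mem_map.2 (univ_mem' fun n => (hX _ (hh0 n).le _).1))
  choose z hz1 hz2 using lim
  have th : Tendsto hh (hyperfilter ℕ) (𝓝 0) :=
    tendsto_one_div_add_atTop_nhds_zero_nat.mono_left Nat.hyperfilter_le_atTop
  have z1 : ∀ s ∈ Icc s₀ s₁, (z s).1 = s := fun s hs' => by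
    refine tendsto_nhds_unique ((continuous_fst.tendsto _).comp (hz2 s)) ?_
    exact tendsto_of_tendsto_of_tendsto_of_le_of_le (by simpa using th.const_sub s)
      tendsto_const_nhds (fun n => (g1 n s hs').1) fun n => (g1 n s hs').2.1
  refine ⟨fun s => (z s).2, ?_, ?_, fun s hs' => by
    have := hz1 s; rwa [← Prod.mk.eta (p := z s), z1 s hs'] at this⟩
  · rw [Metric.continuousOn_iff]
    intro s hs1 ε hε
    obtain ⟨δ, hδ, hl⟩ := light _ (half_pos hε)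
    have key : ∀ a ∈ Icc s₀ s₁, ∀ b ∈ Icc s₀ s₁, a ≤ b → b - a < δ / 2 →
        dist (z a).2 (z b).2 ≤ ε / 2 := fun a ha b hb hab hd => by
      refine le_of_tendsto (((continuous_snd.tendsto _).comp (hz2 a)).dist
        ((continuous_snd.tendsto _).comp (hz2 b))) ?_
      filter_upwards [th.eventually (gt_mem_nhds (half_pos hδ))] with n hn
      refine (hl _ _ (hJ _ (hh0 n).le _ _ (Nat.floor_le_floor (by gcongr)))
        ⟨(g1 n a ha).2.2, (g1 n a ha).2.1.trans ha.2⟩ ?_).le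
      linarith [(g1 n a ha).1, (g1 n b hb).2.1]
    refine ⟨δ / 2, half_pos hδ, fun s' hs2 hd => ?_⟩
    rw [Real.dist_eq, abs_lt] at hd
    rcases le_total s' s with h | h
    · exact (key s' hs2 s hs1 h (by linarith)).trans_lt (half_lt_self hε)
    · rw [dist_comm]; exact (key s hs1 s' hs2 h (by linarith)).trans_lt (half_lt_self hε)
  · have : z s₀ = (s₀, t₀) := tendsto_nhds_unique (hz2 s₀) (by simpa [g, X] using tendsto_const_nhds)
    simp [this]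

end

end Pool.Agent.Lib.MP_1e9af3_an
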