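import Pool.Agent.Lib.MP_1e9af3_an.Inv

/-! A ring cannot coexist with an isotopic annulus that is pushed outwards. -/

namespace Pool.Agent.Lib.MP_1e9af3_an

open Set Filter Topology Complex Metric OnePoint Polynomial

noncomputable section

lemma Mero.open_at {f : Sph → Sph} {p q : ℂ → ℂ} (hf : Mero f p q)
    (hn : ∀ c, ¬ ∀ z, p z = c * q z) {x : ℂ} (hq : q x ≠ 0) :
    𝓝 (f x) ≤ map (fun z : ℂ => f z) (𝓝 x) := by
  have h1 : ∀ᶠ z in 𝓝 x, q z ≠ 0 := hf.dq.continuous.continuousAt.eventually_ne hq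
  have h2 : AnalyticAt ℂ (fun z => p z / q z) x := (hf.dp.analyticAt x).div (hf.dq.analyticAt x) hq
  rcases h2.eventually_constant_or_nhds_le_map_nhds with h3 | h3
  · exfalso
    refine hn (p x / q x) fun z => ?_
    refine (hf.dp.differentiableOn.analyticOnNhd isOpen_univ).eqOn_of_preconnected_of_eventuallyEq
      ((hf.dq.const_mul (p x / q x)).differentiableOn.analyticOnNhd isOpen_univ)
      isPreconnected_univ (mem_univ x) ?_ (mem_univ z)
    filter_upwards [h1, h3] with w h4 h5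
    rw [← h5]; field_simp
  · rw [hf.of_ne hq, nhds_coe_eq]
    refine (map_mono h3).trans_eq ?_
    rw [map_map]
    exact Filter.map_congr (by filter_upwards [h1] with v hv using (hf.of_ne hv).symm)

lemma comp_onto {f : Sph → Sph} (hf : Continuous f) {D : Set ℂ} (hD : IsOpen D)
    (hb : Bornology.IsBounded D) {W : Set Sph} (hW : IsPreconnected W) (hm : ∀ z ∈ D, f z ∈ W)
    (hc : ∀ x ∈ closure D, f x ∈ W → x ∈ D)
    (ho : ∀ x ∈ D, 𝓝 (f x) ≤ map (fun z : ℂ => f z) (𝓝 x)) {z : ℂ} (hz : z ∈ D) :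
    W ⊆ (fun z : ℂ => f z) '' connectedComponentIn D z := by
  have hs := connectedComponentIn_subset D z
  refine hW.subset_of_closure_inter_subset (isOpen_iff_mem_nhds.2 ?_)
    ⟨_, hm z hz, z, mem_connectedComponentIn hz, rfl⟩ ?_
  · rintro _ ⟨x, hx, rfl⟩
    exact ho x (hs hx) (image_mem_map (hD.connectedComponentIn.mem_nhds hx))
  · rintro y ⟨h1, h2⟩
    obtain ⟨x, hx, rfl⟩ := (((hb.subset hs).isCompact_closure.image
      (hf.comp continuous_coe)).isClosed.closure_subset_iff.2 (image_mono subset_closure)) h1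
    exact ⟨x, mem_of_closure_component hx (hc x (closure_mono hs hx) h2) hz, rfl⟩

lemma Emb.side_bounded {χ : ℂ → ℂ} {a b r : ℝ} (h : Emb χ a b) (hr : r ∈ Ioo a b) :
    Bornology.IsBounded (side χ r 1) := by
  obtain ⟨M, -, hM⟩ := h.exists_bound hr
  refine (isBounded_ball (x := (0:ℂ)) (r := M)).subset fun z hz => ?_
  rw [mem_ball_zero_iff]
  by_contra hn
  have := (hM z (not_lt.1 hn)).2
  rw [hz.2] at this; exact one_ne_zero this

lemma Emb.tri {χ : ℂ → ℂ} {a b r : ℝ} (h : Emb χ a b) (hr : r ∈ Ioo a b) (h0 : nout χ a b = 0)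
    (z : ℂ) : z ∈ χ '' sphere 0 r ∨ z ∈ side χ r 1 ∨ z ∈ side χ r 0 := by
  by_cases hz : z ∈ χ '' sphere 0 r
  · exact Or.inl hz
  · have := h.ind_cases hr hz
    rw [h0] at this
    exact Or.inr (this.imp (fun h => ⟨hz, h⟩) fun h => ⟨hz, h⟩)

lemma side_disj {χ : ℂ → ℂ} {r : ℝ} {z : ℂ} (h1 : z ∈ side χ r 1) (h0 : z ∈ side χ r 0) : False := by
  have := h1.2.symm.trans h0.2; omega

lemma Emb.closure_side {χ : ℂ → ℂ} {a b r : ℝ} (h : Emb χ a b) (hr : r ∈ Ioo a b) {k : ℤ} {z : ℂ}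
    (hz : z ∈ closure (side χ r k)) : z ∈ χ '' sphere 0 r ∨ z ∈ side χ r k := by
  by_cases h1 : z ∈ χ '' sphere 0 r
  · exact Or.inl h1
  · obtain ⟨y, h2, h3⟩ := mem_closure_iff.1 hz _ (h.isOpen_side hr (ind χ r z)) ⟨h1, rfl⟩
    exact Or.inr ⟨h1, h2.2.symm.trans h3.2⟩

lemma Emb.sub_side {χ : ℂ → ℂ} {a b r : ℝ} (h : Emb χ a b) (hr : r ∈ Ioo a b) {k : ℤ} {S : Set ℂ}
    (hS : IsPreconnected S) (hd : ∀ z ∈ S, z ∉ χ '' sphere 0 r) {x : ℂ} (hx : x ∈ S)
    (hk : x ∈ side χ r k) : S ⊆ side χ r k :=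
  fun z hz => ⟨hd z hz, (h.ind_eq hr hS hd hz hx).trans hk.2⟩

lemma Lin.map_crv {f : Sph → Sph} {α : ℝ} {χ : ℂ → ℂ} {a b r : ℝ} (h : Lin f α χ a b)
    (hr : r ∈ Ioo a b) (θ : ℝ) : f (crv χ r θ : ℂ) = (crv χ r (θ + α) : ℂ) := by
  rw [crv, h.conj _ (circ_mem h.ha hr θ), crv]; congr 2
  push_cast; rw [ee_add]; ring

theorem crossing {f : Sph → Sph} {p q : ℂ → ℂ} (hf : Mero f p q)
    (hn : ∀ c, ¬ ∀ z, p z = c * q z) {α : ℝ} (hα : Irrational α) {χ : ℂ → ℂ} {a b r : ℝ}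
    (h : Lin f α χ a b) (hr : r ∈ Ioo a b) (h0 : nout χ a b = 0) (hL : (0:ℂ) ∈ side χ r 1)
    (hp0 : p 0 = 0) (hz : ∀ z ∈ side χ r 1, p z = 0 → z = 0) {U : Set ℂ} (hU : IsOpen U)
    (hUc : IsPreconnected U) (hU0 : (0:ℂ) ∈ U)
    (hb : ∀ x ∈ closure U, x ∉ U → ∀ y ∈ closure U, f x ≠ y) :
    χ '' sphere 0 r ⊆ U ∨ ∀ z ∈ U, z ∉ χ '' sphere 0 r := by
  have e := h.toEmb
  have hr0 : 0 < r := h.ha.trans_lt hr.1
  set γ := χ '' sphere 0 r with hγ
  have hγc : IsClosed γ := (e.isCompact_crv hr).isClosed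
  set W₀ := connectedComponentIn (U \ γ) 0 with hW₀
  have m0 : (0:ℂ) ∈ U \ γ := ⟨hU0, hL.1⟩
  have W₀s : W₀ ⊆ U \ γ := connectedComponentIn_subset _ _
  have W₀o : IsOpen W₀ := (hU.sdiff hγc).connectedComponentIn
  have W₀L : W₀ ⊆ side χ r 1 := e.sub_side hr isPreconnected_connectedComponentIn
    (fun z hz => (W₀s hz).2) (mem_connectedComponentIn m0) hL
  set D := {z : ℂ | z ∈ side χ r 1 ∧ f z ∈ ((↑) '' W₀ : Set Sph)} with hD
  have Do : IsOpen D := (e.isOpen_side hr 1).inter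
    ((isOpenMap_coe _ W₀o).preimage (hf.cont.comp continuous_coe))
  have f0 : f (0:ℂ) = (0:ℂ) := hf.eq_coe.2 (by simp [hp0])
  have D0 : (0:ℂ) ∈ D := ⟨hL, 0, mem_connectedComponentIn m0, f0.symm⟩
  set W' := connectedComponentIn D 0 with hW'
  have DW : D ⊆ W' := fun z hz' => by
    obtain ⟨x, hx, he⟩ := comp_onto hf.cont Do ((e.side_bounded hr).subset fun _ h => h.1)
      (isPreconnected_connectedComponentIn.image _ continuous_coe.continuousOn) (fun _ h => h.2)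
      (fun x hx hx' => ⟨(e.closure_side hr (closure_mono (fun _ h => h.1) hx)).resolve_left
        fun h1 => by
          obtain ⟨θ, rfl⟩ := exists_crv h1
          obtain ⟨y, hy, he⟩ := hx'
          rw [h.map_crv hr, coe_eq_coe] at he
          exact (W₀s hy).2 (he ▸ crv_mem hr0.le _), hx'⟩)
      (fun x hx => by obtain ⟨y, -, he⟩ := hx.2; exact hf.open_at hn (hf.q_ne he.symm)) hz'
      ⟨0, mem_connectedComponentIn m0, rfl⟩
    have hx0 : x = 0 := hz x (connectedComponentIn_subset _ _ hx).1 (by simpa using hf.eq_coe.1 he)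
    rw [hW', ← hx0, ← connectedComponentIn_eq hx]
    exact mem_connectedComponentIn hz'
  have W's : W' ⊆ D := connectedComponentIn_subset _ _
  have clf : ∀ x ∈ closure W', ∃ y ∈ closure U, f x = y := fun x hx => by
    have h1 : IsClosed ((↑) '' closure W₀ : Set Sph) :=
      (((e.side_bounded hr).subset W₀L).isCompact_closure.image continuous_coe).isClosed
    obtain ⟨y, hy, he⟩ := (h1.preimage (hf.cont.comp continuous_coe)).closure_subset_iff.2
      (fun z hz => image_mono subset_closure (W's hz).2) hx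
    exact ⟨y, closure_mono (fun _ h => (W₀s h).1) hy, he.symm⟩
  have W'U : W' ⊆ U := isPreconnected_connectedComponentIn.subset_of_closure_inter_subset hU
    ⟨0, mem_connectedComponentIn D0, hU0⟩ fun x hx => by
      by_contra h1
      obtain ⟨y, hy, he⟩ := clf x (subset_closure hx.2)
      exact hb x hx.1 h1 y hy he
  have clU : closure W' ⊆ U := fun x hx => by
    by_contra h1
    obtain ⟨y, hy, he⟩ := clf x hx
    exact hb x (closure_mono W'U hx) h1 y hy he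
  have W'W : W' ⊆ W₀ := isPreconnected_connectedComponentIn.subset_connectedComponentIn
    (mem_connectedComponentIn D0) fun z hz => ⟨W'U hz, (W's hz).1.1⟩
  have key : ∀ θ, crv χ r θ ∈ U → crv χ r θ ∈ closure W₀ → crv χ r (θ + -α) ∈ closure W' := by
    intro θ h1 h2
    have hw := circ_mem h.ha hr θ
    set w := (r : ℂ) * ee θ with hwdef
    have hwn : ‖w‖ = r := norm_circ hr0.le θ
    obtain ⟨ε, hε, hball⟩ := Metric.eventually_nhds_iff_ball.1
      (((h.diff.differentiableAt ((isOpen_ann a b).mem_nhds hw)).continuousAt.eventually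
        (hU.mem_nhds h1)).and ((isOpen_ann a b).mem_nhds hw))
    have hin : ∀ v ∈ ball w ε ∩ ball 0 r, v ∈ ann a r := fun v hv =>
      ⟨(hball v hv.1).2.1, mem_ball_zero_iff.1 hv.2⟩
    have hH : χ '' (ball w ε ∩ ball 0 r) ⊆ W₀ := by
      obtain ⟨_, ⟨v, hv, rfl⟩, hv2⟩ := mem_closure_iff.1 h2 _
        (e.isOpen_image isOpen_ball fun v hv => (hball v hv).2) ⟨w, mem_ball_self hε, rfl⟩
      have hv3 : ‖v‖ < r := by
        rcases lt_trichotomy ‖v‖ r with h3 | h3 | h3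
        · exact h3
        · exact absurd ⟨v, mem_sphere_zero_iff_norm.2 h3, rfl⟩ (W₀s hv2).2
        · exact (side_disj (W₀L hv2) (h0 ▸ e.out_sub hr ⟨v, ⟨h3, (hball v hv).2.2⟩, rfl⟩)).elim
      rw [hW₀, connectedComponentIn_eq hv2]
      refine (((convex_ball w ε).inter (convex_ball 0 r)).isPreconnected.image _
        (h.diff.continuousOn.mono fun v hv => (hball v hv.1).2)).subset_connectedComponentIn
        ⟨v, ⟨hv, mem_ball_zero_iff.2 hv3⟩, rfl⟩ ?_
      rintro _ ⟨x, hx, rfl⟩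
      exact ⟨(hball x hx.1).1, (e.in_sub hr ⟨x, hin x hx, rfl⟩).1⟩
    have e1 : ee α * (r * ee ((θ + -α : ℝ) : ℂ)) = w := by
      rw [hwdef, mul_left_comm, ← ee_add]; congr 2; push_cast; ring
    refine closure_mono ?_ (e.crv_closure_in hr (norm_circ hr0.le (θ + -α))
      (V := (fun v => ee α * v) ⁻¹' ball w ε)
      ((show ContinuousAt (fun v => ee α * v) _ by fun_prop) (e1 ▸ ball_mem_nhds w hε)))
    rintro _ ⟨v, ⟨h3, h4⟩, rfl⟩
    refine DW ⟨by simpa [h0] using e.in_sub hr ⟨v, h4, rfl⟩, χ (ee α * v),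
      hH ⟨_, ⟨h3, ?_⟩, rfl⟩, (h.conj v (ann_mono le_rfl hr.2.le h4)).symm⟩
    simpa [norm_ee_real] using h4.2
  by_cases hA : ∃ θ, crv χ r θ ∈ closure W'
  · left
    obtain ⟨θ₀, h1⟩ := hA
    intro z hz
    obtain ⟨θ, rfl⟩ := exists_crv hz
    exact clU (closed_inv_eq_univ (A := {θ | crv χ r θ ∈ closure W'})
      (isClosed_closure.preimage (e.crv_cont hr)) hα.neg (fun θ => by simp [crv_per])
      (fun θ hθ => key θ (clU hθ) (closure_mono W'W hθ)) h1 θ)
  · right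
    have : U ⊆ W₀ := hUc.subset_of_closure_inter_subset W₀o ⟨0, hU0, mem_connectedComponentIn m0⟩
      fun x hx => mem_of_closure_component hx.1 ⟨hx.2, fun h1 => by
        obtain ⟨θ, rfl⟩ := exists_crv h1
        exact hA ⟨_, key θ hx.2 hx.1⟩⟩ m0
    exact fun z hz => (W₀s (this hz)).2

lemma count_roots {f : Sph → Sph} {P Q : ℂ[X]} (hf : Mero f P.eval Q.eval) {Γ Γ' : ℝ → ℂ}
    (hc : Continuous Γ) (hp : ∀ θ, Γ (θ + 1) = Γ θ) (he : ∀ θ, f (Γ θ) = Γ' θ) {w : ℂ}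
    (hL : Loop fun θ => Γ' θ - w) :
    ((P - C w * Q).roots.map fun z => wind (fun θ => Γ θ - z)).sum =
      wind (fun θ => Q.eval (Γ θ)) + wind (fun θ => Γ' θ - w) := by
  have e : ∀ θ, (P - C w * Q).eval (Γ θ) = Q.eval (Γ θ) * (Γ' θ - w) := fun θ => by
    simp only [eval_sub, eval_mul, eval_C, hf.eq_coe.1 (he θ)]; ring
  have LQ : Loop fun θ => Q.eval (Γ θ) :=
    ⟨Q.continuous.comp hc, fun θ => hf.q_ne (he θ), fun θ => by rw [hp]⟩
  rw [← wind_poly hc hp _ fun θ => by rw [e]; exact mul_ne_zero (LQ.ne θ) (hL.ne θ), ← wind_mul LQ hL]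
  simp only [e]

lemma mem_roots_iff {f : Sph → Sph} {P Q : ℂ[X]} (hf : Mero f P.eval Q.eval)
    (hn : ∀ c, ¬ ∀ z, P.eval z = c * Q.eval z) {w z : ℂ} :
    z ∈ (P - C w * Q).roots ↔ f z = w := by
  rw [mem_roots fun h => hn w fun z => by simpa [sub_eq_zero] using congrArg (eval z) h, hf.eq_coe]
  simp [sub_eq_zero]

lemma Lin.count {f : Sph → Sph} {P Q : ℂ[X]} (hf : Mero f P.eval Q.eval) {α : ℝ} {χ : ℂ → ℂ}
    {a b r : ℝ} (h : Lin f α χ a b) (hr : r ∈ Ioo a b) {w : ℂ} (hw : w ∉ χ '' sphere 0 r) :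
    ((P - C w * Q).roots.map (ind χ r)).sum =
      wind (fun θ => Q.eval (crv χ r θ)) + ind χ r w := by
  have := (h.toEmb.loop_sub hr hw).hasWind.shift α
  rw [ind, ← this.wind_eq]
  exact count_roots hf (h.toEmb.crv_cont hr) (crv_per χ r) (h.map_crv hr) this.loop

lemma sum_zero_nonneg {s : Multiset ℂ} {g : ℂ → ℤ} (h : ∀ z ∈ s, 0 ≤ g z) {x : ℂ} (hx : x ∈ s) :
    g x ≤ (s.map g).sum :=
  Multiset.single_le_sum (by
    intro y hy; obtain ⟨z, hz, rfl⟩ := Multiset.mem_map.1 hy; exact h z hz) _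
    (Multiset.mem_map_of_mem g hx)

lemma sum_two {s : Multiset ℂ} {g : ℂ → ℤ} (h : ∀ z ∈ s, 0 ≤ g z) {x y : ℂ} (hx : x ∈ s)
    (hy : y ∈ s) (hne : y ≠ x) : g x + g y ≤ (s.map g).sum := by
  rw [← Multiset.cons_erase hx, Multiset.map_cons, Multiset.sum_cons]
  exact add_le_add le_rfl (sum_zero_nonneg (fun z hz => h z (Multiset.mem_of_mem_erase hz))
    ((Multiset.mem_erase_of_ne hne).2 hy))

/-- An annulus that is pushed outwards. -/
structure Pushed (f : Sph → Sph) (q : ℂ → ℂ) (α : ℝ) (ψ : ℂ → ℂ) (ρ₁ ra r₀ rb ρ₂ : ℝ) (ε : ℂ) :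
    Prop extends Emb ψ ρ₁ ρ₂ where
  h1 : ρ₁ < ra
  h2 : ra < r₀
  h3 : r₀ < rb
  h4 : rb < ρ₂
  out : nout ψ ρ₁ ρ₂ = 0
  push : ∀ w, ra ≤ ‖w‖ → ‖w‖ ≤ rb → ∃ w' ∈ ann ‖w‖ ρ₂, f (ψ w : ℂ) = (ψ w' : ℂ)
  zero : ∀ r ∈ Icc ra rb, (0:ℂ) ∈ side ψ r 1
  eps : ε ∈ side ψ r₀ 1
  wq : wind (fun θ => q (crv ψ r₀ θ)) = 1
  hom : ∃ H : ℝ → ℝ → ℂ, ContinuousOn (fun x : ℝ × ℝ => H x.1 x.2) (Icc 0 1 ×ˢ univ) ∧
    (∀ s θ, H s (θ + 1) = H s θ) ∧ (∀ θ, H 0 θ = crv ψ r₀ (θ + α)) ∧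
    (∀ θ, f (crv ψ r₀ θ : ℂ) = (H 1 θ : ℂ)) ∧
    ∀ s ∈ Icc (0:ℝ) 1, ∀ θ, ∃ w, r₀ ≤ ‖w‖ ∧ ‖w‖ < rb ∧ H s θ = ψ w

theorem no_push {f : Sph → Sph} {P Q : ℂ[X]} (hf : Mero f P.eval Q.eval)
    (hn : ∀ c, ¬ ∀ z, P.eval z = c * Q.eval z) {α : ℝ} (hα : Irrational α) {χ : ℂ → ℂ} {a b : ℝ}
    (h : Lin f α χ a b) (hab : a < b) (ha : 0 < a) {z₀ : Sph}
    (hB : connectedComponentIn (fatou f) z₀ = (↑) '' (χ '' ann a b)) (h0 : nout χ a b = 0)
    (hp0 : P.eval 0 = 0) {ε : ℂ}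
    (hL : ∀ r ∈ Ioo a b, (0:ℂ) ∈ side χ r 1 ∧ (∀ z ∈ side χ r 1, P.eval z = 0 → z = 0) ∧
      (∀ z ∈ side χ r 1, Q.eval z = 0 → z = ε) ∧ wind (fun θ => Q.eval (crv χ r θ)) = 1)
    {ψ : ℂ → ℂ} {ρ₁ ra r₀ rb ρ₂ : ℝ} (k : Pushed f Q.eval α ψ ρ₁ ra r₀ rb ρ₂ ε) : False := by
  have e := h.toEmb
  have e' := k.toEmb
  have k1 := k.h1; have k2 := k.h2; have k3 := k.h3; have k4 := k.h4
  have hI : ∀ s ∈ Icc ra rb, s ∈ Ioo ρ₁ ρ₂ := fun s hs => ⟨by linarith [hs.1], by linarith [hs.2]⟩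
  have bd : ∀ s ∈ Icc ra rb, ∀ x ∈ ψ '' sphere 0 s, ∃ y ∈ side ψ s 0, f x = y := by
    rintro s hs _ ⟨w, hw, rfl⟩
    rw [mem_sphere_zero_iff_norm] at hw
    obtain ⟨w', h1, h2⟩ := k.push w (hw ▸ hs.1) (hw ▸ hs.2)
    exact ⟨_, k.out ▸ e'.out_sub (hI s hs) ⟨w', hw ▸ h1, rfl⟩, h2⟩
  have bd' : ∀ s ∈ Icc ra rb, ∀ x ∈ closure (side ψ s 1), x ∉ side ψ s 1 →
      ∀ y ∈ closure (side ψ s 1), f x ≠ y := fun s hs x hx hx' y hy he => by
    obtain ⟨y', h1, h2⟩ := bd s hs x ((e'.closure_side (hI s hs) hx).resolve_right hx')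
    rw [h2, coe_eq_coe] at he
    rcases e'.closure_side (hI s hs) hy with h3 | h3
    · exact h1.1 (he ▸ h3)
    · exact side_disj h3 (he ▸ h1)
  have cr : ∀ r ∈ Ioo a b, ∀ s ∈ Icc ra rb, χ '' sphere 0 r ⊆ side ψ s 1 ∨
      ∀ z ∈ side ψ s 1, z ∉ χ '' sphere 0 r := fun r hr s hs =>
    crossing hf hn hα h hr h0 (hL r hr).1 hp0 (hL r hr).2.1 (e'.isOpen_side (hI s hs) 1)
      (e'.isPreconnected_side (hI s hs) 1) (k.zero s hs) (bd' s hs)
  have dis : ∀ v ∈ ann a b, ∀ w ∈ ann ra rb, χ v ≠ ψ w := fun v hv w hw he => by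
    obtain ⟨w', h1, h2⟩ := k.push w hw.1.le hw.2.le
    obtain ⟨s, h3, h4⟩ := exists_between (lt_min h1.1 hw.2)
    rw [lt_min_iff] at h4
    have hs : s ∈ Icc ra rb := ⟨(hw.1.trans h3).le, h4.2.le⟩
    rcases cr _ hv s hs with h5 | h5
    · refine side_disj (h5 ⟨ee α * v, by simp [norm_ee_real], rfl⟩) ?_
      rw [← he, h.conj v hv, coe_eq_coe] at h2
      rw [h2]; exact k.out ▸ e'.out_sub (hI s hs) ⟨w', ⟨h4.1, h1.2⟩, rfl⟩
    · refine h5 (χ v) ?_ ⟨v, by simp, rfl⟩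
      rw [he]
      simpa [k.out] using e'.in_sub (hI s hs) ⟨w, ⟨k1.trans hw.1, h3⟩, rfl⟩
  obtain ⟨r, hr⟩ : ∃ r, r ∈ Ioo a b := exists_between hab
  obtain ⟨L0, -, Lq, Lw⟩ := hL r hr
  have m₀ : r₀ ∈ Icc ra rb := ⟨k2.le, k3.le⟩
  have i₀ := hI r₀ m₀
  set U := side ψ r₀ 1 with hU
  have Uo : IsOpen U := e'.isOpen_side i₀ 1
  have hcB : ∀ v ∈ ann a b, χ v ∉ ψ '' sphere 0 r₀ := by
    rintro v hv ⟨w, hw, he⟩
    exact dis v hv w (sphere_sub_ann ⟨k2, k3⟩ hw) he.symm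
  have hcγ : ∀ z ∈ ψ '' sphere 0 r₀, z ∉ χ '' sphere 0 r := by
    rintro _ hz ⟨v, hv, rfl⟩; exact hcB v (sphere_sub_ann hr hv) hz
  have Bp : IsPreconnected (χ '' ann a b) := (isPreconnected_ann h.ha b).image _ h.diff.continuousOn
  obtain ⟨H, H1, H2, H3, H4, H5⟩ := k.hom
  have cnt : ∀ w, (∀ v, r₀ ≤ ‖v‖ → ‖v‖ < rb → ψ v ≠ w) →
      ((P - C w * Q).roots.map (ind ψ r₀)).sum = 1 + ind ψ r₀ w := fun w hw => by
    have hne : ∀ s ∈ Icc (0:ℝ) 1, ∀ θ, H s θ - w ≠ 0 := fun s hs θ h1 => by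
      obtain ⟨v, h2, h3, h4⟩ := H5 s hs θ
      exact hw v h2 h3 (h4 ▸ sub_eq_zero.1 h1)
    have w1 := wind_homotopy (H := fun s θ => H s θ - w) isPreconnected_Icc (H1.sub continuousOn_const)
      hne (fun s _ θ => by rw [H2]) (s := 1) (t := 0) ⟨zero_le_one, le_rfl⟩ ⟨le_rfl, zero_le_one⟩
    have w2 := (e'.loop_sub i₀ (z := w) (by
      rintro ⟨v, hv, he⟩
      rw [mem_sphere_zero_iff_norm] at hv
      exact hw v hv.ge (hv ▸ k3) he)).hasWind.shift α
    simp only [H3] at w1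
    rw [w2.wind_eq] at w1
    have := count_roots hf (e'.crv_cont i₀) (crv_per ψ r₀) H4 (w := w)
      ⟨(H1.comp_continuous (f := fun θ => ((1:ℝ), θ)) (by fun_prop)
        fun _ => ⟨⟨zero_le_one, le_rfl⟩, trivial⟩).sub continuous_const,
        hne 1 ⟨zero_le_one, le_rfl⟩, fun θ => by rw [H2]⟩
    rw [k.wq, w1] at this
    exact this
  have cntU : ∀ w ∈ U, ∀ v, r₀ ≤ ‖v‖ → ‖v‖ < rb → ψ v ≠ w := fun w hw v h1 h2 he => by
    rcases h1.eq_or_lt with h3 | h3
    · exact hw.1 ⟨v, mem_sphere_zero_iff_norm.2 h3.symm, he⟩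
    · exact side_disj hw (he ▸ k.out ▸ e'.out_sub i₀ ⟨v, ⟨h3, h2.trans k4⟩, rfl⟩)
  have rootγ : ∀ w z : ℂ, w ∉ χ '' sphere 0 r → f z = w → z ∉ χ '' sphere 0 r := fun w z hw he hz => by
    obtain ⟨θ, rfl⟩ := exists_crv hz
    rw [h.map_crv hr, coe_eq_coe] at he
    exact hw (he ▸ crv_mem (h.ha.trans hr.1.le) _)
  rcases cr r hr r₀ m₀ with hγ | hγ
  · -- the ring lies inside
    have BU : χ '' ann a b ⊆ U := e'.sub_side i₀ Bp (by rintro _ ⟨v, hv, rfl⟩; exact hcB v hv)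
      ⟨_, circ_mem h.ha hr 0, rfl⟩ (hγ (crv_mem (h.ha.trans hr.1.le) 0))
    obtain ⟨M, hM0, hM⟩ := e.exists_bound hr
    obtain ⟨M', hM0', hM'⟩ := e'.exists_bound i₀
    have big1 : ((max M M' : ℝ) : ℂ) ∈ side χ r 0 := hM _ (by simp [le_abs, hM0.le])
    have big2 : ((max M M' : ℝ) : ℂ) ∈ side ψ r₀ 0 := hM' _ (by simp [le_abs, hM0'.le])
    have OR : side ψ r₀ 0 ⊆ side χ r 0 := e.sub_side hr (e'.isPreconnected_side i₀ 0)
      (fun z hz h1 => side_disj (hγ h1) hz) big2 big1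
    have LU : side χ r 1 ⊆ U := fun z hz => by
      rcases e'.tri i₀ k.out z with h1 | h1 | h1
      · obtain ⟨w, hw, rfl⟩ := h1
        have := closure_mono ((k.out ▸ e'.out_sub i₀).trans OR)
          (e'.crv_closure_out i₀ (mem_sphere_zero_iff_norm.1 hw))
        rcases e.closure_side hr this with h2 | h2
        · exact absurd h2 hz.1
        · exact (side_disj hz h2).elim
      · exact h1
      · exact (side_disj hz (OR h1)).elim
    set X := U ∩ side χ r 0 with hX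
    have Xo : IsOpen X := Uo.inter (e.isOpen_side hr 0)
    have uniq : ∀ w ∈ X, ∃! z, z ∈ X ∧ f z = w := fun w hw => by
      have c1 := cnt w (cntU w hw.1)
      have c2 := h.count hf hr hw.2.1
      rw [hw.1.2] at c1
      rw [Lw, hw.2.2] at c2
      have c3 : ((P - C w * Q).roots.map fun z => ind ψ r₀ z - ind χ r z).sum = 1 := by
        rw [Multiset.sum_map_sub, c1, c2]; norm_num
      have c4 : ∀ z ∈ (P - C w * Q).roots, (z ∈ X ∧ ind ψ r₀ z - ind χ r z = 1) ∨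
          ind ψ r₀ z - ind χ r z = 0 := fun z hz => by
        rw [mem_roots_iff hf hn] at hz
        rcases e.tri hr h0 z with h1 | h1 | h1
        · exact absurd h1 (rootγ w z hw.2.1 hz)
        · right; rw [h1.2, (LU h1).2]; rfl
        · rcases e'.tri i₀ k.out z with h2 | h2 | h2
          · obtain ⟨y, h3, h4⟩ := bd r₀ m₀ z h2
            rw [hz, coe_eq_coe] at h4
            exact (side_disj hw.1 (h4 ▸ h3)).elim
          · left; exact ⟨⟨h2, h1⟩, by rw [h1.2, h2.2]; rfl⟩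
          · right; rw [h1.2, h2.2]; rfl
      have c5 : ∀ z ∈ (P - C w * Q).roots, 0 ≤ ind ψ r₀ z - ind χ r z := fun z hz => by
        rcases c4 z hz with h1 | h1
        · omega
        · omega
      have ex : ∃ z, z ∈ X ∧ f z = w := by
        by_contra hne
        rw [Multiset.sum_eq_zero] at c3
        · exact zero_ne_one c3
        · intro y hy
          obtain ⟨z, hz, rfl⟩ := Multiset.mem_map.1 hy
          exact (c4 z hz).resolve_left fun h1 => hne ⟨z, h1.1, (mem_roots_iff hf hn).1 hz⟩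
      obtain ⟨z, hz⟩ := ex
      refine ⟨z, hz, fun y hy => by_contra fun hne => ?_⟩
      have := sum_two c5 ((mem_roots_iff hf hn).2 hz.2) ((mem_roots_iff hf hn).2 hy.2) hne
      rw [c3, hz.1.1.2, hz.1.2.2, hy.1.1.2, hy.1.2.2] at this
      omega
    choose! j hj hju using uniq
    set X' := {z : ℂ | z ∈ X ∧ f z ∈ ((↑) '' X : Set Sph)} with hX'
    have X'o : IsOpen X' := Xo.inter ((isOpenMap_coe _ Xo).preimage (hf.cont.comp continuous_coe))
    have hq' : ∀ z ∈ X', Q.eval z ≠ 0 := fun z hz => by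
      obtain ⟨y, -, he⟩ := hz.2; exact hf.q_ne he.symm
    have jl : ∀ z ∈ X', j (P.eval z / Q.eval z) = z := fun z hz => by
      obtain ⟨y, hy, he⟩ := hz.2
      rw [hf.eq_div he.symm]; exact (hju y hy z ⟨hz.1, he.symm⟩).symm
    have dj : DifferentiableOn ℂ j X := fun w hw => by
      have := inv_analyticAt (f := fun z => P.eval z / Q.eval z) X'o
        (hf.dp.differentiableOn.div hf.dq.differentiableOn hq')
        (fun x hx y hy he => by rw [← jl x hx, ← jl y hy]; exact congrArg j he) jl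
        (z := j w) ⟨(hj w hw).1, w, hw, (hj w hw).2.symm⟩
      simp only [hf.eq_div (hj w hw).2] at this
      exact this.differentiableAt.differentiableWithinAt
    have jm : MapsTo j X X := fun w hw => (hj w hw).1
    have CX : χ '' ann r b ⊆ X := fun z hz =>
      ⟨BU (image_mono (ann_mono hr.1.le le_rfl) hz), h0 ▸ e.out_sub hr hz⟩
    have jχ : ∀ n, ∀ v ∈ ann r b, j^[n] (χ v) = χ ((ee α ^ n)⁻¹ * v) := fun n v hv => by
      induction n with
      | zero => simp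
      | succ n ih =>
        have m1 := rot_mem (ρ := (ee α ^ n)⁻¹) (by simp [norm_ee_real]) hv
        have m2 := rot_mem (ρ := (ee α ^ (n + 1))⁻¹) (by simp [norm_ee_real]) hv
        rw [Function.iterate_succ_apply', ih]
        refine (hju _ (CX ⟨_, m1, rfl⟩) _ ⟨CX ⟨_, m2, rfl⟩, ?_⟩).symm
        rw [h.conj _ (ann_mono hr.1.le le_rfl m2)]
        congr 2
        have := ee_ne (α : ℂ)
        field_simp
        ring
    obtain ⟨𝒰, hU1⟩ := exists_recurrent_ultrafilter hα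
    obtain ⟨R, hR⟩ := (e'.side_bounded i₀).exists_norm_le
    obtain ⟨g, g1, -, g3⟩ := montel 𝒰 Xo (F := fun n => j^[n + 1]) (M := R)
      (fun n => dj.iterate jm _) fun n z hz => hR _ (jm.iterate _ hz).1
    have m1 := mid_mem (h.ha.trans hr.1.le) hr.2
    set Y := connectedComponentIn X (χ ((r + b) / 2 : ℝ)) with hY
    have Ys : Y ⊆ X := connectedComponentIn_subset _ _
    have gid := ident Xo.connectedComponentIn isPreconnected_connectedComponentIn (g1.mono Ys)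
      differentiableOn_id (e.isOpen_image (isOpen_ann r b) (ann_mono hr.1.le le_rfl))
      (((isPreconnected_ann (h.ha.trans hr.1.le) b).image _ (h.diff.continuousOn.mono
        (ann_mono hr.1.le le_rfl))).subset_connectedComponentIn ⟨_, m1, rfl⟩ CX) ⟨_, _, m1, rfl⟩
      (by
        rintro _ ⟨v, hv, rfl⟩
        refine tendsto_nhds_unique (g3 _ (CX ⟨v, hv, rfl⟩)) ?_
        simp only [jχ _ v hv]
        refine (h.diff.differentiableAt ((isOpen_ann a b).mem_nhds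
          (ann_mono hr.1.le le_rfl hv))).continuousAt.tendsto.comp ?_
        simpa using (hU1.inv₀ one_ne_zero).mul_const v)
    have Zc : IsClosed {z : ℂ | z ∈ closure U ∧ f z ∈ ((↑) '' closure U : Set Sph)} :=
      isClosed_closure.inter ((((e'.side_bounded i₀).isCompact_closure.image
        continuous_coe).isClosed).preimage (hf.cont.comp continuous_coe))
    have YZ : closure Y ⊆ U := fun x hx => by
      obtain ⟨h1, y, h2, h3⟩ := Zc.closure_subset_iff.2 (fun y hy => by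
        have := g3 y (Ys hy)
        rw [gid y hy] at this
        refine Zc.mem_of_tendsto this (Eventually.of_forall fun n => ?_)
        rw [Function.iterate_succ_apply']
        have h4 := jm.iterate n (Ys hy)
        exact ⟨subset_closure (jm h4).1, _, subset_closure h4.1, (hj _ h4).2.symm⟩) hx
      by_contra h4
      exact bd' r₀ m₀ x h1 h4 y h2 h3.symm
    have := (e.isPreconnected_side hr 0).subset_of_closure_inter_subset Xo.connectedComponentIn
      ⟨_, (CX ⟨_, m1, rfl⟩).2, mem_connectedComponentIn (CX ⟨_, m1, rfl⟩)⟩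
      (fun x hx => mem_of_closure_component hx.1 ⟨YZ hx.1, hx.2⟩ (CX ⟨_, m1, rfl⟩)) big1
    exact side_disj (Ys this).1 big2
  · -- the ring lies outside
    have UL : U ⊆ side χ r 1 := e.sub_side hr (e'.isPreconnected_side i₀ 1) hγ (k.zero r₀ m₀) L0
    have NL : ψ '' ann ra rb ⊆ side χ r 1 := e.sub_side hr
      ((isPreconnected_ann (k.ha.trans k1.le) rb).image _
        (k.diff.continuousOn.mono (ann_mono k1.le k4.le)))
      (by rintro _ ⟨w, hw, rfl⟩ ⟨v, hv, he⟩; exact dis v (sphere_sub_ann hr hv) w hw he)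
      ⟨_, ann_mono le_rfl k3.le (mid_mem (k.ha.trans k1.le) k2), rfl⟩
      (UL (by simpa [k.out] using e'.in_sub i₀ ⟨_, ann_mono k1.le le_rfl
        (mid_mem (k.ha.trans k1.le) k2), rfl⟩))
    set O := side χ r 1 ∩ side ψ r₀ 0 with hO
    have Oo : IsOpen O := (e.isOpen_side hr 1).inter (e'.isOpen_side i₀ 0)
    have hq' : ∀ z ∈ O, Q.eval z ≠ 0 := fun z hz h1 => side_disj k.eps (Lq z hz.1 h1 ▸ hz.2)
    have nRU : ∀ z ∈ O, ∀ w : ℂ, f z = w → w ∉ side χ r 0 ∧ w ∉ U := fun z hz w he => by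
      have gen : w ∉ χ '' sphere 0 r → (∀ v, r₀ ≤ ‖v‖ → ‖v‖ < rb → ψ v ≠ w) →
          ind χ r w ≠ ind ψ r₀ w := fun a1 a2 a3 => by
        have c1 := cnt w a2
        have c2 := h.count hf hr a1
        have c3 : ((P - C w * Q).roots.map fun z => ind χ r z - ind ψ r₀ z).sum = 0 := by
          rw [Multiset.sum_map_sub, c1, c2, Lw, a3, sub_self]
        have := sum_zero_nonneg (g := fun z => ind χ r z - ind ψ r₀ z) (fun x hx => by
          rw [mem_roots_iff hf hn] at hx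
          rcases e'.tri i₀ k.out x with h2 | h2 | h2
          · obtain ⟨θ, rfl⟩ := exists_crv h2
            obtain ⟨v, h3, h4, h5⟩ := H5 1 ⟨zero_le_one, le_rfl⟩ θ
            rw [H4, coe_eq_coe, h5] at hx
            exact absurd hx (a2 v h3 h4)
          · rw [h2.2, (UL h2).2]; rfl
          · rw [h2.2]
            rcases e.tri hr h0 x with h1 | h1 | h1
            · exact absurd h1 (rootγ w x a1 hx)
            · rw [h1.2]; norm_num
            · rw [h1.2]; rfl) ((mem_roots_iff hf hn).2 he)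
        rw [c3, hz.1.2, hz.2.2] at this
        omega
      refine ⟨fun hw => ?_, fun hw => gen (hγ w hw) (cntU w hw) (by rw [hw.2, (UL hw).2])⟩
      have a2 : ∀ v, r₀ ≤ ‖v‖ → ‖v‖ < rb → ψ v ≠ w := fun v h1 h2 h3 =>
        side_disj (NL ⟨v, ⟨k2.trans_le h1, h2⟩, h3⟩) hw
      refine gen hw.1 a2 ?_
      rcases e'.tri i₀ k.out w with ⟨v, h2, h3⟩ | h2 | h2
      · rw [mem_sphere_zero_iff_norm] at h2
        exact absurd h3 (a2 v h2.ge (h2 ▸ k3))
      · exact (side_disj (UL h2) hw).elim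
      · rw [hw.2, h2.2]
    have fO : ∀ z ∈ O, ∃ y ∈ O, f z = y := fun z hz => by
      refine ⟨P.eval z / Q.eval z, ?_, hf.of_ne (hq' z hz)⟩
      have h1 : ∀ᶠ w in 𝓝 (P.eval z / Q.eval z), w ∉ side χ r 0 ∧ w ∉ U := by
        have := hf.open_at hn (hq' z hz) (image_mem_map (Oo.mem_nhds hz))
        rw [hf.of_ne (hq' z hz)] at this
        filter_upwards [continuous_coe.continuousAt this]
        rintro w ⟨x, hx, he⟩
        exact nRU x hx w he
      constructor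
      · rcases e.tri hr h0 (P.eval z / Q.eval z) with ⟨v, h2, h3⟩ | h2 | h2
        · obtain ⟨y, h4, h5⟩ := mem_closure_iff_nhds.1
            (h3 ▸ e.crv_closure_out hr (mem_sphere_zero_iff_norm.1 h2)) _ h1
          exact absurd (h0 ▸ e.out_sub hr h5) h4.1
        · exact h2
        · exact absurd h2 h1.self_of_nhds.1
      · rcases e'.tri i₀ k.out (P.eval z / Q.eval z) with ⟨v, h2, h3⟩ | h2 | h2
        · obtain ⟨y, h4, h5⟩ := mem_closure_iff_nhds.1
            (h3 ▸ e'.crv_closure_in i₀ (mem_sphere_zero_iff_norm.1 h2) univ_mem) _ h1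
          rw [univ_inter] at h5
          exact absurd (by simpa [k.out] using e'.in_sub i₀ h5) h4.2
        · exact absurd h2 h1.self_of_nhds.2
        · exact h2
    obtain ⟨R, hR⟩ := (e.side_bounded hr).exists_norm_le
    have OF : (↑) '' O ⊆ fatou f := hf.fatou_of_orbit Oo (R := R) fun n z hz => by
      have : ∃ y ∈ O, f^[n] z = y := by
        induction n with
        | zero => exact ⟨z, hz, rfl⟩
        | succ n ih =>
          obtain ⟨y, hy, he⟩ := ih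
          rw [Function.iterate_succ_apply', he]; exact fO y hy
      obtain ⟨y, hy, he⟩ := this
      exact ⟨y, he, hR y hy.1⟩
    have BO : χ '' ann a b ⊆ side ψ r₀ 0 := by
      have m := crv_mem (χ := χ) (h.ha.trans hr.1.le) 0
      refine e'.sub_side i₀ Bp (by rintro _ ⟨v, hv, rfl⟩; exact hcB v hv)
        ⟨_, circ_mem h.ha hr 0, rfl⟩ ?_
      rcases e'.tri i₀ k.out (crv χ r 0) with h1 | h1 | h1
      · exact absurd m (hcγ _ h1)
      · exact absurd m (hγ _ h1)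
      · exact h1
    have hclosed : closure (χ '' ann a r) ⊆ χ '' ann a b := fun x hx => by
      rcases e.closure_side hr (closure_mono (e.in_sub hr) hx) with h1 | h1
      · exact image_mono (sphere_sub_ann hr) h1
      rw [h0, zero_add] at h1
      rcases e'.closure_side i₀ (closure_mono ((image_mono (ann_mono le_rfl hr.2.le)).trans BO) hx)
        with ⟨v, h2, h3⟩ | h2
      · obtain ⟨_, ⟨w, h4, h5⟩, u, h6, rfl⟩ := mem_closure_iff.1 hx _
          (e'.isOpen_image (isOpen_ann ra rb) (ann_mono k1.le k4.le))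
          ⟨v, sphere_sub_ann ⟨k2, k3⟩ h2, h3⟩
        exact absurd h5.symm (dis u (ann_mono le_rfl hr.2.le h6) w h4)
      · have hz₀ : z₀ ∈ fatou f := by
          by_contra h5
          rw [connectedComponentIn_eq_empty h5] at hB
          exact (hB ▸ ⟨_, ⟨_, circ_mem h.ha hr 0, rfl⟩, rfl⟩ : (crv χ r 0 : Sph) ∈ (∅ : Set Sph))
        have := mem_of_closure_component (F := fatou f) (z := z₀) (x := (x : Sph))
          (hB ▸ mem_closure_image continuous_coe.continuousAt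
            (closure_mono (image_mono (ann_mono le_rfl hr.2.le)) hx)) (OF ⟨x, ⟨h1, h2⟩, rfl⟩) hz₀
        rw [hB] at this
        obtain ⟨y, hy, he⟩ := this
        rwa [← coe_eq_coe.1 he]
    have hK : IsCompact (closure (χ '' ann a r)) :=
      ((e.side_bounded hr).subset (by simpa [h0] using e.in_sub hr)).isCompact_closure
    have hl : ∀ w ∈ ann a b, Function.invFunOn χ (ann a b) (χ w) = w :=
      fun w hw => h.inj.leftInvOn_invFunOn hw
    obtain ⟨x, hx, hmin⟩ := hK.exists_isMinOn (f := fun z => ‖Function.invFunOn χ (ann a b) z‖)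
      ⟨_, subset_closure ⟨_, mid_mem h.ha hr.1, rfl⟩⟩ fun z hz => by
        obtain ⟨w, hw, rfl⟩ := hclosed hz
        exact (continuousAt_inv_of_injOn (isOpen_ann a b) h.diff h.inj hl hw).norm.continuousWithinAt
    obtain ⟨w, hw, rfl⟩ := hclosed hx
    obtain ⟨s, h1, h2⟩ := exists_between (lt_min hw.1 hr.1)
    rw [lt_min_iff] at h2
    have := hmin (subset_closure ⟨_, circ_mem h.ha ⟨h1, h2.2⟩ 0, rfl⟩)
    simp only [mem_setOf_eq, hl w hw, hl _ (circ_mem h.ha ⟨h1, h2.2.trans hr.2⟩ 0),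
      norm_circ (ha.trans h1).le] at this
    linarith [h2.1]

end

end Pool.Agent.Lib.MP_1e9af3_an
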