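import Pool.Agent.Lib.MP_1e9af3_an.Path
import Pool.Agent.Lib.MP_1e9af3_an.Push

/-! Multiplicative KAM and local persistence of a ring. -/

namespace Pool.Agent.Lib.MP_1e9af3_an

open Set Filter Topology Complex Metric OnePoint

noncomputable section

/-- Radius at a given height. -/
def ri (σ : ℝ) : ℝ := Real.exp (-(2 * Real.pi * σ))

lemma ri_pos (σ : ℝ) : 0 < ri σ := Real.exp_pos _

lemma ri_lt {a b : ℝ} (h : a < b) : ri b < ri a := by
  have := Real.pi_pos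
  exact Real.exp_lt_exp.2 (by nlinarith)

lemma ri_le {a b : ℝ} (h : a ≤ b) : ri b ≤ ri a := by
  have := Real.pi_pos
  exact Real.exp_le_exp.2 (by nlinarith)

lemma ri_zero : ri 0 = 1 := by simp [ri]

lemma one_mem_ri {σ : ℝ} (h : 0 < σ) : (1:ℝ) ∈ Ioo (ri σ) (ri (-σ)) :=
  ⟨ri_zero ▸ ri_lt h, ri_zero ▸ ri_lt (neg_lt_zero.2 h)⟩

/-- Symmetric annulus. -/
abbrev sann (σ : ℝ) : Set ℂ := ann (ri σ) (ri (-σ))

lemma ee_mem_sann {σ : ℝ} {x : ℂ} : ee x ∈ sann σ ↔ x ∈ strip (-σ) σ := ee_mem_ann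

lemma sann_mono {σ σ' : ℝ} (h : σ ≤ σ') : sann σ ⊆ sann σ' :=
  ann_mono (ri_le h) (ri_le (neg_le_neg h))

lemma real_mem_strip {σ : ℝ} (h : 0 < σ) (θ : ℝ) : (θ:ℂ) ∈ strip (-σ) σ := by
  simp [strip, h]

lemma one_mem_sann {σ : ℝ} (h : 0 < σ) : (1:ℂ) ∈ sann σ := by
  simpa [ann] using one_mem_ri h

lemma diffOn_div {E : Type*} [NormedAddCommGroup E] [NormedSpace ℂ E] {f g : E → ℂ} {s : Set E}
    (hf : DifferentiableOn ℂ f s) (hg : DifferentiableOn ℂ g s) (hne : ∀ x ∈ s, g x ≠ 0) :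
    DifferentiableOn ℂ (fun x => f x / g x) s := by
  simp only [div_eq_mul_inv]; exact hf.mul (hg.inv hne)

/-- Output of the KAM scheme at one parameter. -/
structure KD (α σ η : ℝ) (φ u : ℂ → ℂ) (l : ℂ) : Prop where
  near : Near σ η u
  bl : ‖l‖ ≤ η
  eq : ∀ x ∈ strip (-σ) σ,
    ee α * ee (x + u x) * φ (ee (x + u x)) * ee l = ee (x + α + u (x + α))
  zero : ∀ ω : ℝ → ℂ, HasWind ω 1 → (∀ θ, ω θ ∈ sann (σ - 4 * η)) →
    (∀ θ, ee α * ω θ * φ (ω θ) = ω (θ + α)) → l = 0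

theorem kamM {α c : ℝ} {τ : ℕ} (hα : SD α c τ) {σ σ₀ η : ℝ} (h₁ : 0 < σ) (hη : 0 < η)
    (h₀ : σ + 6 * η < σ₀) : ∃ δ > 0, ∀ (X : Type) [TopologicalSpace X] (C : Curves X)
      (φ : X → ℂ → ℂ), (∀ p, DifferentiableOn ℂ (φ p) (sann σ₀)) →
      ContinuousOn (fun q : X × ℂ => φ q.1 q.2) (univ ×ˢ sann σ₀) →
      (∀ i, DifferentiableOn ℂ (fun q : ℂ × ℂ => φ (C.τ i q.1) q.2) (C.D i ×ˢ sann σ₀)) →
      (∀ p, ∀ w ∈ sann σ₀, ‖φ p w - 1‖ ≤ δ) →
      ∃ u l, Reg C σ u ∧ RegP C l ∧ ∀ p, KD α σ η (φ p) (u p) (l p) := by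
  obtain ⟨ε, hε, H⟩ := kam hα (σ₁ := σ + 6 * η) (by positivity) h₀ hη
  refine ⟨min ε (1 / 2), by positivity, fun X _ C φ d1 d2 d3 hb => ?_⟩
  have hb1 : ∀ p, ∀ x ∈ strip (-σ₀) σ₀, ‖φ p (ee x) - 1‖ ≤ 1 / 2 := fun p x hx =>
    (hb p _ (ee_mem_sann.2 hx)).trans (min_le_right _ _)
  have sl : ∀ p, ∀ x ∈ strip (-σ₀) σ₀, φ p (ee x) ∈ slitPlane := fun p x hx => by
    simpa using mem_slit_of_close (a := 1) ((hb1 p x hx).trans_lt (by norm_num))
  let g : X → ℂ → ℂ := fun p x => log (φ p (ee x)) / tpi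
  have bg : ∀ p, ∀ x ∈ strip (-σ₀) σ₀, ‖g p x‖ ≤ min ε (1 / 2) := fun p x hx => by
    have h1 := norm_log_one_add_half_le_self (hb1 p x hx)
    have h2 := hb p _ (ee_mem_sann.2 hx)
    rw [add_sub_cancel] at h1
    simp only [g, norm_div, norm_tpi]
    rw [div_le_iff₀ (by positivity)]
    have := Real.pi_gt_three
    have : 0 < min ε (1 / 2) := by positivity
    nlinarith
  have de : Differentiable ℂ ee := fun x => (hasDerivAt_ee x).differentiableAt
  have hj : ∀ i, DifferentiableOn ℂ (fun q : ℂ × ℂ => g (C.τ i q.1) q.2)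
      (C.D i ×ˢ strip (-σ₀) σ₀) := fun i =>
    diffOn_div (((d3 i).comp (s := C.D i ×ˢ strip (-σ₀) σ₀) (f := fun q : ℂ × ℂ => (q.1, ee q.2))
      (by fun_prop) fun q hq => ⟨hq.1, ee_mem_sann.2 hq.2⟩).clog fun q hq => sl _ _ hq.2)
      (differentiableOn_const _) fun _ _ => tpi_ne
  have rg : Reg C σ₀ g := ⟨fun p => (((d1 p).comp de.differentiableOn
      fun x hx => ee_mem_sann.2 hx).clog (sl p)).div_const _,
    fun p x _ => by simp only [g, ee_add_one],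
    ((d2.comp (f := fun q : X × ℂ => (q.1, ee q.2))
      (continuous_fst.prodMk (de.continuous.comp continuous_snd)).continuousOn
      fun q hq => ⟨hq.1, ee_mem_sann.2 hq.2⟩).clog fun q hq => sl _ _ hq.2).div_const _,
    fun i x hx => (hj i).comp (f := fun t : ℂ => (t, x)) (by fun_prop) fun t ht => ⟨ht, hx⟩⟩
  obtain ⟨u, l, ru, rl, bu, bl, he⟩ := H X C g rg hj fun p x hx =>
    (bg p x hx).trans (min_le_left _ _)
  have eg : ∀ p, ∀ x ∈ strip (-σ₀) σ₀, ee (g p x) = φ p (ee x) := fun p x hx =>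
    ee_log (slitPlane_ne_zero (sl p x hx))
  refine ⟨u, l, ru.mono (by linarith), rl, fun p => ?_⟩
  have hn : Near σ η (u p) := near_of_bound hη (ru.diff p) (ru.per p) (bu p)
  have hG : ∀ x ∈ strip (-σ) σ, (x + u p x + α + g p (x + u p x)) + l p = x + α + u p (x + α) :=
    fun x hx => by
      have := he p x (strip_mono (by linarith) (by linarith) hx)
      rw [err] at this
      linear_combination this
  refine ⟨hn, bl p, fun x hx => ?_, fun ω hω hm hc => ?_⟩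
  · rw [← hG x hx, ← eg p _ (add_mem_strip hx (hn.bu x hx) (by linarith))]
    simp only [ee_add]; ring
  · obtain ⟨ψ, c1, c2, c3⟩ := hω
    have hm' : ∀ θ, ψ θ ∈ strip (-(σ - 4 * η)) (σ - 4 * η) := fun θ =>
      ee_mem_sann.1 (c2 θ ▸ hm θ)
    have hm0 : ∀ θ, ψ θ ∈ strip (-σ₀) σ₀ := fun θ => strip_mono (by linarith) (by linarith) (hm' θ)
    have cg : Continuous fun θ => g p (ψ θ) :=
      (rg.diff p).continuousOn.comp_continuous c1 hm0
    have hi : ∀ θ, ∃ n : ℤ, ψ θ + α + g p (ψ θ) - ψ (θ + α) = n := fun θ => by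
      obtain ⟨n, hn⟩ := ee_eq_iff.1 (show ee (ψ θ + α + g p (ψ θ)) = ee (ψ (θ + α)) by
        rw [c2, ← hc, ee_add, ee_add, eg p _ (hm0 θ), c2]; ring)
      exact ⟨n, by rw [hn]; ring⟩
    obtain ⟨n, hn0⟩ := hi 0
    have hn1 : ∀ θ, ψ θ + α + g p (ψ θ) - ψ (θ + α) = n := fun θ =>
      (int_const isPreconnected_univ (g := fun θ => ψ θ + α + g p (ψ θ) - ψ (θ + α))
        (((c1.add continuous_const).add cg).sub (by fun_prop)).continuousOn
        (fun θ _ => hi θ) (mem_univ θ) (mem_univ 0)).trans hn0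
    have h2 := intervalIntegral.norm_integral_le_of_norm_le_const (a := 0) (b := 1)
      (f := fun θ => n + (ψ (θ + α) - ψ θ) - α) (C := 1 / 2) fun θ _ => by
        rw [show n + (ψ (θ + α) - ψ θ) - α = g p (ψ θ) by rw [← hn1 θ]; ring]
        exact (bg p _ (hm0 θ)).trans (min_le_right _ _)
    have i1 : IntervalIntegrable (fun θ => ψ (θ + α) - ψ θ) MeasureTheory.volume 0 1 :=
      (show Continuous fun θ => ψ (θ + α) - ψ θ by fun_prop).intervalIntegrable _ _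
    rw [intervalIntegral.integral_sub (IntervalIntegrable.add (by simp) i1) (by simp),
      intervalIntegral.integral_add (by simp) i1, avg_shift c1 c3] at h2
    have h3 : |(n:ℝ)| ≤ 1 / 2 := by simpa using h2
    have h4 : n = 0 := by
      have : |n| < 1 := by exact_mod_cast h3.trans_lt (by norm_num : (1 / 2 : ℝ) < 1)
      exact Int.abs_lt_one_iff.1 this
    exact hn.counter_zero (G := fun y => y + α + g p y) hG c1 (by simpa using c3) hm' fun θ => by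
      have := hn1 θ
      rw [h4] at this
      simpa [sub_eq_zero] using this

/-- The linearising map built from a near identity map. -/
def lz (χ u : ℂ → ℂ) : ℂ → ℂ := desc fun x => χ (ee (x + u x))

variable {σ η σ₀ : ℝ} {u χ : ℂ → ℂ}

lemma Near.lz_ee (h : Near σ η u) (χ : ℂ → ℂ) {x : ℂ} (hx : x ∈ strip (-σ) σ) :
    lz χ u (ee x) = χ (ee (x + u x)) :=
  desc_ee (Ξ := fun x => χ (ee (x + u x)))
    (fun x hx => by rw [h.per x hx, add_right_comm, ee_add_one]) hx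

lemma Near.mem (h : Near σ η u) (hs : σ + η ≤ σ₀) {x : ℂ} (hx : x ∈ strip (-σ) σ) :
    ee (x + u x) ∈ sann σ₀ := ee_mem_sann.2 (add_mem_strip hx (h.bu x hx) hs)

lemma Near.emb (h : Near σ η u) (e : Emb χ (ri σ₀) (ri (-σ₀))) (hs : σ + η ≤ σ₀) :
    Emb (lz χ u) (ri σ) (ri (-σ)) := by
  have de : Differentiable ℂ ee := fun x => (hasDerivAt_ee x).differentiableAt
  refine ⟨(ri_pos σ).le, desc_diff (e.diff.comp (de.comp_differentiableOn
    (differentiableOn_id.add h.diff)) fun x hx => h.mem hs hx)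
    fun x hx => by rw [h.per x hx, add_right_comm, ee_add_one], fun w hw w' hw' he => ?_⟩
  obtain ⟨x, hx, rfl⟩ := exists_ee_of_mem hw
  obtain ⟨y, hy, rfl⟩ := exists_ee_of_mem hw'
  rw [h.lz_ee χ hx, h.lz_ee χ hy] at he
  exact h.inj hx hy (e.inj (h.mem hs hx) (h.mem hs hy) he)

lemma Near.cover (h : Near σ η u) (χ : ℂ → ℂ) : χ '' sann (σ - 4 * η) ⊆ lz χ u '' sann σ := by
  rintro _ ⟨w, hw, rfl⟩
  obtain ⟨y, hy, rfl⟩ := exists_ee_of_mem hw
  obtain ⟨x, hx, rfl⟩ := h.surj hy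
  exact ⟨ee x, ee_mem_sann.2 hx, h.lz_ee χ hx⟩

lemma Near.hasWind (h : Near σ η u) {y : ℝ} (hy : y ∈ Ioo (-σ) σ) :
    HasWind (fun θ : ℝ => ee (θ + y * I + u (θ + y * I))) 1 :=
  ⟨fun θ : ℝ => θ + y * I + u (θ + y * I), (show Continuous fun θ : ℝ => (θ:ℂ) + y * I by fun_prop).add
    (cont_line h.diff.continuousOn hy), fun _ => rfl, fun θ => by
      have := h.per _ (line_mem hy θ)
      push_cast
      rw [add_right_comm (θ:ℂ) 1, this]; ring⟩

lemma Near.crv_eq (h : Near σ η u) (χ : ℂ → ℂ) {y : ℝ} (hy : y ∈ Ioo (-σ) σ) (θ : ℝ) :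
    crv (lz χ u) (ri y) θ = χ (ee (θ + y * I + u (θ + y * I))) := by
  rw [← h.lz_ee χ (line_mem hy θ), crv, ee_add, mul_comm]
  congr 2
  rw [ri, ee, tpi, ofReal_exp]
  congr 1
  push_cast
  linear_combination (-(2 * (Real.pi:ℂ) * y)) * I_mul_I

lemma Near.crv_one (h : Near σ η u) (χ : ℂ → ℂ) (hσ : 0 < σ) (θ : ℝ) :
    crv (lz χ u) 1 θ = χ (ee (θ + u θ)) := by
  simpa [ri_zero] using h.crv_eq χ (y := 0) ⟨by linarith, hσ⟩ θ

lemma Near.hasWind_one (h : Near σ η u) (hσ : 0 < σ) :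
    HasWind (fun θ : ℝ => ee (θ + u θ)) 1 := by
  simpa using h.hasWind (y := 0) ⟨by linarith, hσ⟩

lemma KD.lin {α : ℝ} {φ : ℂ → ℂ} {l : ℂ} (h : KD α σ η φ u l) (e : Emb χ (ri σ₀) (ri (-σ₀)))
    (hs : σ + η ≤ σ₀) {f : Sph → Sph}
    (hf : ∀ w ∈ sann σ₀, f (χ w : ℂ) = (χ (ee α * w * φ w * ee l) : ℂ)) :
    Lin f α (lz χ u) (ri σ) (ri (-σ)) := by
  refine ⟨h.near.emb e hs, fun w hw => ?_⟩
  obtain ⟨x, hx, rfl⟩ := exists_ee_of_mem hw
  rw [h.near.lz_ee χ hx, hf _ (h.near.mem hs hx), h.eq x hx, mul_comm, ← ee_add,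
    h.near.lz_ee χ (add_real_mem hx α)]

theorem localKAM {α c : ℝ} {τ : ℕ} (hα : SD α c τ) {X : Type} [TopologicalSpace X] (C : Curves X)
    {f : X → Sph → Sph} {P Q : X → ℂ → ℂ} {p₀ : X} (hf : ∀ᶠ p in 𝓝 p₀, Mero (f p) (P p) (Q p))
    (cP : Continuous fun q : X × ℂ => P q.1 q.2) (cQ : Continuous fun q : X × ℂ => Q q.1 q.2)
    (hP : ∀ i, DifferentiableOn ℂ (fun q : ℂ × ℂ => P (C.τ i q.1) q.2) (C.D i ×ˢ univ))
    (hQ : ∀ i, DifferentiableOn ℂ (fun q : ℂ × ℂ => Q (C.τ i q.1) q.2) (C.D i ×ˢ univ))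
    {s : ℝ} (h : Lin (f p₀) α χ (ri σ) (ri (-σ))) (hs : 0 < s) (hsσ : s < σ) :
    ∃ V, IsOpen V ∧ p₀ ∈ V ∧ ∃ σ₁, 0 < σ₁ ∧ ∃ (m : X → ℂ) (Ξ : X → ℂ → ℂ), ContinuousOn m V ∧
      (∀ i, DifferentiableOn ℂ (fun t => m (C.τ i t)) (C.D i ∩ C.τ i ⁻¹' V)) ∧
      ContinuousOn (fun q : X × ℝ => crv (Ξ q.1) 1 q.2) (V ×ˢ univ) ∧
      ∀ p ∈ V, χ '' sann s ⊆ Ξ p '' sann σ₁ ∧ Ξ p 1 ∈ χ '' sann σ ∧
        (m p = 0 → Lin (f p) α (Ξ p) (ri σ₁) (ri (-σ₁))) ∧
        wind (fun θ => Q p (crv (Ξ p) 1 θ)) = wind (fun θ => Q p₀ (crv χ 1 θ)) ∧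
        ∀ ω : ℝ → ℂ, HasWind ω 1 → (∀ θ, ω θ ∈ sann s) →
          (∀ θ, f p (χ (ω θ) : ℂ) = (χ (ω (θ + α)) : ℂ)) → m p = 0 := by
  obtain ⟨η, hη, rfl⟩ : ∃ η, 0 < η ∧ σ = s + 12 * η := ⟨(σ - s) / 12, by linarith, by ring⟩
  obtain ⟨δ, hδ, H⟩ := kamM hα (σ := s + 4 * η) (σ₀ := s + 11 * η) (by positivity) hη (by linarith)
  have e := h.toEmb
  have m₀ := hf.self_of_nhds
  let j := Function.invFunOn χ (sann (s + 12 * η))
  have hj : ∀ w ∈ sann (s + 12 * η), j (χ w) = w := fun w hw => e.inj.leftInvOn_invFunOn hw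
  have Uo : IsOpen (χ '' sann (s + 12 * η)) := e.isOpen_image (isOpen_ann _ _) Subset.rfl
  have dj : DifferentiableOn ℂ j (χ '' sann (s + 12 * η)) := by
    rintro _ ⟨w, hw, rfl⟩
    exact (inv_analyticAt (isOpen_ann _ _) e.diff e.inj hj hw).differentiableAt.differentiableWithinAt
  have sub : sann (s + 11 * η) ⊆ sann (s + 12 * η) := sann_mono (by linarith)
  have E1 : ∀ᶠ p in 𝓝 p₀, ∀ w ∈ {w : ℂ | ri (s + 11 * η) ≤ ‖w‖ ∧ ‖w‖ ≤ ri (-(s + 11 * η))},
      Q p (χ w) ≠ 0 ∧ P p (χ w) / Q p (χ w) ∈ χ '' sann (s + 12 * η) ∧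
        ‖j (P p (χ w) / Q p (χ w)) / (ee α * w) - 1‖ < δ := by
    refine (isCompact_cann _ _).eventually_forall_of_forall_eventually fun w hw => ?_
    have hw' : w ∈ sann (s + 12 * η) :=
      ⟨(ri_lt (by linarith)).trans_le hw.1, hw.2.trans_lt (ri_lt (by linarith))⟩
    have w0 := ann_ne_zero e.ha hw'
    have c0 : ContinuousAt (fun q : X × ℂ => (q.1, χ q.2)) (p₀, w) := continuousAt_fst.prodMk
      ((e.diff.continuousOn.continuousAt ((isOpen_ann _ _).mem_nhds hw')).comp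
        (f := Prod.snd) continuousAt_snd)
    have q0 := m₀.q_ne (h.conj w hw')
    have v0 := m₀.eq_div (h.conj w hw')
    have r0 := rot_mem (norm_ee_real α) hw'
    have c1 := cP.continuousAt.comp c0
    have c2 := cQ.continuousAt.comp c0
    have c3 : ContinuousAt (fun q : X × ℂ => P q.1 (χ q.2) / Q q.1 (χ q.2)) (p₀, w) := c1.div c2 q0
    have c4 : ContinuousAt (fun q : X × ℂ => j (P q.1 (χ q.2) / Q q.1 (χ q.2))) (p₀, w) :=
      ContinuousAt.comp (g := j) (by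
        simp only [v0]; exact dj.continuousOn.continuousAt (Uo.mem_nhds ⟨_, r0, rfl⟩)) c3
    have c5 : ContinuousAt (fun q : X × ℂ =>
        ‖j (P q.1 (χ q.2) / Q q.1 (χ q.2)) / (ee α * q.2) - 1‖) (p₀, w) :=
      ((c4.div (by fun_prop) (mul_ne_zero (ee_ne _) w0)).sub continuousAt_const).norm
    refine (c2.eventually_ne q0).and ((c3.eventually (Uo.mem_nhds ?_)).and
      (c5.eventually (gt_mem_nhds ?_)))
    · simp only [v0]; exact ⟨_, r0, rfl⟩
    · simp only [v0, hj _ r0, div_self (mul_ne_zero (ee_ne _) w0)]; simpa using hδ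
  have o1 := one_mem_ri (σ := s + 12 * η) (by positivity)
  have E2 := wind_eventually (H := fun p θ => Q p (crv χ 1 θ)) (S := univ) (mem_univ p₀)
    (cQ.comp (continuous_fst.prodMk ((e.crv_cont o1).comp continuous_snd))).continuousOn
    (fun θ => m₀.q_ne (h.map_crv o1 θ)) fun p _ θ => by simp only [crv_per]
  rw [nhdsWithin_univ] at E2
  obtain ⟨V, hV, Vo, hp₀⟩ := _root_.mem_nhds_iff.1 (hf.and (E1.and E2))
  have hV1 : ∀ p ∈ V, ∀ w ∈ sann (s + 11 * η), Q p (χ w) ≠ 0 ∧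
      P p (χ w) / Q p (χ w) ∈ χ '' sann (s + 12 * η) ∧
      ‖j (P p (χ w) / Q p (χ w)) / (ee α * w) - 1‖ < δ :=
    fun p hp w hw => (hV hp).2.1 w ⟨hw.1.le, hw.2.le⟩
  classical
  let r : X → V := fun p => if hp : p ∈ V then ⟨p, hp⟩ else ⟨p₀, hp₀⟩
  have r1 : ∀ p ∈ V, (r p : X) = p := fun p hp => by simp only [r, dif_pos hp]
  have rc : ContinuousOn r V := by
    rw [continuousOn_iff_continuous_restrict]
    exact continuous_id.congr fun p => Subtype.ext (r1 p p.2).symm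
  let C' : Curves V := ⟨C.ι, fun i => C.D i ∩ C.τ i ⁻¹' V, fun i t => r (C.τ i t),
    fun i => (C.cont i).isOpen_inter_preimage (C.op i) Vo,
    fun i => rc.comp ((C.cont i).mono inter_subset_left) fun t ht => ht.2⟩
  have n0 : ∀ w ∈ sann (s + 11 * η), ee α * w ≠ 0 := fun w hw =>
    mul_ne_zero (ee_ne _) (ann_ne_zero e.ha (sub hw))
  have dχ := e.diff.mono sub
  obtain ⟨u, l, ru, rl, hk⟩ := H V C' (fun p w => j (P p (χ w) / Q p (χ w)) / (ee α * w))
    (fun p => (dj.comp (((hV p.2).1.dp.comp_differentiableOn dχ).div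
      ((hV p.2).1.dq.comp_differentiableOn dχ) fun w hw => (hV1 p p.2 w hw).1)
      fun w hw => (hV1 p p.2 w hw).2.1).div (by fun_prop) n0)
    (by
      have c0 : ContinuousOn (fun q : V × ℂ => ((q.1 : X), χ q.2)) (univ ×ˢ sann (s + 11 * η)) :=
        (continuous_subtype_val.comp continuous_fst).continuousOn.prodMk
          (dχ.continuousOn.comp continuousOn_snd fun q hq => hq.2)
      exact (dj.continuousOn.comp ((cP.comp_continuousOn c0).div (cQ.comp_continuousOn c0)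
        fun q hq => (hV1 _ q.1.2 _ hq.2).1) fun q hq => (hV1 _ q.1.2 _ hq.2).2.1).div
        (by fun_prop) fun q hq => n0 _ hq.2)
    (fun i => by
      have c0 : DifferentiableOn ℂ (fun q : ℂ × ℂ => (q.1, χ q.2))
          ((C.D i ∩ C.τ i ⁻¹' V) ×ˢ sann (s + 11 * η)) :=
        differentiableOn_fst.prodMk (dχ.comp differentiableOn_snd fun q hq => hq.2)
      have mp : MapsTo (fun q : ℂ × ℂ => (q.1, χ q.2))
          ((C.D i ∩ C.τ i ⁻¹' V) ×ˢ sann (s + 11 * η)) (C.D i ×ˢ univ) :=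
        fun q hq => ⟨hq.1.1, mem_univ _⟩
      refine DifferentiableOn.congr (f := fun q : ℂ × ℂ =>
        j (P (C.τ i q.1) (χ q.2) / Q (C.τ i q.1) (χ q.2)) / (ee α * q.2))
        (diffOn_div (dj.comp (diffOn_div ((hP i).comp c0 mp) ((hQ i).comp c0 mp)
          fun q hq => (hV1 _ hq.1.2 _ hq.2).1) fun q hq => (hV1 _ hq.1.2 _ hq.2).2.1)
          (by fun_prop) fun q hq => n0 _ hq.2) fun q hq => ?_
      simp only [C', r1 _ hq.1.2])
    fun p w hw => (hV1 p p.2 w hw).2.2.le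
  have p4 : 0 < s + 4 * η := by positivity
  have de : Continuous ee := continuous_iff_continuousAt.2 fun x => (hasDerivAt_ee x).continuousAt
  refine ⟨V, Vo, hp₀, s + 4 * η, p4, fun p => l (r p), fun p => lz χ (u (r p)),
    rl.cont.comp_continuousOn rc, rl.hol, ?_, fun p hp => ?_⟩
  · simp only [fun p => (hk p).near.crv_one χ p4]
    refine dχ.continuousOn.comp (de.comp_continuousOn (ContinuousOn.add (by fun_prop)
      (ru.cont.comp (f := fun q : X × ℝ => (r q.1, (q.2 : ℂ)))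
        ((rc.comp continuousOn_fst fun q hq => hq.1).prodMk (by fun_prop))
        fun q _ => ⟨mem_univ _, real_mem_strip p4 _⟩)))
      fun q _ => (hk _).near.mem (by linarith) (real_mem_strip p4 _)
  have k := hk (r p)
  rw [r1 p hp] at k
  have fe : ∀ w ∈ sann (s + 11 * η), f p (χ w : ℂ) =
      (χ (ee α * w * (j (P p (χ w) / Q p (χ w)) / (ee α * w))) : ℂ) := fun w hw => by
    rw [mul_div_cancel₀ _ (n0 w hw), (hV hp).1.of_ne (hV1 p hp w hw).1]
    obtain ⟨v, hv, he⟩ := (hV1 p hp w hw).2.1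
    rw [← he, hj v hv]
  refine ⟨by simpa using k.near.cover χ, ?_, fun h0 => k.lin (e.mono (ri_le (by linarith))
    (ri_le (by linarith))) (σ₀ := s + 11 * η) (by linarith) fun w hw => ?_, ?_,
    fun ω h1 h2 h3 => k.zero ω h1 (by simpa using h2) fun θ => ?_⟩
  · have := k.near.lz_ee χ (real_mem_strip p4 0)
    rw [ofReal_zero, ee_zero] at this
    exact ⟨_, k.near.mem (by linarith) (real_mem_strip p4 0), this.symm⟩
  · rw [fe w hw, show l (r p) = 0 from h0, ee_zero, mul_one]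
  · rw [← (hV hp).2.2]
    simp only [k.near.crv_one χ p4]
    exact wind_comp_ann (Φ := fun w => Q p (χ w)) (ri_pos _) (one_mem_ri (by positivity))
      ((hV hp).1.dq.continuous.comp_continuousOn dχ.continuousOn) (fun w hw => (hV1 p hp w hw).1)
      (k.near.hasWind_one p4) fun θ => k.near.mem (by linarith) (real_mem_strip p4 θ)
  · have m1 : ω θ ∈ sann (s + 11 * η) := sann_mono (by linarith) (h2 θ)
    rw [mul_div_cancel₀ _ (n0 _ m1), (hV hp).1.eq_div (h3 θ), hj _ (sann_mono (by linarith) (h2 _))]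

end

end Pool.Agent.Lib.MP_1e9af3_an
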