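import Pool.Agent.Lib.MP_1e9af3_an.Kam

/-! Maps of a strip close to the identity. -/

namespace Pool.Agent.Lib.MP_1e9af3_an

open Set Filter Topology Complex Metric

noncomputable section

/-- `x + u x` is close to the identity on the strip. -/
structure Near (σ η : ℝ) (u : ℂ → ℂ) : Prop where
  pos : 0 < η
  diff : DifferentiableOn ℂ u (strip (-σ) σ)
  per : ∀ x ∈ strip (-σ) σ, u (x + 1) = u x
  bu : ∀ x ∈ strip (-σ) σ, ‖u x‖ ≤ η
  bd : ∀ x ∈ strip (-σ) σ, ‖deriv u x‖ ≤ 1 / 3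

lemma near_of_bound {σ η : ℝ} {u : ℂ → ℂ} (hη : 0 < η)
    (hd : DifferentiableOn ℂ u (strip (-(σ + 6 * η)) (σ + 6 * η)))
    (hp : ∀ x ∈ strip (-(σ + 6 * η)) (σ + 6 * η), u (x + 1) = u x)
    (hb : ∀ x ∈ strip (-(σ + 6 * η)) (σ + 6 * η), ‖u x‖ ≤ η) : Near σ η u := by
  have hs : strip (-σ) σ ⊆ strip (-(σ + 6 * η)) (σ + 6 * η) :=
    strip_mono (by linarith) (by linarith)
  refine ⟨hη, hd.mono hs, fun x hx => hp x (hs hx), fun x hx => hb x (hs hx), fun x hx => ?_⟩
  have h1 : ball x (6 * η) ⊆ strip (-(σ + 6 * η)) (σ + 6 * η) :=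
    ball_sub_strip (strip_mono (by linarith) (by linarith) hx)
  refine (deriv_le_of_bdd (by positivity) (hd.mono h1) fun z hz => hb z (h1 hz)).trans_eq ?_
  field_simp; norm_num

variable {σ η : ℝ} {u : ℂ → ℂ}

lemma Near.lip (h : Near σ η u) {x y : ℂ} (hx : x ∈ strip (-σ) σ) (hy : y ∈ strip (-σ) σ) :
    ‖u x - u y‖ ≤ 1 / 3 * ‖x - y‖ :=
  (convex_strip _ _).norm_image_sub_le_of_norm_deriv_le
    (fun z hz => h.diff.differentiableAt ((isOpen_strip _ _).mem_nhds hz)) h.bd hy hx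

lemma Near.per_z (h : Near σ η u) {x : ℂ} (hx : x ∈ strip (-σ) σ) (n : ℤ) : u (x + n) = u x := by
  have := per_int (Γ := fun θ : ℝ => u (x + θ)) (fun θ => by
    rw [← h.per _ (add_real_mem hx θ)]; push_cast; rw [add_assoc]) n 0
  simpa using this

lemma Near.expand (h : Near σ η u) {x y : ℂ} (hx : x ∈ strip (-σ) σ) (hy : y ∈ strip (-σ) σ) :
    ‖(x + u x - (y + u y)) - (x - y)‖ ≤ ‖x + u x - (y + u y)‖ / 2 := by
  have h1 := h.lip hx hy
  have e : (x + u x - (y + u y)) - (x - y) = u x - u y := by ring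
  have h2 : ‖x - y‖ ≤ ‖x + u x - (y + u y)‖ + ‖u x - u y‖ := by
    have : x - y = (x + u x - (y + u y)) - (u x - u y) := by ring
    conv_lhs => rw [this]
    exact norm_sub_le _ _
  rw [e]; linarith

lemma Near.antilip (h : Near σ η u) {x y : ℂ} (hx : x ∈ strip (-σ) σ) (hy : y ∈ strip (-σ) σ) :
    ‖x - y‖ ≤ 3 / 2 * ‖x + u x - (y + u y)‖ := by
  have h1 := h.expand hx hy
  have := norm_sub_norm_le (x - y) (x + u x - (y + u y))
  rw [norm_sub_rev] at h1
  linarith

lemma Near.inj (h : Near σ η u) {x y : ℂ} (hx : x ∈ strip (-σ) σ) (hy : y ∈ strip (-σ) σ)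
    (he : ee (x + u x) = ee (y + u y)) : ee x = ee y := by
  obtain ⟨n, hn⟩ := ee_eq_iff.1 he
  have hy' : y + n ∈ strip (-σ) σ := by simpa using add_real_mem hy n
  have := h.antilip hx hy'
  rw [h.per_z hy, hn, add_right_comm, sub_self, norm_zero, mul_zero, norm_le_zero_iff,
    sub_eq_zero] at this
  rw [this, ee_add_int]

lemma Near.surj (h : Near σ η u) {y : ℂ} (hy : y ∈ strip (-(σ - 4 * η)) (σ - 4 * η)) :
    ∃ x ∈ strip (-σ) σ, x + u x = y := by
  have hη := h.pos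
  have h1 : closedBall y (3 * η) ⊆ strip (-σ) σ :=
    (closedBall_subset_ball (by linarith)).trans (ball_sub_strip (strip_eq σ _ ▸ hy))
  obtain ⟨z, hz, h0⟩ := exists_zero_of_min (f := fun x => x + u x - y) (c := y) (r := 3 * η)
    (m := 2 * η) (by positivity) (by
      apply DifferentiableOn.diffContOnCl
      rw [closure_ball _ (by positivity)]
      exact (differentiableOn_id.add (h.diff.mono h1)).sub_const _)
    (fun z hz => by
      have h2 := h.bu z (h1 (sphere_subset_closedBall hz))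
      rw [mem_sphere, dist_eq_norm] at hz
      have : z - y = (z + u z - y) - u z := by ring
      have h3 := norm_sub_le (z + u z - y) (u z)
      rw [← this] at h3
      linarith)
    (by
      have := h.bu y (h1 (mem_closedBall_self (by positivity)))
      simp only [add_sub_cancel_left]; linarith)
  exact ⟨z, h1 (ball_subset_closedBall hz), sub_eq_zero.1 h0⟩

/-- Uniqueness of the counterterm. -/
lemma Near.counter_zero (h : Near σ η u) {G : ℂ → ℂ} {l : ℂ} {α : ℝ}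
    (hG : ∀ x ∈ strip (-σ) σ, G (x + u x) + l = x + α + u (x + α)) {ψ : ℝ → ℂ}
    (hc : Continuous ψ) (hp : ∀ θ, ψ (θ + 1) = ψ θ + 1)
    (hm : ∀ θ, ψ θ ∈ strip (-(σ - 4 * η)) (σ - 4 * η)) (hψ : ∀ θ, G (ψ θ) = ψ (θ + α)) :
    l = 0 := by
  choose v hv1 hv2 using fun θ => h.surj (hm θ)
  have hvc : Continuous v := by
    rw [Metric.continuous_iff]
    intro θ ε hε
    obtain ⟨δ, hδ, hb⟩ := Metric.continuous_iff.1 hc θ (ε / 2) (half_pos hε)
    refine ⟨δ, hδ, fun θ' hθ' => ?_⟩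
    have h1 := h.antilip (hv1 θ') (hv1 θ)
    have h2 := hb θ' hθ'
    rw [hv2, hv2] at h1
    rw [dist_eq_norm] at h2 ⊢
    linarith
  have hvp : ∀ θ, v (θ + 1) = v θ + 1 := fun θ => by
    have := h.antilip (hv1 (θ + 1)) (add_one_mem (hv1 θ))
    rwa [hv2, h.per _ (hv1 θ), hp, add_right_comm, hv2, sub_self, norm_zero, mul_zero,
      norm_le_zero_iff, sub_eq_zero] at this
  have h1 : ∀ θ, ‖l + (v (θ + α) - v θ) - α‖ ≤ ‖l‖ / 2 := fun θ => by
    have h2 := h.expand (add_real_mem (hv1 θ) α) (hv1 (θ + α))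
    rw [← hG _ (hv1 θ), hv2, hv2, hψ, add_sub_cancel_left] at h2
    refine le_of_eq_of_le ?_ h2
    congr 1; ring
  have h2 := intervalIntegral.norm_integral_le_of_norm_le_const (a := 0) (b := 1)
    (f := fun θ => l + (v (θ + α) - v θ) - α) fun θ _ => h1 θ
  have i1 : IntervalIntegrable (fun θ => v (θ + α) - v θ) MeasureTheory.volume 0 1 :=
    (show Continuous fun θ => v (θ + α) - v θ by fun_prop).intervalIntegrable _ _
  rw [intervalIntegral.integral_sub (IntervalIntegrable.add (by simp) i1) (by simp),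
    intervalIntegral.integral_add (by simp) i1, avg_shift hvc hvp] at h2
  simp at h2
  rw [← norm_le_zero_iff]; linarith

/-- Pushing by an imaginary counterterm. -/
lemma Near.push (h : Near σ η u) {x : ℂ} {l α : ℝ} (hl : 0 ≤ l) (hlη : l ≤ η)
    (hx : x ∈ strip (-(σ - 6 * η)) (σ - 6 * η)) :
    ∃ v ∈ strip (-σ) σ, v + u v = x + α + u (x + α) - l * I ∧
      x.im - 3 / 2 * l ≤ v.im ∧ v.im ≤ x.im - l / 2 := by
  have hη := h.pos
  have hx' : x + α ∈ strip (-σ) σ := add_real_mem (strip_mono (by linarith) (by linarith) hx) α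
  have hn : ‖(l : ℂ) * I‖ = l := by simp [abs_of_nonneg hl]
  obtain ⟨v, hv, he⟩ := h.surj (y := x + α + (u (x + α) - l * I))
    (add_mem_strip (a := 2 * η) (add_real_mem hx α)
      ((norm_sub_le _ _).trans (by rw [hn]; linarith [h.bu _ hx'])) (by linarith))
  refine ⟨v, hv, by rw [he]; ring, ?_⟩
  have h2 := h.expand hx' hv
  rw [he, show x + α + u (x + α) - (x + α + (u (x + α) - l * I)) = l * I by ring, hn] at h2
  have h3 := abs_le.1 ((abs_im_le_norm _).trans h2)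
  simp at h3
  constructor <;> linarith [h3.1, h3.2]

/-- Descent of a periodic function through `ee`. -/
def desc (Ξ : ℂ → ℂ) (w : ℂ) : ℂ := Ξ (log w / tpi)

lemma ee_mem_ann {a b : ℝ} {x : ℂ} :
    ee x ∈ ann (Real.exp (-(2 * Real.pi * b))) (Real.exp (-(2 * Real.pi * a))) ↔ x ∈ strip a b := by
  have := Real.pi_pos
  simp only [ann, strip, mem_setOf_eq, norm_ee, Real.exp_lt_exp, neg_lt_neg_iff]
  rw [mul_lt_mul_iff_right₀ (by positivity), mul_lt_mul_iff_right₀ (by positivity), and_comm]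

lemma per_strip_int {Ξ : ℂ → ℂ} {a b : ℝ} (hp : ∀ x ∈ strip a b, Ξ (x + 1) = Ξ x) {x : ℂ}
    (hx : x ∈ strip a b) (n : ℤ) : Ξ (x + n) = Ξ x := by
  have := per_int (Γ := fun θ : ℝ => Ξ (x + θ)) (fun θ => by
    rw [← hp _ (add_real_mem hx θ)]; push_cast; rw [add_assoc]) n 0
  simpa using this

lemma desc_ee {Ξ : ℂ → ℂ} {a b : ℝ} (hp : ∀ x ∈ strip a b, Ξ (x + 1) = Ξ x) {x : ℂ}
    (hx : x ∈ strip a b) : desc Ξ (ee x) = Ξ x := by
  obtain ⟨n, hn⟩ := ee_eq_iff.1 (ee_log (ee_ne x))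
  rw [desc, hn, per_strip_int hp hx]

lemma exists_ee_of_mem {a b : ℝ} {w : ℂ}
    (hw : w ∈ ann (Real.exp (-(2 * Real.pi * b))) (Real.exp (-(2 * Real.pi * a)))) :
    ∃ x ∈ strip a b, w = ee x := by
  have h0 := ann_ne_zero (Real.exp_nonneg _) hw
  exact ⟨log w / tpi, ee_mem_ann.1 (by rwa [ee_log h0]), (ee_log h0).symm⟩

lemma desc_diff {Ξ : ℂ → ℂ} {a b : ℝ} (hd : DifferentiableOn ℂ Ξ (strip a b))
    (hp : ∀ x ∈ strip a b, Ξ (x + 1) = Ξ x) : DifferentiableOn ℂ (desc Ξ)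
      (ann (Real.exp (-(2 * Real.pi * b))) (Real.exp (-(2 * Real.pi * a)))) := by
  intro w hw
  obtain ⟨x, hx, rfl⟩ := exists_ee_of_mem hw
  apply DifferentiableAt.differentiableWithinAt
  have h1 : ∀ᶠ w in 𝓝 (ee x), w / ee x ∈ slitPlane :=
    (show ContinuousAt (fun w => w / ee x) (ee x) by fun_prop).eventually
      (isOpen_slitPlane.mem_nhds (by simp [ee_ne]))
  have h2 : DifferentiableAt ℂ (fun w => x + log (w / ee x) / tpi) (ee x) :=
    (((differentiableAt_id.div_const _).clog (by simp [ee_ne])).div_const _).const_add _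
  have h3 : x + log (ee x / ee x) / tpi = x := by simp [ee_ne]
  have h4 : DifferentiableAt ℂ (fun w => Ξ (x + log (w / ee x) / tpi)) (ee x) :=
    DifferentiableAt.comp (g := Ξ) (ee x)
      (by rw [h3]; exact hd.differentiableAt ((isOpen_strip _ _).mem_nhds hx)) h2
  refine h4.congr_of_eventuallyEq ?_
  have h5 : ∀ᶠ w in 𝓝 (ee x), x + log (w / ee x) / tpi ∈ strip a b :=
    h2.continuousAt.eventually ((isOpen_strip _ _).mem_nhds (by simpa only [h3] using hx))
  filter_upwards [h1, h5] with w hw1 hw2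
  rw [← desc_ee hp hw2, ee_add, ee_log (slitPlane_ne_zero hw1), mul_div_cancel₀ _ (ee_ne x)]

end

end Pool.Agent.Lib.MP_1e9af3_an
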