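import Pool.Agent.Lib.MP_1e9af3_an.Inv

/-! Paths of maps with rings: concatenation and Moebius conjugation. -/

namespace Pool.Agent.Lib.MP_1e9af3_an

open Set Filter Topology Complex Metric OnePoint

noncomputable section

/-- Two maps with rings are joined by an admissible path. -/
def Conn {d : ℕ} (α : ℝ) (f₀ : RatMap d) (A₀ : Set Sph) (f₁ : RatMap d) (A₁ : Set Sph) : Prop :=
  ∃ (f : unitInterval → RatMap d) (A : unitInterval → Set Sph),
    Continuous f ∧ f 0 = f₀ ∧ A 0 = A₀ ∧ f 1 = f₁ ∧ A 1 = A₁ ∧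
    ∀ t, IsHerman α (f t).1 (A t) ∧ Cara (𝓝 t) A (A t)

lemma mem_class {d : ℕ} {α : ℝ} {f₀ f₁ : RatMap d} {A₀ : Set Sph} :
    f₁ ∈ hermanClass α f₀ A₀ ↔ ∃ A₁, Conn α f₀ A₀ f₁ A₁ :=
  ⟨fun ⟨f, A, h1, h2, h3, h4, h5⟩ => ⟨A 1, f, A, h1, h2, h3, h4, rfl, h5⟩,
    fun ⟨_, f, A, h1, h2, h3, h4, _, h5⟩ => ⟨f, A, h1, h2, h3, h4, h5⟩⟩

lemma Conn.herman {d : ℕ} {α : ℝ} {f₀ f₁ : RatMap d} {A₀ A₁ : Set Sph} (h : Conn α f₀ A₀ f₁ A₁) :
    IsHerman α f₁.1 A₁ := by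
  obtain ⟨f, A, -, -, -, rfl, rfl, h5⟩ := h
  exact (h5 1).1

lemma Conn.typ {d : ℕ} {α : ℝ} (hα : Irrational α) {f₀ f₁ : RatMap d} {A₀ A₁ : Set Sph}
    (h : Conn α f₀ A₀ f₁ A₁) {k : ℤ} (h0 : Typ d α f₀.1 A₀ k) : Typ d α f₁.1 A₁ k := by
  obtain ⟨f, A, h1, rfl, rfl, rfl, rfl, h5⟩ := h
  exact typ_path hα h1 h5 h0

lemma Cara.comp {T S : Type} {l : Filter T} {l' : Filter S} {A : T → Set Sph} {A₀ : Set Sph}
    (h : Cara l A A₀) {φ : S → T} (hφ : Tendsto φ l' l) {B : S → Set Sph}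
    (he : ∀ᶠ s in l', B s = A (φ s)) : Cara l' B A₀ :=
  ⟨fun K h1 h2 => by
    filter_upwards [hφ.eventually (h.1 K h1 h2), he] with s h3 h4 using h4 ▸ h3,
   fun N h1 h2 h3 h4 => h.2 N h1 h2 h3
    (hφ.frequently ((h4.and_eventually he).mono fun s hs => hs.2 ▸ hs.1))⟩

lemma Cara.sup {T : Type} {l l' : Filter T} {A : T → Set Sph} {A₀ : Set Sph}
    (h : Cara l A A₀) (h' : Cara l' A A₀) : Cara (l ⊔ l') A A₀ :=
  ⟨fun K h1 h2 => eventually_sup.2 ⟨h.1 K h1 h2, h'.1 K h1 h2⟩,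
   fun N h1 h2 h3 h4 => (frequently_sup.1 h4).elim (h.2 N h1 h2 h3) (h'.2 N h1 h2 h3)⟩

lemma cara_bot {T : Type} {A : T → Set Sph} {A₀ : Set Sph} : Cara ⊥ A A₀ :=
  ⟨fun _ _ _ => eventually_bot, fun _ _ _ _ h => absurd h (by simp)⟩

lemma Conn.trans {d : ℕ} {α : ℝ} {f₀ f₁ f₂ : RatMap d} {A₀ A₁ A₂ : Set Sph}
    (h : Conn α f₀ A₀ f₁ A₁) (h' : Conn α f₁ A₁ f₂ A₂) : Conn α f₀ A₀ f₂ A₂ := by
  obtain ⟨f, A, h1, rfl, rfl, rfl, rfl, h5⟩ := h
  obtain ⟨g, B, k1, k2, k3, rfl, rfl, k5⟩ := h'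
  let φ : unitInterval → unitInterval := fun t => projIcc 0 1 zero_le_one (2 * t)
  let ψ : unitInterval → unitInterval := fun t => projIcc 0 1 zero_le_one (2 * t - 1)
  have cφ : Continuous φ := continuous_projIcc.comp (by fun_prop)
  have cψ : Continuous ψ := continuous_projIcc.comp (by fun_prop)
  have e1 : ∀ t : unitInterval, (t:ℝ) = 1 / 2 → φ t = 1 ∧ ψ t = 0 := fun t ht => by
    simp only [φ, ψ, ht]; norm_num
  have c1 : IsClosed {t : unitInterval | (t:ℝ) ≤ 1 / 2} := isClosed_le (by fun_prop) (by fun_prop)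
  have c2 : IsClosed {t : unitInterval | 1 / 2 ≤ (t:ℝ)} := isClosed_le (by fun_prop) (by fun_prop)
  let D : unitInterval → Set Sph := fun t => if (t:ℝ) ≤ 1 / 2 then A (φ t) else B (ψ t)
  have d1 : ∀ t : unitInterval, (t:ℝ) ≤ 1 / 2 → D t = A (φ t) := fun t ht => if_pos ht
  have d2 : ∀ t : unitInterval, 1 / 2 ≤ (t:ℝ) → D t = B (ψ t) := fun t ht => by
    rcases ht.eq_or_lt with h | h
    · rw [d1 t h.ge, (e1 t h.symm).1, (e1 t h.symm).2, k3]
    · exact if_neg h.not_ge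
  refine ⟨fun t => if (t:ℝ) ≤ 1 / 2 then f (φ t) else g (ψ t), D,
    Continuous.if_le (h1.comp cφ) (k1.comp cψ) (by fun_prop) (by fun_prop) fun t ht => ?_,
    by simp [φ], by simp [D, φ], by norm_num [ψ], by norm_num [D, ψ], fun t => ⟨?_, ?_⟩⟩
  · rw [(e1 t ht).1, (e1 t ht).2, k2]
  · by_cases ht : (t:ℝ) ≤ 1 / 2
    · simp only [D, if_pos ht]; exact (h5 _).1
    · simp only [D, if_neg ht]; exact (k5 _).1
  · have : 𝓝 t = 𝓝[{t : unitInterval | (t:ℝ) ≤ 1 / 2}] t ⊔ 𝓝[{t : unitInterval | 1 / 2 ≤ (t:ℝ)}] t := by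
      rw [← nhdsWithin_union, ← nhdsWithin_univ]
      congr 1
      exact (eq_univ_of_forall fun s : unitInterval => le_total (s:ℝ) (1 / 2)).symm
    rw [this]
    refine Cara.sup ?_ ?_
    · by_cases ht : (t:ℝ) ≤ 1 / 2
      · rw [d1 t ht]
        exact (h5 _).2.comp (cφ.continuousAt.mono_left nhdsWithin_le_nhds)
          (eventually_mem_nhdsWithin.mono d1)
      · rw [notMem_closure_iff_nhdsWithin_eq_bot.1 (by rwa [c1.closure_eq])]; exact cara_bot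
    · by_cases ht : 1 / 2 ≤ (t:ℝ)
      · rw [d2 t ht]
        exact (k5 _).2.comp (cψ.continuousAt.mono_left nhdsWithin_le_nhds)
          (eventually_mem_nhdsWithin.mono d2)
      · rw [notMem_closure_iff_nhdsWithin_eq_bot.1 (by rwa [c2.closure_eq])]; exact cara_bot

lemma IsHerman.isOpen {α : ℝ} {f : Sph → Sph} {A : Set Sph} (h : IsHerman α f A) : IsOpen A := by
  obtain ⟨⟨z, -, rfl⟩, -⟩ := h
  exact (isOpen_fatou f).connectedComponentIn

lemma IsHerman.conj {α : ℝ} {f g : Sph → Sph} {A : Set Sph} (h : IsHerman α f A) {a b : ℂ}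
    (hab : a ^ 2 - b ^ 2 ≠ 0) (he : ∀ z, g (mob a b hab z) = mob a b hab (f z)) :
    IsHerman α g (mob a b hab '' A) := by
  obtain ⟨⟨z, hz, hA⟩, h2, r, hr, x, y, dx, dy, hne, hb, hc⟩ := h
  have key : ∀ w ∈ ann 1 r, pr (a * x w + b * y w) (b * x w + a * y w) =
      mob a b hab (pr (x w) (y w)) := fun w hw =>
    (mob_pv hab (v := (x w, y w)) (ne_zero_iff'.2 (hne w hw))).symm
  refine ⟨⟨mob a b hab z, ?_, ?_⟩, ?_, r, hr, fun w => a * x w + b * y w,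
    fun w => b * x w + a * y w, by fun_prop, by fun_prop, fun w hw => ?_, ?_, fun w hw => ?_⟩
  · rw [fatou_conj _ he]; exact ⟨z, hz, rfl⟩
  · rw [fatou_conj _ he, hA, (mob a b hab).image_connectedComponentIn hz]
  · rw [image_image]; simp only [he]; rw [← image_image (mob a b hab) f, h2]
  · exact ne_zero_iff'.1 ((hom_mobL hab).ne (x w, y w) (ne_zero_iff'.2 (hne w hw)))
  · exact ((mob a b hab).injective.injOn.bijOn_image.comp hb).congr fun w hw => (key w hw).symm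
  · rw [key w hw, he, hc w hw]; exact (key _ (rot_mem (norm_ee_real α) hw)).symm

lemma mob_ne (θ : ℝ) : (1 - (θ:ℂ)) ^ 2 - (I * θ) ^ 2 ≠ 0 := by
  have : (1 - (θ:ℂ)) ^ 2 - (I * θ) ^ 2 = (((1 - θ) ^ 2 + θ ^ 2 : ℝ) : ℂ) := by
    rw [mul_pow, I_sq]; push_cast; ring
  rw [this]
  exact_mod_cast (by nlinarith [sq_nonneg (1 - 2 * θ)] : (1 - θ) ^ 2 + θ ^ 2 ≠ 0)

/-- Conjugation by the inversion. -/
def cinv {d : ℕ} (f : RatMap d) : RatMap d := ⟨conj inv f.1, f.2.conj _⟩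

lemma conn_inv {d : ℕ} {α : ℝ} {f : RatMap d} {A : Set Sph} (h : IsHerman α f.1 A) :
    Conn α f A (cinv f) (inv '' A) := by
  let M : unitInterval → Sph ≃ₜ Sph := fun θ => mob _ _ (mob_ne θ)
  have c1 : Continuous fun q : unitInterval × Sph => M q.1 q.2 :=
    continuous_act (F := fun θ : unitInterval => mobL (1 - ((θ:ℝ):ℂ)) (I * (θ:ℝ)))
      (fun θ => hom_mobL (mob_ne θ)) (by unfold mobL; fun_prop)
  have c2 : Continuous fun q : unitInterval × Sph => (M q.1).symm q.2 :=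
    continuous_act (F := fun θ : unitInterval => mobL (1 - ((θ:ℝ):ℂ)) (-(I * (θ:ℝ))))
      (fun θ => hom_mobL (by simpa using mob_ne θ)) (by unfold mobL; fun_prop)
  have m0 : M 0 = Homeomorph.refl _ := by
    ext z
    conv_lhs => rw [← pv_sec z]
    simp only [M]
    rw [mob_pv _ (sec_ne z)]
    simp [mobL, pv_sec]
  have m1 : M 1 = inv := by
    ext z
    rw [← pv_sec z]
    simp only [M, inv]
    rw [mob_pv _ (sec_ne z), mob_pv _ (sec_ne z), ← pv_smul I_ne_zero (mobL 0 1 _)]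
    congr 1
    ext <;> simp [mobL]
  refine ⟨fun θ => ⟨conj (M θ) f.1, f.2.conj _⟩, fun θ => M θ '' A, ?_, ?_, by simp [m0], ?_,
    by simp only [m1], fun θ => ⟨h.conj _ (conj_apply _ _), fun K h1 h2 => ?_,
      fun N h1 _ _ h4 z hz => ?_⟩⟩
  · refine Continuous.subtype_mk (ContinuousMap.continuous_of_continuous_uncurry _ ?_) _
    exact c1.comp (continuous_fst.prodMk (f.1.continuous.comp c2))
  · ext z; simp [m0, conj]
  · ext z; simp only [m1, cinv]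
  · have := h1.eventually_forall_of_forall_eventually (x₀ := θ)
      (P := fun s z => (M s).symm z ∈ A) fun z hz => c2.continuousAt.eventually
        (h.isOpen.mem_nhds (by obtain ⟨y, hy, rfl⟩ := h2 hz; simpa using hy))
    filter_upwards [this] with s hs z hz using ⟨_, hs z hz, by simp⟩
  · have : ∀ᶠ s in 𝓝 θ, M s ((M θ).symm z) ∈ N :=
      (c1.comp (continuous_id.prodMk continuous_const)).continuousAt.eventually
        (h1.mem_nhds (by simpa using hz))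
    obtain ⟨s, h5, h6⟩ := (h4.and_eventually this).exists
    obtain ⟨y, hy, h7⟩ := h5 h6
    exact ⟨y, hy, by rw [(M s).injective h7]; simp⟩

end

end Pool.Agent.Lib.MP_1e9af3_an
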