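import Pool.Agent.Lib.MP_1e9af3_an.Sphere

/-! A Fatou component containing an invariant annulus is a Herman ring. -/

namespace Pool.Agent.Lib.MP_1e9af3_an

open Set Filter Topology Complex Metric OnePoint

noncomputable section

/-- `f = p / q` on the finite plane. -/
structure Mero (f : Sph → Sph) (p q : ℂ → ℂ) : Prop where
  cont : Continuous f
  dp : Differentiable ℂ p
  dq : Differentiable ℂ q
  ne : ∀ z, p z ≠ 0 ∨ q z ≠ 0
  eq : ∀ z : ℂ, f z = pr (p z) (q z)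

/-- A linearisation on an annulus. -/
structure Lin (f : Sph → Sph) (α : ℝ) (χ : ℂ → ℂ) (a b : ℝ) : Prop extends Emb χ a b where
  conj : ∀ w ∈ ann a b, f (χ w : ℂ) = (χ (ee α * w) : ℂ)

lemma Mero.eq_coe {f : Sph → Sph} {p q : ℂ → ℂ} (h : Mero f p q) {z y : ℂ} :
    f z = y ↔ p z = y * q z := by
  rw [h.eq]
  by_cases hq : q z = 0
  · simpa [hq] using (h.ne z).resolve_right (not_not.2 hq)
  · rw [pr_of_ne _ hq, coe_eq_coe, div_eq_iff hq]

lemma Mero.q_ne {f : Sph → Sph} {p q : ℂ → ℂ} (h : Mero f p q) {z y : ℂ} (he : f z = y) :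
    q z ≠ 0 := fun hq => by rw [h.eq, hq, pr_zero] at he; exact infty_ne_coe _ he

lemma Mero.eq_div {f : Sph → Sph} {p q : ℂ → ℂ} (h : Mero f p q) {z y : ℂ} (he : f z = y) :
    p z / q z = y := by rw [div_eq_iff (h.q_ne he)]; exact h.eq_coe.1 he

lemma Mero.of_ne {f : Sph → Sph} {p q : ℂ → ℂ} (h : Mero f p q) {z : ℂ} (hq : q z ≠ 0) :
    f z = ((p z / q z : ℂ) : Sph) := by rw [h.eq, pr_of_ne _ hq]

lemma rot_mem {a b : ℝ} {w ρ : ℂ} (hρ : ‖ρ‖ = 1) (hw : w ∈ ann a b) : ρ * w ∈ ann a b := by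
  simpa [ann, hρ] using hw

lemma ident {f g : ℂ → ℂ} {U V : Set ℂ} (hU : IsOpen U) (hc : IsPreconnected U)
    (hf : DifferentiableOn ℂ f U) (hg : DifferentiableOn ℂ g U) (hV : IsOpen V) (hVU : V ⊆ U)
    (hne : V.Nonempty) (he : ∀ z ∈ V, f z = g z) : ∀ z ∈ U, f z = g z := by
  obtain ⟨z₀, h₀⟩ := hne
  exact (hf.analyticOnNhd hU).eqOn_of_preconnected_of_eventuallyEq (hg.analyticOnNhd hU) hc
    (hVU h₀) (by filter_upwards [hV.mem_nhds h₀] with z hz using he z hz)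

lemma Mero.iter_props {f : Sph → Sph} {p q : ℂ → ℂ} (h : Mero f p q) {N : Set ℂ}
    (hb : ∀ n, ∀ z ∈ N, ∃ y : ℂ, f^[n] z = y) (n : ℕ) :
    DifferentiableOn ℂ (fun y => p y / q y)^[n] N ∧
      ∀ z ∈ N, f^[n] z = (((fun y => p y / q y)^[n] z : ℂ) : Sph) := by
  induction n with
  | zero => exact ⟨differentiableOn_id, fun _ _ => rfl⟩
  | succ n ih =>
    have hq : ∀ z ∈ N, q ((fun y => p y / q y)^[n] z) ≠ 0 := fun z hz => by
      obtain ⟨y, hy⟩ := hb (n + 1) z hz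
      rw [Function.iterate_succ_apply', ih.2 z hz] at hy
      exact h.q_ne hy
    rw [Function.iterate_succ', Function.iterate_succ']
    exact ⟨(h.dp.comp_differentiableOn ih.1).div (h.dq.comp_differentiableOn ih.1) hq,
      fun z hz => by simp only [Function.comp]; rw [ih.2 z hz, h.of_ne (hq z hz)]⟩

lemma Mero.fatou_of_orbit {f : Sph → Sph} {p q : ℂ → ℂ} (h : Mero f p q) {N : Set ℂ}
    (hN : IsOpen N) {R : ℝ} (hb : ∀ n, ∀ z ∈ N, ∃ y : ℂ, f^[n] z = y ∧ ‖y‖ ≤ R) :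
    (↑) '' N ⊆ fatou f := by
  have := h.iter_props (N := N) fun n z hz => (hb n z hz).imp fun _ h => h.1
  refine fatou_of_bounded hN (R := R) (fun n => (this n).1) (fun n z hz => ?_) fun n => (this n).2
  obtain ⟨y, h1, h2⟩ := hb n z hz
  rw [(this n).2 z hz, coe_eq_coe] at h1
  rwa [h1]

lemma iter_conj {f : Sph → Sph} {χ : ℂ → ℂ} {a b : ℝ} {ρ : ℂ} (hρ : ‖ρ‖ = 1)
    (h : ∀ w ∈ ann a b, f (χ w : ℂ) = (χ (ρ * w) : ℂ)) {w : ℂ} (hw : w ∈ ann a b) (n : ℕ) :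
    f^[n] (χ w : ℂ) = (χ (ρ ^ n * w) : ℂ) := by
  induction n with
  | zero => simp
  | succ n ih =>
    rw [Function.iterate_succ_apply', ih, h _ (rot_mem (by simp [hρ]) hw), pow_succ', mul_assoc]

lemma isCompact_cann (a b : ℝ) : IsCompact {w : ℂ | a ≤ ‖w‖ ∧ ‖w‖ ≤ b} :=
  (isCompact_closedBall (0:ℂ) b).of_isClosed_subset
    ((isClosed_le continuous_const continuous_norm).inter
      (isClosed_le continuous_norm continuous_const)) fun w hw => by simpa using hw.2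

lemma semi_fatou {f : Sph → Sph} {p q : ℂ → ℂ} (h : Mero f p q) {χ : ℂ → ℂ} {a b : ℝ} {ρ : ℂ}
    (ha : 0 ≤ a) (hρ : ‖ρ‖ = 1) (hd : DifferentiableOn ℂ χ (ann a b))
    (hc : ∀ w ∈ ann a b, f (χ w : ℂ) = (χ (ρ * w) : ℂ))
    (hn : ¬ ∃ c, ∀ w ∈ ann a b, χ w = c) : (↑) '' (χ '' ann a b) ⊆ fatou f := by
  rintro _ ⟨_, ⟨w, hw, rfl⟩, rfl⟩
  obtain ⟨a', ha1, ha2⟩ := exists_between hw.1
  obtain ⟨b', hb1, hb2⟩ := exists_between hw.2
  have hs : ann a' b' ⊆ ann a b := ann_mono ha1.le hb2.le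
  have ho := ((hd.analyticOnNhd (isOpen_ann a b)).is_constant_or_isOpen
    (isPreconnected_ann ha b)).resolve_left hn _ hs (isOpen_ann _ _)
  obtain ⟨R, hR⟩ := (isCompact_cann a' b').exists_bound_of_continuousOn
    (hd.continuousOn.mono fun w hw => ⟨ha1.trans_le hw.1, hw.2.trans_lt hb2⟩)
  refine h.fatou_of_orbit ho (R := R) ?_ ⟨_, ⟨w, ⟨ha2, hb1⟩, rfl⟩, rfl⟩
  rintro n _ ⟨v, hv, rfl⟩
  have := rot_mem (ρ := ρ ^ n) (by simp [hρ]) hv
  exact ⟨_, iter_conj hρ hc (hs hv) n, hR _ ⟨this.1.le, this.2.le⟩⟩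

lemma ann_infinite {a b : ℝ} (ha : 0 ≤ a) (hab : a < b) :
    ∃ w ∈ ann a b, ∃ w' ∈ ann a b, w ≠ w' := by
  have h := mid_mem ha hab
  refine ⟨_, h, _, rot_mem (ρ := -1) (by simp) h, fun he => ann_ne_zero ha h ?_⟩
  linear_combination he / 2

lemma Emb.not_const {χ : ℂ → ℂ} {a b : ℝ} (h : Emb χ a b) (hab : a < b) :
    ¬ ∃ c, ∀ w ∈ ann a b, χ w = c := by
  rintro ⟨c, hc⟩
  obtain ⟨w, hw, w', hw', hne⟩ := ann_infinite h.ha hab
  exact hne (h.inj hw hw' (by rw [hc w hw, hc w' hw']))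

lemma Lin.sub_fatou {f : Sph → Sph} {p q : ℂ → ℂ} (hf : Mero f p q) {α : ℝ} {χ : ℂ → ℂ} {a b : ℝ}
    (h : Lin f α χ a b) : (↑) '' (χ '' ann a b) ⊆ fatou f := by
  rcases lt_or_ge a b with hab | hab
  · exact semi_fatou hf h.ha (norm_ee_real α) h.diff h.conj (h.toEmb.not_const hab)
  · rintro _ ⟨_, ⟨w, hw, rfl⟩, rfl⟩; linarith [hw.1, hw.2]

/-- Height corresponding to a radius. -/
def ht (r : ℝ) : ℝ := -Real.log r / (2 * Real.pi)

lemma exp_ht {r : ℝ} (hr : 0 < r) : Real.exp (-(2 * Real.pi * ht r)) = r := by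
  have := Real.pi_pos
  rw [ht, show -(2 * Real.pi * (-Real.log r / (2 * Real.pi))) = Real.log r by field_simp,
    Real.exp_log hr]

lemma ee_mem_ann' {a b : ℝ} (ha : 0 < a) (hb : 0 < b) {x : ℂ} :
    ee x ∈ ann a b ↔ x ∈ strip (ht b) (ht a) := by
  rw [← ee_mem_ann, exp_ht ha, exp_ht hb]

lemma laurent {χ : ℂ → ℂ} {a b : ℝ} (ha : 0 < a) (hab : a < b)
    (hd : DifferentiableOn ℂ χ (ann a b)) :
    ∃ c : ℤ → ℂ, ∀ w ∈ ann a b, HasSum (fun k => c k * w ^ k) (χ w) := by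
  have hb := ha.trans hab
  have hm := mid_mem ha.le hab
  have h0 := ann_ne_zero ha.le hm
  rw [← ee_log h0, ee_mem_ann' ha hb] at hm
  refine ⟨fc (fun x => χ (ee x)) (log (((a + b) / 2 : ℝ) : ℂ) / tpi).im, fun w hw => ?_⟩
  have hw0 := ann_ne_zero ha.le hw
  have hx : log w / tpi ∈ strip (ht b) (ht a) := by rwa [← ee_mem_ann' ha hb, ee_log hw0]
  have := hasSum_fourier (h := fun x => χ (ee x))
    (hd.comp differentiable_ee.differentiableOn fun x hx => (ee_mem_ann' ha hb).2 hx)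
    (fun x _ => by rw [ee_add_one]) hm hx
  simpa only [ee_zsmul, ee_log hw0] using this

lemma tendsto_avg {ζ : ℂ} (h1 : ‖ζ‖ = 1) (h2 : ζ ≠ 1) :
    Tendsto (fun N : ℕ => ((N:ℂ) + 1)⁻¹ * ∑ n ∈ Finset.range (N + 1), ζ ^ n) atTop (𝓝 0) := by
  have hp : 0 < ‖ζ - 1‖ := norm_pos_iff.2 (sub_ne_zero.2 h2)
  refine squeeze_zero_norm (a := fun N : ℕ => 1 / ((N:ℝ) + 1) * (2 / ‖ζ - 1‖)) (fun N => ?_) ?_
  · rw [geom_sum_eq h2, norm_mul, norm_div, norm_inv, one_div]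
    have : ‖(N:ℂ) + 1‖ = N + 1 := by exact_mod_cast Complex.norm_natCast (N + 1)
    rw [this]
    gcongr
    exact (norm_sub_le _ _).trans (by simp [h1]; norm_num)
  · simpa using tendsto_one_div_add_atTop_nhds_zero_nat.mul_const (2 / ‖ζ - 1‖)

lemma norm_avg_le {ι : ℕ → ℂ} {R : ℝ} (h : ∀ n, ‖ι n‖ ≤ R) (N : ℕ) :
    ‖((N:ℂ) + 1)⁻¹ * ∑ n ∈ Finset.range (N + 1), ι n‖ ≤ R := by
  have : ‖(N:ℂ) + 1‖ = N + 1 := by exact_mod_cast Complex.norm_natCast (N + 1)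
  rw [norm_mul, norm_inv, this, inv_mul_le_iff₀ (by positivity)]
  refine (norm_sum_le _ _).trans ((Finset.sum_le_sum fun n _ => h n).trans_eq ?_)
  simp

lemma tendsto_avg_laurent {χ : ℂ → ℂ} {a b α : ℝ} (hα : Irrational α) {c : ℤ → ℂ}
    (hc : ∀ w ∈ ann a b, HasSum (fun k => c k * w ^ k) (χ w)) {w : ℂ} (hw : w ∈ ann a b) (k : ℤ) :
    Tendsto (fun N : ℕ => ((N:ℂ) + 1)⁻¹ * ∑ n ∈ Finset.range (N + 1),
      (ee α ^ n) ^ (-k) * χ (ee α ^ n * w)) atTop (𝓝 (c k * w ^ k)) := by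
  have hn : ∀ j : ℤ, ‖ee α ^ j‖ = 1 := fun j => by simp [norm_ee_real]
  have h1 := tendsto_tsum_of_dominated_convergence (𝓕 := atTop)
    (f := fun (N : ℕ) (j : ℤ) => c j * w ^ j *
      (((N:ℂ) + 1)⁻¹ * ∑ n ∈ Finset.range (N + 1), (ee α ^ (j - k)) ^ n))
    (g := fun j => if j = k then c k * w ^ k else 0) (hc w hw).summable.norm (fun j => ?_)
    (Eventually.of_forall fun N j => by
      rw [norm_mul]
      exact mul_le_of_le_one_right (norm_nonneg _) (norm_avg_le (fun n => by simp [hn]) N))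
  · rw [tsum_ite_eq] at h1
    refine h1.congr fun N => ?_
    rw [Finset.mul_sum]
    simp only [Finset.mul_sum]
    have hs : ∀ n ∈ Finset.range (N + 1), HasSum (fun j => c j * w ^ j *
        (((N:ℂ) + 1)⁻¹ * (ee α ^ (j - k)) ^ n))
        (((N:ℂ) + 1)⁻¹ * ((ee α ^ n) ^ (-k) * χ (ee α ^ n * w))) := fun n _ => by
      have := ((hc _ (rot_mem (ρ := ee α ^ n) (by simp [norm_ee_real]) hw)).mul_left
        ((ee α ^ n) ^ (-k))).mul_left ((N:ℂ) + 1)⁻¹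
      refine this.congr_fun fun j => ?_
      have e : (ee α ^ (j - k)) ^ n = (ee α ^ n) ^ (-k) * (ee α ^ n) ^ j := by
        rw [← zpow_add₀ (pow_ne_zero _ (ee_ne _)), ← zpow_natCast, ← zpow_natCast, ← zpow_mul,
          ← zpow_mul]
        congr 1; ring
      rw [e, mul_zpow]; ring
    exact (hasSum_sum hs).tsum_eq
  · by_cases hj : j = k
    · subst hj
      simp only [sub_self, zpow_zero, one_pow, Finset.sum_const, Finset.card_range, if_true]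
      refine tendsto_const_nhds.congr fun N => ?_
      have : (N:ℂ) + 1 ≠ 0 := by exact_mod_cast N.succ_ne_zero
      simp; field_simp
    · rw [if_neg hj]
      simpa using (tendsto_avg (hn (j - k)) (by
        rw [← ee_zsmul]; exact ee_irr_ne hα (sub_ne_zero.2 hj))).const_mul (c j * w ^ j)

lemma ext_wind_zero {p q ω : ℂ → ℂ} (dp : Differentiable ℂ p) (dq : Differentiable ℂ q)
    (hne : ∀ z, p z ≠ 0 ∨ q z ≠ 0) {a b r : ℝ} (ha : 0 < a) (hr : r ∈ Ioo a b) {d : ℤ → ℂ}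
    (hd : ∀ k < 0, d k = 0) (hs : ∀ w ∈ ann a b, HasSum (fun k => d k * w ^ k) (ω w)) {ρ : ℂ}
    (hρ : ‖ρ‖ = 1) (he : ∀ w ∈ ann a b, p (ω w) = ω (ρ * w) * q (ω w)) {γ : ℝ → ℂ}
    (hγ : Continuous γ) (hp : ∀ θ, γ (θ + 1) = γ θ) (hn : ∀ θ, ‖γ θ‖ = r) :
    wind (fun θ => q (ω (γ θ))) = 0 := by
  obtain ⟨r', h1, h2⟩ := exists_between hr.2
  have hr0 : 0 < r := ha.trans hr.1
  have hr' : (r' : ℂ) ∈ ann a b := by
    simp only [ann, mem_setOf_eq, Complex.norm_real, Real.norm_of_nonneg (hr0.trans h1).le]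
    exact ⟨hr.1.trans h1, h2⟩
  set Ω : ℂ → ℂ := fun w => ∑' k, d k * w ^ k with hΩ
  have dΩ : DifferentiableOn ℂ Ω (ball 0 r') := by
    refine differentiableOn_tsum_of_summable_norm (hs _ hr').summable.norm (fun k => ?_) isOpen_ball
      fun k w hw => ?_
    · rcases lt_or_ge k 0 with hk | hk
      · simp [hd k hk]
      · lift k to ℕ using hk
        simp only [zpow_natCast]; fun_prop
    · rcases lt_or_ge k 0 with hk | hk
      · simp [hd k hk]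
      · lift k to ℕ using hk
        simp only [zpow_natCast, norm_mul, norm_pow]
        gcongr
        rw [Complex.norm_real, Real.norm_of_nonneg (hr0.trans h1).le]
        exact (mem_ball_zero_iff.1 hw).le
  have eΩ : ∀ w ∈ ann a b, Ω w = ω w := fun w hw => (hs w hw).tsum_eq
  have key := ident (f := fun w => p (Ω w)) (g := fun w => Ω (ρ * w) * q (Ω w)) isOpen_ball
    (convex_ball 0 r').isPreconnected (dp.comp_differentiableOn dΩ)
    ((dΩ.comp (f := fun w => ρ * w) (by fun_prop) fun w hw => by simpa [hρ] using hw).mul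
      (dq.comp_differentiableOn dΩ)) (isOpen_ann a r') (fun w hw => mem_ball_zero_iff.2 hw.2)
    ⟨_, mid_mem ha.le (hr.1.trans h1)⟩ (fun w hw => by
      have := ann_mono le_rfl h2.le hw
      rw [eΩ w this, eΩ _ (rot_mem hρ this), he w this])
  have hq : ∀ w ∈ ball (0:ℂ) r', q (Ω w) ≠ 0 := fun w hw h0 => by
    have := key w hw
    simp only [h0, mul_zero] at this
    exact (hne _).elim (fun h => h this) fun h => h h0
  have hm : ∀ s ∈ Icc (0:ℝ) 1, ∀ θ, (s : ℂ) * γ θ ∈ ball (0:ℂ) r' := fun s hs θ => by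
    rw [mem_ball_zero_iff, norm_mul, hn, Complex.norm_real, Real.norm_of_nonneg hs.1]
    nlinarith [hs.2]
  have := wind_homotopy (H := fun (s : ℝ) θ => q (Ω (s * γ θ))) (S := Icc 0 1) isPreconnected_Icc
    (dq.continuous.comp_continuousOn (dΩ.continuousOn.comp
      (f := fun x : ℝ × ℝ => (x.1 : ℂ) * γ x.2) (by fun_prop) fun x hx => hm _ hx.1 _))
    (fun s hs θ => hq _ (hm s hs θ)) (fun s _ θ => by rw [hp]) (s := 1) (t := 0)
    ⟨zero_le_one, le_rfl⟩ ⟨le_rfl, zero_le_one⟩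
  simp only [ofReal_one, one_mul, ofReal_zero, zero_mul] at this
  rw [(hasWind_const (hq 0 (mem_ball_self (hr0.trans h1)))).wind_eq] at this
  rw [← this]; congr 1; ext θ
  rw [eΩ _ (show γ θ ∈ ann a b by simpa [ann, hn] using hr)]

lemma coef_both {f : Sph → Sph} {p q : ℂ → ℂ} (hf : Mero f p q) {α : ℝ} {χ : ℂ → ℂ} {a b r : ℝ}
    (h : Lin f α χ a b) (ha : 0 < a) (hr : r ∈ Ioo a b)
    (hw : wind (fun θ => q (crv χ r θ)) ≠ 0) {c : ℤ → ℂ}
    (hc : ∀ w ∈ ann a b, HasSum (fun k => c k * w ^ k) (χ w)) :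
    (∃ k < 0, c k ≠ 0) ∧ ∃ k > 0, c k ≠ 0 := by
  have hr0 : 0 < r := ha.trans hr.1
  have hb : 0 < b := hr0.trans hr.2
  constructor
  · by_contra hn
    push Not at hn
    exact hw (ext_wind_zero hf.dp hf.dq hf.ne ha hr hn hc (norm_ee_real α)
      (fun w hw => hf.eq_coe.1 (h.conj w hw)) (γ := fun θ => r * ee θ) (by fun_prop)
      (fun θ => by simp [ee_add_one]) (norm_circ hr0.le))
  · by_contra hn
    push Not at hn
    have hi : ∀ w ∈ ann b⁻¹ a⁻¹, w⁻¹ ∈ ann a b := fun w hw => by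
      have h0 : 0 < ‖w‖ := (inv_pos.2 hb).trans hw.1
      simp only [ann, mem_setOf_eq, norm_inv]
      exact ⟨(lt_inv_comm₀ ha h0).2 hw.2, (inv_lt_comm₀ h0 hb).2 hw.1⟩
    have := ext_wind_zero (ω := fun w => χ w⁻¹) hf.dp hf.dq hf.ne (inv_pos.2 hb)
      (r := r⁻¹) (b := a⁻¹) ⟨(inv_lt_inv₀ hb hr0).2 hr.2, (inv_lt_inv₀ hr0 ha).2 hr.1⟩
      (d := fun k => c (-k)) (fun k hk => hn _ (by omega))
      (fun w hw => by
        have := (Equiv.neg ℤ).hasSum_iff.2 (hc _ (hi w hw))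
        refine this.congr_fun fun k => by simp)
      (ρ := (ee α)⁻¹) (by simp [norm_ee_real])
      (fun w hw => by rw [mul_inv, inv_inv]; exact hf.eq_coe.1 (h.conj _ (hi w hw)))
      (γ := fun θ => ((r : ℂ) * ee θ)⁻¹)
      (Continuous.inv₀ (by fun_prop) fun θ => mul_ne_zero (by exact_mod_cast hr0.ne') (ee_ne _))
      (fun θ => by simp [ee_add_one]) (fun θ => by rw [norm_inv, norm_circ hr0.le])
    simp only [inv_inv] at this
    exact hw this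

lemma laurent_diff {c : ℤ → ℂ} {R a b : ℝ} (ha : 0 < a)
    (h : ∀ r ∈ Ioo a b, ∃ r₁ r₂, 0 < r₁ ∧ r₁ < r ∧ r < r₂ ∧ (∀ k, ‖c k‖ * r₁ ^ k ≤ R) ∧
      ∀ k, ‖c k‖ * r₂ ^ k ≤ R) :
    DifferentiableOn ℂ (fun w => ∑' k, c k * w ^ k) (ann a b) := by
  intro w hw
  obtain ⟨r₁, r₂, h0, h1, h2, b1, b2⟩ := h _ hw
  obtain ⟨s₁, h3, h4⟩ := exists_between h1
  obtain ⟨s₂, h5, h6⟩ := exists_between h2
  have hs1 : 0 < s₁ := h0.trans h3
  have hs2 : 0 < s₂ := hs1.trans (h4.trans h5)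
  have hr2 : 0 < r₂ := hs2.trans h6
  set t := max (r₁ / s₁) (s₂ / r₂) with ht
  have t0 : 0 ≤ t := le_max_of_le_left (by positivity)
  have t1 : t < 1 := max_lt ((div_lt_one hs1).2 h3) ((div_lt_one hr2).2 h6)
  have hsum : Summable fun k : ℤ => R * t ^ k.natAbs := by
    refine Summable.mul_left _ (Summable.of_nat_of_neg ?_ ?_) <;>
      simpa using summable_geometric_of_lt_one t0 t1
  have := differentiableOn_tsum_of_summable_norm (F := fun k w => c k * w ^ k) hsum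
    (fun k => (differentiableOn_zpow k _ (Or.inl fun h0 => ann_ne_zero hs1.le h0 rfl)).const_mul _)
    (isOpen_ann s₁ s₂) fun k v hv => by
      have hv0 : 0 < ‖v‖ := hs1.trans hv.1
      have hR : 0 ≤ R := le_trans (by positivity) (b1 0)
      rw [norm_mul, norm_zpow]
      rcases Int.eq_nat_or_neg k with ⟨n, rfl | rfl⟩
      · have := b2 n
        simp only [zpow_natCast, Int.natAbs_natCast] at this ⊢
        calc _ = ‖c n‖ * r₂ ^ n * (‖v‖ / r₂) ^ n := by rw [div_pow]; field_simp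
          _ ≤ R * t ^ n := by
            gcongr
            exact le_max_of_le_right (by gcongr; exact hv.2.le)
      · have := b1 (-n)
        simp only [zpow_neg, zpow_natCast, Int.natAbs_neg, Int.natAbs_natCast] at this ⊢
        calc _ = ‖c (-n)‖ * (r₁ ^ n)⁻¹ * (r₁ / ‖v‖) ^ n := by rw [div_pow]; field_simp
          _ ≤ R * t ^ n := by
            gcongr
            exact le_max_of_le_left (by gcongr; exact hv.1.le)
  exact (this.differentiableAt ((isOpen_ann _ _).mem_nhds ⟨h4, h5⟩)).differentiableWithinAt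

lemma Esc.orbit_bdd {f : Sph → Sph} {p q : ℂ → ℂ} (hf : Mero f p q) {R : ℝ} (hE : Esc f R)
    {α : ℝ} {χ : ℂ → ℂ} {a b : ℝ} (h : Lin f α χ a b) {w₀ : ℂ} (hw₀ : w₀ ∈ ann a b) {z : Sph}
    (hz : z ∈ connectedComponentIn (fatou f) (χ w₀ : ℂ)) (n : ℕ) :
    ∃ y : ℂ, f^[n] z = y ∧ ‖y‖ ≤ R := by
  by_contra hn
  have h1 : f^[n] z ∈ big R := fun y hy => by
    by_contra h2; exact hn ⟨y, hy, not_lt.1 h2⟩
  obtain ⟨m, hm⟩ := hE.all_escape hf.cont isPreconnected_connectedComponentIn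
    (connectedComponentIn_subset _ _) hz
    (mem_connectedComponentIn (h.sub_fatou hf ⟨_, ⟨_, hw₀, rfl⟩, rfl⟩)) h1
  obtain ⟨S, hS⟩ := (h.toEmb.isCompact_crv (r := ‖w₀‖) hw₀).isBounded.exists_norm_le
  obtain ⟨k, hk⟩ := hE.tendsto hm S
  rw [iter_conj (norm_ee_real α) h.conj hw₀, coe_mem_big] at hk
  exact not_le.2 hk (hS _ ⟨_, by simp [norm_ee_real], rfl⟩)

theorem ring_structure {f : Sph → Sph} {p q : ℂ → ℂ} (hf : Mero f p q) {R : ℝ} (hE : Esc f R)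
    {α : ℝ} (hα : Irrational α) {χ : ℂ → ℂ} {a b r : ℝ} (h : Lin f α χ a b) (ha : 0 < a)
    (hr : r ∈ Ioo a b) (hw : wind (fun θ => q (crv χ r θ)) ≠ 0) {w₀ : ℂ} (hw₀ : w₀ ∈ ann a b) :
    ∃ a' b' Ψ, 0 < a' ∧ a' ≤ a ∧ b ≤ b' ∧ Lin f α Ψ a' b' ∧ (∀ w ∈ ann a b, Ψ w = χ w) ∧
      connectedComponentIn (fatou f) (χ w₀ : ℂ) = (↑) '' (Ψ '' ann a' b') := by
  have hab : a < b := hr.1.trans hr.2
  set B := connectedComponentIn (fatou f) (χ w₀ : ℂ) with hB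
  set Bc : Set ℂ := (↑) ⁻¹' B with hBc
  have hb := fun z (hz : z ∈ B) n => hE.orbit_bdd hf h hw₀ hz n
  have hBe : B = (↑) '' Bc := by
    rw [hBc, image_preimage_eq_of_subset]
    intro z hz
    obtain ⟨y, hy, -⟩ := hb z hz 0
    exact ⟨y, hy.symm⟩
  have hBo : IsOpen Bc := (isOpen_fatou f).connectedComponentIn.preimage continuous_coe
  have hBp : IsPreconnected Bc := isOpenEmbedding_coe.isInducing.isPreconnected_image.1
    (hBe ▸ isPreconnected_connectedComponentIn)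
  have sub_B : ∀ {Ψ : ℂ → ℂ} {a' b' : ℝ}, 0 ≤ a' → ContinuousOn Ψ (ann a' b') → w₀ ∈ ann a' b' →
      Ψ w₀ = χ w₀ → (↑) '' (Ψ '' ann a' b') ⊆ fatou f → Ψ '' ann a' b' ⊆ Bc :=
    fun h1 h2 h3 h4 h5 z hz =>
      (((isPreconnected_ann h1 _).image _ h2).image _
        continuous_coe.continuousOn).subset_connectedComponentIn ⟨_, ⟨_, h3, h4⟩, rfl⟩ h5 ⟨z, hz, rfl⟩
  have hχB : χ '' ann a b ⊆ Bc := sub_B h.ha h.diff.continuousOn hw₀ rfl (h.sub_fatou hf)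
  have hχo : IsOpen (χ '' ann a b) := h.toEmb.isOpen_image (isOpen_ann a b) Subset.rfl
  have idB : ∀ {u v : ℂ → ℂ}, DifferentiableOn ℂ u Bc → DifferentiableOn ℂ v Bc →
      (∀ w ∈ ann a b, u (χ w) = v (χ w)) → ∀ z ∈ Bc, u z = v z := fun hu hv he =>
    ident hBo hBp hu hv hχo hχB ⟨_, _, hw₀, rfl⟩ (by rintro _ ⟨w, hw, rfl⟩; exact he w hw)
  have hit := hf.iter_props (N := Bc) fun n z hz => (hb z hz n).imp fun _ h => h.1
  set F : ℕ → ℂ → ℂ := fun n => (fun y => p y / q y)^[n] with hF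
  have bF : ∀ n, ∀ z ∈ Bc, ‖F n z‖ ≤ R := fun n z hz => by
    obtain ⟨y, h1, h2⟩ := hb z hz n
    rw [(hit n).2 z hz, coe_eq_coe] at h1
    rwa [← h1] at h2
  have eF : ∀ n, ∀ w ∈ ann a b, F n (χ w) = χ (ee α ^ n * w) := fun n w hw => by
    rw [← coe_eq_coe, ← (hit n).2 _ (hχB ⟨w, hw, rfl⟩), iter_conj (norm_ee_real α) h.conj hw]
  obtain ⟨c, hc⟩ := laurent ha hab h.diff
  have hH : ∀ k : ℤ, ∃ H : ℂ → ℂ, DifferentiableOn ℂ H Bc ∧ (∀ z ∈ Bc, ‖H z‖ ≤ R) ∧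
      ∀ w ∈ ann a b, H (χ w) = c k * w ^ k := fun k => by
    have bd : ∀ N : ℕ, ∀ z ∈ Bc, ‖((N:ℂ) + 1)⁻¹ * ∑ n ∈ Finset.range (N + 1),
        (ee α ^ n) ^ (-k) * F n z‖ ≤ R := fun N z hz =>
      norm_avg_le (fun n => by simpa [norm_ee_real] using bF n z hz) N
    obtain ⟨g, g1, -, g3⟩ := montel (hyperfilter ℕ) hBo
      (F := fun N z => ((N:ℂ) + 1)⁻¹ * ∑ n ∈ Finset.range (N + 1), (ee α ^ n) ^ (-k) * F n z)
      (fun N => (DifferentiableOn.fun_sum fun n _ => (hit n).1.const_mul _).const_mul _) bd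
    refine ⟨g, g1, fun z hz => le_of_tendsto' (g3 z hz).norm fun N => bd N z hz, fun w hw => ?_⟩
    refine tendsto_nhds_unique (g3 _ (hχB ⟨w, hw, rfl⟩)) ?_
    simp only [eF _ w hw]
    exact (tendsto_avg_laurent hα hc hw k).mono_left Nat.hyperfilter_le_atTop
  choose H dH bH eH using hH
  obtain ⟨⟨km, hkm, ckm⟩, kp, hkp, ckp⟩ := coef_both hf h ha hr hw hc
  have pair : ∀ k₁ > 0, ∀ k₂ < 0, c k₁ ≠ 0 → c k₂ ≠ 0 → ∀ z ∈ Bc, H k₁ z ≠ 0 ∧ H k₂ z ≠ 0 := by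
    intro k₁ h1 k₂ h2 c1 c2 z hz
    lift k₁ to ℕ using h1.le
    obtain ⟨m, rfl⟩ := Int.exists_eq_neg_ofNat h2.le
    have := idB (u := fun z => H k₁ z ^ m * H (-m) z ^ k₁) (v := fun _ => c k₁ ^ m * c (-m) ^ k₁)
      (((dH _).pow _).mul ((dH _).pow _)) (by fun_prop) (fun w hw => by
        have := ann_ne_zero h.ha hw
        simp only [eH _ w hw, mul_pow, zpow_neg, zpow_natCast, inv_pow, ← pow_mul, mul_comm m]
        field_simp) z hz
    have h3 : H k₁ z ^ m * H (-m) z ^ k₁ ≠ 0 := by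
      rw [this]; exact mul_ne_zero (pow_ne_zero _ c1) (pow_ne_zero _ c2)
    exact ⟨fun h0 => h3 (by rw [h0, zero_pow (by omega), zero_mul]),
      fun h0 => h3 (by rw [h0, zero_pow (n := k₁) (by omega), mul_zero])⟩
  let S : AddSubgroup ℤ :=
    { carrier := {k | ∃ u : ℂ → ℂ, DifferentiableOn ℂ u Bc ∧ (∀ z ∈ Bc, u z ≠ 0) ∧
        ∀ w ∈ ann a b, u (χ w) = w ^ k}
      zero_mem' := ⟨fun _ => 1, by fun_prop, by simp, by simp⟩
      add_mem' := by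
        rintro k l ⟨u, u1, u2, u3⟩ ⟨v, v1, v2, v3⟩
        exact ⟨fun z => u z * v z, u1.mul v1, fun z hz => mul_ne_zero (u2 z hz) (v2 z hz),
          fun w hw => by simp only [u3 w hw, v3 w hw, zpow_add₀ (ann_ne_zero h.ha hw)]⟩
      neg_mem' := by
        rintro k ⟨u, u1, u2, u3⟩
        exact ⟨fun z => (u z)⁻¹, u1.inv u2, fun z hz => inv_ne_zero (u2 z hz),
          fun w hw => by simp only [u3 w hw, zpow_neg]⟩ }
  have hS : ∀ k, c k ≠ 0 → k ∈ S := fun k hk => by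
    rcases eq_or_ne k 0 with rfl | h0
    · exact S.zero_mem
    refine ⟨fun z => H k z / c k, (dH k).div_const _, fun z hz => div_ne_zero ?_ hk,
      fun w hw => by simp only [eH k w hw]; field_simp⟩
    rcases lt_or_gt_of_ne h0 with h1 | h1
    · exact (pair kp hkp k h1 ckp hk z hz).2
    · exact (pair k h1 km hkm hk ckm z hz).1
  have h1S : (1:ℤ) ∈ S := by
    obtain ⟨N, hN⟩ := Int.subgroup_cyclic S
    have hd : ∀ k, c k ≠ 0 → N ∣ k := fun k hk => by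
      have := hS k hk
      rw [hN, AddSubgroup.mem_closure_singleton] at this
      obtain ⟨n, rfl⟩ := this
      exact Dvd.intro_left n rfl
    have hN0 : N ≠ 0 := by rintro rfl; exact hkp.ne' (zero_dvd_iff.1 (hd kp ckp))
    have hN0' : (N:ℂ) ≠ 0 := by exact_mod_cast hN0
    have hζ : ‖ee (1 / N)‖ = 1 := by simpa using norm_ee_real (1 / N)
    have h2 : χ (ee (1 / N) * w₀) = χ w₀ := by
      refine (hc _ (rot_mem hζ hw₀)).unique ((hc _ hw₀).congr_fun fun k => ?_)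
      by_cases hk : c k = 0
      · simp [hk]
      · obtain ⟨m, rfl⟩ := hd k hk
        rw [mul_zpow, ← ee_zsmul, show ((N * m : ℤ) : ℂ) * (1 / N) = m by push_cast; field_simp,
          ee_int, one_mul]
    have h3 := h.inj (rot_mem hζ hw₀) hw₀ h2
    rw [mul_left_eq_self₀, or_iff_left (ann_ne_zero h.ha hw₀)] at h3
    obtain ⟨n, hn⟩ := ee_eq_iff.1 (h3.trans ee_zero.symm)
    rw [zero_add, div_eq_iff hN0'] at hn
    rw [hN, AddSubgroup.mem_closure_singleton]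
    exact ⟨n, by exact_mod_cast hn.symm⟩
  obtain ⟨u, du, u0, eu⟩ := h1S
  simp only [zpow_one] at eu
  have hu : ∀ k, ∀ z ∈ Bc, ‖c k‖ * ‖u z‖ ^ k ≤ R := fun k z hz => by
    have := idB (u := H k) (v := fun z => c k * u z ^ k) (dH k)
      ((du.zpow (Or.inl u0)).const_mul _) (fun w hw => by simp only [eH k w hw, eu w hw]) z hz
    rw [← norm_zpow, ← norm_mul, ← this]; exact bH k z hz
  have uo : ∀ s ⊆ Bc, IsOpen s → IsOpen (u '' s) := by
    refine ((du.analyticOnNhd hBo).is_constant_or_isOpen hBp).resolve_left ?_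
    rintro ⟨k, hk⟩
    obtain ⟨w, hw, w', hw', hne⟩ := ann_infinite h.ha hab
    exact hne (by rw [← eu w hw, ← eu w' hw', hk _ (hχB ⟨w, hw, rfl⟩), hk _ (hχB ⟨w', hw', rfl⟩)])
  set J : Set ℝ := (fun z => ‖u z‖) '' Bc with hJ
  have hJne : J.Nonempty := ⟨_, _, hχB ⟨w₀, hw₀, rfl⟩, rfl⟩
  have hR0 : 0 < R := hE.1
  have up : ∃ M, ∀ z ∈ Bc, ‖u z‖ ≤ M := by
    lift kp to ℕ using hkp.le
    refine ⟨max 1 (R / ‖c kp‖), fun z hz => ?_⟩
    by_contra hn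
    rw [not_le, max_lt_iff, div_lt_iff₀ (norm_pos_iff.2 ckp)] at hn
    have h1 := hu kp z hz
    rw [zpow_natCast] at h1
    have := le_self_pow₀ hn.1.le (n := kp) (by omega)
    nlinarith [norm_pos_iff.2 ckp]
  have low : ∃ m > 0, ∀ z ∈ Bc, m ≤ ‖u z‖ := by
    obtain ⟨k, rfl⟩ := Int.exists_eq_neg_ofNat hkm.le
    have hc0 := norm_pos_iff.2 ckm
    refine ⟨min 1 (‖c (-k)‖ / R), lt_min one_pos (by positivity), fun z hz => ?_⟩
    by_contra hn
    rw [not_le, lt_min_iff, lt_div_iff₀ hR0] at hn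
    have h1 := hu (-k) z hz
    have h0 := norm_pos_iff.2 (u0 z hz)
    rw [zpow_neg, zpow_natCast, ← div_eq_mul_inv, div_le_iff₀ (by positivity)] at h1
    have := pow_le_of_le_one h0.le hn.1.le (n := k) (by omega)
    nlinarith
  obtain ⟨M, hM⟩ := up
  obtain ⟨m, hm0, hm⟩ := low
  have bA : BddAbove J := ⟨M, by rintro _ ⟨z, hz, rfl⟩; exact hM z hz⟩
  have bB : BddBelow J := ⟨m, by rintro _ ⟨z, hz, rfl⟩; exact hm z hz⟩
  have hIJ : Ioo a b ⊆ J := fun s hs => ⟨_, hχB ⟨_, circ_mem h.ha hs 0, rfl⟩, by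
    simp only [eu _ (circ_mem h.ha hs 0), norm_circ (h.ha.trans hs.1.le)]⟩
  have ha' : 0 < sInf J := hm0.trans_le (le_csInf hJne (by rintro _ ⟨z, hz, rfl⟩; exact hm z hz))
  have ha'' : sInf J ≤ a := by
    rw [← csInf_Ioo hab]; exact csInf_le_csInf bB (nonempty_Ioo.2 hab) hIJ
  have hb'' : b ≤ sSup J := by
    rw [← csSup_Ioo hab]; exact csSup_le_csSup bA (nonempty_Ioo.2 hab) hIJ
  have hum : ∀ z ∈ Bc, u z ∈ ann (sInf J) (sSup J) := fun z hz => by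
    have h0 := norm_pos_iff.2 (u0 z hz)
    have t1 : Tendsto (fun t : ℝ => (t : ℂ) * u z) (𝓝 1) (𝓝 (u z)) := by
      have : Continuous (fun t : ℝ => (t : ℂ) * u z) := by fun_prop
      simpa using this.tendsto 1
    have t2 := t1.eventually ((uo _ Subset.rfl hBo).mem_nhds ⟨z, hz, rfl⟩)
    constructor
    · obtain ⟨t, ⟨y, hy, he⟩, ht⟩ := ((t2.filter_mono (nhdsWithin_le_nhds (s := Iio 1))).and
        (Ioo_mem_nhdsLT (show (0:ℝ) < 1 by norm_num))).exists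
      refine (csInf_le bB ⟨y, hy, rfl⟩).trans_lt ?_
      simp only [he, norm_mul, Complex.norm_real, Real.norm_of_nonneg ht.1.le]
      nlinarith [ht.2]
    · obtain ⟨t, ⟨y, hy, he⟩, ht⟩ := ((t2.filter_mono (nhdsWithin_le_nhds (s := Ioi 1))).and
        self_mem_nhdsWithin).exists
      refine lt_of_lt_of_le ?_ (le_csSup bA ⟨y, hy, rfl⟩)
      have ht' : (1:ℝ) < t := ht
      simp only [he, norm_mul, Complex.norm_real, Real.norm_of_nonneg (zero_le_one.trans ht'.le)]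
      nlinarith
  set Ψ : ℂ → ℂ := fun w => ∑' k, c k * w ^ k with hΨ
  have dΨ : DifferentiableOn ℂ Ψ (ann (sInf J) (sSup J)) := by
    refine laurent_diff (R := R) ha' fun s hs => ?_
    obtain ⟨_, ⟨z₁, hz₁, rfl⟩, h1⟩ := exists_lt_of_csInf_lt hJne hs.1
    obtain ⟨_, ⟨z₂, hz₂, rfl⟩, h2⟩ := exists_lt_of_lt_csSup hJne hs.2
    exact ⟨_, _, norm_pos_iff.2 (u0 z₁ hz₁), h1, h2, fun k => hu k z₁ hz₁, fun k => hu k z₂ hz₂⟩
  have eΨ : ∀ w ∈ ann a b, Ψ w = χ w := fun w hw => (hc w hw).tsum_eq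
  have hsub : ann a b ⊆ ann (sInf J) (sSup J) := ann_mono ha'' hb''
  have idA : ∀ {u v : ℂ → ℂ}, DifferentiableOn ℂ u (ann (sInf J) (sSup J)) →
      DifferentiableOn ℂ v (ann (sInf J) (sSup J)) → (∀ w ∈ ann a b, u w = v w) →
      ∀ w ∈ ann (sInf J) (sSup J), u w = v w := fun hu hv he =>
    ident (isOpen_ann _ _) (isPreconnected_ann ha'.le _) hu hv (isOpen_ann a b) hsub ⟨_, hw₀⟩ he
  have cΨ : ∀ w ∈ ann (sInf J) (sSup J), f (Ψ w : ℂ) = (Ψ (ee α * w) : ℂ) := fun w hw =>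
    hf.eq_coe.2 (idA (u := fun w => p (Ψ w)) (v := fun w => Ψ (ee α * w) * q (Ψ w))
      (hf.dp.comp_differentiableOn dΨ) ((dΨ.comp (f := fun w => ee α * w) (by fun_prop)
        fun w hw => rot_mem (norm_ee_real α) hw).mul (hf.dq.comp_differentiableOn dΨ))
      (fun w hw => by
        simp only [eΨ w hw, eΨ _ (rot_mem (norm_ee_real α) hw)]
        exact hf.eq_coe.1 (h.conj w hw)) w hw)
  have hΨB : Ψ '' ann (sInf J) (sSup J) ⊆ Bc := sub_B ha'.le dΨ.continuousOn (hsub hw₀) (eΨ _ hw₀)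
    (semi_fatou hf ha'.le (norm_ee_real α) dΨ cΨ fun ⟨k, hk⟩ => h.toEmb.not_const hab
      ⟨k, fun w hw => by rw [← eΨ w hw, hk w (hsub hw)]⟩)
  have huΨ := idA (u := fun w => u (Ψ w)) (v := fun w => w)
    (du.comp dΨ fun w hw => hΨB ⟨w, hw, rfl⟩) differentiableOn_id
    fun w hw => by simp only [eΨ w hw, eu w hw]
  have hΨu := idB (u := fun z => Ψ (u z)) (v := fun z => z) (dΨ.comp du hum) differentiableOn_id
    fun w hw => by simp only [eu w hw, eΨ w hw]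
  refine ⟨_, _, Ψ, ha', ha'', hb'', ⟨⟨ha'.le, dΨ, fun w hw w' hw' he => ?_⟩, cΨ⟩, eΨ, ?_⟩
  · rw [← huΨ w hw, ← huΨ w' hw']; simp only [he]
  · rw [hBe]; congr 1
    exact Subset.antisymm (fun z hz => ⟨u z, hum z hz, hΨu z hz⟩) hΨB

lemma ee_ofReal (α : ℝ) : ee α = exp (2 * Real.pi * I * α) := rfl

lemma Lin.isHerman {f : Sph → Sph} {p q : ℂ → ℂ} (hf : Mero f p q) {α : ℝ} {Ψ : ℂ → ℂ} {a b : ℝ}
    (h : Lin f α Ψ a b) (ha : 0 < a) {w₀ : ℂ} (hw₀ : w₀ ∈ ann a b)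
    (he : connectedComponentIn (fatou f) (Ψ w₀ : ℂ) = (↑) '' (Ψ '' ann a b)) :
    IsHerman α f ((↑) '' (Ψ '' ann a b)) := by
  have hab : a < b := hw₀.1.trans hw₀.2
  have ha' : (a : ℂ) ≠ 0 := by exact_mod_cast ha.ne'
  have hm : ∀ w, (a : ℂ) * w ∈ ann a b ↔ w ∈ ann 1 (b / a) := fun w => by
    simp only [ann, mem_setOf_eq, norm_mul, Complex.norm_real, Real.norm_of_nonneg ha.le]
    rw [lt_mul_iff_one_lt_right ha, lt_div_iff₀ ha, mul_comm]
  refine ⟨⟨_, h.sub_fatou hf ⟨_, ⟨_, hw₀, rfl⟩, rfl⟩, he.symm⟩, ?_, b / a, (one_lt_div ha).2 hab,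
    fun w => Ψ (a * w), fun _ => 1,
    h.diff.comp (f := fun w => (a : ℂ) * w) (by fun_prop) fun w hw => (hm w).2 hw, by fun_prop,
    fun _ _ => Or.inr one_ne_zero, ⟨fun w hw => ⟨_, ⟨_, (hm w).2 hw, rfl⟩, by simp⟩,
      fun w hw w' hw' he => ?_, ?_⟩, fun w hw => ?_⟩
  · apply Subset.antisymm
    · rintro _ ⟨_, ⟨_, ⟨w, hw, rfl⟩, rfl⟩, rfl⟩
      exact ⟨_, ⟨_, rot_mem (norm_ee_real α) hw, rfl⟩, (h.conj w hw).symm⟩
    · rintro _ ⟨_, ⟨w, hw, rfl⟩, rfl⟩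
      have := rot_mem (ρ := (ee α)⁻¹) (by simp [norm_ee_real]) hw
      exact ⟨_, ⟨_, ⟨_, this, rfl⟩, rfl⟩, by rw [h.conj _ this, mul_inv_cancel_left₀ (ee_ne _)]⟩
  · simp only [pr_one, coe_eq_coe] at he
    exact mul_left_cancel₀ ha' (h.inj ((hm w).2 hw) ((hm w').2 hw') he)
  · rintro _ ⟨_, ⟨w, hw, rfl⟩, rfl⟩
    refine ⟨w / a, (hm _).1 ?_, ?_⟩ <;> simp [mul_div_cancel₀ _ ha', hw]
  · simp only [pr_one, h.conj _ ((hm w).2 hw), ← ee_ofReal, mul_left_comm]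

end

end Pool.Agent.Lib.MP_1e9af3_an
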