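import Pool.Agent.Lib.MP_1e9af3_an.Local

/-! Continuous families of linearised annuli give admissible paths. -/

namespace Pool.Agent.Lib.MP_1e9af3_an

open Set Filter Topology Complex Metric OnePoint

noncomputable section

lemma Lin.symm_form {f : Sph → Sph} {α : ℝ} {χ : ℂ → ℂ} {a b : ℝ} (h : Lin f α χ a b)
    (ha : 0 < a) (hab : a < b) : ∃ σ c : ℝ, 0 < σ ∧ c ∈ Ioo a b ∧
      Lin f α (fun w => χ (c * w)) (ri σ) (ri (-σ)) ∧
      (∀ w : ℂ, c * w ∈ ann a b ↔ w ∈ sann σ) ∧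
      (fun w => χ (c * w)) '' sann σ = χ '' ann a b := by
  have hb := ha.trans hab
  have hl := Real.log_lt_log ha hab
  have hπ := Real.pi_pos
  set σ := (Real.log b - Real.log a) / (4 * Real.pi) with hσ
  set c := Real.exp ((Real.log a + Real.log b) / 2) with hc
  have c0 : 0 < c := Real.exp_pos _
  have e1 : c * ri σ = a := by
    rw [ri, hc, ← Real.exp_add, ← Real.exp_log ha, Real.log_exp]
    congr 1; rw [hσ]; field_simp; ring
  have e2 : c * ri (-σ) = b := by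
    rw [ri, hc, ← Real.exp_add, ← Real.exp_log hb, Real.log_exp]
    congr 1; rw [hσ]; field_simp; ring
  have s0 : 0 < σ := div_pos (by linarith) (by positivity)
  have hm : ∀ w : ℂ, c * w ∈ ann a b ↔ w ∈ sann σ := fun w => by
    simp only [ann, mem_setOf_eq, norm_mul, Complex.norm_real, Real.norm_of_nonneg c0.le]
    rw [← e1, ← e2, mul_lt_mul_iff_right₀ c0, mul_lt_mul_iff_right₀ c0]
  have c1 : (c:ℂ) ≠ 0 := by exact_mod_cast c0.ne'
  have o := one_mem_ri s0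
  refine ⟨σ, c, s0, ⟨by nlinarith [o.1], by nlinarith [o.2]⟩, ⟨⟨(ri_pos σ).le,
    h.diff.comp (f := fun w => (c : ℂ) * w) (by fun_prop) fun w hw => (hm w).2 hw,
    fun w hw w' hw' he => mul_left_cancel₀ c1 (h.inj ((hm w).2 hw) ((hm w').2 hw') he)⟩,
    fun w hw => by simp only [h.conj _ ((hm w).2 hw), mul_left_comm]⟩, hm, Subset.antisymm ?_ ?_⟩
  · rintro _ ⟨w, hw, rfl⟩; exact ⟨_, (hm w).2 hw, rfl⟩
  · rintro _ ⟨w, hw, rfl⟩
    refine ⟨w / c, (hm _).1 ?_, ?_⟩ <;> simp [mul_div_cancel₀ _ c1, hw]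

lemma Emb.cover_compact {χ : ℂ → ℂ} {σ : ℝ} (e : Emb χ (ri σ) (ri (-σ))) (hσ : 0 < σ) {K : Set Sph}
    (hK : IsCompact K) (hs : K ⊆ (↑) '' (χ '' sann σ)) :
    ∃ s ∈ Ioo 0 σ, K ⊆ (↑) '' (χ '' sann s) := by
  haveI : Nonempty (Ioo 0 σ) := ⟨⟨σ / 2, by constructor <;> linarith⟩⟩
  obtain ⟨s, h⟩ := hK.elim_directed_cover (fun s : Ioo 0 σ => ((↑) '' (χ '' sann s) : Set Sph))
    (fun s => isOpenMap_coe _ (e.isOpen_image (isOpen_ann _ _) (sann_mono s.2.2.le)))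
    (fun z hz => by
      obtain ⟨_, ⟨w, hw, rfl⟩, rfl⟩ := hs hz
      obtain ⟨x, hx, rfl⟩ := exists_ee_of_mem hw
      obtain ⟨s, h1, h2⟩ := exists_between (abs_lt.2 hx)
      exact mem_iUnion.2 ⟨⟨s, (abs_nonneg _).trans_lt h1, h2⟩, _,
        ⟨_, ee_mem_sann.2 (abs_lt.1 h1), rfl⟩, rfl⟩)
    (Monotone.directed_le fun s t hst => image_mono (image_mono (sann_mono hst)))
  exact ⟨s, s.2, h⟩

/-- No curves. -/
def noCurves (X : Type) [TopologicalSpace X] : Curves X :=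
  ⟨Empty, fun i => i.elim, fun i => i.elim, fun i => i.elim, fun i => i.elim⟩

lemma Lin.sub_component {f : Sph → Sph} {p q : ℂ → ℂ} (hf : Mero f p q) {α : ℝ} {χ : ℂ → ℂ}
    {a b : ℝ} (h : Lin f α χ a b) {z : ℂ} (hz : z ∈ χ '' ann a b) :
    (↑) '' (χ '' ann a b) ⊆ connectedComponentIn (fatou f) z :=
  (((isPreconnected_ann h.ha b).image _ h.diff.continuousOn).image _
    continuous_coe.continuousOn).subset_connectedComponentIn ⟨z, hz, rfl⟩ (h.sub_fatou hf)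

theorem sheet {α c : ℝ} {τ : ℕ} (hα : SD α c τ) {T : Type} [TopologicalSpace T]
    {f : T → Sph → Sph} {P Q : T → ℂ → ℂ} (hf : ∀ s, Mero (f s) (P s) (Q s))
    (cP : Continuous fun q : T × ℂ => P q.1 q.2) (cQ : Continuous fun q : T × ℂ => Q q.1 q.2)
    (cf : Continuous fun q : T × Sph => f q.1 q.2) (hE : ∀ s₀, ∃ R, ∀ᶠ s in 𝓝 s₀, Esc (f s) R)
    {χ : T → ℂ → ℂ} {a b : ℝ} (ha : 0 < a) (h1 : (1:ℝ) ∈ Ioo a b) (hL : ∀ s, Lin (f s) α (χ s) a b)
    (cc : Continuous fun q : T × ℝ => crv (χ q.1) 1 q.2)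
    (hw : ∀ s, wind (fun θ => Q s (crv (χ s) 1 θ)) ≠ 0) (s₀ : T) :
    IsHerman α (f s₀) (connectedComponentIn (fatou (f s₀)) (χ s₀ 1 : ℂ)) ∧
    Cara (𝓝 s₀) (fun s => connectedComponentIn (fatou (f s)) (χ s 1 : ℂ))
      (connectedComponentIn (fatou (f s₀)) (χ s₀ 1 : ℂ)) := by
  have m1 : (1:ℂ) ∈ ann a b := by simpa [ann] using h1
  obtain ⟨R, hR⟩ := hE s₀
  obtain ⟨a', b', Ψ, k1, k2, k3, k4, k5, k6⟩ := ring_structure (hf s₀) hR.self_of_nhds
    hα.irrational (hL s₀) ha h1 (hw s₀) m1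
  have sb := ann_mono k2 k3
  refine ⟨?_, fun K hK hs => ?_, fun N n1 n2 n3 n4 => ?_⟩
  · rw [k6]; exact k4.isHerman (hf s₀) k1 (sb m1) (by rw [k5 _ m1, k6])
  · obtain ⟨σ, c₀, g1, g2, g3, g4, g5⟩ := k4.symm_form k1 ((sb m1).1.trans (sb m1).2)
    have c1 : (c₀:ℂ) ≠ 0 := by exact_mod_cast (k1.trans g2.1).ne'
    set Ψ' := fun w => Ψ (c₀ * w) with hΨ'
    have e := g3.toEmb
    rw [k6, ← g5] at hs
    have hcv : ∀ θ : ℝ, ee θ / c₀ ∈ sann σ ∧ crv (χ s₀) 1 θ = Ψ' (ee θ / c₀) := fun θ => by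
      have := circ_mem ha.le h1 θ
      rw [ofReal_one, one_mul] at this
      rw [← g4, hΨ', crv]
      simp only [mul_div_cancel₀ _ c1, ofReal_one, one_mul]
      exact ⟨sb this, (k5 _ this).symm⟩
    obtain ⟨s, g6, g7⟩ := e.cover_compact g1 (hK.union
      (((hL s₀).toEmb.isCompact_crv h1).image continuous_coe)) (union_subset hs (image_mono (by
        intro z hz
        obtain ⟨θ, rfl⟩ := exists_crv hz
        exact ⟨_, (hcv θ).1, (hcv θ).2.symm⟩)))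
    obtain ⟨V, Vo, hV, σ₁, -, m, Ξ, -, -, -, H⟩ := localKAM hα (noCurves T)
      (Eventually.of_forall hf) cP cQ (fun i => i.elim) (fun i => i.elim) g3 g6.1 g6.2
    have Uo : IsOpen (Ψ' '' sann s) := e.isOpen_image (isOpen_ann _ _) (sann_mono g6.2.le)
    have E1 : ∀ᶠ t in 𝓝 s₀, ∀ θ, crv (χ t) 1 θ ∈ Ψ' '' sann s := by
      have := isCompact_Icc.eventually_forall_of_forall_eventually (K := Icc (0:ℝ) 1) (x₀ := s₀)
        (P := fun t θ => crv (χ t) 1 θ ∈ Ψ' '' sann s) fun θ _ =>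
        cc.continuousAt.eventually (Uo.mem_nhds (by
          obtain ⟨y, hy, he⟩ := g7 (Or.inr ⟨_, crv_mem (χ := χ s₀) zero_le_one θ, rfl⟩)
          rw [coe_eq_coe.1 he] at hy; exact hy))
      filter_upwards [this] with t ht using forall_of_Icc (fun θ => by rw [crv_per]) ht
    let j := Function.invFunOn Ψ' (sann σ)
    have hj : ∀ w ∈ sann σ, j (Ψ' w) = w := fun w hw => e.inj.leftInvOn_invFunOn hw
    have cj : ContinuousOn j (Ψ' '' sann s) := by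
      rintro _ ⟨w, hw, rfl⟩
      exact (continuousAt_inv_of_injOn (isOpen_ann _ _) e.diff e.inj hj
        (sann_mono g6.2.le hw)).continuousWithinAt
    have jm : ∀ z ∈ Ψ' '' sann s, j z ∈ sann s ∧ Ψ' (j z) = z := by
      rintro _ ⟨w, hw, rfl⟩
      rw [hj w (sann_mono g6.2.le hw)]; exact ⟨hw, rfl⟩
    have E2 := wind_eventually (H := fun t θ => j (crv (χ t) 1 θ))
      (S := {t | ∀ θ, crv (χ t) 1 θ ∈ Ψ' '' sann s}) E1.self_of_nhds
      (cj.comp cc.continuousOn fun q hq => hq.1 q.2)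
      (fun θ => ann_ne_zero (ri_pos _).le (jm _ (E1.self_of_nhds θ)).1)
      fun t _ θ => by simp only [crv_per]
    rw [nhdsWithin_eq_nhds.2 E1] at E2
    have w0 : wind (fun θ => j (crv (χ s₀) 1 θ)) = 1 :=
      ((hasWind_circle (inv_ne_zero c1)).congr fun θ => by
        rw [(hcv θ).2, hj _ (hcv θ).1]; ring).wind_eq
    filter_upwards [E1, E2, Vo.mem_nhds hV] with t t1 t2 t3
    obtain ⟨u1, -, u2, -, u3⟩ := H t t3
    have lp : Loop fun θ => j (crv (χ t) 1 θ) :=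
      ⟨cj.comp_continuous ((hL t).toEmb.crv_cont h1) t1,
        fun θ => ann_ne_zero (ri_pos _).le (jm _ (t1 θ)).1, fun θ => by simp only [crv_per]⟩
    have := u2 (u3 _ (by simpa only [t2, w0] using lp.hasWind) (fun θ => (jm _ (t1 θ)).1)
      fun θ => by rw [(jm _ (t1 _)).2, (jm _ (t1 _)).2, (hL t).map_crv h1])
    exact (subset_union_left.trans g7).trans ((image_mono u1).trans
      (this.sub_component (hf t) (u1 (by simpa [crv, ee_zero] using t1 0))))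
  · have hb : ∀ n, ∀ z ∈ N, (f s₀)^[n] z ∈ ((↑) '' closedBall (0:ℂ) R : Set Sph) := fun n z hz => by
      have c1 : Continuous fun s => (f s)^[n] z := by
        induction n with
        | zero => exact continuous_const
        | succ n ih =>
          simp only [Function.iterate_succ_apply']
          exact cf.comp (continuous_id.prodMk ih)
      refine ((isCompact_closedBall _ _).image continuous_coe).isClosed.mem_of_frequently_of_tendsto
        ((n4.and_eventually hR).mono fun s hs => ?_) c1.continuousAt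
      obtain ⟨y, e1, e2⟩ := hs.2.orbit_bdd (hf s) (hL s) m1 (hs.1 hz) n
      exact ⟨y, mem_closedBall_zero_iff.2 e2, e1.symm⟩
    have hF : N ⊆ fatou (f s₀) := fun z hz => by
      obtain ⟨y, -, e1⟩ := hb 0 z hz
      refine (hf s₀).fatou_of_orbit (n1.preimage continuous_coe) (R := R) (fun n y hy => ?_)
        ⟨y, by rw [mem_preimage, e1]; exact hz, e1⟩
      obtain ⟨v, e2, e3⟩ := hb n _ hy
      exact ⟨v, e3.symm, mem_closedBall_zero_iff.1 e2⟩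
    obtain ⟨y, y1, y2⟩ := n3
    rw [connectedComponentIn_eq y2]
    exact n2.isPreconnected.subset_connectedComponentIn y1 hF

theorem conn_sheet {α c : ℝ} {τ d : ℕ} (hα : SD α c τ) {f : unitInterval → RatMap d}
    {P Q : unitInterval → ℂ → ℂ} (hf : ∀ s, Mero (f s).1 (P s) (Q s))
    (cP : Continuous fun q : unitInterval × ℂ => P q.1 q.2)
    (cQ : Continuous fun q : unitInterval × ℂ => Q q.1 q.2)
    (cf : Continuous f) (hE : ∀ s₀, ∃ R, ∀ᶠ s in 𝓝 s₀, Esc (f s).1 R)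
    {χ : unitInterval → ℂ → ℂ} {a b : ℝ} (ha : 0 < a) (h1 : (1:ℝ) ∈ Ioo a b)
    (hL : ∀ s, Lin (f s).1 α (χ s) a b)
    (cc : Continuous fun q : unitInterval × ℝ => crv (χ q.1) 1 q.2)
    (hw : ∀ s, wind (fun θ => Q s (crv (χ s) 1 θ)) ≠ 0) :
    Conn α (f 0) (connectedComponentIn (fatou (f 0).1) (χ 0 1 : ℂ))
      (f 1) (connectedComponentIn (fatou (f 1).1) (χ 1 1 : ℂ)) :=
  ⟨f, _, cf, rfl, rfl, rfl, rfl, sheet hα (f := fun s => (f s).1) hf cP cQ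
    (ContinuousEval.continuous_eval.comp ((continuous_subtype_val.comp cf).prodMap continuous_id)) hE ha h1 hL cc hw⟩

lemma Lin.wind_radius {f : Sph → Sph} {p q : ℂ → ℂ} (hf : Mero f p q) {α : ℝ} {χ : ℂ → ℂ}
    {a b r r' : ℝ} (h : Lin f α χ a b) (ha : 0 < a) (hr : r ∈ Ioo a b) (hr' : r' ∈ Ioo a b) :
    wind (fun θ => q (crv χ r θ)) = wind (fun θ => q (crv χ r' θ)) :=
  wind_comp_ann (Φ := fun w => q (χ w)) ha hr'
    (hf.dq.continuous.comp_continuousOn h.diff.continuousOn) (fun w hw => hf.q_ne (h.conj w hw))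
    (hasWind_circle (by exact_mod_cast (ha.trans hr.1).ne')) (circ_mem ha.le hr)

theorem extend {α c : ℝ} {τ d : ℕ} (hα : SD α c τ) {X : Type} [TopologicalSpace X] (C : Curves X)
    {f : X → RatMap d} {P Q : X → ℂ → ℂ} {W : Set X} (hW : IsOpen W) (cf : ContinuousOn f W)
    (hf : ∀ p ∈ W, Mero (f p).1 (P p) (Q p))
    (cP : Continuous fun q : X × ℂ => P q.1 q.2) (cQ : Continuous fun q : X × ℂ => Q q.1 q.2)
    (hP : ∀ i, DifferentiableOn ℂ (fun q : ℂ × ℂ => P (C.τ i q.1) q.2) (C.D i ×ˢ univ))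
    (hQ : ∀ i, DifferentiableOn ℂ (fun q : ℂ × ℂ => Q (C.τ i q.1) q.2) (C.D i ×ˢ univ))
    (hE : ∀ p₁ ∈ W, ∃ R, ∀ᶠ p in 𝓝 p₁, Esc (f p).1 R) {p₀ : X} (hp₀ : p₀ ∈ W) {χ : ℂ → ℂ}
    {a b r : ℝ} (h : Lin (f p₀).1 α χ a b) (ha : 0 < a) (hr : r ∈ Ioo a b)
    (hw : wind (fun θ => Q p₀ (crv χ r θ)) ≠ 0) (hA : IsHerman α (f p₀).1 ((↑) '' (χ '' ann a b))) :
    ∃ V, IsOpen V ∧ p₀ ∈ V ∧ V ⊆ W ∧ ∃ m : X → ℂ, ContinuousOn m V ∧
      (∀ i, DifferentiableOn ℂ (fun t => m (C.τ i t)) (C.D i ∩ C.τ i ⁻¹' V)) ∧ m p₀ = 0 ∧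
      ∀ γ : unitInterval → X, Continuous γ → γ 0 = p₀ → (∀ θ, γ θ ∈ V ∧ m (γ θ) = 0) →
        ∃ B, Conn α (f p₀) ((↑) '' (χ '' ann a b)) (f (γ 1)) B := by
  obtain ⟨σ, c₀, g1, g2, g3, -, g5⟩ := h.symm_form ha (hr.1.trans hr.2)
  obtain ⟨s, s1, s2, s3⟩ : ∃ s, 0 < s ∧ s < σ ∧ ∀ θ : ℝ, ee θ ∈ sann s :=
    ⟨σ / 2, by linarith, by linarith, fun θ => ee_mem_sann.2 (real_mem_strip (by linarith) θ)⟩
  obtain ⟨V, Vo, hV, σ₁, s4, m, Ξ, k1, k2, k3, H⟩ := localKAM hα C (f := fun p => (f p).1)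
    (mem_of_superset (hW.mem_nhds hp₀) hf) cP cQ hP hQ g3 s1 s2
  have w0 : wind (fun θ => Q p₀ (crv (fun w => χ (c₀ * w)) 1 θ)) ≠ 0 := by
    rw [h.wind_radius (hf _ hp₀) ha hr g2] at hw
    simpa [crv] using hw
  refine ⟨V ∩ W, Vo.inter hW, ⟨hV, hp₀⟩, inter_subset_right, m, k1.mono inter_subset_left,
    fun i => (k2 i).mono fun t ht => ⟨ht.1, ht.2.1⟩,
    (H _ hV).2.2.2.2 (fun θ => ee θ) (by simpa using hasWind_ee 0) s3 fun θ => ?_,
    fun γ c1 c2 c3 => ?_⟩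
  · rw [g3.conj _ (sann_mono s2.le (s3 θ))]; push_cast; rw [ee_add, mul_comm (ee α)]
  · have := conn_sheet hα (f := fun θ => f (γ θ)) (P := fun θ => P (γ θ)) (Q := fun θ => Q (γ θ))
      (fun θ => hf _ (c3 θ).1.2) (cP.comp (c1.prodMap continuous_id))
      (cQ.comp (c1.prodMap continuous_id)) (cf.comp_continuous c1 fun θ => (c3 θ).1.2)
      (fun θ => by
        obtain ⟨R, hR⟩ := hE _ (c3 θ).1.2
        exact ⟨R, c1.continuousAt.eventually hR⟩)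
      (χ := fun θ => Ξ (γ θ)) (ri_pos σ₁) (one_mem_ri s4)
      (fun θ => (H _ (c3 θ).1.1).2.2.1 (c3 θ).2)
      (k3.comp_continuous (c1.prodMap continuous_id) fun q => ⟨(c3 q.1).1.1, mem_univ _⟩)
      fun θ => by rw [(H _ (c3 θ).1.1).2.2.2.1]; exact w0
    simp only [c2] at this
    obtain ⟨⟨z, -, hz⟩, -⟩ := hA
    have h2 : ((Ξ p₀ 1 : ℂ) : Sph) ∈ connectedComponentIn (fatou (f p₀).1) z :=
      hz ▸ ⟨_, g5 ▸ (H _ hV).2.1, rfl⟩
    rw [← connectedComponentIn_eq h2, ← hz] at this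
    exact ⟨_, this⟩

end

end Pool.Agent.Lib.MP_1e9af3_an
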