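import Pool.Agent.Lib.MP_1e9af3_an.Near

/-! The Riemann sphere in homogeneous coordinates. -/

namespace Pool.Agent.Lib.MP_1e9af3_an

open Set Filter Topology Complex Metric OnePoint

noncomputable section

/-- The sphere. -/
abbrev Sph : Type := OnePoint ℂ

/-- Projection in vector form. -/
def pv (v : ℂ × ℂ) : Sph := pr v.1 v.2

/-- Determinant. -/
def det (v w : ℂ × ℂ) : ℂ := v.1 * w.2 - v.2 * w.1

lemma ne_zero_iff' {v : ℂ × ℂ} : v ≠ 0 ↔ v.1 ≠ 0 ∨ v.2 ≠ 0 := by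
  rw [Ne, Prod.ext_iff, not_and_or]; rfl

lemma pr_of_ne (x : ℂ) {y : ℂ} (hy : y ≠ 0) : pr x y = ((x / y : ℂ) : Sph) := if_neg hy
@[simp] lemma pr_zero (x : ℂ) : pr x 0 = ∞ := if_pos rfl
@[simp] lemma pr_one (x : ℂ) : pr x 1 = (x : Sph) := by rw [pr_of_ne x one_ne_zero, div_one]

lemma pv_eq_iff {v w : ℂ × ℂ} (hv : v ≠ 0) (hw : w ≠ 0) : pv v = pv w ↔ det v w = 0 := by
  rw [ne_zero_iff'] at hv hw
  unfold pv det
  by_cases h1 : v.2 = 0 <;> by_cases h2 : w.2 = 0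
  · simp [h1, h2]
  · simp [h1, h2, pr_of_ne _ h2, hv.resolve_right (not_not.2 h1)]
  · simp [h1, h2, pr_of_ne _ h1, hw.resolve_right (not_not.2 h2)]
  · rw [pr_of_ne _ h1, pr_of_ne _ h2, coe_eq_coe, div_eq_div_iff h1 h2, sub_eq_zero, mul_comm v.2]

lemma pv_smul {c : ℂ} (hc : c ≠ 0) (v : ℂ × ℂ) : pv (c • v) = pv v := by
  unfold pv
  by_cases h : v.2 = 0
  · simp [h]
  · simp only [Prod.smul_fst, Prod.smul_snd, smul_eq_mul]
    rw [pr_of_ne _ (mul_ne_zero hc h), pr_of_ne _ h, mul_div_mul_left _ _ hc]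

lemma exists_smul_of_pv {v w : ℂ × ℂ} (hv : v ≠ 0) (hw : w ≠ 0) (h : pv v = pv w) :
    ∃ c : ℂ, c ≠ 0 ∧ v = c • w := by
  rw [pv_eq_iff hv hw, det, sub_eq_zero] at h
  have : ∃ c : ℂ, v = c • w := by
    rcases ne_zero_iff'.1 hw with h1 | h1
    · refine ⟨v.1 / w.1, Prod.ext ?_ ?_⟩ <;> simp only [Prod.smul_fst, Prod.smul_snd, smul_eq_mul]
      · field_simp
      · field_simp; linear_combination -h
    · refine ⟨v.2 / w.2, Prod.ext ?_ ?_⟩ <;> simp only [Prod.smul_fst, Prod.smul_snd, smul_eq_mul]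
      · field_simp; linear_combination h
      · field_simp
  obtain ⟨c, hc⟩ := this
  exact ⟨c, by rintro rfl; exact hv (by simpa using hc), hc⟩

/-- A section of the projection. -/
def sec (z : Sph) : ℂ × ℂ := z.elim (1, 0) fun y => (y, 1)

@[simp] lemma sec_infty : sec ∞ = (1, 0) := rfl
@[simp] lemma sec_coe (y : ℂ) : sec (y : Sph) = (y, 1) := rfl
lemma sec_ne (z : Sph) : sec z ≠ 0 := by
  induction z using OnePoint.rec <;> simp
lemma pv_sec (z : Sph) : pv (sec z) = z := by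
  induction z using OnePoint.rec <;> simp [pv]

/-- Neighbourhoods of infinity. -/
def big (R : ℝ) : Set Sph := {z | ∀ y : ℂ, z = y → R < ‖y‖}

lemma big_eq (R : ℝ) : big R = ((↑) '' closedBall (0:ℂ) R)ᶜ := by
  ext z
  induction z using OnePoint.rec <;> simp [big]

lemma isOpen_big (R : ℝ) : IsOpen (big R) := by
  rw [big_eq]; exact isOpen_compl_image_coe.2 ⟨isClosed_closedBall, isCompact_closedBall _ _⟩

lemma infty_mem_big (R : ℝ) : ∞ ∈ big R := fun _ h => absurd h (infty_ne_coe _)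
@[simp] lemma coe_mem_big {R : ℝ} {y : ℂ} : (y : Sph) ∈ big R ↔ R < ‖y‖ := by simp [big]

lemma tendsto_infty {T : Type*} {l : Filter T} {F : T → Sph}
    (h : ∀ R, ∀ᶠ t in l, F t ∈ big R) : Tendsto F l (𝓝 ∞) := by
  rw [hasBasis_nhds_infty.tendsto_right_iff]
  rintro K ⟨-, hK⟩
  obtain ⟨R, hR⟩ := hK.isBounded.exists_norm_le
  filter_upwards [h R] with t ht
  rw [← compl_image_coe]
  rintro ⟨y, hy, he⟩
  exact absurd (ht y he.symm) (not_lt.2 (hR y hy))

lemma continuousAt_pv {v : ℂ × ℂ} (hv : v ≠ 0) : ContinuousAt pv v := by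
  by_cases h : v.2 = 0
  · have h1 : v.1 ≠ 0 := (ne_zero_iff'.1 hv).resolve_right (not_not.2 h)
    rw [ContinuousAt, show pv v = ∞ by simp [pv, h]]
    refine tendsto_infty fun R => ?_
    have h2 : ∀ᶠ w : ℂ × ℂ in 𝓝 v, R * ‖w.2‖ < ‖w.1‖ :=
      (isOpen_lt (by fun_prop) (by fun_prop)).mem_nhds (by simpa [h] using h1)
    filter_upwards [h2] with w hw
    by_cases h3 : w.2 = 0
    · simp [pv, h3, infty_mem_big]
    · rw [pv, pr_of_ne _ h3, coe_mem_big, norm_div, lt_div_iff₀ (norm_pos_iff.2 h3)]; exact hw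
  · have h2 : ∀ᶠ w : ℂ × ℂ in 𝓝 v, w.2 ≠ 0 := continuous_snd.continuousAt.eventually_ne h
    have h3 : ContinuousAt (fun w : ℂ × ℂ => ((w.1 / w.2 : ℂ) : Sph)) v :=
      continuous_coe.continuousAt.comp (continuousAt_fst.div continuousAt_snd h)
    exact h3.congr (by filter_upwards [h2] with w hw using (pr_of_ne _ hw).symm)

lemma exists_local_sec (z₀ : Sph) : ∃ s : Sph → ℂ × ℂ, ContinuousAt s z₀ ∧
    ∀ᶠ z in 𝓝 z₀, s z ≠ 0 ∧ pv (s z) = z := by
  induction z₀ using OnePoint.rec with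
  | coe y =>
    refine ⟨sec, continuousAt_coe.2 ?_, Eventually.of_forall fun z => ⟨sec_ne z, pv_sec z⟩⟩
    exact (show Continuous fun y : ℂ => (y, (1:ℂ)) by fun_prop).continuousAt
  | infty =>
    refine ⟨fun z => (1, z.elim 0 fun y => y⁻¹), continuousAt_const.prodMk ?_, ?_⟩
    · rw [continuousAt_infty']
      simp only [coclosedCompact_eq_cocompact, ← Metric.cobounded_eq_cocompact]
      exact tendsto_inv₀_cobounded
    · filter_upwards [(isOpen_big 0).mem_nhds (infty_mem_big 0)] with z hz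
      refine ⟨by simp, ?_⟩
      induction z using OnePoint.rec with
      | infty => simp [pv]
      | coe y =>
        have : y ≠ 0 := by simpa using hz
        simp [pv, pr_of_ne _ (inv_ne_zero this)]

/-- Homogeneous lifts. -/
structure Hom (d : ℕ) (F : ℂ × ℂ → ℂ × ℂ) : Prop where
  cont : Continuous F
  hom : ∀ (c : ℂ) v, F (c • v) = c ^ d • F v
  ne : ∀ v, v ≠ 0 → F v ≠ 0

/-- The map of the sphere induced by a lift. -/
def act (F : ℂ × ℂ → ℂ × ℂ) (z : Sph) : Sph := pv (F (sec z))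

lemma Hom.act_pv {d : ℕ} {F : ℂ × ℂ → ℂ × ℂ} (h : Hom d F) {v : ℂ × ℂ} (hv : v ≠ 0) :
    act F (pv v) = pv (F v) := by
  obtain ⟨c, hc, he⟩ := exists_smul_of_pv (sec_ne (pv v)) hv (pv_sec _)
  rw [act, he, h.hom, pv_smul (pow_ne_zero _ hc)]

lemma continuous_act {T : Type*} [TopologicalSpace T] {d : ℕ} {F : T → ℂ × ℂ → ℂ × ℂ}
    (h : ∀ t, Hom d (F t)) (hc : Continuous fun q : T × (ℂ × ℂ) => F q.1 q.2) :
    Continuous fun q : T × Sph => act (F q.1) q.2 := by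
  rw [continuous_iff_continuousAt]
  rintro ⟨t, z⟩
  obtain ⟨s, hs, he⟩ := exists_local_sec z
  have h1 : ContinuousAt (fun q : T × Sph => F q.1 (s q.2)) (t, z) :=
    hc.continuousAt.comp (f := fun q : T × Sph => (q.1, s q.2))
      (continuousAt_fst.prodMk (hs.comp' (f := Prod.snd) continuousAt_snd))
  have h2 := (continuousAt_pv ((h t).ne _ he.self_of_nhds.1)).comp (f := fun q : T × Sph =>
    F q.1 (s q.2)) h1
  refine h2.congr ?_
  filter_upwards [(continuousAt_snd (p := (t, z))).tendsto.eventually he] with q hq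
  rw [Function.comp, ← (h q.1).act_pv hq.1, hq.2]

lemma Hom.continuous_act {d : ℕ} {F : ℂ × ℂ → ℂ × ℂ} (h : Hom d F) : Continuous (act F) :=
  (Pool.Agent.Lib.MP_1e9af3_an.continuous_act (T := Unit) (F := fun _ => F) (fun _ => h)
    (h.cont.comp continuous_snd)).comp (f := fun z => ((), z)) (by fun_prop)

/-- Evaluation of a pair of forms. -/
def evF (P Q : MvPolynomial (Fin 2) ℂ) (v : ℂ × ℂ) : ℂ × ℂ :=
  (MvPolynomial.eval ![v.1, v.2] P, MvPolynomial.eval ![v.1, v.2] Q)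

lemma eval_smul_hom {P : MvPolynomial (Fin 2) ℂ} {d : ℕ} (h : P.IsHomogeneous d) (c x y : ℂ) :
    MvPolynomial.eval ![c * x, c * y] P = c ^ d * MvPolynomial.eval ![x, y] P := by
  rw [MvPolynomial.eval_eq', MvPolynomial.eval_eq', Finset.mul_sum]
  refine Finset.sum_congr rfl fun s hs => ?_
  have h1 : s 0 + s 1 = d := by
    by_contra hne
    refine MvPolynomial.mem_support_iff.1 hs (h.coeff_eq_zero ?_)
    rwa [Finsupp.degree_eq_sum, Fin.sum_univ_two]
  simp only [Fin.prod_univ_two, Matrix.cons_val_zero, Matrix.cons_val_one, ← h1]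
  ring

lemma continuous_eval (P : MvPolynomial (Fin 2) ℂ) :
    Continuous fun v : ℂ × ℂ => MvPolynomial.eval ![v.1, v.2] P :=
  (MvPolynomial.continuous_eval P).comp (by fun_prop)

lemma isRat_iff {d : ℕ} {f : C(Sph, Sph)} : IsRat d f ↔ ∃ P Q : MvPolynomial (Fin 2) ℂ,
    P.IsHomogeneous d ∧ Q.IsHomogeneous d ∧ Hom d (evF P Q) ∧ ⇑f = act (evF P Q) := by
  constructor
  · rintro ⟨P, Q, hP, hQ, h⟩
    refine ⟨P, Q, hP, hQ, ⟨(continuous_eval P).prodMk (continuous_eval Q), fun c v => ?_,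
      fun v hv => ne_zero_iff'.2 (h _ _ (ne_zero_iff'.1 hv)).1⟩, funext fun z => ?_⟩
    · simp [evF, eval_smul_hom hP, eval_smul_hom hQ]
    · conv_lhs => rw [← pv_sec z]
      exact (h _ _ (ne_zero_iff'.1 (sec_ne z))).2
  · rintro ⟨P, Q, hP, hQ, h, he⟩
    refine ⟨P, Q, hP, hQ, fun x y hxy => ?_⟩
    have hv : ((x, y) : ℂ × ℂ) ≠ 0 := ne_zero_iff'.2 hxy
    have h1 := ne_zero_iff'.1 (h.ne _ hv)
    have h2 := h.act_pv hv
    rw [← he] at h2
    simp only [evF, pv] at h1 h2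
    exact ⟨h1, h2⟩

/-- The linear map of a symmetric Moebius transformation. -/
def mobL (a b : ℂ) (v : ℂ × ℂ) : ℂ × ℂ := (a * v.1 + b * v.2, b * v.1 + a * v.2)

lemma mobL_inv (a b : ℂ) (v : ℂ × ℂ) : mobL a (-b) (mobL a b v) = (a ^ 2 - b ^ 2) • v := by
  ext <;> simp [mobL] <;> ring

lemma hom_mobL {a b : ℂ} (h : a ^ 2 - b ^ 2 ≠ 0) : Hom 1 (mobL a b) :=
  ⟨by unfold mobL; fun_prop, fun c v => by ext <;> simp [mobL] <;> ring, fun v hv h0 => by
    have := mobL_inv a b v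
    rw [h0] at this
    exact smul_ne_zero h hv (by rw [← this]; simp [mobL])⟩

lemma act_mob_inv {a b : ℂ} (h : a ^ 2 - b ^ 2 ≠ 0) (z : Sph) :
    act (mobL a (-b)) (act (mobL a b) z) = z := by
  rw [act.eq_1 (mobL a b), (hom_mobL (by simpa using h)).act_pv ((hom_mobL h).ne _ (sec_ne z)),
    mobL_inv, pv_smul h, pv_sec]

/-- Symmetric Moebius transformation. -/
def mob (a b : ℂ) (h : a ^ 2 - b ^ 2 ≠ 0) : Sph ≃ₜ Sph where
  toFun := act (mobL a b)
  invFun := act (mobL a (-b))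
  left_inv := act_mob_inv h
  right_inv z := by simpa using act_mob_inv (a := a) (b := -b) (by simpa using h) z
  continuous_toFun := (hom_mobL h).continuous_act
  continuous_invFun := (hom_mobL (by simpa using h)).continuous_act

lemma mob_pv {a b : ℂ} (h : a ^ 2 - b ^ 2 ≠ 0) {v : ℂ × ℂ} (hv : v ≠ 0) :
    mob a b h (pv v) = pv (mobL a b v) := (hom_mobL h).act_pv hv

/-- The inversion `z ↦ 1 / z`. -/
def inv : Sph ≃ₜ Sph := mob 0 1 (by simp)

lemma inv_pr {x y : ℂ} (h : x ≠ 0 ∨ y ≠ 0) : inv (pr x y) = pr y x := by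
  have := mob_pv (a := 0) (b := 1) (by simp) (v := (x, y)) (ne_zero_iff'.2 h)
  simpa [pv, mobL, inv] using this

lemma inv_coe {z : ℂ} (hz : z ≠ 0) : inv (z : Sph) = ((z⁻¹ : ℂ) : Sph) := by
  rw [← pr_one z, inv_pr (Or.inr one_ne_zero), pr_of_ne _ hz, one_div]

lemma inv_zero' : inv ((0 : ℂ) : Sph) = ∞ := by
  rw [← pr_one, inv_pr (Or.inr one_ne_zero), pr_zero]

lemma inv_infty : inv ∞ = ((0 : ℂ) : Sph) := by
  rw [← pr_zero 1, inv_pr (Or.inl one_ne_zero), pr_one]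

lemma inv_inv' (z : Sph) : inv (inv z) = z := by
  rw [← pv_sec z, pv, inv_pr (ne_zero_iff'.1 (sec_ne z)), inv_pr (ne_zero_iff'.1 (sec_ne z)).symm]

instance locConn : LocallyConnectedSpace Sph := by
  rw [locallyConnectedSpace_iff_subsets_isOpen_isConnected]
  have h1 : ∀ (y : ℂ), ∀ U ∈ 𝓝 (y : Sph), ∃ V ⊆ U, IsOpen V ∧ (y : Sph) ∈ V ∧ IsConnected V := by
    intro y U hU
    obtain ⟨r, hr, hb⟩ := Metric.mem_nhds_iff.1 (continuous_coe.continuousAt hU)
    exact ⟨(↑) '' ball y r, image_subset_iff.2 hb, isOpenMap_coe _ isOpen_ball,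
      ⟨y, mem_ball_self hr, rfl⟩, (isConnected_ball hr).image _ continuous_coe.continuousOn⟩
  intro x U hU
  induction x using OnePoint.rec with
  | coe y => exact h1 y U hU
  | infty =>
    rw [← inv_zero'] at hU ⊢
    obtain ⟨V, h2, h3, h4, h5⟩ := h1 0 _ (inv.continuous.continuousAt hU)
    exact ⟨inv '' V, image_subset_iff.2 h2, inv.isOpenMap _ h3, ⟨_, h4, rfl⟩,
      h5.image _ inv.continuous.continuousOn⟩

/-- Conjugation by a homeomorphism. -/
def conj (M : Sph ≃ₜ Sph) (f : C(Sph, Sph)) : C(Sph, Sph) :=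
  ⟨fun z => M (f (M.symm z)), by fun_prop⟩

lemma conj_apply (M : Sph ≃ₜ Sph) (f : C(Sph, Sph)) (z : Sph) : conj M f (M z) = M (f z) := by
  simp [conj]

lemma IsRat.conj {d : ℕ} {f : C(Sph, Sph)} (hf : IsRat d f) {a b : ℂ} (h : a ^ 2 - b ^ 2 ≠ 0) :
    IsRat d (conj (mob a b h) f) := by
  obtain ⟨P, Q, hP, hQ, hH, he⟩ := isRat_iff.1 hf
  have h' : a ^ 2 - (-b) ^ 2 ≠ 0 := by simpa using h
  let L : Fin 2 → MvPolynomial (Fin 2) ℂ :=
    ![MvPolynomial.C a * MvPolynomial.X 0 + MvPolynomial.C (-b) * MvPolynomial.X 1,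
      MvPolynomial.C (-b) * MvPolynomial.X 0 + MvPolynomial.C a * MvPolynomial.X 1]
  have hL : ∀ i, (L i).IsHomogeneous 1 := fun i => by
    fin_cases i <;> exact ((MvPolynomial.isHomogeneous_X ℂ _).C_mul _).add
      ((MvPolynomial.isHomogeneous_X ℂ _).C_mul _)
  have hP' := hP.aeval L hL
  have hQ' := hQ.aeval L hL
  rw [one_mul] at hP' hQ'
  have ev : ∀ (R : MvPolynomial (Fin 2) ℂ) (v : ℂ × ℂ),
      MvPolynomial.eval ![v.1, v.2] (MvPolynomial.aeval L R) =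
      MvPolynomial.eval ![(mobL a (-b) v).1, (mobL a (-b) v).2] R := fun R v => by
    rw [MvPolynomial.aeval_eq_bind₁, ← MvPolynomial.aeval_eq_eval, MvPolynomial.aeval_bind₁,
      ← MvPolynomial.aeval_eq_eval]
    congr 2
    ext i; fin_cases i <;> simp [L, mobL]
  have key : ∀ v, evF (MvPolynomial.C a * MvPolynomial.aeval L P +
      MvPolynomial.C b * MvPolynomial.aeval L Q) (MvPolynomial.C b * MvPolynomial.aeval L P +
      MvPolynomial.C a * MvPolynomial.aeval L Q) v = mobL a b (evF P Q (mobL a (-b) v)) :=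
    fun v => by
      simp only [evF, map_add, map_mul, MvPolynomial.eval_C, ev]; rfl
  refine ⟨_, _, (hP'.C_mul a).add (hQ'.C_mul b), (hP'.C_mul b).add (hQ'.C_mul a), fun x y hxy => ?_⟩
  have hv : ((x, y) : ℂ × ℂ) ≠ 0 := ne_zero_iff'.2 hxy
  have h1 := (hom_mobL h').ne _ hv
  have h2 := hH.ne _ h1
  have h3 := (hom_mobL h).ne _ h2
  have h4 : mob a b h (f (mob a (-b) h' (pv (x, y)))) =
      pv (mobL a b (evF P Q (mobL a (-b) (x, y)))) := by
    rw [mob_pv h' hv, he, hH.act_pv h1, mob_pv h h2]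
  rw [← key] at h3 h4
  rw [ne_zero_iff'] at h3
  simp only [evF, pv] at h3 h4
  exact ⟨h3, h4⟩

/-! ### The Fatou set -/

lemma isOpen_fatou (f : Sph → Sph) : IsOpen (fatou f) := isOpen_interior

lemma fatou_conj_sub (M : Sph ≃ₜ Sph) {f g : Sph → Sph} (h : ∀ z, g (M z) = M (f z)) :
    M '' fatou f ⊆ fatou g := by
  refine interior_maximal ?_ (M.isOpenMap _ (isOpen_fatou f))
  rintro _ ⟨z, hz, rfl⟩ W hW
  have hi : ∀ n z, g^[n] (M z) = M (f^[n] z) := fun n z =>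
    (Function.Semiconj.iterate_right (f := M) (ga := f) (gb := g) (fun z => (h z).symm) n z).symm
  have hW' : Prod.map M M ⁻¹' W ∈ 𝓝ˢ (diagonal Sph) := by
    rw [mem_nhdsSet_iff_forall] at hW ⊢
    rintro ⟨x, y⟩ (rfl : x = y)
    exact (M.continuous.prodMap M.continuous).continuousAt (hW _ rfl)
  have := interior_subset hz _ hW'
  rw [← M.map_nhds_eq, eventually_map]
  filter_upwards [this] with v hv n
  rw [hi, hi]; exact hv n

lemma fatou_conj (M : Sph ≃ₜ Sph) {f g : Sph → Sph} (h : ∀ z, g (M z) = M (f z)) :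
    fatou g = M '' fatou f := by
  refine Subset.antisymm (fun z hz => ⟨M.symm z, ?_, by simp⟩) (fatou_conj_sub M h)
  exact fatou_conj_sub M.symm (f := g) (g := f) (fun z => by
    rw [Homeomorph.eq_symm_apply, ← h]; simp) ⟨z, hz, rfl⟩

lemma entourage_delta {W : Set (Sph × Sph)} (hW : W ∈ 𝓝ˢ (diagonal Sph)) (R : ℝ) :
    ∃ δ > 0, ∀ y y' : ℂ, ‖y‖ ≤ R → ‖y' - y‖ < δ → ((y : Sph), (y' : Sph)) ∈ W := by
  have : ∀ᶠ e in 𝓝 (0:ℂ), ∀ y ∈ closedBall (0:ℂ) R, ((y : Sph), ((y + e : ℂ) : Sph)) ∈ W := by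
    apply (isCompact_closedBall _ _).eventually_forall_of_forall_eventually
    intro y _
    have h1 : Continuous fun q : ℂ × ℂ => ((q.2 : Sph), ((q.2 + q.1 : ℂ) : Sph)) :=
      (continuous_coe.comp continuous_snd).prodMk (continuous_coe.comp (by fun_prop))
    exact h1.continuousAt (mem_nhdsSet_iff_forall.1 hW _ (by simp [diagonal]))
  obtain ⟨δ, hδ, hb⟩ := Metric.eventually_nhds_iff.1 this
  refine ⟨δ, hδ, fun y y' h1 h2 => ?_⟩
  have := hb (y := y' - y) (by simpa using h2) y (by simpa using h1)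
  simpa using this

lemma fatou_of_bounded {f : Sph → Sph} {N : Set ℂ} (hN : IsOpen N) {F : ℕ → ℂ → ℂ} {R : ℝ}
    (hd : ∀ n, DifferentiableOn ℂ (F n) N) (hb : ∀ n, ∀ z ∈ N, ‖F n z‖ ≤ R)
    (he : ∀ n, ∀ z ∈ N, f^[n] z = (F n z : Sph)) : (↑) '' N ⊆ fatou f := by
  refine interior_maximal ?_ (isOpenMap_coe _ hN)
  rintro _ ⟨z, hz, rfl⟩ W hW
  obtain ⟨δ, hδ, hW'⟩ := entourage_delta hW R
  obtain ⟨r, hr, hrN⟩ := Metric.isOpen_iff.1 hN z hz
  rw [nhds_coe_eq, eventually_map]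
  have h1 : ∀ᶠ v in 𝓝 z, 2 * R / r * ‖v - z‖ < δ :=
    (show ContinuousAt (fun v => 2 * R / r * ‖v - z‖) z by fun_prop).eventually
      (gt_mem_nhds (by simpa using hδ))
  filter_upwards [h1, ball_mem_nhds z hr] with v hv1 hv2 n
  rw [he n z hz, he n v (hrN hv2)]
  exact hW' _ _ (hb n z hz) ((lip_of_bdd ((hd n).mono hrN) (fun w hw => hb n w (hrN hw)) hv2).trans_lt
    hv1)

/-- Points outside a large disc escape. -/
def Esc (f : Sph → Sph) (R : ℝ) : Prop :=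
  0 < R ∧ f ∞ = ∞ ∧ ∀ z : ℂ, R ≤ ‖z‖ → f z ∈ big (2 * ‖z‖)

lemma Esc.iter {f : Sph → Sph} {R : ℝ} (h : Esc f R) {z : Sph} (hz : z ∈ big R) (n : ℕ) :
    f^[n] z ∈ big (2 ^ n * R) := by
  induction n with
  | zero => simpa using hz
  | succ n ih =>
    rw [Function.iterate_succ_apply']
    generalize f^[n] z = w at ih
    induction w using OnePoint.rec with
    | infty => rw [h.2.1]; exact infty_mem_big _
    | coe y =>
      rw [coe_mem_big] at ih
      have h1 : (1:ℝ) ≤ 2 ^ n := one_le_pow₀ (by norm_num)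
      have h0 := h.1
      intro y' hy'
      have := h.2.2 y (by nlinarith) y' hy'
      rw [pow_succ]; linarith

lemma Esc.tendsto {f : Sph → Sph} {R : ℝ} (h : Esc f R) {z : Sph} {m : ℕ} (hz : f^[m] z ∈ big R)
    (S : ℝ) : ∃ n, f^[n] z ∈ big S := by
  obtain ⟨n, hn⟩ := pow_unbounded_of_one_lt (S / R) (show (1:ℝ) < 2 by norm_num)
  refine ⟨n + m, fun y hy => ?_⟩
  rw [Function.iterate_add_apply] at hy
  have := h.iter hz n y hy
  rw [div_lt_iff₀ h.1] at hn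
  linarith

lemma Esc.all_escape {f : Sph → Sph} (hf : Continuous f) {R : ℝ} (h : Esc f R) {B : Set Sph}
    (hB : IsPreconnected B) (hBF : B ⊆ fatou f) {z z' : Sph} (hz : z ∈ B) (hz' : z' ∈ B) {m : ℕ}
    (hm : f^[m] z ∈ big R) : ∃ n, f^[n] z' ∈ big R := by
  have hE : IsOpen {z | ∃ n, f^[n] z ∈ big R} := by
    rw [setOf_exists]
    exact isOpen_iUnion fun n => (isOpen_big R).preimage (hf.iterate n)
  refine hB.subset_of_closure_inter_subset hE ⟨z, hz, m, hm⟩ ?_ hz'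
  rintro x ⟨hx1, hx2⟩
  have hW : (big R ×ˢ univ) ∪ (univ ×ˢ ((↑) '' ball (0:ℂ) (2 * R))) ∈ 𝓝ˢ (diagonal Sph) := by
    refine (((isOpen_big R).prod isOpen_univ).union
      (isOpen_univ.prod (isOpenMap_coe _ isOpen_ball))).mem_nhdsSet.2 ?_
    rintro ⟨y, _⟩ (rfl : y = _)
    by_cases hy : y ∈ big R
    · exact Or.inl ⟨hy, trivial⟩
    · right
      simp only [big, mem_setOf_eq, not_forall, not_lt] at hy
      obtain ⟨w, rfl, hw⟩ := hy
      exact ⟨trivial, w, by simp; linarith [h.1], rfl⟩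
  obtain ⟨v, hv1, k, hk⟩ := mem_closure_iff_nhds.1 hx1 _ (interior_subset (hBF hx2) _ hW)
  obtain ⟨n, hn⟩ := h.tendsto hk (2 * R)
  rcases hv1 n with h1 | h1
  · exact ⟨n, h1.1⟩
  · obtain ⟨w, hw, he⟩ := h1.2
    have := hn w he.symm
    simp at hw; linarith

end

end Pool.Agent.Lib.MP_1e9af3_an
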